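import Pool.Agent.Helper23.Flow2

/-!
# The relative bicentralizer and its flow
-/

open scoped InnerProductSpace Topology BoundedContinuousFunction
open ContinuousLinearMap Filter

namespace Pool.Agent.Helper23

variable {H : Type*} [NormedAddCommGroup H] [InnerProductSpace ℂ H] [CompleteSpace H]
variable {M N : VonNeumannAlgebra H} {ξ : H} {E : (H →L[ℂ] H) → (H →L[ℂ] H)}

/-- bounded sequences in `N` with `‖a_n φ - l φ a_n‖ → 0` -/
def LamSeq (N : VonNeumannAlgebra H) (ξ : H) (l : ℝ) (a : ℕ → H →L[ℂ] H) : Prop :=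
  (∀ n, a n ∈ N) ∧ (∃ C : ℝ, ∀ n, ‖a n‖ ≤ C) ∧ Dseq N ξ l a

/-- sequences of unitaries asymptotically commuting with the state -/
def ACU (N : VonNeumannAlgebra H) (ξ : H) (u : ℕ → H →L[ℂ] H) : Prop :=
  (∀ n, u n ∈ N) ∧ (∀ n, star (u n) * u n = 1) ∧ (∀ n, u n * star (u n) = 1) ∧ Dseq N ξ 1 u

/-- the relative bicentralizer -/
def Bicent (M N : VonNeumannAlgebra H) (ξ : H) : Set (H →L[ℂ] H) :=
  {x | x ∈ M ∧ ∀ a, LamSeq N ξ 1 a → ∀ η,
    Tendsto (fun n => x (a n η) - a n (x η)) atTop (𝓝 0)}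

namespace Setting

variable (S : Setting M N E ξ)
include S

lemma norm_right_eig {γ : ℝ} (hγ : 0 < γ) {a y : H →L[ℂ] H} (ha : a ∈ eig N ξ γ)
    (ha1 : ‖a‖ ≤ 1) (hy : y ∈ M) : ‖y (a ξ)‖ ≤ Real.sqrt (2 * γ) * ‖y ξ‖ := by
  have hc : a * star a ∈ eig N ξ 1 := mul_star_mem_eig_one hγ.ne' ha ha
  have h := S.norm_right_eig_sq ha hy
  have h1 : ‖a * star a‖ ≤ 1 := by
    refine (norm_mul_le _ _).trans ?_
    rw [norm_star]
    nlinarith [norm_nonneg a]
  have h3 : ‖y (a ξ)‖ ^ 2 ≤ 2 * γ * ‖y ξ‖ ^ 2 := by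
    have h4 : ‖((‖y (a ξ)‖ ^ 2 : ℝ) : ℂ)‖ ≤ γ * (2 * ‖a * star a‖ * ‖y ξ‖ * ‖y ξ‖) := by
      rw [h, norm_mul, Complex.norm_real, Real.norm_of_nonneg hγ.le]
      gcongr
      exact (norm_inner_le_norm _ _).trans
        (mul_le_mul_of_nonneg_right (S.norm_right_cent hc hy) (norm_nonneg _))
    rw [Complex.norm_real, Real.norm_of_nonneg (by positivity)] at h4
    have h5 : γ * (2 * ‖a * star a‖ * ‖y ξ‖ * ‖y ξ‖) ≤ γ * (2 * 1 * ‖y ξ‖ * ‖y ξ‖) := by
      gcongr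
    linarith
  rw [← Real.sqrt_sq (norm_nonneg (y ξ)), ← Real.sqrt_mul (by positivity)]
  exact Real.le_sqrt_of_sq_le h3

end Setting

lemma norm_le_one_of_isom {v : H →L[ℂ] H} (h : star v * v = 1) : ‖v‖ ≤ 1 :=
  ContinuousLinearMap.opNorm_le_bound _ zero_le_one fun ζ => by
    rw [norm_of_isom h, one_mul]

namespace AP

variable (S : AP M N E ξ)
include S

/-- contractions in the eigenspaces of norm one on `ξ` -/
lemma exists_contr {γ : ℝ} (hγ : γ ∈ Gam N ξ) : ∃ v ∈ eig N ξ γ, ‖v‖ ≤ 1 ∧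
    min 1 γ ≤ ‖v ξ‖ ^ 2 ∧ (1 ≤ γ → star v * v = 1) ∧ (γ ≤ 1 → v * star v = 1) := by
  have h1ξ : ‖(1 : H →L[ℂ] H) ξ‖ ^ 2 = 1 := by
    rw [one_apply_eq_self, S.norm_one]; norm_num
  rcases lt_trichotomy γ 1 with h | h | h
  · obtain ⟨w, hw, hw1, -⟩ := S.exists_isometry (Gam_inv hγ) one_mem_eig (star_one _) (one_mul 1) (by
      rw [inv_inv, h1ξ]; exact h)
    have hv : star w ∈ eig N ξ γ := by
      have := eig_star (inv_ne_zero hγ.1.ne') hw
      rwa [inv_inv] at this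
    have hwn := norm_le_one_of_isom hw1
    refine ⟨star w, hv, by rwa [norm_star], ?_, fun h' => absurd h (not_lt.2 h'), fun _ => ?_⟩
    · rw [min_eq_right h.le, S.eig_norm_sq hv, star_star, norm_of_isom hw1, S.norm_one]
      norm_num
    · rw [star_star, hw1]
  · subst h
    refine ⟨1, one_mem_eig, ?_, ?_, fun _ => by simp, fun _ => by simp⟩
    · exact norm_le_one_of_isom (by simp)
    · rw [h1ξ]; simp
  · obtain ⟨w, hw, hw1, -⟩ := S.exists_isometry hγ one_mem_eig (star_one _) (one_mul 1) (by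
      rw [h1ξ]; exact inv_lt_one_of_one_lt₀ h)
    refine ⟨w, hw, norm_le_one_of_isom hw1, ?_, fun _ => hw1, fun h' => absurd h (not_lt.2 h')⟩
    rw [min_eq_left h.le, norm_of_isom hw1, S.norm_one]
    norm_num

lemma lamSeq_of_eig {l : ℝ} {γ : ℕ → ℝ} (hγ : Tendsto γ atTop (𝓝 l)) {v : ℕ → H →L[ℂ] H}
    (hv : ∀ n, v n ∈ eig N ξ (γ n)) (hv1 : ∀ n, ‖v n‖ ≤ 1) : LamSeq N ξ l v := by
  refine ⟨fun n => (hv n).1, ⟨1, hv1⟩, ?_⟩
  exact Dseq.change S.norm_one hγ hv1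
    (fun ε hε => Eventually.of_forall fun n => Defect.of_eig hε.le (hv n))

lemma InB_of_bicent {x : H →L[ℂ] H} (hx : x ∈ Bicent M N ξ) : InB M N ξ x := by
  have hQ : x ∈ Qalg M N ξ := by
    rw [mem_Qalg]
    refine ⟨hx.1, fun a ha => ?_⟩
    have h1 : LamSeq N ξ 1 (fun _ => a) :=
      ⟨fun _ => ha.1, ⟨‖a‖, fun _ => le_rfl⟩,
        fun ε hε => Eventually.of_forall fun _ => Defect.of_eig hε.le ha⟩
    ext η
    have h2 := hx.2 _ h1 η
    have h3 := tendsto_nhds_unique h2 tendsto_const_nhds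
    exact (sub_eq_zero.1 h3.symm).symm
  refine ⟨hQ, tendsto_of_seq_tendsto fun u hu => ?_⟩
  -- replace `u` by a sequence in `Gam`
  classical
  set γ : ℕ → ℝ := fun n => if u n ∈ Gam N ξ then u n else 1 with hγ
  have hγG : ∀ n, γ n ∈ Gam N ξ := by
    intro n
    by_cases h : u n ∈ Gam N ξ
    · simp only [hγ, if_pos h]; exact h
    · simp only [hγ, if_neg h]; exact S.one_mem_Gam
  have hev : ∀ᶠ n in atTop, γ n = u n := by
    have h1 : ∀ᶠ n in atTop, u n ∈ Gam N ξ := (tendsto_nhdsWithin_iff.1 hu).2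
    filter_upwards [h1] with n hn
    simp only [hγ, if_pos hn]
  have hγ1 : Tendsto γ atTop (𝓝 1) :=
    ((tendsto_nhdsWithin_iff.1 hu).1).congr' (hev.mono fun n hn => hn.symm)
  suffices h : Tendsto (fun n => al M N ξ (γ n) x ξ) atTop (𝓝 (x ξ)) by
    refine h.congr' ?_
    filter_upwards [hev] with n hn
    rw [hn]
    rfl
  choose v hv hv1 hvξ _ _ using fun n => S.exists_contr (hγG n)
  have h1 := hx.2 v (S.lamSeq_of_eig hγ1 hv hv1) ξ
  have h2 : Tendsto (fun n => ‖(al M N ξ (γ n) x - x) ξ‖ * ‖v n ξ‖) atTop (𝓝 0) := by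
    refine (tendsto_zero_iff_norm_tendsto_zero.1 h1).congr fun n => ?_
    have h3 : v n (x ξ) = al M N ξ (γ n) x (v n ξ) :=
      congrArg (fun T : H →L[ℂ] H => T ξ) (S.al_rel (hγG n) hQ (v n) (hv n))
    rw [h3, ← S.norm_Q S.irr (sub_mem (S.al_mem (hγG n) hQ) hQ) (hv n).1, sub_apply,
      norm_sub_rev]
  have h3 : ∀ᶠ n in atTop, (1 / 2 : ℝ) ≤ ‖v n ξ‖ := by
    have h4 : ∀ᶠ n in atTop, (1 / 2 : ℝ) < γ n := hγ1.eventually (lt_mem_nhds (by norm_num))
    filter_upwards [h4] with n hn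
    have h5 := hvξ n
    have h6 : (1 / 2 : ℝ) ≤ min 1 (γ n) := le_min (by norm_num) hn.le
    nlinarith [norm_nonneg (v n ξ)]
  rw [tendsto_iff_norm_sub_tendsto_zero]
  have h4 : Tendsto (fun n => 2 * (‖(al M N ξ (γ n) x - x) ξ‖ * ‖v n ξ‖)) atTop (𝓝 0) := by
    have := h2.const_mul 2
    rwa [mul_zero] at this
  refine squeeze_zero' (Eventually.of_forall fun n => norm_nonneg _) ?_ h4
  filter_upwards [h3] with n hn
  rw [← sub_apply]
  nlinarith [norm_nonneg ((al M N ξ (γ n) x - x) ξ)]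

/-- sequences of eigenvalues converging to `l` from above, on the right side of `1`. -/
lemma exists_seq {l : ℝ} (hl : 0 < l) : ∃ γ : ℕ → ℝ, (∀ n, γ n ∈ Gam N ξ) ∧
    Tendsto γ atTop (𝓝 l) ∧ (1 ≤ l → ∀ n, 1 ≤ γ n) ∧ (l < 1 → ∀ n, γ n ≤ 1) := by
  have h1 : ∀ n : ℕ, ∃ γ ∈ Gam N ξ, l < γ ∧ γ < l + 1 / ((n : ℝ) + 1) ∧ (l < 1 → γ ≤ 1) := by
    intro n
    by_cases h : l < 1
    · obtain ⟨γ, hγ, h1, h2⟩ := S.dns l (min 1 (l + 1 / ((n : ℝ) + 1))) hl
        (lt_min h (by have : 0 < 1 / ((n : ℝ) + 1) := by positivity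
                      linarith))
      exact ⟨γ, hγ, h1, lt_of_lt_of_le h2 (min_le_right _ _),
        fun _ => (lt_of_lt_of_le h2 (min_le_left _ _)).le⟩
    · obtain ⟨γ, hγ, h1, h2⟩ := S.dns l (l + 1 / ((n : ℝ) + 1)) hl
        (by have : 0 < 1 / ((n : ℝ) + 1) := by positivity
            linarith)
      exact ⟨γ, hγ, h1, h2, fun h' => absurd h' h⟩
  choose γ hγ h2 h3 h4 using h1
  refine ⟨γ, hγ, ?_, fun h n => (lt_of_le_of_lt h (h2 n)).le, fun h n => h4 n h⟩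
  have h5 : Tendsto (fun n : ℕ => l + 1 / ((n : ℝ) + 1)) atTop (𝓝 (l + 0)) :=
    tendsto_one_div_add_atTop_nhds_zero_nat.const_add l
  rw [add_zero] at h5
  exact tendsto_of_tendsto_of_tendsto_of_le_of_le tendsto_const_nhds h5
    (fun n => (h2 n).le) (fun n => (h3 n).le)

lemma bet_seq {x : H →L[ℂ] H} (hx : InB M N ξ x) {l : ℝ} (hl : 0 < l) {γ : ℕ → ℝ}
    (hγ : ∀ n, γ n ∈ Gam N ξ) (hγl : Tendsto γ atTop (𝓝 l)) :
    Tendsto (fun n => ‖(al M N ξ (γ n) x - bet M N ξ l x) ξ‖) atTop (𝓝 0) := by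
  have h1 : Tendsto γ atTop (𝓝[Gam N ξ] l) :=
    tendsto_nhdsWithin_iff.2 ⟨hγl, Eventually.of_forall hγ⟩
  have h2 := (S.bet_spec hx hl).2.comp h1
  exact (tendsto_iff_norm_sub_tendsto_zero.1 h2)

/-- it suffices to test commutation on unitaries, at the vector `ξ`. -/
theorem bicent_of_unitary {x : H →L[ℂ] H} (hx : x ∈ M)
    (h : ∀ u, ACU N ξ u → Tendsto (fun n => x (u n ξ) - u n (x ξ)) atTop (𝓝 0)) :
    x ∈ Bicent M N ξ := by
  refine ⟨hx, fun a ha η => ?_⟩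
  obtain ⟨haN, ⟨C, hC⟩, hD⟩ := ha
  have h2 : Tendsto (fun n => (x * a n - a n * x) ξ) atTop (𝓝 0) := by
    have hcl : IsClosed (ACalg N ξ : Set (ℕ →ᵇ N.toStarSubalgebra)) := ACalg_isClosed S.norm_one
    let a' : ℕ →ᵇ N.toStarSubalgebra :=
      BoundedContinuousFunction.ofNormedAddCommGroup
        (fun n => (⟨a n, haN n⟩ : N.toStarSubalgebra))
        continuous_of_discreteTopology C (fun n => hC n)
    have ha'n : ∀ n, ((a' n : N.toStarSubalgebra) : H →L[ℂ] H) = a n := fun n => rfl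
    have ha' : a' ∈ ACalg N ξ := hD
    obtain ⟨u, k, hk, -⟩ := CStarAlgebra.exists_sum_four_unitary (⟨a', ha'⟩ : ACalg N ξ)
    have hsum : ∀ n, a n = ∑ i, k i •
        ((((u i : ACalg N ξ) : ℕ →ᵇ N.toStarSubalgebra) n : N.toStarSubalgebra) :
          H →L[ℂ] H) := by
      intro n
      have h1 : a' = ∑ i, k i • (((u i : ACalg N ξ) : ℕ →ᵇ N.toStarSubalgebra)) := by
        have := congrArg (fun z : ACalg N ξ => (z : ℕ →ᵇ N.toStarSubalgebra)) hk
        simpa using this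
      have h2 : a' n = ∑ i, k i • (((u i : ACalg N ξ) : ℕ →ᵇ N.toStarSubalgebra)) n := by
        rw [h1, BoundedContinuousFunction.sum_apply]
        rfl
      rw [← ha'n n, h2]
      simp
    have hi : ∀ i, Tendsto (fun n =>
        x (((((u i : ACalg N ξ) : ℕ →ᵇ N.toStarSubalgebra) n : N.toStarSubalgebra) :
          H →L[ℂ] H) ξ) -
        ((((u i : ACalg N ξ) : ℕ →ᵇ N.toStarSubalgebra) n : N.toStarSubalgebra) :
          H →L[ℂ] H) (x ξ)) atTop (nhds 0) := by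
      intro i
      refine h _ ⟨fun n => ((((u i : ACalg N ξ) : ℕ →ᵇ N.toStarSubalgebra) n).2), fun n => ?_,
        fun n => ?_, (u i : ACalg N ξ).2⟩
      · have e1 : star (((u i : ACalg N ξ) : ℕ →ᵇ N.toStarSubalgebra) n) *
            (((u i : ACalg N ξ) : ℕ →ᵇ N.toStarSubalgebra) n) = 1 := by
          have := Unitary.star_mul_self_of_mem (u i).2
          exact congrArg (fun z : ACalg N ξ => (z : ℕ →ᵇ N.toStarSubalgebra) n) this
        exact congrArg (fun z : N.toStarSubalgebra => (z : H →L[ℂ] H)) e1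
      · have e2 : (((u i : ACalg N ξ) : ℕ →ᵇ N.toStarSubalgebra) n) *
            star (((u i : ACalg N ξ) : ℕ →ᵇ N.toStarSubalgebra) n) = 1 := by
          have := Unitary.mul_star_self_of_mem (u i).2
          exact congrArg (fun z : ACalg N ξ => (z : ℕ →ᵇ N.toStarSubalgebra) n) this
        exact congrArg (fun z : N.toStarSubalgebra => (z : H →L[ℂ] H)) e2
    have hfin : Tendsto (fun n => ∑ i, k i •
        (x (((((u i : ACalg N ξ) : ℕ →ᵇ N.toStarSubalgebra) n : N.toStarSubalgebra) :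
          H →L[ℂ] H) ξ) -
        ((((u i : ACalg N ξ) : ℕ →ᵇ N.toStarSubalgebra) n : N.toStarSubalgebra) :
          H →L[ℂ] H) (x ξ))) atTop (nhds (∑ i, k i • (0 : H))) :=
      tendsto_finsetSum _ fun i _ => (hi i).const_smul (k i)
    simp only [smul_zero, Finset.sum_const_zero] at hfin
    refine hfin.congr fun n => ?_
    change _ = x (a n ξ) - a n (x ξ)
    rw [hsum n, sum_apply, sum_apply, map_sum, ← Finset.sum_sub_distrib]
    refine Finset.sum_congr rfl fun i _ => ?_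
    rw [smul_apply, smul_apply, map_smul, smul_sub]
  exact tendsto_of_bounded M S.dense_comm (x := fun n => x * a n - a n * x)
    (C := ‖x‖ * C + C * ‖x‖)
    (fun n => sub_mem (mul_mem hx (S.le _ (haN n))) (mul_mem (S.le _ (haN n)) hx))
    (fun n => (norm_sub_le _ _).trans (add_le_add
      ((norm_mul_le _ _).trans (mul_le_mul_of_nonneg_left (hC n) (norm_nonneg _)))
      ((norm_mul_le _ _).trans (mul_le_mul_of_nonneg_right (hC n) (norm_nonneg _))))) h2 η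

omit S in
lemma ACU_lamSeq {u : ℕ → H →L[ℂ] H} (hu : ACU N ξ u) : LamSeq N ξ 1 u :=
  ⟨hu.1, ⟨1, fun n => norm_le_one_of_isom (hu.2.1 n)⟩, hu.2.2.2⟩

omit S in
lemma ACU_star {u : ℕ → H →L[ℂ] H} (hu : ACU N ξ u) : ACU N ξ (fun n => star (u n)) := by
  refine ⟨fun n => star_mem (hu.1 n), fun n => ?_, fun n => ?_, ?_⟩
  · rw [star_star]; exact hu.2.2.1 n
  · rw [star_star]; exact hu.2.1 n
  · have := Dseq.star one_pos hu.2.2.2
    rwa [inv_one] at this

omit S in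
lemma bicent_one : (1 : H →L[ℂ] H) ∈ Bicent M N ξ :=
  ⟨one_mem M, fun a _ η => by
    simp only [one_apply_eq_self, sub_self]
    exact tendsto_const_nhds⟩

omit S in
lemma bicent_add {x y : H →L[ℂ] H} (hx : x ∈ Bicent M N ξ) (hy : y ∈ Bicent M N ξ) :
    x + y ∈ Bicent M N ξ := by
  refine ⟨add_mem hx.1 hy.1, fun a ha η => ?_⟩
  have h := (hx.2 a ha η).add (hy.2 a ha η)
  rw [add_zero] at h
  refine h.congr fun n => ?_
  rw [add_apply, add_apply, map_add]
  abel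

omit S in
lemma bicent_smul (c : ℂ) {x : H →L[ℂ] H} (hx : x ∈ Bicent M N ξ) :
    c • x ∈ Bicent M N ξ := by
  refine ⟨smul_mem' c hx.1, fun a ha η => ?_⟩
  have h := (hx.2 a ha η).const_smul c
  rw [smul_zero] at h
  refine h.congr fun n => ?_
  rw [smul_apply, smul_apply, map_smul, smul_sub]

omit S in
lemma bicent_mul {x y : H →L[ℂ] H} (hx : x ∈ Bicent M N ξ) (hy : y ∈ Bicent M N ξ) :
    x * y ∈ Bicent M N ξ := by
  refine ⟨mul_mem hx.1 hy.1, fun a ha η => ?_⟩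
  have h1 := (x.continuous.tendsto 0).comp (hy.2 a ha η)
  rw [map_zero] at h1
  have h := h1.add (hx.2 a ha (y η))
  rw [add_zero] at h
  refine h.congr fun n => ?_
  change x (y (a n η) - a n (y η)) + (x (a n (y η)) - a n (x (y η))) =
    x (y (a n η)) - a n (x (y η))
  rw [map_sub]
  abel

lemma bicent_memQ {x : H →L[ℂ] H} (hx : x ∈ Bicent M N ξ) : x ∈ Qalg M N ξ :=
  (S.InB_of_bicent hx).1

/-- the bicentralizer is star closed -/
lemma bicent_star {x : H →L[ℂ] H} (hx : x ∈ Bicent M N ξ) : star x ∈ Bicent M N ξ := by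
  refine S.bicent_of_unitary (star_mem hx.1) fun u hu => ?_
  -- `star u x u → x` strongly
  have hT : ∀ η, Tendsto (fun n => (star (u n) * x * u n) η) atTop (𝓝 (x η)) := by
    intro η
    rw [tendsto_iff_norm_sub_tendsto_zero]
    refine (tendsto_zero_iff_norm_tendsto_zero.1 (hx.2 u (ACU_lamSeq hu) η)).congr fun n => ?_
    have e1 : (star (u n) * x * u n) η - x η =
        (star (u n)) (x (u n η) - u n (x η)) := by
      rw [map_sub]
      have : (star (u n)) (u n (x η)) = x η :=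
        congrArg (fun T : H →L[ℂ] H => T (x η)) (hu.2.1 n)
      rw [this]; rfl
    rw [e1, norm_of_isom (by rw [star_star]; exact hu.2.2.1 n)]
  -- the state of `star u (x star x) u`
  have hφ : Tendsto (fun n => ⟪ξ, (star (u n) * (x * star x) * u n) ξ⟫_ℂ) atTop
      (𝓝 ⟪ξ, (x * star x) ξ⟫_ℂ) := by
    rw [tendsto_iff_norm_sub_tendsto_zero]
    rw [Metric.tendsto_atTop]
    intro ε hε
    have hxx : x * star x ∈ M := mul_mem hx.1 (star_mem hx.1)
    have hEx : E (x * star x) ∈ N := S.E_mem _ hxx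
    have h1 := hu.2.2.2 (ε / (2 * (‖E (x * star x)‖ + 1))) (by positivity)
    obtain ⟨n0, hn0⟩ := eventually_atTop.1 h1
    refine ⟨n0, fun n hn => ?_⟩
    have h2 := hn0 n hn (star (u n) * E (x * star x))
      (mul_mem (star_mem (hu.1 n)) hEx)
    rw [Real.dist_eq, sub_zero, abs_of_nonneg (norm_nonneg _)]
    have e1 : ⟪ξ, (star (u n) * (x * star x) * u n) ξ⟫_ℂ =
        ⟪ξ, (star (u n) * E (x * star x)) (u n ξ)⟫_ℂ := by
      rw [← S.E_state _ (mul_mem (mul_mem (star_mem (S.le _ (hu.1 n))) hxx) (S.le _ (hu.1 n))),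
        S.E_bimod _ (star_mem (hu.1 n)) _ (hu.1 n) _ hxx]
      rfl
    have e2 : ⟪ξ, (x * star x) ξ⟫_ℂ = ⟪ξ, u n ((star (u n) * E (x * star x)) ξ)⟫_ℂ := by
      rw [← S.E_state _ hxx]
      have : u n ((star (u n) * E (x * star x)) ξ) = E (x * star x) ξ :=
        congrArg (fun T : H →L[ℂ] H => T (E (x * star x) ξ)) (hu.2.2.1 n)
      rw [this]
    rw [e1, e2]
    rw [Complex.ofReal_one, one_mul] at h2
    refine lt_of_le_of_lt h2 ?_
    have e3 : ‖star (u n) * E (x * star x)‖ ≤ ‖E (x * star x)‖ := by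
      refine (norm_mul_le _ _).trans ?_
      rw [norm_star]
      calc ‖u n‖ * ‖E (x * star x)‖ ≤ 1 * ‖E (x * star x)‖ := by
            gcongr; exact norm_le_one_of_isom (hu.2.1 n)
        _ = _ := one_mul _
    calc ε / (2 * (‖E (x * star x)‖ + 1)) * ‖star (u n) * E (x * star x)‖ ≤
          ε / (2 * (‖E (x * star x)‖ + 1)) * (‖E (x * star x)‖ + 1) := by
            gcongr; linarith
      _ = ε / 2 := by field_simp
      _ < ε := by linarith
  -- the norms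
  have hkey : ∀ n, ‖(star x) (u n ξ) - u n ((star x) ξ)‖ ^ 2 =
      (⟪ξ, (star (u n) * (x * star x) * u n) ξ⟫_ℂ).re + (⟪ξ, (x * star x) ξ⟫_ℂ).re -
        2 * (⟪ξ, (star (u n) * x * u n) ((star x) ξ)⟫_ℂ).re := by
    intro n
    have e1 : ‖(star x) (u n ξ)‖ ^ 2 = (⟪ξ, (star (u n) * (x * star x) * u n) ξ⟫_ℂ).re := by
      have h1 : ⟪ξ, (star (u n) * (x * star x) * u n) ξ⟫_ℂ =
          ⟪(star x) (u n ξ), (star x) (u n ξ)⟫_ℂ := by
        rw [inner_star_left]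
        change ⟪ξ, (star (u n)) ((x * star x) (u n ξ))⟫_ℂ = _
        rw [inner_star_right]; rfl
      rw [h1, inner_self_eq_norm_sq_to_K]
      norm_cast
    have e2 : ‖u n ((star x) ξ)‖ ^ 2 = (⟪ξ, (x * star x) ξ⟫_ℂ).re := by
      rw [norm_of_isom (hu.2.1 n)]
      have h1 : ⟪ξ, (x * star x) ξ⟫_ℂ = ⟪(star x) ξ, (star x) ξ⟫_ℂ := by
        rw [inner_star_left]; rfl
      rw [h1, inner_self_eq_norm_sq_to_K]
      norm_cast
    rw [@norm_sub_sq ℂ, e1, e2]
    have e3 : ⟪(star x) (u n ξ), u n ((star x) ξ)⟫_ℂ =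
        ⟪ξ, (star (u n) * x * u n) ((star x) ξ)⟫_ℂ := by
      rw [inner_star_left]
      change _ = ⟪ξ, (star (u n)) ((x * u n) ((star x) ξ))⟫_ℂ
      rw [inner_star_right]; rfl
    rw [e3]
    change _ - 2 * (⟪ξ, (star (u n) * x * u n) ((star x) ξ)⟫_ℂ).re + _ = _
    ring
  have hlim : Tendsto (fun n => ‖(star x) (u n ξ) - u n ((star x) ξ)‖ ^ 2) atTop (𝓝 0) := by
    simp only [hkey]
    have h1 : Tendsto (fun n => ⟪ξ, (star (u n) * x * u n) ((star x) ξ)⟫_ℂ) atTop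
        (𝓝 ⟪ξ, x ((star x) ξ)⟫_ℂ) := tendsto_const_nhds.inner (hT _)
    have h2 := (((Complex.continuous_re.tendsto _).comp hφ).add_const
      (⟪ξ, (x * star x) ξ⟫_ℂ).re).sub (((Complex.continuous_re.tendsto _).comp h1).const_mul 2)
    have e1 : (⟪ξ, (x * star x) ξ⟫_ℂ).re + (⟪ξ, (x * star x) ξ⟫_ℂ).re -
        2 * (⟪ξ, x ((star x) ξ)⟫_ℂ).re = 0 := by
      change (⟪ξ, x ((star x) ξ)⟫_ℂ).re + (⟪ξ, x ((star x) ξ)⟫_ℂ).re - _ = _
      ring
    rw [e1] at h2
    exact h2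
  rw [tendsto_zero_iff_norm_tendsto_zero]
  have h3 := (Real.continuous_sqrt.tendsto _).comp hlim
  rw [Real.sqrt_zero] at h3
  refine h3.congr fun n => ?_
  exact Real.sqrt_sq (norm_nonneg _)

/-- closedness of the bicentralizer -/
lemma bicent_of_closure {x : H →L[ℂ] H} (hx : x ∈ Qalg M N ξ)
    (h : x ξ ∈ closure {v : H | ∃ y ∈ Bicent M N ξ, v = y ξ}) : x ∈ Bicent M N ξ := by
  refine S.bicent_of_unitary (mem_Qalg.1 hx).1 fun u hu => ?_
  rw [Metric.tendsto_atTop]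
  intro ε hε
  obtain ⟨_, ⟨y, hy, rfl⟩, hd⟩ := Metric.mem_closure_iff.1 h (ε / 4) (by positivity)
  rw [dist_eq_norm] at hd
  obtain ⟨n0, hn0⟩ := Metric.tendsto_atTop.1 (hy.2 u (ACU_lamSeq hu) ξ) (ε / 4) (by positivity)
  refine ⟨n0, fun n hn => ?_⟩
  have h1 := hn0 n hn
  rw [dist_zero_right] at h1 ⊢
  have hxy : x - y ∈ Qalg M N ξ := sub_mem hx (S.bicent_memQ hy)
  have h2 : ‖(x - y) (u n ξ)‖ ≤ ε / 4 := by
    rw [S.norm_Q S.irr hxy (hu.1 n), norm_of_isom (hu.2.1 n), S.norm_one, mul_one]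
    exact hd.le
  have h3 : ‖u n ((x - y) ξ)‖ ≤ ε / 4 := by
    rw [norm_of_isom (hu.2.1 n)]
    exact hd.le
  have e1 : x (u n ξ) - u n (x ξ) = (x - y) (u n ξ) - u n ((x - y) ξ) +
      (y (u n ξ) - u n (y ξ)) := by
    rw [sub_apply, sub_apply, map_sub]
    abel
  rw [e1]
  calc _ ≤ ‖(x - y) (u n ξ) - u n ((x - y) ξ)‖ + ‖y (u n ξ) - u n (y ξ)‖ := norm_add_le _ _
    _ ≤ (‖(x - y) (u n ξ)‖ + ‖u n ((x - y) ξ)‖) + ‖y (u n ξ) - u n (y ξ)‖ := by
        gcongr; exact norm_sub_le _ _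
    _ < ε := by linarith

/-- two-sided compression by an eigenoperator does not kill, after rotation. -/
lemma exists_rot2 {γ : ℝ} (hγ : 0 < γ) {v : H →L[ℂ] H} (hv : v ∈ eig N ξ γ) (hv0 : v ≠ 0)
    {z : H →L[ℂ] H} (hz : z ∈ M) : ∃ w ∈ Ucent N ξ, ∃ w' ∈ Ucent N ξ,
      (1 / 4) * (‖(star v) ξ‖ ^ 2 * ‖v ξ‖ ^ 2 * ‖z ξ‖ ^ 2) ≤
        ‖(star v * w * z * w' * v) ξ‖ ^ 2 := by
  have hvv : v * star v ∈ eig N ξ 1 := mul_star_mem_eig_one hγ.ne' hv hv
  have hφ : ⟪ξ, (v * star v) ξ⟫_ℂ = ((‖(star v) ξ‖ ^ 2 : ℝ) : ℂ) := by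
    rw [norm_sq_apply, star_star]; rfl
  have hns : γ * ‖(star v) ξ‖ ^ 2 = ‖v ξ‖ ^ 2 := (S.eig_norm_sq hv).symm
  have hvξ : v ξ ≠ 0 := fun h => hv0 (S.sep v (S.le v hv.1) h)
  have hvn : 0 < ‖v ξ‖ ^ 2 := by positivity
  have hvsn : 0 < ‖(star v) ξ‖ ^ 2 := by
    by_contra hcon
    push Not at hcon
    nlinarith
  by_cases hzξ : z ξ = 0
  · refine ⟨1, one_mem_Ucent, 1, one_mem_Ucent, ?_⟩
    rw [hzξ, norm_zero]
    simp only [ne_eq, OfNat.ofNat_ne_zero, not_false_eq_true, zero_pow, mul_zero]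
    positivity
  have hzn : 0 < ‖z ξ‖ ^ 2 := by positivity
  -- rotation on the right
  obtain ⟨u, hu, h1⟩ := S.exists_avg hvv.1 ((star z) (z ξ))
    (c := (1 / 2) * (‖(star v) ξ‖ ^ 2 * ‖z ξ‖ ^ 2)) (by
      rw [inner_star_left, map_smul, inner_smul_right, hφ, inner_self_eq_norm_sq_to_K]
      have : (((‖(star v) ξ‖ ^ 2 : ℝ) : ℂ) * ((‖z ξ‖ : ℂ)) ^ 2).re =
          ‖(star v) ξ‖ ^ 2 * ‖z ξ‖ ^ 2 := by
        norm_cast
      change _ < (((‖(star v) ξ‖ ^ 2 : ℝ) : ℂ) * ((‖z ξ‖ : ℂ)) ^ 2).re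
      rw [this]
      have : 0 < ‖(star v) ξ‖ ^ 2 * ‖z ξ‖ ^ 2 := by positivity
      linarith)
  have hus := Ucent_star hu
  have h2 := S.norm_right_eig_sq (eig_mul_left hus.1 hv) hz
  have h3 : star u * v * star (star u * v) = star u * (v * star v) * u := by
    rw [star_mul, star_star]; simp only [mul_assoc]
  rw [h3] at h2
  have h4 : ‖z ((star u * v) ξ)‖ ^ 2 =
      γ * (⟪(star z) (z ξ), (star u * (v * star v) * u) ξ⟫_ℂ).re := by
    have h5 := congrArg Complex.re h2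
    rw [Complex.ofReal_re, Complex.re_ofReal_mul] at h5
    rw [h5, inner_star_left, ← inner_conj_symm, Complex.conj_re]
  have h5 : (1 / 2) * (‖v ξ‖ ^ 2 * ‖z ξ‖ ^ 2) ≤ ‖z ((star u * v) ξ)‖ ^ 2 := by
    rw [h4, ← hns]
    calc (1 / 2) * (γ * ‖(star v) ξ‖ ^ 2 * ‖z ξ‖ ^ 2) =
          γ * ((1 / 2) * (‖(star v) ξ‖ ^ 2 * ‖z ξ‖ ^ 2)) := by ring
      _ ≤ _ := by gcongr
  set ζ := z ((star u * v) ξ) with hζ
  have hζn : 0 < ‖ζ‖ ^ 2 := lt_of_lt_of_le (by positivity) h5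
  -- rotation on the left
  obtain ⟨w, hw, h6⟩ := S.exists_avg' hvv.1 ζ ζ
    (c := (1 / 2) * (‖(star v) ξ‖ ^ 2 * ‖ζ‖ ^ 2)) (by
      rw [hφ, inner_self_eq_norm_sq_to_K]
      have : (((‖(star v) ξ‖ ^ 2 : ℝ) : ℂ) * ((‖ζ‖ : ℂ)) ^ 2).re =
          ‖(star v) ξ‖ ^ 2 * ‖ζ‖ ^ 2 := by
        norm_cast
      change _ < (((‖(star v) ξ‖ ^ 2 : ℝ) : ℂ) * ((‖ζ‖ : ℂ)) ^ 2).re
      rw [this]
      have : 0 < ‖(star v) ξ‖ ^ 2 * ‖ζ‖ ^ 2 := by positivity
      linarith)
  refine ⟨w, hw, star u, hus, ?_⟩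
  have h7 : ‖(star v * w * z * star u * v) ξ‖ ^ 2 = (⟪ζ, (star w * (v * star v) * w) ζ⟫_ℂ).re := by
    have e1 : (star v * w * z * star u * v) ξ = (star v) (w ζ) := rfl
    have e2 : ⟪ζ, (star w * (v * star v) * w) ζ⟫_ℂ = ⟪(star v) (w ζ), (star v) (w ζ)⟫_ℂ := by
      rw [inner_star_left]
      change ⟪ζ, (star w) ((v * star v) (w ζ))⟫_ℂ = _
      rw [inner_star_right]; rfl
    rw [e1, e2, inner_self_eq_norm_sq_to_K]
    norm_cast
  rw [h7]
  calc (1 / 4) * (‖(star v) ξ‖ ^ 2 * ‖v ξ‖ ^ 2 * ‖z ξ‖ ^ 2) =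
        (1 / 2) * (‖(star v) ξ‖ ^ 2 * ((1 / 2) * (‖v ξ‖ ^ 2 * ‖z ξ‖ ^ 2))) := by ring
    _ ≤ (1 / 2) * (‖(star v) ξ‖ ^ 2 * ‖ζ‖ ^ 2) := by gcongr
    _ ≤ _ := h6.le

/-- the bicentralizer is invariant under the transport maps -/
lemma bicent_al {γ : ℝ} (hγ : γ ∈ Gam N ξ) {x : H →L[ℂ] H} (hx : x ∈ Bicent M N ξ) :
    al M N ξ γ x ∈ Bicent M N ξ := by
  have hxQ := S.bicent_memQ hx
  have hyQ := S.al_mem hγ hxQ
  set y := al M N ξ γ x with hy
  obtain ⟨hγ0, v, hv, hv0⟩ := hγ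
  have hγ : γ ∈ Gam N ξ := ⟨hγ0, v, hv, hv0⟩
  refine S.bicent_of_unitary (mem_Qalg.1 hyQ).1 fun u hu => ?_
  have hzM : ∀ n, y * u n - u n * y ∈ M := fun n =>
    sub_mem (mul_mem (mem_Qalg.1 hyQ).1 (S.le _ (hu.1 n)))
      (mul_mem (S.le _ (hu.1 n)) (mem_Qalg.1 hyQ).1)
  choose w hw w' hw' hww using fun n => S.exists_rot2 hγ0 hv hv0 (hzM n)
  -- the compressed sequence
  have hdef : Dseq N ξ 1 (fun n => star v * w n * u n * w' n * v) := by
    have d0 : Dseq N ξ 1 (fun n => w n) := fun ε hε =>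
      Eventually.of_forall fun n => Defect.of_eig hε.le (hw n).1
    have d0' : Dseq N ξ 1 (fun n => w' n) := fun ε hε =>
      Eventually.of_forall fun n => Defect.of_eig hε.le (hw' n).1
    have dv : Dseq N ξ γ (fun _ => v) := fun ε hε =>
      Eventually.of_forall fun n => Defect.of_eig hε.le hv
    have dvs : Dseq N ξ γ⁻¹ (fun _ => star v) := fun ε hε =>
      Eventually.of_forall fun n => Defect.of_eig hε.le (eig_star hγ0.ne' hv)
    have nw : ∀ n, ‖w n‖ ≤ 1 := fun n => norm_le_one_of_isom (hw n).2.1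
    have nw' : ∀ n, ‖w' n‖ ≤ 1 := fun n => norm_le_one_of_isom (hw' n).2.1
    have nu : ∀ n, ‖u n‖ ≤ 1 := fun n => norm_le_one_of_isom (hu.2.1 n)
    set C := ‖v‖ + 1 with hC
    have hC1 : 1 ≤ C := by rw [hC]; linarith [norm_nonneg v]
    have hvC : ‖v‖ ≤ C := by rw [hC]; linarith
    have d1 := Dseq.mul (C := C) (fun n => star_mem hv.1) (fun n => (hw n).1.1)
      (fun n => by rw [norm_star]; exact hvC) (fun n => (nw n).trans hC1) dvs d0
    have n1 : ∀ n, ‖star v * w n‖ ≤ C := fun n => by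
      refine (norm_mul_le _ _).trans ?_
      rw [norm_star]
      calc ‖v‖ * ‖w n‖ ≤ C * 1 := by gcongr; exact nw n
        _ = C := mul_one C
    have m1 : ∀ n, star v * w n ∈ N := fun n => mul_mem (star_mem hv.1) (hw n).1.1
    have d2 := Dseq.mul (C := C) m1 hu.1 n1 (fun n => (nu n).trans hC1) d1 hu.2.2.2
    have n2 : ∀ n, ‖star v * w n * u n‖ ≤ C := fun n => by
      refine (norm_mul_le _ _).trans ?_
      calc ‖star v * w n‖ * ‖u n‖ ≤ C * 1 := by gcongr; exacts [n1 n, nu n]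
        _ = C := mul_one C
    have m2 : ∀ n, star v * w n * u n ∈ N := fun n => mul_mem (m1 n) (hu.1 n)
    have d3 := Dseq.mul (C := C) m2 (fun n => (hw' n).1.1) n2 (fun n => (nw' n).trans hC1) d2 d0'
    have n3 : ∀ n, ‖star v * w n * u n * w' n‖ ≤ C := fun n => by
      refine (norm_mul_le _ _).trans ?_
      calc ‖star v * w n * u n‖ * ‖w' n‖ ≤ C * 1 := by gcongr; exacts [n2 n, nw' n]
        _ = C := mul_one C
    have m3 : ∀ n, star v * w n * u n * w' n ∈ N := fun n => mul_mem (m2 n) (hw' n).1.1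
    have d4 := Dseq.mul (C := C) m3 (fun n => hv.1) n3 (fun n => hvC) d3 dv
    rwa [mul_one, mul_one, mul_one, inv_mul_cancel₀ hγ0.ne'] at d4
  have hls : LamSeq N ξ 1 (fun n => star v * w n * u n * w' n * v) := by
    refine ⟨fun n => mul_mem (mul_mem (mul_mem (mul_mem (star_mem hv.1) (hw n).1.1) (hu.1 n))
      (hw' n).1.1) hv.1, ⟨‖v‖ * ‖v‖, fun n => ?_⟩, hdef⟩
    have nw : ‖w n‖ ≤ 1 := norm_le_one_of_isom (hw n).2.1
    have nw' : ‖w' n‖ ≤ 1 := norm_le_one_of_isom (hw' n).2.1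
    have nu : ‖u n‖ ≤ 1 := norm_le_one_of_isom (hu.2.1 n)
    calc ‖star v * w n * u n * w' n * v‖ ≤ ‖star v‖ * ‖w n‖ * ‖u n‖ * ‖w' n‖ * ‖v‖ := by
          refine (norm_mul_le _ _).trans ?_
          gcongr
          refine (norm_mul_le _ _).trans ?_
          gcongr
          refine (norm_mul_le _ _).trans ?_
          gcongr
          exact norm_mul_le _ _
      _ ≤ ‖star v‖ * 1 * 1 * 1 * ‖v‖ := by gcongr
      _ = ‖v‖ * ‖v‖ := by rw [norm_star]; ring
  have h1 := hx.2 _ hls ξ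
  have hrel : v * x = y * v := S.al_rel hγ hxQ v hv
  have hrel' : star v * y = x * star v :=
    Rel.adj S.irr hγ0.ne' ⟨v, hv, hv0⟩ hyQ (S.al_rel hγ hxQ) (eig_star hγ0.ne' hv)
  have hcomp : ∀ n, (star v * w n * (y * u n - u n * y) * w' n * v) ξ =
      x ((star v * w n * u n * w' n * v) ξ) - (star v * w n * u n * w' n * v) (x ξ) := by
    intro n
    have c1 : w n * y = y * w n := (mem_Qalg.1 hyQ).2 _ (hw n).1
    have c2 : w' n * y = y * w' n := (mem_Qalg.1 hyQ).2 _ (hw' n).1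
    have e1 : star v * w n * (y * u n - u n * y) * w' n * v =
        x * (star v * w n * u n * w' n * v) - (star v * w n * u n * w' n * v) * x := by
      have e2 : star v * w n * (y * u n) * w' n * v = x * (star v * w n * u n * w' n * v) := by
        calc star v * w n * (y * u n) * w' n * v = star v * (w n * y) * u n * w' n * v := by
              simp only [mul_assoc]
          _ = (star v * y) * w n * u n * w' n * v := by rw [c1]; simp only [mul_assoc]
          _ = _ := by rw [hrel']; simp only [mul_assoc]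
      have e3 : star v * w n * (u n * y) * w' n * v = (star v * w n * u n * w' n * v) * x := by
        calc star v * w n * (u n * y) * w' n * v = star v * w n * u n * (y * w' n) * v := by
              simp only [mul_assoc]
          _ = star v * w n * u n * w' n * (y * v) := by rw [← c2]; simp only [mul_assoc]
          _ = _ := by rw [← hrel]; simp only [mul_assoc]
      rw [mul_sub, sub_mul, sub_mul, e2, e3]
    rw [e1]; rfl
  have h2 : Tendsto (fun n => ‖(star v * w n * (y * u n - u n * y) * w' n * v) ξ‖ ^ 2)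
      atTop (𝓝 0) := by
    simp only [hcomp]
    have := h1.norm.pow 2
    rwa [norm_zero, zero_pow two_ne_zero] at this
  have hvξ : v ξ ≠ 0 := fun h => hv0 (S.sep v (S.le v hv.1) h)
  have hvn : 0 < ‖v ξ‖ ^ 2 := by positivity
  have hns : γ * ‖(star v) ξ‖ ^ 2 = ‖v ξ‖ ^ 2 := (S.eig_norm_sq hv).symm
  have hvsn : 0 < ‖(star v) ξ‖ ^ 2 := by
    by_contra hcon
    push Not at hcon
    nlinarith
  set K := (1 / 4) * (‖(star v) ξ‖ ^ 2 * ‖v ξ‖ ^ 2) with hK
  have hK0 : 0 < K := by positivity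
  have h3 : Tendsto (fun n => ‖(y * u n - u n * y) ξ‖ ^ 2) atTop (𝓝 0) := by
    have h4 := h2.const_mul K⁻¹
    rw [mul_zero] at h4
    refine squeeze_zero (fun n => by positivity) (fun n => ?_) h4
    rw [inv_mul_eq_div, le_div_iff₀ hK0]
    calc ‖(y * u n - u n * y) ξ‖ ^ 2 * K =
          (1 / 4) * (‖(star v) ξ‖ ^ 2 * ‖v ξ‖ ^ 2 * ‖(y * u n - u n * y) ξ‖ ^ 2) := by
            rw [hK]; ring
      _ ≤ _ := hww n
  rw [tendsto_zero_iff_norm_tendsto_zero]
  have h4 := (Real.continuous_sqrt.tendsto _).comp h3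
  rw [Real.sqrt_zero] at h4
  refine h4.congr fun n => ?_
  exact Real.sqrt_sq (norm_nonneg _)

/-- the bicentralizer is invariant under the flow -/
lemma bicent_bet {x : H →L[ℂ] H} (hx : x ∈ Bicent M N ξ) {l : ℝ} (hl : 0 < l) :
    bet M N ξ l x ∈ Bicent M N ξ := by
  have hxB := S.InB_of_bicent hx
  refine S.bicent_of_closure (S.bet_memQ hxB hl) ?_
  obtain ⟨γ, hγ, hγl, -, -⟩ := S.exists_seq hl
  have h1 := S.bet_seq hxB hl hγ hγl
  refine mem_closure_of_tendsto (b := atTop) (f := fun n => al M N ξ (γ n) x ξ) ?_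
    (Eventually.of_forall fun n => ⟨_, S.bicent_al (hγ n) hx, rfl⟩)
  rw [tendsto_iff_norm_sub_tendsto_zero]
  exact h1

/-- the defining property of the flow, strong form, at `ξ` -/
theorem flow_xi {x : H →L[ℂ] H} (hb : x ∈ Bicent M N ξ) {l : ℝ} (hl : 0 < l)
    {a : ℕ → H →L[ℂ] H} (ha : LamSeq N ξ l a) :
    Tendsto (fun n => a n (x ξ) - bet M N ξ l x (a n ξ)) atTop (𝓝 0) := by
  have hx := S.InB_of_bicent hb
  obtain ⟨haN, ⟨C, hC⟩, hD⟩ := ha
  have hC0 : 0 ≤ C := (norm_nonneg _).trans (hC 0)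
  obtain ⟨γ, hγ, hγl, hγ1, hγ2⟩ := S.exists_seq hl
  choose v hv hv1 hvξ hvi hvc using fun n => S.exists_contr (hγ n)
  have hvl := S.lamSeq_of_eig hγl hv hv1
  have hvls : Dseq N ξ l⁻¹ (fun n => star (v n)) := Dseq.star hl hvl.2.2
  have hbx := S.bet_seq hx hl hγ hγl
  have hxQ := hx.1
  have hx'Q := S.bet_memQ hx hl
  rcases le_or_gt 1 l with hl1 | hl1
  · -- isometries
    have hiso : ∀ n, star (v n) * v n = 1 := fun n => hvi n (hγ1 hl1 n)
    have hc : LamSeq N ξ 1 (fun n => a n * star (v n)) := by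
      refine ⟨fun n => mul_mem (haN n) (star_mem (hv n).1), ⟨C, fun n => ?_⟩, ?_⟩
      · refine (norm_mul_le _ _).trans ?_
        rw [norm_star]
        calc ‖a n‖ * ‖v n‖ ≤ C * 1 := by gcongr; exacts [hC n, hv1 n]
          _ = C := mul_one C
      · have := Dseq.mul (C := max C 1) haN (fun n => star_mem (hv n).1)
          (fun n => (hC n).trans (le_max_left _ _))
          (fun n => by rw [norm_star]; exact (hv1 n).trans (le_max_right _ _)) hD hvls
        rwa [mul_inv_cancel₀ hl.ne'] at this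
    have h1 := (S.bicent_bet hb hl).2 _ hc ξ
    have h2 : ∀ n, ‖a n (x ξ) - bet M N ξ l x (a n ξ)‖ ≤
        C * ‖(al M N ξ (γ n) x - bet M N ξ l x) ξ‖ + Real.sqrt (2 * γ n) *
          ‖bet M N ξ l x ((a n * star (v n)) ξ) - (a n * star (v n)) (bet M N ξ l x ξ)‖ := by
      intro n
      have e1 : a n = a n * star (v n) * v n := by rw [mul_assoc, hiso, mul_one]
      have e2 : a n (x ξ) = (a n * star (v n)) (al M N ξ (γ n) x (v n ξ)) := by
        have h3 : v n (x ξ) = al M N ξ (γ n) x (v n ξ) :=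
          congrArg (fun T : H →L[ℂ] H => T ξ) (S.al_rel (hγ n) hxQ (v n) (hv n))
        rw [← h3]
        conv_lhs => rw [e1]
        rfl
      have e3 : a n ξ = (a n * star (v n)) (v n ξ) := by
        conv_lhs => rw [e1]
        rfl
      have e4 : a n (x ξ) - bet M N ξ l x (a n ξ) =
          (a n * star (v n)) ((al M N ξ (γ n) x - bet M N ξ l x) (v n ξ)) -
          (bet M N ξ l x * (a n * star (v n)) - (a n * star (v n)) * bet M N ξ l x)
            (v n ξ) := by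
        rw [e2, e3, sub_apply, map_sub, sub_apply]
        change _ = _ - (bet M N ξ l x ((a n * star (v n)) (v n ξ)) -
          (a n * star (v n)) (bet M N ξ l x (v n ξ)))
        abel
      rw [e4]
      refine (norm_sub_le _ _).trans (add_le_add ?_ ?_)
      · have n1 : ‖a n * star (v n)‖ ≤ C := by
          refine (norm_mul_le _ _).trans ?_
          rw [norm_star]
          calc ‖a n‖ * ‖v n‖ ≤ C * 1 := by gcongr; exacts [hC n, hv1 n]
            _ = C := mul_one C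
        refine ((a n * star (v n)).le_of_opNorm_le n1 _).trans ?_
        rw [S.norm_Q S.irr (sub_mem (S.al_mem (hγ n) hxQ) hx'Q) (hv n).1, norm_of_isom (hiso n),
          S.norm_one, mul_one]
      · exact S.norm_right_eig (hγ n).1 (hv n) (hv1 n)
          (sub_mem (mul_mem (mem_Qalg.1 hx'Q).1 (S.le _ (mul_mem (haN n) (star_mem (hv n).1))))
            (mul_mem (S.le _ (mul_mem (haN n) (star_mem (hv n).1))) (mem_Qalg.1 hx'Q).1))
    refine squeeze_zero_norm h2 ?_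
    have h3 : Tendsto (fun n => Real.sqrt (2 * γ n)) atTop (𝓝 (Real.sqrt (2 * l))) :=
      (Real.continuous_sqrt.tendsto _).comp (hγl.const_mul 2)
    have h4 := (hbx.const_mul C).add (h3.mul h1.norm)
    simpa using h4
  · -- coisometries
    have hco : ∀ n, v n * star (v n) = 1 := fun n => hvc n (hγ2 hl1 n)
    have hc : LamSeq N ξ 1 (fun n => star (v n) * a n) := by
      refine ⟨fun n => mul_mem (star_mem (hv n).1) (haN n), ⟨C, fun n => ?_⟩, ?_⟩
      · refine (norm_mul_le _ _).trans ?_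
        rw [norm_star]
        calc ‖v n‖ * ‖a n‖ ≤ 1 * C := by gcongr; exacts [hv1 n, hC n]
          _ = C := one_mul C
      · have := Dseq.mul (C := max C 1) (fun n => star_mem (hv n).1) haN
          (fun n => by rw [norm_star]; exact (hv1 n).trans (le_max_right _ _))
          (fun n => (hC n).trans (le_max_left _ _)) hvls hD
        rwa [inv_mul_cancel₀ hl.ne'] at this
    have h1 := hb.2 _ hc ξ
    have h2 : ∀ n, ‖a n (x ξ) - bet M N ξ l x (a n ξ)‖ ≤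
        ‖x ((star (v n) * a n) ξ) - (star (v n) * a n) (x ξ)‖ +
          ‖(al M N ξ (γ n) x - bet M N ξ l x) ξ‖ * C := by
      intro n
      have e1 : a n = v n * (star (v n) * a n) := by rw [← mul_assoc, hco, one_mul]
      have e2 : v n (x ((star (v n) * a n) ξ)) = al M N ξ (γ n) x (a n ξ) := by
        have h3 : v n (x ((star (v n) * a n) ξ)) =
            al M N ξ (γ n) x (v n ((star (v n) * a n) ξ)) :=
          congrArg (fun T : H →L[ℂ] H => T ((star (v n) * a n) ξ))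
            (S.al_rel (hγ n) hxQ (v n) (hv n))
        rw [h3]
        conv_rhs => rw [e1]
        rfl
      have e3 : a n (x ξ) = v n ((star (v n) * a n) (x ξ)) := by
        conv_lhs => rw [e1]
        rfl
      have e4 : a n (x ξ) - bet M N ξ l x (a n ξ) =
          -(v n (x ((star (v n) * a n) ξ) - (star (v n) * a n) (x ξ))) +
          (al M N ξ (γ n) x - bet M N ξ l x) (a n ξ) := by
        rw [map_sub, e2, ← e3, sub_apply]
        abel
      rw [e4]
      refine (norm_add_le _ _).trans (add_le_add ?_ ?_)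
      · rw [norm_neg]
        have := (v n).le_of_opNorm_le (hv1 n)
          (x ((star (v n) * a n) ξ) - (star (v n) * a n) (x ξ))
        rwa [one_mul] at this
      · rw [S.norm_Q S.irr (sub_mem (S.al_mem (hγ n) hxQ) hx'Q) (haN n)]
        gcongr
        have := (a n).le_of_opNorm_le (hC n) ξ
        rwa [S.norm_one, mul_one] at this
    refine squeeze_zero_norm h2 ?_
    have h4 := h1.norm.add (hbx.mul_const C)
    simpa using h4

theorem flow_strong {x : H →L[ℂ] H} (hb : x ∈ Bicent M N ξ) {l : ℝ} (hl : 0 < l)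
    {a : ℕ → H →L[ℂ] H} (ha : LamSeq N ξ l a) (η : H) :
    Tendsto (fun n => (a n * x - bet M N ξ l x * a n) η) atTop (𝓝 0) := by
  have hx := S.InB_of_bicent hb
  have h1 := S.flow_xi hb hl ha
  obtain ⟨haN, ⟨C, hC⟩, hD⟩ := ha
  refine tendsto_of_bounded M S.dense_comm (x := fun n => a n * x - bet M N ξ l x * a n)
    (C := C * ‖x‖ + ‖bet M N ξ l x‖ * C)
    (fun n => sub_mem (mul_mem (S.le _ (haN n)) (mem_Qalg.1 hx.1).1)
      (mul_mem (mem_Qalg.1 (S.bet_memQ hx hl)).1 (S.le _ (haN n))))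
    (fun n => (norm_sub_le _ _).trans (add_le_add
      ((norm_mul_le _ _).trans (mul_le_mul_of_nonneg_right (hC n) (norm_nonneg _)))
      ((norm_mul_le _ _).trans (mul_le_mul_of_nonneg_left (hC n) (norm_nonneg _))))) h1 η

theorem flow_strong_star {x : H →L[ℂ] H} (hb' : x ∈ Bicent M N ξ) {l : ℝ} (hl : 0 < l)
    {a : ℕ → H →L[ℂ] H} (ha : LamSeq N ξ l a) (η : H) :
    Tendsto (fun n => (star (a n * x - bet M N ξ l x * a n)) η) atTop (𝓝 0) := by
  have hx := S.InB_of_bicent hb'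
  have hb : LamSeq N ξ l⁻¹ (fun n => star (a n)) := by
    obtain ⟨haN, ⟨C, hC⟩, hD⟩ := ha
    exact ⟨fun n => star_mem (haN n), ⟨C, fun n => by rw [norm_star]; exact hC n⟩,
      Dseq.star hl hD⟩
  have hy := S.bicent_star (S.bicent_bet hb' hl)
  have h1 := S.flow_strong hy (inv_pos.2 hl) hb η
  have h2 : bet M N ξ l⁻¹ (star (bet M N ξ l x)) = star x := by
    rw [S.bet_star (S.InB_bet hx hl) (inv_pos.2 hl), S.bet_bet hx (inv_pos.2 hl) hl,
      inv_mul_cancel₀ hl.ne', S.bet_id hx]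
  rw [h2] at h1
  have h3 := h1.neg
  rw [neg_zero] at h3
  refine h3.congr fun n => ?_
  rw [star_sub, star_mul, star_mul, ← neg_apply, neg_sub]

/-- uniqueness of the flow -/
theorem flow_unique {x y : H →L[ℂ] H} (hb : x ∈ Bicent M N ξ) {l : ℝ} (hl : 0 < l) (hy : y ∈ M)
    (h : ∀ a, LamSeq N ξ l a → Tendsto (fun n => (a n * x - y * a n) ξ) atTop (𝓝 0)) :
    y = bet M N ξ l x := by
  have hx := S.InB_of_bicent hb
  set d := y - bet M N ξ l x with hd
  have hdM : d ∈ M := sub_mem hy (mem_Qalg.1 (S.bet_memQ hx hl)).1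
  have hlim : ∀ a, LamSeq N ξ l a → Tendsto (fun n => d (a n ξ)) atTop (𝓝 0) := by
    intro a ha
    have h1 := (S.flow_strong hb hl ha ξ).sub (h a ha)
    rw [sub_zero] at h1
    refine h1.congr fun n => ?_
    rw [sub_apply, sub_apply, hd, sub_apply]
    rw [sub_sub_sub_cancel_left]
    rfl
  obtain ⟨γ, hγ, hγl, -, -⟩ := S.exists_seq hl
  choose v hv hv1 hvξ _ _ using fun n => S.exists_contr (hγ n)
  suffices hdξ : ‖d ξ‖ = 0 by
    have h1 := S.sep d hdM (norm_eq_zero.1 hdξ)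
    exact sub_eq_zero.1 h1
  by_contra hne
  have hpos : 0 < ‖d ξ‖ := lt_of_le_of_ne (norm_nonneg _) (Ne.symm hne)
  have hrot : ∀ n, ∃ u ∈ Ucent N ξ, (1 / 2) * (min 1 (γ n) * ‖d ξ‖ ^ 2) ≤
      ‖d ((u * v n) ξ)‖ ^ 2 := by
    intro n
    have hγ0 := (hγ n).1
    have hx1 : v n * star (v n) ∈ eig N ξ 1 := mul_star_mem_eig_one hγ0.ne' (hv n) (hv n)
    have hφ : ⟪ξ, (v n * star (v n)) ξ⟫_ℂ = ((‖(star (v n)) ξ‖ ^ 2 : ℝ) : ℂ) := by
      rw [norm_sq_apply, star_star]; rfl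
    have hns : γ n * ‖(star (v n)) ξ‖ ^ 2 = ‖v n ξ‖ ^ 2 := (S.eig_norm_sq (hv n)).symm
    have hvn : 0 < ‖v n ξ‖ ^ 2 := lt_of_lt_of_le (lt_min one_pos hγ0) (hvξ n)
    have hvsn : 0 < ‖(star (v n)) ξ‖ ^ 2 := by
      by_contra hcon
      push Not at hcon
      nlinarith
    obtain ⟨u, hu, h1⟩ := S.exists_avg hx1.1 ((star d) (d ξ))
      (c := (1 / 2) * (‖(star (v n)) ξ‖ ^ 2 * ‖d ξ‖ ^ 2)) (by
        rw [inner_star_left, map_smul, inner_smul_right, hφ, inner_self_eq_norm_sq_to_K]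
        have : (((‖(star (v n)) ξ‖ ^ 2 : ℝ) : ℂ) * ((‖d ξ‖ : ℂ)) ^ 2).re =
            ‖(star (v n)) ξ‖ ^ 2 * ‖d ξ‖ ^ 2 := by
          norm_cast
        change _ < (((‖(star (v n)) ξ‖ ^ 2 : ℝ) : ℂ) * ((‖d ξ‖ : ℂ)) ^ 2).re
        rw [this]
        have : 0 < ‖(star (v n)) ξ‖ ^ 2 * ‖d ξ‖ ^ 2 := by positivity
        linarith)
    have hus : star u ∈ Ucent N ξ :=
      ⟨eig_star_one hu.1, by rw [star_star]; exact hu.2.2, by rw [star_star]; exact hu.2.1⟩
    refine ⟨star u, hus, ?_⟩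
    have h2 := S.norm_right_eig_sq (eig_mul_left hus.1 (hv n)) hdM
    have h3 : star u * v n * star (star u * v n) = star u * (v n * star (v n)) * u := by
      rw [star_mul, star_star]; simp only [mul_assoc]
    rw [h3] at h2
    have h4 : ‖d ((star u * v n) ξ)‖ ^ 2 =
        γ n * (⟪(star d) (d ξ), (star u * (v n * star (v n)) * u) ξ⟫_ℂ).re := by
      have h5 := congrArg Complex.re h2
      rw [Complex.ofReal_re, Complex.re_ofReal_mul] at h5
      rw [h5, inner_star_left, ← inner_conj_symm, Complex.conj_re]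
    rw [h4]
    calc (1 / 2) * (min 1 (γ n) * ‖d ξ‖ ^ 2) ≤ (1 / 2) * (‖v n ξ‖ ^ 2 * ‖d ξ‖ ^ 2) := by
          gcongr; exact hvξ n
      _ = γ n * ((1 / 2) * (‖(star (v n)) ξ‖ ^ 2 * ‖d ξ‖ ^ 2)) := by
          rw [← hns]; ring
      _ ≤ _ := by gcongr
  choose u hu hun using hrot
  have hls : LamSeq N ξ l (fun n => u n * v n) := by
    refine S.lamSeq_of_eig hγl (fun n => eig_mul_left (hu n).1 (hv n)) fun n => ?_
    refine (norm_mul_le _ _).trans ?_
    have := norm_le_one_of_isom (hu n).2.1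
    have h2 := hv1 n
    nlinarith [norm_nonneg (u n), norm_nonneg (v n)]
  have h1 := (hlim _ hls).norm.pow 2
  rw [norm_zero, zero_pow two_ne_zero] at h1
  have h2 : Tendsto (fun n => (1 / 2) * (min 1 (γ n) * ‖d ξ‖ ^ 2)) atTop
      (𝓝 ((1 / 2) * (min 1 l * ‖d ξ‖ ^ 2))) :=
    ((tendsto_const_nhds.min hγl).mul_const _).const_mul _
  have h3 := le_of_tendsto_of_tendsto' h2 h1 hun
  have h4 : 0 < (1 / 2) * (min 1 l * ‖d ξ‖ ^ 2) := by
    have := lt_min one_pos hl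
    positivity
  linarith

/-- elements of the continuous part are in the bicentralizer -/
lemma bicent_of_InB (hAP : AlmostPeriodic N ξ) {x : H →L[ℂ] H} (hx : InB M N ξ x) : x ∈ Bicent M N ξ := by
  refine ⟨(mem_Qalg.1 hx.1).1, fun a ha η => ?_⟩
  obtain ⟨haN, ⟨C, hC⟩, hD⟩ := ha
  have h1 := S.comm_tendsto hAP hx.1 (InB.contAt hx) haN hC hD
  have h2 : Tendsto (fun n => (x * a n - a n * x) ξ) atTop (𝓝 0) := by
    have := h1.neg
    rw [neg_zero] at this
    refine this.congr fun n => ?_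
    rw [neg_sub]
    rfl
  exact tendsto_of_bounded M S.dense_comm (x := fun n => x * a n - a n * x)
    (C := ‖x‖ * C + C * ‖x‖)
    (fun n => sub_mem (mul_mem (mem_Qalg.1 hx.1).1 (S.le _ (haN n)))
      (mul_mem (S.le _ (haN n)) (mem_Qalg.1 hx.1).1))
    (fun n => (norm_sub_le _ _).trans (add_le_add
      ((norm_mul_le _ _).trans (mul_le_mul_of_nonneg_left (hC n) (norm_nonneg _)))
      ((norm_mul_le _ _).trans (mul_le_mul_of_nonneg_right (hC n) (norm_nonneg _))))) h2 η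

theorem bicent_iff (hAP : AlmostPeriodic N ξ) {x : H →L[ℂ] H} :
    x ∈ Bicent M N ξ ↔ InB M N ξ x :=
  ⟨S.InB_of_bicent, S.bicent_of_InB hAP⟩

end AP

end Pool.Agent.Helper23
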