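import Pool.Agent.Helper23.Comm

/-!
# Almost centralizing sequences
-/

open scoped InnerProductSpace BoundedContinuousFunction
open ContinuousLinearMap Filter

namespace Pool.Agent.Helper23

variable {H : Type*} [NormedAddCommGroup H] [InnerProductSpace ℂ H] [CompleteSpace H]
variable {M N : VonNeumannAlgebra H} {ξ : H} {E : (H →L[ℂ] H) → (H →L[ℂ] H)}

lemma Defect.mono {l δ δ' : ℝ} {a : H →L[ℂ] H} (h : Defect N ξ l δ a) (hδ : δ ≤ δ') :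
    Defect N ξ l δ' a := fun z hz =>
  (h z hz).trans (mul_le_mul_of_nonneg_right hδ (norm_nonneg _))

lemma Defect.add {l δ δ' : ℝ} {a b : H →L[ℂ] H} (h : Defect N ξ l δ a)
    (h' : Defect N ξ l δ' b) : Defect N ξ l (δ + δ') (a + b) := by
  intro z hz
  have e : ⟪ξ, z ((a + b) ξ)⟫_ℂ - l * ⟪ξ, (a + b) (z ξ)⟫_ℂ =
      (⟪ξ, z (a ξ)⟫_ℂ - l * ⟪ξ, a (z ξ)⟫_ℂ) + (⟪ξ, z (b ξ)⟫_ℂ - l * ⟪ξ, b (z ξ)⟫_ℂ) := by
    rw [add_apply, add_apply, map_add, inner_add_right, inner_add_right]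
    ring
  rw [e, add_mul]
  exact (norm_add_le _ _).trans (add_le_add (h z hz) (h' z hz))

lemma Defect.smul {l δ : ℝ} {a : H →L[ℂ] H} (c : ℂ) (h : Defect N ξ l δ a) :
    Defect N ξ l (‖c‖ * δ) (c • a) := by
  intro z hz
  have e : ⟪ξ, z ((c • a) ξ)⟫_ℂ - l * ⟪ξ, (c • a) (z ξ)⟫_ℂ =
      c * (⟪ξ, z (a ξ)⟫_ℂ - l * ⟪ξ, a (z ξ)⟫_ℂ) := by
    rw [smul_apply, smul_apply, map_smul, inner_smul_right, inner_smul_right]
    ring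
  rw [e, norm_mul, mul_assoc]
  exact mul_le_mul_of_nonneg_left (h z hz) (norm_nonneg _)

lemma Defect.mul {l l' δ δ' : ℝ} {a b : H →L[ℂ] H} (ha : a ∈ N) (hb : b ∈ N)
    (h : Defect N ξ l δ a) (h' : Defect N ξ l' δ' b) (hδ : 0 ≤ δ) (hδ' : 0 ≤ δ') :
    Defect N ξ (l * l') (δ' * ‖a‖ + |l'| * (δ * ‖b‖)) (a * b) := by
  intro z hz
  have e : ⟪ξ, z ((a * b) ξ)⟫_ℂ - (l * l' : ℝ) * ⟪ξ, (a * b) (z ξ)⟫_ℂ =
      (⟪ξ, (z * a) (b ξ)⟫_ℂ - l' * ⟪ξ, b ((z * a) ξ)⟫_ℂ) +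
        l' * (⟪ξ, (b * z) (a ξ)⟫_ℂ - l * ⟪ξ, a ((b * z) ξ)⟫_ℂ) := by
    change ⟪ξ, z (a (b ξ))⟫_ℂ - (l * l' : ℝ) * ⟪ξ, a (b (z ξ))⟫_ℂ =
      (⟪ξ, z (a (b ξ))⟫_ℂ - l' * ⟪ξ, b (z (a ξ))⟫_ℂ) +
        l' * (⟪ξ, b (z (a ξ))⟫_ℂ - l * ⟪ξ, a (b (z ξ))⟫_ℂ)
    push_cast
    ring
  rw [e]
  have h1 := h' (z * a) (mul_mem hz ha)
  have h2 := h (b * z) (mul_mem hb hz)
  calc _ ≤ ‖⟪ξ, (z * a) (b ξ)⟫_ℂ - l' * ⟪ξ, b ((z * a) ξ)⟫_ℂ‖ +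
        ‖(l' : ℂ) * (⟪ξ, (b * z) (a ξ)⟫_ℂ - l * ⟪ξ, a ((b * z) ξ)⟫_ℂ)‖ := norm_add_le _ _
    _ ≤ δ' * (‖z‖ * ‖a‖) + |l'| * (δ * (‖b‖ * ‖z‖)) := by
        rw [norm_mul, Complex.norm_real, Real.norm_eq_abs]
        gcongr
        · exact h1.trans (mul_le_mul_of_nonneg_left (norm_mul_le _ _) hδ')
        · exact h2.trans (mul_le_mul_of_nonneg_left (norm_mul_le _ _) hδ)
    _ = _ := by ring

lemma Defect.star {l δ : ℝ} (hl : 0 < l) {a : H →L[ℂ] H} (h : Defect N ξ l δ a) :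
    Defect N ξ l⁻¹ (l⁻¹ * δ) (star a) := by
  intro z hz
  have h1 := h (Star.star z) (star_mem hz)
  have e1 : ⟪ξ, z ((Star.star a) ξ)⟫_ℂ = (starRingEnd ℂ) ⟪ξ, a ((Star.star z) ξ)⟫_ℂ := by
    rw [inner_conj_symm, ← inner_star_right, ← inner_star_left z]
  have e2 : ⟪ξ, (Star.star a) (z ξ)⟫_ℂ = (starRingEnd ℂ) ⟪ξ, (Star.star z) (a ξ)⟫_ℂ := by
    rw [inner_conj_symm, inner_star_left z, inner_star_right]
  have e : ⟪ξ, z ((Star.star a) ξ)⟫_ℂ - (l⁻¹ : ℝ) * ⟪ξ, (Star.star a) (z ξ)⟫_ℂ =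
      -((l⁻¹ : ℝ) : ℂ) * (starRingEnd ℂ) (⟪ξ, (Star.star z) (a ξ)⟫_ℂ -
        l * ⟪ξ, a ((Star.star z) ξ)⟫_ℂ) := by
    rw [e1, e2, map_sub, map_mul, Complex.conj_ofReal]
    have hl' : (l : ℂ) ≠ 0 := by exact_mod_cast hl.ne'
    push_cast
    field_simp
    ring
  rw [e, norm_mul, norm_neg, Complex.norm_real, Real.norm_of_nonneg (inv_pos.2 hl).le,
    RCLike.norm_conj, mul_assoc]
  rw [norm_star] at h1
  exact mul_le_mul_of_nonneg_left h1 (inv_pos.2 hl).le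

lemma Defect.change {l l' δ : ℝ} (hξ : ‖ξ‖ = 1) {a : H →L[ℂ] H} (h : Defect N ξ l δ a) :
    Defect N ξ l' (δ + |l - l'| * ‖a‖) a := by
  intro z hz
  have e : ⟪ξ, z (a ξ)⟫_ℂ - l' * ⟪ξ, a (z ξ)⟫_ℂ =
      (⟪ξ, z (a ξ)⟫_ℂ - l * ⟪ξ, a (z ξ)⟫_ℂ) + ((l - l' : ℝ) : ℂ) * ⟪ξ, a (z ξ)⟫_ℂ := by
    push_cast
    ring
  rw [e]
  have h1 : ‖⟪ξ, a (z ξ)⟫_ℂ‖ ≤ ‖a‖ * ‖z‖ := by
    calc ‖⟪ξ, a (z ξ)⟫_ℂ‖ ≤ ‖ξ‖ * ‖a (z ξ)‖ := norm_inner_le_norm _ _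
      _ ≤ 1 * (‖a‖ * (‖z‖ * ‖ξ‖)) := by
          rw [hξ]
          gcongr
          exact (a.le_opNorm _).trans (mul_le_mul_of_nonneg_left (by
            have := z.le_opNorm ξ
            rwa [hξ] at this) (norm_nonneg _))
      _ = ‖a‖ * ‖z‖ := by rw [hξ]; ring
  calc _ ≤ ‖⟪ξ, z (a ξ)⟫_ℂ - l * ⟪ξ, a (z ξ)⟫_ℂ‖ +
        ‖((l - l' : ℝ) : ℂ) * ⟪ξ, a (z ξ)⟫_ℂ‖ := norm_add_le _ _
    _ ≤ δ * ‖z‖ + |l - l'| * (‖a‖ * ‖z‖) := by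
        rw [norm_mul, Complex.norm_real, Real.norm_eq_abs]
        gcongr
        exact h z hz
    _ = _ := by ring

/-- any operator has defect at most twice its norm. -/
lemma Defect.trivial (hξ : ‖ξ‖ = 1) (a : H →L[ℂ] H) : Defect N ξ 1 (2 * ‖a‖) a := by
  intro z _
  have h1 : ‖⟪ξ, a (z ξ)⟫_ℂ‖ ≤ ‖a‖ * ‖z‖ := by
    calc ‖⟪ξ, a (z ξ)⟫_ℂ‖ ≤ ‖ξ‖ * ‖a (z ξ)‖ := norm_inner_le_norm _ _
      _ ≤ 1 * (‖a‖ * (‖z‖ * ‖ξ‖)) := by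
          rw [hξ]
          gcongr
          exact (a.le_opNorm _).trans (mul_le_mul_of_nonneg_left (by
            have := z.le_opNorm ξ
            rwa [hξ] at this) (norm_nonneg _))
      _ = ‖a‖ * ‖z‖ := by rw [hξ]; ring
  have h2 : ‖⟪ξ, z (a ξ)⟫_ℂ‖ ≤ ‖a‖ * ‖z‖ := by
    calc ‖⟪ξ, z (a ξ)⟫_ℂ‖ ≤ ‖ξ‖ * ‖z (a ξ)‖ := norm_inner_le_norm _ _
      _ ≤ 1 * (‖z‖ * (‖a‖ * ‖ξ‖)) := by
          rw [hξ]
          gcongr
          exact (z.le_opNorm _).trans (mul_le_mul_of_nonneg_left (by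
            have := a.le_opNorm ξ
            rwa [hξ] at this) (norm_nonneg _))
      _ = ‖a‖ * ‖z‖ := by rw [hξ]; ring
  rw [Complex.ofReal_one, one_mul]
  calc _ ≤ ‖⟪ξ, z (a ξ)⟫_ℂ‖ + ‖⟪ξ, a (z ξ)⟫_ℂ‖ := norm_sub_le _ _
    _ ≤ _ := by linarith

lemma Defect.one {δ : ℝ} (hδ : 0 ≤ δ) : Defect N ξ 1 δ (1 : H →L[ℂ] H) := by
  intro z _
  simp only [one_apply_eq_self, Complex.ofReal_one, one_mul, sub_self, norm_zero]
  positivity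

lemma Defect.of_eig {γ δ : ℝ} (hδ : 0 ≤ δ) {a : H →L[ℂ] H} (ha : a ∈ eig N ξ γ) :
    Defect N ξ γ δ a := by
  intro z hz
  rw [ha.2 z hz, sub_self, norm_zero]
  positivity

/-- Sequences with `‖a_n φ - l φ a_n‖ → 0` -/
def Dseq (N : VonNeumannAlgebra H) (ξ : H) (l : ℝ) (a : ℕ → H →L[ℂ] H) : Prop :=
  ∀ ε : ℝ, 0 < ε → ∀ᶠ n in atTop, Defect N ξ l ε (a n)

lemma Dseq.mul {l l' : ℝ} {a b : ℕ → H →L[ℂ] H} (ha : ∀ n, a n ∈ N) (hb : ∀ n, b n ∈ N)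
    {C : ℝ} (hC : ∀ n, ‖a n‖ ≤ C) (hC' : ∀ n, ‖b n‖ ≤ C)
    (h : Dseq N ξ l a) (h' : Dseq N ξ l' b) : Dseq N ξ (l * l') (fun n => a n * b n) := by
  intro ε hε
  have hC0 : 0 ≤ C := (norm_nonneg _).trans (hC 0)
  set t := ε / (C + |l'| * C + 1) with ht
  have hden : 0 < C + |l'| * C + 1 := by positivity
  have htpos : 0 < t := div_pos hε hden
  filter_upwards [h t htpos, h' t htpos] with n h1 h2
  refine (h1.mul (ha n) (hb n) h2 htpos.le htpos.le).mono ?_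
  have e1 : t * ‖a n‖ + |l'| * (t * ‖b n‖) ≤ t * C + |l'| * (t * C) := by
    gcongr
    · exact hC n
    · exact hC' n
  have e2 : t * C + |l'| * (t * C) ≤ t * (C + |l'| * C + 1) := by nlinarith
  have e3 : t * (C + |l'| * C + 1) = ε := by rw [ht]; field_simp
  linarith

lemma Dseq.star {l : ℝ} (hl : 0 < l) {a : ℕ → H →L[ℂ] H} (h : Dseq N ξ l a) :
    Dseq N ξ l⁻¹ (fun n => star (a n)) := by
  intro ε hε
  filter_upwards [h (l * ε) (by positivity)] with n hn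
  have := hn.star hl
  rwa [← mul_assoc, inv_mul_cancel₀ hl.ne', one_mul] at this

lemma Dseq.change (hξ : ‖ξ‖ = 1) {l : ℝ} {l' : ℕ → ℝ} (hl : Tendsto l' atTop (nhds l))
    {a : ℕ → H →L[ℂ] H} {C : ℝ} (hC : ∀ n, ‖a n‖ ≤ C)
    (h : ∀ ε : ℝ, 0 < ε → ∀ᶠ n in atTop, Defect N ξ (l' n) ε (a n)) : Dseq N ξ l a := by
  intro ε hε
  have hC0 : 0 ≤ C := (norm_nonneg _).trans (hC 0)
  have h1 := (Metric.tendsto_nhds.1 hl) (ε / 2 / (C + 1)) (by positivity)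
  filter_upwards [h (ε / 2) (by positivity), h1] with n h2 h3
  refine (h2.change (l' := l) hξ).mono ?_
  rw [Real.dist_eq] at h3
  have h4 : |l' n - l| * ‖a n‖ ≤ ε / 2 / (C + 1) * (C + 1) := by
    gcongr
    exact (hC n).trans (by linarith)
  rw [div_mul_cancel₀ _ (by positivity)] at h4
  linarith

section ACalgebra

/-- The algebra of almost centralizing bounded sequences. -/
noncomputable def ACalg (N : VonNeumannAlgebra H) (ξ : H) :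
    StarSubalgebra ℂ (ℕ →ᵇ N.toStarSubalgebra) where
  carrier := {a | Dseq N ξ 1 (fun n => ((a n : N.toStarSubalgebra) : H →L[ℂ] H))}
  mul_mem' := by
    intro a b ha hb
    have h1 := Dseq.mul (N := N) (ξ := ξ) (C := ‖a‖ + ‖b‖)
      (fun n => (a n).2) (fun n => (b n).2)
      (fun n => (a.norm_coe_le_norm n).trans (by linarith [norm_nonneg b]))
      (fun n => (b.norm_coe_le_norm n).trans (by linarith [norm_nonneg a])) ha hb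
    rw [one_mul] at h1
    exact h1
  add_mem' := by
    intro a b ha hb ε hε
    filter_upwards [ha (ε / 2) (by positivity), hb (ε / 2) (by positivity)] with n h1 h2
    have := h1.add h2
    rwa [add_halves] at this
  algebraMap_mem' := by
    intro c ε hε
    refine Filter.Eventually.of_forall fun n => ?_
    change Defect N ξ 1 ε (c • (1 : H →L[ℂ] H))
    have h2 := (Defect.one (N := N) (ξ := ξ) (δ := 0) le_rfl).smul c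
    rw [mul_zero] at h2
    exact h2.mono hε.le
  star_mem' := by
    intro a ha
    have h1 := Dseq.star one_pos ha
    rw [inv_one] at h1
    exact h1

lemma ACalg_isClosed (hξ : ‖ξ‖ = 1) :
    IsClosed (ACalg N ξ : Set (ℕ →ᵇ N.toStarSubalgebra)) := by
  rw [← isSeqClosed_iff_isClosed]
  intro f a hf hfa ε hε
  have h1 := (Metric.tendsto_nhds.1 hfa) (ε / 4) (by positivity)
  obtain ⟨k, hk⟩ := h1.exists
  have h2 : Dseq N ξ 1 (fun n => ((f k n : N.toStarSubalgebra) : H →L[ℂ] H)) := hf k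
  filter_upwards [h2 (ε / 2) (by positivity)] with n hn
  have h3 := Defect.trivial (N := N) hξ
    (((a n : N.toStarSubalgebra) : H →L[ℂ] H) - ((f k n : N.toStarSubalgebra) : H →L[ℂ] H))
  have h4 := hn.add h3
  rw [add_sub_cancel] at h4
  refine h4.mono ?_
  have h5 : ‖((a n : N.toStarSubalgebra) : H →L[ℂ] H) -
      ((f k n : N.toStarSubalgebra) : H →L[ℂ] H)‖ ≤ ‖a - f k‖ := (a - f k).norm_coe_le_norm n
  rw [dist_comm, dist_eq_norm] at hk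
  linarith

end ACalgebra

end Pool.Agent.Helper23
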