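import Mathlib

/-!
# Decomposable operators and translations on `L²(ℝ; G)`
-/

open scoped InnerProductSpace Topology ENNReal
open ContinuousLinearMap Filter MeasureTheory

set_option linter.unusedSectionVars false
set_option linter.unusedVariables false

namespace Pool.Agent.Helper23

/-- `L²(ℝ; G)` -/
noncomputable abbrev L2R (G : Type*) [NormedAddCommGroup G] := Lp G 2 (volume : Measure ℝ)

variable {G : Type*} [NormedAddCommGroup G] [InnerProductSpace ℂ G] [CompleteSpace G]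
variable {G' : Type*} [NormedAddCommGroup G'] [InnerProductSpace ℂ G'] [CompleteSpace G']
variable {G'' : Type*} [NormedAddCommGroup G''] [InnerProductSpace ℂ G''] [CompleteSpace G'']

/-- Fields of operators defining decomposable operators. -/
structure Dec (T : ℝ → G →L[ℂ] G') : Prop where
  meas : ∀ F : ℝ → G, AEStronglyMeasurable F volume →
    AEStronglyMeasurable (fun s => T s (F s)) volume
  bdd : ∃ C : ℝ, 0 ≤ C ∧ ∀ s, ‖T s‖ ≤ C

omit [CompleteSpace G] [CompleteSpace G'] in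
lemma Dec.memLp {T : ℝ → G →L[ℂ] G'} (h : Dec T) (F : L2R G) :
    MemLp (fun s => T s (F s)) 2 volume := by
  obtain ⟨C, hC0, hC⟩ := h.bdd
  refine MemLp.of_le_mul (c := C) (Lp.memLp F) (h.meas _ (Lp.aestronglyMeasurable F)) ?_
  exact Eventually.of_forall fun s => (T s).le_of_opNorm_le (hC s) _

omit [CompleteSpace G] [CompleteSpace G'] in
lemma Dec.norm_le {T : ℝ → G →L[ℂ] G'} (h : Dec T) {C : ℝ} (hC0 : 0 ≤ C) (hC : ∀ s, ‖T s‖ ≤ C)
    (F : L2R G) : ‖(h.memLp F).toLp _‖ ≤ C * ‖F‖ := by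
  refine Lp.norm_le_mul_norm_of_ae_le_mul ?_
  filter_upwards [(h.memLp F).coeFn_toLp] with s hs
  rw [hs]
  exact (T s).le_of_opNorm_le (hC s) _

open Classical in
/-- the decomposable operator -/
noncomputable def dec (T : ℝ → G →L[ℂ] G') : L2R G →L[ℂ] L2R G' :=
  if h : Dec T then
    LinearMap.mkContinuous
      { toFun := fun F => (h.memLp F).toLp _
        map_add' := by
          intro F F'
          ext1
          filter_upwards [(h.memLp (F + F')).coeFn_toLp, (h.memLp F).coeFn_toLp,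
            (h.memLp F').coeFn_toLp, Lp.coeFn_add F F',
            Lp.coeFn_add ((h.memLp F).toLp _) ((h.memLp F').toLp _)] with s h1 h2 h3 h4 h5
          rw [h1, h5, Pi.add_apply, h2, h3, h4, Pi.add_apply, map_add]
        map_smul' := by
          intro c F
          ext1
          filter_upwards [(h.memLp (c • F)).coeFn_toLp, (h.memLp F).coeFn_toLp,
            Lp.coeFn_smul c F, Lp.coeFn_smul c ((h.memLp F).toLp _)] with s h1 h2 h3 h4
          rw [h1, RingHom.id_apply, h4, Pi.smul_apply, h2, h3, Pi.smul_apply, map_smul] }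
      h.bdd.choose (fun F => h.norm_le h.bdd.choose_spec.1 h.bdd.choose_spec.2 F)
  else 0

omit [CompleteSpace G] [CompleteSpace G'] in
lemma dec_coe {T : ℝ → G →L[ℂ] G'} (h : Dec T) (F : L2R G) :
    dec T F =ᵐ[volume] fun s => T s (F s) := by
  have : dec T F = (h.memLp F).toLp _ := by
    rw [dec, dif_pos h]
    rfl
  rw [this]
  exact (h.memLp F).coeFn_toLp

omit [CompleteSpace G] [CompleteSpace G'] in
lemma dec_norm {T : ℝ → G →L[ℂ] G'} {C : ℝ} (hC0 : 0 ≤ C) (hC : ∀ s, ‖T s‖ ≤ C) :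
    ‖dec T‖ ≤ C := by
  by_cases h : Dec T
  · refine ContinuousLinearMap.opNorm_le_bound _ hC0 fun F => ?_
    have : dec T F = (h.memLp F).toLp _ := by
      rw [dec, dif_pos h]
      rfl
    rw [this]
    exact h.norm_le hC0 hC F
  · rw [dec, dif_neg h]
    exact (norm_zero (E := L2R G →L[ℂ] L2R G')).le.trans hC0

omit [CompleteSpace G] [CompleteSpace G'] [CompleteSpace G''] in
lemma Dec.comp {T : ℝ → G' →L[ℂ] G''} {T' : ℝ → G →L[ℂ] G'} (h : Dec T) (h' : Dec T') :
    Dec (fun s => (T s).comp (T' s)) := by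
  obtain ⟨C, hC0, hC⟩ := h.bdd
  obtain ⟨C', hC'0, hC'⟩ := h'.bdd
  refine ⟨fun F hF => h.meas _ (h'.meas F hF), C * C', by positivity, fun s => ?_⟩
  exact (ContinuousLinearMap.opNorm_comp_le _ _).trans
    (mul_le_mul (hC s) (hC' s) (norm_nonneg _) hC0)

omit [CompleteSpace G] [CompleteSpace G'] [CompleteSpace G''] in
lemma dec_comp {T : ℝ → G' →L[ℂ] G''} {T' : ℝ → G →L[ℂ] G'} (h : Dec T) (h' : Dec T')
    (F : L2R G) : dec T (dec T' F) = dec (fun s => (T s).comp (T' s)) F := by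
  ext1
  filter_upwards [dec_coe h (dec T' F), dec_coe h' F, dec_coe (h.comp h') F] with s h1 h2 h3
  rw [h1, h2, h3]
  rfl

omit [CompleteSpace G] [CompleteSpace G'] in
lemma Dec.add {T T' : ℝ → G →L[ℂ] G'} (h : Dec T) (h' : Dec T') :
    Dec (fun s => T s + T' s) := by
  obtain ⟨C, hC0, hC⟩ := h.bdd
  obtain ⟨C', hC'0, hC'⟩ := h'.bdd
  exact ⟨fun F hF => (h.meas F hF).add (h'.meas F hF), C + C', by positivity, fun s =>
    (norm_add_le _ _).trans (add_le_add (hC s) (hC' s))⟩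

omit [CompleteSpace G] [CompleteSpace G'] in
lemma dec_add {T T' : ℝ → G →L[ℂ] G'} (h : Dec T) (h' : Dec T') :
    dec (fun s => T s + T' s) = dec T + dec T' := by
  ext F : 1
  ext1
  rw [add_apply]
  filter_upwards [dec_coe (h.add h') F, dec_coe h F, dec_coe h' F,
    Lp.coeFn_add (dec T F) (dec T' F)] with s h1 h2 h3 h4
  rw [h1, h4, Pi.add_apply, h2, h3]
  rfl

omit [CompleteSpace G] [CompleteSpace G'] in
lemma Dec.smul {T : ℝ → G →L[ℂ] G'} (c : ℂ) (h : Dec T) : Dec (fun s => c • T s) := by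
  obtain ⟨C, hC0, hC⟩ := h.bdd
  refine ⟨fun F hF => (h.meas F hF).const_smul c, ‖c‖ * C, by positivity, fun s => ?_⟩
  rw [norm_smul]
  gcongr
  exact hC s

omit [CompleteSpace G] [CompleteSpace G'] in
lemma dec_smul {T : ℝ → G →L[ℂ] G'} (c : ℂ) (h : Dec T) :
    dec (fun s => c • T s) = c • dec T := by
  ext F : 1
  ext1
  rw [smul_apply]
  filter_upwards [dec_coe (h.smul c) F, dec_coe h F, Lp.coeFn_smul c (dec T F)] with s h1 h2 h3
  rw [h1, h3, Pi.smul_apply, h2]
  rfl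

/-- adjoint relation for decomposable operators -/
lemma dec_adj {T : ℝ → G →L[ℂ] G'} {T' : ℝ → G' →L[ℂ] G} (h : Dec T) (h' : Dec T')
    (hadj : ∀ s x y, ⟪T' s x, y⟫_ℂ = ⟪x, T s y⟫_ℂ) (F : L2R G') (F' : L2R G) :
    ⟪dec T' F, F'⟫_ℂ = ⟪F, dec T F'⟫_ℂ := by
  rw [L2.inner_def, L2.inner_def]
  refine integral_congr_ae ?_
  filter_upwards [dec_coe h F', dec_coe h' F] with s h1 h2
  rw [h1, h2, hadj]

omit [CompleteSpace G] [CompleteSpace G'] in
lemma Dec.const (a : G →L[ℂ] G') : Dec (fun _ : ℝ => a) :=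
  ⟨fun _ hF => a.continuous.comp_aestronglyMeasurable hF, ‖a‖, norm_nonneg _, fun _ => le_rfl⟩

/-- strongly continuous bounded fields -/
lemma Dec.of_cont {T : ℝ → G →L[ℂ] G'} {C : ℝ} (hC0 : 0 ≤ C) (hC : ∀ s, ‖T s‖ ≤ C)
    (hT : ∀ v, Continuous fun s => T s v) : Dec T := by
  refine ⟨fun F hF => ?_, C, hC0, hC⟩
  have h1 : Continuous (fun p : ℝ × G => T p.1 p.2) := by
    refine continuous_prod_of_continuous_lipschitzWith' (fun p : ℝ × G => T p.1 p.2) C.toNNReal
      ?_ hT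
    intro s
    refine LipschitzWith.of_dist_le_mul fun x y => ?_
    rw [dist_eq_norm, dist_eq_norm, ← map_sub, Real.coe_toNNReal _ hC0]
    exact (T s).le_of_opNorm_le (hC s) _
  exact h1.comp_aestronglyMeasurable
    ((continuous_id.aestronglyMeasurable (μ := volume)).prodMk hF)

/-- bounded measurable functions -/
def BM (m : ℝ → ℂ) : Prop := Measurable m ∧ ∃ C : ℝ, 0 ≤ C ∧ ∀ s, ‖m s‖ ≤ C

omit [CompleteSpace G] in
lemma BM.dec {m : ℝ → ℂ} (h : BM m) : Dec (fun s => m s • (1 : G →L[ℂ] G)) := by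
  obtain ⟨hm, C, hC0, hC⟩ := h
  refine ⟨fun F hF => (hm.aestronglyMeasurable).smul hF, C, hC0, fun s => ?_⟩
  refine ContinuousLinearMap.opNorm_le_bound _ hC0 fun v => ?_
  rw [smul_apply, one_apply_eq_self, norm_smul]
  gcongr
  exact hC s

variable (G) in
/-- multiplication operator -/
noncomputable def mulOp (m : ℝ → ℂ) : L2R G →L[ℂ] L2R G := dec (fun s => m s • (1 : G →L[ℂ] G))

omit [CompleteSpace G] in
lemma mulOp_coe {m : ℝ → ℂ} (h : BM m) (F : L2R G) :
    mulOp G m F =ᵐ[volume] fun s => m s • F s := dec_coe h.dec F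

/-- `lift a` acts by `a` pointwise. -/
noncomputable def lift (a : G →L[ℂ] G') : L2R G →L[ℂ] L2R G' := dec (fun _ => a)

omit [CompleteSpace G] [CompleteSpace G'] in
lemma lift_coe (a : G →L[ℂ] G') (F : L2R G) : lift a F =ᵐ[volume] fun s => a (F s) :=
  dec_coe (Dec.const a) F

omit [CompleteSpace G] [CompleteSpace G'] in
lemma lift_norm (a : G →L[ℂ] G') : ‖lift a‖ ≤ ‖a‖ := dec_norm (norm_nonneg _) fun _ => le_rfl

omit [CompleteSpace G] [CompleteSpace G'] [CompleteSpace G''] in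
lemma lift_lift (a : G' →L[ℂ] G'') (b : G →L[ℂ] G') (F : L2R G) :
    lift a (lift b F) = lift (a.comp b) F := dec_comp (Dec.const a) (Dec.const b) F

omit [CompleteSpace G] in
lemma lift_mul (a b : G →L[ℂ] G) : lift (a * b) = lift a * lift b := by
  ext F : 1
  exact (lift_lift a b F).symm

omit [CompleteSpace G] in
lemma lift_one : lift (1 : G →L[ℂ] G) = 1 := by
  ext F : 1
  ext1
  filter_upwards [lift_coe (1 : G →L[ℂ] G) F] with s hs
  rw [hs]
  rfl

omit [CompleteSpace G] [CompleteSpace G'] in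
lemma lift_add (a b : G →L[ℂ] G') : lift (a + b) = lift a + lift b :=
  dec_add (Dec.const a) (Dec.const b)

omit [CompleteSpace G] [CompleteSpace G'] in
lemma lift_smul (c : ℂ) (a : G →L[ℂ] G') : lift (c • a) = c • lift a :=
  dec_smul c (Dec.const a)

lemma lift_star (a : G →L[ℂ] G) : lift (star a) = star (lift a) := by
  rw [ContinuousLinearMap.star_eq_adjoint (lift a), ContinuousLinearMap.eq_adjoint_iff]
  intro x y
  refine dec_adj (Dec.const a) (Dec.const (star a)) (fun s x y => ?_) x y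
  rw [ContinuousLinearMap.star_eq_adjoint, ContinuousLinearMap.adjoint_inner_left]

lemma mp_sub (t : ℝ) : MeasurePreserving (fun s : ℝ => s - t) volume volume :=
  measurePreserving_sub_right volume t

variable (G) in
/-- translation `(tr t F)(s) = F(s - t)` -/
noncomputable def tr (t : ℝ) : L2R G →L[ℂ] L2R G :=
  (Lp.compMeasurePreservingₗᵢ ℂ (fun s : ℝ => s - t) (mp_sub t)).toContinuousLinearMap

omit [CompleteSpace G] in
lemma tr_coe (t : ℝ) (F : L2R G) : tr G t F =ᵐ[volume] fun s => F (s - t) :=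
  Lp.coeFn_compMeasurePreserving F (mp_sub t)

omit [CompleteSpace G] in
lemma tr_norm (t : ℝ) (F : L2R G) : ‖tr G t F‖ = ‖F‖ :=
  Lp.norm_compMeasurePreserving F (mp_sub t)

/-- almost everywhere statements are translation invariant -/
lemma ae_tr {p : ℝ → Prop} (t : ℝ) (h : ∀ᵐ s : ℝ, p s) : ∀ᵐ s : ℝ, p (s - t) :=
  (mp_sub t).quasiMeasurePreserving.ae h

omit [CompleteSpace G] in
lemma tr_tr (t u : ℝ) (F : L2R G) : tr G t (tr G u F) = tr G (t + u) F := by
  ext1
  filter_upwards [tr_coe t (tr G u F), ae_tr t (tr_coe u F), tr_coe (t + u) F] with s h1 h2 h3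
  rw [h1, h2, h3, sub_sub]

omit [CompleteSpace G] in
lemma tr_zero : tr G 0 = 1 := by
  ext F : 1
  ext1
  filter_upwards [tr_coe 0 F] with s hs
  rw [hs, sub_zero]
  rfl

omit [CompleteSpace G] in
lemma tr_neg_tr (t : ℝ) (F : L2R G) : tr G (-t) (tr G t F) = F := by
  rw [tr_tr, neg_add_cancel, tr_zero]; rfl

omit [CompleteSpace G] in
lemma tr_tr_neg (t : ℝ) (F : L2R G) : tr G t (tr G (-t) F) = F := by
  rw [tr_tr, add_neg_cancel, tr_zero]; rfl

lemma tr_adj (t : ℝ) (F F' : L2R G) : ⟪tr G t F, F'⟫_ℂ = ⟪F, tr G (-t) F'⟫_ℂ := by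
  have h : ⟪tr G t F, tr G t (tr G (-t) F')⟫_ℂ = ⟪F, tr G (-t) F'⟫_ℂ :=
    (Lp.compMeasurePreservingₗᵢ ℂ (fun s : ℝ => s - t) (mp_sub t) :
      L2R G →ₗᵢ[ℂ] L2R G).inner_map_map F (tr G (-t) F')
  rwa [tr_tr_neg] at h

lemma tr_star (t : ℝ) : star (tr G t) = tr G (-t) := by
  rw [ContinuousLinearMap.star_eq_adjoint]
  symm
  rw [ContinuousLinearMap.eq_adjoint_iff]
  intro x y
  rw [tr_adj, neg_neg]

/-- continuity of translations -/
lemma tr_continuous (F : L2R G) : Continuous fun t : ℝ => tr G t F := by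
  have h1 : Continuous (fun t : ℝ => (⟨fun s => s - t, by fun_prop⟩ : C(ℝ, ℝ))) := by
    have : Continuous (fun p : ℝ × ℝ => p.2 - p.1) := by fun_prop
    exact (ContinuousMap.curry ⟨_, this⟩).continuous
  exact (continuous_const (y := F)).compMeasurePreservingLp h1 (fun t => mp_sub t) (by norm_num)

omit [CompleteSpace G] [CompleteSpace G'] in
lemma tr_lift (t : ℝ) (a : G →L[ℂ] G') (F : L2R G) : tr G' t (lift a F) = lift a (tr G t F) := by
  ext1
  filter_upwards [tr_coe t (lift a F), ae_tr t (lift_coe a F), lift_coe a (tr G t F),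
    tr_coe t F] with s h1 h2 h3 h4
  rw [h1, h2, h3, h4]

lemma BM.shift {m : ℝ → ℂ} (h : BM m) (t : ℝ) : BM (fun s => m (s - t)) := by
  obtain ⟨hm, C, hC0, hC⟩ := h
  exact ⟨hm.comp (measurable_id.sub_const t), C, hC0, fun s => hC _⟩

omit [CompleteSpace G] in
lemma tr_mulOp {m : ℝ → ℂ} (h : BM m) (t : ℝ) (F : L2R G) :
    tr G t (mulOp G m F) = mulOp G (fun s => m (s - t)) (tr G t F) := by
  ext1
  filter_upwards [tr_coe t (mulOp G m F), ae_tr t (mulOp_coe h F),
    mulOp_coe (h.shift t) (tr G t F), tr_coe t F] with s h1 h2 h3 h4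
  rw [h1, h2, h3, h4]

omit [CompleteSpace G] [CompleteSpace G'] in
lemma mulOp_lift {m : ℝ → ℂ} (h : BM m) (a : G →L[ℂ] G') (F : L2R G) :
    mulOp G' m (lift a F) = lift a (mulOp G m F) := by
  ext1
  filter_upwards [mulOp_coe h (lift a F), lift_coe a F, lift_coe a (mulOp G m F),
    mulOp_coe h F] with s h1 h2 h3 h4
  rw [h1, h2, h3, h4, map_smul]

lemma BM.mul {m m' : ℝ → ℂ} (h : BM m) (h' : BM m') : BM (fun s => m s * m' s) := by
  obtain ⟨hm, C, hC0, hC⟩ := h
  obtain ⟨hm', C', hC0', hC'⟩ := h'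
  refine ⟨hm.mul hm', C * C', by positivity, fun s => ?_⟩
  rw [norm_mul]
  exact mul_le_mul (hC s) (hC' s) (norm_nonneg _) hC0

lemma BM.add {m m' : ℝ → ℂ} (h : BM m) (h' : BM m') : BM (fun s => m s + m' s) := by
  obtain ⟨hm, C, hC0, hC⟩ := h
  obtain ⟨hm', C', hC0', hC'⟩ := h'
  exact ⟨hm.add hm', C + C', by positivity, fun s =>
    (norm_add_le _ _).trans (add_le_add (hC s) (hC' s))⟩

lemma BM.conj {m : ℝ → ℂ} (h : BM m) : BM (fun s => (starRingEnd ℂ) (m s)) := by
  obtain ⟨hm, C, hC0, hC⟩ := h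
  refine ⟨Complex.continuous_conj.measurable.comp hm, C, hC0, fun s => ?_⟩
  rw [RCLike.norm_conj]; exact hC s

lemma BM.constMul {m : ℝ → ℂ} (c : ℂ) (h : BM m) : BM (fun s => c * m s) := by
  obtain ⟨hm, C, hC0, hC⟩ := h
  refine ⟨hm.const_mul c, ‖c‖ * C, by positivity, fun s => ?_⟩
  rw [norm_mul]
  gcongr
  exact hC s

lemma BM.const (c : ℂ) : BM (fun _ => c) :=
  ⟨measurable_const, ‖c‖, norm_nonneg _, fun _ => le_rfl⟩

omit [CompleteSpace G] in
lemma mulOp_mulOp {m m' : ℝ → ℂ} (h : BM m) (h' : BM m') (F : L2R G) :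
    mulOp G m (mulOp G m' F) = mulOp G (fun s => m s * m' s) F := by
  ext1
  filter_upwards [mulOp_coe h (mulOp G m' F), mulOp_coe h' F, mulOp_coe (h.mul h') F]
    with s h1 h2 h3
  rw [h1, h2, h3, mul_smul]

omit [CompleteSpace G] in
lemma mulOp_add {m m' : ℝ → ℂ} (h : BM m) (h' : BM m') (F : L2R G) :
    mulOp G (fun s => m s + m' s) F = mulOp G m F + mulOp G m' F := by
  ext1
  filter_upwards [mulOp_coe h F, mulOp_coe h' F, mulOp_coe (h.add h') F,
    Lp.coeFn_add (mulOp G m F) (mulOp G m' F)] with s h1 h2 h3 h4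
  rw [h3, h4, Pi.add_apply, h1, h2, add_smul]

omit [CompleteSpace G] in
lemma mulOp_constMul {m : ℝ → ℂ} (c : ℂ) (h : BM m) (F : L2R G) :
    mulOp G (fun s => c * m s) F = c • mulOp G m F := by
  ext1
  filter_upwards [mulOp_coe h F, mulOp_coe (h.constMul c) F,
    Lp.coeFn_smul c (mulOp G m F)] with s h1 h3 h4
  rw [h3, h4, Pi.smul_apply, h1, mul_smul]

lemma mulOp_adj {m : ℝ → ℂ} (h : BM m) (F F' : L2R G) :
    ⟪mulOp G (fun s => (starRingEnd ℂ) (m s)) F, F'⟫_ℂ = ⟪F, mulOp G m F'⟫_ℂ := by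
  refine dec_adj h.dec h.conj.dec (fun s x y => ?_) F F'
  simp only [smul_apply, one_apply_eq_self, inner_smul_left, inner_smul_right,
    RingHomCompTriple.comp_apply, RingHom.id_apply]

lemma mulOp_star {m : ℝ → ℂ} (h : BM m) :
    star (mulOp G m) = mulOp G (fun s => (starRingEnd ℂ) (m s)) := by
  rw [ContinuousLinearMap.star_eq_adjoint]
  symm
  rw [ContinuousLinearMap.eq_adjoint_iff]
  intro x y
  exact mulOp_adj h x y

end Pool.Agent.Helper23
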