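import Mathlib

/-!
# Basic tools on von Neumann algebras and vectors
-/

open scoped InnerProductSpace
open ContinuousLinearMap

namespace Pool.Agent.Helper23

variable {H : Type*} [NormedAddCommGroup H] [InnerProductSpace ℂ H] [CompleteSpace H]

lemma mem_comm_iff {A : VonNeumannAlgebra H} {z : H →L[ℂ] H} :
    z ∈ A.commutant ↔ ∀ g ∈ A, g * z = z * g := VonNeumannAlgebra.mem_commutant_iff

lemma mem_iff_commutes {A : VonNeumannAlgebra H} {z : H →L[ℂ] H} :
    z ∈ A ↔ ∀ g ∈ A.commutant, g * z = z * g := by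
  conv_lhs => rw [← A.commutant_commutant]
  exact mem_comm_iff

lemma commute_apply {A : VonNeumannAlgebra H} {a y : H →L[ℂ] H} (ha : a ∈ A)
    (hy : y ∈ A.commutant) (η : H) : a (y η) = y (a η) := by
  have := mem_comm_iff.1 hy a ha
  exact congrArg (fun T : H →L[ℂ] H => T η) this

/-- The orbit of a vector under a von Neumann algebra, as a submodule. -/
def orb (A : VonNeumannAlgebra H) (ξ : H) : Submodule ℂ H where
  carrier := {x | ∃ a ∈ A, a ξ = x}
  add_mem' := by
    rintro _ _ ⟨a, ha, rfl⟩ ⟨b, hb, rfl⟩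
    exact ⟨a + b, add_mem ha hb, rfl⟩
  zero_mem' := ⟨0, zero_mem A, rfl⟩
  smul_mem' := by
    rintro c _ ⟨a, ha, rfl⟩
    exact ⟨c • a, A.toStarSubalgebra.smul_mem ha c, rfl⟩

lemma mem_orb {A : VonNeumannAlgebra H} {ξ x : H} : x ∈ orb A ξ ↔ ∃ a ∈ A, a ξ = x := Iff.rfl

lemma smul_mem' {A : VonNeumannAlgebra H} {a : H →L[ℂ] H} (c : ℂ) (ha : a ∈ A) : c • a ∈ A :=
  A.toStarSubalgebra.smul_mem ha c

/-- evaluation at a vector as a linear map on the algebra. -/
def evL (A : VonNeumannAlgebra H) (ξ : H) : A.toStarSubalgebra →ₗ[ℂ] H where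
  toFun a := (a : H →L[ℂ] H) ξ
  map_add' _ _ := rfl
  map_smul' _ _ := rfl

/-- A vector `η` dominated by `ξ` along `A` comes from an operator of the commutant. -/
theorem exists_op (A : VonNeumannAlgebra H) {ξ η : H} {C : ℝ} (hC : 0 ≤ C)
    (hd : Dense (orb A ξ : Set H)) (hb : ∀ a ∈ A, ‖a η‖ ≤ C * ‖a ξ‖) :
    ∃ y ∈ A.commutant, (∀ a ∈ A, y (a ξ) = a η) ∧ ‖y‖ ≤ C := by
  have hdr : DenseRange (evL A ξ) := by
    have : Set.range (evL A ξ) = (orb A ξ : Set H) := by
      ext x
      constructor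
      · rintro ⟨a, rfl⟩
        exact ⟨a, a.2, rfl⟩
      · rintro ⟨a, ha, rfl⟩
        exact ⟨⟨a, ha⟩, rfl⟩
    rw [DenseRange, this]
    exact hd
  have hnorm : ∀ a : A.toStarSubalgebra, ‖evL A η a‖ ≤ C * ‖evL A ξ a‖ := fun a => hb a a.2
  set y := (evL A η).extendOfNorm (evL A ξ) with hy
  have hyeq : ∀ a ∈ A, y (a ξ) = a η := fun a ha =>
    LinearMap.extendOfNorm_eq hdr ⟨C, hnorm⟩ ⟨a, ha⟩
  refine ⟨y, ?_, hyeq, LinearMap.opNorm_extendOfNorm_le hdr hC hnorm⟩
  rw [mem_comm_iff]
  intro g hg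
  apply ContinuousLinearMap.ext
  have hcl : IsClosed {x : H | (g * y) x = (y * g) x} :=
    isClosed_eq (g * y).continuous (y * g).continuous
  have hsub : (orb A ξ : Set H) ⊆ {x : H | (g * y) x = (y * g) x} := by
    rintro _ ⟨a, ha, rfl⟩
    change g (y (a ξ)) = y (g (a ξ))
    rw [hyeq a ha]
    have := hyeq (g * a) (mul_mem hg ha)
    exact this.symm
  intro x
  have := closure_minimal hsub hcl
  exact this (hd x)

/-- The projection onto the closure of an orbit lies in the commutant. -/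
lemma proj_orb_mem (A : VonNeumannAlgebra H) (ξ : H) :
    (orb A ξ).topologicalClosure.starProjection ∈ A.commutant := by
  have hsp : IsStarProjection (orb A ξ).topologicalClosure.starProjection :=
    isStarProjection_starProjection
  rw [VonNeumannAlgebra.IsStarProjection.mem_iff hsp]
  intro y hy
  rw [VonNeumannAlgebra.commutant_commutant] at hy
  rw [Submodule.range_starProjection]
  rw [Module.End.mem_invtSubmodule]
  intro x hx
  rw [Submodule.mem_comap]
  have h1 : (orb A ξ : Set H) ⊆ y ⁻¹' ((orb A ξ).topologicalClosure : Set H) := by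
    rintro _ ⟨a, ha, rfl⟩
    exact Submodule.le_topologicalClosure _ ⟨y * a, mul_mem hy ha, rfl⟩
  have h2 : closure (orb A ξ : Set H) ⊆ y ⁻¹' ((orb A ξ).topologicalClosure : Set H) :=
    closure_minimal h1 ((Submodule.isClosed_topologicalClosure _).preimage y.continuous)
  exact h2 hx

/-- A separating vector is cyclic for the commutant. -/
lemma dense_of_separating (A : VonNeumannAlgebra H) (ξ : H) (hs : ∀ a ∈ A, a ξ = 0 → a = 0) :
    Dense (orb A.commutant ξ : Set H) := by
  have hP := proj_orb_mem A.commutant ξ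
  rw [VonNeumannAlgebra.commutant_commutant] at hP
  set V := (orb A.commutant ξ).topologicalClosure
  have h1 : (1 - V.starProjection) ∈ A := sub_mem (one_mem A) hP
  have hξ : ξ ∈ V := Submodule.le_topologicalClosure _ ⟨1, one_mem _, rfl⟩
  have h2 : (1 - V.starProjection) ξ = 0 := by
    rw [sub_apply, one_apply_eq_self,
      Submodule.starProjection_eq_self_iff.2 hξ, sub_self]
  have h3 := hs _ h1 h2
  intro x
  have h4 : V.starProjection x = x := by
    have := congrArg (fun T : H →L[ℂ] H => T x) h3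
    simp only [sub_apply, one_apply_eq_self,
      zero_apply, sub_eq_zero] at this
    exact this.symm
  have h5 : x ∈ V := Submodule.starProjection_eq_self_iff.1 h4
  exact h5

/-- Boundedness and convergence on a cyclic vector of the commutant give strong convergence. -/
lemma tendsto_of_bounded {ι : Type*} {l : Filter ι} (A : VonNeumannAlgebra H) {ξ : H}
    (hd : Dense (orb A.commutant ξ : Set H)) {x : ι → H →L[ℂ] H} {C : ℝ}
    (hx : ∀ i, x i ∈ A) (hC : ∀ i, ‖x i‖ ≤ C)
    (h0 : Filter.Tendsto (fun i => x i ξ) l (nhds 0)) (ζ : H) :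
    Filter.Tendsto (fun i => x i ζ) l (nhds 0) := by
  rcases l.eq_or_neBot with hbot | hne
  · rw [hbot]; exact Filter.tendsto_bot
  have hC0 : 0 ≤ C := by
    obtain ⟨i⟩ : Nonempty ι := Filter.nonempty_of_neBot l
    exact (norm_nonneg _).trans (hC i)
  rw [Metric.tendsto_nhds]
  intro ε hε
  obtain ⟨z, hz, hzζ⟩ := Metric.dense_iff.1 hd ζ (ε / (2 * (C + 1))) (by positivity)
  obtain ⟨y, hy, rfl⟩ := hzζ
  have h1 : Filter.Tendsto (fun i => ‖y‖ * ‖x i ξ‖) l (nhds 0) := by
    have := h0.norm.const_mul ‖y‖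
    simpa using this
  have h2 := (Metric.tendsto_nhds.1 h1) (ε / 2) (by positivity)
  filter_upwards [h2] with i hi
  rw [dist_zero_right]
  rw [Real.dist_eq, sub_zero, abs_of_nonneg (by positivity)] at hi
  have h3 : x i ζ = x i (ζ - y ξ) + y (x i ξ) := by
    rw [map_sub, commute_apply (hx i) hy]
    abel
  rw [h3]
  have h4 : ‖ζ - y ξ‖ < ε / (2 * (C + 1)) := by
    rw [Metric.mem_ball, dist_eq_norm, norm_sub_rev] at hz
    exact hz
  calc ‖x i (ζ - y ξ) + y (x i ξ)‖ ≤ ‖x i (ζ - y ξ)‖ + ‖y (x i ξ)‖ := norm_add_le _ _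
    _ ≤ C * ‖ζ - y ξ‖ + ‖y‖ * ‖x i ξ‖ := by
        gcongr
        · exact (x i).le_of_opNorm_le (hC i) _
        · exact y.le_opNorm _
    _ ≤ (C + 1) * ‖ζ - y ξ‖ + ‖y‖ * ‖x i ξ‖ := by
        gcongr
        linarith
    _ < (C + 1) * (ε / (2 * (C + 1))) + ε / 2 := by
        have : 0 < C + 1 := by positivity
        nlinarith
    _ = ε := by
        field_simp
        ring

/-- Completeness of balls: norm-bounded operators converging on a separating vector converge
to an operator of the algebra. -/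
lemma exists_limit {ι : Type*} {l : Filter ι} [l.NeBot] (A : VonNeumannAlgebra H) {ξ η : H}
    (hd : Dense (orb A.commutant ξ : Set H)) {x : ι → H →L[ℂ] H} {C : ℝ} (hC0 : 0 ≤ C)
    (hx : ∀ i, x i ∈ A) (hC : ∀ i, ‖x i‖ ≤ C)
    (h0 : Filter.Tendsto (fun i => x i ξ) l (nhds η)) :
    ∃ y ∈ A, y ξ = η ∧ ‖y‖ ≤ C := by
  obtain ⟨y, hy, hyeq, hyC⟩ := exists_op A.commutant (η := η) hC0 hd (by
    intro a ha
    have h1 : Filter.Tendsto (fun i => ‖a (x i ξ)‖) l (nhds ‖a η‖) :=
      ((a.continuous.tendsto η).comp h0).norm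
    refine le_of_tendsto h1 (Filter.Eventually.of_forall fun i => ?_)
    rw [← commute_apply (hx i) ha]
    exact (x i).le_of_opNorm_le (hC i) _)
  rw [VonNeumannAlgebra.commutant_commutant] at hy
  refine ⟨y, hy, ?_, hyC⟩
  have := hyeq 1 (one_mem _)
  simpa using this

/-- Two operators of an algebra that agree on a separating vector are equal. -/
lemma eq_of_dense (A : VonNeumannAlgebra H) {ξ : H}
    (hd : Dense (orb A.commutant ξ : Set H)) {x y : H →L[ℂ] H} (hx : x ∈ A) (hy : y ∈ A)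
    (h : x ξ = y ξ) : x = y := by
  apply ContinuousLinearMap.ext
  intro ζ
  have hcl : IsClosed {z : H | x z = y z} := isClosed_eq x.continuous y.continuous
  have hsub : (orb A.commutant ξ : Set H) ⊆ {z : H | x z = y z} := by
    rintro _ ⟨a, ha, rfl⟩
    change x (a ξ) = y (a ξ)
    rw [commute_apply hx ha, commute_apply hy ha, h]
  exact closure_minimal hsub hcl (hd ζ)

end Pool.Agent.Helper23
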