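import Pool.Agent.Helper23.Basic

/-!
# Eigenoperators of a vector state
-/

open scoped InnerProductSpace
open ContinuousLinearMap

namespace Pool.Agent.Helper23

variable {H : Type*} [NormedAddCommGroup H] [InnerProductSpace ℂ H] [CompleteSpace H]

lemma inner_star_left (a : H →L[ℂ] H) (x y : H) : ⟪(star a) x, y⟫_ℂ = ⟪x, a y⟫_ℂ := by
  rw [ContinuousLinearMap.star_eq_adjoint, ContinuousLinearMap.adjoint_inner_left]

lemma inner_star_right (a : H →L[ℂ] H) (x y : H) : ⟪x, (star a) y⟫_ℂ = ⟪a x, y⟫_ℂ := by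
  rw [ContinuousLinearMap.star_eq_adjoint, ContinuousLinearMap.adjoint_inner_right]

lemma norm_sq_apply (a : H →L[ℂ] H) (x : H) : ((‖a x‖ ^ 2 : ℝ) : ℂ) = ⟪x, (star a) (a x)⟫_ℂ := by
  rw [inner_star_right, inner_self_eq_norm_sq_to_K]
  norm_cast

/-- The eigenoperators with eigenvalue `γ` of the vector state given by `ξ` on `N`:
`a ∈ N` with `φ(x a) = γ φ(a x)` for all `x ∈ N`, where `φ(x) = ⟪ξ, x ξ⟫`. -/
def eig (N : VonNeumannAlgebra H) (ξ : H) (γ : ℝ) : Submodule ℂ (H →L[ℂ] H) where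
  carrier := {a | a ∈ N ∧ ∀ x ∈ N, ⟪ξ, x (a ξ)⟫_ℂ = γ * ⟪ξ, a (x ξ)⟫_ℂ}
  add_mem' := by
    rintro a b ⟨ha, ha'⟩ ⟨hb, hb'⟩
    refine ⟨add_mem ha hb, fun x hx => ?_⟩
    simp only [add_apply, map_add, inner_add_right, ha' x hx, hb' x hx]
    ring
  zero_mem' := ⟨zero_mem N, fun x _ => by simp⟩
  smul_mem' := by
    rintro c a ⟨ha, ha'⟩
    refine ⟨smul_mem' c ha, fun x hx => ?_⟩
    simp only [FunLike.coe_smul, Pi.smul_apply, map_smul, inner_smul_right, ha' x hx]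
    ring

variable {M N : VonNeumannAlgebra H} {ξ : H} {E : (H →L[ℂ] H) → (H →L[ℂ] H)}

lemma eig_mem {γ : ℝ} {a : H →L[ℂ] H} (ha : a ∈ eig N ξ γ) : a ∈ N := ha.1

lemma eig_rel {γ : ℝ} {a : H →L[ℂ] H} (ha : a ∈ eig N ξ γ) {x : H →L[ℂ] H} (hx : x ∈ N) :
    ⟪ξ, x (a ξ)⟫_ℂ = γ * ⟪ξ, a (x ξ)⟫_ℂ := ha.2 x hx

lemma eig_star {γ : ℝ} (hγ : γ ≠ 0) {a : H →L[ℂ] H} (ha : a ∈ eig N ξ γ) :
    star a ∈ eig N ξ γ⁻¹ := by
  refine ⟨star_mem ha.1, fun x hx => ?_⟩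
  have h := ha.2 (star x) (star_mem hx)
  -- h : ⟪ξ, x* a ξ⟫ = γ ⟪ξ, a x* ξ⟫
  rw [inner_star_right] at h
  have h2 : ⟪ξ, a ((star x) ξ)⟫_ℂ = ⟪(star a) ξ, (star x) ξ⟫_ℂ := by rw [inner_star_left]
  rw [h2, inner_star_right] at h
  -- h : ⟪x ξ, a ξ⟫ = γ ⟪x a* ξ, ξ⟫
  have h3 : ⟪ξ, (star a) (x ξ)⟫_ℂ = ⟪a ξ, x ξ⟫_ℂ := inner_star_right _ _ _
  rw [h3, ← inner_conj_symm, ← inner_conj_symm (a ξ), h]
  have hγ' : (γ : ℂ) ≠ 0 := by exact_mod_cast hγ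
  simp only [map_mul, Complex.conj_ofReal, inner_conj_symm]
  push_cast
  field_simp

lemma eig_mul {γ δ : ℝ} {a b : H →L[ℂ] H} (ha : a ∈ eig N ξ γ) (hb : b ∈ eig N ξ δ) :
    a * b ∈ eig N ξ (γ * δ) := by
  refine ⟨mul_mem ha.1 hb.1, fun x hx => ?_⟩
  have h1 := hb.2 (x * a) (mul_mem hx ha.1)
  have h2 := ha.2 (b * x) (mul_mem hb.1 hx)
  change ⟪ξ, x (a (b ξ))⟫_ℂ = _
  change ⟪ξ, x (a (b ξ))⟫_ℂ = δ * ⟪ξ, b (x (a ξ))⟫_ℂ at h1
  change ⟪ξ, b (x (a ξ))⟫_ℂ = γ * ⟪ξ, a (b (x ξ))⟫_ℂ at h2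
  rw [h1, h2]
  change _ = _ * ⟪ξ, a (b (x ξ))⟫_ℂ
  push_cast
  ring

lemma one_mem_eig : (1 : H →L[ℂ] H) ∈ eig N ξ 1 := by
  refine ⟨one_mem N, fun x _ => ?_⟩
  simp

lemma algebraMap_mem_eig (c : ℂ) : algebraMap ℂ (H →L[ℂ] H) c ∈ eig N ξ 1 := by
  rw [Algebra.algebraMap_eq_smul_one]
  exact Submodule.smul_mem _ _ one_mem_eig

/-- The centralizer `N_φ` of the state, as a star subalgebra. -/
def cent (N : VonNeumannAlgebra H) (ξ : H) : StarSubalgebra ℂ (H →L[ℂ] H) where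
  carrier := eig N ξ 1
  mul_mem' := by
    intro a b ha hb
    have := eig_mul ha hb
    rwa [mul_one] at this
  add_mem' := fun ha hb => add_mem ha hb
  algebraMap_mem' := algebraMap_mem_eig
  star_mem' := by
    intro a ha
    have := eig_star one_ne_zero ha
    rwa [inv_one] at this

lemma mem_cent {a : H →L[ℂ] H} : a ∈ cent N ξ ↔ a ∈ eig N ξ 1 := Iff.rfl

lemma vN_isClosed (A : VonNeumannAlgebra H) : IsClosed (A : Set (H →L[ℂ] H)) := by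
  rw [← A.commutant_commutant, VonNeumannAlgebra.coe_commutant]
  exact Set.isClosed_centralizer _

lemma eig_isClosed (γ : ℝ) : IsClosed (eig N ξ γ : Set (H →L[ℂ] H)) := by
  have : (eig N ξ γ : Set (H →L[ℂ] H)) = (N : Set (H →L[ℂ] H)) ∩
      ⋂ x ∈ N, {a : H →L[ℂ] H | ⟪ξ, x (a ξ)⟫_ℂ = γ * ⟪ξ, a (x ξ)⟫_ℂ} := by
    ext a
    simp only [Set.mem_inter_iff, Set.mem_iInter]
    rfl
  rw [this]
  refine (vN_isClosed N).inter (isClosed_biInter fun x _ => isClosed_eq ?_ ?_)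
  · fun_prop
  · fun_prop

instance instClosedCent : IsClosed (cent N ξ : Set (H →L[ℂ] H)) := eig_isClosed 1

/-- The basic setting: an inclusion `N ⊆ M` with conditional expectation `E`, represented so that
the state `φ ∘ E` is the vector state of a cyclic and separating unit vector `ξ` for `M`. -/
structure Setting (M N : VonNeumannAlgebra H) (E : (H →L[ℂ] H) → (H →L[ℂ] H)) (ξ : H) :
    Prop where
  le : ∀ x ∈ N, x ∈ M
  norm_one : ‖ξ‖ = 1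
  cyc : Dense (orb M ξ : Set H)
  sep : ∀ a ∈ M, a ξ = 0 → a = 0
  E_mem : ∀ x ∈ M, E x ∈ N
  E_bimod : ∀ a ∈ N, ∀ b ∈ N, ∀ x ∈ M, E (a * x * b) = a * E x * b
  E_fix : ∀ x ∈ N, E x = x
  E_state : ∀ x ∈ M, ⟪ξ, E x ξ⟫_ℂ = ⟪ξ, x ξ⟫_ℂ

namespace Setting

variable (S : Setting M N E ξ)
include S

lemma dense_comm : Dense (orb M.commutant ξ : Set H) := dense_of_separating M ξ S.sep

lemma comm_le {y : H →L[ℂ] H} (hy : y ∈ M.commutant) : y ∈ N.commutant := by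
  rw [mem_comm_iff] at hy ⊢
  exact fun g hg => hy g (S.le g hg)

lemma dense_commN : Dense (orb N.commutant ξ : Set H) := by
  refine S.dense_comm.mono ?_
  rintro _ ⟨a, ha, rfl⟩
  exact ⟨a, S.comm_le ha, rfl⟩

lemma inner_self : ⟪ξ, ξ⟫_ℂ = 1 := by
  rw [inner_self_eq_norm_sq_to_K, S.norm_one]; simp

lemma E_inner {a b x : H →L[ℂ] H} (ha : a ∈ N) (hb : b ∈ N) (hx : x ∈ M) :
    ⟪a ξ, E x (b ξ)⟫_ℂ = ⟪a ξ, x (b ξ)⟫_ℂ := by
  have h := S.E_state (star a * x * b)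
    (mul_mem (mul_mem (star_mem (S.le a ha)) hx) (S.le b hb))
  rw [S.E_bimod _ (star_mem ha) _ hb _ hx] at h
  change ⟪ξ, (star a) (E x (b ξ))⟫_ℂ = ⟪ξ, (star a) (x (b ξ))⟫_ℂ at h
  rw [inner_star_right, inner_star_right] at h
  exact h

/-- Eigenoperators satisfy the eigenrelation against all of `M`. -/
lemma eigM {γ : ℝ} {a : H →L[ℂ] H} (ha : a ∈ eig N ξ γ) {x : H →L[ℂ] H} (hx : x ∈ M) :
    ⟪ξ, x (a ξ)⟫_ℂ = γ * ⟪ξ, a (x ξ)⟫_ℂ := by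
  have h1 := S.E_state (1 * x * a) (mul_mem (mul_mem (one_mem M) hx) (S.le a ha.1))
  rw [S.E_bimod _ (one_mem N) _ ha.1 _ hx] at h1
  have h2 := S.E_state (a * x * 1) (mul_mem (mul_mem (S.le a ha.1) hx) (one_mem M))
  rw [S.E_bimod _ ha.1 _ (one_mem N) _ hx] at h2
  have h3 := ha.2 (E x) (S.E_mem x hx)
  simp only [one_mul, mul_one] at h1 h2
  change ⟪ξ, E x (a ξ)⟫_ℂ = ⟪ξ, x (a ξ)⟫_ℂ at h1
  change ⟪ξ, a (E x ξ)⟫_ℂ = ⟪ξ, a (x ξ)⟫_ℂ at h2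
  rw [← h1, h3, h2]

lemma eigM_inner {γ : ℝ} {a : H →L[ℂ] H} (ha : a ∈ eig N ξ γ) {x : H →L[ℂ] H} (hx : x ∈ M) :
    ⟪x ξ, a ξ⟫_ℂ = γ * ⟪(star a) ξ, (star x) ξ⟫_ℂ := by
  have := S.eigM ha (star_mem hx)
  rwa [inner_star_right, ← inner_star_left a ξ] at this

lemma eig_norm_sq {γ : ℝ} {a : H →L[ℂ] H} (ha : a ∈ eig N ξ γ) :
    ‖a ξ‖ ^ 2 = γ * ‖(star a) ξ‖ ^ 2 := by
  have := S.eigM_inner ha (S.le a ha.1)
  rw [inner_self_eq_norm_sq_to_K, inner_self_eq_norm_sq_to_K] at this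
  have h2 : ((‖a ξ‖ ^ 2 : ℝ) : ℂ) = ((γ * ‖(star a) ξ‖ ^ 2 : ℝ) : ℂ) := by
    push_cast
    exact this
  exact Complex.ofReal_injective h2

/-- unitaries of the centralizer act isometrically from the right -/
lemma norm_right_unitary {u y : H →L[ℂ] H} (hu : u ∈ eig N ξ 1) (hu' : u * star u = 1)
    (hy : y ∈ M) : ‖y (u ξ)‖ = ‖y ξ‖ := by
  have h := S.eigM hu (x := star u * (star y * y))
    (mul_mem (star_mem (S.le u hu.1)) (mul_mem (star_mem hy) hy))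
  change ⟪ξ, (star u) ((star y) (y (u ξ)))⟫_ℂ = _ * ⟪ξ, (u * star u) ((star y) (y ξ))⟫_ℂ at h
  rw [hu', inner_star_right, inner_star_right] at h
  simp only [Complex.ofReal_one, one_mul, one_apply_eq_self] at h
  rw [inner_star_right, inner_self_eq_norm_sq_to_K, inner_self_eq_norm_sq_to_K] at h
  have h2 : ‖y (u ξ)‖ ^ 2 = ‖y ξ‖ ^ 2 := by exact_mod_cast h
  exact (pow_left_inj₀ (norm_nonneg _) (norm_nonneg _) two_ne_zero).1 h2

lemma norm_right_cent {c y : H →L[ℂ] H} (hc : c ∈ eig N ξ 1) (hy : y ∈ M) :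
    ‖y (c ξ)‖ ≤ 2 * ‖c‖ * ‖y ξ‖ := by
  obtain ⟨u, k, hk, hkn⟩ := CStarAlgebra.exists_sum_four_unitary (⟨c, hc⟩ : cent N ξ)
  have hc' : c = ∑ i, k i • ((u i : cent N ξ) : H →L[ℂ] H) := by
    have := congrArg (fun z : cent N ξ => (z : H →L[ℂ] H)) hk
    simpa using this
  have hnorm : ∀ i, ‖y (((u i : cent N ξ) : H →L[ℂ] H) ξ)‖ = ‖y ξ‖ := by
    intro i
    refine S.norm_right_unitary (u i : cent N ξ).2 ?_ hy
    have := Unitary.mul_star_self_of_mem (u i).2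
    exact congrArg (fun z : cent N ξ => (z : H →L[ℂ] H)) this
  have e1 : y (c ξ) = ∑ i, k i • y (((u i : cent N ξ) : H →L[ℂ] H) ξ) := by
    rw [hc']
    simp only [sum_apply, FunLike.coe_smul, Pi.smul_apply, map_sum, map_smul]
  have hkn' : ∀ i, ‖k i‖ ≤ ‖c‖ / 2 := hkn
  calc ‖y (c ξ)‖ ≤ ∑ i, ‖k i • y (((u i : cent N ξ) : H →L[ℂ] H) ξ)‖ := by
        rw [e1]; exact norm_sum_le _ _
    _ ≤ ∑ _i : Fin 4, ‖c‖ / 2 * ‖y ξ‖ := by
        refine Finset.sum_le_sum fun i _ => ?_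
        rw [norm_smul, hnorm]
        gcongr
        exact hkn' i
    _ = 2 * ‖c‖ * ‖y ξ‖ := by
        simp only [Finset.sum_const, Finset.card_univ, Fintype.card_fin, nsmul_eq_mul]
        push_cast
        ring

lemma norm_right_eig_sq {γ : ℝ} {a y : H →L[ℂ] H} (ha : a ∈ eig N ξ γ) (hy : y ∈ M) :
    ((‖y (a ξ)‖ ^ 2 : ℝ) : ℂ) = γ * ⟪y ((a * star a) ξ), y ξ⟫_ℂ := by
  have h := S.eigM ha (x := star a * (star y * y))
    (mul_mem (star_mem (S.le a ha.1)) (mul_mem (star_mem hy) hy))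
  change ⟪ξ, (star a) ((star y) (y (a ξ)))⟫_ℂ = _ * ⟪ξ, (a * star a) ((star y) (y ξ))⟫_ℂ at h
  rw [inner_star_right, inner_star_right, inner_self_eq_norm_sq_to_K] at h
  have h3 : ⟪ξ, (a * star a) ((star y) (y ξ))⟫_ℂ = ⟪y ((a * star a) ξ), y ξ⟫_ℂ := by
    rw [← inner_star_left, star_mul, star_star, inner_star_right]
  rw [h3] at h
  push_cast
  exact h

/-- Right multiplication by an eigenoperator is given by an operator of the commutant of `M`. -/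
lemma exists_right {γ : ℝ} (hγ : 0 < γ) {a : H →L[ℂ] H} (ha : a ∈ eig N ξ γ) :
    ∃ a' ∈ M.commutant, ∀ y ∈ M, a' (y ξ) = y (a ξ) := by
  have hc : a * star a ∈ eig N ξ 1 := by
    have := eig_mul ha (eig_star hγ.ne' ha)
    rwa [mul_inv_cancel₀ hγ.ne'] at this
  obtain ⟨a', h1, h2, -⟩ := exists_op M (ξ := ξ) (η := a ξ)
    (C := Real.sqrt (γ * (2 * ‖a * star a‖))) (Real.sqrt_nonneg _) S.cyc (by
      intro y hy
      have h := S.norm_right_eig_sq ha hy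
      have h3 : ‖y (a ξ)‖ ^ 2 ≤ γ * (2 * ‖a * star a‖) * ‖y ξ‖ ^ 2 := by
        have h4 : ‖((‖y (a ξ)‖ ^ 2 : ℝ) : ℂ)‖ ≤ γ * (2 * ‖a * star a‖ * ‖y ξ‖ * ‖y ξ‖) := by
          rw [h, norm_mul, Complex.norm_real, Real.norm_of_nonneg hγ.le]
          gcongr
          exact (norm_inner_le_norm _ _).trans
            (mul_le_mul_of_nonneg_right (S.norm_right_cent hc hy) (norm_nonneg _))
        rw [Complex.norm_real, Real.norm_of_nonneg (by positivity)] at h4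
        linarith
      rw [← Real.sqrt_sq (norm_nonneg (y ξ)), ← Real.sqrt_mul (by positivity)]
      exact Real.le_sqrt_of_sq_le h3)
  exact ⟨a', h1, h2⟩

end Setting

end Pool.Agent.Helper23
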