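import Pool.Agent.Helper23.Amp1
import Pool.Agent.Helper23.Basic
import Pool.Agent.Helper23.Eigen

/-!
# Tensors, slices and the amplified algebra
-/

open scoped InnerProductSpace Topology ENNReal
open ContinuousLinearMap Filter MeasureTheory

set_option linter.unusedSectionVars false
set_option linter.unusedVariables false

namespace Pool.Agent.Helper23

variable {H : Type*} [NormedAddCommGroup H] [InnerProductSpace ℂ H] [CompleteSpace H]

/-- the map `f ↦ f ⊗ η` -/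
noncomputable def axi (η : H) : L2R ℂ →L[ℂ] L2R H := lift (toSpanSingleton ℂ η)

/-- elementary tensors -/
noncomputable def ten (f : L2R ℂ) (η : H) : L2R H := axi η f

lemma ten_coe (f : L2R ℂ) (η : H) : ten f η =ᵐ[volume] fun s => f s • η := by
  filter_upwards [lift_coe (toSpanSingleton ℂ η) f] with s hs
  change (lift (toSpanSingleton ℂ η) f) s = _
  rw [hs, toSpanSingleton_apply]

lemma ten_add_left (f g : L2R ℂ) (η : H) : ten (f + g) η = ten f η + ten g η := map_add _ _ _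
lemma ten_sub_left (f g : L2R ℂ) (η : H) : ten (f - g) η = ten f η - ten g η := map_sub _ _ _
lemma ten_smul_left (c : ℂ) (f : L2R ℂ) (η : H) : ten (c • f) η = c • ten f η := map_smul _ _ _

lemma ten_add_right (f : L2R ℂ) (η ζ : H) : ten f (η + ζ) = ten f η + ten f ζ := by
  ext1
  filter_upwards [ten_coe f η, ten_coe f ζ, ten_coe f (η + ζ),
    Lp.coeFn_add (ten f η) (ten f ζ)] with s h1 h2 h3 h4
  rw [h3, h4, Pi.add_apply, h1, h2, smul_add]

lemma ten_smul_right (c : ℂ) (f : L2R ℂ) (η : H) : ten f (c • η) = c • ten f η := by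
  ext1
  filter_upwards [ten_coe f η, ten_coe f (c • η), Lp.coeFn_smul c (ten f η)] with s h1 h2 h3
  rw [h2, h3, Pi.smul_apply, h1, smul_comm]

lemma inner_ten (f g : L2R ℂ) (η ζ : H) : ⟪ten f η, ten g ζ⟫_ℂ = ⟪f, g⟫_ℂ * ⟪η, ζ⟫_ℂ := by
  rw [L2.inner_def, L2.inner_def, ← integral_mul_const]
  refine integral_congr_ae ?_
  filter_upwards [ten_coe f η, ten_coe g ζ] with s h1 h2
  rw [h1, h2, inner_smul_left, inner_smul_right]
  simp only [RCLike.inner_apply]
  ring

lemma norm_ten (f : L2R ℂ) (η : H) : ‖ten f η‖ = ‖f‖ * ‖η‖ := by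
  have h := inner_ten f f η η
  simp only [inner_self_eq_norm_sq_to_K] at h
  have h2 : ‖ten f η‖ ^ 2 = (‖f‖ * ‖η‖) ^ 2 := by
    have h3 : ((‖ten f η‖ ^ 2 : ℝ) : ℂ) = (((‖f‖ * ‖η‖) ^ 2 : ℝ) : ℂ) := by
      push_cast
      rw [mul_pow]
      exact h
    exact Complex.ofReal_injective h3
  exact (pow_left_inj₀ (norm_nonneg _) (by positivity) two_ne_zero).1 h2

/-- the map `η ↦ f ⊗ η` -/
noncomputable def iot (H : Type*) [NormedAddCommGroup H] [InnerProductSpace ℂ H] [CompleteSpace H]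
    (f : L2R ℂ) : H →L[ℂ] L2R H :=
  LinearMap.mkContinuous
    { toFun := fun η => ten f η
      map_add' := fun η ζ => ten_add_right f η ζ
      map_smul' := fun c η => ten_smul_right c f η } ‖f‖ (fun η => (norm_ten f η).le)

lemma iot_apply (f : L2R ℂ) (η : H) : iot H f η = ten f η := rfl

/-- slice of a vector -/
noncomputable def sl (f : L2R ℂ) : L2R H →L[ℂ] H := adjoint (iot H f)

lemma inner_sl (f : L2R ℂ) (F : L2R H) (η : H) : ⟪η, sl f F⟫_ℂ = ⟪ten f η, F⟫_ℂ := by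
  rw [sl, adjoint_inner_right, iot_apply]

lemma inner_sl' (f : L2R ℂ) (F : L2R H) (η : H) : ⟪sl f F, η⟫_ℂ = ⟪F, ten f η⟫_ℂ := by
  rw [sl, adjoint_inner_left, iot_apply]

lemma sl_ten (f g : L2R ℂ) (η : H) : sl f (ten g η) = ⟪f, g⟫_ℂ • η := by
  refine ext_inner_left ℂ fun ζ => ?_
  rw [inner_sl, inner_ten, inner_smul_right]

lemma lift_ten (a : H →L[ℂ] H) (f : L2R ℂ) (η : H) : lift a (ten f η) = ten f (a η) := by
  ext1
  filter_upwards [lift_coe a (ten f η), ten_coe f η, ten_coe f (a η)] with s h1 h2 h3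
  rw [h1, h2, h3, map_smul]

lemma sl_lift (f : L2R ℂ) (a : H →L[ℂ] H) (F : L2R H) : sl f (lift a F) = a (sl f F) := by
  refine ext_inner_left ℂ fun ζ => ?_
  rw [inner_sl]
  have h1 : ⟪ten f ζ, lift a F⟫_ℂ = ⟪(star (lift a)) (ten f ζ), F⟫_ℂ := by
    rw [inner_star_left]
  have h2 : ⟪ζ, a (sl f F)⟫_ℂ = ⟪(star a) ζ, sl f F⟫_ℂ := by
    rw [inner_star_left]
  rw [h1, h2, inner_sl, ← lift_star, lift_ten]

lemma tr_ten (t : ℝ) (f : L2R ℂ) (η : H) : tr H t (ten f η) = ten (tr ℂ t f) η :=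
  tr_lift t _ f

lemma mulOp_ten {m : ℝ → ℂ} (h : BM m) (f : L2R ℂ) (η : H) :
    mulOp H m (ten f η) = ten (mulOp ℂ m f) η := mulOp_lift h _ f

/-- elementary tensors are total -/
lemma eq_zero_of_ten {F : L2R H} (h : ∀ (f : L2R ℂ) (η : H), ⟪ten f η, F⟫_ℂ = 0) : F = 0 := by
  have h1 : ∀ F' : L2R H, ⟪F', F⟫_ℂ = 0 := by
    refine Lp.induction (by norm_num) _ ?_ ?_ ?_
    · intro c s hs hμs
      have e1 : ((Lp.simpleFunc.indicatorConst 2 hs hμs.ne c : Lp.simpleFunc H 2 volume) :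
          L2R H) = ten (indicatorConstLp 2 hs hμs.ne (1 : ℂ)) c := by
        rw [Lp.simpleFunc.coe_indicatorConst]
        ext1
        filter_upwards [ten_coe (indicatorConstLp 2 hs hμs.ne (1 : ℂ)) c,
          indicatorConstLp_coeFn (p := 2) (hs := hs) (hμs := hμs.ne) (c := (1 : ℂ)),
          indicatorConstLp_coeFn (p := 2) (hs := hs) (hμs := hμs.ne) (c := c)] with x h1 h2 h3
        rw [h1, h2, h3]
        by_cases hx : x ∈ s
        · rw [Set.indicator_of_mem hx, Set.indicator_of_mem hx, one_smul]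
        · rw [Set.indicator_of_notMem hx, Set.indicator_of_notMem hx, zero_smul]
      rw [e1]
      exact h _ _
    · intro f g hf hg _ h1 h2
      rw [inner_add_left, h1, h2, add_zero]
    · exact isClosed_eq (by fun_prop) continuous_const
  exact inner_self_eq_zero.1 (h1 F)

/-- operators agreeing on elementary tensors are equal -/
lemma op_ext {X Y : L2R H →L[ℂ] L2R H} (h : ∀ (f : L2R ℂ) (η : H), X (ten f η) = Y (ten f η)) :
    X = Y := by
  have h1 : star X = star Y := by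
    ext F : 1
    rw [← sub_eq_zero]
    refine eq_zero_of_ten fun f η => ?_
    rw [inner_sub_right, inner_star_right, inner_star_right, h, sub_self]
  have := congrArg star h1
  rwa [star_star, star_star] at this

/-- slices of operators -/
noncomputable def slX (X : L2R H →L[ℂ] L2R H) (f g : L2R ℂ) : H →L[ℂ] H :=
  (sl f).comp (X.comp (iot H g))

lemma slX_apply (X : L2R H →L[ℂ] L2R H) (f g : L2R ℂ) (η : H) :
    slX X f g η = sl f (X (ten g η)) := rfl

lemma inner_slX (X : L2R H →L[ℂ] L2R H) (f g : L2R ℂ) (η ζ : H) :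
    ⟪η, slX X f g ζ⟫_ℂ = ⟪ten f η, X (ten g ζ)⟫_ℂ := by
  rw [slX_apply, inner_sl]

/-- The amplification of a von Neumann algebra. -/
noncomputable def amp (A : VonNeumannAlgebra H) : VonNeumannAlgebra (L2R H) where
  toStarSubalgebra := StarSubalgebra.centralizer ℂ (lift '' (A.commutant : Set (H →L[ℂ] H)))
  centralizer_centralizer' := by simp

lemma mem_amp {A : VonNeumannAlgebra H} {X : L2R H →L[ℂ] L2R H} :
    X ∈ amp A ↔ ∀ a ∈ A.commutant, lift a * X = X * lift a := by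
  have h1 : X ∈ amp A ↔ X ∈ StarSubalgebra.centralizer ℂ
    (lift '' (A.commutant : Set (H →L[ℂ] H))) := Iff.rfl
  rw [h1, StarSubalgebra.mem_centralizer_iff]
  constructor
  · intro h a ha
    exact (h _ ⟨a, ha, rfl⟩).1
  · rintro h _ ⟨a, ha, rfl⟩
    exact ⟨h a ha, by rw [← lift_star]; exact h _ (star_mem ha)⟩

variable {A : VonNeumannAlgebra H}

lemma amp_comm {X : L2R H →L[ℂ] L2R H} (hX : X ∈ amp A) {a : H →L[ℂ] H} (ha : a ∈ A.commutant)
    (F : L2R H) : lift a (X F) = X (lift a F) :=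
  congrArg (fun T : L2R H →L[ℂ] L2R H => T F) (mem_amp.1 hX a ha)

lemma amp_ten {X : L2R H →L[ℂ] L2R H} (hX : X ∈ amp A) {a : H →L[ℂ] H} (ha : a ∈ A.commutant)
    (f : L2R ℂ) (η : H) : X (ten f (a η)) = lift a (X (ten f η)) := by
  rw [amp_comm hX ha, lift_ten]

/-- operators of the amplification are determined by their values on `f ⊗ ξ` -/
lemma amp_ext {ξ : H} (hd : Dense (orb A.commutant ξ : Set H)) {X Y : L2R H →L[ℂ] L2R H}
    (hX : X ∈ amp A) (hY : Y ∈ amp A) (h : ∀ f : L2R ℂ, X (ten f ξ) = Y (ten f ξ)) : X = Y := by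
  refine op_ext fun f η => ?_
  have hcl : IsClosed {η : H | X (iot H f η) = Y (iot H f η)} :=
    isClosed_eq (by fun_prop) (by fun_prop)
  have hsub : (orb A.commutant ξ : Set H) ⊆ {η : H | X (iot H f η) = Y (iot H f η)} := by
    rintro _ ⟨a, ha, rfl⟩
    change X (ten f (a ξ)) = Y (ten f (a ξ))
    rw [amp_ten hX ha, amp_ten hY ha, h]
  exact closure_minimal hsub hcl (hd η)

lemma slX_mem {X : L2R H →L[ℂ] L2R H} (hX : X ∈ amp A) (f g : L2R ℂ) : slX X f g ∈ A := by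
  rw [mem_iff_commutes]
  intro a ha
  ext η
  change a (sl f (X (ten g η))) = sl f (X (ten g (a η)))
  rw [amp_ten hX ha, sl_lift]

lemma mem_amp_of_slX {X : L2R H →L[ℂ] L2R H} (h : ∀ f g : L2R ℂ, slX X f g ∈ A) : X ∈ amp A := by
  rw [mem_amp]
  intro a ha
  refine op_ext fun g η => ?_
  change lift a (X (ten g η)) = X (lift a (ten g η))
  rw [← sub_eq_zero]
  refine eq_zero_of_ten fun f ζ => ?_
  rw [inner_sub_right, ← inner_sl, sl_lift, ← slX_apply, lift_ten, ← inner_slX,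
    ← commute_apply (h f g) ha, sub_self]

lemma lift_mem_amp {a : H →L[ℂ] H} (ha : a ∈ A) : lift a ∈ amp A := by
  rw [mem_amp]
  intro b hb
  rw [← lift_mul, ← lift_mul, mem_comm_iff.1 hb a ha]

lemma mulOp_mem_amp {m : ℝ → ℂ} (h : BM m) : mulOp H m ∈ amp A := by
  rw [mem_amp]
  intro b _
  ext F : 1
  exact (mulOp_lift h b F).symm

lemma tr_mem_amp (t : ℝ) : tr H t ∈ amp A := by
  rw [mem_amp]
  intro b _
  ext F : 1
  exact (tr_lift t b F).symm

lemma dec_mem_amp {T : ℝ → H →L[ℂ] H} (h : Dec T) (hT : ∀ s, T s ∈ A) : dec T ∈ amp A := by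
  rw [mem_amp]
  intro b hb
  ext F : 1
  change lift b (dec T F) = dec T (lift b F)
  ext1
  filter_upwards [lift_coe b (dec T F), dec_coe h F, dec_coe h (lift b F), lift_coe b F]
    with s h1 h2 h3 h4
  rw [h1, h2, h3, h4, commute_apply (hT s) hb]

/-- rank one type operators -/
noncomputable def rk (b : H →L[ℂ] H) (f g : L2R ℂ) : L2R H →L[ℂ] L2R H :=
  (iot H f).comp (b.comp (sl g))

lemma rk_apply (b : H →L[ℂ] H) (f g : L2R ℂ) (F : L2R H) : rk b f g F = ten f (b (sl g F)) := rfl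

lemma rk_mem_amp {b : H →L[ℂ] H} (hb : b ∈ A) (f g : L2R ℂ) : rk b f g ∈ amp A := by
  rw [mem_amp]
  intro a ha
  ext F : 1
  change lift a (ten f (b (sl g F))) = ten f (b (sl g (lift a F)))
  rw [lift_ten, sl_lift, commute_apply hb ha]

lemma slX_norm_sub (X : L2R H →L[ℂ] L2R H) (f g f' g' : L2R ℂ) (η : H) :
    ‖slX X f g η - slX X f' g' η‖ ≤ ‖X‖ * (‖f - f'‖ * ‖g‖ + ‖f'‖ * ‖g - g'‖) * ‖η‖ := by
  have h1 : ∀ (f g : L2R ℂ) (η : H), ‖slX X f g η‖ ≤ ‖X‖ * (‖f‖ * ‖g‖) * ‖η‖ := by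
    intro f g η
    have e1 : ‖slX X f g η‖ ^ 2 ≤ ‖slX X f g η‖ * (‖X‖ * (‖f‖ * ‖g‖) * ‖η‖) := by
      have e2 := inner_slX X f g (slX X f g η) η
      have e3 : ‖⟪slX X f g η, slX X f g η⟫_ℂ‖ = ‖slX X f g η‖ ^ 2 := by
        rw [inner_self_eq_norm_sq_to_K]
        simp
      rw [← e3, e2]
      refine (norm_inner_le_norm _ _).trans ?_
      rw [norm_ten]
      have e4 : ‖X (ten g η)‖ ≤ ‖X‖ * (‖g‖ * ‖η‖) := by
        refine (X.le_opNorm _).trans ?_
        rw [norm_ten]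
      calc ‖f‖ * ‖slX X f g η‖ * ‖X (ten g η)‖ ≤ ‖f‖ * ‖slX X f g η‖ * (‖X‖ * (‖g‖ * ‖η‖)) := by
            gcongr
        _ = _ := by ring
    by_contra hcon
    push Not at hcon
    have e2 : 0 ≤ ‖X‖ * (‖f‖ * ‖g‖) * ‖η‖ := by positivity
    nlinarith [norm_nonneg (slX X f g η)]
  have h2 : slX X f g η - slX X f' g' η = slX X (f - f') g η + slX X f' (g - g') η := by
    refine ext_inner_left ℂ fun ζ => ?_
    rw [inner_sub_right, inner_add_right, inner_slX, inner_slX, inner_slX, inner_slX,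
      ten_sub_left, ten_sub_left, map_sub, inner_sub_left, inner_sub_right]
    ring
  rw [h2]
  calc _ ≤ ‖slX X (f - f') g η‖ + ‖slX X f' (g - g') η‖ := norm_add_le _ _
    _ ≤ ‖X‖ * (‖f - f'‖ * ‖g‖) * ‖η‖ + ‖X‖ * (‖f'‖ * ‖g - g'‖) * ‖η‖ :=
        add_le_add (h1 _ _ _) (h1 _ _ _)
    _ = _ := by ring

end Pool.Agent.Helper23
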