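import Pool.Agent.Helper23.Csb

/-!
# The amplification is spatially isomorphic to the algebra
-/

open scoped InnerProductSpace Topology ENNReal
open ContinuousLinearMap Filter MeasureTheory

set_option linter.unusedSectionVars false
set_option linter.unusedVariables false

namespace Pool.Agent.Helper23

variable {H : Type*} [NormedAddCommGroup H] [InnerProductSpace ℂ H] [CompleteSpace H]
variable {M N : VonNeumannAlgebra H} {ξ : H} {E : (H →L[ℂ] H) → (H →L[ℂ] H)}

lemma hw_countable : Countable hw := by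
  have : Fact ((2 : ℝ≥0∞) ≠ ⊤) := ⟨by norm_num⟩
  have hsc : SecondCountableTopology (L2R ℂ) := inferInstance
  have hsep : TopologicalSpace.SeparableSpace (L2R ℂ) := inferInstance
  refine Pairwise.countable_of_isOpen_disjoint
    (s := fun i : hw => Metric.ball (hb i : L2R ℂ) (1 / 2)) ?_ (fun i => Metric.isOpen_ball)
    (fun i => ⟨hb i, Metric.mem_ball_self (by norm_num)⟩)
  intro i j hij
  refine Set.disjoint_left.2 fun x hx hy => ?_
  rw [Metric.mem_ball] at hx hy
  have h1 : dist (hb i : L2R ℂ) (hb j) < 1 := by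
    calc dist (hb i : L2R ℂ) (hb j) ≤ dist (hb i : L2R ℂ) x + dist x (hb j) := dist_triangle _ _ _
      _ = dist x (hb i : L2R ℂ) + dist x (hb j) := by rw [dist_comm]
      _ < 1 := by linarith
  have h2 : ‖(hb i : L2R ℂ) - hb j‖ ^ 2 = 2 := by
    have h4 := @norm_sub_sq ℂ (L2R ℂ) _ _ _ (hb i) (hb j)
    rw [hb.orthonormal.2 hij, hb.orthonormal.1 i, hb.orthonormal.1 j] at h4
    rw [h4]
    simp
    norm_num
  rw [dist_eq_norm] at h1
  nlinarith [norm_nonneg ((hb i : L2R ℂ) - hb j)]

lemma hb_total {F : L2R ℂ} (h : ∀ i : hw, ⟪(hb i : L2R ℂ), F⟫_ℂ = 0) : F = 0 := by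
  have h1 : hb.repr F = 0 := by
    ext i
    rw [hb.repr_apply_apply]
    exact h i
  exact (map_eq_zero_iff _ hb.repr.injective).1 h1

/-- an isometry `L²(ℝ; H) → H` commuting with `N'` from a sequence of isometries of `N` -/
theorem exists_J {s : hw → H →L[ℂ] H} (hsN : ∀ i, s i ∈ N)
    (hs : ∀ i, star (s i) * s i = 1) (hs' : ∀ i j, i ≠ j → star (s i) * s j = 0) :
    ∃ J : L2R H →L[ℂ] H, (∀ x y, ⟪J x, J y⟫_ℂ = ⟪x, y⟫_ℂ) ∧
      ∀ a ∈ N.commutant, ∀ x, J (lift a x) = a (J x) := by
  classical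
  set e : (hw →₀ H) →ₗ[ℂ] L2R H := Finsupp.lsum ℂ fun i => (iot H (hb i)).toLinearMap with he
  set f : (hw →₀ H) →ₗ[ℂ] H := Finsupp.lsum ℂ fun i => (s i).toLinearMap with hf
  have he1 : ∀ c : hw →₀ H, e c = ∑ i ∈ c.support, ten (hb i) (c i) := fun c => by
    rw [he, Finsupp.lsum_apply]; rfl
  have hf1 : ∀ c : hw →₀ H, f c = ∑ i ∈ c.support, s i (c i) := fun c => by
    rw [hf, Finsupp.lsum_apply]; rfl
  have hin : ∀ c d : hw →₀ H, ⟪f c, f d⟫_ℂ = ⟪e c, e d⟫_ℂ := by
    intro c d
    rw [he1, he1, hf1, hf1, sum_inner, sum_inner]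
    refine Finset.sum_congr rfl fun i _ => ?_
    rw [inner_sum, inner_sum]
    refine Finset.sum_congr rfl fun j _ => ?_
    rw [inner_ten, ← inner_star_right]
    change ⟪c i, (star (s i) * s j) (d j)⟫_ℂ = _
    by_cases hij : i = j
    · subst hij
      rw [hs, inner_self_eq_norm_sq_to_K (𝕜 := ℂ) (hb i), hb.orthonormal.1 i]
      simp
    · rw [hs' i j hij, hb.orthonormal.2 hij, zero_mul]
      exact inner_zero_right _
  have hnorm : ∀ c, ‖f c‖ = ‖e c‖ := by
    intro c
    have h1 := hin c c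
    rw [inner_self_eq_norm_sq_to_K, inner_self_eq_norm_sq_to_K] at h1
    have h2 : ‖f c‖ ^ 2 = ‖e c‖ ^ 2 := by exact_mod_cast h1
    exact (pow_left_inj₀ (norm_nonneg _) (norm_nonneg _) two_ne_zero).1 h2
  have hes : ∀ i η, e (Finsupp.single i η) = ten (hb i) η := by
    intro i η
    rw [he, Finsupp.lsum_single]; rfl
  have hfs : ∀ i η, f (Finsupp.single i η) = s i η := by
    intro i η
    rw [hf, Finsupp.lsum_single]; rfl
  have hd : DenseRange e := by
    have h1 : (LinearMap.range e)ᗮ = ⊥ := by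
      rw [Submodule.eq_bot_iff]
      intro F hF
      refine eq_zero_of_ten fun g η => ?_
      have h2 : (adjoint (axi η)) F = 0 := by
        refine hb_total fun i => ?_
        rw [adjoint_inner_right]
        change ⟪ten (hb i) η, F⟫_ℂ = 0
        rw [← hes]
        exact (Submodule.mem_orthogonal _ _).1 hF _ ⟨_, rfl⟩
      have h3 : ⟪g, (adjoint (axi η)) F⟫_ℂ = ⟪ten g η, F⟫_ℂ := by
        rw [adjoint_inner_right]; rfl
      rw [← h3, h2, inner_zero_right]
    have h2 := Submodule.topologicalClosure_eq_top_iff.2 h1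
    intro x
    have h3 : x ∈ (LinearMap.range e).topologicalClosure := by rw [h2]; trivial
    exact h3
  obtain ⟨z, hz, -⟩ := exists_ext' f e hd (C := 1) zero_le_one (fun c => by
    rw [one_mul, hnorm])
  refine ⟨z, ?_, ?_⟩
  · intro x y
    refine hd.induction_on₂ (p := fun x y => ⟪z x, z y⟫_ℂ = ⟪x, y⟫_ℂ) ?_ ?_ x y
    · exact isClosed_eq (by fun_prop) (by fun_prop)
    · intro c d
      rw [hz, hz, hin]
  · intro a ha x
    refine hd.induction_on (p := fun x => z (lift a x) = a (z x)) x ?_ ?_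
    · exact isClosed_eq (by fun_prop) (by fun_prop)
    · intro c
      induction c using Finsupp.induction_linear with
      | zero => simp
      | add c d h1 h2 => rw [map_add, map_add, map_add, h1, h2, map_add, map_add]
      | single i η =>
        rw [hes, lift_ten, ← hes, ← hes, hz, hz, hfs, hfs, commute_apply (hsN i) ha]

/-- the isometries `v ^ n w` -/
lemma pow_isom {v w : H →L[ℂ] H} (hv : star v * v = 1) (hw : star w * w = 1)
    (hvw : star v * w = 0) :
    (∀ n : ℕ, star (v ^ n * w) * (v ^ n * w) = 1) ∧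
      ∀ m n : ℕ, m ≠ n → star (v ^ m * w) * (v ^ n * w) = 0 := by
  have hwv : star w * v = 0 := by
    have := congrArg star hvw
    rwa [star_mul, star_star, star_zero] at this
  have hpow : ∀ n : ℕ, star (v ^ n) * v ^ n = 1 := by
    intro n
    induction n with
    | zero => simp
    | succ n ih =>
      rw [pow_succ', star_mul, mul_assoc, ← mul_assoc (star v), hv, one_mul, ih]
  have hlt : ∀ m n : ℕ, m < n → star (v ^ m * w) * (v ^ n * w) = 0 := by
    intro m n hmn
    obtain ⟨k, rfl⟩ := Nat.exists_eq_add_of_lt hmn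
    have e1 : v ^ (m + k + 1) = v ^ m * (v * v ^ k) := by
      rw [← pow_succ', ← pow_add, add_assoc]
    rw [e1, star_mul, mul_assoc (star w), mul_assoc (v ^ m), ← mul_assoc (star (v ^ m)), hpow,
      one_mul, mul_assoc v, ← mul_assoc (star w), hwv, zero_mul]
  refine ⟨fun n => ?_, fun m n hmn => ?_⟩
  · rw [star_mul, mul_assoc, ← mul_assoc (star (v ^ n)), hpow, one_mul, hw]
  · rcases lt_or_gt_of_ne hmn with h | h
    · exact hlt m n h
    · have := congrArg star (hlt n m h)
      rwa [star_mul, star_star, star_zero] at this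

/-- the spatial isomorphism -/
theorem AP.exists_W (S : AP M N E ξ) : ∃ W : H ≃ₗᵢ[ℂ] L2R H,
    ∀ a ∈ N.commutant, ∀ x, W (a x) = lift a (W x) := by
  obtain ⟨γ, h2, v, hv, w, hw', hv1, hw1, hvw⟩ := S.exists_two
  obtain ⟨h3, h4⟩ := pow_isom hv1 hw1 hvw
  have : Countable hw := hw_countable
  obtain ⟨n, hn⟩ := exists_injective_nat hw
  have hpN : ∀ k : ℕ, v ^ k ∈ N := fun k => pow_mem hv.1 k
  obtain ⟨J, hJ, hJa⟩ := exists_J (N := N) (s := fun i : hw => v ^ n i * w)
    (fun i => mul_mem (hpN _) hw'.1) (fun i => h3 _) (fun i j hij => h4 _ _ (hn.ne hij))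
  have he0 : ⟪e0, e0⟫_ℂ = 1 := by
    rw [inner_self_eq_norm_sq_to_K, e0_norm]; simp
  obtain ⟨W, hW⟩ := csb (iot H e0) J (fun x y => by
    rw [iot_apply, iot_apply, inner_ten, he0, one_mul]) hJ
  refine ⟨W, fun a ha x => ?_⟩
  refine hW a (lift a) ?_ ?_ ?_ ?_ x
  · intro x
    rw [iot_apply, iot_apply, lift_ten]
  · exact hJa a ha
  · intro x
    rw [← lift_star, iot_apply, iot_apply, lift_ten]
  · intro x
    rw [← lift_star]
    exact hJa _ (star_mem ha) x

end Pool.Agent.Helper23
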