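import Pool.Agent.Helper23.Cont

/-!
# Averaging over the unitary group of the centralizer
-/

open scoped InnerProductSpace
open ContinuousLinearMap Filter

namespace Pool.Agent.Helper23

variable {H : Type*} [NormedAddCommGroup H] [InnerProductSpace ℂ H] [CompleteSpace H]
variable {M N : VonNeumannAlgebra H} {ξ : H} {E : (H →L[ℂ] H) → (H →L[ℂ] H)}

/-- unitaries of the centralizer -/
def Ucent (N : VonNeumannAlgebra H) (ξ : H) : Set (H →L[ℂ] H) :=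
  {u | u ∈ eig N ξ 1 ∧ star u * u = 1 ∧ u * star u = 1}

lemma eig_star_one {a : H →L[ℂ] H} (ha : a ∈ eig N ξ 1) : star a ∈ eig N ξ 1 := by
  have := eig_star one_ne_zero ha
  rwa [inv_one] at this

lemma eig_mul_one {a b : H →L[ℂ] H} (ha : a ∈ eig N ξ 1) (hb : b ∈ eig N ξ 1) :
    a * b ∈ eig N ξ 1 := by
  have := eig_mul ha hb
  rwa [mul_one] at this

lemma eig_mul_left {γ : ℝ} {a b : H →L[ℂ] H} (ha : a ∈ eig N ξ 1) (hb : b ∈ eig N ξ γ) :
    a * b ∈ eig N ξ γ := by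
  have := eig_mul ha hb
  rwa [one_mul] at this

lemma eig_mul_right {γ : ℝ} {a b : H →L[ℂ] H} (ha : a ∈ eig N ξ γ) (hb : b ∈ eig N ξ 1) :
    a * b ∈ eig N ξ γ := by
  have := eig_mul ha hb
  rwa [mul_one] at this

lemma one_mem_Ucent : (1 : H →L[ℂ] H) ∈ Ucent N ξ := ⟨one_mem_eig, by simp, by simp⟩

lemma Ucent_mul {u v : H →L[ℂ] H} (hu : u ∈ Ucent N ξ) (hv : v ∈ Ucent N ξ) :
    u * v ∈ Ucent N ξ := by
  refine ⟨eig_mul_one hu.1 hv.1, ?_, ?_⟩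
  · rw [star_mul, mul_assoc, ← mul_assoc (star u), hu.2.1, one_mul, hv.2.1]
  · rw [star_mul, mul_assoc, ← mul_assoc v, hv.2.2, one_mul, hu.2.2]

/-- operators commuting with the unitaries of the centralizer commute with the centralizer. -/
lemma commute_of_Ucent {x : H →L[ℂ] H} (h : ∀ u ∈ Ucent N ξ, u * x = x * u) {a : H →L[ℂ] H}
    (ha : a ∈ eig N ξ 1) : a * x = x * a := by
  obtain ⟨u, k, hk, -⟩ := CStarAlgebra.exists_sum_four_unitary (⟨a, ha⟩ : cent N ξ)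
  have ha' : a = ∑ i, k i • ((u i : cent N ξ) : H →L[ℂ] H) := by
    have := congrArg (fun z : cent N ξ => (z : H →L[ℂ] H)) hk
    simpa using this
  rw [ha', Finset.sum_mul, Finset.mul_sum]
  refine Finset.sum_congr rfl fun i _ => ?_
  rw [smul_mul_assoc, mul_smul_comm, h]
  refine ⟨(u i : cent N ξ).2, ?_, ?_⟩
  · have := Unitary.star_mul_self_of_mem (u i).2
    exact congrArg (fun z : cent N ξ => (z : H →L[ℂ] H)) this
  · have := Unitary.mul_star_self_of_mem (u i).2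
    exact congrArg (fun z : cent N ξ => (z : H →L[ℂ] H)) this

namespace Setting

variable (S : Setting M N E ξ)
include S

/-- limits of bounded sequences in an eigenspace -/
lemma eig_limit {ι : Type*} {l : Filter ι} [l.NeBot] {γ C : ℝ} (hC0 : 0 ≤ C)
    {x : ι → H →L[ℂ] H} (hx : ∀ i, x i ∈ eig N ξ γ) (hC : ∀ i, ‖x i‖ ≤ C) {η : H}
    (h : Tendsto (fun i => x i ξ) l (nhds η)) :
    ∃ y ∈ eig N ξ γ, y ξ = η ∧ ‖y‖ ≤ C ∧ ∀ ζ, Tendsto (fun i => x i ζ) l (nhds (y ζ)) := by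
  obtain ⟨y, hy, hyη, hyC⟩ := exists_limit N S.dense_commN hC0 (fun i => (hx i).1) hC h
  have hlim : ∀ ζ, Tendsto (fun i => x i ζ) l (nhds (y ζ)) := by
    intro ζ
    have h1 : Tendsto (fun i => (x i - y) ζ) l (nhds 0) := by
      refine tendsto_of_bounded N S.dense_commN (x := fun i => x i - y) (C := C + C)
        (fun i => sub_mem (hx i).1 hy)
        (fun i => (norm_sub_le _ _).trans (add_le_add (hC i) hyC)) ?_ ζ
      have h2 : Tendsto (fun i => x i ξ - η) l (nhds (η - η)) := h.sub_const η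
      rw [sub_self] at h2
      refine h2.congr fun i => ?_
      rw [sub_apply, hyη]
    have h2 := h1.add_const (y ζ)
    rw [zero_add] at h2
    refine h2.congr fun i => ?_
    rw [sub_apply, sub_add_cancel]
  refine ⟨y, ⟨hy, fun z hz => ?_⟩, hyη, hyC, hlim⟩
  have h1 : Tendsto (fun i => ⟪ξ, z (x i ξ)⟫_ℂ) l (nhds ⟪ξ, z (y ξ)⟫_ℂ) :=
    tendsto_const_nhds.inner ((z.continuous.tendsto _).comp (hlim ξ))
  have h2 : Tendsto (fun i => (γ : ℂ) * ⟪ξ, x i (z ξ)⟫_ℂ) l (nhds (γ * ⟪ξ, y (z ξ)⟫_ℂ)) :=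
    (tendsto_const_nhds.inner (hlim (z ξ))).const_mul _
  refine tendsto_nhds_unique h1 (h2.congr fun i => ?_)
  exact ((hx i).2 z hz).symm

/-- the conjugation isometry -/
lemma exists_conj {u : H →L[ℂ] H} (hu : u ∈ Ucent N ξ) :
    ∃ T : H →L[ℂ] H, (∀ y ∈ M, T (y ξ) = (star u * y * u) ξ) ∧ ∀ ζ, ‖T ζ‖ = ‖ζ‖ := by
  obtain ⟨u', hu', h⟩ := S.exists_right one_pos hu.1
  refine ⟨star u * u', fun y hy => ?_, fun ζ => ?_⟩
  · change (star u) (u' (y ξ)) = (star u) (y (u ξ))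
    rw [h y hy]
  · have hcl : IsClosed {ζ : H | ‖(star u * u') ζ‖ = ‖ζ‖} :=
      isClosed_eq (by fun_prop) (by fun_prop)
    have hsub : (orb M ξ : Set H) ⊆ {ζ : H | ‖(star u * u') ζ‖ = ‖ζ‖} := by
      rintro _ ⟨y, hy, rfl⟩
      change ‖(star u) (u' (y ξ))‖ = ‖y ξ‖
      rw [norm_of_isom (by rw [star_star]; exact hu.2.2), h y hy,
        S.norm_right_unitary hu.1 hu.2.2 hy]
    exact closure_minimal hsub hcl (S.cyc ζ)

end Setting

/-- an element of minimal norm of a closed convex hull is fixed by the isometries preserving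
the generating set. -/
lemma exists_fixed_min {G : Type*} [NormedAddCommGroup G] [InnerProductSpace ℂ G]
    [CompleteSpace G] (S0 : Set G) (hne : S0.Nonempty) :
    ∃ η ∈ closure (convexHull ℝ S0), ∀ T : G →L[ℂ] G, (∀ w ∈ S0, T w ∈ S0) →
      (∀ w, ‖T w‖ = ‖w‖) → T η = η := by
  let _ : InnerProductSpace ℝ G := InnerProductSpace.rclikeToReal ℂ G
  set K := closure (convexHull ℝ S0) with hK
  have hKconv : Convex ℝ K := (convex_convexHull ℝ S0).closure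
  have hKne : K.Nonempty := by
    obtain ⟨v, hv⟩ := hne
    exact ⟨v, subset_closure (subset_convexHull ℝ S0 hv)⟩
  have hKcomp : IsComplete K := isClosed_closure.isComplete
  obtain ⟨η, hηK, hη⟩ := exists_norm_eq_iInf_of_complete_convex hKne hKcomp hKconv (0 : G)
  have hmin : ∀ w ∈ K, ‖η‖ ≤ ‖w‖ := by
    intro w hw
    have h1 : ‖(0 : G) - η‖ ≤ ‖(0 : G) - w‖ := by
      rw [hη]
      refine ciInf_le_of_le ⟨0, ?_⟩ (⟨w, hw⟩ : K) le_rfl
      rintro _ ⟨v, rfl⟩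
      exact norm_nonneg _
    simpa using h1
  have huniq : ∀ w ∈ K, ‖w‖ = ‖η‖ → w = η := by
    intro w hw hwn
    have hmid : (1 / 2 : ℝ) • w + (1 / 2 : ℝ) • η ∈ K :=
      hKconv hw hηK (by norm_num) (by norm_num) (by norm_num)
    have h1 := hmin _ hmid
    have h2 := parallelogram_law_with_norm ℝ w η
    have h3 : ‖(1 / 2 : ℝ) • w + (1 / 2 : ℝ) • η‖ = (1 / 2) * ‖w + η‖ := by
      rw [← smul_add, norm_smul]
      norm_num
    rw [h3] at h1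
    rw [hwn] at h2
    have h4 : ‖w - η‖ * ‖w - η‖ ≤ 0 := by
      have h5 : 2 * ‖η‖ ≤ ‖w + η‖ := by linarith
      have h6 : (2 * ‖η‖) * (2 * ‖η‖) ≤ ‖w + η‖ * ‖w + η‖ :=
        mul_self_le_mul_self (by positivity) h5
      nlinarith
    have h5 : ‖w - η‖ = 0 := by
      by_contra hne
      have : 0 < ‖w - η‖ := lt_of_le_of_ne (norm_nonneg _) (Ne.symm hne)
      nlinarith
    exact sub_eq_zero.1 (norm_eq_zero.1 h5)
  refine ⟨η, hηK, fun T hTG hTn => ?_⟩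
  have hTK : ∀ w ∈ K, T w ∈ K := by
    have h1 : convexHull ℝ S0 ⊆ T ⁻¹' K := by
      refine convexHull_min (fun w hw => subset_closure (subset_convexHull ℝ S0 (hTG w hw))) ?_
      exact hKconv.linear_preimage (T.restrictScalars ℝ : G →ₗ[ℝ] G)
    exact fun w hw => closure_minimal h1 (isClosed_closure.preimage T.continuous) hw
  exact huniq _ (hTK η hηK) (hTn η)

lemma Ucent_star {u : H →L[ℂ] H} (hu : u ∈ Ucent N ξ) : star u ∈ Ucent N ξ :=
  ⟨eig_star_one hu.1, by rw [star_star]; exact hu.2.2, by rw [star_star]; exact hu.2.1⟩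

lemma Ucent_conj_norm {u : H →L[ℂ] H} (hu : u ∈ Ucent N ξ) (x : H →L[ℂ] H) :
    ‖star u * x * u‖ ≤ ‖x‖ := by
  refine ContinuousLinearMap.opNorm_le_bound _ (norm_nonneg _) fun ζ => ?_
  change ‖(star u) (x (u ζ))‖ ≤ _
  rw [norm_of_isom (by rw [star_star]; exact hu.2.2)]
  refine (x.le_opNorm _).trans ?_
  rw [norm_of_isom hu.2.1]

namespace Setting

variable (S : Setting M N E ξ)
include S

/-- simultaneous averaging of a finite family -/
theorem exists_hull {ι : Type*} [Fintype ι] (x : ι → H →L[ℂ] H) (hx : ∀ i, x i ∈ M) :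
    ∃ y : ι → H →L[ℂ] H, (∀ i, y i ∈ Qalg M N ξ ∧ ‖y i‖ ≤ ‖x i‖ ∧
        ∀ q ∈ Qalg M N ξ, ⟪q ξ, y i ξ⟫_ℂ = ⟪q ξ, x i ξ⟫_ℂ) ∧
      (WithLp.toLp 2 (fun i => y i ξ) : PiLp 2 (fun _ : ι => H)) ∈
        closure (convexHull ℝ {v : PiLp 2 (fun _ : ι => H) | ∃ u ∈ Ucent N ξ,
          v = WithLp.toLp 2 (fun i => (star u * x i * u) ξ)}) := by
  set G0 : Set (PiLp 2 (fun _ : ι => H)) := {v | ∃ u ∈ Ucent N ξ,
    v = WithLp.toLp 2 (fun i => (star u * x i * u) ξ)} with hG0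
  have hG0ne : G0.Nonempty := ⟨_, 1, one_mem_Ucent, rfl⟩
  obtain ⟨η, hηK, hfix⟩ := exists_fixed_min G0 hG0ne
  set K := closure (convexHull ℝ G0) with hK
  have hball : ∀ w ∈ K, ∀ i, ∃ y ∈ M, y ξ = w i ∧ ‖y‖ ≤ ‖x i‖ ∧
      ∀ q ∈ Qalg M N ξ, ⟪q ξ, w i⟫_ℂ = ⟪q ξ, x i ξ⟫_ℂ := by
    set Bl : Set (PiLp 2 (fun _ : ι => H)) := {w | ∀ i, ∃ y ∈ M, y ξ = w i ∧ ‖y‖ ≤ ‖x i‖ ∧
      ∀ q ∈ Qalg M N ξ, ⟪q ξ, w i⟫_ℂ = ⟪q ξ, x i ξ⟫_ℂ} with hBl
    have hBconv : Convex ℝ Bl := by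
      intro w hw w' hw' s t hs ht hst i
      obtain ⟨y, hy, hyw, hyn, hyφ⟩ := hw i
      obtain ⟨y', hy', hyw', hyn', hyφ'⟩ := hw' i
      have e1 : (s • w + t • w') i = (s : ℂ) • w i + (t : ℂ) • w' i := by
        rw [Complex.coe_smul, Complex.coe_smul]; rfl
      refine ⟨(s : ℂ) • y + (t : ℂ) • y', add_mem (smul_mem' _ hy) (smul_mem' _ hy'), ?_, ?_,
        fun q hq => ?_⟩
      · rw [e1, add_apply, smul_apply, smul_apply, hyw, hyw']
      · calc ‖(s : ℂ) • y + (t : ℂ) • y'‖ ≤ ‖(s : ℂ) • y‖ + ‖(t : ℂ) • y'‖ := norm_add_le _ _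
          _ ≤ s * ‖x i‖ + t * ‖x i‖ := by
              rw [norm_smul, norm_smul, Complex.norm_real, Complex.norm_real,
                Real.norm_of_nonneg hs, Real.norm_of_nonneg ht]
              gcongr
          _ = ‖x i‖ := by rw [← add_mul, hst, one_mul]
      · rw [e1, inner_add_right, inner_smul_right, inner_smul_right, hyφ q hq, hyφ' q hq,
          ← add_mul, ← Complex.ofReal_add, hst]
        simp
    have hBcl : IsClosed Bl := by
      rw [← isSeqClosed_iff_isClosed]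
      intro f w hf hfw i
      choose y hy hyf hyn hyφ using fun n => hf n i
      have hproj : Tendsto (fun n => f n i) atTop (nhds (w i)) :=
        ((PiLp.proj (𝕜 := ℂ) 2 (fun _ : ι => H) i).continuous.tendsto w).comp hfw
      have hyf' : Tendsto (fun n => y n ξ) atTop (nhds (w i)) :=
        hproj.congr fun n => (hyf n).symm
      obtain ⟨z, hz, hzw, hzn⟩ := exists_limit M S.dense_comm (norm_nonneg (x i)) hy hyn hyf'
      refine ⟨z, hz, hzw, hzn, fun q hq => ?_⟩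
      have h1 : Tendsto (fun n => ⟪q ξ, f n i⟫_ℂ) atTop (nhds ⟪q ξ, w i⟫_ℂ) :=
        tendsto_const_nhds.inner hproj
      refine tendsto_nhds_unique h1 ?_
      refine tendsto_const_nhds.congr fun n => ?_
      exact (hyφ n q hq).symm
    have hGB : G0 ⊆ Bl := by
      rintro _ ⟨u, hu, rfl⟩ i
      have huM : u ∈ M := S.le u hu.1.1
      refine ⟨star u * x i * u, mul_mem (mul_mem (star_mem huM) (hx i)) huM, rfl,
        Ucent_conj_norm hu (x i), fun q hq => ?_⟩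
      change ⟪q ξ, (star u) (x i (u ξ))⟫_ℂ = _
      obtain ⟨u', hu', h⟩ := S.exists_right one_pos hu.1
      have huξ : u' ξ = u ξ := by
        have := h 1 (one_mem M)
        simpa using this
      have hqM := (mem_Qalg.1 hq).1
      have e1 : u (q ξ) = u' (q ξ) := by
        have := congrArg (fun T : H →L[ℂ] H => T ξ) ((mem_Qalg.1 hq).2 u hu.1)
        change u (q ξ) = q (u ξ) at this
        rw [this, h q hqM]
      have e2 : x i (u ξ) = u' (x i ξ) := (h _ (hx i)).symm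
      have hiso : ∀ ζ, ‖u' ζ‖ = ‖ζ‖ := by
        intro ζ
        have hcl : IsClosed {ζ : H | ‖u' ζ‖ = ‖ζ‖} := isClosed_eq (by fun_prop) (by fun_prop)
        have hsub : (orb M ξ : Set H) ⊆ {ζ : H | ‖u' ζ‖ = ‖ζ‖} := by
          rintro _ ⟨y, hy, rfl⟩
          change ‖u' (y ξ)‖ = ‖y ξ‖
          rw [h y hy, S.norm_right_unitary hu.1 hu.2.2 hy]
        exact closure_minimal hsub hcl (S.cyc ζ)
      rw [inner_star_right, e1, e2]
      let L : H →ₗᵢ[ℂ] H := ⟨u'.toLinearMap, hiso⟩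
      exact L.inner_map_map (q ξ) (x i ξ)
    have hKB : K ⊆ Bl := closure_minimal (convexHull_min hGB hBconv) hBcl
    exact fun w hw => hKB hw
  choose y hy hyη hyn hyq using hball η hηK
  refine ⟨y, fun i => ⟨?_, hyn i, fun q hq => by rw [hyη]; exact hyq i q hq⟩, ?_⟩
  · rw [mem_Qalg]
    refine ⟨hy i, fun a ha => commute_of_Ucent (fun v hv => ?_) ha⟩
    obtain ⟨T, hT, hTn⟩ := S.exists_conj hv
    have h1 := hfix (diag ι T) (by
      rintro _ ⟨u, hu, rfl⟩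
      refine ⟨u * v, Ucent_mul hu hv, ?_⟩
      ext j
      rw [diag_apply]
      have huM : u ∈ M := S.le u hu.1.1
      change T ((star u * x j * u) ξ) = _
      rw [hT _ (mul_mem (mul_mem (star_mem huM) (hx j)) huM)]
      rw [star_mul]
      simp only [mul_assoc]) (by
      intro w
      rw [PiLp.norm_eq_of_L2, PiLp.norm_eq_of_L2]
      congr 1
      refine Finset.sum_congr rfl fun j _ => ?_
      rw [diag_apply, hTn])
    have h2 := congrArg (fun w : PiLp 2 (fun _ : ι => H) => w i) h1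
    change diag ι T η i = η i at h2
    rw [diag_apply, ← hyη i, hT _ (hy i)] at h2
    have hvM : v ∈ M := S.le v hv.1.1
    have h3 : star v * y i * v = y i := eq_of_dense M S.dense_comm
      (mul_mem (mul_mem (star_mem hvM) (hy i)) hvM) (hy i) h2
    calc v * y i = v * (star v * y i * v) := by rw [h3]
      _ = (v * star v) * y i * v := by simp only [mul_assoc]
      _ = y i * v := by rw [hv.2.2, one_mul]
  · have : (WithLp.toLp 2 (fun i => y i ξ) : PiLp 2 (fun _ : ι => H)) = η := by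
      ext i
      exact hyη i
    rw [this]
    exact hηK

end Setting

open Classical in
/-- the conditional expectation onto the relative commutant of the centralizer -/
noncomputable def EQ (M N : VonNeumannAlgebra H) (ξ : H) (x : H →L[ℂ] H) : H →L[ℂ] H :=
  if h : ∃ y ∈ Qalg M N ξ, ‖y‖ ≤ ‖x‖ ∧ ∀ q ∈ Qalg M N ξ, ⟪q ξ, y ξ⟫_ℂ = ⟪q ξ, x ξ⟫_ℂ
  then h.choose else 0

namespace Setting

variable (S : Setting M N E ξ)
include S

lemma EQ_spec {x : H →L[ℂ] H} (hx : x ∈ M) : EQ M N ξ x ∈ Qalg M N ξ ∧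
    ‖EQ M N ξ x‖ ≤ ‖x‖ ∧ ∀ q ∈ Qalg M N ξ, ⟪q ξ, EQ M N ξ x ξ⟫_ℂ = ⟪q ξ, x ξ⟫_ℂ := by
  have h : ∃ y ∈ Qalg M N ξ, ‖y‖ ≤ ‖x‖ ∧ ∀ q ∈ Qalg M N ξ, ⟪q ξ, y ξ⟫_ℂ = ⟪q ξ, x ξ⟫_ℂ := by
    obtain ⟨y, hy, -⟩ := S.exists_hull (ι := Unit) (fun _ => x) (fun _ => hx)
    exact ⟨y (), (hy ()).1, (hy ()).2.1, (hy ()).2.2⟩
  rw [EQ, dif_pos h]
  exact h.choose_spec

lemma EQ_mem {x : H →L[ℂ] H} (hx : x ∈ M) : EQ M N ξ x ∈ Qalg M N ξ := (S.EQ_spec hx).1

lemma EQ_norm {x : H →L[ℂ] H} (hx : x ∈ M) : ‖EQ M N ξ x‖ ≤ ‖x‖ := (S.EQ_spec hx).2.1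

lemma EQ_inner {x q : H →L[ℂ] H} (hx : x ∈ M) (hq : q ∈ Qalg M N ξ) :
    ⟪q ξ, EQ M N ξ x ξ⟫_ℂ = ⟪q ξ, x ξ⟫_ℂ := (S.EQ_spec hx).2.2 q hq

lemma EQ_inner' {x q : H →L[ℂ] H} (hx : x ∈ M) (hq : q ∈ Qalg M N ξ) :
    ⟪EQ M N ξ x ξ, q ξ⟫_ℂ = ⟪x ξ, q ξ⟫_ℂ := by
  rw [← inner_conj_symm, S.EQ_inner hx hq, inner_conj_symm]

lemma EQ_unique {x y : H →L[ℂ] H} (hx : x ∈ M) (hy : y ∈ Qalg M N ξ)
    (h : ∀ q ∈ Qalg M N ξ, ⟪q ξ, y ξ⟫_ℂ = ⟪q ξ, x ξ⟫_ℂ) : EQ M N ξ x = y := by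
  have hd : EQ M N ξ x - y ∈ Qalg M N ξ := sub_mem (S.EQ_mem hx) hy
  have h1 : ⟪(EQ M N ξ x - y) ξ, (EQ M N ξ x - y) ξ⟫_ℂ = 0 := by
    have e1 : (EQ M N ξ x - y) ξ = EQ M N ξ x ξ - y ξ := rfl
    conv_lhs => rw [show ⟪(EQ M N ξ x - y) ξ, (EQ M N ξ x - y) ξ⟫_ℂ =
      ⟪(EQ M N ξ x - y) ξ, EQ M N ξ x ξ - y ξ⟫_ℂ from rfl]
    rw [inner_sub_right, S.EQ_inner hx hd, h _ hd, sub_self]
  exact sub_eq_zero.1 (S.sep _ (mem_Qalg.1 hd).1 (inner_self_eq_zero.1 h1))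

lemma EQ_norm_le {x : H →L[ℂ] H} (hx : x ∈ M) : ‖EQ M N ξ x ξ‖ ≤ ‖x ξ‖ := by
  have h1 := S.EQ_inner hx (S.EQ_mem hx)
  have h2 : ‖EQ M N ξ x ξ‖ ^ 2 ≤ ‖EQ M N ξ x ξ‖ * ‖x ξ‖ := by
    have h3 := congrArg norm h1
    rw [inner_self_eq_norm_sq_to_K] at h3
    have h4 : ‖((‖EQ M N ξ x ξ‖ : ℂ)) ^ 2‖ = ‖EQ M N ξ x ξ‖ ^ 2 := by simp
    calc ‖EQ M N ξ x ξ‖ ^ 2 = ‖⟪EQ M N ξ x ξ, x ξ⟫_ℂ‖ := by rw [← h3]; exact h4.symm
      _ ≤ _ := norm_inner_le_norm _ _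
  by_contra hcon
  push Not at hcon
  nlinarith [norm_nonneg (x ξ), norm_nonneg (EQ M N ξ x ξ)]

lemma EQ_of_mem {x : H →L[ℂ] H} (hx : x ∈ Qalg M N ξ) : EQ M N ξ x = x :=
  S.EQ_unique (mem_Qalg.1 hx).1 hx fun _ _ => rfl

lemma EQ_add {x y : H →L[ℂ] H} (hx : x ∈ M) (hy : y ∈ M) :
    EQ M N ξ (x + y) = EQ M N ξ x + EQ M N ξ y :=
  S.EQ_unique (add_mem hx hy) (add_mem (S.EQ_mem hx) (S.EQ_mem hy)) fun q hq => by
    rw [add_apply, add_apply, inner_add_right, inner_add_right, S.EQ_inner hx hq,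
      S.EQ_inner hy hq]

lemma EQ_smul (c : ℂ) {x : H →L[ℂ] H} (hx : x ∈ M) :
    EQ M N ξ (c • x) = c • EQ M N ξ x :=
  S.EQ_unique (smul_mem' c hx) (smul_mem' c (S.EQ_mem hx)) fun q hq => by
    rw [smul_apply, smul_apply, inner_smul_right, inner_smul_right, S.EQ_inner hx hq]

/-- The averaging inequality. -/
theorem avg_le {ι : Type*} [Fintype ι] {x : ι → H →L[ℂ] H} (hx : ∀ i, x i ∈ M)
    (w w' : ι → H) {c : ℝ}
    (h : ∀ u ∈ Ucent N ξ, c ≤ ∑ i, (⟪w i, (star u * x i * u) (w' i)⟫_ℂ).re) :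
    c ≤ ∑ i, (⟪w i, EQ M N ξ (x i) (w' i)⟫_ℂ).re := by
  classical
  obtain ⟨y, hy, hyK⟩ := S.exists_hull x hx
  have hyE : ∀ i, y i = EQ M N ξ (x i) := fun i =>
    (S.EQ_unique (hx i) (hy i).1 (hy i).2.2).symm
  refine le_of_forall_pos_le_add fun ε hε => ?_
  -- approximate the vectors `w' i`
  set C : ℝ := ∑ i, ‖w i‖ * ‖x i‖ with hC
  have hC0 : 0 ≤ C := Finset.sum_nonneg fun i _ => by positivity
  have happ : ∀ i, ∃ m ∈ M.commutant, ‖w' i - m ξ‖ ≤ ε / (2 * (C + 1)) := by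
    intro i
    obtain ⟨v, hv, hvw⟩ := Metric.dense_iff.1 S.dense_comm (w' i) (ε / (2 * (C + 1)))
      (by positivity)
    obtain ⟨m, hm, rfl⟩ := hvw
    refine ⟨m, hm, ?_⟩
    rw [Metric.mem_ball, dist_eq_norm, norm_sub_rev] at hv
    exact hv.le
  choose m hm hmw using happ
  -- error estimate
  have herr : ∀ z : ι → H →L[ℂ] H, (∀ i, ‖z i‖ ≤ ‖x i‖) →
      |∑ i, (⟪w i, z i (w' i)⟫_ℂ).re - ∑ i, (⟪w i, z i (m i ξ)⟫_ℂ).re| ≤ ε / 2 := by
    intro z hz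
    rw [← Finset.sum_sub_distrib]
    refine (Finset.abs_sum_le_sum_abs _ _).trans ?_
    have h1 : ∀ i ∈ Finset.univ, |(⟪w i, z i (w' i)⟫_ℂ).re - (⟪w i, z i (m i ξ)⟫_ℂ).re| ≤
        (‖w i‖ * ‖x i‖) * (ε / (2 * (C + 1))) := by
      intro i _
      rw [← Complex.sub_re, ← inner_sub_right, ← map_sub]
      refine (Complex.abs_re_le_norm _).trans ((norm_inner_le_norm _ _).trans ?_)
      rw [mul_assoc]
      gcongr
      refine ((z i).le_opNorm _).trans ?_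
      gcongr
      exacts [hz i, hmw i]
    refine (Finset.sum_le_sum h1).trans ?_
    rw [← Finset.sum_mul, ← hC]
    calc C * (ε / (2 * (C + 1))) ≤ (C + 1) * (ε / (2 * (C + 1))) := by gcongr; linarith
      _ = ε / 2 := by field_simp
  -- the functional on the hull
  have hfun : ∀ z : ι → H →L[ℂ] H, (∀ i, z i ∈ M) → ∑ i, (⟪w i, z i (m i ξ)⟫_ℂ).re =
      ∑ i, (⟪(star (m i)) (w i), z i ξ⟫_ℂ).re := by
    intro z hz
    refine Finset.sum_congr rfl fun i _ => ?_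
    rw [commute_apply (hz i) (hm i), inner_star_left]
  set F : Set (PiLp 2 (fun _ : ι => H)) :=
    {v | c - ε / 2 ≤ ∑ i, (⟪(star (m i)) (w i), v i⟫_ℂ).re} with hF
  have hFcl : IsClosed F := by
    refine isClosed_le continuous_const ?_
    refine continuous_finsetSum _ fun i _ => ?_
    refine Complex.continuous_re.comp (Continuous.inner continuous_const ?_)
    exact (PiLp.proj (𝕜 := ℂ) 2 (fun _ : ι => H) i).continuous
  have hFconv : Convex ℝ F := by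
    intro v hv v' hv' s t hs ht hst
    have e1 : ∀ i, (s • v + t • v') i = (s : ℂ) • v i + (t : ℂ) • v' i := by
      intro i
      rw [Complex.coe_smul, Complex.coe_smul]; rfl
    change c - ε / 2 ≤ ∑ i, (⟪(star (m i)) (w i), (s • v + t • v') i⟫_ℂ).re
    have e2 : ∑ i, (⟪(star (m i)) (w i), (s • v + t • v') i⟫_ℂ).re =
        s * ∑ i, (⟪(star (m i)) (w i), v i⟫_ℂ).re +
          t * ∑ i, (⟪(star (m i)) (w i), v' i⟫_ℂ).re := by
      rw [Finset.mul_sum, Finset.mul_sum, ← Finset.sum_add_distrib]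
      refine Finset.sum_congr rfl fun i _ => ?_
      rw [e1, inner_add_right, inner_smul_right, inner_smul_right, Complex.add_re,
        Complex.re_ofReal_mul, Complex.re_ofReal_mul]
    rw [e2]
    calc c - ε / 2 = s * (c - ε / 2) + t * (c - ε / 2) := by rw [← add_mul, hst, one_mul]
      _ ≤ _ := by
        gcongr
        exacts [hv, hv']
  have hFsub : {v : PiLp 2 (fun _ : ι => H) | ∃ u ∈ Ucent N ξ,
          v = WithLp.toLp 2 (fun i => (star u * x i * u) ξ)} ⊆ F := by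
    rintro _ ⟨u, hu, rfl⟩
    have huM : u ∈ M := S.le u hu.1.1
    change c - ε / 2 ≤ ∑ i, (⟪(star (m i)) (w i), (star u * x i * u) ξ⟫_ℂ).re
    rw [← hfun (fun i => star u * x i * u)
      (fun i => mul_mem (mul_mem (star_mem huM) (hx i)) huM)]
    have h1 := herr (fun i => star u * x i * u) (fun i => Ucent_conj_norm hu (x i))
    have h2 := h u hu
    have h3 := (abs_le.1 h1).2
    linarith
  have h1 : c - ε / 2 ≤ ∑ i, (⟪(star (m i)) (w i), y i ξ⟫_ℂ).re :=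
    closure_minimal (convexHull_min hFsub hFconv) hFcl hyK
  rw [← hfun y (fun i => (mem_Qalg.1 (hy i).1).1)] at h1
  have h2 := (abs_le.1 (herr y (fun i => (hy i).2.1))).1
  simp only [hyE] at h1 h2
  linarith

end Setting

namespace AP

variable (S : AP M N E ξ)
include S

/-- the inner product of an element of `Q` and an element of `N` -/
lemma inner_Q_N {q x : H →L[ℂ] H} (hq : q ∈ Qalg M N ξ) (hx : x ∈ N) :
    ⟪q ξ, x ξ⟫_ℂ = ⟪q ξ, ξ⟫_ℂ * ⟪ξ, x ξ⟫_ℂ := by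
  have h1 := S.inner_Q S.irr hq hx (one_mem N)
  rw [one_apply_eq_self] at h1
  rw [← inner_conj_symm, h1, map_mul, inner_conj_symm, inner_conj_symm]

lemma EQ_N {x : H →L[ℂ] H} (hx : x ∈ N) : EQ M N ξ x = ⟪ξ, x ξ⟫_ℂ • (1 : H →L[ℂ] H) := by
  refine S.EQ_unique (S.le x hx) (smul_mem' _ (one_mem _)) fun q hq => ?_
  rw [S.inner_Q_N hq hx, smul_apply, one_apply_eq_self, inner_smul_right, mul_comm]

/-- averaging inequality for elements of `N` -/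
theorem avgN_le {ι : Type*} [Fintype ι] {x : ι → H →L[ℂ] H} (hx : ∀ i, x i ∈ N)
    (w w' : ι → H) {c : ℝ}
    (h : ∀ u ∈ Ucent N ξ, c ≤ ∑ i, (⟪w i, (star u * x i * u) (w' i)⟫_ℂ).re) :
    c ≤ ∑ i, (⟪ξ, x i ξ⟫_ℂ * ⟪w i, w' i⟫_ℂ).re := by
  have h1 := S.avg_le (fun i => S.le _ (hx i)) w w' h
  refine h1.trans_eq (Finset.sum_congr rfl fun i _ => ?_)
  rw [S.EQ_N (hx i), smul_apply, one_apply_eq_self, inner_smul_right]

/-- The vector `φ(x) ξ` lies in the closed convex hull of the conjugates of `x`. -/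
theorem mem_hull {x : H →L[ℂ] H} (hx : x ∈ N) :
    ⟪ξ, x ξ⟫_ℂ • ξ ∈ closure (convexHull ℝ {v : H | ∃ u ∈ Ucent N ξ, v = (star u * x * u) ξ}) := by
  obtain ⟨y, hy, hyK⟩ := S.exists_hull (ι := Unit) (fun _ => x) (fun _ => S.le x hx)
  have hyE : y () = ⟪ξ, x ξ⟫_ℂ • (1 : H →L[ℂ] H) := by
    rw [← S.EQ_N hx, S.EQ_unique (S.le x hx) (hy ()).1 (hy ()).2.2]
  let L : PiLp 2 (fun _ : Unit => H) →L[ℂ] H := PiLp.proj 2 (fun _ : Unit => H) ()
  have h1 : L (WithLp.toLp 2 (fun i => y i ξ)) ∈ closure (L '' (convexHull ℝ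
      {v : PiLp 2 (fun _ : Unit => H) | ∃ u ∈ Ucent N ξ,
          v = WithLp.toLp 2 (fun _ => (star u * x * u) ξ)})) :=
    mem_closure_image L.continuous.continuousAt hyK
  have h2 : L (WithLp.toLp 2 (fun i => y i ξ)) = ⟪ξ, x ξ⟫_ℂ • ξ := by
    change y () ξ = _
    rw [hyE]; rfl
  rw [h2] at h1
  refine closure_mono ?_ h1
  have h3 := (L.restrictScalars ℝ : PiLp 2 (fun _ : Unit => H) →ₗ[ℝ] H).isLinear.image_convexHull
    {v : PiLp 2 (fun _ : Unit => H) | ∃ u ∈ Ucent N ξ,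
          v = WithLp.toLp 2 (fun _ => (star u * x * u) ξ)}
  change (L '' _) ⊆ _
  have h4 : (L '' (convexHull ℝ {v : PiLp 2 (fun _ : Unit => H) | ∃ u ∈ Ucent N ξ,
          v = WithLp.toLp 2 (fun _ => (star u * x * u) ξ)})) =
      convexHull ℝ (L '' {v : PiLp 2 (fun _ : Unit => H) | ∃ u ∈ Ucent N ξ,
          v = WithLp.toLp 2 (fun _ => (star u * x * u) ξ)}) := h3
  rw [h4]
  refine convexHull_mono ?_
  rintro _ ⟨_, ⟨u, hu, rfl⟩, rfl⟩
  exact ⟨u, hu, rfl⟩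

/-- functional version -/
theorem exists_avg {x : H →L[ℂ] H} (hx : x ∈ N) (w : H) {c : ℝ}
    (hc : c < (⟪w, ⟪ξ, x ξ⟫_ℂ • ξ⟫_ℂ).re) :
    ∃ u ∈ Ucent N ξ, c < (⟪w, (star u * x * u) ξ⟫_ℂ).re := by
  by_contra hcon
  push Not at hcon
  have h1 := S.avgN_le (ι := Unit) (x := fun _ => x) (fun _ => hx) (fun _ => -w) (fun _ => ξ)
    (c := -c) (fun u hu => by
      have := hcon u hu
      simp only [Finset.univ_unique, Finset.sum_singleton, inner_neg_left, Complex.neg_re]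
      linarith)
  simp only [Finset.univ_unique, Finset.sum_singleton, inner_neg_left, mul_neg,
    Complex.neg_re] at h1
  rw [inner_smul_right] at hc
  linarith

/-- functional version at a general vector -/
theorem exists_avg' {x : H →L[ℂ] H} (hx : x ∈ N) (w w' : H) {c : ℝ}
    (hc : c < (⟪ξ, x ξ⟫_ℂ * ⟪w, w'⟫_ℂ).re) :
    ∃ u ∈ Ucent N ξ, c < (⟪w, (star u * x * u) w'⟫_ℂ).re := by
  by_contra hcon
  push Not at hcon
  have h1 := S.avgN_le (ι := Unit) (x := fun _ => x) (fun _ => hx) (fun _ => -w) (fun _ => w')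
    (c := -c) (fun u hu => by
      have := hcon u hu
      simp only [Finset.univ_unique, Finset.sum_singleton, inner_neg_left, Complex.neg_re]
      linarith)
  simp only [Finset.univ_unique, Finset.sum_singleton, inner_neg_left, mul_neg,
    Complex.neg_re] at h1
  linarith

/-- elements of `Q` and of `N` are independent -/
lemma inner_NQ {y z c : H →L[ℂ] H} (hy : y ∈ Qalg M N ξ)
    (hz : z ∈ Qalg M N ξ) (hc : c ∈ N) :
    ⟪y ξ, c (z ξ)⟫_ℂ = ⟪y ξ, z ξ⟫_ℂ * ⟪ξ, c ξ⟫_ℂ := by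
  -- invariance
  have hinv : ∀ u ∈ Ucent N ξ, ⟪y ξ, (star u * c * u) (z ξ)⟫_ℂ = ⟪y ξ, c (z ξ)⟫_ℂ := by
    intro u hu
    obtain ⟨u', hu', h⟩ := S.exists_right one_pos hu.1
    have hQ : ∀ q ∈ Qalg M N ξ, u (q ξ) = u' (q ξ) := by
      intro q hq
      have := congrArg (fun T : H →L[ℂ] H => T ξ) ((mem_Qalg.1 hq).2 u hu.1)
      change u (q ξ) = q (u ξ) at this
      rw [this, h q (mem_Qalg.1 hq).1]
    have hiso : ∀ ζ, ‖u' ζ‖ = ‖ζ‖ := by
      intro ζ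
      have hcl : IsClosed {ζ : H | ‖u' ζ‖ = ‖ζ‖} := isClosed_eq (by fun_prop) (by fun_prop)
      have hsub : (orb M ξ : Set H) ⊆ {ζ : H | ‖u' ζ‖ = ‖ζ‖} := by
        rintro _ ⟨y, hy, rfl⟩
        change ‖u' (y ξ)‖ = ‖y ξ‖
        rw [h y hy, S.norm_right_unitary hu.1 hu.2.2 hy]
      exact closure_minimal hsub hcl (S.cyc ζ)
    change ⟪y ξ, (star u) (c (u (z ξ)))⟫_ℂ = _
    rw [inner_star_right, hQ y hy, hQ z hz, commute_apply (S.le c hc) hu']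
    let L : H →ₗᵢ[ℂ] H := ⟨u'.toLinearMap, hiso⟩
    exact L.inner_map_map _ _
  -- both inequalities for the real part, for all multiples
  have hre : ∀ k : ℂ, (k * ⟪y ξ, c (z ξ)⟫_ℂ).re ≤ (k * (⟪ξ, c ξ⟫_ℂ * ⟪y ξ, z ξ⟫_ℂ)).re := by
    intro k
    have h1 := S.avgN_le (ι := Unit) (x := fun _ => c) (fun _ => hc) (fun _ => y ξ)
      (fun _ => k • z ξ) (c := (k * ⟪y ξ, c (z ξ)⟫_ℂ).re) (fun u hu => by
        simp only [Finset.univ_unique, Finset.sum_singleton, map_smul, inner_smul_right]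
        rw [hinv u hu])
    simp only [Finset.univ_unique, Finset.sum_singleton, inner_smul_right] at h1
    refine h1.trans_eq ?_
    congr 1
    ring
  have h1 := hre 1
  have h2 := hre (-1)
  have h3 := hre Complex.I
  have h4 := hre (-Complex.I)
  simp only [one_mul, neg_mul, Complex.neg_re, Complex.I_mul_re] at h1 h2 h3 h4
  apply Complex.ext
  · rw [mul_comm ⟪y ξ, z ξ⟫_ℂ]; linarith
  · rw [mul_comm ⟪y ξ, z ξ⟫_ℂ]; linarith

lemma inner_NNQ {y z a b : H →L[ℂ] H} (hy : y ∈ Qalg M N ξ)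
    (hz : z ∈ Qalg M N ξ) (ha : a ∈ N) (hb : b ∈ N) :
    ⟪a (y ξ), b (z ξ)⟫_ℂ = ⟪y ξ, z ξ⟫_ℂ * ⟪a ξ, b ξ⟫_ℂ := by
  have h := S.inner_NQ hy hz (mul_mem (star_mem ha) hb)
  change ⟪y ξ, (star a) (b (z ξ))⟫_ℂ = ⟪y ξ, z ξ⟫_ℂ * ⟪ξ, (star a) (b ξ)⟫_ℂ at h
  rwa [inner_star_right, inner_star_right] at h

lemma norm_NQ {z a : H →L[ℂ] H} (hz : z ∈ Qalg M N ξ) (ha : a ∈ N) :
    ‖a (z ξ)‖ = ‖z ξ‖ * ‖a ξ‖ := by
  have h := S.inner_NNQ hz hz ha ha
  rw [inner_self_eq_norm_sq_to_K, inner_self_eq_norm_sq_to_K, inner_self_eq_norm_sq_to_K] at h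
  have h2 : ‖a (z ξ)‖ ^ 2 = (‖z ξ‖ * ‖a ξ‖) ^ 2 := by
    rw [mul_pow]
    exact_mod_cast h
  exact (pow_left_inj₀ (norm_nonneg _) (by positivity) two_ne_zero).1 h2

end AP

end Pool.Agent.Helper23
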