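import Pool.Agent.Helper23.Avg

/-!
# Mixed averaging over the unitary group of the centralizer
-/

open scoped InnerProductSpace
open ContinuousLinearMap Filter

namespace Pool.Agent.Helper23

variable {H : Type*} [NormedAddCommGroup H] [InnerProductSpace ℂ H] [CompleteSpace H]
variable {M N : VonNeumannAlgebra H} {ξ : H} {E : (H →L[ℂ] H) → (H →L[ℂ] H)}

namespace AP

variable (S : AP M N E ξ)
include S

/-- explicit convex combinations approximating the state -/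
lemma exists_comb {ι : Type*} [Fintype ι] {x : ι → H →L[ℂ] H} (hx : ∀ i, x i ∈ N) {δ : ℝ}
    (hδ : 0 < δ) : ∃ (J : Type) (t : Finset J) (r : J → ℝ) (u : J → H →L[ℂ] H),
      (∀ j ∈ t, 0 ≤ r j) ∧ ∑ j ∈ t, r j = 1 ∧ (∀ j ∈ t, u j ∈ Ucent N ξ) ∧
      ∀ i, ‖(∑ j ∈ t, (r j : ℂ) • (star (u j) * x i * u j)) ξ - ⟪ξ, x i ξ⟫_ℂ • ξ‖ ≤ δ := by
  obtain ⟨y, hy, hyK⟩ := S.exists_hull x (fun i => S.le _ (hx i))
  have hyE : ∀ i, y i = ⟪ξ, x i ξ⟫_ℂ • (1 : H →L[ℂ] H) := by
    intro i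
    rw [← S.EQ_N (hx i), S.EQ_unique (S.le _ (hx i)) (hy i).1 (hy i).2.2]
  obtain ⟨v, hv, hvd⟩ := Metric.mem_closure_iff.1 hyK δ hδ
  rw [convexHull_eq] at hv
  obtain ⟨J, t, r, z, hr, hr1, hz, hzv⟩ := hv
  choose! u hu huz using hz
  refine ⟨J, t, r, u, hr, hr1, hu, fun i => ?_⟩
  have h1 : (∑ j ∈ t, (r j : ℂ) • (star (u j) * x i * u j)) ξ = v i := by
    rw [← hzv, Finset.centerMass_eq_of_sum_1 _ _ hr1]
    have h2 : (∑ j ∈ t, r j • z j) i = ∑ j ∈ t, (r j • z j) i := by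
      have := map_sum (PiLp.proj (𝕜 := ℂ) 2 (fun _ : ι => H) i) (fun j => r j • z j) t
      exact this
    rw [h2, sum_apply]
    refine Finset.sum_congr rfl fun j hj => ?_
    rw [huz j hj, smul_apply, Complex.coe_smul]
    rfl
  rw [h1, norm_sub_rev]
  have h3 : ⟪ξ, x i ξ⟫_ℂ • ξ - v i = (WithLp.toLp 2 (fun i => y i ξ) - v) i := by
    change _ = y i ξ - v i
    rw [hyE]; rfl
  rw [h3]
  refine (PiLp.norm_apply_le _ i).trans ?_
  rw [dist_eq_norm] at hvd
  exact hvd.le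

/-- The averaging inequality for both actions of the unitaries of the centralizer. -/
theorem avg_mix {ι κ : Type*} [Fintype ι] [Fintype κ] {x : ι → H →L[ℂ] H} (hx : ∀ i, x i ∈ N)
    (w w' : ι → H) {y : κ → H →L[ℂ] H} (hy : ∀ k, y k ∈ N) (z z' : κ → H) {c : ℝ}
    (h : ∀ u ∈ Ucent N ξ, c ≤ ∑ i, (⟪w i, (star u * x i * u) (w' i)⟫_ℂ).re +
      ∑ k, (⟪z k, (u * y k * star u) (z' k)⟫_ℂ).re) :
    c ≤ ∑ i, (⟪ξ, x i ξ⟫_ℂ * ⟪w i, w' i⟫_ℂ).re + ∑ k, (⟪ξ, y k ξ⟫_ℂ * ⟪z k, z' k⟫_ℂ).re := by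
  classical
  refine le_of_forall_pos_le_add fun ε hε => ?_
  set C : ℝ := ∑ i, 2 * (‖w i‖ * ‖x i‖) with hC
  have hC0 : 0 ≤ C := Finset.sum_nonneg fun i _ => by positivity
  have happ : ∀ i, ∃ m ∈ M.commutant, ‖w' i - m ξ‖ ≤ ε / (2 * (C + 1)) := by
    intro i
    obtain ⟨v, hv, hvw⟩ := Metric.dense_iff.1 S.dense_comm (w' i) (ε / (2 * (C + 1)))
      (by positivity)
    obtain ⟨m, hm, rfl⟩ := hvw
    refine ⟨m, hm, ?_⟩
    rw [Metric.mem_ball, dist_eq_norm, norm_sub_rev] at hv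
    exact hv.le
  choose m hm hmw using happ
  set D : ℝ := ∑ i, ‖w i‖ * ‖m i‖ with hD
  have hD0 : 0 ≤ D := Finset.sum_nonneg fun i _ => by positivity
  obtain ⟨J, t, r, u, hr, hr1, hu, hux⟩ := S.exists_comb hx (δ := ε / (2 * (D + 1)))
    (by positivity)
  set X : ι → H →L[ℂ] H := fun i => ∑ j ∈ t, (r j : ℂ) • (star (u j) * x i * u j) with hX
  have hXN : ∀ i, X i ∈ N := fun i => sum_mem fun j hj =>
    smul_mem' _ (mul_mem (mul_mem (star_mem (hu j hj).1.1) (hx i)) (hu j hj).1.1)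
  have hXn : ∀ i, ‖X i‖ ≤ ‖x i‖ := by
    intro i
    calc ‖X i‖ ≤ ∑ j ∈ t, ‖(r j : ℂ) • (star (u j) * x i * u j)‖ := norm_sum_le _ _
      _ ≤ ∑ j ∈ t, r j * ‖x i‖ := by
          refine Finset.sum_le_sum fun j hj => ?_
          rw [norm_smul, Complex.norm_real, Real.norm_of_nonneg (hr j hj)]
          exact mul_le_mul_of_nonneg_left (Ucent_conj_norm (hu j hj) _) (hr j hj)
      _ = ‖x i‖ := by rw [← Finset.sum_mul, hr1, one_mul]
  -- the first sum is controlled for all `s`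
  have hfirst : ∀ s ∈ Ucent N ξ, ∑ i, (⟪w i, (star s * X i * s) (w' i)⟫_ℂ).re ≤
      ∑ i, (⟪ξ, x i ξ⟫_ℂ * ⟪w i, w' i⟫_ℂ).re + ε := by
    intro s hs
    have hterm : ∀ i ∈ Finset.univ, (⟪w i, (star s * X i * s) (w' i)⟫_ℂ).re ≤
        (⟪ξ, x i ξ⟫_ℂ * ⟪w i, w' i⟫_ℂ).re + (2 * (‖w i‖ * ‖x i‖) * (ε / (2 * (C + 1))) +
          ‖w i‖ * ‖m i‖ * (ε / (2 * (D + 1)))) := by
      intro i _
      set Z : H →L[ℂ] H := star s * X i * s - ⟪ξ, x i ξ⟫_ℂ • (1 : H →L[ℂ] H) with hZ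
      have e1 : ⟪w i, (star s * X i * s) (w' i)⟫_ℂ = ⟪ξ, x i ξ⟫_ℂ * ⟪w i, w' i⟫_ℂ +
          (⟪w i, Z (w' i - m i ξ)⟫_ℂ + ⟪w i, Z (m i ξ)⟫_ℂ) := by
        rw [← inner_add_right, ← map_add, sub_add_cancel, hZ, sub_apply, inner_sub_right,
          smul_apply, one_apply_eq_self, inner_smul_right]
        ring
      rw [e1, Complex.add_re]
      gcongr
      refine (Complex.re_le_norm _).trans ((norm_add_le _ _).trans ?_)
      have hZN : Z ∈ N := sub_mem (mul_mem (mul_mem (star_mem hs.1.1) (hXN i)) hs.1.1)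
        (smul_mem' _ (one_mem N))
      have hφ : ‖⟪ξ, x i ξ⟫_ℂ‖ ≤ ‖x i‖ := by
        refine (norm_inner_le_norm _ _).trans ?_
        have := (x i).le_opNorm ξ
        rw [S.norm_one, mul_one] at this
        rw [S.norm_one, one_mul]
        exact this
      have hZn : ‖Z‖ ≤ 2 * ‖x i‖ := by
        refine (norm_sub_le _ _).trans ?_
        have h1 := (Ucent_conj_norm hs (X i)).trans (hXn i)
        have h2 : ‖⟪ξ, x i ξ⟫_ℂ • (1 : H →L[ℂ] H)‖ ≤ ‖x i‖ := by
          refine (norm_smul_le _ _).trans ?_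
          have h3 : ‖(1 : H →L[ℂ] H)‖ ≤ 1 := norm_id_le
          calc _ ≤ ‖x i‖ * 1 := by gcongr
            _ = ‖x i‖ := mul_one _
        linarith
      have hZξ : ‖Z ξ‖ ≤ ε / (2 * (D + 1)) := by
        have e2 : Z = star s * (X i - ⟪ξ, x i ξ⟫_ℂ • (1 : H →L[ℂ] H)) * s := by
          rw [hZ, mul_sub, sub_mul, mul_smul_comm, mul_one, smul_mul_assoc, hs.2.1]
        rw [e2]
        change ‖(star s) ((X i - ⟪ξ, x i ξ⟫_ℂ • (1 : H →L[ℂ] H)) (s ξ))‖ ≤ _
        rw [norm_of_isom (by rw [star_star]; exact hs.2.2),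
          S.norm_right_unitary hs.1 hs.2.2 (S.le _ (sub_mem (hXN i) (smul_mem' _ (one_mem N))))]
        exact hux i
      refine add_le_add ?_ ?_
      · refine (norm_inner_le_norm _ _).trans ?_
        calc ‖w i‖ * ‖Z (w' i - m i ξ)‖ ≤ ‖w i‖ * ((2 * ‖x i‖) * (ε / (2 * (C + 1)))) := by
              gcongr
              exact (Z.le_opNorm _).trans (mul_le_mul hZn (hmw i) (norm_nonneg _) (by positivity))
          _ = _ := by ring
      · refine (norm_inner_le_norm _ _).trans ?_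
        rw [commute_apply (S.le _ hZN) (hm i), mul_assoc]
        gcongr
        refine ((m i).le_opNorm _).trans ?_
        gcongr
    refine (Finset.sum_le_sum hterm).trans ?_
    rw [Finset.sum_add_distrib, Finset.sum_add_distrib, ← Finset.sum_mul, ← Finset.sum_mul,
      ← hC, ← hD]
    have h1 : C * (ε / (2 * (C + 1))) ≤ ε / 2 := by
      calc C * (ε / (2 * (C + 1))) ≤ (C + 1) * (ε / (2 * (C + 1))) := by gcongr; linarith
        _ = ε / 2 := by field_simp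
    have h2 : D * (ε / (2 * (D + 1))) ≤ ε / 2 := by
      calc D * (ε / (2 * (D + 1))) ≤ (D + 1) * (ε / (2 * (D + 1))) := by gcongr; linarith
        _ = ε / 2 := by field_simp
    linarith
  -- averaging of the second sum
  set A : ℝ := ∑ i, (⟪ξ, x i ξ⟫_ℂ * ⟪w i, w' i⟫_ℂ).re with hA
  have hsec := S.avgN_le (ι := t × κ) (x := fun p => y p.2) (fun p => hy p.2)
    (fun p => (r p.1 : ℂ) • (star (u p.1)) (z p.2)) (fun p => (star (u p.1)) (z' p.2))
    (c := c - A - ε) (by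
      intro s hs
      have hs' := Ucent_star hs
      have h1 := hfirst (star s) hs'
      have h2 : ∀ j ∈ t, r j * c ≤ r j * (∑ i, (⟪w i, (star (u j * star s) * x i *
          (u j * star s)) (w' i)⟫_ℂ).re +
          ∑ k, (⟪z k, ((u j * star s) * y k * star (u j * star s)) (z' k)⟫_ℂ).re) :=
        fun j hj => mul_le_mul_of_nonneg_left (h _ (Ucent_mul (hu j hj) hs')) (hr j hj)
      have h3 := Finset.sum_le_sum h2
      rw [← Finset.sum_mul, hr1, one_mul] at h3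
      simp only [mul_add] at h3
      rw [Finset.sum_add_distrib] at h3
      have h4 : ∑ j ∈ t, r j * ∑ i, (⟪w i, (star (u j * star s) * x i *
          (u j * star s)) (w' i)⟫_ℂ).re =
          ∑ i, (⟪w i, (star (star s) * X i * star s) (w' i)⟫_ℂ).re := by
        simp only [Finset.mul_sum]
        rw [Finset.sum_comm]
        refine Finset.sum_congr rfl fun i _ => ?_
        have e1 : star (star s) * X i * star s =
            ∑ j ∈ t, (r j : ℂ) • (star (u j * star s) * x i * (u j * star s)) := by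
          rw [hX]
          simp only [Finset.mul_sum, Finset.sum_mul]
          refine Finset.sum_congr rfl fun j _ => ?_
          rw [mul_smul_comm, smul_mul_assoc, star_mul, star_star]
          simp only [mul_assoc]
        rw [e1, sum_apply, inner_sum, Complex.re_sum]
        refine Finset.sum_congr rfl fun j _ => ?_
        rw [smul_apply, inner_smul_right, Complex.re_ofReal_mul]
      have h5 : ∑ j ∈ t, r j * ∑ k, (⟪z k, ((u j * star s) * y k *
          star (u j * star s)) (z' k)⟫_ℂ).re = ∑ p : t × κ,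
          (⟪((r p.1 : ℂ) • (star (u p.1)) (z p.2)), (star s * y p.2 * s)
            ((star (u p.1)) (z' p.2))⟫_ℂ).re := by
        rw [Fintype.sum_prod_type, ← Finset.sum_coe_sort t]
        refine Finset.sum_congr rfl fun j _ => ?_
        rw [Finset.mul_sum]
        refine Finset.sum_congr rfl fun k _ => ?_
        rw [inner_smul_left, Complex.conj_ofReal, Complex.re_ofReal_mul, inner_star_left,
          star_mul, star_star]
        rfl
      rw [h4, h5] at h3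
      linarith)
  have h6 : ∑ p : t × κ, (⟪ξ, y p.2 ξ⟫_ℂ * ⟪((r p.1 : ℂ) • (star (u p.1)) (z p.2)),
      (star (u p.1)) (z' p.2)⟫_ℂ).re = ∑ k, (⟪ξ, y k ξ⟫_ℂ * ⟪z k, z' k⟫_ℂ).re := by
    rw [Fintype.sum_prod_type, Finset.sum_coe_sort t (fun j => ∑ k, (⟪ξ, y k ξ⟫_ℂ *
      ⟪((r j : ℂ) • (star (u j)) (z k)), (star (u j)) (z' k)⟫_ℂ).re)]
    have e1 : ∀ j ∈ t, ∑ k, (⟪ξ, y k ξ⟫_ℂ *
        ⟪((r j : ℂ) • (star (u j)) (z k)), (star (u j)) (z' k)⟫_ℂ).re =
        r j * ∑ k, (⟪ξ, y k ξ⟫_ℂ * ⟪z k, z' k⟫_ℂ).re := by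
      intro j hj
      rw [Finset.mul_sum]
      refine Finset.sum_congr rfl fun k _ => ?_
      rw [inner_smul_left, Complex.conj_ofReal, inner_star_left]
      have e2 : u j ((star (u j)) (z' k)) = z' k :=
        congrArg (fun T : H →L[ℂ] H => T (z' k)) (hu j hj).2.2
      rw [e2, mul_left_comm, Complex.re_ofReal_mul]
    rw [Finset.sum_congr rfl e1, ← Finset.sum_mul, hr1, one_mul]
  rw [h6] at hsec
  linarith

end AP

end Pool.Agent.Helper23
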