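import Pool.Agent.Helper23.Conc

/-!
# Commutator estimates
-/

open scoped InnerProductSpace
open ContinuousLinearMap Filter

namespace Pool.Agent.Helper23

variable {H : Type*} [NormedAddCommGroup H] [InnerProductSpace ℂ H] [CompleteSpace H]
variable {M N : VonNeumannAlgebra H} {ξ : H} {E : (H →L[ℂ] H) → (H →L[ℂ] H)}

/-- The setting with a state whose centralizer has trivial relative commutant, and with
dense eigenvalues. -/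
structure AP (M N : VonNeumannAlgebra H) (E : (H →L[ℂ] H) → (H →L[ℂ] H)) (ξ : H) : Prop
    extends Setting M N E ξ where
  irr : TrivialRelComm N ξ
  dns : ∀ a b : ℝ, 0 < a → a < b → ∃ γ ∈ Gam N ξ, a < γ ∧ γ < b

open Classical in
/-- the transported element -/
noncomputable def al (M N : VonNeumannAlgebra H) (ξ : H) (γ : ℝ) (x : H →L[ℂ] H) : H →L[ℂ] H :=
  if h : γ ∈ Gam N ξ ∧ ∃ z ∈ Qalg M N ξ, Rel N ξ γ x z then h.2.choose else 0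

/-- the vector `a ξ ↦ a (x ξ)` extended to the closure of `N ξ`. -/
lemma exists_lam (D : ℝ) (hD : 0 ≤ D) (ζ : H) (h : ∀ a ∈ N, ‖a ζ‖ ≤ D * ‖a ξ‖) :
    ∃ L : K0 N ξ →L[ℂ] H, (∀ a (ha : a ∈ N), L ⟨a ξ, mem_K0 ha⟩ = a ζ) ∧ ‖L‖ ≤ D := by
  let e : N.toStarSubalgebra →ₗ[ℂ] K0 N ξ :=
    { toFun := fun a => ⟨(a : H →L[ℂ] H) ξ, mem_K0 a.2⟩
      map_add' := fun _ _ => rfl
      map_smul' := fun _ _ => rfl }
  have hd : DenseRange e := by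
    intro x
    rw [Metric.mem_closure_iff]
    intro ε hε
    have hx : (x : H) ∈ closure ((orb N ξ : Submodule ℂ H) : Set H) := x.2
    obtain ⟨_, ⟨a, ha, rfl⟩, hdist⟩ := Metric.mem_closure_iff.1 hx ε hε
    exact ⟨e ⟨a, ha⟩, ⟨_, rfl⟩, hdist⟩
  obtain ⟨L, hL, hL1⟩ := exists_ext' (evL N ζ) e hd hD (fun t => h t t.2)
  exact ⟨L, fun a ha => hL ⟨a, ha⟩, hL1⟩

lemma K0_ind' {p : K0 N ξ → Prop} (hcl : IsClosed {x | p x})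
    (h : ∀ a (ha : a ∈ N), p ⟨a ξ, mem_K0 ha⟩) (x : K0 N ξ) : p x := by
  have hcl2 : IsClosed {y : H | ∃ hy : y ∈ K0 N ξ, p ⟨y, hy⟩} := by
    have : {y : H | ∃ hy : y ∈ K0 N ξ, p ⟨y, hy⟩} = Subtype.val '' {x : K0 N ξ | p x} := by
      ext y
      constructor
      · rintro ⟨hy, hp⟩
        exact ⟨⟨y, hy⟩, hp, rfl⟩
      · rintro ⟨⟨y, hy⟩, hp, rfl⟩
        exact ⟨hy, hp⟩
    rw [this]
    exact (K0_isClosed (N := N) (ξ := ξ)).isClosedEmbedding_subtypeVal.isClosedMap _ hcl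
  obtain ⟨_, hp⟩ := K0_induction (p := fun y => ∃ hy : y ∈ K0 N ξ, p ⟨y, hy⟩) hcl2
    (fun a ha => ⟨mem_K0 ha, h a ha⟩) x.2
  exact hp

lemma eig_zero_of_not_Gam {γ : ℝ} (hγ : 0 < γ) (h : γ ∉ Gam N ξ) {a : H →L[ℂ] H}
    (ha : a ∈ eig N ξ γ) : a = 0 := by
  by_contra h0
  exact h ⟨hγ, a, ha, h0⟩

lemma Hg_zero_of_not_Gam {γ : ℝ} (hγ : 0 < γ) (h : γ ∉ Gam N ξ) {x : H}
    (hx : x ∈ Hg N ξ γ) : x = 0 := by
  refine Hg_induction (p := fun x => x = 0) (isClosed_eq continuous_id continuous_const) ?_ hx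
  intro a ha
  rw [eig_zero_of_not_Gam hγ h ha]
  rfl

namespace AP

variable (S : AP M N E ξ)
include S

lemma al_spec {γ : ℝ} (hγ : γ ∈ Gam N ξ) {x : H →L[ℂ] H} (hx : x ∈ Qalg M N ξ) :
    al M N ξ γ x ∈ Qalg M N ξ ∧ Rel N ξ γ x (al M N ξ γ x) := by
  obtain ⟨z, hz, hz', -⟩ := exists_rel S.irr hγ.1.ne' hγ.2 S.le hx
  have h : γ ∈ Gam N ξ ∧ ∃ z ∈ Qalg M N ξ, Rel N ξ γ x z := ⟨hγ, z, hz, hz'⟩
  rw [al, dif_pos h]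
  exact h.2.choose_spec

lemma al_mem {γ : ℝ} (hγ : γ ∈ Gam N ξ) {x : H →L[ℂ] H} (hx : x ∈ Qalg M N ξ) :
    al M N ξ γ x ∈ Qalg M N ξ := (S.al_spec hγ hx).1

lemma al_rel {γ : ℝ} (hγ : γ ∈ Gam N ξ) {x : H →L[ℂ] H} (hx : x ∈ Qalg M N ξ) :
    Rel N ξ γ x (al M N ξ γ x) := (S.al_spec hγ hx).2

lemma al_unique {γ : ℝ} (hγ : γ ∈ Gam N ξ) {x z : H →L[ℂ] H} (hx : x ∈ Qalg M N ξ)
    (hz : Rel N ξ γ x z) : al M N ξ γ x = z :=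
  Rel.unique S.irr hγ.1.ne' hγ.2 fun a ha => by rw [← hz a ha, S.al_rel hγ hx a ha]

lemma al_norm {γ : ℝ} (hγ : γ ∈ Gam N ξ) {x : H →L[ℂ] H} (hx : x ∈ Qalg M N ξ) :
    ‖al M N ξ γ x ξ‖ = ‖x ξ‖ :=
  S.rel_norm S.irr hγ.1.ne' hγ.2 hx (S.al_mem hγ hx) (S.al_rel hγ hx)

lemma al_opNorm {γ : ℝ} (hγ : γ ∈ Gam N ξ) {x : H →L[ℂ] H} (hx : x ∈ Qalg M N ξ) :
    ‖al M N ξ γ x‖ ≤ 2 * ‖x‖ := by
  obtain ⟨z, hz, hz', hn⟩ := exists_rel S.irr hγ.1.ne' hγ.2 S.le hx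
  rw [S.al_unique hγ hx hz']
  exact hn

/-- the operator implementing `a ξ ↦ a (x ξ)` is given by the transports on spectral subspaces -/
lemma lam_Hg {x : H →L[ℂ] H} (hx : x ∈ Qalg M N ξ) {L : K0 N ξ →L[ℂ] H}
    (hL : ∀ a (ha : a ∈ N), L ⟨a ξ, mem_K0 ha⟩ = a (x ξ)) {γ : ℝ} (hγ : 0 < γ) {v : H}
    (hv : v ∈ Hg N ξ γ) : L ⟨v, Hg_le_K0 hv⟩ = al M N ξ γ x v := by
  by_cases h : γ ∈ Gam N ξ
  · have h1 : ∀ w ∈ Hg N ξ γ, ∃ hw : w ∈ K0 N ξ, L ⟨w, hw⟩ = al M N ξ γ x w := by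
      intro w hw
      have hcl : IsClosed {w : H | ∃ hw : w ∈ K0 N ξ, L ⟨w, hw⟩ = al M N ξ γ x w} := by
        have : {w : H | ∃ hw : w ∈ K0 N ξ, L ⟨w, hw⟩ = al M N ξ γ x w} =
            Subtype.val '' {w : K0 N ξ | L w = al M N ξ γ x w} := by
          ext y
          constructor
          · rintro ⟨hy, hp⟩
            exact ⟨⟨y, hy⟩, hp, rfl⟩
          · rintro ⟨⟨y, hy⟩, hp, rfl⟩
            exact ⟨hy, hp⟩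
        rw [this]
        refine (K0_isClosed (N := N) (ξ := ξ)).isClosedEmbedding_subtypeVal.isClosedMap _ ?_
        exact isClosed_eq L.continuous ((al M N ξ γ x).continuous.comp continuous_subtype_val)
      refine Hg_induction (p := fun w => ∃ hw : w ∈ K0 N ξ, L ⟨w, hw⟩ = al M N ξ γ x w) hcl
        (fun a ha => ⟨mem_K0 ha.1, ?_⟩) hw
      rw [hL a ha.1]
      exact congrArg (fun T : H →L[ℂ] H => T ξ) (S.al_rel h hx a ha)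
    obtain ⟨_, hw⟩ := h1 v hv
    exact hw
  · have h0 := Hg_zero_of_not_Gam hγ h hv
    subst h0
    rw [map_zero]
    exact map_zero L

lemma norm_sum_QK {F : Finset ℝ} (hF : ∀ γ ∈ F, γ ≠ 0) {y : ℝ → H →L[ℂ] H}
    (hy : ∀ γ ∈ F, y γ ∈ Qalg M N ξ) {v : ℝ → H} (hv : ∀ γ ∈ F, v γ ∈ Hg N ξ γ) :
    ‖∑ γ ∈ F, y γ (v γ)‖ ^ 2 = ∑ γ ∈ F, ‖y γ ξ‖ ^ 2 * ‖v γ‖ ^ 2 := by
  have h : ⟪∑ γ ∈ F, y γ (v γ), ∑ γ ∈ F, y γ (v γ)⟫_ℂ =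
      ((∑ γ ∈ F, ‖y γ ξ‖ ^ 2 * ‖v γ‖ ^ 2 : ℝ) : ℂ) := by
    rw [sum_inner]
    push_cast
    refine Finset.sum_congr rfl fun γ hγ => ?_
    rw [inner_sum, Finset.sum_eq_single γ]
    · rw [S.inner_QK S.irr (hy γ hγ) (hy γ hγ) (Hg_le_K0 (hv γ hγ)) (Hg_le_K0 (hv γ hγ)),
        inner_self_eq_norm_sq_to_K, inner_self_eq_norm_sq_to_K]
      rfl
    · intro δ hδ hne
      rw [S.inner_QK S.irr (hy γ hγ) (hy δ hδ) (Hg_le_K0 (hv γ hγ)) (Hg_le_K0 (hv δ hδ)),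
        Hg_ortho (hF γ hγ) hne (hv δ hδ) (hv γ hγ), mul_zero]
    · intro h; exact absurd hγ h
  exact norm_sq_of_inner h

/-- The commutator estimate. -/
theorem comm_estimate (hAP : AlmostPeriodic N ξ) {x a : H →L[ℂ] H} (hx : x ∈ Qalg M N ξ) (ha : a ∈ N) {F F' : Finset ℝ}
    (hF : ∀ γ ∈ F, 0 < γ) (hF' : F' ⊆ F) {ε : ℝ} (hε : 0 ≤ ε)
    (h : ∀ γ ∈ F, γ ∉ F' → γ ∈ Gam N ξ → ‖(al M N ξ γ x - x) ξ‖ ≤ ε) :
    ‖a (x ξ) - x (a ξ)‖ ≤ 2 * ‖x ξ‖ * ‖a ξ - PF N ξ F (a ξ)‖ +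
      Real.sqrt (ε ^ 2 * ‖a ξ‖ ^ 2 + 4 * ‖x ξ‖ ^ 2 * ∑ γ ∈ F', ‖Pg N ξ γ (a ξ)‖ ^ 2) := by
  classical
  obtain ⟨L, hL, hLn⟩ := exists_lam (N := N) (ξ := ξ) ‖x ξ‖ (norm_nonneg _) (x ξ) (by
    intro b hb
    rw [S.norm_NQ S.irr hAP hx hb])
  have hF0 : ∀ γ ∈ F, γ ≠ 0 := fun γ hγ => (hF γ hγ).ne'
  have hPF : PF N ξ F (a ξ) ∈ K0 N ξ := by
    rw [PF_apply]
    exact Submodule.sum_mem _ fun γ _ => Hg_le_K0 (Pg_mem γ _)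
  have hLPF : L ⟨PF N ξ F (a ξ), hPF⟩ = ∑ γ ∈ F, al M N ξ γ x (Pg N ξ γ (a ξ)) := by
    have h1 : (⟨PF N ξ F (a ξ), hPF⟩ : K0 N ξ) =
        ∑ γ ∈ F, ⟨Pg N ξ γ (a ξ), Hg_le_K0 (Pg_mem γ _)⟩ := by
      apply Subtype.ext
      rw [AddSubmonoidClass.coe_finsetSum]
      exact PF_apply F (a ξ)
    rw [h1, map_sum]
    exact Finset.sum_congr rfl fun γ hγ => S.lam_Hg hx hL (hF γ hγ) (Pg_mem γ _)
  -- replace y γ by zero when γ is not an eigenvalue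
  set y : ℝ → H →L[ℂ] H := fun γ => if γ ∈ Gam N ξ then al M N ξ γ x - x else 0 with hy
  have hyQ : ∀ γ ∈ F, y γ ∈ Qalg M N ξ := by
    intro γ _
    by_cases hγ : γ ∈ Gam N ξ
    · rw [hy]
      simp only [if_pos hγ]
      exact sub_mem (S.al_mem hγ hx) hx
    · rw [hy]
      simp only [if_neg hγ]
      exact zero_mem _
  have hyP : ∀ γ ∈ F, al M N ξ γ x (Pg N ξ γ (a ξ)) - x (Pg N ξ γ (a ξ)) =
      y γ (Pg N ξ γ (a ξ)) := by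
    intro γ hγ
    by_cases hγ' : γ ∈ Gam N ξ
    · rw [hy]
      simp only [if_pos hγ']
      rfl
    · rw [Hg_zero_of_not_Gam (hF γ hγ) hγ' (Pg_mem γ (a ξ))]
      simp
  have key : a (x ξ) - x (a ξ) = (L (⟨a ξ, mem_K0 ha⟩ - ⟨PF N ξ F (a ξ), hPF⟩) -
      x (a ξ - PF N ξ F (a ξ))) + ∑ γ ∈ F, y γ (Pg N ξ γ (a ξ)) := by
    have e1 : ∑ γ ∈ F, y γ (Pg N ξ γ (a ξ)) = L ⟨PF N ξ F (a ξ), hPF⟩ - x (PF N ξ F (a ξ)) := by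
      rw [hLPF, PF_apply, map_sum, ← Finset.sum_sub_distrib]
      exact Finset.sum_congr rfl fun γ hγ => (hyP γ hγ).symm
    rw [e1, map_sub, map_sub, hL a ha]
    abel
  have hsubK : a ξ - PF N ξ F (a ξ) ∈ K0 N ξ := Submodule.sub_mem _ (mem_K0 ha) hPF
  have n1 : ‖L (⟨a ξ, mem_K0 ha⟩ - ⟨PF N ξ F (a ξ), hPF⟩)‖ ≤
      ‖x ξ‖ * ‖a ξ - PF N ξ F (a ξ)‖ := L.le_of_opNorm_le hLn _
  have n2 : ‖x (a ξ - PF N ξ F (a ξ))‖ = ‖x ξ‖ * ‖a ξ - PF N ξ F (a ξ)‖ :=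
    S.norm_QK S.irr hx hsubK
  have n3 : ‖∑ γ ∈ F, y γ (Pg N ξ γ (a ξ))‖ ≤
      Real.sqrt (ε ^ 2 * ‖a ξ‖ ^ 2 + 4 * ‖x ξ‖ ^ 2 * ∑ γ ∈ F', ‖Pg N ξ γ (a ξ)‖ ^ 2) := by
    refine Real.le_sqrt_of_sq_le ?_
    rw [S.norm_sum_QK hF0 hyQ (fun γ _ => Pg_mem γ _)]
    have e2 : ∀ γ ∈ F, ‖y γ ξ‖ ^ 2 * ‖Pg N ξ γ (a ξ)‖ ^ 2 ≤
        ε ^ 2 * ‖Pg N ξ γ (a ξ)‖ ^ 2 +
          (if γ ∈ F' then 4 * ‖x ξ‖ ^ 2 * ‖Pg N ξ γ (a ξ)‖ ^ 2 else 0) := by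
      intro γ hγ
      by_cases hγF : γ ∈ F'
      · rw [if_pos hγF]
        have e3 : ‖y γ ξ‖ ≤ 2 * ‖x ξ‖ := by
          by_cases hγ' : γ ∈ Gam N ξ
          · rw [hy]
            simp only [if_pos hγ']
            calc ‖(al M N ξ γ x - x) ξ‖ ≤ ‖al M N ξ γ x ξ‖ + ‖x ξ‖ := norm_sub_le _ _
              _ = 2 * ‖x ξ‖ := by rw [S.al_norm hγ' hx]; ring
          · rw [hy]
            simp only [if_neg hγ']
            rw [zero_apply, norm_zero]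
            positivity
        have e4 : ‖y γ ξ‖ ^ 2 ≤ 4 * ‖x ξ‖ ^ 2 := by
          have := pow_le_pow_left₀ (norm_nonneg _) e3 2
          rw [mul_pow] at this
          linarith
        have e5 := mul_le_mul_of_nonneg_right e4 (by positivity : 0 ≤ ‖Pg N ξ γ (a ξ)‖ ^ 2)
        have e6 : 0 ≤ ε ^ 2 * ‖Pg N ξ γ (a ξ)‖ ^ 2 := by positivity
        linarith
      · rw [if_neg hγF, add_zero]
        refine mul_le_mul_of_nonneg_right ?_ (by positivity)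
        refine pow_le_pow_left₀ (norm_nonneg _) ?_ 2
        by_cases hγ' : γ ∈ Gam N ξ
        · rw [hy]
          simp only [if_pos hγ']
          exact h γ hγ hγF hγ'
        · rw [hy]
          simp only [if_neg hγ']
          rw [zero_apply, norm_zero]
          exact hε
    refine (Finset.sum_le_sum e2).trans ?_
    rw [Finset.sum_add_distrib, ← Finset.mul_sum, Finset.sum_ite_mem,
      Finset.inter_eq_right.2 hF', ← Finset.mul_sum]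
    have e7 := mul_le_mul_of_nonneg_left (bessel (N := N) (ξ := ξ) hF0 (a ξ))
      (by positivity : 0 ≤ ε ^ 2)
    linarith
  calc ‖a (x ξ) - x (a ξ)‖ ≤ ‖L (⟨a ξ, mem_K0 ha⟩ - ⟨PF N ξ F (a ξ), hPF⟩) -
        x (a ξ - PF N ξ F (a ξ))‖ + ‖∑ γ ∈ F, y γ (Pg N ξ γ (a ξ))‖ := by
          rw [key]; exact norm_add_le _ _
    _ ≤ (‖L (⟨a ξ, mem_K0 ha⟩ - ⟨PF N ξ F (a ξ), hPF⟩)‖ +
        ‖x (a ξ - PF N ξ F (a ξ))‖) + ‖∑ γ ∈ F, y γ (Pg N ξ γ (a ξ))‖ := by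
          gcongr; exact norm_sub_le _ _
    _ ≤ _ := by
          rw [n2]
          linarith

end AP

end Pool.Agent.Helper23
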