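import Pool.Agent.Helper23.Qalg

/-!
# Spectral subspaces
-/

open scoped InnerProductSpace
open ContinuousLinearMap

namespace Pool.Agent.Helper23

variable {H : Type*} [NormedAddCommGroup H] [InnerProductSpace ℂ H] [CompleteSpace H]
variable {M N : VonNeumannAlgebra H} {ξ : H} {E : (H →L[ℂ] H) → (H →L[ℂ] H)}

lemma norm_sq_of_inner {x : H} {r : ℝ} (h : ⟪x, x⟫_ℂ = (r : ℂ)) : ‖x‖ ^ 2 = r := by
  rw [inner_self_eq_norm_sq_to_K] at h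
  have h2 : ((‖x‖ ^ 2 : ℝ) : ℂ) = (r : ℂ) := by
    push_cast
    exact h
  exact Complex.ofReal_injective h2

/-- evaluation at `ξ` -/
def evξ (ξ : H) : (H →L[ℂ] H) →ₗ[ℂ] H where
  toFun a := a ξ
  map_add' _ _ := rfl
  map_smul' _ _ := rfl

/-- The spectral subspace: closure of `N(γ) ξ`. -/
noncomputable def Hg (N : VonNeumannAlgebra H) (ξ : H) (γ : ℝ) : Submodule ℂ H :=
  ((eig N ξ γ).map (evξ ξ)).topologicalClosure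

instance (γ : ℝ) : CompleteSpace (Hg N ξ γ) := by
  unfold Hg
  exact (Submodule.isClosed_topologicalClosure _).completeSpace_coe

/-- The projection on the spectral subspace. -/
noncomputable def Pg (N : VonNeumannAlgebra H) (ξ : H) (γ : ℝ) : H →L[ℂ] H :=
  (Hg N ξ γ).starProjection

lemma eig_apply_mem_Hg {γ : ℝ} {a : H →L[ℂ] H} (ha : a ∈ eig N ξ γ) : a ξ ∈ Hg N ξ γ :=
  Submodule.le_topologicalClosure _ ⟨a, ha, rfl⟩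

lemma Hg_isClosed (γ : ℝ) : IsClosed (Hg N ξ γ : Set H) :=
  Submodule.isClosed_topologicalClosure _

/-- induction principle for the spectral subspace -/
lemma Hg_induction {γ : ℝ} {p : H → Prop} (hcl : IsClosed {x | p x})
    (h : ∀ a ∈ eig N ξ γ, p (a ξ)) {x : H} (hx : x ∈ Hg N ξ γ) : p x := by
  have hsub : (((eig N ξ γ).map (evξ ξ) : Submodule ℂ H) : Set H) ⊆ {x | p x} := by
    rintro _ ⟨a, ha, rfl⟩
    exact h a ha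
  exact closure_minimal hsub hcl hx

lemma eig_ortho {γ δ : ℝ} (hδ : δ ≠ 0) (hne : γ ≠ δ) {a b : H →L[ℂ] H}
    (ha : a ∈ eig N ξ γ) (hb : b ∈ eig N ξ δ) : ⟪b ξ, a ξ⟫_ℂ = 0 := by
  have h1 := ha.2 (star b) (star_mem hb.1)
  have h2 := (eig_star hδ hb).2 a ha.1
  rw [h2, ← mul_assoc] at h1
  rw [inner_star_right] at h1
  have h3 : ((1 : ℂ) - (γ : ℂ) * ((δ⁻¹ : ℝ) : ℂ)) * ⟪b ξ, a ξ⟫_ℂ = 0 := by
    rw [sub_mul, one_mul, sub_eq_zero]; exact h1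
  rcases mul_eq_zero.1 h3 with h | h
  · exfalso
    apply hne
    rw [sub_eq_zero] at h
    have h4 : (1 : ℝ) = γ * δ⁻¹ := by exact_mod_cast h
    field_simp at h4
    exact h4.symm
  · exact h

lemma Hg_ortho {γ δ : ℝ} (hδ : δ ≠ 0) (hne : γ ≠ δ) {x y : H}
    (hx : x ∈ Hg N ξ γ) (hy : y ∈ Hg N ξ δ) : ⟪y, x⟫_ℂ = 0 := by
  refine Hg_induction (p := fun x => ⟪y, x⟫_ℂ = 0) (isClosed_eq (by fun_prop) (by fun_prop))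
    (fun a ha => ?_) hx
  exact Hg_induction (p := fun y => ⟪y, a ξ⟫_ℂ = 0) (isClosed_eq (by fun_prop) (by fun_prop))
    (fun b hb => eig_ortho hδ hne ha hb) hy

lemma Pg_mem (γ : ℝ) (x : H) : Pg N ξ γ x ∈ Hg N ξ γ := Submodule.starProjection_apply_mem _ x

lemma Pg_eq_self {γ : ℝ} {x : H} (hx : x ∈ Hg N ξ γ) : Pg N ξ γ x = x :=
  Submodule.starProjection_eq_self_iff.2 hx

lemma inner_Pg {γ : ℝ} {x y : H} (hx : x ∈ Hg N ξ γ) : ⟪x, Pg N ξ γ y⟫_ℂ = ⟪x, y⟫_ℂ := by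
  have h := Submodule.inner_starProjection_left_eq_right (Hg N ξ γ) x y
  rw [Submodule.starProjection_eq_self_iff.2 hx] at h
  exact h.symm

lemma Pg_norm_le (γ : ℝ) (x : H) : ‖Pg N ξ γ x‖ ≤ ‖x‖ :=
  Submodule.norm_starProjection_apply_le _ _

lemma Pg_ortho {γ δ : ℝ} (hδ : δ ≠ 0) (hne : γ ≠ δ) {x : H} (hx : x ∈ Hg N ξ δ) :
    Pg N ξ γ x = 0 := by
  have h1 : ⟪Pg N ξ γ x, Pg N ξ γ x⟫_ℂ = ⟪Pg N ξ γ x, x⟫_ℂ := inner_Pg (Pg_mem γ x)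
  have h2 : ⟪x, Pg N ξ γ x⟫_ℂ = 0 := Hg_ortho hδ hne (Pg_mem γ x) hx
  rw [← inner_conj_symm (Pg N ξ γ x) x, h2, map_zero] at h1
  exact inner_self_eq_zero.1 h1

/-- finite partial sums of the spectral decomposition -/
noncomputable def PF (N : VonNeumannAlgebra H) (ξ : H) (F : Finset ℝ) : H →L[ℂ] H :=
  ∑ γ ∈ F, Pg N ξ γ

lemma PF_apply (F : Finset ℝ) (x : H) : PF N ξ F x = ∑ γ ∈ F, Pg N ξ γ x := by
  rw [PF, sum_apply]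

lemma inner_PF {F : Finset ℝ} (x : H) :
    ⟪x, PF N ξ F x⟫_ℂ = ((∑ γ ∈ F, ‖Pg N ξ γ x‖ ^ 2 : ℝ) : ℂ) := by
  rw [PF_apply, inner_sum]
  push_cast
  refine Finset.sum_congr rfl fun γ _ => ?_
  rw [← inner_conj_symm, ← inner_Pg (Pg_mem γ x), inner_self_eq_norm_sq_to_K]
  simp

lemma norm_sum_ortho {F : Finset ℝ} (hF : ∀ γ ∈ F, γ ≠ 0) {v : ℝ → H}
    (hv : ∀ γ ∈ F, v γ ∈ Hg N ξ γ) : ‖∑ γ ∈ F, v γ‖ ^ 2 = ∑ γ ∈ F, ‖v γ‖ ^ 2 := by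
  have h : ⟪∑ γ ∈ F, v γ, ∑ γ ∈ F, v γ⟫_ℂ = ((∑ γ ∈ F, ‖v γ‖ ^ 2 : ℝ) : ℂ) := by
    rw [sum_inner]
    push_cast
    refine Finset.sum_congr rfl fun γ hγ => ?_
    rw [inner_sum, Finset.sum_eq_single γ]
    · rw [inner_self_eq_norm_sq_to_K]; rfl
    · intro δ hδ hne
      exact Hg_ortho (hF γ hγ) hne (hv δ hδ) (hv γ hγ)
    · intro h; exact absurd hγ h
  exact norm_sq_of_inner h

lemma norm_PF_sq {F : Finset ℝ} (hF : ∀ γ ∈ F, γ ≠ 0) (x : H) :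
    ‖PF N ξ F x‖ ^ 2 = ∑ γ ∈ F, ‖Pg N ξ γ x‖ ^ 2 := by
  rw [PF_apply]
  exact norm_sum_ortho hF fun γ _ => Pg_mem γ x

lemma norm_sub_PF_sq {F : Finset ℝ} (hF : ∀ γ ∈ F, γ ≠ 0) (x : H) :
    ‖x - PF N ξ F x‖ ^ 2 = ‖x‖ ^ 2 - ∑ γ ∈ F, ‖Pg N ξ γ x‖ ^ 2 := by
  have h := @norm_sub_sq ℂ H _ _ _ x (PF N ξ F x)
  rw [inner_PF, norm_PF_sq hF] at h
  rw [h]
  simp only [RCLike.re_to_complex, Complex.ofReal_re]
  ring

lemma bessel {F : Finset ℝ} (hF : ∀ γ ∈ F, γ ≠ 0) (x : H) :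
    ∑ γ ∈ F, ‖Pg N ξ γ x‖ ^ 2 ≤ ‖x‖ ^ 2 := by
  have h := norm_sub_PF_sq (N := N) (ξ := ξ) hF x
  have h2 : 0 ≤ ‖x - PF N ξ F x‖ ^ 2 := by positivity
  linarith

lemma norm_sub_PF_le {F : Finset ℝ} (hF : ∀ γ ∈ F, γ ≠ 0) (x : H) :
    ‖x - PF N ξ F x‖ ≤ ‖x‖ := by
  have h := norm_sub_PF_sq (N := N) (ξ := ξ) hF x
  have h2 : 0 ≤ ∑ γ ∈ F, ‖Pg N ξ γ x‖ ^ 2 := Finset.sum_nonneg fun _ _ => by positivity
  exact (pow_le_pow_iff_left₀ (norm_nonneg _) (norm_nonneg _) two_ne_zero).1 (by linarith)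

lemma PF_fix {F : Finset ℝ} (hF : ∀ γ ∈ F, γ ≠ 0) {δ : ℝ} (hδ : δ ∈ F) {x : H}
    (hx : x ∈ Hg N ξ δ) : PF N ξ F x = x := by
  rw [PF_apply, Finset.sum_eq_single δ]
  · exact Pg_eq_self hx
  · intro γ _ hne
    exact Pg_ortho (hF δ hδ) hne hx
  · intro h; exact absurd hδ h

/-- The closure of `N ξ`. -/
noncomputable def K0 (N : VonNeumannAlgebra H) (ξ : H) : Submodule ℂ H :=
  (orb N ξ).topologicalClosure

lemma K0_isClosed : IsClosed (K0 N ξ : Set H) := Submodule.isClosed_topologicalClosure _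

instance : CompleteSpace (K0 N ξ) := K0_isClosed.completeSpace_coe

lemma mem_K0 {a : H →L[ℂ] H} (ha : a ∈ N) : a ξ ∈ K0 N ξ :=
  Submodule.le_topologicalClosure _ ⟨a, ha, rfl⟩

lemma K0_induction {p : H → Prop} (hcl : IsClosed {x | p x})
    (h : ∀ a ∈ N, p (a ξ)) {x : H} (hx : x ∈ K0 N ξ) : p x := by
  have hsub : ((orb N ξ : Submodule ℂ H) : Set H) ⊆ {x | p x} := by
    rintro _ ⟨a, ha, rfl⟩
    exact h a ha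
  exact closure_minimal hsub hcl hx

lemma Hg_le_K0 {γ : ℝ} {x : H} (hx : x ∈ Hg N ξ γ) : x ∈ K0 N ξ :=
  Hg_induction (p := fun x => x ∈ K0 N ξ) K0_isClosed (fun a ha => mem_K0 ha.1) hx

/-- Approximation of vectors in `K0` by finite partial sums. -/
lemma exists_PF_near (hAP : AlmostPeriodic N ξ) {x : H} (hx : x ∈ K0 N ξ) {ε : ℝ} (hε : 0 < ε) :
    ∃ F : Finset ℝ, (∀ γ ∈ F, 0 < γ) ∧ ∀ F' : Finset ℝ, F ⊆ F' → (∀ γ ∈ F', 0 < γ) →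
      ‖x - PF N ξ F' x‖ < ε := by
  classical
  -- finite sums of eigenvectors
  have hfin : ∀ a ∈ spanEig N ξ, ∃ F : Finset ℝ, (∀ γ ∈ F, 0 < γ) ∧
      ∀ F' : Finset ℝ, F ⊆ F' → (∀ γ ∈ F', 0 < γ) → PF N ξ F' (a ξ) = a ξ := by
    intro a ha
    induction ha using Submodule.span_induction with
    | mem a ha =>
      obtain ⟨γ, hγ, ha⟩ := ha
      refine ⟨{γ}, by simpa using hγ, fun F' hF' hpos => ?_⟩
      exact PF_fix (fun δ hδ => (hpos δ hδ).ne') (hF' (Finset.mem_singleton_self γ))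
        (eig_apply_mem_Hg ha)
    | zero => exact ⟨∅, by simp, fun F' _ _ => by simp⟩
    | add a b _ _ ha hb =>
      obtain ⟨F₁, h₁, h₁'⟩ := ha
      obtain ⟨F₂, h₂, h₂'⟩ := hb
      refine ⟨F₁ ∪ F₂, ?_, fun F' hF' hpos => ?_⟩
      · intro γ hγ
        rcases Finset.mem_union.1 hγ with h | h
        · exact h₁ γ h
        · exact h₂ γ h
      · rw [add_apply, map_add, h₁' F' (Finset.union_subset_left hF') hpos,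
          h₂' F' (Finset.union_subset_right hF') hpos]
    | smul c a _ ha =>
      obtain ⟨F, h, h'⟩ := ha
      refine ⟨F, h, fun F' hF' hpos => ?_⟩
      rw [smul_apply, map_smul, h' F' hF' hpos]
  have hcl : x ∈ closure ((orb N ξ : Submodule ℂ H) : Set H) := hx
  obtain ⟨_, ⟨b, hb, rfl⟩, hdist⟩ := Metric.mem_closure_iff.1 hcl (ε / 2) (by positivity)
  obtain ⟨a, ha, hab⟩ := exists_spanEig_near_one hAP ξ hb (ε := ε / 2) (by positivity)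
  obtain ⟨F, hF, hF'⟩ := hfin a ha
  refine ⟨F, hF, fun F' hsub hpos => ?_⟩
  have h1 : x - PF N ξ F' x = (x - a ξ) - PF N ξ F' (x - a ξ) := by
    rw [map_sub, hF' F' hsub hpos]; abel
  rw [h1]
  refine lt_of_le_of_lt (norm_sub_PF_le (fun γ hγ => (hpos γ hγ).ne') _) ?_
  calc ‖x - a ξ‖ ≤ ‖x - b ξ‖ + ‖b ξ - a ξ‖ := by
        have : x - a ξ = (x - b ξ) + (b ξ - a ξ) := by abel
        rw [this]; exact norm_add_le _ _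
    _ < ε / 2 + ε / 2 := by
        rw [dist_eq_norm] at hdist
        rw [norm_sub_rev (b ξ)]
        linarith
    _ = ε := by ring

/-- auxiliary: from a bound on `⟪b ξ, x⟫` for `b ∈ N(γ)` to a bound for the projection. -/
lemma norm_Pg_le_of_inner {γ : ℝ} {x : H} {C : ℝ} (hC : 0 ≤ C)
    (h : ∀ b ∈ eig N ξ γ, ‖⟪b ξ, x⟫_ℂ‖ ≤ C * ‖b ξ‖) : ‖Pg N ξ γ x‖ ≤ C := by
  have h1 : ∀ v ∈ Hg N ξ γ, ‖⟪v, x⟫_ℂ‖ ≤ C * ‖v‖ := by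
    intro v hv
    exact Hg_induction (p := fun v => ‖⟪v, x⟫_ℂ‖ ≤ C * ‖v‖)
      (isClosed_le (by fun_prop) (by fun_prop)) h hv
  have h2 := h1 _ (Pg_mem γ x)
  rw [← inner_Pg (Pg_mem γ x), inner_self_eq_norm_sq_to_K] at h2
  have h3 : ‖Pg N ξ γ x‖ ^ 2 ≤ C * ‖Pg N ξ γ x‖ := by
    simpa using h2
  by_contra hcon
  push Not at hcon
  have h4 : 0 < ‖Pg N ξ γ x‖ := lt_of_le_of_lt hC hcon
  nlinarith

namespace Setting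

variable (S : Setting M N E ξ)
include S

lemma norm_star_eig {γ : ℝ} (hγ : 0 < γ) {b : H →L[ℂ] H} (hb : b ∈ eig N ξ γ) :
    ‖(star b) ξ‖ = (Real.sqrt γ)⁻¹ * ‖b ξ‖ := by
  have h := S.eig_norm_sq hb
  have h1 : ‖b ξ‖ = Real.sqrt γ * ‖(star b) ξ‖ := by
    rw [← Real.sqrt_sq (norm_nonneg (b ξ)), h, Real.sqrt_mul hγ.le,
      Real.sqrt_sq (norm_nonneg _)]
  rw [h1, ← mul_assoc, inv_mul_cancel₀ (Real.sqrt_pos.2 hγ).ne', one_mul]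

lemma Pg_N {γ : ℝ} (hγ : 0 < γ) {a : H →L[ℂ] H} (ha : a ∈ N) :
    ‖Pg N ξ γ (a ξ)‖ ≤ Real.sqrt γ * ‖Pg N ξ γ⁻¹ ((star a) ξ)‖ := by
  refine norm_Pg_le_of_inner (by positivity) fun b hb => ?_
  have hb' := eig_star hγ.ne' hb
  -- ⟪b ξ, a ξ⟫ = ⟪ξ, b* a ξ⟫ = γ ⟪ξ, a b* ξ⟫
  have h1 := hb'.2 a ha
  rw [inner_star_right, ← inner_star_left a ξ] at h1
  have h2 : ⟪b ξ, a ξ⟫_ℂ = γ * ⟪(star a) ξ, (star b) ξ⟫_ℂ := by
    rw [h1, ← mul_assoc]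
    have : (γ : ℂ) * ((γ⁻¹ : ℝ) : ℂ) = 1 := by
      rw [← Complex.ofReal_mul, mul_inv_cancel₀ hγ.ne']; simp
    rw [this, one_mul]
  have h3 : ⟪(star a) ξ, (star b) ξ⟫_ℂ = ⟪Pg N ξ γ⁻¹ ((star a) ξ), (star b) ξ⟫_ℂ := by
    rw [← inner_conj_symm, ← inner_Pg (eig_apply_mem_Hg hb'), inner_conj_symm]
  rw [h2, h3, norm_mul, Complex.norm_real, Real.norm_of_nonneg hγ.le]
  calc γ * ‖⟪Pg N ξ γ⁻¹ ((star a) ξ), (star b) ξ⟫_ℂ‖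
      ≤ γ * (‖Pg N ξ γ⁻¹ ((star a) ξ)‖ * ‖(star b) ξ‖) := by
        gcongr; exact norm_inner_le_norm _ _
    _ = (γ * (Real.sqrt γ)⁻¹) * ‖Pg N ξ γ⁻¹ ((star a) ξ)‖ * ‖b ξ‖ := by
        rw [S.norm_star_eig hγ hb]; ring
    _ = Real.sqrt γ * ‖Pg N ξ γ⁻¹ ((star a) ξ)‖ * ‖b ξ‖ := by
        have hs : 0 < Real.sqrt γ := Real.sqrt_pos.2 hγ
        have : γ * (Real.sqrt γ)⁻¹ = Real.sqrt γ := by
          rw [← div_eq_mul_inv, div_eq_iff hs.ne', Real.mul_self_sqrt hγ.le]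
        rw [this]

lemma Pg_comm {γ : ℝ} (hγ : 0 < γ) {y : H →L[ℂ] H} (hy : y ∈ N.commutant) :
    ‖Pg N ξ γ (y ξ)‖ ≤ (Real.sqrt γ)⁻¹ * ‖Pg N ξ γ⁻¹ ((star y) ξ)‖ := by
  refine norm_Pg_le_of_inner (by positivity) fun b hb => ?_
  have hb' := eig_star hγ.ne' hb
  have h1 : ⟪b ξ, y ξ⟫_ℂ = ⟪(star y) ξ, (star b) ξ⟫_ℂ := by
    rw [← inner_star_right, inner_star_left, commute_apply hb'.1 hy]
  have h3 : ⟪(star y) ξ, (star b) ξ⟫_ℂ = ⟪Pg N ξ γ⁻¹ ((star y) ξ), (star b) ξ⟫_ℂ := by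
    rw [← inner_conj_symm, ← inner_Pg (eig_apply_mem_Hg hb'), inner_conj_symm]
  rw [h1, h3]
  calc ‖⟪Pg N ξ γ⁻¹ ((star y) ξ), (star b) ξ⟫_ℂ‖
      ≤ ‖Pg N ξ γ⁻¹ ((star y) ξ)‖ * ‖(star b) ξ‖ := norm_inner_le_norm _ _
    _ = (Real.sqrt γ)⁻¹ * ‖Pg N ξ γ⁻¹ ((star y) ξ)‖ * ‖b ξ‖ := by
        rw [S.norm_star_eig hγ hb]; ring

/-- independence of `Q` and `K0` -/
lemma inner_QK (hirr : TrivialRelComm N ξ) {y z : H →L[ℂ] H} (hy : y ∈ Qalg M N ξ)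
    (hz : z ∈ Qalg M N ξ) {η ζ : H} (hη : η ∈ K0 N ξ) (hζ : ζ ∈ K0 N ξ) :
    ⟪y η, z ζ⟫_ℂ = ⟪y ξ, z ξ⟫_ℂ * ⟪η, ζ⟫_ℂ := by
  refine K0_induction (p := fun η => ⟪y η, z ζ⟫_ℂ = ⟪y ξ, z ξ⟫_ℂ * ⟪η, ζ⟫_ℂ)
    (isClosed_eq (by fun_prop) (by fun_prop)) (fun a ha => ?_) hη
  exact K0_induction (p := fun ζ => ⟪y (a ξ), z ζ⟫_ℂ = ⟪y ξ, z ξ⟫_ℂ * ⟪a ξ, ζ⟫_ℂ)
    (isClosed_eq (by fun_prop) (by fun_prop)) (fun b hb => S.inner_QQ hirr hy hz ha hb) hζ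

lemma norm_QK (hirr : TrivialRelComm N ξ) {y : H →L[ℂ] H} (hy : y ∈ Qalg M N ξ)
    {η : H} (hη : η ∈ K0 N ξ) : ‖y η‖ = ‖y ξ‖ * ‖η‖ := by
  have h := S.inner_QK hirr hy hy hη hη
  simp only [inner_self_eq_norm_sq_to_K] at h
  have h2 : ‖y η‖ ^ 2 = (‖y ξ‖ * ‖η‖) ^ 2 := by
    have h3 : ((‖y η‖ ^ 2 : ℝ) : ℂ) = (((‖y ξ‖ * ‖η‖) ^ 2 : ℝ) : ℂ) := by
      push_cast
      rw [mul_pow]
      exact h
    exact Complex.ofReal_injective h3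
  exact (pow_left_inj₀ (norm_nonneg _) (by positivity) two_ne_zero).1 h2

end Setting

end Pool.Agent.Helper23
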