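import Pool.Agent.Helper23.Dom2
import Pool.Agent.Helper23.Spec

/-!
# Spectral concentration of almost centralizing unitaries
-/

open scoped InnerProductSpace
open ContinuousLinearMap

namespace Pool.Agent.Helper23

variable {H : Type*} [NormedAddCommGroup H] [InnerProductSpace ℂ H] [CompleteSpace H]
variable {M N : VonNeumannAlgebra H} {ξ : H} {E : (H →L[ℂ] H) → (H →L[ℂ] H)}

/-- `a φ - l φ a` has norm at most `δ` -/
def Defect (N : VonNeumannAlgebra H) (ξ : H) (l δ : ℝ) (a : H →L[ℂ] H) : Prop :=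
  ∀ z ∈ N, ‖⟪ξ, z (a ξ)⟫_ℂ - l * ⟪ξ, a (z ξ)⟫_ℂ‖ ≤ δ * ‖z‖

/-- the set of eigenvalues -/
def Gam (N : VonNeumannAlgebra H) (ξ : H) : Set ℝ := {γ | 0 < γ ∧ ∃ a ∈ eig N ξ γ, a ≠ 0}

lemma sum_inv_image {F : Finset ℝ} (f : ℝ → ℝ) :
    ∑ γ ∈ F, f γ⁻¹ = ∑ γ ∈ F.image (fun γ => γ⁻¹), f γ := by
  rw [Finset.sum_image]
  intro a _ b _ h
  exact inv_injective h

lemma bessel_inv {F : Finset ℝ} (hF : ∀ γ ∈ F, γ ≠ 0) (x : H) :
    ∑ γ ∈ F, ‖Pg N ξ γ⁻¹ x‖ ^ 2 ≤ ‖x‖ ^ 2 := by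
  rw [sum_inv_image (F := F) (fun γ => ‖Pg N ξ γ x‖ ^ 2)]
  refine bessel ?_ x
  intro γ hγ
  obtain ⟨δ, hδ, rfl⟩ := Finset.mem_image.1 hγ
  exact inv_ne_zero (hF δ hδ)

lemma norm_of_isom {u : H →L[ℂ] H} (hu : star u * u = 1) (v : H) : ‖u v‖ = ‖v‖ := by
  have h1 := norm_sq_apply u v
  have h2 : (star u) (u v) = v := congrArg (fun T : H →L[ℂ] H => T v) hu
  rw [h2] at h1
  have h3 := norm_sq_of_inner h1.symm
  exact ((pow_left_inj₀ (norm_nonneg _) (norm_nonneg _) two_ne_zero).1 h3).symm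

namespace Setting

variable (S : Setting M N E ξ)
include S

theorem concentration {u : H →L[ℂ] H} (hu : u ∈ N) (hu1 : star u * u = 1) (hu2 : u * star u = 1)
    {δ : ℝ} (hδ : 0 < δ) (hD : Defect N ξ 1 δ u) {F : Finset ℝ} (hF : ∀ γ ∈ F, 0 < γ)
    {δ' : ℝ} (hFu : ‖u ξ - PF N ξ F (u ξ)‖ ^ 2 ≤ δ') {κ : ℝ} (hκ : 0 ≤ κ) {F' : Finset ℝ}
    (hF' : F' ⊆ F) (hκF : ∀ γ ∈ F', κ ≤ γ + γ⁻¹ - 2) :
    κ * ∑ γ ∈ F', ‖Pg N ξ γ (u ξ)‖ ^ 2 ≤ 2 * δ' + (4 + 2 * κ) * Real.sqrt (3 * δ) := by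
  have hF0 : ∀ γ ∈ F, γ ≠ 0 := fun γ hγ => (hF γ hγ).ne'
  have huni : ∀ v : H, ‖u v‖ = ‖v‖ := norm_of_isom hu1
  have huni' : ∀ v : H, ‖(star u) v‖ = ‖v‖ := norm_of_isom (by rw [star_star]; exact hu2)
  -- the contraction of the commutant
  obtain ⟨y, hy, hy1, hy2⟩ := exists_near_comm N (ξ := ξ) (η := u ξ) S.norm_one hδ.le (by
    intro x hx
    have h1 := hD (star u * x) (mul_mem (star_mem hu) hx)
    have h2 : ⟪ξ, (star u * x) (u ξ)⟫_ℂ = ⟪u ξ, x (u ξ)⟫_ℂ := by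
      rw [← inner_star_right]; rfl
    have h3 : u ((star u * x) ξ) = x ξ :=
      congrArg (fun T : H →L[ℂ] H => T (x ξ)) hu2
    rw [h2, h3, Complex.ofReal_one, one_mul] at h1
    have h4 : ‖star u * x‖ ≤ ‖x‖ := by
      refine ContinuousLinearMap.opNorm_le_bound _ (norm_nonneg _) fun v => ?_
      change ‖(star u) (x v)‖ ≤ _
      rw [huni']
      exact x.le_opNorm v
    exact h1.trans (mul_le_mul_of_nonneg_left h4 hδ.le))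
  set s := Real.sqrt (3 * δ) with hs
  have hspos : 0 < s := Real.sqrt_pos.2 (by positivity)
  have hs2 : s ^ 2 = 3 * δ := Real.sq_sqrt (by positivity)
  set a : ℝ → ℝ := fun γ => ‖Pg N ξ γ (u ξ)‖ with ha
  set b : ℝ → ℝ := fun γ => ‖Pg N ξ γ (y ξ)‖ with hb
  have ha0 : ∀ γ, 0 ≤ a γ := fun γ => norm_nonneg _
  have hb0 : ∀ γ, 0 ≤ b γ := fun γ => norm_nonneg _
  -- the three basic inequalities
  have h1 : ∑ γ ∈ F, a γ ^ 2 ≤ 1 := by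
    refine (bessel hF0 (u ξ)).trans ?_
    rw [huni, S.norm_one]; norm_num
  have h1' : 1 - δ' ≤ ∑ γ ∈ F, a γ ^ 2 := by
    have := norm_sub_PF_sq (N := N) (ξ := ξ) hF0 (u ξ)
    rw [this, huni, S.norm_one] at hFu
    linarith
  have h2 : ∑ γ ∈ F, γ⁻¹ * a γ ^ 2 ≤ 1 := by
    calc ∑ γ ∈ F, γ⁻¹ * a γ ^ 2 ≤ ∑ γ ∈ F, ‖Pg N ξ γ⁻¹ ((star u) ξ)‖ ^ 2 := by
          refine Finset.sum_le_sum fun γ hγ => ?_
          have h3 := S.Pg_N (hF γ hγ) hu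
          have h4 := pow_le_pow_left₀ (norm_nonneg _) h3 2
          rw [mul_pow, Real.sq_sqrt (hF γ hγ).le] at h4
          rw [inv_mul_le_iff₀ (hF γ hγ)]
          exact h4
      _ ≤ 1 := by
          refine (bessel_inv hF0 ((star u) ξ)).trans ?_
          rw [huni', S.norm_one]; norm_num
  have h3 : ∑ γ ∈ F, γ * b γ ^ 2 ≤ 1 := by
    calc ∑ γ ∈ F, γ * b γ ^ 2 ≤ ∑ γ ∈ F, ‖Pg N ξ γ⁻¹ ((star y) ξ)‖ ^ 2 := by
          refine Finset.sum_le_sum fun γ hγ => ?_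
          have h3 := S.Pg_comm (hF γ hγ) hy
          have h4 := pow_le_pow_left₀ (norm_nonneg _) h3 2
          rw [mul_pow, inv_pow, Real.sq_sqrt (hF γ hγ).le] at h4
          rw [← le_inv_mul_iff₀ (hF γ hγ)]
          exact h4
      _ ≤ 1 := by
          refine (bessel_inv hF0 ((star y) ξ)).trans ?_
          have h5 : ‖(star y) ξ‖ ≤ 1 := by
            have h6 : ‖star y‖ ≤ 1 := by rw [norm_star]; exact hy1
            have := (star y).le_of_opNorm_le h6 ξ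
            rwa [S.norm_one, one_mul] at this
          have := pow_le_pow_left₀ (norm_nonneg _) h5 2
          simpa using this
  have h4 : ∑ γ ∈ F, (a γ - b γ) ^ 2 ≤ s ^ 2 := by
    rw [hs2]
    refine le_trans ?_ hy2
    refine le_trans ?_ (bessel (N := N) (ξ := ξ) hF0 (y ξ - u ξ))
    refine Finset.sum_le_sum fun γ hγ => ?_
    rw [map_sub, ← sq_abs (a γ - b γ)]
    refine pow_le_pow_left₀ (abs_nonneg _) ?_ 2
    rw [abs_sub_comm]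
    exact abs_norm_sub_norm_le _ _
  set c : ℝ → ℝ := fun γ => min (a γ) (b γ) with hc
  have hc0 : ∀ γ, 0 ≤ c γ := fun γ => le_min (ha0 γ) (hb0 γ)
  have hca : ∀ γ, c γ ^ 2 ≤ a γ ^ 2 := fun γ =>
    pow_le_pow_left₀ (hc0 γ) (min_le_left _ _) 2
  have hcb : ∀ γ, c γ ^ 2 ≤ b γ ^ 2 := fun γ =>
    pow_le_pow_left₀ (hc0 γ) (min_le_right _ _) 2
  have hac : ∀ γ, a γ ^ 2 - c γ ^ 2 ≤ s * a γ ^ 2 + s⁻¹ * (a γ - b γ) ^ 2 := by
    intro γ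
    have h5 : a γ ^ 2 - c γ ^ 2 ≤ 2 * a γ * |a γ - b γ| := by
      rcases le_total (a γ) (b γ) with h | h
      · have : c γ = a γ := min_eq_left h
        rw [this, sub_self]
        have := ha0 γ
        positivity
      · have : c γ = b γ := min_eq_right h
        rw [this, abs_of_nonneg (sub_nonneg.2 h)]
        nlinarith [ha0 γ, hb0 γ]
    have h6 : 2 * a γ * |a γ - b γ| ≤ s * a γ ^ 2 + s⁻¹ * (a γ - b γ) ^ 2 := by
      have h7 : 0 ≤ s⁻¹ * (s * a γ - |a γ - b γ|) ^ 2 := by positivity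
      have h8 : s⁻¹ * (s * a γ - |a γ - b γ|) ^ 2 =
          s * a γ ^ 2 + s⁻¹ * (a γ - b γ) ^ 2 - 2 * a γ * |a γ - b γ| := by
        rw [sub_sq, sq_abs]
        field_simp
        ring
      linarith
    exact h5.trans h6
  have h5 : ∀ G ⊆ F, ∑ γ ∈ G, (a γ ^ 2 - c γ ^ 2) ≤ 2 * s := by
    intro G hG
    have h6 : ∑ γ ∈ G, (a γ ^ 2 - c γ ^ 2) ≤ ∑ γ ∈ F, (a γ ^ 2 - c γ ^ 2) :=
      Finset.sum_le_sum_of_subset_of_nonneg hG fun γ _ _ => sub_nonneg.2 (hca γ)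
    have h7 : ∑ γ ∈ F, (a γ ^ 2 - c γ ^ 2) ≤
        ∑ γ ∈ F, (s * a γ ^ 2 + s⁻¹ * (a γ - b γ) ^ 2) :=
      Finset.sum_le_sum fun γ _ => hac γ
    rw [Finset.sum_add_distrib, ← Finset.mul_sum, ← Finset.mul_sum] at h7
    have h8 : s * ∑ γ ∈ F, a γ ^ 2 ≤ s * 1 := mul_le_mul_of_nonneg_left h1 hspos.le
    have h9 : s⁻¹ * ∑ γ ∈ F, (a γ - b γ) ^ 2 ≤ s⁻¹ * s ^ 2 :=
      mul_le_mul_of_nonneg_left h4 (by positivity)
    have h10 : s⁻¹ * s ^ 2 = s := by field_simp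
    linarith
  -- main
  have h6 : ∑ γ ∈ F, (γ + γ⁻¹ - 2) * c γ ^ 2 ≤ 2 * δ' + 4 * s := by
    have e1 : ∑ γ ∈ F, (γ + γ⁻¹ - 2) * c γ ^ 2 =
        ∑ γ ∈ F, γ * c γ ^ 2 + ∑ γ ∈ F, γ⁻¹ * c γ ^ 2 - 2 * ∑ γ ∈ F, c γ ^ 2 := by
      rw [Finset.mul_sum, ← Finset.sum_add_distrib, ← Finset.sum_sub_distrib]
      refine Finset.sum_congr rfl fun γ _ => ?_
      ring
    have e2 : ∑ γ ∈ F, γ * c γ ^ 2 ≤ 1 :=
      (Finset.sum_le_sum fun γ hγ => mul_le_mul_of_nonneg_left (hcb γ) (hF γ hγ).le).trans h3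
    have e3 : ∑ γ ∈ F, γ⁻¹ * c γ ^ 2 ≤ 1 :=
      (Finset.sum_le_sum fun γ hγ => mul_le_mul_of_nonneg_left (hca γ)
        (inv_pos.2 (hF γ hγ)).le).trans h2
    have e4 := h5 F (Finset.Subset.refl _)
    rw [Finset.sum_sub_distrib] at e4
    linarith
  have h7 : κ * ∑ γ ∈ F', c γ ^ 2 ≤ 2 * δ' + 4 * s := by
    refine le_trans ?_ h6
    rw [Finset.mul_sum]
    have e1 : ∑ γ ∈ F', κ * c γ ^ 2 ≤ ∑ γ ∈ F', (γ + γ⁻¹ - 2) * c γ ^ 2 :=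
      Finset.sum_le_sum fun γ hγ => mul_le_mul_of_nonneg_right (hκF γ hγ) (by positivity)
    refine e1.trans ?_
    refine Finset.sum_le_sum_of_subset_of_nonneg hF' fun γ hγ _ => ?_
    have hγ0 := hF γ hγ
    have e2 : 0 ≤ γ + γ⁻¹ - 2 := by
      have : γ + γ⁻¹ - 2 = (γ - 1) ^ 2 * γ⁻¹ := by field_simp; ring
      rw [this]; positivity
    positivity
  have h8 := h5 F' hF'
  rw [Finset.sum_sub_distrib] at h8
  have h9 : κ * ∑ γ ∈ F', a γ ^ 2 ≤ κ * (∑ γ ∈ F', c γ ^ 2 + 2 * s) :=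
    mul_le_mul_of_nonneg_left (by linarith) hκ
  have h10 : κ * (∑ γ ∈ F', c γ ^ 2 + 2 * s) = κ * ∑ γ ∈ F', c γ ^ 2 + 2 * κ * s := by ring
  calc κ * ∑ γ ∈ F', a γ ^ 2 ≤ κ * ∑ γ ∈ F', c γ ^ 2 + 2 * κ * s := by linarith
    _ ≤ 2 * δ' + (4 + 2 * κ) * s := by linarith

end Setting

end Pool.Agent.Helper23
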