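import Pool.Agent.Helper23.Acs

/-!
# Continuous elements asymptotically commute with almost centralizing sequences
-/

open scoped InnerProductSpace BoundedContinuousFunction
open ContinuousLinearMap Filter

namespace Pool.Agent.Helper23

variable {H : Type*} [NormedAddCommGroup H] [InnerProductSpace ℂ H] [CompleteSpace H]
variable {M N : VonNeumannAlgebra H} {ξ : H} {E : (H →L[ℂ] H) → (H →L[ℂ] H)}

/-- continuity at `1` of the transports of `x`. -/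
def ContAt (M N : VonNeumannAlgebra H) (ξ : H) (x : H →L[ℂ] H) : Prop :=
  ∀ ε : ℝ, 0 < ε → ∃ η : ℝ, 0 < η ∧ ∀ γ ∈ Gam N ξ, |γ - 1| < η →
    ‖(al M N ξ γ x - x) ξ‖ ≤ ε

lemma kappa_bound {η γ : ℝ} (hη : 0 < η) (hγ : 0 < γ) (h : η ≤ |γ - 1|) :
    η ^ 2 / (1 + η) ≤ γ + γ⁻¹ - 2 := by
  have h1 : γ + γ⁻¹ - 2 = (γ - 1) ^ 2 / γ := by field_simp; ring
  rw [h1, div_le_div_iff₀ (by positivity) hγ]
  rcases le_total 1 γ with h2 | h2
  · rw [abs_of_nonneg (by linarith)] at h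
    have h3 : η ^ 2 ≤ (γ - 1) ^ 2 := pow_le_pow_left₀ hη.le h 2
    have h4 : 0 ≤ (γ - 1) * η * ((γ - 1) - η) :=
      mul_nonneg (mul_nonneg (by linarith) hη.le) (by linarith)
    nlinarith
  · rw [abs_of_nonpos (by linarith)] at h
    have h3 : η ^ 2 ≤ (γ - 1) ^ 2 := by
      have := pow_le_pow_left₀ hη.le h 2
      rwa [neg_sq] at this
    have h4 : η ^ 2 * γ ≤ η ^ 2 * 1 := mul_le_mul_of_nonneg_left h2 (by positivity)
    nlinarith [sq_nonneg (γ - 1)]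

namespace AP

variable (S : AP M N E ξ)
include S

/-- quantitative statement for unitaries -/
theorem small_comm_unitary (hAP : AlmostPeriodic N ξ) {x : H →L[ℂ] H} (hx : x ∈ Qalg M N ξ) (hc : ContAt M N ξ x)
    {ε : ℝ} (hε : 0 < ε) : ∃ δ : ℝ, 0 < δ ∧ ∀ u ∈ N, star u * u = 1 → u * star u = 1 →
      Defect N ξ 1 δ u → ‖u (x ξ) - x (u ξ)‖ ≤ ε := by
  classical
  obtain ⟨η, hη, hcont⟩ := hc (ε / 4) (by positivity)
  set X := ‖x ξ‖ + 1 with hX
  have hX0 : 0 < X := by positivity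
  set τ := ε ^ 2 / (64 * X ^ 2) with hτ
  have hτ0 : 0 < τ := by positivity
  set κ := η ^ 2 / (1 + η) with hκ
  have hκ0 : 0 < κ := by positivity
  set r := κ * τ / (2 * (4 + 2 * κ)) with hr
  have hr0 : 0 < r := by positivity
  refine ⟨r ^ 2 / 3, by positivity, fun u hu hu1 hu2 hD => ?_⟩
  have hsq : Real.sqrt (3 * (r ^ 2 / 3)) = r := by
    rw [mul_div_cancel₀ _ (by norm_num : (3 : ℝ) ≠ 0), Real.sqrt_sq hr0.le]
  set δ' := min τ (κ * τ / 4) with hδ'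
  have hδ'0 : 0 < δ' := by positivity
  obtain ⟨F, hF, hF2⟩ := exists_PF_near hAP (mem_K0 hu) (ε := Real.sqrt δ')
    (Real.sqrt_pos.2 hδ'0)
  have h1 := hF2 F (Finset.Subset.refl _) hF
  have hPF : ‖u ξ - PF N ξ F (u ξ)‖ ^ 2 ≤ δ' := by
    have := pow_le_pow_left₀ (norm_nonneg _) h1.le 2
    rwa [Real.sq_sqrt hδ'0.le] at this
  set F' := F.filter (fun γ => η ≤ |γ - 1|) with hF'
  have hF'sub : F' ⊆ F := Finset.filter_subset _ _
  have h2 := S.concentration hu hu1 hu2 (by positivity) hD hF hPF hκ0.le hF'sub (by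
    intro γ hγ
    rw [hF', Finset.mem_filter] at hγ
    exact kappa_bound hη (hF γ hγ.1) hγ.2)
  rw [hsq] at h2
  have h3 : ∑ γ ∈ F', ‖Pg N ξ γ (u ξ)‖ ^ 2 ≤ τ := by
    have h4 : 2 * δ' ≤ κ * τ / 2 := by
      have := min_le_right τ (κ * τ / 4)
      linarith
    have h5 : (4 + 2 * κ) * r = κ * τ / 2 := by
      rw [hr]; field_simp
    have h6 : κ * ∑ γ ∈ F', ‖Pg N ξ γ (u ξ)‖ ^ 2 ≤ κ * τ := by linarith
    exact le_of_mul_le_mul_left h6 hκ0
  have h4 := S.comm_estimate hAP hx hu hF hF'sub (ε := ε / 4) (by positivity) (by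
    intro γ hγ hγ' hγG
    refine hcont γ hγG ?_
    by_contra hcon
    push Not at hcon
    exact hγ' (Finset.mem_filter.2 ⟨hγ, hcon⟩))
  have hu1' : ‖u ξ‖ = 1 := by rw [norm_of_isom hu1, S.norm_one]
  refine h4.trans ?_
  have hxX : ‖x ξ‖ ≤ X := by rw [hX]; linarith
  have h5 : 2 * ‖x ξ‖ * ‖u ξ - PF N ξ F (u ξ)‖ ≤ ε / 4 := by
    have h6 : ‖u ξ - PF N ξ F (u ξ)‖ ≤ Real.sqrt τ := by
      refine h1.le.trans (Real.sqrt_le_sqrt (min_le_left _ _))
    have h7 : Real.sqrt τ = ε / (8 * X) := by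
      rw [hτ]
      have : ε ^ 2 / (64 * X ^ 2) = (ε / (8 * X)) ^ 2 := by
        rw [div_pow]; ring
      rw [this, Real.sqrt_sq (by positivity)]
    rw [h7] at h6
    calc 2 * ‖x ξ‖ * ‖u ξ - PF N ξ F (u ξ)‖ ≤ 2 * X * (ε / (8 * X)) := by gcongr
      _ = ε / 4 := by field_simp; norm_num
  have h6 : Real.sqrt ((ε / 4) ^ 2 * ‖u ξ‖ ^ 2 +
      4 * ‖x ξ‖ ^ 2 * ∑ γ ∈ F', ‖Pg N ξ γ (u ξ)‖ ^ 2) ≤ ε / 2 := by
    rw [hu1', one_pow, mul_one]
    refine Real.sqrt_le_iff.2 ⟨by positivity, ?_⟩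
    have h7 : 4 * ‖x ξ‖ ^ 2 * ∑ γ ∈ F', ‖Pg N ξ γ (u ξ)‖ ^ 2 ≤ 4 * X ^ 2 * τ := by
      gcongr
    have h8 : 4 * X ^ 2 * τ = ε ^ 2 / 16 := by
      rw [hτ]; field_simp; norm_num
    nlinarith [sq_nonneg ε]
  linarith

/-- Continuous elements of `Q` asymptotically commute with almost centralizing sequences. -/
theorem comm_tendsto (hAP : AlmostPeriodic N ξ) {x : H →L[ℂ] H} (hx : x ∈ Qalg M N ξ) (hc : ContAt M N ξ x)
    {a : ℕ → H →L[ℂ] H} (ha : ∀ n, a n ∈ N) {C : ℝ} (hC : ∀ n, ‖a n‖ ≤ C)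
    (hD : Dseq N ξ 1 a) : Tendsto (fun n => a n (x ξ) - x (a n ξ)) atTop (nhds 0) := by
  have hcl : IsClosed (ACalg N ξ : Set (ℕ →ᵇ N.toStarSubalgebra)) := ACalg_isClosed S.norm_one
  let a' : ℕ →ᵇ N.toStarSubalgebra :=
    BoundedContinuousFunction.ofNormedAddCommGroup (fun n => (⟨a n, ha n⟩ : N.toStarSubalgebra))
      continuous_of_discreteTopology C (fun n => hC n)
  have ha'n : ∀ n, ((a' n : N.toStarSubalgebra) : H →L[ℂ] H) = a n := fun n => rfl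
  have ha' : a' ∈ ACalg N ξ := hD
  obtain ⟨u, k, hk, -⟩ := CStarAlgebra.exists_sum_four_unitary (⟨a', ha'⟩ : ACalg N ξ)
  have hsum : ∀ n, a n = ∑ i, k i •
      ((((u i : ACalg N ξ) : ℕ →ᵇ N.toStarSubalgebra) n : N.toStarSubalgebra) :
        H →L[ℂ] H) := by
    intro n
    have h1 : a' = ∑ i, k i • (((u i : ACalg N ξ) : ℕ →ᵇ N.toStarSubalgebra)) := by
      have := congrArg (fun z : ACalg N ξ => (z : ℕ →ᵇ N.toStarSubalgebra)) hk
      simpa using this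
    have h2 : a' n = ∑ i, k i • (((u i : ACalg N ξ) : ℕ →ᵇ N.toStarSubalgebra)) n := by
      rw [h1, BoundedContinuousFunction.sum_apply]
      rfl
    rw [← ha'n n, h2]
    simp
  have hi : ∀ i, Tendsto (fun n =>
      ((((u i : ACalg N ξ) : ℕ →ᵇ N.toStarSubalgebra) n : N.toStarSubalgebra) :
        H →L[ℂ] H) (x ξ) -
      x (((((u i : ACalg N ξ) : ℕ →ᵇ N.toStarSubalgebra) n : N.toStarSubalgebra) :
        H →L[ℂ] H) ξ)) atTop (nhds 0) := by
    intro i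
    rw [Metric.tendsto_nhds]
    intro ε hε
    obtain ⟨δ, hδ, h⟩ := S.small_comm_unitary hAP hx hc (ε := ε / 2) (by positivity)
    have h1 : Dseq N ξ 1 (fun n =>
        ((((u i : ACalg N ξ) : ℕ →ᵇ N.toStarSubalgebra) n : N.toStarSubalgebra) :
        H →L[ℂ] H)) := (u i : ACalg N ξ).2
    filter_upwards [h1 δ hδ] with n hn
    have e1 : star (((u i : ACalg N ξ) : ℕ →ᵇ N.toStarSubalgebra) n) *
        (((u i : ACalg N ξ) : ℕ →ᵇ N.toStarSubalgebra) n) = 1 := by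
      have := Unitary.star_mul_self_of_mem (u i).2
      exact congrArg (fun z : ACalg N ξ => (z : ℕ →ᵇ N.toStarSubalgebra) n) this
    have e2 : (((u i : ACalg N ξ) : ℕ →ᵇ N.toStarSubalgebra) n) *
        star (((u i : ACalg N ξ) : ℕ →ᵇ N.toStarSubalgebra) n) = 1 := by
      have := Unitary.mul_star_self_of_mem (u i).2
      exact congrArg (fun z : ACalg N ξ => (z : ℕ →ᵇ N.toStarSubalgebra) n) this
    have e3 := h _ ((((u i : ACalg N ξ) : ℕ →ᵇ N.toStarSubalgebra) n).2)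
      (congrArg (fun z : N.toStarSubalgebra => (z : H →L[ℂ] H)) e1)
      (congrArg (fun z : N.toStarSubalgebra => (z : H →L[ℂ] H)) e2) hn
    rw [dist_zero_right]
    linarith
  have hfin : Tendsto (fun n => ∑ i, k i •
      (((((u i : ACalg N ξ) : ℕ →ᵇ N.toStarSubalgebra) n : N.toStarSubalgebra) :
        H →L[ℂ] H) (x ξ) -
      x (((((u i : ACalg N ξ) : ℕ →ᵇ N.toStarSubalgebra) n : N.toStarSubalgebra) :
        H →L[ℂ] H) ξ))) atTop (nhds (∑ i, k i • (0 : H))) :=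
    tendsto_finsetSum _ fun i _ => (hi i).const_smul (k i)
  simp only [smul_zero, Finset.sum_const_zero] at hfin
  refine hfin.congr fun n => ?_
  rw [hsum n, sum_apply, sum_apply, map_sum, ← Finset.sum_sub_distrib]
  refine Finset.sum_congr rfl fun i _ => ?_
  rw [smul_apply, smul_apply, map_smul, smul_sub]

end AP

end Pool.Agent.Helper23
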