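import Pool.Agent.Helper23.Wt

/-!
# A unitary intertwining the commutant and its amplification
-/

open scoped InnerProductSpace Topology ENNReal
open ContinuousLinearMap Filter MeasureTheory

set_option linter.unusedSectionVars false
set_option linter.unusedVariables false

namespace Pool.Agent.Helper23

section CSB

variable {H : Type*} [NormedAddCommGroup H] [InnerProductSpace ℂ H] [CompleteSpace H]
variable {K : Type*} [NormedAddCommGroup K] [InnerProductSpace ℂ K] [CompleteSpace K]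

/-- Cantor-Bernstein for isometries intertwining families of operators. -/
theorem csb (I : H →L[ℂ] K) (J : K →L[ℂ] H) (hI : ∀ x y, ⟪I x, I y⟫_ℂ = ⟪x, y⟫_ℂ)
    (hJ : ∀ x y, ⟪J x, J y⟫_ℂ = ⟪x, y⟫_ℂ) :
    ∃ W : H ≃ₗᵢ[ℂ] K, ∀ (a : H →L[ℂ] H) (b : K →L[ℂ] K),
      (∀ x, I (a x) = b (I x)) → (∀ x, J (b x) = a (J x)) →
      (∀ x, I (star a x) = star b (I x)) → (∀ x, J (star b x) = star a (J x)) →
      ∀ x, W (a x) = b (W x) := by
  have hII : ∀ x, (adjoint I) (I x) = x := fun x =>
    ext_inner_left ℂ fun y => by rw [adjoint_inner_right, hI]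
  have hJJ : ∀ x, (adjoint J) (J x) = x := fun x =>
    ext_inner_left ℂ fun y => by rw [adjoint_inner_right, hJ]
  set A : H →L[ℂ] H := J.comp I with hA
  have hAx : ∀ x, A x = J (I x) := fun _ => rfl
  set T : Set H := {x | ∃ (n : ℕ) (ζ : H), (∀ k, ⟪ζ, J k⟫_ℂ = 0) ∧ x = (A ^ n) ζ} with hT
  set V : Submodule ℂ H := (Submodule.span ℂ T).topologicalClosure with hV
  have hVc : IsClosed (V : Set H) := Submodule.isClosed_topologicalClosure _
  have : CompleteSpace V := hVc.completeSpace_coe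
  have hTV : ∀ x ∈ T, x ∈ V := fun x hx =>
    Submodule.le_topologicalClosure _ (Submodule.subset_span hx)
  -- induction principle
  have hind : ∀ (p : H → Prop), IsClosed {x | p x} → p 0 → (∀ x y, p x → p y → p (x + y)) →
      (∀ (c : ℂ) x, p x → p (c • x)) → (∀ x ∈ T, p x) → ∀ x ∈ V, p x := by
    intro p hcl h0 hadd hsmul hT x hx
    have hsub : (Submodule.span ℂ T : Set H) ⊆ {x | p x} := by
      intro x hx
      exact Submodule.span_induction (p := fun x _ => p x) hT h0
        (fun x y _ _ => hadd x y) (fun c x _ => hsmul c x) hx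
    exact closure_minimal hsub hcl hx
  set P : H →L[ℂ] H := V.starProjection with hP
  have hPmem : ∀ x, P x ∈ V := fun x => Submodule.starProjection_apply_mem _ x
  have hPfix : ∀ x ∈ V, P x = x := fun x hx => Submodule.starProjection_eq_self_iff.2 hx
  have hPsa : ∀ x y, ⟪P x, y⟫_ℂ = ⟪x, P y⟫_ℂ := fun x y =>
    Submodule.inner_starProjection_left_eq_right _ x y
  have hPo : ∀ v ∈ V, ∀ x, ⟪v, x - P x⟫_ℂ = 0 := by
    intro v hv x
    rw [inner_sub_right, ← hPsa, hPfix v hv, sub_self]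
  -- `A V ⊆ V`
  have hAV : ∀ x ∈ V, A x ∈ V := by
    refine hind (fun x => A x ∈ V) (hVc.preimage A.continuous) ?_ ?_ ?_ ?_
    · rw [map_zero]; exact V.zero_mem
    · intro x y hx hy; rw [map_add]; exact V.add_mem hx hy
    · intro c x hx; rw [map_smul]; exact V.smul_mem c hx
    · rintro _ ⟨n, ζ, hζ, rfl⟩
      refine hTV _ ⟨n + 1, ζ, hζ, ?_⟩
      rw [pow_succ']
      rfl
  -- complement
  have hcomp : ∀ x, (∀ v ∈ V, ⟪v, x⟫_ℂ = 0) → J ((adjoint J) x) = x := by
    intro x hx
    have h1 : ∀ k, ⟪x - J ((adjoint J) x), J k⟫_ℂ = 0 := by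
      intro k
      rw [inner_sub_left, hJ, adjoint_inner_left, sub_self]
    have h2 : x - J ((adjoint J) x) ∈ V := hTV _ ⟨0, _, h1, by simp⟩
    have h3 : ⟪x - J ((adjoint J) x), x - J ((adjoint J) x)⟫_ℂ = 0 := by
      rw [inner_sub_right, hx _ h2, h1, sub_zero]
    exact (sub_eq_zero.1 (inner_self_eq_zero.1 h3)).symm
  set W : H →L[ℂ] K := I.comp P + (adjoint J).comp (1 - P) with hW
  have hWx : ∀ x, W x = I (P x) + (adjoint J) (x - P x) := fun _ => rfl
  have hcross : ∀ x y, ⟪I (P x), (adjoint J) (y - P y)⟫_ℂ = 0 := by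
    intro x y
    rw [adjoint_inner_right, ← hAx, hPo _ (hAV _ (hPmem x))]
  have hWW : ∀ x y, ⟪W x, W y⟫_ℂ = ⟪x, y⟫_ℂ := by
    intro x y
    rw [hWx, hWx, inner_add_left, inner_add_right, inner_add_right, hI, hcross]
    have h1 : ⟪(adjoint J) (x - P x), I (P y)⟫_ℂ = 0 := by
      rw [← inner_conj_symm, hcross, map_zero]
    have h2 : ⟪(adjoint J) (x - P x), (adjoint J) (y - P y)⟫_ℂ = ⟪x - P x, y - P y⟫_ℂ := by
      rw [adjoint_inner_left, hcomp (y - P y) (fun v hv => hPo v hv y)]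
    have h3 : ⟪P x, y - P y⟫_ℂ = 0 := hPo _ (hPmem x) y
    have h4 : ⟪x - P x, P y⟫_ℂ = 0 := by
      rw [← inner_conj_symm, hPo _ (hPmem y) x, map_zero]
    rw [h1, h2]
    have h5 : ⟪x, y⟫_ℂ = ⟪P x + (x - P x), P y + (y - P y)⟫_ℂ := by
      rw [add_sub_cancel, add_sub_cancel]
    rw [h5, inner_add_left, inner_add_right, inner_add_right, h3, h4]
  have hsurj : ∀ k, W (P ((adjoint I) k) + (J k - P (J k))) = k := by
    intro k
    have h1 : P (J k) = J (I (P ((adjoint I) k))) := by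
      have hmem : J (I (P ((adjoint I) k))) ∈ V := hAV _ (hPmem _)
      have ho : ∀ v ∈ V, ⟪v, J k - J (I (P ((adjoint I) k)))⟫_ℂ = 0 := by
        refine hind _ (isClosed_eq (by fun_prop) (by fun_prop)) (inner_zero_left _) ?_ ?_ ?_
        · intro x y hx hy; rw [inner_add_left, hx, hy, add_zero]
        · intro c x hx; rw [inner_smul_left, hx, mul_zero]
        · rintro _ ⟨n, ζ, hζ, rfl⟩
          rw [← map_sub]
          cases n with
          | zero => rw [pow_zero, one_apply_eq_self, hζ]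
          | succ n =>
            have e1 : (A ^ (n + 1)) ζ = J (I ((A ^ n) ζ)) := by rw [pow_succ']; rfl
            rw [e1, hJ, inner_sub_right, hI, ← adjoint_inner_right, ← inner_sub_right]
            exact hPo _ (hTV _ ⟨n, ζ, hζ, rfl⟩) _
      have h2 : P (J k - J (I (P ((adjoint I) k)))) = 0 := by
        rw [← inner_self_eq_zero (𝕜 := ℂ), hPsa, hPfix _ (hPmem _), ← inner_conj_symm,
          ho _ (hPmem _), map_zero]
      rw [map_sub, sub_eq_zero, hPfix _ hmem] at h2
      exact h2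
    have hp1 : P (P ((adjoint I) k) + (J k - P (J k))) = P ((adjoint I) k) := by
      rw [map_add, map_sub, hPfix _ (hPmem _), hPfix _ (hPmem _), sub_self, add_zero]
    rw [hWx, hp1, add_sub_cancel_left, map_sub, hJJ, h1, hJJ, add_sub_cancel]
  let Wl : H →ₗᵢ[ℂ] K := ⟨W.toLinearMap, fun x => by
    have h1 := hWW x x
    rw [inner_self_eq_norm_sq_to_K, inner_self_eq_norm_sq_to_K] at h1
    have h2 : ‖W x‖ ^ 2 = ‖x‖ ^ 2 := by exact_mod_cast h1
    exact (pow_left_inj₀ (norm_nonneg _) (norm_nonneg _) two_ne_zero).1 h2⟩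
  refine ⟨LinearIsometryEquiv.ofSurjective Wl fun k => ⟨_, hsurj k⟩, ?_⟩
  intro a b h1 h2 h3 h4 x
  have hstab : ∀ (a : H →L[ℂ] H) (b : K →L[ℂ] K), (∀ x, I (a x) = b (I x)) →
      (∀ x, J (b x) = a (J x)) → (∀ x, J (star b x) = star a (J x)) → ∀ x ∈ V, a x ∈ V := by
    intro a b h1 h2 h4
    refine hind (fun x => a x ∈ V) (hVc.preimage a.continuous) ?_ ?_ ?_ ?_
    · rw [map_zero]; exact V.zero_mem
    · intro x y hx hy; rw [map_add]; exact V.add_mem hx hy
    · intro c x hx; rw [map_smul]; exact V.smul_mem c hx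
    · rintro _ ⟨n, ζ, hζ, rfl⟩
      refine hTV _ ⟨n, a ζ, fun k => ?_, ?_⟩
      · rw [← star_star a, ContinuousLinearMap.star_eq_adjoint (star a), adjoint_inner_left,
          ← h4, hζ]
      · induction n with
        | zero => rfl
        | succ n ih =>
          have e1 : ∀ z, (A ^ (n + 1)) z = J (I ((A ^ n) z)) := fun z => by
            rw [pow_succ']; rfl
          rw [e1, e1, ← ih, h1, h2]
  have hPa : P (a x) = a (P x) := by
    have e1 : ∀ v ∈ V, ⟪v, a x - a (P x)⟫_ℂ = 0 := by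
      intro v hv
      rw [← map_sub, ← adjoint_inner_left, ← ContinuousLinearMap.star_eq_adjoint]
      refine hPo _ (hstab (star a) (star b) h3 h4 ?_ v hv) x
      intro y
      rw [star_star, star_star]; exact h2 y
    have e2 : a (P x) ∈ V := hstab a b h1 h2 h4 _ (hPmem x)
    have h2 : P (a x - a (P x)) = 0 := by
      rw [← inner_self_eq_zero (𝕜 := ℂ), hPsa, hPfix _ (hPmem _), ← inner_conj_symm,
        e1 _ (hPmem _), map_zero]
    rw [map_sub, sub_eq_zero, hPfix _ e2] at h2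
    exact h2
  change W (a x) = b (W x)
  rw [hWx, hWx, hPa, h1, map_add]
  congr 1
  refine ext_inner_left ℂ fun k => ?_
  rw [adjoint_inner_right, ← map_sub]
  have e1 : ⟪k, b ((adjoint J) (x - P x))⟫_ℂ = ⟪J (star b k), x - P x⟫_ℂ := by
    rw [← adjoint_inner_right, ContinuousLinearMap.star_eq_adjoint b, adjoint_inner_left]
  rw [e1, h4, ContinuousLinearMap.star_eq_adjoint a, adjoint_inner_left]

end CSB

end Pool.Agent.Helper23
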