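import Pool.Agent.Helper23.Eigen

/-!
# Density of the span of the eigenoperators
-/

open scoped InnerProductSpace
open ContinuousLinearMap

namespace Pool.Agent.Helper23

variable {H : Type*} [NormedAddCommGroup H] [InnerProductSpace ℂ H] [CompleteSpace H]
variable {M N : VonNeumannAlgebra H} {ξ : H} {E : (H →L[ℂ] H) → (H →L[ℂ] H)}

/-- The vector state of `ξ` is almost periodic on `N`: its eigenoperators generate `N`. -/
def AlmostPeriodic (N : VonNeumannAlgebra H) (ξ : H) : Prop :=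
  ∀ T : H →L[ℂ] H, (∀ γ : ℝ, 0 < γ → ∀ a ∈ eig N ξ γ, a * T = T * a) → T ∈ N.commutant

/-- The span of all eigenoperators. -/
def spanEig (N : VonNeumannAlgebra H) (ξ : H) : Submodule ℂ (H →L[ℂ] H) :=
  Submodule.span ℂ {a | ∃ γ : ℝ, 0 < γ ∧ a ∈ eig N ξ γ}

lemma eig_le_spanEig {γ : ℝ} (hγ : 0 < γ) {a : H →L[ℂ] H} (ha : a ∈ eig N ξ γ) :
    a ∈ spanEig N ξ := Submodule.subset_span ⟨γ, hγ, ha⟩

lemma spanEig_le {a : H →L[ℂ] H} (ha : a ∈ spanEig N ξ) : a ∈ N := by
  have : spanEig N ξ ≤ N.toStarSubalgebra.toSubalgebra.toSubmodule := by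
    rw [spanEig, Submodule.span_le]
    rintro a ⟨γ, -, ha⟩
    exact ha.1
  exact this ha

lemma spanEig_one : (1 : H →L[ℂ] H) ∈ spanEig N ξ := eig_le_spanEig one_pos one_mem_eig

lemma spanEig_mul {a b : H →L[ℂ] H} (ha : a ∈ spanEig N ξ) (hb : b ∈ spanEig N ξ) :
    a * b ∈ spanEig N ξ := by
  induction ha using Submodule.span_induction with
  | mem x hx =>
    obtain ⟨γ, hγ, hx⟩ := hx
    induction hb using Submodule.span_induction with
    | mem y hy =>
      obtain ⟨δ, hδ, hy⟩ := hy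
      exact eig_le_spanEig (mul_pos hγ hδ) (eig_mul hx hy)
    | zero => rw [mul_zero]; exact Submodule.zero_mem _
    | add y z _ _ hy hz => rw [mul_add]; exact Submodule.add_mem _ hy hz
    | smul c y _ hy => rw [mul_smul_comm]; exact Submodule.smul_mem _ _ hy
  | zero => rw [zero_mul]; exact Submodule.zero_mem _
  | add x y _ _ hx hy => rw [add_mul]; exact Submodule.add_mem _ hx hy
  | smul c x _ hx => rw [smul_mul_assoc]; exact Submodule.smul_mem _ _ hx

lemma spanEig_star {a : H →L[ℂ] H} (ha : a ∈ spanEig N ξ) : star a ∈ spanEig N ξ := by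
  induction ha using Submodule.span_induction with
  | mem x hx =>
    obtain ⟨γ, hγ, hx⟩ := hx
    exact eig_le_spanEig (inv_pos.2 hγ) (eig_star hγ.ne' hx)
  | zero => rw [star_zero]; exact Submodule.zero_mem _
  | add x y _ _ hx hy => rw [star_add]; exact Submodule.add_mem _ hx hy
  | smul c x _ hx => rw [star_smul]; exact Submodule.smul_mem _ _ hx

section Density

variable {ι : Type*} [Fintype ι] [DecidableEq ι]

/-- Diagonal amplification. -/
noncomputable def diag (ι : Type*) [Fintype ι] (a : H →L[ℂ] H) :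
    PiLp 2 (fun _ : ι => H) →L[ℂ] PiLp 2 (fun _ : ι => H) :=
  ((PiLp.continuousLinearEquiv 2 ℂ (fun _ : ι => H)).symm : _ →L[ℂ] _).comp
    (ContinuousLinearMap.pi fun i => a.comp (PiLp.proj 2 (fun _ : ι => H) i))

omit [CompleteSpace H] [DecidableEq ι] in
lemma diag_apply (a : H →L[ℂ] H) (x : PiLp 2 (fun _ : ι => H)) (i : ι) :
    diag ι a x i = a (x i) := rfl

/-- coordinate embedding -/
noncomputable def sing (ι : Type*) [Fintype ι] [DecidableEq ι] (j : ι) :
    H →L[ℂ] PiLp 2 (fun _ : ι => H) :=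
  ((PiLp.continuousLinearEquiv 2 ℂ (fun _ : ι => H)).symm : _ →L[ℂ] _).comp
    (ContinuousLinearMap.single ℂ (fun _ : ι => H) j)

omit [CompleteSpace H] in
lemma sing_apply (j : ι) (h : H) (i : ι) :
    sing ι j h i = if i = j then h else 0 := by
  change (Pi.single j h : ι → H) i = _
  rw [Pi.single_apply]

omit [CompleteSpace H] in
lemma diag_sing (a : H →L[ℂ] H) (j : ι) (h : H) : diag ι a (sing ι j h) = sing ι j (a h) := by
  ext i
  rw [diag_apply, sing_apply, sing_apply]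
  split_ifs <;> simp

omit [CompleteSpace H] in
lemma sum_sing (x : PiLp 2 (fun _ : ι => H)) : x = ∑ j, sing ι j (x j) := by
  ext i
  have h1 : (∑ j, sing ι j (x j)) i = ∑ j, (sing ι j (x j)) i := by
    have := map_sum (PiLp.proj (𝕜 := ℂ) 2 (fun _ : ι => H) i) (fun j => sing ι j (x j)) Finset.univ
    exact this
  rw [h1]
  simp only [sing_apply]
  rw [Finset.sum_ite_eq]
  simp

omit [DecidableEq ι] in
lemma inner_diag (a : H →L[ℂ] H) (x y : PiLp 2 (fun _ : ι => H)) :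
    ⟪diag ι a x, y⟫_ℂ = ⟪x, diag ι (star a) y⟫_ℂ := by
  rw [PiLp.inner_apply, PiLp.inner_apply]
  refine Finset.sum_congr rfl fun i _ => ?_
  rw [diag_apply, diag_apply, inner_star_right]

/-- Vectors of `N` are approximated by the span of the eigenoperators, simultaneously on
finitely many vectors. -/
theorem exists_spanEig_near (hAP : AlmostPeriodic N ξ) (η : ι → H) {c : H →L[ℂ] H} (hc : c ∈ N)
    {ε : ℝ} (hε : 0 < ε) : ∃ a ∈ spanEig N ξ, ∀ i, ‖a (η i) - c (η i)‖ < ε := by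
  set vec : PiLp 2 (fun _ : ι => H) := WithLp.toLp 2 η with hvec
  have hvec_apply : ∀ i, vec i = η i := fun i => rfl
  let L : (H →L[ℂ] H) →ₗ[ℂ] PiLp 2 (fun _ : ι => H) :=
    { toFun := fun a => diag ι a vec
      map_add' := by
        intro a b
        ext i
        rfl
      map_smul' := by
        intro c a
        ext i
        rfl }
  have hL : ∀ a, L a = diag ι a vec := fun a => rfl
  set V := ((spanEig N ξ).map L).topologicalClosure with hV
  set P := V.starProjection with hP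
  -- invariance
  have hinv : ∀ b ∈ spanEig N ξ, ∀ x ∈ V, diag ι b x ∈ V := by
    intro b hb x hx
    have h1 : (((spanEig N ξ).map L : Submodule ℂ _) : Set (PiLp 2 (fun _ : ι => H))) ⊆
        (diag ι b) ⁻¹' (V : Set _) := by
      rintro _ ⟨a, ha, rfl⟩
      refine Submodule.le_topologicalClosure _ ⟨b * a, spanEig_mul hb ha, ?_⟩
      rw [hL, hL]
      ext i
      rfl
    exact closure_minimal h1 ((Submodule.isClosed_topologicalClosure _).preimage
      (diag ι b).continuous) hx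
  have hinv' : ∀ b ∈ spanEig N ξ, ∀ x ∈ Vᗮ, diag ι b x ∈ Vᗮ := by
    intro b hb x hx
    rw [Submodule.mem_orthogonal] at hx ⊢
    intro u hu
    have := hx _ (hinv _ (spanEig_star hb) u hu)
    rw [inner_diag, star_star] at this
    exact this
  have hcomm : ∀ b ∈ spanEig N ξ, ∀ x, P (diag ι b x) = diag ι b (P x) := by
    intro b hb x
    refine Submodule.eq_starProjection_of_mem_orthogonal (K := V) ?_ ?_
    · exact hinv b hb _ (Submodule.starProjection_apply_mem V x)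
    · rw [← map_sub]
      exact hinv' b hb _ (Submodule.sub_starProjection_mem_orthogonal x)
  -- entries
  let T : ι → ι → (H →L[ℂ] H) := fun i j =>
    (PiLp.proj 2 (fun _ : ι => H) i).comp (P.comp (sing ι j))
  have hT : ∀ i j h, T i j h = P (sing ι j h) i := fun i j h => rfl
  have hTmem : ∀ i j, T i j ∈ N.commutant := by
    intro i j
    refine hAP _ fun γ hγ b hb => ?_
    ext h
    change b (P (sing ι j h) i) = P (sing ι j (b h)) i
    rw [← diag_sing, hcomm b (eig_le_spanEig hγ hb)]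
    rfl
  have hcommc : ∀ x, P (diag ι c x) = diag ι c (P x) := by
    intro x
    have hx := sum_sing x
    have h1 : diag ι c x = ∑ j, sing ι j (c (x j)) := by
      conv_lhs => rw [hx]
      rw [map_sum]
      exact Finset.sum_congr rfl fun j _ => diag_sing _ _ _
    have h2 : P (diag ι c x) = ∑ j, P (sing ι j (c (x j))) := by rw [h1, map_sum]
    have h3 : P x = ∑ j, P (sing ι j (x j)) := by
      conv_lhs => rw [hx]
      rw [map_sum]
    rw [h2, h3, map_sum]
    refine Finset.sum_congr rfl fun j _ => ?_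
    ext i
    rw [diag_apply]
    change T i j (c (x j)) = c (T i j (x j))
    exact (commute_apply hc (hTmem i j) _).symm
  have hvecV : vec ∈ V := by
    refine Submodule.le_topologicalClosure _ ⟨1, spanEig_one, ?_⟩
    rw [hL]
    ext i
    rfl
  have hcvec : diag ι c vec ∈ V := by
    have h1 : P vec = vec := Submodule.starProjection_eq_self_iff.2 hvecV
    rw [← h1, ← hcommc]
    exact Submodule.starProjection_apply_mem V _
  have hcl : diag ι c vec ∈ closure (((spanEig N ξ).map L : Submodule ℂ _) :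
      Set (PiLp 2 (fun _ : ι => H))) := hcvec
  obtain ⟨_, ⟨a, ha, rfl⟩, hdist⟩ := Metric.mem_closure_iff.1 hcl ε hε
  refine ⟨a, ha, fun i => ?_⟩
  rw [dist_eq_norm] at hdist
  have h4 : ‖(diag ι c vec - L a) i‖ ≤ ‖diag ι c vec - L a‖ := PiLp.norm_apply_le _ i
  have h5 : (diag ι c vec - L a) i = c (η i) - a (η i) := rfl
  rw [h5, norm_sub_rev] at h4
  exact lt_of_le_of_lt h4 hdist

end Density

/-- Approximation on one vector. -/
lemma exists_spanEig_near_one (hAP : AlmostPeriodic N ξ) (η : H) {c : H →L[ℂ] H} (hc : c ∈ N)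
    {ε : ℝ} (hε : 0 < ε) : ∃ a ∈ spanEig N ξ, ‖a η - c η‖ < ε := by
  obtain ⟨a, ha, h⟩ := exists_spanEig_near (ι := Unit) hAP (fun _ => η) hc hε
  exact ⟨a, ha, h ()⟩

/-- Approximation on two vectors. -/
lemma exists_spanEig_near_two (hAP : AlmostPeriodic N ξ) (η₁ η₂ : H) {c : H →L[ℂ] H} (hc : c ∈ N)
    {ε : ℝ} (hε : 0 < ε) : ∃ a ∈ spanEig N ξ, ‖a η₁ - c η₁‖ < ε ∧ ‖a η₂ - c η₂‖ < ε := by
  obtain ⟨a, ha, h⟩ := exists_spanEig_near (ι := Fin 2) hAP ![η₁, η₂] hc hε
  exact ⟨a, ha, h 0, h 1⟩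

/-- An equality of two vector functionals on eigenoperators extends to `N`. -/
lemma functional_eq_of_eig (hAP : AlmostPeriodic N ξ) {v₁ v₂ w₁ w₂ : H} {k : ℂ}
    (h : ∀ γ : ℝ, 0 < γ → ∀ a ∈ eig N ξ γ, ⟪v₁, a w₁⟫_ℂ = k * ⟪v₂, a w₂⟫_ℂ)
    {c : H →L[ℂ] H} (hc : c ∈ N) : ⟪v₁, c w₁⟫_ℂ = k * ⟪v₂, c w₂⟫_ℂ := by
  have h1 : ∀ a ∈ spanEig N ξ, ⟪v₁, a w₁⟫_ℂ = k * ⟪v₂, a w₂⟫_ℂ := by
    intro a ha
    induction ha using Submodule.span_induction with
    | mem x hx =>
      obtain ⟨γ, hγ, hx⟩ := hx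
      exact h γ hγ x hx
    | zero => simp
    | add x y _ _ hx hy => simp only [add_apply, inner_add_right, hx, hy]; ring
    | smul c x _ hx => simp only [smul_apply, inner_smul_right, hx]; ring
  by_contra hne
  have hpos : 0 < ‖⟪v₁, c w₁⟫_ℂ - k * ⟪v₂, c w₂⟫_ℂ‖ := norm_pos_iff.2 (sub_ne_zero.2 hne)
  set D := ‖⟪v₁, c w₁⟫_ℂ - k * ⟪v₂, c w₂⟫_ℂ‖
  set C := ‖v₁‖ + ‖k‖ * ‖v₂‖ + 1 with hC
  have hCpos : 0 < C := by positivity
  obtain ⟨a, ha, h2, h3⟩ := exists_spanEig_near_two hAP w₁ w₂ hc (ε := D / C) (by positivity)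
  have h4 : ⟪v₁, c w₁⟫_ℂ - k * ⟪v₂, c w₂⟫_ℂ =
      -⟪v₁, a w₁ - c w₁⟫_ℂ + k * ⟪v₂, a w₂ - c w₂⟫_ℂ := by
    rw [inner_sub_right, inner_sub_right, h1 a ha]
    ring
  have h5 : D ≤ ‖v₁‖ * ‖a w₁ - c w₁‖ + ‖k‖ * (‖v₂‖ * ‖a w₂ - c w₂‖) := by
    calc D = ‖-⟪v₁, a w₁ - c w₁⟫_ℂ + k * ⟪v₂, a w₂ - c w₂⟫_ℂ‖ := by rw [← h4]
      _ ≤ ‖-⟪v₁, a w₁ - c w₁⟫_ℂ‖ + ‖k * ⟪v₂, a w₂ - c w₂⟫_ℂ‖ := norm_add_le _ _
      _ ≤ _ := by
          rw [norm_neg, norm_mul]
          gcongr
          · exact norm_inner_le_norm _ _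
          · exact norm_inner_le_norm _ _
  have h6 : ‖v₁‖ * ‖a w₁ - c w₁‖ + ‖k‖ * (‖v₂‖ * ‖a w₂ - c w₂‖) ≤
      (‖v₁‖ + ‖k‖ * ‖v₂‖) * (D / C) := by
    have e1 := mul_le_mul_of_nonneg_left h2.le (norm_nonneg v₁)
    have e2 := mul_le_mul_of_nonneg_left h3.le (mul_nonneg (norm_nonneg k) (norm_nonneg v₂))
    nlinarith
  have h7 : (‖v₁‖ + ‖k‖ * ‖v₂‖) * (D / C) < C * (D / C) := by
    apply mul_lt_mul_of_pos_right _ (by positivity)
    rw [hC]; linarith
  rw [mul_div_cancel₀ _ hCpos.ne'] at h7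
  linarith

end Pool.Agent.Helper23
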