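import Pool.Agent.Helper23.Basic
import Pool.Agent.Helper23.Eigen

/-!
# Close vector states on `N` are implemented by contractions of the commutant
-/

open scoped InnerProductSpace ComplexOrder ComplexStarModule
open ContinuousLinearMap

namespace Pool.Agent.Helper23

variable {H : Type*} [NormedAddCommGroup H] [InnerProductSpace ℂ H] [CompleteSpace H]

lemma exists_ext' {F K L : Type*} [AddCommGroup F] [Module ℂ F] [NormedAddCommGroup K]
    [NormedSpace ℂ K] [NormedAddCommGroup L] [NormedSpace ℂ L] [CompleteSpace L]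
    (f : F →ₗ[ℂ] L) (e : F →ₗ[ℂ] K) (hd : DenseRange e)
    {C : ℝ} (hC : 0 ≤ C) (h : ∀ t, ‖f t‖ ≤ C * ‖e t‖) :
    ∃ z : K →L[ℂ] L, (∀ t, z (e t) = f t) ∧ ‖z‖ ≤ C :=
  ⟨f.extendOfNorm e, fun t => LinearMap.extendOfNorm_eq hd ⟨C, h⟩ t,
    LinearMap.opNorm_extendOfNorm_le hd hC h⟩

section Jordan

variable {A : Type*} [CStarAlgebra A] [PartialOrder A] [StarOrderedRing A]

/-- A weak form of the Jordan decomposition (with constant `3`). -/
theorem exists_jordan (ω : A →ₗ[ℂ] ℂ) (hω : ∀ x : A, 0 ≤ x → 0 ≤ (ω x).re)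
    (hω1 : 0 < (ω 1).re)
    (ψ : selfAdjoint A →ₗ[ℝ] ℝ) {δ : ℝ} (hδ : ∀ x : selfAdjoint A, |ψ x| ≤ δ * ‖x‖)
    (hδ0 : 0 ≤ δ) :
    ∃ κ : selfAdjoint A →ₗ[ℝ] ℝ, (∀ x : selfAdjoint A, 0 ≤ (x : A) → 0 ≤ κ x) ∧
      (∀ x : selfAdjoint A, 0 ≤ (x : A) → ψ x ≤ κ x) ∧ κ 1 ≤ 3 * δ := by
  let V := selfAdjoint A
  let L : (V × ℝ) →ₗ[ℝ] (V × V) :=
    { toFun := fun p => (p.1 + p.2 • (1 : V), -p.1 + p.2 • (1 : V))
      map_add' := by
        intro p q
        ext <;> simp [add_smul] <;> abel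
      map_smul' := by
        intro c p
        ext <;> simp [smul_add, mul_smul] }
  have hLinj : Function.Injective L := by
    rw [← LinearMap.ker_eq_bot, LinearMap.ker_eq_bot']
    rintro ⟨x, t⟩ h
    have h1 : x + t • (1 : V) = 0 := congrArg Prod.fst h
    have h2 : -x + t • (1 : V) = 0 := congrArg Prod.snd h
    have h3 : (2 * t) • (1 : V) = 0 := by
      have : (x + t • (1 : V)) + (-x + t • (1 : V)) = 0 := by rw [h1, h2, add_zero]
      rw [two_mul, add_smul, ← this]; abel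
    have h4 : t = 0 := by
      have h5 : ((2 * t) • (1 : A)) = 0 := congrArg (fun v : V => (v : A)) h3
      have h6 : (ω ((2 * t) • (1 : A))).re = 2 * t * (ω 1).re := by
        rw [← Complex.coe_smul (E := A), map_smul, smul_eq_mul, Complex.re_ofReal_mul]
      rw [h5, map_zero, Complex.zero_re] at h6
      have := mul_eq_zero.1 h6.symm
      rcases this with h | h
      · linarith
      · exact absurd h hω1.ne'
    subst h4
    rw [zero_smul, add_zero] at h1
    rw [h1]; rfl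
  let e := LinearEquiv.ofInjective L hLinj
  let g₀ : (V × ℝ) →ₗ[ℝ] ℝ := ψ.comp (LinearMap.fst ℝ V ℝ) + (3 * δ) • LinearMap.snd ℝ V ℝ
  have hg₀ : ∀ x t, g₀ (x, t) = ψ x + 3 * δ * t := by
    intro x t
    simp [g₀]
  let f : (V × V) →ₗ.[ℝ] ℝ := ⟨LinearMap.range L, g₀.comp e.symm.toLinearMap⟩
  have hf : ∀ x t, f ⟨L (x, t), ⟨(x, t), rfl⟩⟩ = ψ x + 3 * δ * t := by
    intro x t
    have h1 : e (x, t) = ⟨L (x, t), ⟨(x, t), rfl⟩⟩ := by
      apply Subtype.ext
      exact LinearEquiv.ofInjective_apply (f := L) (h := hLinj) _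
    change g₀ (e.symm ⟨L (x, t), ⟨(x, t), rfl⟩⟩) = _
    rw [← h1, LinearEquiv.symm_apply_apply, hg₀]
  let s : PointedCone ℝ (V × V) :=
    { carrier := {p | 0 ≤ (p.1 : A) ∧ 0 ≤ (p.2 : A)}
      add_mem' := by
        rintro p q ⟨h1, h2⟩ ⟨h3, h4⟩
        exact ⟨add_nonneg h1 h3, add_nonneg h2 h4⟩
      zero_mem' := ⟨le_rfl, le_rfl⟩
      smul_mem' := by
        rintro c p ⟨h1, h2⟩
        exact ⟨smul_nonneg c.2 h1, smul_nonneg c.2 h2⟩ }
  have hs : ∀ p : V × V, p ∈ s ↔ 0 ≤ (p.1 : A) ∧ 0 ≤ (p.2 : A) := fun p => Iff.rfl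
  obtain ⟨g, hgf, hgs⟩ := riesz_extension s f (by
    rintro ⟨_, ⟨⟨x, t⟩, rfl⟩⟩ hx
    rw [hf]
    obtain ⟨h1, h2⟩ := (hs _).1 hx
    change 0 ≤ (x : A) + t • (1 : A) at h1
    change 0 ≤ -(x : A) + t • (1 : A) at h2
    have ht : 0 ≤ t := by
      have h3 := hω _ (add_nonneg h1 h2)
      have h4 : (x : A) + t • (1 : A) + (-(x : A) + t • (1 : A)) = (2 * t) • (1 : A) := by
        rw [two_mul, add_smul]; abel
      rw [h4, ← Complex.coe_smul (E := A), map_smul, smul_eq_mul, Complex.re_ofReal_mul] at h3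
      have := nonneg_of_mul_nonneg_left h3 hω1
      linarith
    have h5 : (x : A) + t • (1 : A) ≤ algebraMap ℝ A (2 * t) := by
      rw [Algebra.algebraMap_eq_smul_one, two_mul, add_smul]
      have : (x : A) ≤ t • (1 : A) := by
        have := add_le_add_left h2 (x : A)
        simpa [add_comm, add_assoc] using this
      exact add_le_add_left this _
    have h6 : ‖(x : A) + t • (1 : A)‖ ≤ 2 * t :=
      (CStarAlgebra.norm_le_iff_le_algebraMap _ (by linarith) h1).2 h5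
    have h7 : ‖(x : A)‖ ≤ 3 * t := by
      have h8 : ‖t • (1 : A)‖ ≤ t := by
        rw [norm_smul, Real.norm_of_nonneg ht]
        have : ‖(1 : A)‖ ≤ 1 := by
          rcases subsingleton_or_nontrivial A with h | h
          · rw [Subsingleton.elim (1 : A) 0, norm_zero]; exact zero_le_one
          · exact CStarRing.norm_one.le
        nlinarith
      calc ‖(x : A)‖ = ‖((x : A) + t • (1 : A)) - t • (1 : A)‖ := by rw [add_sub_cancel_right]
        _ ≤ ‖(x : A) + t • (1 : A)‖ + ‖t • (1 : A)‖ := norm_sub_le _ _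
        _ ≤ 3 * t := by linarith
    have h9 := hδ x
    have h10 : ‖x‖ = ‖(x : A)‖ := rfl
    rw [h10] at h9
    have h11 : δ * ‖(x : A)‖ ≤ δ * (3 * t) := mul_le_mul_of_nonneg_left h7 hδ0
    have := neg_abs_le (ψ x)
    linarith) (by
    rintro ⟨a, b⟩
    set t : ℝ := ‖(a : A)‖ + ‖(b : A)‖ with ht
    refine ⟨⟨L (0, t), ⟨(0, t), rfl⟩⟩, (hs _).2 ⟨?_, ?_⟩⟩
    · change 0 ≤ (0 : A) + t • (1 : A) + (a : A)
      have h1 := IsSelfAdjoint.neg_algebraMap_norm_le_self (a := (a : A)) a.2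
      have h2 : algebraMap ℝ A ‖(a : A)‖ ≤ t • (1 : A) := by
        rw [Algebra.algebraMap_eq_smul_one]
        exact smul_le_smul_of_nonneg_right (by rw [ht]; linarith [norm_nonneg (b : A)])
          zero_le_one
      rw [zero_add]
      have h3 : 0 ≤ algebraMap ℝ A ‖(a : A)‖ + (a : A) := by
        have := add_le_add_left h1 (algebraMap ℝ A ‖(a : A)‖)
        simpa [add_comm] using this
      exact h3.trans (add_le_add_left h2 _)
    · change 0 ≤ -(0 : A) + t • (1 : A) + (b : A)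
      have h1 := IsSelfAdjoint.neg_algebraMap_norm_le_self (a := (b : A)) b.2
      have h2 : algebraMap ℝ A ‖(b : A)‖ ≤ t • (1 : A) := by
        rw [Algebra.algebraMap_eq_smul_one]
        exact smul_le_smul_of_nonneg_right (by rw [ht]; linarith [norm_nonneg (a : A)])
          zero_le_one
      rw [neg_zero, zero_add]
      have h3 : 0 ≤ algebraMap ℝ A ‖(b : A)‖ + (b : A) := by
        have := add_le_add_left h1 (algebraMap ℝ A ‖(b : A)‖)
        simpa [add_comm] using this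
      exact h3.trans (add_le_add_left h2 _))
  have hκpos : ∀ x : V, 0 ≤ (x : A) → 0 ≤ g (x, 0) := fun x hx => hgs _ ((hs _).2 ⟨hx, le_rfl⟩)
  have hκ2pos : ∀ x : V, 0 ≤ (x : A) → 0 ≤ g (0, x) := fun x hx => hgs _ ((hs _).2 ⟨le_rfl, hx⟩)
  have hdiff : ∀ x : V, g (x, 0) - g (0, x) = ψ x := by
    intro x
    have h1 := hgf ⟨L (x, 0), ⟨(x, 0), rfl⟩⟩
    rw [hf] at h1
    have h2 : (L (x, 0) : V × V) = (x, 0) - (0, x) := by
      ext <;> simp [L]
    change g (L (x, 0)) = _ at h1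
    rw [h2, map_sub] at h1
    linarith
  have hsum : g (1, 0) + g (0, 1) = 3 * δ := by
    have h1 := hgf ⟨L (0, 1), ⟨(0, 1), rfl⟩⟩
    rw [hf] at h1
    have h2 : (L (0, 1) : V × V) = (1, 0) + (0, 1) := by
      ext <;> simp [L]
    change g (L (0, 1)) = _ at h1
    rw [h2, map_add, map_zero] at h1
    linarith
  refine ⟨g.comp (LinearMap.inl ℝ V V), fun x hx => hκpos x hx, fun x hx => ?_, ?_⟩
  · have h1 := hdiff x
    have h2 := hκ2pos x hx
    change ψ x ≤ g (x, 0)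
    linarith
  · change g (1, 0) ≤ 3 * δ
    have h2 : 0 ≤ g (0, 1) := hκ2pos 1 zero_le_one
    linarith

end Jordan

end Pool.Agent.Helper23
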