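import Pool.Agent.Helper23.Dom

/-!
# Close vector states are implemented by contractions of the commutant
-/

open scoped InnerProductSpace ComplexOrder ComplexStarModule
open ContinuousLinearMap

namespace Pool.Agent.Helper23

variable {H : Type*} [NormedAddCommGroup H] [InnerProductSpace ℂ H] [CompleteSpace H]

section Abstract

variable {A : Type*} [CStarAlgebra A]

/-- complexification of a real-linear functional on the self-adjoint part -/
noncomputable def cplx (κ : selfAdjoint A →ₗ[ℝ] ℝ) : A →ₗ[ℂ] ℂ where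
  toFun x := (κ (ℜ x) : ℂ) + Complex.I * (κ (ℑ x) : ℂ)
  map_add' x y := by
    simp only [map_add]
    push_cast
    ring
  map_smul' c x := by
    simp only [realPart_smul, imaginaryPart_smul, map_sub, map_add, map_smul, smul_eq_mul,
      RingHom.id_apply]
    apply Complex.ext
    · simp
    · simp

lemma cplx_apply (κ : selfAdjoint A →ₗ[ℝ] ℝ) (x : A) :
    cplx κ x = (κ (ℜ x) : ℂ) + Complex.I * (κ (ℑ x) : ℂ) := rfl

lemma cplx_sa (κ : selfAdjoint A →ₗ[ℝ] ℝ) (x : selfAdjoint A) :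
    cplx κ (x : A) = (κ x : ℂ) := by
  rw [cplx_apply, selfAdjoint.imaginaryPart_coe]
  have h : ℜ (x : A) = x := by
    apply Subtype.ext
    exact x.property.coe_realPart
  rw [h, map_zero]
  simp

/-- vector functional as a linear map -/
noncomputable def vecL (ρ : A →⋆ₐ[ℂ] (H →L[ℂ] H)) (ξ : H) : A →ₗ[ℂ] ℂ where
  toFun x := ⟪ξ, ρ x ξ⟫_ℂ
  map_add' x y := by
    rw [map_add, add_apply, inner_add_right]
  map_smul' c x := by
    rw [map_smul, smul_apply, inner_smul_right]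
    rfl

/-- evaluation as a linear map -/
noncomputable def evR (ρ : A →⋆ₐ[ℂ] (H →L[ℂ] H)) (ξ : H) : A →ₗ[ℂ] H where
  toFun x := ρ x ξ
  map_add' x y := by
    rw [map_add, add_apply]
  map_smul' c x := by
    rw [map_smul, smul_apply]
    rfl

lemma vecL_star_mul (ρ : A →⋆ₐ[ℂ] (H →L[ℂ] H)) (ξ : H) (x : A) :
    vecL ρ ξ (star x * x) = ((‖ρ x ξ‖ ^ 2 : ℝ) : ℂ) := by
  change ⟪ξ, ρ (star x * x) ξ⟫_ℂ = _
  rw [map_mul, map_star]
  change ⟪ξ, (star (ρ x)) (ρ x ξ)⟫_ℂ = _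
  rw [← norm_sq_apply]

variable [PartialOrder A] [StarOrderedRing A]

/-- The extension of `[x] ↦ ρ(x) ζ` to the GNS space of a functional dominating the vector
functional of `ζ`. -/
lemma exists_gns_op (ρ : A →⋆ₐ[ℂ] (H →L[ℂ] H)) (ζ : H) (χ : A →ₚ[ℂ] ℂ)
    (h : ∀ x : A, ‖ρ x ζ‖ ^ 2 ≤ (χ (star x * x)).re) :
    ∃ T : χ.GNS →L[ℂ] H, (∀ x : A, T ((χ.toPreGNS x : χ.PreGNS) : χ.GNS) = ρ x ζ) ∧
      ‖T‖ ≤ 1 ∧ ∀ a : A, ∀ v : χ.GNS, T (χ.gnsStarAlgHom a v) = ρ a (T v) := by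
  let e : A →ₗ[ℂ] χ.GNS :=
    (UniformSpace.Completion.toComplL (𝕜 := ℂ) (E := χ.PreGNS)).toLinearMap ∘ₗ
      χ.toPreGNS.toLinearMap
  have he : ∀ x, e x = ((χ.toPreGNS x : χ.PreGNS) : χ.GNS) := fun x => rfl
  have hd : DenseRange e := by
    have h1 : DenseRange ((↑) : χ.PreGNS → χ.GNS) := UniformSpace.Completion.denseRange_coe
    have h2 : Set.range e = Set.range ((↑) : χ.PreGNS → χ.GNS) := by
      ext v
      constructor
      · rintro ⟨x, rfl⟩
        exact ⟨χ.toPreGNS x, rfl⟩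
      · rintro ⟨x, rfl⟩
        exact ⟨χ.ofPreGNS x, rfl⟩
    rw [DenseRange, h2]
    exact h1
  have hbound : ∀ x : A, ‖evR ρ ζ x‖ ≤ 1 * ‖e x‖ := by
    intro x
    rw [one_mul, he, UniformSpace.Completion.norm_coe]
    refine (pow_le_pow_iff_left₀ (norm_nonneg _) (norm_nonneg _) two_ne_zero).1 ?_
    have h1 := χ.preGNS_norm_sq (χ.toPreGNS x)
    rw [PositiveLinearMap.ofPreGNS_toPreGNS] at h1
    have h2 : ‖χ.toPreGNS x‖ ^ 2 = (χ (star x * x)).re := by
      rw [← h1]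
      norm_cast
    rw [h2]
    exact h x
  obtain ⟨T, hT, hT1⟩ := exists_ext' (evR ρ ζ) e hd zero_le_one hbound
  refine ⟨T, hT, hT1, fun a v => ?_⟩
  have hcl : IsClosed {v : χ.GNS | T (χ.gnsStarAlgHom a v) = ρ a (T v)} :=
    isClosed_eq (T.continuous.comp (χ.gnsStarAlgHom a).continuous)
      ((ρ a).continuous.comp T.continuous)
  have hsub : Set.range e ⊆ {v : χ.GNS | T (χ.gnsStarAlgHom a v) = ρ a (T v)} := by
    rintro _ ⟨x, rfl⟩
    change T (χ.gnsStarAlgHom a (e x)) = ρ a (T (e x))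
    have h3 : χ.gnsStarAlgHom a (e x) = e (a * x) := by
      rw [he, he]
      change χ.gnsNonUnitalStarAlgHom a _ = _
      rw [PositiveLinearMap.gnsNonUnitalStarAlgHom_apply_coe]
      rfl
    rw [h3, hT, hT]
    change ρ (a * x) ζ = ρ a (ρ x ζ)
    rw [map_mul]
    rfl
  exact closure_minimal hsub hcl (hd v)

/-- Close vector states are implemented, approximately, by a contraction of the commutant. -/
theorem exists_near_comm_abs (ρ : A →⋆ₐ[ℂ] (H →L[ℂ] H)) {ξ η : H} (hξ : ‖ξ‖ = 1)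
    {δ : ℝ} (hδ : 0 ≤ δ) (h : ∀ x : A, ‖⟪η, ρ x η⟫_ℂ - ⟪ξ, ρ x ξ⟫_ℂ‖ ≤ δ * ‖x‖) :
    ∃ y : H →L[ℂ] H, (∀ a, ρ a * y = y * ρ a) ∧ ‖y‖ ≤ 1 ∧ ‖y ξ - η‖ ^ 2 ≤ 3 * δ := by
  have hpos : ∀ (ζ : H) (x : A), 0 ≤ x → 0 ≤ (vecL ρ ζ x).re ∧ (vecL ρ ζ x).im = 0 := by
    intro ζ x hx
    obtain ⟨b, rfl⟩ := CStarAlgebra.nonneg_iff_eq_star_mul_self.1 hx
    rw [vecL_star_mul]
    exact ⟨by rw [Complex.ofReal_re]; positivity, Complex.ofReal_im _⟩
  have h1 : (vecL ρ ξ 1).re = 1 := by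
    change (⟪ξ, ρ 1 ξ⟫_ℂ).re = 1
    rw [map_one, one_apply_eq_self, inner_self_eq_norm_sq_to_K, hξ]
    simp
  let ψ : selfAdjoint A →ₗ[ℝ] ℝ :=
    { toFun := fun x => (vecL ρ η (x : A)).re - (vecL ρ ξ (x : A)).re
      map_add' := by
        intro x y
        have : ((x + y : selfAdjoint A) : A) = (x : A) + (y : A) := rfl
        rw [this, map_add, map_add, Complex.add_re, Complex.add_re]
        ring
      map_smul' := by
        intro c x
        have : ((c • x : selfAdjoint A) : A) = (c : ℂ) • (x : A) := by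
          rw [Complex.coe_smul]; rfl
        rw [this, map_smul, map_smul]
        simp only [smul_eq_mul, Complex.re_ofReal_mul, RingHom.id_apply]
        ring }
  have hψ : ∀ x : selfAdjoint A, ψ x = (vecL ρ η (x : A)).re - (vecL ρ ξ (x : A)).re :=
    fun x => rfl
  obtain ⟨κ, hκ0, hκ1, hκ2⟩ := exists_jordan (vecL ρ ξ) (fun x hx => (hpos ξ x hx).1)
    (by rw [h1]; exact one_pos) ψ (δ := δ) (by
      intro x
      rw [hψ, ← Complex.sub_re]
      exact (Complex.abs_re_le_norm _).trans (h (x : A))) hδ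
  have hκx : ∀ (x : A) (hx : 0 ≤ x), cplx κ x = ((κ ⟨x, (IsSelfAdjoint.of_nonneg hx)⟩ : ℝ) : ℂ) :=
    fun x hx => cplx_sa κ ⟨x, (IsSelfAdjoint.of_nonneg hx)⟩
  have hre : ∀ (ζ : H) (x : A), 0 ≤ x → vecL ρ ζ x = (((vecL ρ ζ x).re : ℝ) : ℂ) := by
    intro ζ x hx
    apply Complex.ext
    · simp
    · simp [(hpos ζ x hx).2]
  let χ : A →ₚ[ℂ] ℂ := PositiveLinearMap.mk₀ (vecL ρ ξ + cplx κ) (by
    intro x hx
    rw [LinearMap.add_apply, hκx x hx, hre ξ x hx, ← Complex.ofReal_add]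
    rw [Complex.zero_le_real]
    exact add_nonneg (hpos ξ x hx).1 (hκ0 _ hx))
  have hχ : ∀ x, χ x = vecL ρ ξ x + cplx κ x := fun x => rfl
  have hχre : ∀ (x : A) (hx : 0 ≤ x), (χ x).re = (vecL ρ ξ x).re +
      κ ⟨x, (IsSelfAdjoint.of_nonneg hx)⟩ := by
    intro x hx
    rw [hχ, Complex.add_re, hκx x hx, Complex.ofReal_re]
  obtain ⟨T, hT, hT1, hTρ⟩ := exists_gns_op ρ ξ χ (by
    intro x
    rw [hχre _ (star_mul_self_nonneg x), vecL_star_mul, Complex.ofReal_re]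
    have := hκ0 ⟨star x * x, IsSelfAdjoint.of_nonneg (star_mul_self_nonneg x)⟩
      (star_mul_self_nonneg x)
    linarith)
  obtain ⟨U, hU, hU1, hUρ⟩ := exists_gns_op ρ η χ (by
    intro x
    rw [hχre _ (star_mul_self_nonneg x)]
    have := hκ1 ⟨star x * x, IsSelfAdjoint.of_nonneg (star_mul_self_nonneg x)⟩
      (star_mul_self_nonneg x)
    rw [hψ, vecL_star_mul, Complex.ofReal_re] at this
    linarith)
  -- adjoint intertwining
  have hTadj : ∀ (a : A) (v : H), (ContinuousLinearMap.adjoint T) (ρ a v) =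
      χ.gnsStarAlgHom a ((ContinuousLinearMap.adjoint T) v) := by
    intro a v
    apply ext_inner_right ℂ
    intro w
    rw [ContinuousLinearMap.adjoint_inner_left]
    have h2 : χ.gnsStarAlgHom a = star (χ.gnsStarAlgHom (star a)) := by
      rw [← map_star, star_star]
    rw [h2, ContinuousLinearMap.star_eq_adjoint, ContinuousLinearMap.adjoint_inner_left,
      ContinuousLinearMap.adjoint_inner_left, hTρ, map_star, inner_star_right]
  set e1 : χ.GNS := ((χ.toPreGNS 1 : χ.PreGNS) : χ.GNS) with he1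
  have hTe : T e1 = ξ := by rw [he1, hT, map_one]; rfl
  have hUe : U e1 = η := by rw [he1, hU, map_one]; rfl
  have hne : ‖e1‖ ^ 2 ≤ 1 + 3 * δ := by
    rw [he1, UniformSpace.Completion.norm_coe]
    have h3 := χ.preGNS_norm_sq (χ.toPreGNS 1)
    rw [PositiveLinearMap.ofPreGNS_toPreGNS, star_one, one_mul] at h3
    have h2 : ‖χ.toPreGNS (1 : A)‖ ^ 2 = (χ 1).re := by
      rw [← h3]
      norm_cast
    rw [h2, hχre 1 zero_le_one, h1]
    have : (⟨1, (IsSelfAdjoint.of_nonneg (zero_le_one : (0 : A) ≤ 1))⟩ : selfAdjoint A) = 1 := rfl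
    rw [this]
    linarith
  refine ⟨U.comp (ContinuousLinearMap.adjoint T), fun a => ?_, ?_, ?_⟩
  · ext v
    change ρ a (U ((ContinuousLinearMap.adjoint T) v)) =
      U ((ContinuousLinearMap.adjoint T) (ρ a v))
    rw [hTadj, hUρ]
  · calc ‖U.comp (ContinuousLinearMap.adjoint T)‖ ≤ ‖U‖ * ‖ContinuousLinearMap.adjoint T‖ :=
          ContinuousLinearMap.opNorm_comp_le _ _
      _ ≤ 1 * 1 := by
          gcongr
          rw [LinearIsometryEquiv.norm_map]
          exact hT1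
      _ = 1 := one_mul 1
  · have h4 : (U.comp (ContinuousLinearMap.adjoint T)) ξ - η =
        U ((ContinuousLinearMap.adjoint T) ξ - e1) := by
      rw [map_sub, hUe]
      rfl
    have h5 : ‖(U.comp (ContinuousLinearMap.adjoint T)) ξ - η‖ ≤
        ‖(ContinuousLinearMap.adjoint T) ξ - e1‖ := by
      rw [h4]
      have := U.le_of_opNorm_le hU1 ((ContinuousLinearMap.adjoint T) ξ - e1)
      rwa [one_mul] at this
    have h6 : ‖(ContinuousLinearMap.adjoint T) ξ‖ ≤ 1 := by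
      have h7 : ‖ContinuousLinearMap.adjoint T‖ ≤ 1 := by
        rw [LinearIsometryEquiv.norm_map]
        exact hT1
      have := (ContinuousLinearMap.adjoint T).le_of_opNorm_le h7 ξ
      rwa [hξ, one_mul] at this
    have h8 := @norm_sub_sq ℂ _ _ _ _ ((ContinuousLinearMap.adjoint T) ξ) e1
    rw [ContinuousLinearMap.adjoint_inner_left, hTe, inner_self_eq_norm_sq_to_K, hξ] at h8
    have h9 : ‖(ContinuousLinearMap.adjoint T) ξ - e1‖ ^ 2 ≤ 3 * δ := by
      rw [h8]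
      have h10 : ‖(ContinuousLinearMap.adjoint T) ξ‖ ^ 2 ≤ 1 := by
        have := pow_le_pow_left₀ (norm_nonneg _) h6 2
        simpa using this
      simp only [RCLike.re_to_complex]
      norm_num
      linarith
    exact (pow_le_pow_left₀ (norm_nonneg _) h5 2).trans h9

end Abstract

/-- Close vector states on `N` are implemented by contractions of `N'`. -/
theorem exists_near_comm (N : VonNeumannAlgebra H) {ξ η : H} (hξ : ‖ξ‖ = 1)
    {δ : ℝ} (hδ : 0 ≤ δ) (h : ∀ x ∈ N, ‖⟪η, x η⟫_ℂ - ⟪ξ, x ξ⟫_ℂ‖ ≤ δ * ‖x‖) :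
    ∃ y ∈ N.commutant, ‖y‖ ≤ 1 ∧ ‖y ξ - η‖ ^ 2 ≤ 3 * δ := by
  have : IsClosed (N.toStarSubalgebra : Set (H →L[ℂ] H)) := vN_isClosed N
  let _ : PartialOrder N.toStarSubalgebra := CStarAlgebra.spectralOrder _
  let _ : StarOrderedRing N.toStarSubalgebra := CStarAlgebra.spectralOrderedRing _
  obtain ⟨y, hy, hy1, hy2⟩ := exists_near_comm_abs (A := N.toStarSubalgebra)
    N.toStarSubalgebra.subtype hξ hδ (η := η) (fun x => h x x.2)
  refine ⟨y, ?_, hy1, hy2⟩
  rw [mem_comm_iff]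
  intro g hg
  exact hy ⟨g, hg⟩

end Pool.Agent.Helper23
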