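import Pool.Agent.Helper23.RBFDefs

/-!
# Type III₁ and the bicentralizer of a state
-/

open scoped InnerProductSpace Topology ENNReal
open Filter

namespace Pool.Agent.Helper23.RBF

variable {H : Type*} [NormedAddCommGroup H] [InnerProductSpace ℂ H] [CompleteSpace H]

/-- `N` is of type III₁, in the form of Connes and Størmer: `N` is properly infinite (it contains
two isometries with orthogonal ranges) and any two normal states of `N` are approximately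
unitarily equivalent. The normal states are `x ↦ ⟪η, x η⟫ + ⟪η', x η'⟫` with
`‖η‖² + ‖η'‖² = 1`. -/
def TypeIIIOne (N : VonNeumannAlgebra H) : Prop :=
  (∃ v ∈ N, ∃ w ∈ N, star v * v = 1 ∧ star w * w = 1 ∧ star v * w = 0) ∧
  ∀ η η' ζ ζ' : H, ‖η‖ ^ 2 + ‖η'‖ ^ 2 = 1 → ‖ζ‖ ^ 2 + ‖ζ'‖ ^ 2 = 1 → ∀ ε : ℝ, 0 < ε →
    ∃ u ∈ N, star u * u = 1 ∧ u * star u = 1 ∧ ∀ x ∈ N,
      ‖⟪u η, x (u η)⟫_ℂ + ⟪u η', x (u η')⟫_ℂ - (⟪ζ, x ζ⟫_ℂ + ⟪ζ', x ζ'⟫_ℂ)‖ ≤ ε * ‖x‖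

/-- Connes' bicentralizer `B(N, φ)` of the state `φ = ⟪ξ, · ξ⟫` of `N` is trivial. -/
def TrivialBicentralizer (N : VonNeumannAlgebra H) (ξ : H) : Prop :=
  ∀ x ∈ N, (∀ a, AsympEigen N ξ 1 a → ∀ η : H,
    Tendsto (fun n => (x * a n - a n * x) η) atTop (𝓝 0)) → ∃ c : ℂ, x = c • (1 : H →L[ℂ] H)

end Pool.Agent.Helper23.RBF
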