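import Pool.Agent.Helper23.UBF
import Pool.Agent.Helper23.RBFDefs2

/-!
# Algebras of type III₁ with trivial bicentralizer
-/

open scoped InnerProductSpace Topology ENNReal BoundedContinuousFunction
open ContinuousLinearMap Filter MeasureTheory

namespace Pool.Agent.Helper23

universe u

variable {H : Type u} [NormedAddCommGroup H] [InnerProductSpace ℂ H] [CompleteSpace H]
variable {M N : VonNeumannAlgebra H} {ξ : H} {E : (H →L[ℂ] H) → (H →L[ℂ] H)}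

theorem Setting.bflow (S : Setting M N E ξ) (hN : TypeIIIOne N)
    (TB : ∀ x ∈ Bicent N N ξ, ∃ c : ℂ, x = c • 1) : BFlow M N E ξ := by
  have NN : ∀ l : ℝ, 0 < l → ∃ a, LamSeq N ξ l a ∧ ¬ Tendsto (fun n => a n ξ) atTop (𝓝 0) :=
    fun l hl => hN.exists_lamSeq S.norm_one hl
  obtain ⟨K, i1, i2, i3, MT, NT, ET, ζ, rep, O⟩ := S.exists_Oc
  exact O.bflow S (O.ap S TB NN) fun l hl => O.mem_Gam S NN hl

theorem Setting.conjGK (S : Setting M N E ξ) : ConjGK N ξ := by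
  obtain ⟨R, D, Ψ, hΨ, hN⟩ := S.exists_modular
  refine ⟨fco fun t : ℝ => Ψ (expB (2 * Real.pi * t)),
    fco fun t : ℝ => Ψ (expB (-(2 * Real.pi * t))), hΨ.W_star, hΨ.W_mul, hΨ.W_mul',
    fun u hu hu1 hu2 => ?_⟩
  rw [← hΨ.conj_eq]
  exact S.fco_mem_GK hΨ hN hu hu1 hu2

open RBF in
theorem Setting.main_trivial (S : Setting M N E ξ) (hN : TypeIIIOne N)
    (TB : ∀ x ∈ Bicent N N ξ, ∃ c : ℂ, x = c • 1) :
    IsRelativeBicentralizerFlow N ξ S.Balg (btU M N ξ) ∧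
    ∃ ψ : (H →L[ℂ] H) → ℝ≥0∞, IsDominant N ψ ∧
      ∃ π : (H →L[ℂ] H) → (H →L[ℂ] H), IsStarIso S.Balg (Calg M N ψ) π ∧
        BoundedStronglyContinuous S.Balg π ∧ IntertwinesFlows N ψ S.Balg (btU M N ξ) π ∧
        ∀ x ∈ S.Balg, E (π x) = ⟪ξ, x ξ⟫_ℂ • (1 : H →L[ℂ] H) := by
  have B := S.bflow hN TB
  exact ⟨B.isRelativeBicentralizerFlow, B.main_iso hN.1 S.conjGK⟩

end Pool.Agent.Helper23
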