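import Pool.Agent.Helper23.TTDefs
import Pool.Agent.Helper95.TTC

/-!
# Modular data with a bounded functional calculus of `log Δ`
-/

open scoped InnerProductSpace Topology BoundedContinuousFunction
open ContinuousLinearMap Filter MeasureTheory

namespace Pool.Agent.Helper23

variable {H : Type*} [NormedAddCommGroup H] [InnerProductSpace ℂ H] [CompleteSpace H]

/-- the function `e^{i t ρ}` -/
noncomputable def expB (t : ℝ) : ℝ →ᵇ ℂ :=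
  BoundedContinuousFunction.ofNormedAddCommGroup
    (fun ρ : ℝ => Complex.exp ((t * ρ : ℝ) * Complex.I)) (by fun_prop) 1 (by
      intro ρ
      rw [Complex.norm_exp_ofReal_mul_I])

/-- modular data of `(A, ξ)` with a bounded functional calculus of `log Δ`. -/
structure Modular (A : VonNeumannAlgebra H) (ξ : H) (R : H →L[ℂ] H) (D : H →L[ℝ] H)
    (Ψ : (ℝ →ᵇ ℂ) →⋆ₐ[ℂ] (H →L[ℂ] H)) : Prop where
  data : TTData A ξ R D
  psi_FR : Ψ FR = R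
  psi_comm : ∀ X : H →L[ℂ] H, X * R = R * X → ∀ G, X * Ψ G = Ψ G * X
  psi_D : ∀ G G' : ℝ →ᵇ ℂ, (∀ ρ, G' ρ = (starRingEnd ℂ) (G (-ρ))) →
    ∀ v : H, D (Ψ G v) = Ψ G' (D v)
  psi_cont : ∀ (G : ℕ → (ℝ →ᵇ ℂ)) (G₀ : ℝ →ᵇ ℂ) (C : ℝ), (∀ n, ‖G n‖ ≤ C) →
    (∀ L : ℝ, TendstoUniformlyOn (fun n ρ => G n ρ) (fun ρ => G₀ ρ) atTop (Set.Icc (-L) L)) →
    ∀ v : H, Tendsto (fun n => Ψ (G n) v) atTop (𝓝 (Ψ G₀ v))
  psi_xi : ∀ G : ℝ →ᵇ ℂ, Ψ G ξ = G 0 • ξ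
  mem : ∀ (t : ℝ), ∀ a ∈ A, Ψ (expB t) * a * Ψ (expB (-t)) ∈ A

end Pool.Agent.Helper23
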