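import Pool.Agent.Helper23.Main2

/-!
# Assembly, part 3
-/

open scoped InnerProductSpace Topology ENNReal
open ContinuousLinearMap Filter MeasureTheory

set_option linter.unusedSectionVars false
set_option linter.unusedVariables false

namespace Pool.Agent.Helper23

variable {H : Type*} [NormedAddCommGroup H] [InnerProductSpace ℂ H] [CompleteSpace H]
variable {M N : VonNeumannAlgebra H} {ξ : H} {E : (H →L[ℂ] H) → (H →L[ℂ] H)}

open RBF

lemma scaling_quot {L : Type*} [NormedAddCommGroup L] [InnerProductSpace ℂ L] [CompleteSpace L]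
    {A : VonNeumannAlgebra L} {ψ : (L →L[ℂ] L) → ℝ≥0∞} {l : ℝ} (hl : 0 < l)
    {T U : L →L[ℂ] L} (hT : ScalingUnitary A ψ l T) (hU : ScalingUnitary A ψ l U) :
    ScalingUnitary A ψ 1 (star T * U) := by
  refine ⟨mul_mem (star_mem hT.1) hU.1, ?_, ?_, fun X hX hX0 => ?_⟩
  · rw [star_mul, star_star, mul_assoc, ← mul_assoc T, hT.2.2.1, one_mul, hU.2.1]
  · rw [star_mul, star_star, mul_assoc, ← mul_assoc U, hU.2.2.1, one_mul, hT.2.1]
  · have hpos : 0 ≤ T * X * star T := by
      have := star_left_conjugate_nonneg hX0 (star T)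
      rwa [star_star] at this
    have hmem : T * X * star T ∈ A := mul_mem (mul_mem hT.1 hX) (star_mem hT.1)
    have h1 := hT.2.2.2 _ hmem hpos
    have h2 := hU.2.2.2 _ hmem hpos
    have e1 : star T * (T * X * star T) * T = X := by
      rw [← mul_assoc, ← mul_assoc, hT.2.1, one_mul, mul_assoc, hT.2.1, mul_one]
    have e2 : star (star T * U) * X * (star T * U) = star U * (T * X * star T) * U := by
      rw [star_mul, star_star]; simp only [mul_assoc]
    rw [e1] at h1
    rw [e2, h2, ENNReal.ofReal_one, one_mul, h1]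

namespace AP

variable (S : AP M N E ξ)
include S

lemma tr_piK {x : H →L[ℂ] H} (hx : InB M N ξ x) {l : ℝ} (hl : 0 < l) :
    tr H (-Real.log l) * piK M N ξ x * star (tr H (-Real.log l)) =
      piK M N ξ (bet M N ξ l x) := by
  rw [tr_star, neg_neg]
  ext F : 1
  change tr H (-Real.log l) (piK M N ξ x (tr H (Real.log l) F)) = _
  ext1
  filter_upwards [tr_coe (-Real.log l) (piK M N ξ x (tr H (Real.log l) F)),
    ae_tr (-Real.log l) (S.piK_coe hx (tr H (Real.log l) F)),
    ae_tr (-Real.log l) (tr_coe (Real.log l) F),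
    S.piK_coe (S.InB_bet hx hl) F] with s h1 h2 h3 h4
  rw [h1, h2, h3, h4, S.bet_bet hx (Real.exp_pos s) hl, sub_neg_eq_add, Real.exp_add,
    Real.exp_log hl, add_sub_cancel_right]

lemma piK_inj {x y : H →L[ℂ] H} (hx : InB M N ξ x) (hy : InB M N ξ y)
    (h : piK M N ξ x = piK M N ξ y) : x = y := by
  have h1 : piK M N ξ (x + (-1 : ℂ) • y) = 0 := by
    rw [S.piK_add hx (S.InB_smul _ hy), S.piK_smul _ hy, h]
    simp
  have hxy := S.InB_add hx (S.InB_smul (-1) hy)
  have h2 := S.inner_piK_ten hxy hxy e0 e0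
  have he0 : ⟪e0, e0⟫_ℂ = 1 := by
    rw [inner_self_eq_norm_sq_to_K, e0_norm]; simp
  rw [h1, zero_apply, inner_zero_left, he0, mul_one] at h2
  have h3 := S.sep _ (mem_Qalg.1 hxy.1).1 (inner_self_eq_zero.1 h2.symm)
  have h4 : x - y = 0 := by rw [← h3]; simp [sub_eq_add_neg]
  exact sub_eq_zero.1 h4

lemma piK_norm {x : H →L[ℂ] H} (hx : InB M N ξ x) : ‖piK M N ξ x‖ ≤ 2 * ‖x‖ :=
  dec_norm (by positivity) fun s => S.bet_opNorm hx (Real.exp_pos s)

lemma piK_sub {x y : H →L[ℂ] H} (hx : InB M N ξ x) (hy : InB M N ξ y) :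
    piK M N ξ (x - y) = piK M N ξ x - piK M N ξ y := by
  have h1 : x - y = x + (-1 : ℂ) • y := by simp [sub_eq_add_neg]
  rw [h1, S.piK_add hx (S.InB_smul _ hy), S.piK_smul _ hy]
  simp [sub_eq_add_neg]

/-- strong continuity of `π` on bounded sets -/
lemma piK_tendsto {ι : Type*} {F : Filter ι} {z : ι → H →L[ℂ] H} {x : H →L[ℂ] H} {C : ℝ}
    (hz : ∀ i, InB M N ξ (z i)) (hx : InB M N ξ x) (hC : ∀ᶠ i in F, ‖z i‖ ≤ C)
    (h : Tendsto (fun i => z i ξ) F (𝓝 (x ξ))) (G : L2R H) :
    Tendsto (fun i => piK M N ξ (z i) G) F (𝓝 (piK M N ξ x G)) := by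
  rcases F.eq_or_neBot with hbot | hne
  · rw [hbot]; exact tendsto_bot
  have hC0 : 0 ≤ C := by
    obtain ⟨i, hi⟩ := hC.exists
    exact (norm_nonneg _).trans hi
  set D : ℝ := 2 * C + 2 * ‖x‖ + 1 with hD
  have hD0 : 0 < D := by positivity
  have hbd : ∀ᶠ i in F, ‖piK M N ξ (z i) - piK M N ξ x‖ ≤ D := by
    filter_upwards [hC] with i hi
    refine (norm_sub_le _ _).trans ?_
    have h1 := S.piK_norm (hz i)
    have h2 := S.piK_norm hx
    rw [hD]
    linarith
  set T : Set (L2R H) := {G | Tendsto (fun i => (piK M N ξ (z i) - piK M N ξ x) G) F (𝓝 0)}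
    with hT
  -- elementary tensors with `ξ`
  have h1 : ∀ f : L2R ℂ, Tendsto (fun i => (piK M N ξ (z i) - piK M N ξ x) (ten f ξ)) F
      (𝓝 0) := by
    intro f
    have e1 : ∀ i, ‖(piK M N ξ (z i) - piK M N ξ x) (ten f ξ)‖ = ‖z i ξ - x ξ‖ * ‖f‖ := by
      intro i
      have hd := S.InB_sub (hz i) hx
      rw [← S.piK_sub (hz i) hx]
      have h2 := S.inner_piK_ten hd hd f f
      simp only [inner_self_eq_norm_sq_to_K] at h2
      have h3 : ‖piK M N ξ (z i - x) (ten f ξ)‖ ^ 2 = (‖(z i - x) ξ‖ * ‖f‖) ^ 2 := by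
        rw [mul_pow]
        exact_mod_cast h2
      exact (pow_left_inj₀ (norm_nonneg _) (by positivity) two_ne_zero).1 h3
    rw [tendsto_zero_iff_norm_tendsto_zero]
    simp only [e1]
    have e2 := (tendsto_iff_norm_sub_tendsto_zero.1 h).mul_const ‖f‖
    rwa [zero_mul] at e2
  have h2 : ∀ f : L2R ℂ, ∀ m ∈ M.commutant, ten f (m ξ) ∈ T := by
    intro f m hm
    have e1 : ∀ i, (piK M N ξ (z i) - piK M N ξ x) (ten f (m ξ)) =
        lift m ((piK M N ξ (z i) - piK M N ξ x) (ten f ξ)) := fun i =>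
      amp_ten (sub_mem (S.piK_mem (hz i)) (S.piK_mem hx)) hm f ξ
    change Tendsto _ F (𝓝 0)
    simp only [e1]
    have := ((lift m).continuous.tendsto 0).comp (h1 f)
    rwa [map_zero] at this
  have hcl : IsClosed T := by
    rw [← closure_subset_iff_isClosed]
    intro G hG
    change Tendsto _ F (𝓝 0)
    rw [Metric.tendsto_nhds]
    intro ε hε
    obtain ⟨G', hG', hGG⟩ := Metric.mem_closure_iff.1 hG (ε / (2 * D)) (by positivity)
    have h3 := (Metric.tendsto_nhds.1 hG') (ε / 2) (by positivity)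
    filter_upwards [h3, hbd] with i hi hi2
    rw [dist_zero_right] at hi ⊢
    have e1 : (piK M N ξ (z i) - piK M N ξ x) G = (piK M N ξ (z i) - piK M N ξ x) (G - G') +
        (piK M N ξ (z i) - piK M N ξ x) G' := by rw [map_sub, sub_add_cancel]
    rw [e1]
    rw [dist_eq_norm] at hGG
    calc _ ≤ ‖(piK M N ξ (z i) - piK M N ξ x) (G - G')‖ +
          ‖(piK M N ξ (z i) - piK M N ξ x) G'‖ := norm_add_le _ _
      _ ≤ D * ‖G - G'‖ + ‖(piK M N ξ (z i) - piK M N ξ x) G'‖ := by
          gcongr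
          exact ContinuousLinearMap.le_of_opNorm_le _ hi2 _
      _ < D * (ε / (2 * D)) + ε / 2 := by gcongr
      _ = ε := by field_simp; ring
  set Ts : Submodule ℂ (L2R H) :=
    { carrier := T
      add_mem' := fun {a b} ha hb => by
        change Tendsto _ F (𝓝 0)
        have := Tendsto.add ha hb
        rw [add_zero] at this
        refine this.congr fun i => ?_
        rw [map_add]
      zero_mem' := by
        change Tendsto _ F (𝓝 0)
        simp only [map_zero]
        exact tendsto_const_nhds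
      smul_mem' := fun c a ha => by
        change Tendsto _ F (𝓝 0)
        have := Tendsto.const_smul ha c
        rw [smul_zero] at this
        refine this.congr fun i => ?_
        rw [map_smul] } with hTs
  have h4 : ∀ f : L2R ℂ, ∀ η : H, ten f η ∈ Ts := by
    intro f η
    have hcl2 : IsClosed {η : H | iot H f η ∈ T} := hcl.preimage (iot H f).continuous
    have hsub : (orb M.commutant ξ : Set H) ⊆ {η : H | iot H f η ∈ T} := by
      rintro _ ⟨m, hm, rfl⟩
      exact h2 f m hm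
    exact closure_minimal hsub hcl2 (S.dense_comm η)
  have h5 : Ts.topologicalClosure = ⊤ := by
    rw [Submodule.topologicalClosure_eq_top_iff, Submodule.eq_bot_iff]
    intro F hF
    exact eq_zero_of_ten fun f η => (Submodule.mem_orthogonal _ _).1 hF _ (h4 f η)
  have h6 : G ∈ T := by
    have e1 : G ∈ Ts.topologicalClosure := by rw [h5]; trivial
    have e2 : G ∈ closure (Ts : Set (L2R H)) := e1
    exact hcl.closure_subset e2
  have h7 : Tendsto (fun i => (piK M N ξ (z i) - piK M N ξ x) G) F (𝓝 0) := h6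
  have := h7.add_const (piK M N ξ x G)
  rw [zero_add] at this
  refine this.congr fun i => ?_
  rw [sub_apply, sub_add_cancel]

theorem main_iso
    (hfw : ∀ x ∈ Bicent M N ξ, ∀ u ∈ GK N ξ, u * piK M N ξ x = piK M N ξ x * u)
    (hbw : ∀ x, InB M N ξ x → (∀ u ∈ GK N ξ, u * piK M N ξ x = piK M N ξ x * u) →
      x ∈ Bicent M N ξ) : ∃ ψ : (H →L[ℂ] H) → ℝ≥0∞, IsDominant N ψ ∧
    ∃ π : (H →L[ℂ] H) → (H →L[ℂ] H), IsStarIso S.Balg (Calg M N ψ) π ∧
      BoundedStronglyContinuous S.Balg π ∧ IntertwinesFlows N ψ S.Balg (bet M N ξ) π ∧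
      ∀ x ∈ S.Balg, E (π x) = ⟪ξ, x ξ⟫_ℂ • (1 : H →L[ℂ] H) := by
  obtain ⟨W, hW⟩ := S.exists_W
  have hN : ∀ x, x ∈ N ↔ W.conjStarAlgEquiv x ∈ amp N := conj_mem_amp hW fun a ha => ha
  have hM : ∀ x, x ∈ M ↔ W.conjStarAlgEquiv x ∈ amp M := conj_mem_amp hW fun a ha => S.comm_le ha
  have hinj : Function.Injective ⇑W.conjStarAlgEquiv := EquivLike.injective _
  have e1 : ∀ X, W.conjStarAlgEquiv (W.conjStarAlgEquiv.symm X) = X :=
    W.conjStarAlgEquiv.apply_symm_apply
  set ψ : (H →L[ℂ] H) → ℝ≥0∞ := fun x => wK ξ (W.conjStarAlgEquiv x) with hψ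
  have hsc : ∀ l u, ScalingUnitary N ψ l u ↔
      ScalingUnitary (amp N) (wK ξ) l (W.conjStarAlgEquiv u) := fun l u =>
    transport_scaling W hN (wK ξ) l u
  have hC : ∀ x, x ∈ Calg M N ψ ↔ W.conjStarAlgEquiv x ∈ Rk M N ξ := by
    intro x
    rw [mem_Calg x, hM x]
    constructor
    · rintro ⟨h1, h2⟩
      refine ⟨h1, fun U hU => ?_⟩
      have h3 := h2 (W.conjStarAlgEquiv.symm U) ((hsc 1 _).2 (by rw [e1]; exact GK_iff.1 hU))
      have h4 := congrArg W.conjStarAlgEquiv h3
      rwa [map_mul, map_mul, e1] at h4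
    · rintro ⟨h1, h2⟩
      refine ⟨h1, fun u hu => ?_⟩
      apply hinj
      rw [map_mul, map_mul]
      exact h2 _ (GK_iff.2 ((hsc 1 u).1 hu))
  refine ⟨ψ, transport_dominant W hN S.wK_dominant, ?_⟩
  have hmemC : ∀ x ∈ S.Balg, W.conjStarAlgEquiv.symm (piK M N ξ x) ∈ Calg M N ψ := by
    intro x hx
    rw [hC, e1]
    exact ⟨S.piK_mem (S.InB_of_bicent hx), hfw x hx⟩
  refine ⟨fun x => W.conjStarAlgEquiv.symm (piK M N ξ x), ?_, ?_, ?_, ?_⟩
  · refine ⟨hmemC, fun x hx y hy hxy => ?_, fun X hX => ?_, fun x hx y hy => ?_,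
      fun x hx y hy => ?_, fun c x hx => ?_, fun x hx => ?_⟩
    · refine S.piK_inj (S.InB_of_bicent hx) (S.InB_of_bicent hy) ?_
      have h1 := congrArg W.conjStarAlgEquiv hxy
      rwa [e1, e1] at h1
    · obtain ⟨x, hx, hxX⟩ := S.Rk_sur (S.Rk_sub_Rk0 ((hC X).1 hX))
      refine ⟨x, hbw x hx fun u hu => ?_, ?_⟩
      · have h1 := ((hC X).1 hX).2 u hu
        rwa [hxX] at h1
      apply hinj
      rw [e1]
      exact hxX.symm
    · change W.conjStarAlgEquiv.symm (piK M N ξ (x + y)) = _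
      rw [S.piK_add (S.InB_of_bicent hx) (S.InB_of_bicent hy), map_add]
    · change W.conjStarAlgEquiv.symm (piK M N ξ (x * y)) = _
      rw [S.piK_mul (S.InB_of_bicent hx) (S.InB_of_bicent hy), map_mul]
    · change W.conjStarAlgEquiv.symm (piK M N ξ (c • x)) = _
      rw [S.piK_smul c (S.InB_of_bicent hx), map_smul]
    · change W.conjStarAlgEquiv.symm (piK M N ξ (star x)) = _
      rw [S.piK_star (S.InB_of_bicent hx), map_star]
  · intro F x hx C hbd hcv η
    classical
    have hx := S.InB_of_bicent hx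
    have hbd1 : ∀ᶠ y in F, InB M N ξ y := hbd.mono fun y hy => S.InB_of_bicent hy.1
    have hcongr : ∀ᶠ y in F, (if InB M N ξ y then y else x) = y :=
      hbd1.mono fun y hy => if_pos hy
    have h1 := S.piK_tendsto (F := F) (z := fun y => if InB M N ξ y then y else x) (x := x)
      (C := C) (fun y => by
        by_cases h : InB M N ξ y
        · simp only [if_pos h]; exact h
        · simp only [if_neg h]; exact hx) hx (by
        filter_upwards [hbd, hcongr] with y h1 h2
        rw [h2]; exact h1.2) (by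
        refine (hcv ξ).congr' ?_
        filter_upwards [hcongr] with y h2
        rw [h2]) (W η)
    simp only [LinearIsometryEquiv.symm_conjStarAlgEquiv_apply_apply]
    refine (W.symm.continuous.tendsto _).comp ?_
    refine h1.congr' ?_
    filter_upwards [hcongr] with y h2
    rw [h2]
  · intro l hl u hu x hx
    apply hinj
    rw [map_mul, map_mul, map_star, e1, e1, ← S.tr_piK (S.InB_of_bicent hx) hl]
    set T := tr H (-Real.log l) with hT
    set U := W.conjStarAlgEquiv u with hU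
    have hTs : ScalingUnitary (amp N) (wK ξ) l T := tr_scaling hl
    have hUs : ScalingUnitary (amp N) (wK ξ) l U := (hsc l u).1 hu
    have hG : star T * U ∈ GK N ξ := GK_iff.2 (scaling_quot hl hTs hUs)
    have hcomm := hfw x hx _ hG
    have hTU : T * (star T * U) = U := by rw [← mul_assoc, hTs.2.2.1, one_mul]
    have h1 : U * piK M N ξ x * star U =
        T * ((star T * U) * piK M N ξ x) * star U := by
      rw [← mul_assoc, hTU]
    rw [h1, hcomm]
    have h2 : star T * U * star U = star T := by rw [mul_assoc, hUs.2.2.1, mul_one]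
    calc T * piK M N ξ x * star T =
        T * piK M N ξ x * (star T * U * star U) := by rw [h2]
      _ = _ := by simp only [mul_assoc]
  · intro x hx
    set y := W.conjStarAlgEquiv.symm (piK M N ξ x) with hy
    have hyM : y ∈ M := ((mem_Calg y).1 (hmemC x hx)).1
    have hx := S.InB_of_bicent hx
    have hK : ∀ k ∈ K0 N ξ, ∀ᵐ s, W k s ∈ K0 N ξ := by
      intro k hk
      set P := (K0 N ξ).starProjection with hP
      have hPN : P ∈ N.commutant := proj_orb_mem N ξ
      have h1 : lift P (W k) = W k := by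
        rw [← hW P hPN, Submodule.starProjection_eq_self_iff.2 hk]
      have h2 := lift_coe P (W k)
      rw [h1] at h2
      filter_upwards [h2] with s hs
      rw [hs]
      exact Submodule.starProjection_apply_mem _ _
    have hin : ∀ k ∈ K0 N ξ, ∀ k' ∈ K0 N ξ, ⟪k, y k'⟫_ℂ =
        ⟪ξ, x ξ⟫_ℂ * ⟪k, k'⟫_ℂ := by
      intro k hk k' hk'
      have h1 := S.inner_piK hx S.InB_one (hK k hk) (hK k' hk')
      rw [S.piK_one, one_apply_eq_self, one_apply_eq_self, W.inner_map_map] at h1
      rw [← h1, hy, LinearIsometryEquiv.symm_conjStarAlgEquiv_apply_apply]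
      have h2 := W.symm.inner_map_map (W k) (piK M N ξ x (W k'))
      rw [W.symm_apply_apply] at h2
      exact h2
    have hxi : ξ ∈ K0 N ξ := S.xi_mem_K0
    set c : ℂ := ⟪ξ, x ξ⟫_ℂ with hc
    have hEN : E y ∈ N := S.E_mem y hyM
    have hz : E y - c • (1 : H →L[ℂ] H) ∈ N := sub_mem hEN (smul_mem' _ (one_mem N))
    set z := E y - c • (1 : H →L[ℂ] H) with hzdef
    have h0 : ⟪z ξ, z ξ⟫_ℂ = 0 := by
      have h1 : z ξ = E y ξ - c • ξ := rfl
      have h2 := S.E_inner hz (one_mem N) hyM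
      rw [one_apply_eq_self] at h2
      have h3 := hin (z ξ) (mem_K0 hz) ξ hxi
      calc ⟪z ξ, z ξ⟫_ℂ = ⟪z ξ, E y ξ - c • ξ⟫_ℂ := rfl
        _ = 0 := by rw [inner_sub_right, h2, h3, inner_smul_right, sub_self]
    have hz0 : z = 0 := S.sep z (S.le z hz) (inner_self_eq_zero.1 h0)
    exact sub_eq_zero.1 hz0

end AP

end Pool.Agent.Helper23
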