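import Pool.Agent.Helper23.USur
import Pool.Agent.Helper23.Main3
import Pool.Agent.Helper23.MDefs
import Pool.Agent.Helper68.G2b
import Pool.Agent.Helper43.TTF.G

/-!
# Assembly for the flow on the bicentralizer
-/

open scoped InnerProductSpace Topology ENNReal BoundedContinuousFunction
open ContinuousLinearMap Filter MeasureTheory

namespace Pool.Agent.Helper23

variable {H : Type*} [NormedAddCommGroup H] [InnerProductSpace ℂ H] [CompleteSpace H]
variable {M N : VonNeumannAlgebra H} {ξ : H} {E : (H →L[ℂ] H) → (H →L[ℂ] H)}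

open RBF

/-- two isometries with orthogonal ranges -/
def TwoIsom (N : VonNeumannAlgebra H) : Prop :=
  ∃ v ∈ N, ∃ w ∈ N, star v * v = 1 ∧ star w * w = 1 ∧ star v * w = 0

/-- the spatial isomorphism -/
theorem exists_W_of (hN : TwoIsom N) : ∃ W : H ≃ₗᵢ[ℂ] L2R H,
    ∀ a ∈ N.commutant, ∀ x, W (a x) = lift a (W x) := by
  obtain ⟨v, hv, w, hw', hv1, hw1, hvw⟩ := hN
  obtain ⟨h3, h4⟩ := pow_isom hv1 hw1 hvw
  have : Countable hw := hw_countable
  obtain ⟨n, hn⟩ := exists_injective_nat hw
  have hpN : ∀ k : ℕ, v ^ k ∈ N := fun k => pow_mem hv k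
  obtain ⟨J, hJ, hJa⟩ := exists_J (N := N) (s := fun i : hw => v ^ n i * w)
    (fun i => mul_mem (hpN _) hw') (fun i => h3 _) (fun i j hij => h4 _ _ (hn.ne hij))
  have he0 : ⟪e0, e0⟫_ℂ = 1 := by
    rw [inner_self_eq_norm_sq_to_K, e0_norm]; simp
  obtain ⟨W, hW⟩ := csb (iot H e0) J (fun x y => by
    rw [iot_apply, iot_apply, inner_ten, he0, one_mul]) hJ
  refine ⟨W, fun a ha x => ?_⟩
  refine hW a (lift a) ?_ ?_ ?_ ?_ x
  · intro x
    rw [iot_apply, iot_apply, lift_ten]
  · exact hJa a ha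
  · intro x
    rw [← lift_star, iot_apply, iot_apply, lift_ten]
  · intro x
    rw [← lift_star]
    exact hJa _ (star_mem ha) x

/-- elements of `N` are combinations of unitaries -/
lemma exists_unitaries (N : VonNeumannAlgebra H) {a : H →L[ℂ] H} (ha : a ∈ N) :
    ∃ (u : Fin 4 → H →L[ℂ] H) (k : Fin 4 → ℂ), a = ∑ i, k i • u i ∧
      ∀ i, u i ∈ N ∧ star (u i) * u i = 1 ∧ u i * star (u i) = 1 := by
  obtain ⟨u, k, hk, -⟩ := CStarAlgebra.exists_sum_four_unitary
    (⟨a, ha⟩ : N.toStarSubalgebra)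
  refine ⟨fun i => ((u i : N.toStarSubalgebra) : H →L[ℂ] H), k, ?_, fun i => ⟨?_, ?_, ?_⟩⟩
  · have := congrArg (fun z : N.toStarSubalgebra => (z : H →L[ℂ] H)) hk
    simpa using this
  · exact (u i : N.toStarSubalgebra).2
  · have := Unitary.star_mul_self_of_mem (u i).2
    exact congrArg (fun z : N.toStarSubalgebra => (z : H →L[ℂ] H)) this
  · have := Unitary.mul_star_self_of_mem (u i).2
    exact congrArg (fun z : N.toStarSubalgebra => (z : H →L[ℂ] H)) this

/-- a unitary conjugating the amplification of the unitaries of `N` into the unitaries preserving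
the weight -/
def ConjGK (N : VonNeumannAlgebra H) (ξ : H) : Prop :=
  ∃ V V' : L2R H →L[ℂ] L2R H, star V = V' ∧ V * V' = 1 ∧ V' * V = 1 ∧
    ∀ u ∈ N, star u * u = 1 → u * star u = 1 → V * lift u * V' ∈ GK N ξ

lemma lift_zero' : lift (0 : H →L[ℂ] H) = 0 := by
  have := lift_smul (0 : ℂ) (0 : H →L[ℂ] H)
  rwa [zero_smul, zero_smul] at this

theorem wK_dominant_of (hd : Dense (orb N.commutant ξ : Set H)) (hN : TwoIsom N)
    (hV : ConjGK N ξ) : IsDominant (amp N) (wK ξ) where
  toIsNSFWeight := wK_nsf hd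
  scale l hl := ⟨_, tr_scaling hl⟩
  properlyInfinite := by
    obtain ⟨v, hv, w, hw, hv1, hw1, hvw⟩ := hN
    obtain ⟨V, V', hVs, hVV, hVV', hVG⟩ := hV
    have hVs' : star V' = V := by rw [← hVs, star_star]
    have hstar : ∀ x y : H →L[ℂ] H, star (V * lift x * V') * (V * lift y * V') =
        V * lift (star x * y) * V' := by
      intro x y
      rw [star_mul, star_mul, hVs, hVs', ← lift_star]
      calc V * (lift (star x) * V') * (V * lift y * V') =
            V * lift (star x) * (V' * V) * lift y * V' := by simp only [mul_assoc]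
        _ = V * (lift (star x) * lift y) * V' := by
          rw [hVV', mul_one, mul_assoc V]
        _ = _ := by rw [← lift_mul]
    have hcomm : ∀ T : L2R H →L[ℂ] L2R H,
        (∀ u, ScalingUnitary (amp N) (wK ξ) 1 u → u * T = T * u) → ∀ a ∈ N,
          V * lift a * V' * T = T * (V * lift a * V') := by
      intro T hT a ha
      obtain ⟨u, k, hk, hu⟩ := exists_unitaries N ha
      have hl : V * lift a * V' = ∑ i, k i • (V * lift (u i) * V') := by
        rw [hk, Fin.sum_univ_four, Fin.sum_univ_four, lift_add, lift_add, lift_add, lift_smul,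
          lift_smul, lift_smul, lift_smul]
        simp only [mul_add, add_mul, mul_smul_comm, smul_mul_assoc]
      rw [hl, Finset.sum_mul, Finset.mul_sum]
      refine Finset.sum_congr rfl fun i _ => ?_
      rw [smul_mul_assoc, mul_smul_comm, hT _ (GK_iff.1 (hVG _ (hu i).1 (hu i).2.1 (hu i).2.2))]
    refine ⟨V * lift v * V', V * lift w * V', ?_, ?_, ?_, fun T hT => ?_⟩
    · rw [hstar, hv1, lift_one, mul_one, hVV]
    · rw [hstar, hw1, lift_one, mul_one, hVV]
    · rw [hstar, hvw, lift_zero', mul_zero, zero_mul]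
    · exact ⟨hcomm T hT v hv, hcomm T hT w hw⟩

namespace Setting

variable (S : Setting M N E ξ)
include S

/-- the bicentralizer as a star subalgebra -/
noncomputable def Bsub : StarSubalgebra ℂ (H →L[ℂ] H) where
  carrier := {x | x ∈ Bicent M N ξ}
  mul_mem' := fun hx hy => AP.bicent_mul hx hy
  add_mem' := fun hx hy => AP.bicent_add hx hy
  algebraMap_mem' := fun c => by
    rw [Algebra.algebraMap_eq_smul_one]
    exact AP.bicent_smul c AP.bicent_one
  star_mem' := fun hx => S.bicent_star hx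

lemma mem_Bsub {x : H →L[ℂ] H} : x ∈ S.Bsub ↔ x ∈ Bicent M N ξ := Iff.rfl

lemma Bsub_bicomm {T : H →L[ℂ] H}
    (hT : T ∈ Set.centralizer (Set.centralizer (S.Bsub : Set (H →L[ℂ] H)))) : T ∈ Bicent M N ξ := by
  rw [Set.mem_centralizer_iff] at hT
  have hM : ∀ m ∈ M.commutant, m ∈ Set.centralizer (S.Bsub : Set (H →L[ℂ] H)) := by
    intro m hm
    rw [Set.mem_centralizer_iff]
    intro y hy
    exact (mem_comm_iff.1 hm) y (S.mem_Bsub.1 hy).1
  have hQ : T ∈ M := mem_iff_commutes.2 fun m hm => hT m (hM m hm)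
  refine S.bicent_of_closure hQ ?_
  set V : Submodule ℂ H := ((S.Bsub.toSubmodule).map (evξ ξ)).topologicalClosure with hV
  have hVc : IsClosed (V : Set H) := Submodule.isClosed_topologicalClosure _
  have : CompleteSpace V := hVc.completeSpace_coe
  have hBV : ∀ y, y ∈ Bicent M N ξ → y ξ ∈ V := fun y hy =>
    Submodule.le_topologicalClosure _ ⟨y, hy, rfl⟩
  have hVcl : (V : Set H) = closure {v : H | ∃ y ∈ Bicent M N ξ, v = y ξ} := by
    have h1 : (V : Set H) = closure (((S.Bsub.toSubmodule).map (evξ ξ) : Submodule ℂ H) : Set H) :=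
      Submodule.topologicalClosure_coe _
    rw [h1]
    congr 1
    ext v
    constructor
    · rintro ⟨y, hy, rfl⟩
      exact ⟨y, hy, rfl⟩
    · rintro ⟨y, hy, rfl⟩
      exact ⟨y, hy, rfl⟩
  have hinv : ∀ y, y ∈ Bicent M N ξ → ∀ v ∈ V, y v ∈ V := by
    intro y hy v hv
    have h2 : v ∈ closure {v : H | ∃ y ∈ Bicent M N ξ, v = y ξ} := by
      rw [← hVcl]; exact hv
    have hsub : {v : H | ∃ y ∈ Bicent M N ξ, v = y ξ} ⊆ y ⁻¹' (V : Set H) := by
      rintro _ ⟨z, hz, rfl⟩
      exact hBV _ (AP.bicent_mul hy hz)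
    exact closure_minimal hsub (hVc.preimage y.continuous) h2
  have hP : V.starProjection ∈ Set.centralizer (S.Bsub : Set (H →L[ℂ] H)) := by
    rw [Set.mem_centralizer_iff]
    intro y hy
    have hy' : y ∈ Bicent M N ξ := hy
    ext v
    change y (V.starProjection v) = V.starProjection (y v)
    have h1 : y (V.starProjection v) ∈ V := hinv y hy' _ (Submodule.starProjection_apply_mem _ _)
    have h2 : V.starProjection (y (v - V.starProjection v)) = 0 := by
      rw [← inner_self_eq_zero (𝕜 := ℂ), Submodule.inner_starProjection_left_eq_right,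
        Submodule.starProjection_eq_self_iff.2 (Submodule.starProjection_apply_mem _ _)]
      rw [← inner_star_right y]
      have h3 : (star y) (V.starProjection (y (v - V.starProjection v))) ∈ V :=
        hinv _ (S.bicent_star hy') _ (Submodule.starProjection_apply_mem _ _)
      rw [inner_sub_left, Submodule.inner_starProjection_left_eq_right,
        Submodule.starProjection_eq_self_iff.2 h3, sub_self]
    rw [map_sub, map_sub, sub_eq_zero, Submodule.starProjection_eq_self_iff.2 h1] at h2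
    exact h2.symm
  have h1 := hT _ hP
  have h2 := congrArg (fun T : H →L[ℂ] H => T ξ) h1
  change V.starProjection (T ξ) = T (V.starProjection ξ) at h2
  have hξ : ξ ∈ V := by
    have := hBV 1 AP.bicent_one
    simpa using this
  rw [Submodule.starProjection_eq_self_iff.2 hξ] at h2
  rw [← hVcl, ← h2]
  exact Submodule.starProjection_apply_mem _ _

/-- the bicentralizer as a von Neumann algebra -/
noncomputable def Balg : VonNeumannAlgebra H where
  toStarSubalgebra := S.Bsub
  centralizer_centralizer' := by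
    refine Set.Subset.antisymm (fun T hT => S.Bsub_bicomm hT) ?_
    exact Set.subset_centralizer_centralizer

lemma mem_Balg {x : H →L[ℂ] H} : x ∈ S.Balg ↔ x ∈ Bicent M N ξ := Iff.rfl

lemma Balg_isBicentralizer : IsBicentralizer M N ξ S.Balg := by
  intro x
  rw [S.mem_Balg]
  rfl

end Setting

namespace BFlow

variable (S : BFlow M N E ξ)
include S

theorem flow_strong {x : H →L[ℂ] H} (hb : x ∈ Bicent M N ξ) {l : ℝ} (hl : 0 < l)
    {a : ℕ → H →L[ℂ] H} (ha : LamSeq N ξ l a) (η : H) :
    Tendsto (fun n => (a n * x - btU M N ξ l x * a n) η) atTop (𝓝 0) := by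
  have h1 := S.flow x hb l hl a ha
  obtain ⟨haN, ⟨C, hC⟩, hD⟩ := ha
  refine tendsto_of_bounded M S.dense_comm (x := fun n => a n * x - btU M N ξ l x * a n)
    (C := C * ‖x‖ + ‖btU M N ξ l x‖ * C)
    (fun n => sub_mem (mul_mem (S.le _ (haN n)) hb.1)
      (mul_mem (S.bt_mem x hb l hl).1 (S.le _ (haN n))))
    (fun n => (norm_sub_le _ _).trans (add_le_add
      ((norm_mul_le _ _).trans (mul_le_mul_of_nonneg_right (hC n) (norm_nonneg _)))
      ((norm_mul_le _ _).trans (mul_le_mul_of_nonneg_left (hC n) (norm_nonneg _))))) h1 η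

theorem flow_strong_star {x : H →L[ℂ] H} (hb' : x ∈ Bicent M N ξ) {l : ℝ} (hl : 0 < l)
    {a : ℕ → H →L[ℂ] H} (ha : LamSeq N ξ l a) (η : H) :
    Tendsto (fun n => (star (a n * x - btU M N ξ l x * a n)) η) atTop (𝓝 0) := by
  have hb : LamSeq N ξ l⁻¹ (fun n => star (a n)) := by
    obtain ⟨haN, ⟨C, hC⟩, hD⟩ := ha
    exact ⟨fun n => star_mem (haN n), ⟨C, fun n => by rw [norm_star]; exact hC n⟩,
      Dseq.star hl hD⟩
  have hy := S.bicent_star (S.bt_mem x hb' l hl)
  have h1 := S.flow_strong hy (inv_pos.2 hl) hb η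
  have h2 : btU M N ξ l⁻¹ (star (btU M N ξ l x)) = star x := by
    rw [S.bt_star _ (S.bt_mem x hb' l hl) _ (inv_pos.2 hl), S.bt_bt x hb' _ (inv_pos.2 hl) _ hl,
      inv_mul_cancel₀ hl.ne', S.bt_one_act x hb']
  rw [h2] at h1
  have h3 := h1.neg
  rw [neg_zero] at h3
  refine h3.congr fun n => ?_
  rw [star_sub, star_mul, star_mul, ← neg_apply, neg_sub]

/-- the relative bicentralizer flow -/
theorem isRelativeBicentralizerFlow :
    IsRelativeBicentralizerFlow N ξ S.Balg (btU M N ξ) where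
  flow :=
    { automorphism := fun l hl =>
        { maps := fun x hx => S.bt_mem x hx l hl
          injective := fun x hx y hy h => by
            have h1 := congrArg (btU M N ξ l⁻¹) h
            rwa [S.bt_bt x hx _ (inv_pos.2 hl) _ hl, S.bt_bt y hy _ (inv_pos.2 hl) _ hl,
              inv_mul_cancel₀ hl.ne', S.bt_one_act x hx, S.bt_one_act y hy] at h1
          surjective := fun y hy => ⟨btU M N ξ l⁻¹ y, S.bt_mem y hy _ (inv_pos.2 hl), by
            rw [S.bt_bt y hy _ hl _ (inv_pos.2 hl), mul_inv_cancel₀ hl.ne', S.bt_one_act y hy]⟩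
          add := fun x hx y hy => S.bt_add x hx y hy l hl
          mul := fun x hx y hy => S.bt_mul x hx y hy l hl
          smul := fun c x hx => S.bt_smul c x hx l hl
          star := fun x hx => S.bt_star x hx l hl }
      action := fun l m hl hm x hx => (S.bt_bt x hx l hl m hm).symm
      continuous := fun x hx η => S.bt_cont x hx η }
  property := fun l hl a ha x hx η =>
    ⟨S.flow_strong hx hl ha η, S.flow_strong_star hx hl ha η⟩
  unique := fun β' hβ' h l hl x hx =>
    S.flow_uniq x hx _ (hβ' l hl x hx).1 l hl fun a ha => (h l hl a ha x hx ξ).1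

/-- strong continuity of `π` on bounded sets -/
lemma piU_tendsto {ι : Type*} {F : Filter ι} {z : ι → H →L[ℂ] H} {x : H →L[ℂ] H} {C : ℝ}
    (hz : ∀ i, z i ∈ Bicent M N ξ) (hx : x ∈ Bicent M N ξ) (hC : ∀ᶠ i in F, ‖z i‖ ≤ C)
    (h : Tendsto (fun i => z i ξ) F (𝓝 (x ξ))) (G : L2R H) :
    Tendsto (fun i => piU M N ξ (z i) G) F (𝓝 (piU M N ξ x G)) := by
  rcases F.eq_or_neBot with hbot | hne
  · rw [hbot]; exact tendsto_bot
  have hC0 : 0 ≤ C := by
    obtain ⟨i, hi⟩ := hC.exists
    exact (norm_nonneg _).trans hi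
  set D : ℝ := 2 * C + 2 * ‖x‖ + 1 with hD
  have hD0 : 0 < D := by positivity
  have hbd : ∀ᶠ i in F, ‖piU M N ξ (z i) - piU M N ξ x‖ ≤ D := by
    filter_upwards [hC] with i hi
    refine (norm_sub_le _ _).trans ?_
    have h1 := S.piU_norm (hz i)
    have h2 := S.piU_norm hx
    rw [hD]
    linarith
  set T : Set (L2R H) := {G | Tendsto (fun i => (piU M N ξ (z i) - piU M N ξ x) G) F (𝓝 0)}
    with hT
  -- elementary tensors with `ξ`
  have h1 : ∀ f : L2R ℂ, Tendsto (fun i => (piU M N ξ (z i) - piU M N ξ x) (ten f ξ)) F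
      (𝓝 0) := by
    intro f
    have e1 : ∀ i, ‖(piU M N ξ (z i) - piU M N ξ x) (ten f ξ)‖ = ‖z i ξ - x ξ‖ * ‖f‖ := by
      intro i
      have hd := bicent_sub (hz i) hx
      rw [← S.piU_sub (hz i) hx]
      have h2 := S.inner_piU_ten hd hd f f
      simp only [inner_self_eq_norm_sq_to_K] at h2
      have h3 : ‖piU M N ξ (z i - x) (ten f ξ)‖ ^ 2 = (‖(z i - x) ξ‖ * ‖f‖) ^ 2 := by
        rw [mul_pow]
        exact_mod_cast h2
      exact (pow_left_inj₀ (norm_nonneg _) (by positivity) two_ne_zero).1 h3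
    rw [tendsto_zero_iff_norm_tendsto_zero]
    simp only [e1]
    have e2 := (tendsto_iff_norm_sub_tendsto_zero.1 h).mul_const ‖f‖
    rwa [zero_mul] at e2
  have h2 : ∀ f : L2R ℂ, ∀ m ∈ M.commutant, ten f (m ξ) ∈ T := by
    intro f m hm
    have e1 : ∀ i, (piU M N ξ (z i) - piU M N ξ x) (ten f (m ξ)) =
        lift m ((piU M N ξ (z i) - piU M N ξ x) (ten f ξ)) := fun i =>
      amp_ten (sub_mem (S.piU_mem (hz i)) (S.piU_mem hx)) hm f ξ
    change Tendsto _ F (𝓝 0)
    simp only [e1]
    have := ((lift m).continuous.tendsto 0).comp (h1 f)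
    rwa [map_zero] at this
  have hcl : IsClosed T := by
    rw [← closure_subset_iff_isClosed]
    intro G hG
    change Tendsto _ F (𝓝 0)
    rw [Metric.tendsto_nhds]
    intro ε hε
    obtain ⟨G', hG', hGG⟩ := Metric.mem_closure_iff.1 hG (ε / (2 * D)) (by positivity)
    have h3 := (Metric.tendsto_nhds.1 hG') (ε / 2) (by positivity)
    filter_upwards [h3, hbd] with i hi hi2
    rw [dist_zero_right] at hi ⊢
    have e1 : (piU M N ξ (z i) - piU M N ξ x) G = (piU M N ξ (z i) - piU M N ξ x) (G - G') +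
        (piU M N ξ (z i) - piU M N ξ x) G' := by rw [map_sub, sub_add_cancel]
    rw [e1]
    rw [dist_eq_norm] at hGG
    calc _ ≤ ‖(piU M N ξ (z i) - piU M N ξ x) (G - G')‖ +
          ‖(piU M N ξ (z i) - piU M N ξ x) G'‖ := norm_add_le _ _
      _ ≤ D * ‖G - G'‖ + ‖(piU M N ξ (z i) - piU M N ξ x) G'‖ := by
          gcongr
          exact ContinuousLinearMap.le_of_opNorm_le _ hi2 _
      _ < D * (ε / (2 * D)) + ε / 2 := by gcongr
      _ = ε := by field_simp; ring
  set Ts : Submodule ℂ (L2R H) :=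
    { carrier := T
      add_mem' := fun {a b} ha hb => by
        change Tendsto _ F (𝓝 0)
        have := Tendsto.add ha hb
        rw [add_zero] at this
        refine this.congr fun i => ?_
        rw [map_add]
      zero_mem' := by
        change Tendsto _ F (𝓝 0)
        simp only [map_zero]
        exact tendsto_const_nhds
      smul_mem' := fun c a ha => by
        change Tendsto _ F (𝓝 0)
        have := Tendsto.const_smul ha c
        rw [smul_zero] at this
        refine this.congr fun i => ?_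
        rw [map_smul] } with hTs
  have h4 : ∀ f : L2R ℂ, ∀ η : H, ten f η ∈ Ts := by
    intro f η
    have hcl2 : IsClosed {η : H | iot H f η ∈ T} := hcl.preimage (iot H f).continuous
    have hsub : (orb M.commutant ξ : Set H) ⊆ {η : H | iot H f η ∈ T} := by
      rintro _ ⟨m, hm, rfl⟩
      exact h2 f m hm
    exact closure_minimal hsub hcl2 (S.dense_comm η)
  have h5 : Ts.topologicalClosure = ⊤ := by
    rw [Submodule.topologicalClosure_eq_top_iff, Submodule.eq_bot_iff]
    intro F hF
    exact eq_zero_of_ten fun f η => (Submodule.mem_orthogonal _ _).1 hF _ (h4 f η)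
  have h6 : G ∈ T := by
    have e1 : G ∈ Ts.topologicalClosure := by rw [h5]; trivial
    have e2 : G ∈ closure (Ts : Set (L2R H)) := e1
    exact hcl.closure_subset e2
  have h7 : Tendsto (fun i => (piU M N ξ (z i) - piU M N ξ x) G) F (𝓝 0) := h6
  have := h7.add_const (piU M N ξ x G)
  rw [zero_add] at this
  refine this.congr fun i => ?_
  rw [sub_apply, sub_add_cancel]

theorem main_iso (hN : TwoIsom N) (hV : ConjGK N ξ) :
    ∃ ψ : (H →L[ℂ] H) → ℝ≥0∞, IsDominant N ψ ∧
    ∃ π : (H →L[ℂ] H) → (H →L[ℂ] H), IsStarIso S.Balg (Calg M N ψ) π ∧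
      BoundedStronglyContinuous S.Balg π ∧ IntertwinesFlows N ψ S.Balg (btU M N ξ) π ∧
      ∀ x ∈ S.Balg, E (π x) = ⟪ξ, x ξ⟫_ℂ • (1 : H →L[ℂ] H) := by
  obtain ⟨W, hW⟩ := exists_W_of hN
  have hN' : ∀ x, x ∈ N ↔ W.conjStarAlgEquiv x ∈ amp N := conj_mem_amp hW fun a ha => ha
  have hM : ∀ x, x ∈ M ↔ W.conjStarAlgEquiv x ∈ amp M := conj_mem_amp hW fun a ha => S.comm_le ha
  have hinj : Function.Injective ⇑W.conjStarAlgEquiv := EquivLike.injective _
  have e1 : ∀ X, W.conjStarAlgEquiv (W.conjStarAlgEquiv.symm X) = X :=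
    W.conjStarAlgEquiv.apply_symm_apply
  set ψ : (H →L[ℂ] H) → ℝ≥0∞ := fun x => wK ξ (W.conjStarAlgEquiv x) with hψ
  have hsc : ∀ l u, ScalingUnitary N ψ l u ↔
      ScalingUnitary (amp N) (wK ξ) l (W.conjStarAlgEquiv u) := fun l u =>
    transport_scaling W hN' (wK ξ) l u
  have hC : ∀ x, x ∈ Calg M N ψ ↔ W.conjStarAlgEquiv x ∈ Rk M N ξ := by
    intro x
    rw [mem_Calg x, hM x]
    constructor
    · rintro ⟨h1, h2⟩
      refine ⟨h1, fun U hU => ?_⟩
      have h3 := h2 (W.conjStarAlgEquiv.symm U) ((hsc 1 _).2 (by rw [e1]; exact GK_iff.1 hU))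
      have h4 := congrArg W.conjStarAlgEquiv h3
      rwa [map_mul, map_mul, e1] at h4
    · rintro ⟨h1, h2⟩
      refine ⟨h1, fun u hu => ?_⟩
      apply hinj
      rw [map_mul, map_mul]
      exact h2 _ (GK_iff.2 ((hsc 1 u).1 hu))
  refine ⟨ψ, transport_dominant W hN' (wK_dominant_of S.dense_commN hN hV), ?_⟩
  have hmemC : ∀ x ∈ S.Balg, W.conjStarAlgEquiv.symm (piU M N ξ x) ∈ Calg M N ψ := by
    intro x hx
    rw [hC, e1]
    exact S.piU_mem_Rk hx
  refine ⟨fun x => W.conjStarAlgEquiv.symm (piU M N ξ x), ?_, ?_, ?_, ?_⟩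
  · refine ⟨hmemC, fun x hx y hy hxy => ?_, fun X hX => ?_, fun x hx y hy => ?_,
      fun x hx y hy => ?_, fun c x hx => ?_, fun x hx => ?_⟩
    · refine S.piU_inj hx hy ?_
      have h1 := congrArg W.conjStarAlgEquiv hxy
      rwa [e1, e1] at h1
    · obtain ⟨x, hx, hxX⟩ := S.Rk_sur ((hC X).1 hX)
      refine ⟨x, hx, ?_⟩
      apply hinj
      rw [e1]
      exact hxX.symm
    · change W.conjStarAlgEquiv.symm (piU M N ξ (x + y)) = _
      rw [S.piU_add hx hy, map_add]
    · change W.conjStarAlgEquiv.symm (piU M N ξ (x * y)) = _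
      rw [S.piU_mul hx hy, map_mul]
    · change W.conjStarAlgEquiv.symm (piU M N ξ (c • x)) = _
      rw [S.piU_smul c hx, map_smul]
    · change W.conjStarAlgEquiv.symm (piU M N ξ (star x)) = _
      rw [S.piU_star hx, map_star]
  · intro F x hx C hbd hcv η
    classical
    have hbd1 : ∀ᶠ y in F, y ∈ Bicent M N ξ := hbd.mono fun y hy => hy.1
    have hcongr : ∀ᶠ y in F, (if y ∈ Bicent M N ξ then y else x) = y :=
      hbd1.mono fun y hy => if_pos hy
    have h1 := S.piU_tendsto (F := F) (z := fun y => if y ∈ Bicent M N ξ then y else x) (x := x)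
      (C := C) (fun y => by
        by_cases h : y ∈ Bicent M N ξ
        · simp only [if_pos h]; exact h
        · simp only [if_neg h]; exact hx) hx (by
        filter_upwards [hbd, hcongr] with y h1 h2
        rw [h2]; exact h1.2) (by
        refine (hcv ξ).congr' ?_
        filter_upwards [hcongr] with y h2
        rw [h2]) (W η)
    simp only [LinearIsometryEquiv.symm_conjStarAlgEquiv_apply_apply]
    refine (W.symm.continuous.tendsto _).comp ?_
    refine h1.congr' ?_
    filter_upwards [hcongr] with y h2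
    rw [h2]
  · intro l hl u hu x hx
    apply hinj
    rw [map_mul, map_mul, map_star, e1, e1, ← S.tr_piU hx hl]
    set T := tr H (-Real.log l) with hT
    set U := W.conjStarAlgEquiv u with hU
    have hTs : ScalingUnitary (amp N) (wK ξ) l T := tr_scaling hl
    have hUs : ScalingUnitary (amp N) (wK ξ) l U := (hsc l u).1 hu
    have hG : star T * U ∈ GK N ξ := GK_iff.2 (scaling_quot hl hTs hUs)
    have hcomm := S.comm_of_bicent hG hx
    have hTU : T * (star T * U) = U := by rw [← mul_assoc, hTs.2.2.1, one_mul]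
    have h1 : U * piU M N ξ x * star U =
        T * ((star T * U) * piU M N ξ x) * star U := by
      rw [← mul_assoc, hTU]
    rw [h1, hcomm]
    have h2 : star T * U * star U = star T := by rw [mul_assoc, hUs.2.2.1, mul_one]
    calc T * piU M N ξ x * star T =
        T * piU M N ξ x * (star T * U * star U) := by rw [h2]
      _ = _ := by simp only [mul_assoc]
  · intro x hx
    set y := W.conjStarAlgEquiv.symm (piU M N ξ x) with hy
    have hyM : y ∈ M := ((mem_Calg y).1 (hmemC x hx)).1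
    have hK : ∀ k ∈ K0 N ξ, ∀ᵐ s, W k s ∈ K0 N ξ := by
      intro k hk
      set P := (K0 N ξ).starProjection with hP
      have hPN : P ∈ N.commutant := proj_orb_mem N ξ
      have h1 : lift P (W k) = W k := by
        rw [← hW P hPN, Submodule.starProjection_eq_self_iff.2 hk]
      have h2 := lift_coe P (W k)
      rw [h1] at h2
      filter_upwards [h2] with s hs
      rw [hs]
      exact Submodule.starProjection_apply_mem _ _
    have hin : ∀ k ∈ K0 N ξ, ∀ k' ∈ K0 N ξ, ⟪k, y k'⟫_ℂ =
        ⟪ξ, x ξ⟫_ℂ * ⟪k, k'⟫_ℂ := by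
      intro k hk k' hk'
      have h1 := S.inner_piU hx AP.bicent_one (hK k hk) (hK k' hk')
      rw [S.piU_one, one_apply_eq_self, one_apply_eq_self, W.inner_map_map] at h1
      rw [← h1, hy, LinearIsometryEquiv.symm_conjStarAlgEquiv_apply_apply]
      have h2 := W.symm.inner_map_map (W k) (piU M N ξ x (W k'))
      rw [W.symm_apply_apply] at h2
      exact h2
    have hxi : ξ ∈ K0 N ξ := S.xi_mem_K0
    set c : ℂ := ⟪ξ, x ξ⟫_ℂ with hc
    have hEN : E y ∈ N := S.E_mem y hyM
    have hz : E y - c • (1 : H →L[ℂ] H) ∈ N := sub_mem hEN (smul_mem' _ (one_mem N))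
    set z := E y - c • (1 : H →L[ℂ] H) with hzdef
    have h0 : ⟪z ξ, z ξ⟫_ℂ = 0 := by
      have h1 : z ξ = E y ξ - c • ξ := rfl
      have h2 := S.E_inner hz (one_mem N) hyM
      rw [one_apply_eq_self] at h2
      have h3 := hin (z ξ) (mem_K0 hz) ξ hxi
      calc ⟪z ξ, z ξ⟫_ℂ = ⟪z ξ, E y ξ - c • ξ⟫_ℂ := rfl
        _ = 0 := by rw [inner_sub_right, h2, h3, inner_smul_right, sub_self]
    have hz0 : z = 0 := S.sep z (S.le z hz) (inner_self_eq_zero.1 h0)
    exact sub_eq_zero.1 hz0

end BFlow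

end Pool.Agent.Helper23
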