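import Pool.Agent.Helper70.U8
import Pool.Agent.Helper78.USlices
import Pool.Agent.Helper53.U.III1
import Pool.Agent.Helper23.UMain

/-!
# Definitions for the embedding of the relative flow of weights into the bicentralizer
-/

open scoped InnerProductSpace Topology ENNReal BoundedContinuousFunction
open ContinuousLinearMap Filter MeasureTheory

namespace Pool.Agent.Helper23

variable {H : Type*} [NormedAddCommGroup H] [InnerProductSpace ℂ H] [CompleteSpace H]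

/-- Bounded continuous families of elements of `M` which are translated by asymptotic
eigenoperators. -/
structure Fam (M N : VonNeumannAlgebra H) (ξ : H) (x : ℝ → H →L[ℂ] H) : Prop where
  mem : ∀ c, x c ∈ M
  bdd : ∃ C : ℝ, ∀ c, ‖x c‖ ≤ C
  cont : ∀ η : H, Continuous fun c => x c η
  shift : ∀ (c l : ℝ), 0 < l → ∀ a, LamSeq N ξ l a → ∀ η : H,
    Tendsto (fun n => (a n * x c - x (c + Real.log l) * a n) η) atTop (𝓝 0)

/-- The Gaussian window `ρ ↦ exp(-ε (ρ - r)²)`. -/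
noncomputable def wn (ε : ℝ) (hε : 0 < ε) (r : ℝ) : ℝ →ᵇ ℂ :=
  ((Real.exp (-(ε * r ^ 2)) : ℝ) : ℂ) • Helper70.U8.GB ε hε (2 * ε * r)

/-- The function `ρ ↦ exp(ρ) exp(-ε (ρ - r)²)`. -/
noncomputable def ewn (ε : ℝ) (hε : 0 < ε) (r : ℝ) : ℝ →ᵇ ℂ :=
  ((Real.exp (-(ε * r ^ 2)) : ℝ) : ℂ) • Helper70.U8.GB ε hε (2 * ε * r + 1)

/-- the unitary on `L²(ℝ, H)` implementing the modular group: `t ↦ Δ^{2πit}` in the Fourier
picture -/
noncomputable def WW (Ψ : (ℝ →ᵇ ℂ) →⋆ₐ[ℂ] (H →L[ℂ] H)) : L2R H →L[ℂ] L2R H :=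
  fco fun t : ℝ => Ψ (expB (2 * Real.pi * t))

/-- `x ∈ M` is the value at `0` of the decomposable operator `X`. -/
def AtZ (M N : VonNeumannAlgebra H) (ξ : H) (X : L2R H →L[ℂ] L2R H) (x : H →L[ℂ] H) : Prop :=
  X ∈ Rk M N ξ ∧ x ∈ M ∧ Tendsto (fun n => ‖X (ten (fn n) ξ) - ten (fn n) (x ξ)‖) atTop (𝓝 0)

end Pool.Agent.Helper23
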