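import Mathlib

/-!
# Definitions for the relative bicentralizer flow and the relative flow of weights
-/

open scoped InnerProductSpace Topology ENNReal
open Filter

namespace Pool.Agent.Helper23.RBF

variable {H : Type*} [NormedAddCommGroup H] [InnerProductSpace ℂ H] [CompleteSpace H]

/-- `N ⊆ M` is an inclusion of von Neumann algebras on `H`, `E` is a conditional expectation of
`M` onto `N`, `ξ` is a unit vector which is cyclic and separating for `M`, and the vector state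
`⟪ξ, · ξ⟫` of `M` is `φ ∘ E`, where `φ` is its restriction to `N`. (Every inclusion with a faithful
normal conditional expectation `E` and every faithful normal state `φ` of `N` are of this form in
the standard representation of `M`; linearity, positivity, faithfulness and normality of `E` are
consequences of the conditions listed here.) -/
structure Inclusion (M N : VonNeumannAlgebra H) (E : (H →L[ℂ] H) → (H →L[ℂ] H)) (ξ : H) :
    Prop where
  sub : ∀ x ∈ N, x ∈ M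
  norm_one : ‖ξ‖ = 1
  cyclic : Dense {η : H | ∃ a ∈ M, a ξ = η}
  separating : ∀ a ∈ M, a ξ = 0 → a = 0
  mem : ∀ x ∈ M, E x ∈ N
  fix : ∀ x ∈ N, E x = x
  bimod : ∀ a ∈ N, ∀ b ∈ N, ∀ x ∈ M, E (a * x * b) = a * E x * b
  state : ∀ x ∈ M, ⟪ξ, E x ξ⟫_ℂ = ⟪ξ, x ξ⟫_ℂ

/-- `a ∈ N` and `a φ = γ φ a`, i.e. `φ(x a) = γ φ(a x)` for all `x ∈ N`, for the state
`φ = ⟪ξ, · ξ⟫` of `N`. -/
def IsEigen (N : VonNeumannAlgebra H) (ξ : H) (γ : ℝ) (a : H →L[ℂ] H) : Prop :=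
  a ∈ N ∧ ∀ x ∈ N, ⟪ξ, (x * a) ξ⟫_ℂ = γ * ⟪ξ, (a * x) ξ⟫_ℂ

/-- The state `φ = ⟪ξ, · ξ⟫` of `N` is almost periodic: its eigenoperators generate `N`. -/
def AlmostPeriodicState (N : VonNeumannAlgebra H) (ξ : H) : Prop :=
  ∀ T : H →L[ℂ] H, (∀ γ : ℝ, 0 < γ → ∀ a, IsEigen N ξ γ a → a * T = T * a) → T ∈ N.commutant

/-- The centralizer `N_φ` of the state `φ = ⟪ξ, · ξ⟫` has trivial relative commutant in `N`. -/
def IrreducibleCentralizer (N : VonNeumannAlgebra H) (ξ : H) : Prop :=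
  ∀ x ∈ N, (∀ a, IsEigen N ξ 1 a → a * x = x * a) → ∃ c : ℂ, x = c • (1 : H →L[ℂ] H)

/-- The eigenvalues of the state `φ = ⟪ξ, · ξ⟫` are dense in the positive reals. -/
def DenseSpectrum (N : VonNeumannAlgebra H) (ξ : H) : Prop :=
  ∀ s t : ℝ, 0 < s → s < t → ∃ γ : ℝ, s < γ ∧ γ < t ∧ ∃ a, IsEigen N ξ γ a ∧ a ≠ 0

/-- Uniformly bounded sequences in `N` with `‖a_n φ - l φ a_n‖ → 0`. -/
def AsympEigen (N : VonNeumannAlgebra H) (ξ : H) (l : ℝ) (a : ℕ → H →L[ℂ] H) : Prop :=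
  (∀ n, a n ∈ N) ∧ (∃ C : ℝ, ∀ n, ‖a n‖ ≤ C) ∧
    ∀ ε : ℝ, 0 < ε → ∀ᶠ n in atTop, ∀ x ∈ N,
      ‖⟪ξ, (x * a n) ξ⟫_ℂ - l * ⟪ξ, (a n * x) ξ⟫_ℂ‖ ≤ ε * ‖x‖

/-- `B` is the relative bicentralizer of `N ⊆ M` with respect to `φ = ⟪ξ, · ξ⟫`. -/
def IsBicentralizer (M N : VonNeumannAlgebra H) (ξ : H) (B : VonNeumannAlgebra H) : Prop :=
  ∀ x, x ∈ B ↔ x ∈ M ∧ ∀ a, AsympEigen N ξ 1 a →
    ∀ η : H, Tendsto (fun n => (x * a n - a n * x) η) atTop (𝓝 0)

/-- `π` restricts to a *-isomorphism of `B` onto `C`. -/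
structure IsStarIso (B C : VonNeumannAlgebra H) (π : (H →L[ℂ] H) → (H →L[ℂ] H)) : Prop where
  maps : ∀ x ∈ B, π x ∈ C
  injective : ∀ x ∈ B, ∀ y ∈ B, π x = π y → x = y
  surjective : ∀ y ∈ C, ∃ x ∈ B, π x = y
  add : ∀ x ∈ B, ∀ y ∈ B, π (x + y) = π x + π y
  mul : ∀ x ∈ B, ∀ y ∈ B, π (x * y) = π x * π y
  smul : ∀ (c : ℂ), ∀ x ∈ B, π (c • x) = c • π x
  star : ∀ x ∈ B, π (star x) = star (π x)

/-- The defining property of the relative bicentralizer flow: if `‖a_n φ - l φ a_n‖ → 0` then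
`a_n x - β_l(x) a_n → 0` in the *-strong topology. -/
def FlowProperty (N : VonNeumannAlgebra H) (ξ : H) (B : VonNeumannAlgebra H)
    (β : ℝ → (H →L[ℂ] H) → (H →L[ℂ] H)) : Prop :=
  ∀ l : ℝ, 0 < l → ∀ a, AsympEigen N ξ l a → ∀ x ∈ B, ∀ η : H,
    Tendsto (fun n => (a n * x - β l x * a n) η) atTop (𝓝 0) ∧
    Tendsto (fun n => (star (a n * x - β l x * a n)) η) atTop (𝓝 0)

/-- `β` is a continuous action on `B` of the multiplicative group of positive reals by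
automorphisms. -/
structure IsFlow (B : VonNeumannAlgebra H) (β : ℝ → (H →L[ℂ] H) → (H →L[ℂ] H)) : Prop where
  automorphism : ∀ l : ℝ, 0 < l → IsStarIso B B (β l)
  action : ∀ l m : ℝ, 0 < l → 0 < m → ∀ x ∈ B, β (l * m) x = β l (β m x)
  continuous : ∀ x ∈ B, ∀ η : H, ContinuousOn (fun l : ℝ => β l x η) (Set.Ioi 0)

/-- `β` is the relative bicentralizer flow: a flow with the defining property, and any other
family of maps of `B` into itself with this property coincides with it. -/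
structure IsRelativeBicentralizerFlow (N : VonNeumannAlgebra H) (ξ : H) (B : VonNeumannAlgebra H)
    (β : ℝ → (H →L[ℂ] H) → (H →L[ℂ] H)) : Prop where
  flow : IsFlow B β
  property : FlowProperty N ξ B β
  unique : ∀ β' : ℝ → (H →L[ℂ] H) → (H →L[ℂ] H),
    (∀ l : ℝ, 0 < l → ∀ x ∈ B, β' l x ∈ B) → FlowProperty N ξ B β' →
      ∀ l : ℝ, 0 < l → ∀ x ∈ B, β' l x = β l x

/-- Faithful normal semifinite weights on `A`; only the values at positive elements of `A`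
matter. Normality: compatibility with suprema of upward directed sets (the supremum being the
limit of the quadratic forms). Semifiniteness: the positive elements of finite weight act
non-degenerately. -/
structure IsNSFWeight (A : VonNeumannAlgebra H) (ψ : (H →L[ℂ] H) → ℝ≥0∞) : Prop where
  add : ∀ x ∈ A, ∀ y ∈ A, 0 ≤ x → 0 ≤ y → ψ (x + y) = ψ x + ψ y
  smul : ∀ x ∈ A, 0 ≤ x → ∀ c : ℝ, 0 ≤ c → ψ ((c : ℂ) • x) = ENNReal.ofReal c * ψ x
  faithful : ∀ x ∈ A, 0 ≤ x → ψ x = 0 → x = 0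
  normal : ∀ (D : Set (H →L[ℂ] H)) (x : H →L[ℂ] H), D.Nonempty → DirectedOn (· ≤ ·) D →
    (∀ d ∈ D, d ∈ A ∧ 0 ≤ d) → x ∈ A →
    (∀ η : H, IsLUB {r : ℝ | ∃ d ∈ D, r = (⟪η, d η⟫_ℂ).re} (⟪η, x η⟫_ℂ).re) →
    ψ x = ⨆ d ∈ D, ψ d
  semifinite : ∀ η : H, (∀ x ∈ A, 0 ≤ x → ψ x ≠ ⊤ → x η = 0) → η = 0

/-- The unitaries `u` of `A` with `u ψ u* = l ψ`, where `(u ψ u*)(x) = ψ(u* x u)`. -/
def ScalingUnitary (A : VonNeumannAlgebra H) (ψ : (H →L[ℂ] H) → ℝ≥0∞) (l : ℝ)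
    (u : H →L[ℂ] H) : Prop :=
  u ∈ A ∧ star u * u = 1 ∧ u * star u = 1 ∧
    ∀ x ∈ A, 0 ≤ x → ψ (star u * x * u) = ENNReal.ofReal l * ψ x

/-- Dominant weights: faithful normal semifinite weights `ψ` whose centralizer (the von Neumann
algebra generated by the unitaries `u` with `u ψ u* = ψ`) is properly infinite, and such that
`ψ` and `l ψ` are unitarily equivalent for every `l > 0`. -/
structure IsDominant (A : VonNeumannAlgebra H) (ψ : (H →L[ℂ] H) → ℝ≥0∞) : Prop extends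
    IsNSFWeight A ψ where
  scale : ∀ l : ℝ, 0 < l → ∃ u, ScalingUnitary A ψ l u
  properlyInfinite : ∃ v w : H →L[ℂ] H, star v * v = 1 ∧ star w * w = 1 ∧ star v * w = 0 ∧
    ∀ T : H →L[ℂ] H, (∀ u, ScalingUnitary A ψ 1 u → u * T = T * u) →
      v * T = T * v ∧ w * T = T * w

/-- `C` is the relative commutant `(N_ψ)' ∩ M` of the centralizer of the weight `ψ` on `N`. -/
def IsRelCommCentralizer (M N : VonNeumannAlgebra H) (ψ : (H →L[ℂ] H) → ℝ≥0∞)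
    (C : VonNeumannAlgebra H) : Prop :=
  ∀ x, x ∈ C ↔ x ∈ M ∧ ∀ u, ScalingUnitary N ψ 1 u → u * x = x * u

/-- `π` is strongly continuous on bounded subsets of `B` (equivalently, normal). -/
def BoundedStronglyContinuous (B : VonNeumannAlgebra H)
    (π : (H →L[ℂ] H) → (H →L[ℂ] H)) : Prop :=
  ∀ (F : Filter (H →L[ℂ] H)), ∀ x ∈ B, ∀ r : ℝ, (∀ᶠ y in F, y ∈ B ∧ ‖y‖ ≤ r) →
    (∀ η : H, Tendsto (fun y => y η) F (𝓝 (x η))) →
    ∀ η : H, Tendsto (fun y => π y η) F (𝓝 (π x η))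

/-- `π` carries the flow `β` to the relative flow of weights `θ_l(y) = u y u*`, where `u` is any
unitary of `N` with `u ψ u* = l ψ`. -/
def IntertwinesFlows (N : VonNeumannAlgebra H) (ψ : (H →L[ℂ] H) → ℝ≥0∞)
    (B : VonNeumannAlgebra H) (β : ℝ → (H →L[ℂ] H) → (H →L[ℂ] H))
    (π : (H →L[ℂ] H) → (H →L[ℂ] H)) : Prop :=
  ∀ l : ℝ, 0 < l → ∀ u, ScalingUnitary N ψ l u → ∀ x ∈ B, π (β l x) = u * π x * star u

/-- `E(π(x)) = φ(E(x)) 1`. -/
def PreservesState (E : (H →L[ℂ] H) → (H →L[ℂ] H)) (ξ : H) (B : VonNeumannAlgebra H)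
    (π : (H →L[ℂ] H) → (H →L[ℂ] H)) : Prop :=
  ∀ x ∈ B, E (π x) = ⟪ξ, E x ξ⟫_ℂ • (1 : H →L[ℂ] H)

end Pool.Agent.Helper23.RBF
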