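import Pool.Agent.Helper23.Gk

/-!
# The flip unitaries
-/

open scoped InnerProductSpace Topology ENNReal
open ContinuousLinearMap Filter MeasureTheory

set_option linter.unusedSectionVars false
set_option linter.unusedVariables false

namespace Pool.Agent.Helper23

variable {H : Type*} [NormedAddCommGroup H] [InnerProductSpace ℂ H] [CompleteSpace H]
variable {M N : VonNeumannAlgebra H} {ξ : H} {E : (H →L[ℂ] H) → (H →L[ℂ] H)}

lemma pin_mul {A : VonNeumannAlgebra H} {p e : L2R H →L[ℂ] L2R H} (hp : Pin A ξ p)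
    (he : Pin A ξ e) (hpA : p ∈ amp A) (heA : e ∈ amp A) (hpe : p * e = e * p)
    (hpp : p * p = p) (hee : e * e = e) : Pin A ξ (e * p) := by
  intro Y hY
  have h1 := hp Y hY
  have h2 := he (Y * p) (mul_mem hY hpA)
  have h3 := hp (Y * (1 - e * p)) (mul_mem hY (sub_mem (one_mem _) (mul_mem heA hpA)))
  have e1 : Y * p * e = Y * (e * p) := by rw [mul_assoc, hpe]
  have e2 : Y * (1 - e * p) * p = Y * p * (1 - e) := by
    have : (1 - e * p) * p = p * (1 - e) := by
      rw [sub_mul, one_mul, mul_assoc, hpp, mul_sub, mul_one, hpe]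
    rw [mul_assoc, this, mul_assoc]
  have e3 : Y * (1 - e * p) * (1 - p) = Y * (1 - p) := by
    have : (1 - e * p) * (1 - p) = 1 - p := by
      rw [sub_mul, one_mul, mul_sub, mul_one, mul_assoc, hpp, sub_self, sub_zero]
    rw [mul_assoc, this]
  rw [e1] at h2
  rw [e2, e3] at h3
  rw [h1, h2, h3, add_assoc]

/-- abstract flip -/
lemma flip_abs {A : VonNeumannAlgebra H} {p V : L2R H →L[ℂ] L2R H} (hpA : p ∈ amp A)
    (hVA : V ∈ amp A) (hps : star p = p) (hpp : p * p = p) (hV : star V * V = 1)
    (hpVp : p * V * p = 0) (hp : Pin A ξ p) (hq : Pin A ξ (V * p * star V))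
    (hSV : ∀ Y ∈ amp A, SX ξ (Y * star V) = SX ξ Y) :
    V * p + star (V * p) + (1 - p - V * p * star (V * p)) ∈ GK A ξ := by
  set z := V * p with hz
  have hzA : z ∈ amp A := mul_mem hVA hpA
  have hzs : star z = p * star V := by rw [hz, star_mul, hps]
  have hzsz : star z * z = p := by
    rw [hzs, hz, mul_assoc, ← mul_assoc (star V), hV, one_mul, hpp]
  have hzp : z * p = z := by rw [hz, mul_assoc, hpp]
  have hpz : p * z = 0 := by rw [hz, ← mul_assoc, hpVp]
  have hzz : z * z = 0 := by
    calc z * z = (z * p) * z := by rw [hzp]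
      _ = 0 := by rw [mul_assoc, hpz, mul_zero]
  have hpzs : star z * p = 0 := by
    have := congrArg star hpz
    rwa [star_mul, hps, star_zero] at this
  have hzzs : star z * star z = 0 := by
    have := congrArg star hzz
    rwa [star_mul, star_zero] at this
  have hps' : p * star z = star z := by
    have := congrArg star hzp
    rwa [star_mul, hps] at this
  set q := z * star z with hqd
  have hqz : q * z = z := by rw [hqd, mul_assoc, hzsz, hzp]
  have hzq : z * q = 0 := by rw [hqd, ← mul_assoc, hzz, zero_mul]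
  have hzsq : star z * q = star z := by rw [hqd, ← mul_assoc, hzsz, hps']
  have hqs : star q = q := by rw [hqd, star_mul, star_star]
  have hqq : q * q = q := by rw [hqd, mul_assoc, ← mul_assoc (star z), hzsz, hps']
  have hqzs : q * star z = 0 := by rw [hqd, mul_assoc, hzzs, mul_zero]
  have hpq : p * q = 0 := by rw [hqd, ← mul_assoc, hpz, zero_mul]
  have hqp : q * p = 0 := by
    have := congrArg star hpq
    rwa [star_mul, hps, hqs, star_zero] at this
  have hqV : q = V * p * star V := by
    rw [hqd, hzs, ← mul_assoc, hz, mul_assoc V p p, hpp]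
  set r := 1 - p - q with hr
  have hrs : star r = r := by rw [hr, star_sub, star_sub, star_one, hps, hqs]
  set u := z + star z + r with hu
  have hus : star u = u := by
    rw [hu, star_add, star_add, star_star, hrs]; abel
  have hrz : r * z = 0 := by
    rw [hr, sub_mul, sub_mul, one_mul, hpz, hqz, sub_zero, sub_self]
  have hzr : z * r = 0 := by
    rw [hr, mul_sub, mul_sub, mul_one, hzp, hzq, sub_self, sub_self]
  have hrzs : r * star z = 0 := by
    have := congrArg star hzr
    rwa [star_mul, hrs, star_zero] at this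
  have hzsr : star z * r = 0 := by
    have := congrArg star hrz
    rwa [star_mul, hrs, star_zero] at this
  have hrp : r * p = 0 := by
    rw [hr, sub_mul, sub_mul, one_mul, hpp, hqp, sub_self, sub_self]
  have hrq : r * q = 0 := by
    rw [hr, sub_mul, sub_mul, one_mul, hpq, hqq, sub_zero, sub_self]
  have hrr : r * r = r := by
    have : r * r = r * (1 - p - q) := by rw [hr]
    rw [this, mul_sub, mul_sub, mul_one, hrp, hrq, sub_zero, sub_zero]
  have huu : u * u = 1 := by
    have : u * u = z * z + z * star z + z * r + (star z * z + star z * star z + star z * r) +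
        (r * z + r * star z + r * r) := by
      rw [hu]; simp only [add_mul, mul_add]
      abel
    rw [this, hzz, hzr, hzsz, hzzs, hzsr, hrz, hrzs, hrr, ← hqd, hr]
    abel
  have hrA : r ∈ amp A :=
    sub_mem (sub_mem (one_mem _) hpA) (mul_mem hzA (star_mem hzA))
  have huA : u ∈ amp A := add_mem (add_mem hzA (star_mem hzA)) hrA
  refine ⟨huA, by rw [hus, huu], by rw [hus, huu], fun Y hY => ?_⟩
  have hqA : q ∈ amp A := mul_mem hzA (star_mem hzA)
  rw [← hqV] at hq
  -- decomposition of Y u
  have d1 := hp (Y * u) (mul_mem hY huA)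
  have d2 := hq (Y * u * (1 - p)) (mul_mem (mul_mem hY huA) (sub_mem (one_mem _) hpA))
  have e1 : Y * u * p = Y * z := by
    have : u * p = z := by
      rw [hu, add_mul, add_mul, hzp, hpzs, hrp, add_zero, add_zero]
    rw [mul_assoc, this]
  have e2 : Y * u * (1 - p) * q = Y * star z := by
    have h1 : (1 - p) * q = q := by rw [sub_mul, one_mul, hpq, sub_zero]
    have h2 : u * q = star z := by
      rw [hu, add_mul, add_mul, hzq, hzsq, hrq, add_zero, zero_add]
    rw [mul_assoc, mul_assoc, h1, h2]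
  have e3 : Y * u * (1 - p) * (1 - q) = Y * r := by
    have h1 : (1 - p) * (1 - q) = r := by
      rw [sub_mul, one_mul, mul_sub, mul_one, hpq, sub_zero, hr]
      abel
    have h2 : u * r = r := by
      rw [hu, add_mul, add_mul, hzr, hzsr, hrr, add_zero, zero_add]
    rw [mul_assoc, mul_assoc, h1, h2]
  rw [e1] at d1
  rw [e2, e3] at d2
  -- decomposition of Y
  have d3 := hp Y hY
  have d4 := hq (Y * (1 - p)) (mul_mem hY (sub_mem (one_mem _) hpA))
  have e4 : Y * (1 - p) * q = Y * q := by
    have h1 : (1 - p) * q = q := by rw [sub_mul, one_mul, hpq, sub_zero]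
    rw [mul_assoc, h1]
  have e5 : Y * (1 - p) * (1 - q) = Y * r := by
    have h1 : (1 - p) * (1 - q) = r := by
      rw [sub_mul, one_mul, mul_sub, mul_one, hpq, sub_zero, hr]
      abel
    rw [mul_assoc, h1]
  rw [e4, e5] at d4
  -- the two identities
  have f1 : SX ξ (Y * star z) = SX ξ (Y * p) := by
    rw [hzs, ← mul_assoc]
    exact hSV _ (mul_mem hY hpA)
  have f2 : SX ξ (Y * q) = SX ξ (Y * z) := by
    have : Y * q = Y * z * star V := by
      rw [hqd, hzs, mul_assoc Y z, ← mul_assoc z, hzp]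
    rw [this]
    exact hSV _ (mul_mem hY hzA)
  rw [d1, d2, f1, d3, d4, f2]
  rw [← add_assoc, ← add_assoc, add_comm (SX ξ (Y * z))]

/-- indicator functions -/
noncomputable def ind (I : Set ℝ) : ℝ → ℂ := I.indicator fun _ => 1

lemma ind_of_mem {I : Set ℝ} {s : ℝ} (h : s ∈ I) : ind I s = 1 := Set.indicator_of_mem h _
lemma ind_of_notMem {I : Set ℝ} {s : ℝ} (h : s ∉ I) : ind I s = 0 := Set.indicator_of_notMem h _

lemma ind_bm {I : Set ℝ} (hI : MeasurableSet I) : BM (ind I) := by
  refine ⟨measurable_const.indicator hI, 1, zero_le_one, fun s => ?_⟩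
  by_cases h : s ∈ I
  · rw [ind_of_mem h]; simp
  · rw [ind_of_notMem h]; simp

lemma ind_conj (I : Set ℝ) : (fun s => (starRingEnd ℂ) (ind I s)) = ind I := by
  funext s
  by_cases h : s ∈ I
  · rw [ind_of_mem h, map_one]
  · rw [ind_of_notMem h, map_zero]

lemma ind_sq (I : Set ℝ) : (fun s => ind I s * ind I s) = ind I := by
  funext s
  by_cases h : s ∈ I
  · rw [ind_of_mem h, one_mul]
  · rw [ind_of_notMem h, zero_mul]

lemma mulOp_ind_star {I : Set ℝ} (hI : MeasurableSet I) :
    star (mulOp H (ind I)) = mulOp H (ind I) := by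
  rw [mulOp_star (ind_bm hI), ind_conj]

lemma mulOp_ind_sq {I : Set ℝ} (hI : MeasurableSet I) :
    mulOp H (ind I) * mulOp H (ind I) = mulOp H (ind I) := by
  ext F : 1
  change mulOp H (ind I) (mulOp H (ind I) F) = _
  rw [mulOp_mulOp (ind_bm hI) (ind_bm hI), ind_sq]

lemma tr_mulOp_ind {I : Set ℝ} (hI : MeasurableSet I) (t : ℝ) :
    tr H t * mulOp H (ind I) = mulOp H (ind ((fun s => s - t) ⁻¹' I)) * tr H t := by
  ext F : 1
  change tr H t (mulOp H (ind I) F) = mulOp H _ (tr H t F)
  rw [tr_mulOp (ind_bm hI)]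
  rfl

lemma lift_mulOp {m : ℝ → ℂ} (h : BM m) (a : H →L[ℂ] H) :
    lift a * mulOp H m = mulOp H m * lift a := by
  ext F : 1
  exact (mulOp_lift h a F).symm

lemma tr_lift' (t : ℝ) (a : H →L[ℂ] H) : tr H t * lift a = lift a * tr H t := by
  ext F : 1
  exact tr_lift t a F

lemma mulOp_ind_mul {I J : Set ℝ} (hI : MeasurableSet I) (hJ : MeasurableSet J)
    (h : ∀ s, s ∈ I → s ∉ J) : mulOp H (ind I) * mulOp H (ind J) = 0 := by
  ext F : 1
  change mulOp H (ind I) (mulOp H (ind J) F) = 0
  rw [mulOp_mulOp (ind_bm hI) (ind_bm hJ)]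
  ext1
  filter_upwards [mulOp_coe ((ind_bm hI).mul (ind_bm hJ)) F, Lp.coeFn_zero H 2 volume]
    with s h1 h2
  rw [h1, h2]
  by_cases hs : s ∈ I
  · rw [ind_of_notMem (h s hs), mul_zero, zero_smul]; rfl
  · rw [ind_of_notMem hs, zero_mul, zero_smul]; rfl

/-- the amplified isometry -/
noncomputable def VV (H : Type*) [NormedAddCommGroup H] [InnerProductSpace ℂ H] [CompleteSpace H]
    (v : H →L[ℂ] H) (t : ℝ) : L2R H →L[ℂ] L2R H := lift v * tr H t

lemma VV_isom {v : H →L[ℂ] H} (hv : star v * v = 1) (t : ℝ) : star (VV H v t) * VV H v t = 1 := by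
  rw [VV, star_mul, tr_star, ← lift_star, mul_assoc, ← mul_assoc (lift (star v)), ← lift_mul, hv,
    lift_one, one_mul]
  ext F : 1
  exact tr_neg_tr t F

/-- the flip -/
noncomputable def flip (v : H →L[ℂ] H) (t : ℝ) (I : Set ℝ) : L2R H →L[ℂ] L2R H :=
  VV H v t * mulOp H (ind I) + star (VV H v t * mulOp H (ind I)) +
    (1 - mulOp H (ind I) - VV H v t * mulOp H (ind I) * star (VV H v t * mulOp H (ind I)))

lemma Setting.flip_mem (S : Setting M N E ξ) {γ : ℝ} (hγ : 0 < γ) {v : H →L[ℂ] H}
    (hv : v ∈ eig N ξ γ) (hv1 : star v * v = 1) {I : Set ℝ} (hI : MeasurableSet I)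
    (hdis : ∀ s ∈ I, s - Real.log γ ∉ I) : flip v (Real.log γ) I ∈ GK N ξ := by
  set t := Real.log γ with ht
  have hVA : VV H v t ∈ amp N := mul_mem (lift_mem_amp hv.1) (tr_mem_amp t)
  have hpA : mulOp H (ind I) ∈ amp N := mulOp_mem_amp (ind_bm hI)
  have hI' : MeasurableSet ((fun s => s - t) ⁻¹' I) := (measurable_id.sub_const t) hI
  have hVp : VV H v t * mulOp H (ind I) = mulOp H (ind ((fun s => s - t) ⁻¹' I)) * VV H v t := by
    rw [VV, mul_assoc, tr_mulOp_ind hI, ← mul_assoc, lift_mulOp (ind_bm hI'), mul_assoc]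
  refine flip_abs hpA hVA (mulOp_ind_star hI) (mulOp_ind_sq hI) (VV_isom hv1 t) ?_
    (pin_mulOp N hI) ?_ (fun Y hY => ?_)
  · rw [mul_assoc, hVp, ← mul_assoc, mulOp_ind_mul hI hI' hdis, zero_mul]
  · have hq : VV H v t * mulOp H (ind I) * star (VV H v t) =
        lift (v * star v) * mulOp H (ind ((fun s => s - t) ⁻¹' I)) := by
      rw [hVp, VV, star_mul, tr_star, ← lift_star]
      have h1 : lift v * tr H t * (tr H (-t) * lift (star v)) = lift (v * star v) := by
        rw [mul_assoc, ← mul_assoc (tr H t), lift_mul]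
        have : tr H t * tr H (-t) = 1 := by
          ext F : 1
          exact tr_tr_neg t F
        rw [this, one_mul]
      rw [mul_assoc, h1, ← lift_mulOp (ind_bm hI')]
    rw [hq]
    have he : v * star v ∈ eig N ξ 1 := mul_star_mem_eig_one hγ.ne' hv hv
    have hes : star (v * star v) = v * star v := by rw [star_mul, star_star]
    have hee : (v * star v) * (v * star v) = v * star v := by
      rw [mul_assoc, ← mul_assoc (star v), hv1, one_mul]
    refine pin_mul (pin_mulOp N hI') (S.pin_lift he hes hee) (mulOp_mem_amp (ind_bm hI'))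
      (lift_mem_amp he.1) (lift_mulOp (ind_bm hI') _).symm (mulOp_ind_sq hI') ?_
    rw [← lift_mul, hee]
  · have := S.SX_V hγ hv hv1 t hY
    rw [ht, Real.exp_log hγ, inv_mul_cancel₀ hγ.ne', ENNReal.ofReal_one, one_mul] at this
    exact this

end Pool.Agent.Helper23
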