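import Pool.Agent.Helper23.Iso

/-!
# The flow on the continuous part of `Q`
-/

open scoped InnerProductSpace Topology
open ContinuousLinearMap Filter

namespace Pool.Agent.Helper23

variable {H : Type*} [NormedAddCommGroup H] [InnerProductSpace ℂ H] [CompleteSpace H]
variable {M N : VonNeumannAlgebra H} {ξ : H} {E : (H →L[ℂ] H) → (H →L[ℂ] H)}

/-- continuous elements of `Q` -/
def InB (M N : VonNeumannAlgebra H) (ξ : H) (x : H →L[ℂ] H) : Prop :=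
  x ∈ Qalg M N ξ ∧ Tendsto (fun γ => al M N ξ γ x ξ) (𝓝[Gam N ξ] 1) (𝓝 (x ξ))

lemma Gam_inv {γ : ℝ} (hγ : γ ∈ Gam N ξ) : γ⁻¹ ∈ Gam N ξ :=
  ⟨inv_pos.2 hγ.1, star_ne hγ.1.ne' hγ.2⟩

open Classical in
/-- the flow -/
noncomputable def bet (M N : VonNeumannAlgebra H) (ξ : H) (l : ℝ) (x : H →L[ℂ] H) : H →L[ℂ] H :=
  if h : ∃ y ∈ Qalg M N ξ, Tendsto (fun γ => al M N ξ γ x ξ) (𝓝[Gam N ξ] l) (𝓝 (y ξ))
  then h.choose else 0

namespace AP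

variable (S : AP M N E ξ)
include S

lemma Gam_mul {γ δ : ℝ} (hγ : γ ∈ Gam N ξ) (hδ : δ ∈ Gam N ξ) : γ * δ ∈ Gam N ξ := by
  obtain ⟨hγ0, a, ha, ha0⟩ := hγ
  refine ⟨mul_pos hγ0 hδ.1, ?_⟩
  by_contra hcon
  push Not at hcon
  apply ha0
  refine Rel.unique S.irr hδ.1.ne' hδ.2 fun b hb => ?_
  rw [hcon _ (eig_mul ha hb), zero_mul]

lemma one_mem_Gam : (1 : ℝ) ∈ Gam N ξ := by
  refine ⟨one_pos, 1, one_mem_eig, fun h => ?_⟩
  have h1 : ξ = 0 := by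
    have := congrArg (fun T : H →L[ℂ] H => T ξ) h
    simpa using this
  have h2 := S.norm_one
  rw [h1, norm_zero] at h2
  exact zero_ne_one h2

lemma mem_closure_Gam {l : ℝ} (hl : 0 < l) : l ∈ closure (Gam N ξ) := by
  rw [Metric.mem_closure_iff]
  intro ε hε
  obtain ⟨γ, hγ, h1, h2⟩ := S.dns l (l + ε) hl (by linarith)
  exact ⟨γ, hγ, by rw [Real.dist_eq, abs_sub_comm, abs_of_pos (by linarith)]; linarith⟩

lemma neBot {l : ℝ} (hl : 0 < l) : (𝓝[Gam N ξ] l).NeBot :=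
  mem_closure_iff_nhdsWithin_neBot.1 (S.mem_closure_Gam hl)

lemma denseQ : Dense (orb (Qalg M N ξ).commutant ξ : Set H) := by
  refine S.dense_comm.mono ?_
  rintro _ ⟨a, ha, rfl⟩
  refine ⟨a, ?_, rfl⟩
  rw [mem_comm_iff] at ha ⊢
  exact fun g hg => ha g (mem_Qalg.1 hg).1

lemma al_mem' (γ : ℝ) {x : H →L[ℂ] H} (hx : x ∈ Qalg M N ξ) : al M N ξ γ x ∈ Qalg M N ξ := by
  by_cases hγ : γ ∈ Gam N ξ
  · exact S.al_mem hγ hx
  · rw [al, dif_neg (fun h => hγ h.1)]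
    exact zero_mem _

lemma al_opNorm' (γ : ℝ) {x : H →L[ℂ] H} (hx : x ∈ Qalg M N ξ) :
    ‖al M N ξ γ x‖ ≤ 2 * ‖x‖ := by
  by_cases hγ : γ ∈ Gam N ξ
  · exact S.al_opNorm hγ hx
  · rw [al, dif_neg (fun h => hγ h.1), norm_zero]
    positivity

lemma al_add {γ : ℝ} (hγ : γ ∈ Gam N ξ) {x y : H →L[ℂ] H} (hx : x ∈ Qalg M N ξ)
    (hy : y ∈ Qalg M N ξ) : al M N ξ γ (x + y) = al M N ξ γ x + al M N ξ γ y :=
  S.al_unique hγ (add_mem hx hy) ((S.al_rel hγ hx).add (S.al_rel hγ hy))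

lemma al_sub {γ : ℝ} (hγ : γ ∈ Gam N ξ) {x y : H →L[ℂ] H} (hx : x ∈ Qalg M N ξ)
    (hy : y ∈ Qalg M N ξ) : al M N ξ γ (x - y) = al M N ξ γ x - al M N ξ γ y :=
  S.al_unique hγ (sub_mem hx hy) ((S.al_rel hγ hx).sub (S.al_rel hγ hy))

lemma al_smul {γ : ℝ} (hγ : γ ∈ Gam N ξ) (c : ℂ) {x : H →L[ℂ] H} (hx : x ∈ Qalg M N ξ) :
    al M N ξ γ (c • x) = c • al M N ξ γ x :=
  S.al_unique hγ (smul_mem' c hx) ((S.al_rel hγ hx).smul c)

lemma al_mul {γ : ℝ} (hγ : γ ∈ Gam N ξ) {x y : H →L[ℂ] H} (hx : x ∈ Qalg M N ξ)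
    (hy : y ∈ Qalg M N ξ) : al M N ξ γ (x * y) = al M N ξ γ x * al M N ξ γ y :=
  S.al_unique hγ (mul_mem hx hy) ((S.al_rel hγ hx).mul (S.al_rel hγ hy))

lemma al_star {γ : ℝ} (hγ : γ ∈ Gam N ξ) {x : H →L[ℂ] H} (hx : x ∈ Qalg M N ξ) :
    al M N ξ γ (star x) = star (al M N ξ γ x) :=
  S.al_unique hγ (star_mem hx)
    ((S.al_rel hγ hx).star' S.irr hγ.1.ne' hγ.2 (S.al_mem hγ hx))

lemma al_one {γ : ℝ} (hγ : γ ∈ Gam N ξ) : al M N ξ γ (1 : H →L[ℂ] H) = 1 :=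
  S.al_unique hγ (one_mem _) (Rel.one γ)

lemma al_al {γ δ : ℝ} (hγ : γ ∈ Gam N ξ) (hδ : δ ∈ Gam N ξ) {x : H →L[ℂ] H}
    (hx : x ∈ Qalg M N ξ) : al M N ξ γ (al M N ξ δ x) = al M N ξ (γ * δ) x :=
  (S.al_unique (S.Gam_mul hγ hδ) hx (Rel.comp S.irr hδ.1.ne' hδ.2 (S.al_mem hδ hx)
    (S.al_rel hδ hx) (S.al_rel hγ (S.al_mem hδ hx)))).symm

lemma al_id {x : H →L[ℂ] H} (hx : x ∈ Qalg M N ξ) : al M N ξ 1 x = x :=
  S.al_unique S.one_mem_Gam hx fun a ha => (mem_Qalg.1 hx).2 a ha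

lemma al_state {γ : ℝ} (hγ : γ ∈ Gam N ξ) {x : H →L[ℂ] H} (hx : x ∈ Qalg M N ξ) :
    ⟪ξ, al M N ξ γ x ξ⟫_ℂ = ⟪ξ, x ξ⟫_ℂ :=
  S.rel_state S.irr hγ.2 hx (S.al_mem hγ hx) (S.al_rel hγ hx)

lemma al_inner {γ : ℝ} (hγ : γ ∈ Gam N ξ) {x y : H →L[ℂ] H} (hx : x ∈ Qalg M N ξ)
    (hy : y ∈ Qalg M N ξ) : ⟪al M N ξ γ y ξ, al M N ξ γ x ξ⟫_ℂ = ⟪y ξ, x ξ⟫_ℂ := by
  have h := S.al_state hγ (mul_mem (star_mem hy) hx)
  rw [S.al_mul hγ (star_mem hy) hx, S.al_star hγ hy] at h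
  change ⟪ξ, (star (al M N ξ γ y)) (al M N ξ γ x ξ)⟫_ℂ = ⟪ξ, (star y) (x ξ)⟫_ℂ at h
  rwa [inner_star_right, inner_star_right] at h

lemma al_norm_sub {γ : ℝ} (hγ : γ ∈ Gam N ξ) {x y : H →L[ℂ] H} (hx : x ∈ Qalg M N ξ)
    (hy : y ∈ Qalg M N ξ) : ‖al M N ξ γ x ξ - al M N ξ γ y ξ‖ = ‖x ξ - y ξ‖ := by
  rw [← sub_apply, ← S.al_sub hγ hx hy, S.al_norm hγ (sub_mem hx hy), sub_apply]

omit S in
lemma InB.contAt {x : H →L[ℂ] H} (h : InB M N ξ x) : ContAt M N ξ x := by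
  intro ε hε
  have h1 := h.2
  rw [Metric.tendsto_nhdsWithin_nhds] at h1
  obtain ⟨η, hη, h2⟩ := h1 ε hε
  refine ⟨η, hη, fun γ hγ hγ' => ?_⟩
  have := h2 hγ (by rwa [Real.dist_eq])
  rw [dist_eq_norm] at this
  rw [sub_apply]
  exact this.le

omit S in
lemma tendsto_al_of_contAt {x : H →L[ℂ] H} (hx : x ∈ Qalg M N ξ) (h : ContAt M N ξ x) :
    InB M N ξ x := by
  refine ⟨hx, ?_⟩
  rw [Metric.tendsto_nhdsWithin_nhds]
  intro ε hε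
  obtain ⟨η, hη, h1⟩ := h (ε / 2) (by positivity)
  refine ⟨η, hη, fun γ hγ hd => ?_⟩
  have := h1 γ hγ (by rwa [Real.dist_eq] at hd)
  rw [sub_apply] at this
  rw [dist_eq_norm]
  linarith

/-- existence of the limits defining the flow -/
lemma exists_bet {x : H →L[ℂ] H} (h : InB M N ξ x) {l : ℝ} (hl : 0 < l) :
    ∃ y ∈ Qalg M N ξ, Tendsto (fun γ => al M N ξ γ x ξ) (𝓝[Gam N ξ] l) (𝓝 (y ξ)) := by
  have hne := S.neBot hl
  have hcau : Cauchy (map (fun γ => al M N ξ γ x ξ) (𝓝[Gam N ξ] l)) := by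
    rw [Metric.cauchy_iff]
    refine ⟨hne.map _, fun ε hε => ?_⟩
    obtain ⟨η, hη, h1⟩ := InB.contAt h (ε / 2) (by positivity)
    set r := min (l / 2) (η * l / 8) with hr
    have hr0 : 0 < r := by positivity
    refine ⟨(fun γ => al M N ξ γ x ξ) '' (Gam N ξ ∩ Metric.ball l r), ?_, ?_⟩
    · exact image_mem_map (inter_mem_nhdsWithin _ (Metric.ball_mem_nhds l hr0))
    · rintro _ ⟨γ, ⟨hγ, hγ1⟩, rfl⟩ _ ⟨δ, ⟨hδ, hδ1⟩, rfl⟩
      rw [Metric.mem_ball, Real.dist_eq] at hγ1 hδ1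
      have hq : γ⁻¹ * δ ∈ Gam N ξ := S.Gam_mul (Gam_inv hγ) hδ
      have h2 : al M N ξ δ x = al M N ξ γ (al M N ξ (γ⁻¹ * δ) x) := by
        rw [S.al_al hγ hq h.1, ← mul_assoc, mul_inv_cancel₀ hγ.1.ne', one_mul]
      have h3 : |γ⁻¹ * δ - 1| < η := by
        have e1 : γ⁻¹ * δ - 1 = (δ - γ) / γ := by
          field_simp [hγ.1.ne']
        have e2 : |δ - γ| < η * l / 4 := by
          have e3 : |δ - γ| ≤ |δ - l| + |γ - l| := by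
            have : δ - γ = (δ - l) - (γ - l) := by ring
            rw [this]; exact abs_sub _ _
          have e4 := min_le_right (l / 2) (η * l / 8)
          linarith
        have e3 : l / 2 ≤ γ := by
          have := min_le_left (l / 2) (η * l / 8)
          have := (abs_lt.1 hγ1).1
          linarith
        rw [e1, abs_div, abs_of_pos hγ.1, div_lt_iff₀ hγ.1]
        have e4 : η * (l / 2) ≤ η * γ := mul_le_mul_of_nonneg_left e3 hη.le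
        have e5 : 0 < η * l := by positivity
        nlinarith
      have h4 := h1 _ hq h3
      rw [sub_apply] at h4
      change dist (al M N ξ γ x ξ) (al M N ξ δ x ξ) < ε
      rw [dist_comm, dist_eq_norm, h2, S.al_norm_sub hγ (S.al_mem hq h.1) h.1]
      linarith
  obtain ⟨η, hη⟩ := CompleteSpace.complete hcau
  obtain ⟨y, hy, hyη, -⟩ := exists_limit (Qalg M N ξ) S.denseQ
    (C := 2 * ‖x‖) (l := 𝓝[Gam N ξ] l) (by positivity) (fun γ => S.al_mem' γ h.1)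
    (fun γ => S.al_opNorm' γ h.1) hη
  exact ⟨y, hy, by rw [hyη]; exact hη⟩

lemma bet_spec {x : H →L[ℂ] H} (h : InB M N ξ x) {l : ℝ} (hl : 0 < l) :
    bet M N ξ l x ∈ Qalg M N ξ ∧
      Tendsto (fun γ => al M N ξ γ x ξ) (𝓝[Gam N ξ] l) (𝓝 (bet M N ξ l x ξ)) := by
  have h1 := S.exists_bet h hl
  rw [bet, dif_pos h1]
  exact h1.choose_spec

lemma bet_memQ {x : H →L[ℂ] H} (h : InB M N ξ x) {l : ℝ} (hl : 0 < l) :
    bet M N ξ l x ∈ Qalg M N ξ := (S.bet_spec h hl).1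

/-- strong convergence -/
lemma bet_tendsto {x : H →L[ℂ] H} (h : InB M N ξ x) {l : ℝ} (hl : 0 < l) (ζ : H) :
    Tendsto (fun γ => al M N ξ γ x ζ) (𝓝[Gam N ξ] l) (𝓝 (bet M N ξ l x ζ)) := by
  have h1 := (S.bet_spec h hl).2
  have h2 : Tendsto (fun γ => (al M N ξ γ x - bet M N ξ l x) ζ) (𝓝[Gam N ξ] l) (𝓝 0) := by
    refine tendsto_of_bounded (Qalg M N ξ) S.denseQ
      (x := fun γ => al M N ξ γ x - bet M N ξ l x) (C := 2 * ‖x‖ + ‖bet M N ξ l x‖)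
      (fun γ => sub_mem (S.al_mem' γ h.1) (S.bet_memQ h hl))
      (fun γ => (norm_sub_le _ _).trans (add_le_add (S.al_opNorm' γ h.1) le_rfl)) ?_ ζ
    have h3 := h1.sub_const (bet M N ξ l x ξ)
    rw [sub_self] at h3
    exact h3
  have h3 := h2.add_const (bet M N ξ l x ζ)
  rw [zero_add] at h3
  refine h3.congr fun γ => ?_
  rw [sub_apply, sub_add_cancel]

lemma bet_unique {x y : H →L[ℂ] H} (h : InB M N ξ x) {l : ℝ} (hl : 0 < l)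
    (hy : y ∈ Qalg M N ξ)
    (ht : Tendsto (fun γ => al M N ξ γ x ξ) (𝓝[Gam N ξ] l) (𝓝 (y ξ))) :
    bet M N ξ l x = y := by
  have hne := S.neBot hl
  exact eq_of_dense (Qalg M N ξ) S.denseQ (S.bet_memQ h hl) hy
    (tendsto_nhds_unique (S.bet_spec h hl).2 ht)

lemma bet_eq_al {x : H →L[ℂ] H} (h : InB M N ξ x) {γ : ℝ} (hγ : γ ∈ Gam N ξ) :
    bet M N ξ γ x = al M N ξ γ x := by
  have h1 := (S.bet_spec h hγ.1).2
  have h2 : Tendsto (fun γ => al M N ξ γ x ξ) (pure γ) (𝓝 (bet M N ξ γ x ξ)) :=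
    h1.mono_left (pure_le_nhdsWithin hγ)
  have h3 := tendsto_nhds_unique h2 (tendsto_pure_nhds _ _)
  exact eq_of_dense (Qalg M N ξ) S.denseQ (S.bet_memQ h hγ.1) (S.al_mem hγ h.1) h3

lemma bet_id {x : H →L[ℂ] H} (h : InB M N ξ x) : bet M N ξ 1 x = x := by
  rw [S.bet_eq_al h S.one_mem_Gam, S.al_id h.1]

lemma bet_norm {x : H →L[ℂ] H} (h : InB M N ξ x) {l : ℝ} (hl : 0 < l) :
    ‖bet M N ξ l x ξ‖ = ‖x ξ‖ := by
  have hne := S.neBot hl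
  have h1 := (S.bet_spec h hl).2.norm
  refine tendsto_nhds_unique h1 (tendsto_const_nhds.congr' ?_)
  filter_upwards [self_mem_nhdsWithin] with γ hγ
  rw [S.al_norm hγ h.1]

lemma bet_opNorm {x : H →L[ℂ] H} (h : InB M N ξ x) {l : ℝ} (hl : 0 < l) :
    ‖bet M N ξ l x‖ ≤ 2 * ‖x‖ := by
  have hne := S.neBot hl
  refine ContinuousLinearMap.opNorm_le_bound _ (by positivity) fun ζ => ?_
  refine le_of_tendsto (S.bet_tendsto h hl ζ).norm (Eventually.of_forall fun γ => ?_)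
  exact (al M N ξ γ x).le_of_opNorm_le (S.al_opNorm' γ h.1) ζ

lemma bet_state {x : H →L[ℂ] H} (h : InB M N ξ x) {l : ℝ} (hl : 0 < l) :
    ⟪ξ, bet M N ξ l x ξ⟫_ℂ = ⟪ξ, x ξ⟫_ℂ := by
  have hne := S.neBot hl
  have h1 : Tendsto (fun γ => ⟪ξ, al M N ξ γ x ξ⟫_ℂ) (𝓝[Gam N ξ] l)
      (𝓝 ⟪ξ, bet M N ξ l x ξ⟫_ℂ) := tendsto_const_nhds.inner (S.bet_spec h hl).2
  refine tendsto_nhds_unique h1 (tendsto_const_nhds.congr' ?_)
  filter_upwards [self_mem_nhdsWithin] with γ hγ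
  rw [S.al_state hγ h.1]

/-- closedness of the continuous part in the 2-norm -/
lemma InB_of_closure {x : H →L[ℂ] H} (hx : x ∈ Qalg M N ξ)
    (h : x ξ ∈ closure {v : H | ∃ y, InB M N ξ y ∧ v = y ξ}) : InB M N ξ x := by
  refine tendsto_al_of_contAt hx fun ε hε => ?_
  obtain ⟨_, ⟨y, hy, rfl⟩, hd⟩ := Metric.mem_closure_iff.1 h (ε / 3) (by positivity)
  obtain ⟨η, hη, h1⟩ := InB.contAt hy (ε / 3) (by positivity)
  refine ⟨η, hη, fun γ hγ hγ' => ?_⟩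
  have h2 := h1 γ hγ hγ'
  rw [sub_apply] at h2 ⊢
  have h3 : al M N ξ γ x ξ - x ξ = (al M N ξ γ x ξ - al M N ξ γ y ξ) +
      (al M N ξ γ y ξ - y ξ) + (y ξ - x ξ) := by abel
  rw [h3]
  have h4 := S.al_norm_sub hγ hx hy.1
  rw [dist_eq_norm] at hd
  calc _ ≤ ‖(al M N ξ γ x ξ - al M N ξ γ y ξ) + (al M N ξ γ y ξ - y ξ)‖ + ‖y ξ - x ξ‖ :=
        norm_add_le _ _
    _ ≤ ‖al M N ξ γ x ξ - al M N ξ γ y ξ‖ + ‖al M N ξ γ y ξ - y ξ‖ + ‖y ξ - x ξ‖ := by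
        gcongr; exact norm_add_le _ _
    _ ≤ ε := by
        rw [h4, norm_sub_rev (y ξ)]
        linarith

lemma InB_one : InB M N ξ (1 : H →L[ℂ] H) := by
  refine ⟨one_mem _, ?_⟩
  refine tendsto_const_nhds.congr' ?_
  filter_upwards [self_mem_nhdsWithin] with γ hγ
  rw [S.al_one hγ]

lemma InB_add {x y : H →L[ℂ] H} (hx : InB M N ξ x) (hy : InB M N ξ y) : InB M N ξ (x + y) := by
  refine ⟨add_mem hx.1 hy.1, ?_⟩
  refine (hx.2.add hy.2).congr' ?_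
  filter_upwards [self_mem_nhdsWithin] with γ hγ
  rw [S.al_add hγ hx.1 hy.1]
  rfl

lemma InB_smul (c : ℂ) {x : H →L[ℂ] H} (hx : InB M N ξ x) : InB M N ξ (c • x) := by
  refine ⟨smul_mem' c hx.1, ?_⟩
  refine (hx.2.const_smul c).congr' ?_
  filter_upwards [self_mem_nhdsWithin] with γ hγ
  rw [S.al_smul hγ c hx.1]
  rfl

lemma tendsto_mul {x y : H →L[ℂ] H} (hx : InB M N ξ x) (hy : InB M N ξ y) {l : ℝ} (hl : 0 < l) :
    Tendsto (fun γ => al M N ξ γ (x * y) ξ) (𝓝[Gam N ξ] l)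
      (𝓝 (bet M N ξ l x (bet M N ξ l y ξ))) := by
  have h1 : Tendsto (fun γ => al M N ξ γ x (al M N ξ γ y ξ - bet M N ξ l y ξ) +
      al M N ξ γ x (bet M N ξ l y ξ)) (𝓝[Gam N ξ] l)
      (𝓝 (0 + bet M N ξ l x (bet M N ξ l y ξ))) := by
    refine Tendsto.add ?_ (S.bet_tendsto hx hl _)
    refine squeeze_zero_norm (a := fun γ => 2 * ‖x‖ * ‖al M N ξ γ y ξ - bet M N ξ l y ξ‖)
      (fun γ => ?_) ?_
    · exact (al M N ξ γ x).le_of_opNorm_le (S.al_opNorm' γ hx.1) _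
    · have h2 := ((S.bet_spec hy hl).2.sub_const (bet M N ξ l y ξ)).norm.const_mul (2 * ‖x‖)
      simpa using h2
  rw [zero_add] at h1
  refine h1.congr' ?_
  filter_upwards [self_mem_nhdsWithin] with γ hγ
  rw [S.al_mul hγ hx.1 hy.1, map_sub, sub_add_cancel]
  rfl

lemma InB_mul {x y : H →L[ℂ] H} (hx : InB M N ξ x) (hy : InB M N ξ y) : InB M N ξ (x * y) := by
  refine ⟨mul_mem hx.1 hy.1, ?_⟩
  have h := S.tendsto_mul hx hy one_pos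
  rw [S.bet_id hx, S.bet_id hy] at h
  exact h

lemma InB_star {x : H →L[ℂ] H} (hx : InB M N ξ x) : InB M N ξ (star x) := by
  refine ⟨star_mem hx.1, ?_⟩
  -- norm convergence from weak convergence
  have h1 : Tendsto (fun γ => ⟪ξ, al M N ξ γ x ((star x) ξ)⟫_ℂ) (𝓝[Gam N ξ] 1)
      (𝓝 ⟪ξ, x ((star x) ξ)⟫_ℂ) := by
    have := S.bet_tendsto hx one_pos ((star x) ξ)
    rw [S.bet_id hx] at this
    exact tendsto_const_nhds.inner this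
  have h2 : Tendsto (fun γ => 2 * ‖(star x) ξ‖ ^ 2 -
      2 * (⟪ξ, al M N ξ γ x ((star x) ξ)⟫_ℂ).re) (𝓝[Gam N ξ] 1)
      (𝓝 (2 * ‖(star x) ξ‖ ^ 2 - 2 * (⟪ξ, x ((star x) ξ)⟫_ℂ).re)) :=
    ((Complex.continuous_re.tendsto _).comp h1 |>.const_mul 2).const_sub _
  have h3 : (⟪ξ, x ((star x) ξ)⟫_ℂ).re = ‖(star x) ξ‖ ^ 2 := by
    have := norm_sq_apply (star x) ξ
    rw [star_star] at this
    rw [← this, Complex.ofReal_re]
  rw [h3, sub_self] at h2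
  have h4 : Tendsto (fun γ => ‖al M N ξ γ (star x) ξ - (star x) ξ‖ ^ 2) (𝓝[Gam N ξ] 1)
      (𝓝 0) := by
    refine h2.congr' ?_
    filter_upwards [self_mem_nhdsWithin] with γ hγ
    have h5 := @norm_sub_sq ℂ _ _ _ _ (al M N ξ γ (star x) ξ) ((star x) ξ)
    rw [h5, S.al_norm hγ (star_mem hx.1)]
    have h6 : ⟪al M N ξ γ (star x) ξ, (star x) ξ⟫_ℂ =
        ⟪ξ, al M N ξ γ x ((star x) ξ)⟫_ℂ := by
      rw [S.al_star hγ hx.1, inner_star_left]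
    rw [h6]
    simp only [RCLike.re_to_complex]
    ring
  have h5 : Tendsto (fun γ => ‖al M N ξ γ (star x) ξ - (star x) ξ‖) (𝓝[Gam N ξ] 1) (𝓝 0) := by
    have := (Real.continuous_sqrt.tendsto 0).comp h4
    rw [Real.sqrt_zero] at this
    refine this.congr fun γ => ?_
    exact Real.sqrt_sq (norm_nonneg _)
  exact tendsto_sub_nhds_zero_iff.1 (tendsto_zero_iff_norm_tendsto_zero.2 h5)

end AP

end Pool.Agent.Helper23
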