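import Pool.Agent.Helper23.Flow

/-!
# The flow: algebraic properties and continuity
-/

open scoped InnerProductSpace Topology
open ContinuousLinearMap Filter

namespace Pool.Agent.Helper23

variable {H : Type*} [NormedAddCommGroup H] [InnerProductSpace ℂ H] [CompleteSpace H]
variable {M N : VonNeumannAlgebra H} {ξ : H} {E : (H →L[ℂ] H) → (H →L[ℂ] H)}

lemma tendsto_of_bounded_ev {ι : Type*} {l : Filter ι} (A : VonNeumannAlgebra H) {ξ : H}
    (hd : Dense (orb A.commutant ξ : Set H)) {x : ι → H →L[ℂ] H} {C : ℝ}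
    (hx : ∀ᶠ i in l, x i ∈ A ∧ ‖x i‖ ≤ C) (hC0 : 0 ≤ C)
    (h0 : Tendsto (fun i => x i ξ) l (nhds 0)) (ζ : H) :
    Tendsto (fun i => x i ζ) l (nhds 0) := by
  classical
  have h1 : Tendsto (fun i => (if x i ∈ A ∧ ‖x i‖ ≤ C then x i else 0) ζ) l (nhds 0) := by
    refine tendsto_of_bounded A hd (x := fun i => if x i ∈ A ∧ ‖x i‖ ≤ C then x i else 0) (C := C)
      (fun i => ?_) (fun i => ?_) (h0.congr' ?_) ζ
    · by_cases h : x i ∈ A ∧ ‖x i‖ ≤ C
      · simp only [if_pos h]; exact h.1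
      · simp only [if_neg h]; exact zero_mem A
    · by_cases h : x i ∈ A ∧ ‖x i‖ ≤ C
      · simp only [if_pos h]; exact h.2
      · simp only [if_neg h, norm_zero]; exact hC0
    · filter_upwards [hx] with i hi
      rw [if_pos hi]
  refine h1.congr' ?_
  filter_upwards [hx] with i hi
  rw [if_pos hi]

namespace AP

variable (S : AP M N E ξ)
include S

lemma bet_mul {x y : H →L[ℂ] H} (hx : InB M N ξ x) (hy : InB M N ξ y) {l : ℝ} (hl : 0 < l) :
    bet M N ξ l (x * y) = bet M N ξ l x * bet M N ξ l y :=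
  S.bet_unique (S.InB_mul hx hy) hl (mul_mem (S.bet_memQ hx hl) (S.bet_memQ hy hl))
    (S.tendsto_mul hx hy hl)

lemma bet_add {x y : H →L[ℂ] H} (hx : InB M N ξ x) (hy : InB M N ξ y) {l : ℝ} (hl : 0 < l) :
    bet M N ξ l (x + y) = bet M N ξ l x + bet M N ξ l y := by
  refine S.bet_unique (S.InB_add hx hy) hl (add_mem (S.bet_memQ hx hl) (S.bet_memQ hy hl)) ?_
  refine ((S.bet_spec hx hl).2.add (S.bet_spec hy hl).2).congr' ?_
  filter_upwards [self_mem_nhdsWithin] with γ hγ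
  rw [S.al_add hγ hx.1 hy.1]
  rfl

lemma bet_smul (c : ℂ) {x : H →L[ℂ] H} (hx : InB M N ξ x) {l : ℝ} (hl : 0 < l) :
    bet M N ξ l (c • x) = c • bet M N ξ l x := by
  refine S.bet_unique (S.InB_smul c hx) hl (smul_mem' c (S.bet_memQ hx hl)) ?_
  refine ((S.bet_spec hx hl).2.const_smul c).congr' ?_
  filter_upwards [self_mem_nhdsWithin] with γ hγ
  rw [S.al_smul hγ c hx.1]
  rfl

lemma InB_neg {x : H →L[ℂ] H} (hx : InB M N ξ x) : InB M N ξ (-x) := by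
  have := S.InB_smul (-1) hx
  rwa [neg_one_smul] at this

lemma InB_sub {x y : H →L[ℂ] H} (hx : InB M N ξ x) (hy : InB M N ξ y) : InB M N ξ (x - y) := by
  rw [sub_eq_add_neg]; exact S.InB_add hx (S.InB_neg hy)

lemma bet_sub {x y : H →L[ℂ] H} (hx : InB M N ξ x) (hy : InB M N ξ y) {l : ℝ} (hl : 0 < l) :
    bet M N ξ l (x - y) = bet M N ξ l x - bet M N ξ l y := by
  have h1 := S.bet_add hx (S.InB_smul (-1) hy) hl
  rw [S.bet_smul (-1) hy hl, neg_one_smul, neg_one_smul] at h1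
  rw [sub_eq_add_neg, h1, sub_eq_add_neg]

lemma bet_one {l : ℝ} (hl : 0 < l) : bet M N ξ l (1 : H →L[ℂ] H) = 1 := by
  refine S.bet_unique S.InB_one hl (one_mem _) (tendsto_const_nhds.congr' ?_)
  filter_upwards [self_mem_nhdsWithin] with γ hγ
  rw [S.al_one hγ]

lemma bet_star {x : H →L[ℂ] H} (hx : InB M N ξ x) {l : ℝ} (hl : 0 < l) :
    bet M N ξ l (star x) = star (bet M N ξ l x) := by
  have hne := S.neBot hl
  refine eq_of_dense (Qalg M N ξ) S.denseQ (S.bet_memQ (S.InB_star hx) hl)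
    (star_mem (S.bet_memQ hx hl)) ?_
  refine ext_inner_left ℂ fun ζ => ?_
  have h1 : Tendsto (fun γ => ⟪ζ, al M N ξ γ (star x) ξ⟫_ℂ) (𝓝[Gam N ξ] l)
      (𝓝 ⟪ζ, bet M N ξ l (star x) ξ⟫_ℂ) :=
    tendsto_const_nhds.inner (S.bet_spec (S.InB_star hx) hl).2
  have h2 : Tendsto (fun γ => ⟪al M N ξ γ x ζ, ξ⟫_ℂ) (𝓝[Gam N ξ] l)
      (𝓝 ⟪bet M N ξ l x ζ, ξ⟫_ℂ) := (S.bet_tendsto hx hl ζ).inner tendsto_const_nhds
  rw [inner_star_right]
  refine tendsto_nhds_unique h1 (h2.congr' ?_)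
  filter_upwards [self_mem_nhdsWithin] with γ hγ
  rw [S.al_star hγ hx.1, inner_star_right]

/-- the flow as an extension by continuity -/
lemma bet_cont_xi {x : H →L[ℂ] H} (hx : InB M N ξ x) :
    ContinuousOn (fun l => bet M N ξ l x ξ) (Set.Ioi 0) := by
  have h1 : ContinuousOn (extendFrom (Gam N ξ) (fun γ => al M N ξ γ x ξ)) (Set.Ioi 0) :=
    continuousOn_extendFrom (fun l hl => S.mem_closure_Gam hl)
      (fun l hl => ⟨_, (S.bet_spec hx hl).2⟩)
  refine h1.congr fun l hl => ?_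
  exact (extendFrom_eq (S.mem_closure_Gam hl) (S.bet_spec hx hl).2).symm

lemma bet_cont {x : H →L[ℂ] H} (hx : InB M N ξ x) (ζ : H) :
    ContinuousOn (fun l => bet M N ξ l x ζ) (Set.Ioi 0) := by
  intro l hl
  have h1 := S.bet_cont_xi hx l hl
  have h2 : Tendsto (fun m => (bet M N ξ m x - bet M N ξ l x) ξ) (𝓝[Set.Ioi 0] l) (𝓝 0) := by
    have := h1.tendsto.sub_const (bet M N ξ l x ξ)
    rw [sub_self] at this
    exact this
  have h3 := tendsto_of_bounded_ev (Qalg M N ξ) S.denseQ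
    (x := fun m => bet M N ξ m x - bet M N ξ l x) (C := 2 * ‖x‖ + 2 * ‖x‖) (by
      filter_upwards [self_mem_nhdsWithin] with m hm
      exact ⟨sub_mem (S.bet_memQ hx hm) (S.bet_memQ hx hl),
        (norm_sub_le _ _).trans (add_le_add (S.bet_opNorm hx hm) (S.bet_opNorm hx hl))⟩)
    (by positivity) h2 ζ
  have h4 := h3.add_const (bet M N ξ l x ζ)
  rw [zero_add] at h4
  refine h4.congr fun m => ?_
  rw [sub_apply, sub_add_cancel]

lemma bet_norm_sub {x y : H →L[ℂ] H} (hx : InB M N ξ x) (hy : InB M N ξ y) {l : ℝ} (hl : 0 < l) :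
    ‖bet M N ξ l x ξ - bet M N ξ l y ξ‖ = ‖x ξ - y ξ‖ := by
  rw [← sub_apply, ← S.bet_sub hx hy hl, S.bet_norm (S.InB_sub hx hy) hl, sub_apply]

lemma bet_inner {x y : H →L[ℂ] H} (hx : InB M N ξ x) (hy : InB M N ξ y) {l : ℝ} (hl : 0 < l) :
    ⟪bet M N ξ l y ξ, bet M N ξ l x ξ⟫_ℂ = ⟪y ξ, x ξ⟫_ℂ := by
  have h := S.bet_state (S.InB_mul (S.InB_star hy) hx) hl
  rw [S.bet_mul (S.InB_star hy) hx hl, S.bet_star hy hl] at h
  change ⟪ξ, (star (bet M N ξ l y)) (bet M N ξ l x ξ)⟫_ℂ = ⟪ξ, (star y) (x ξ)⟫_ℂ at h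
  rwa [inner_star_right, inner_star_right] at h

/-- transports of elements of the flow -/
lemma al_bet {x : H →L[ℂ] H} (hx : InB M N ξ x) {l : ℝ} (hl : 0 < l) {γ : ℝ}
    (hγ : γ ∈ Gam N ξ) : al M N ξ γ (bet M N ξ l x) = bet M N ξ (γ * l) x := by
  have hne := S.neBot hl
  refine eq_of_dense (Qalg M N ξ) S.denseQ (S.al_mem hγ (S.bet_memQ hx hl))
    (S.bet_memQ hx (mul_pos hγ.1 hl)) ?_
  -- al γ (al δ x) ξ → al γ (bet l x) ξ as δ → l
  have h1 : Tendsto (fun δ => al M N ξ γ (al M N ξ δ x) ξ) (𝓝[Gam N ξ] l)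
      (𝓝 (al M N ξ γ (bet M N ξ l x) ξ)) := by
    rw [tendsto_iff_norm_sub_tendsto_zero]
    have h2 := tendsto_iff_norm_sub_tendsto_zero.1 (S.bet_spec hx hl).2
    refine h2.congr fun δ => ?_
    rw [S.al_norm_sub hγ (S.al_mem' δ hx.1) (S.bet_memQ hx hl)]
  have h2 : Tendsto (fun δ => γ * δ) (𝓝[Gam N ξ] l) (𝓝[Gam N ξ] (γ * l)) := by
    rw [tendsto_nhdsWithin_iff]
    refine ⟨((continuous_const.mul continuous_id).tendsto l).mono_left nhdsWithin_le_nhds, ?_⟩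
    filter_upwards [self_mem_nhdsWithin] with δ hδ
    exact S.Gam_mul hγ hδ
  have h3 := (S.bet_spec hx (mul_pos hγ.1 hl)).2.comp h2
  refine tendsto_nhds_unique h1 (h3.congr' ?_)
  filter_upwards [self_mem_nhdsWithin] with δ hδ
  change al M N ξ (γ * δ) x ξ = _
  rw [S.al_al hγ hδ hx.1]

lemma InB_bet {x : H →L[ℂ] H} (hx : InB M N ξ x) {l : ℝ} (hl : 0 < l) :
    InB M N ξ (bet M N ξ l x) := by
  refine ⟨S.bet_memQ hx hl, ?_⟩
  have h1 : Tendsto (fun γ : ℝ => γ * l) (𝓝[Gam N ξ] 1) (𝓝[Set.Ioi 0] l) := by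
    rw [tendsto_nhdsWithin_iff]
    refine ⟨?_, ?_⟩
    · have : Tendsto (fun γ : ℝ => γ * l) (𝓝 1) (𝓝 (1 * l)) := tendsto_id.mul_const l
      rw [one_mul] at this
      exact this.mono_left nhdsWithin_le_nhds
    · filter_upwards [self_mem_nhdsWithin] with γ hγ
      exact mul_pos hγ.1 hl
  have h2 := ((S.bet_cont_xi hx l hl).tendsto).comp h1
  refine h2.congr' ?_
  filter_upwards [self_mem_nhdsWithin] with γ hγ
  rw [S.al_bet hx hl hγ]
  rfl

lemma bet_bet {x : H →L[ℂ] H} (hx : InB M N ξ x) {l m : ℝ} (hl : 0 < l) (hm : 0 < m) :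
    bet M N ξ l (bet M N ξ m x) = bet M N ξ (l * m) x := by
  refine S.bet_unique (S.InB_bet hx hm) hl (S.bet_memQ hx (mul_pos hl hm)) ?_
  have h1 : Tendsto (fun γ : ℝ => γ * m) (𝓝[Gam N ξ] l) (𝓝[Set.Ioi 0] (l * m)) := by
    rw [tendsto_nhdsWithin_iff]
    refine ⟨?_, ?_⟩
    · have : Tendsto (fun γ : ℝ => γ * m) (𝓝 l) (𝓝 (l * m)) := tendsto_id.mul_const m
      exact this.mono_left nhdsWithin_le_nhds
    · filter_upwards [self_mem_nhdsWithin] with γ hγ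
      exact mul_pos hγ.1 hm
  have h2 := ((S.bet_cont_xi hx (l * m) (mul_pos hl hm)).tendsto).comp h1
  refine h2.congr' ?_
  filter_upwards [self_mem_nhdsWithin] with γ hγ
  rw [S.al_bet hx hm hγ]
  rfl

end AP

end Pool.Agent.Helper23
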