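import Pool.Agent.Helper23.Amp2

/-!
# The frame defining the weight
-/

open scoped InnerProductSpace Topology ENNReal
open ContinuousLinearMap Filter MeasureTheory

set_option linter.unusedSectionVars false
set_option linter.unusedVariables false

namespace Pool.Agent.Helper23

/-- index set of a Hilbert basis of `L²(ℝ)` -/
noncomputable def hw : Set (L2R ℂ) := (exists_hilbertBasis ℂ (L2R ℂ)).choose

/-- a Hilbert basis of `L²(ℝ)` -/
noncomputable def hb : HilbertBasis hw ℂ (L2R ℂ) := (exists_hilbertBasis ℂ (L2R ℂ)).choose_spec.choose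

/-- index set of the frame -/
abbrev JJ := ℤ × hw

/-- the cut off exponentials -/
noncomputable def dm (m : ℤ) (s : ℝ) : ℂ :=
  Set.indicator (Set.Ico (m : ℝ) (m + 1)) (fun s => ((Real.exp (s / 2) : ℝ) : ℂ)) s

lemma dm_of_mem {m : ℤ} {s : ℝ} (h : s ∈ Set.Ico (m : ℝ) (m + 1)) :
    dm m s = ((Real.exp (s / 2) : ℝ) : ℂ) := Set.indicator_of_mem h _

lemma dm_of_notMem {m : ℤ} {s : ℝ} (h : s ∉ Set.Ico (m : ℝ) (m + 1)) : dm m s = 0 :=
  Set.indicator_of_notMem h _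

lemma dm_bm (m : ℤ) : BM (dm m) := by
  refine ⟨?_, Real.exp ((m + 1) / 2), by positivity, fun s => ?_⟩
  · exact (by fun_prop : Measurable fun s : ℝ => ((Real.exp (s / 2) : ℝ) : ℂ)).indicator
      measurableSet_Ico
  · by_cases h : s ∈ Set.Ico (m : ℝ) (m + 1)
    · rw [dm_of_mem h, Complex.norm_real, Real.norm_of_nonneg (by positivity)]
      exact Real.exp_le_exp.2 (by have := h.2; linarith)
    · rw [dm_of_notMem h, norm_zero]
      positivity

lemma dm_conj (m : ℤ) : (fun s => (starRingEnd ℂ) (dm m s)) = dm m := by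
  funext s
  by_cases h : s ∈ Set.Ico (m : ℝ) (m + 1)
  · rw [dm_of_mem h, Complex.conj_ofReal]
  · rw [dm_of_notMem h, map_zero]

/-- the frame -/
noncomputable def gJ (j : JJ) : L2R ℂ := mulOp ℂ (dm j.1) (hb j.2)

/-- the quadratic form `∫ e^s |f(s)|² ds` -/
noncomputable def q0 (f : L2R ℂ) : ℝ≥0∞ := ∫⁻ s, ENNReal.ofReal (Real.exp s * ‖f s‖ ^ 2)

section general

variable {E : Type*} [NormedAddCommGroup E] [InnerProductSpace ℂ E] [CompleteSpace E]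

lemma parseval_enn {ι : Type*} (b : HilbertBasis ι ℂ E) (x : E) :
    ∑' i, ENNReal.ofReal (‖⟪b i, x⟫_ℂ‖ ^ 2) = ENNReal.ofReal (‖x‖ ^ 2) := by
  have h := b.hasSum_inner_mul_inner x x
  have h1 : ∀ i, ⟪x, b i⟫_ℂ * ⟪b i, x⟫_ℂ = ((‖⟪b i, x⟫_ℂ‖ ^ 2 : ℝ) : ℂ) := by
    intro i
    rw [← inner_conj_symm x (b i), RCLike.conj_mul]
    norm_cast
  simp only [h1] at h
  have h2 : ⟪x, x⟫_ℂ = ((‖x‖ ^ 2 : ℝ) : ℂ) := by
    rw [inner_self_eq_norm_sq_to_K]; norm_cast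
  rw [h2] at h
  have h3 : HasSum (fun i => ‖⟪b i, x⟫_ℂ‖ ^ 2) (‖x‖ ^ 2) := by
    exact_mod_cast h
  rw [← h3.tsum_eq, ENNReal.ofReal_tsum_of_nonneg (fun _ => by positivity) h3.summable]

lemma norm_sq_lint {G : Type*} [NormedAddCommGroup G] [InnerProductSpace ℂ G] [CompleteSpace G]
    (F : L2R G) : ENNReal.ofReal (‖F‖ ^ 2) = ∫⁻ s, ENNReal.ofReal (‖F s‖ ^ 2) := by
  have h1 : ‖F‖ ^ 2 = ∫ s, ‖F s‖ ^ 2 := by
    have h2 : ((‖F‖ ^ 2 : ℝ) : ℂ) = ⟪F, F⟫_ℂ := by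
      rw [inner_self_eq_norm_sq_to_K]; norm_cast
    have h3 : ⟪F, F⟫_ℂ = ((∫ s, ‖F s‖ ^ 2 : ℝ) : ℂ) := by
      rw [L2.inner_def, ← integral_complex_ofReal]
      refine integral_congr_ae (Eventually.of_forall fun s => ?_)
      change ⟪F s, F s⟫_ℂ = _
      rw [inner_self_eq_norm_sq_to_K]; norm_cast
    rw [h3] at h2
    exact_mod_cast h2
  rw [h1]
  refine ofReal_integral_eq_lintegral_ofReal ?_ (Eventually.of_forall fun s => by positivity)
  exact (Lp.memLp F).integrable_norm_pow two_ne_zero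

end general

lemma inner_gJ (j : JJ) (f : L2R ℂ) : ⟪gJ j, f⟫_ℂ = ⟪hb j.2, mulOp ℂ (dm j.1) f⟫_ℂ := by
  have := mulOp_adj (dm_bm j.1) (hb j.2) f
  rw [dm_conj] at this
  exact this

/-- the frame identity -/
theorem frame (f : L2R ℂ) : ∑' j : JJ, ENNReal.ofReal (‖⟪gJ j, f⟫_ℂ‖ ^ 2) = q0 f := by
  rw [ENNReal.tsum_prod']
  have h1 : ∀ m : ℤ, ∑' k : hw, ENNReal.ofReal (‖⟪gJ (m, k), f⟫_ℂ‖ ^ 2) =
      ∫⁻ s, Set.indicator (Set.Ico (m : ℝ) (m + 1))
        (fun s => ENNReal.ofReal (Real.exp s * ‖f s‖ ^ 2)) s := by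
    intro m
    have h2 : ∀ k : hw, ENNReal.ofReal (‖⟪gJ (m, k), f⟫_ℂ‖ ^ 2) =
        ENNReal.ofReal (‖⟪hb k, mulOp ℂ (dm m) f⟫_ℂ‖ ^ 2) := by
      intro k
      rw [inner_gJ]
    simp only [h2]
    rw [parseval_enn, norm_sq_lint]
    refine lintegral_congr_ae ?_
    filter_upwards [mulOp_coe (dm_bm m) f] with s hs
    rw [hs]
    by_cases h : s ∈ Set.Ico (m : ℝ) (m + 1)
    · rw [dm_of_mem h, Set.indicator_of_mem h, smul_eq_mul, norm_mul, mul_pow,
        Complex.norm_real, Real.norm_of_nonneg (by positivity), ← Real.exp_nat_mul]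
      congr 3
      push_cast
      ring
    · rw [dm_of_notMem h, Set.indicator_of_notMem h, zero_smul, norm_zero]
      norm_num
  simp only [h1]
  rw [q0, ← lintegral_tsum]
  · refine lintegral_congr fun s => ?_
    rw [tsum_eq_single ⌊s⌋]
    · rw [Set.indicator_of_mem]
      exact ⟨Int.floor_le s, Int.lt_floor_add_one s⟩
    · intro m hm
      rw [Set.indicator_of_notMem]
      rintro ⟨h2, h3⟩
      exact hm (Int.floor_eq_iff.2 ⟨h2, h3⟩).symm
  · intro m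
    have hf : AEMeasurable (fun s => ENNReal.ofReal (Real.exp s * ‖f s‖ ^ 2)) volume := by
      refine ENNReal.measurable_ofReal.comp_aemeasurable ?_
      exact Real.measurable_exp.aemeasurable.mul
        ((Lp.aestronglyMeasurable f).norm.aemeasurable.pow_const 2)
    exact hf.indicator measurableSet_Ico

section SS

variable {K : Type*} [NormedAddCommGroup K] [InnerProductSpace ℂ K] [CompleteSpace K]

/-- the Hilbert-Schmidt type sum -/
noncomputable def SS (Θ : L2R ℂ →L[ℂ] K) : ℝ≥0∞ := ∑' j : JJ, ENNReal.ofReal (‖Θ (gJ j)‖ ^ 2)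

lemma SS_eq {ι : Type*} (b : HilbertBasis ι ℂ K) (Θ : L2R ℂ →L[ℂ] K) :
    SS Θ = ∑' i, q0 ((adjoint Θ) (b i)) := by
  have h1 : ∀ j : JJ, ENNReal.ofReal (‖Θ (gJ j)‖ ^ 2) =
      ∑' i, ENNReal.ofReal (‖⟪gJ j, (adjoint Θ) (b i)⟫_ℂ‖ ^ 2) := by
    intro j
    rw [← parseval_enn b]
    refine tsum_congr fun i => ?_
    rw [adjoint_inner_right, ← norm_inner_symm]
  rw [SS]
  simp only [h1]
  rw [ENNReal.tsum_comm]
  exact tsum_congr fun i => frame _

lemma q0_tr (t : ℝ) (f : L2R ℂ) : q0 (tr ℂ t f) = ENNReal.ofReal (Real.exp t) * q0 f := by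
  rw [q0, q0, ← lintegral_const_mul'' _ (by
    refine ENNReal.measurable_ofReal.comp_aemeasurable ?_
    exact Real.measurable_exp.aemeasurable.mul
      ((Lp.aestronglyMeasurable f).norm.aemeasurable.pow_const 2))]
  have h1 : ∫⁻ s, ENNReal.ofReal (Real.exp s * ‖tr ℂ t f s‖ ^ 2) =
      ∫⁻ s, (fun s => ENNReal.ofReal (Real.exp t) *
        ENNReal.ofReal (Real.exp s * ‖f s‖ ^ 2)) (s - t) := by
    refine lintegral_congr_ae ?_
    filter_upwards [tr_coe t f] with s hs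
    rw [hs, ← ENNReal.ofReal_mul (by positivity), ← mul_assoc, ← Real.exp_add]
    congr 3
    ring_nf
  rw [h1]
  exact lintegral_sub_right_eq_self (μ := volume) (fun s => ENNReal.ofReal (Real.exp t) *
    ENNReal.ofReal (Real.exp s * ‖f s‖ ^ 2)) t

lemma q0_mulOp {m : ℝ → ℂ} (h : BM m) (h1 : ∀ s, ‖m s‖ = 1) (f : L2R ℂ) :
    q0 (mulOp ℂ m f) = q0 f := by
  rw [q0, q0]
  refine lintegral_congr_ae ?_
  filter_upwards [mulOp_coe h f] with s hs
  rw [hs, smul_eq_mul, norm_mul, h1, one_mul]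

lemma SS_tr (t : ℝ) (Θ : L2R ℂ →L[ℂ] K) :
    SS (Θ.comp (tr ℂ t)) = ENNReal.ofReal (Real.exp (-t)) * SS Θ := by
  obtain ⟨w, b, -⟩ := exists_hilbertBasis ℂ K
  rw [SS_eq b, SS_eq b, ← ENNReal.tsum_mul_left]
  refine tsum_congr fun i => ?_
  rw [adjoint_comp, ← ContinuousLinearMap.star_eq_adjoint (tr ℂ t), tr_star]
  change q0 (tr ℂ (-t) ((adjoint Θ) (b i))) = _
  rw [q0_tr]

lemma SS_mulOp {m : ℝ → ℂ} (h : BM m) (h1 : ∀ s, ‖m s‖ = 1) (Θ : L2R ℂ →L[ℂ] K) :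
    SS (Θ.comp (mulOp ℂ m)) = SS Θ := by
  obtain ⟨w, b, -⟩ := exists_hilbertBasis ℂ K
  rw [SS_eq b, SS_eq b]
  refine tsum_congr fun i => ?_
  rw [adjoint_comp, ← ContinuousLinearMap.star_eq_adjoint (mulOp ℂ m), mulOp_star h]
  change q0 (mulOp ℂ _ ((adjoint Θ) (b i))) = _
  rw [q0_mulOp h.conj (fun s => by rw [RCLike.norm_conj, h1])]

end SS

end Pool.Agent.Helper23
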