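import Pool.Agent.Helper23.Frame
import Pool.Agent.Helper23.Bic

/-!
# The unitary group of the centralizer of the weight
-/

open scoped InnerProductSpace Topology ENNReal
open ContinuousLinearMap Filter MeasureTheory

set_option linter.unusedSectionVars false
set_option linter.unusedVariables false

namespace Pool.Agent.Helper23

variable {H : Type*} [NormedAddCommGroup H] [InnerProductSpace ℂ H] [CompleteSpace H]
variable {M N : VonNeumannAlgebra H} {ξ : H} {E : (H →L[ℂ] H) → (H →L[ℂ] H)}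

/-- `SX ξ Y` is the value of the weight at `Y* Y`. -/
noncomputable def SX (ξ : H) (Y : L2R H →L[ℂ] L2R H) : ℝ≥0∞ := SS (Y.comp (axi ξ))

lemma SX_def (ξ : H) (Y : L2R H →L[ℂ] L2R H) :
    SX ξ Y = ∑' j : JJ, ENNReal.ofReal (‖Y (ten (gJ j) ξ)‖ ^ 2) := rfl

/-- unitaries preserving the weight -/
def GK (A : VonNeumannAlgebra H) (ξ : H) : Set (L2R H →L[ℂ] L2R H) :=
  {u | u ∈ amp A ∧ star u * u = 1 ∧ u * star u = 1 ∧ ∀ Y ∈ amp A, SX ξ (Y * u) = SX ξ Y}

/-- invariance under pinching by a projection -/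
def Pin (A : VonNeumannAlgebra H) (ξ : H) (p : L2R H →L[ℂ] L2R H) : Prop :=
  ∀ Y ∈ amp A, SX ξ Y = SX ξ (Y * p) + SX ξ (Y * (1 - p))

lemma GK_star {A : VonNeumannAlgebra H} {u : L2R H →L[ℂ] L2R H} (hu : u ∈ GK A ξ) :
    star u ∈ GK A ξ := by
  refine ⟨star_mem hu.1, by rw [star_star]; exact hu.2.2.1, by rw [star_star]; exact hu.2.1,
    fun Y hY => ?_⟩
  have h := hu.2.2.2 (Y * star u) (mul_mem hY (star_mem hu.1))
  rw [mul_assoc, hu.2.1, mul_one] at h
  exact h.symm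

lemma two_mul_ofReal (x : ℝ) : 2 * ENNReal.ofReal x = ENNReal.ofReal (2 * x) := by
  rw [ENNReal.ofReal_mul (by norm_num)]
  norm_num

lemma pin_of_GK {A : VonNeumannAlgebra H} {p : L2R H →L[ℂ] L2R H}
    (h : ∀ Y ∈ amp A, SX ξ (Y * (p - (1 - p))) = SX ξ Y) : Pin A ξ p := by
  intro Y hY
  have h1 : SX ξ Y + SX ξ (Y * (p - (1 - p))) = 2 * (SX ξ (Y * p) + SX ξ (Y * (1 - p))) := by
    rw [SX_def, SX_def, SX_def, SX_def, ← ENNReal.tsum_add, ← ENNReal.tsum_add,
      ← ENNReal.tsum_mul_left]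
    refine tsum_congr fun j => ?_
    rw [← ENNReal.ofReal_add (by positivity) (by positivity),
      ← ENNReal.ofReal_add (by positivity) (by positivity), two_mul_ofReal]
    congr 1
    set η := ten (gJ j) ξ
    have e1 : Y η = (Y * p) η + (Y * (1 - p)) η := by
      rw [← add_apply, ← mul_add, add_sub_cancel, mul_one]
    have e2 : (Y * (p - (1 - p))) η = (Y * p) η - (Y * (1 - p)) η := by
      rw [← sub_apply, ← mul_sub]
    rw [e2]
    conv_lhs => rw [e1]
    have := parallelogram_law_with_norm ℂ ((Y * p) η) ((Y * (1 - p)) η)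
    exact this
  rw [h Y hY, ← two_mul] at h1
  exact (ENNReal.mul_right_inj (by norm_num) (by norm_num)).1 h1

lemma pin_mulOp (A : VonNeumannAlgebra H) {I : Set ℝ} (hI : MeasurableSet I) :
    Pin A ξ (mulOp H (I.indicator fun _ => 1)) := by
  classical
  have hbm : BM (I.indicator fun _ => (1 : ℂ)) :=
    ⟨measurable_const.indicator hI, 1, zero_le_one, fun s => by
      by_cases h : s ∈ I
      · rw [Set.indicator_of_mem h]; simp
      · rw [Set.indicator_of_notMem h]; simp⟩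
  set m : ℝ → ℂ := fun s => if s ∈ I then 1 else -1 with hm
  have hmbm : BM m := by
    refine ⟨Measurable.ite hI measurable_const measurable_const, 1, zero_le_one, fun s => ?_⟩
    by_cases h : s ∈ I
    · simp [hm, h]
    · simp [hm, h]
  have hm1 : ∀ s, ‖m s‖ = 1 := by
    intro s
    by_cases h : s ∈ I
    · simp [hm, h]
    · simp [hm, h]
  have h1 : mulOp H (I.indicator fun _ => (1 : ℂ)) -
      (1 - mulOp H (I.indicator fun _ => (1 : ℂ))) = mulOp H m := by
    ext F : 1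
    ext1
    have e0 : (mulOp H (I.indicator fun _ => (1 : ℂ)) -
      (1 - mulOp H (I.indicator fun _ => (1 : ℂ)))) F =
        mulOp H (I.indicator fun _ => (1 : ℂ)) F - (F - mulOp H (I.indicator fun _ => (1 : ℂ)) F) :=
      rfl
    rw [e0]
    filter_upwards [mulOp_coe hbm F, mulOp_coe hmbm F,
      Lp.coeFn_sub (mulOp H (I.indicator fun _ => (1 : ℂ)) F)
        (F - mulOp H (I.indicator fun _ => (1 : ℂ)) F),
      Lp.coeFn_sub F (mulOp H (I.indicator fun _ => (1 : ℂ)) F)] with s e1 e2 e3 e4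
    rw [e3, Pi.sub_apply, e4, Pi.sub_apply, e1, e2]
    by_cases h : s ∈ I
    · simp [hm, h]
    · simp [hm, h]
  refine pin_of_GK fun Y _ => ?_
  rw [h1]
  have h2 : (Y * mulOp H m).comp (axi ξ) = (Y.comp (axi ξ)).comp (mulOp ℂ m) := by
    ext f : 1
    change Y (mulOp H m (ten f ξ)) = Y (ten (mulOp ℂ m f) ξ)
    rw [mulOp_ten hmbm]
  rw [SX, h2, SS_mulOp hmbm hm1]
  rfl

/-- unimodular multiplication operators preserve the weight. -/
lemma mulOp_mem_GK (A : VonNeumannAlgebra H) {m : ℝ → ℂ} (h : BM m) (h1 : ∀ s, ‖m s‖ = 1) :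
    mulOp H m ∈ GK A ξ := by
  have e1 : ∀ s, (starRingEnd ℂ) (m s) * m s = 1 := by
    intro s
    rw [RCLike.conj_mul, h1]
    simp
  refine ⟨mulOp_mem_amp h, ?_, ?_, fun Y _ => ?_⟩
  · ext F : 1
    change (star (mulOp H m)) (mulOp H m F) = F
    rw [mulOp_star h, mulOp_mulOp h.conj h]
    ext1
    filter_upwards [mulOp_coe (h.conj.mul h) F] with s hs
    rw [hs, e1, one_smul]
  · ext F : 1
    change mulOp H m ((star (mulOp H m)) F) = F
    rw [mulOp_star h, mulOp_mulOp h h.conj]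
    ext1
    filter_upwards [mulOp_coe (h.mul h.conj) F] with s hs
    rw [hs, mul_comm, e1, one_smul]
  · have h2 : (Y * mulOp H m).comp (axi ξ) = (Y.comp (axi ξ)).comp (mulOp ℂ m) := by
      ext f : 1
      change Y (mulOp H m (ten f ξ)) = Y (ten (mulOp ℂ m f) ξ)
      rw [mulOp_ten h]
    rw [SX, h2, SS_mulOp h h1]
    rfl

namespace Setting

variable (S : Setting M N E ξ)
include S

/-- the isometry of the commutant associated with an isometric eigenoperator -/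
lemma exists_isom' {γ : ℝ} (hγ : 0 < γ) {v : H →L[ℂ] H} (hv : v ∈ eig N ξ γ)
    (hv1 : star v * v = 1) : ∃ w ∈ M.commutant, (∀ ζ, ‖w ζ‖ = ‖ζ‖) ∧
      w ξ = ((Real.sqrt γ : ℝ) : ℂ) • (star v) ξ := by
  obtain ⟨b, hb, hb'⟩ := S.exists_right (inv_pos.2 hγ) (eig_star hγ.ne' hv)
  refine ⟨((Real.sqrt γ : ℝ) : ℂ) • b, smul_mem' _ hb, fun ζ => ?_, ?_⟩
  · have hcl : IsClosed {ζ : H | ‖(((Real.sqrt γ : ℝ) : ℂ) • b) ζ‖ = ‖ζ‖} :=
      isClosed_eq (by fun_prop) (by fun_prop)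
    have hsub : (orb M ξ : Set H) ⊆ {ζ : H | ‖(((Real.sqrt γ : ℝ) : ℂ) • b) ζ‖ = ‖ζ‖} := by
      rintro _ ⟨y, hy, rfl⟩
      change ‖((Real.sqrt γ : ℝ) : ℂ) • b (y ξ)‖ = ‖y ξ‖
      rw [hb' y hy, norm_smul, Complex.norm_real, Real.norm_of_nonneg (Real.sqrt_nonneg _)]
      refine (pow_left_inj₀ (by positivity) (norm_nonneg _) two_ne_zero).1 ?_
      have h1 := S.norm_right_eig_sq (eig_star hγ.ne' hv) hy
      rw [star_star, hv1, one_apply_eq_self, inner_self_eq_norm_sq_to_K] at h1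
      have h2 : ‖y ((star v) ξ)‖ ^ 2 = γ⁻¹ * ‖y ξ‖ ^ 2 := by
        apply Complex.ofReal_injective
        rw [h1]
        push_cast
        rfl
      rw [mul_pow, Real.sq_sqrt hγ.le, h2, ← mul_assoc, mul_inv_cancel₀ hγ.ne', one_mul]
    exact closure_minimal hsub hcl (S.cyc ζ)
  · have := hb' 1 (one_mem M)
    simp only [one_apply_eq_self] at this
    rw [smul_apply, this]

lemma norm_isom' {γ : ℝ} (hγ : 0 < γ) {v : H →L[ℂ] H} (hv : v ∈ eig N ξ γ)
    (hv1 : star v * v = 1) {Y : L2R H →L[ℂ] L2R H} (hY : Y ∈ amp N) (f : L2R ℂ) :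
    ‖Y (ten f ((star v) ξ))‖ ^ 2 = γ⁻¹ * ‖Y (ten f ξ)‖ ^ 2 := by
  obtain ⟨w, hw, hwn, hwξ⟩ := S.exists_isom' hγ hv hv1
  have h1 : Y (ten f (w ξ)) = lift w (Y (ten f ξ)) := amp_ten hY (S.comm_le hw) f ξ
  have h2 : ‖lift w (Y (ten f ξ))‖ = ‖Y (ten f ξ)‖ := by
    have h3 : star (lift w) * lift w = 1 := by
      rw [← lift_star, ← lift_mul]
      have : star w * w = 1 := by
        ext ζ
        refine ext_inner_left ℂ fun ζ' => ?_
        change ⟪ζ', (star w) (w ζ)⟫_ℂ = ⟪ζ', ζ⟫_ℂ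
        rw [inner_star_right]
        let W : H →ₗᵢ[ℂ] H := ⟨w.toLinearMap, hwn⟩
        exact W.inner_map_map ζ' ζ
      rw [this, lift_one]
    exact norm_of_isom h3 _
  rw [hwξ, ten_smul_right, map_smul] at h1
  have h4 : Real.sqrt γ * ‖Y (ten f ((star v) ξ))‖ = ‖Y (ten f ξ)‖ := by
    rw [← h2, ← h1, norm_smul, Complex.norm_real, Real.norm_of_nonneg (Real.sqrt_nonneg _)]
  rw [← h4, mul_pow, Real.sq_sqrt hγ.le, ← mul_assoc, inv_mul_cancel₀ hγ.ne', one_mul]

/-- scaling of the weight by the amplified isometries -/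
lemma SX_V {γ : ℝ} (hγ : 0 < γ) {v : H →L[ℂ] H} (hv : v ∈ eig N ξ γ)
    (hv1 : star v * v = 1) (t : ℝ) {Y : L2R H →L[ℂ] L2R H} (hY : Y ∈ amp N) :
    SX ξ (Y * star (lift v * tr H t)) = ENNReal.ofReal (γ⁻¹ * Real.exp t) * SX ξ Y := by
  have h1 : ∀ j : JJ, ‖(Y * star (lift v * tr H t)) (ten (gJ j) ξ)‖ ^ 2 =
      γ⁻¹ * ‖(Y.comp (axi ξ)) (tr ℂ (-t) (gJ j))‖ ^ 2 := by
    intro j
    have e1 : (Y * star (lift v * tr H t)) (ten (gJ j) ξ) =
        Y (ten (tr ℂ (-t) (gJ j)) ((star v) ξ)) := by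
      rw [star_mul, tr_star, ← lift_star]
      change Y (tr H (-t) (lift (star v) (ten (gJ j) ξ))) = _
      rw [lift_ten, tr_ten]
    rw [e1, S.norm_isom' hγ hv hv1 hY]
    rfl
  have h2 : SX ξ (Y * star (lift v * tr H t)) =
      ENNReal.ofReal γ⁻¹ * SS ((Y.comp (axi ξ)).comp (tr ℂ (-t))) := by
    rw [SX_def, SS, ← ENNReal.tsum_mul_left]
    refine tsum_congr fun j => ?_
    rw [h1, ENNReal.ofReal_mul (inv_pos.2 hγ).le]
    rfl
  rw [h2, SS_tr, neg_neg, ← mul_assoc, ← ENNReal.ofReal_mul (inv_pos.2 hγ).le]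
  rfl

lemma lift_mem_GK {u : H →L[ℂ] H} (hu : u ∈ Ucent N ξ) : lift u ∈ GK N ξ := by
  have h1 : star (lift u) ∈ GK N ξ := by
    refine ⟨star_mem (lift_mem_amp hu.1.1), ?_, ?_, fun Y hY => ?_⟩
    · rw [star_star, ← lift_star, ← lift_mul, hu.2.2, lift_one]
    · rw [star_star, ← lift_star, ← lift_mul, hu.2.1, lift_one]
    · have := S.SX_V one_pos hu.1 hu.2.1 0 hY
      rw [tr_zero, mul_one, Real.exp_zero] at this
      rw [this]
      norm_num
  have := GK_star h1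
  rwa [star_star] at this

/-- pinching by `lift e` for projections of the centralizer -/
lemma pin_lift {e : H →L[ℂ] H} (he : e ∈ eig N ξ 1) (hes : star e = e) (hee : e * e = e) :
    Pin N ξ (lift e) := by
  have hu : e - (1 - e) ∈ Ucent N ξ := by
    have h1 : (e - (1 - e)) * (e - (1 - e)) = 1 := by
      have : e - (1 - e) = e + e - 1 := by abel
      rw [this, sub_mul, mul_sub, add_mul, mul_add, hee]
      simp only [mul_one, one_mul]
      abel
    have h2 : star (e - (1 - e)) = e - (1 - e) := by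
      rw [star_sub, star_sub, hes, star_one]
    exact ⟨Submodule.sub_mem _ he (Submodule.sub_mem _ one_mem_eig he), by rw [h2, h1],
      by rw [h2, h1]⟩
  have h3 : lift e - (1 - lift e) = lift (e - (1 - e)) := by
    ext F : 1
    ext1
    have e0 : (lift e - (1 - lift e)) F = lift e F - (F - lift e F) := rfl
    rw [e0]
    filter_upwards [lift_coe e F, lift_coe (e - (1 - e)) F,
      Lp.coeFn_sub (lift e F) (F - lift e F), Lp.coeFn_sub F (lift e F)] with s e1 e2 e3 e4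
    rw [e3, Pi.sub_apply, e4, Pi.sub_apply, e1, e2]
    rfl
  refine pin_of_GK fun Y hY => ?_
  rw [h3]
  exact (S.lift_mem_GK hu).2.2.2 Y hY

end Setting

end Pool.Agent.Helper23
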