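import Pool.Agent.Helper23.Pi2

/-!
# Operators on `L²(ℝ)` commuting with multiplications and translations are scalar
-/

open scoped InnerProductSpace Topology ENNReal
open ContinuousLinearMap Filter MeasureTheory

set_option linter.unusedSectionVars false
set_option linter.unusedVariables false

namespace Pool.Agent.Helper23

/-- the function `(1 + s²)⁻¹` -/
noncomputable def w0 (s : ℝ) : ℂ := (((1 + s ^ 2)⁻¹ : ℝ) : ℂ)

lemma w0_ne (s : ℝ) : w0 s ≠ 0 := by
  have : (0 : ℝ) < 1 + s ^ 2 := by positivity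
  exact Complex.ofReal_ne_zero.2 (inv_ne_zero this.ne')

lemma w0_cont : Continuous w0 := by
  refine Complex.continuous_ofReal.comp ?_
  exact (by fun_prop : Continuous fun s : ℝ => 1 + s ^ 2).inv₀ fun s => by positivity

lemma w0_norm (s : ℝ) : ‖w0 s‖ = (1 + s ^ 2)⁻¹ := by
  rw [w0, Complex.norm_real, Real.norm_of_nonneg (by positivity)]

lemma w0_memLp : MemLp w0 2 volume := by
  rw [memLp_two_iff_integrable_sq_norm w0_cont.aestronglyMeasurable]
  refine Integrable.mono integrable_inv_one_add_sq ?_ (Eventually.of_forall fun s => ?_)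
  · exact (w0_cont.norm.pow 2).aestronglyMeasurable
  · rw [w0_norm, Real.norm_of_nonneg (by positivity), Real.norm_of_nonneg (by positivity)]
    have h1 : (1 + s ^ 2)⁻¹ ≤ 1 := inv_le_one_of_one_le₀ (by nlinarith [sq_nonneg s])
    have h2 : (0 : ℝ) ≤ (1 + s ^ 2)⁻¹ := by positivity
    nlinarith

/-- the corresponding element of `L²` -/
noncomputable def f0 : L2R ℂ := w0_memLp.toLp w0

lemma f0_coe : f0 =ᵐ[volume] w0 := w0_memLp.coeFn_toLp

lemma quot_bm (t : ℝ) : BM (fun s => w0 (s - t) / w0 s) := by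
  refine ⟨?_, 2 * (1 + t ^ 2), by positivity, fun s => ?_⟩
  · exact ((w0_cont.comp (continuous_id.sub continuous_const)).measurable).div
      w0_cont.measurable
  · rw [norm_div, w0_norm, w0_norm, div_eq_mul_inv, inv_inv, inv_mul_le_iff₀ (by positivity)]
    nlinarith [sq_nonneg (s - t), sq_nonneg s, sq_nonneg t, sq_nonneg (s - 2 * t),
      sq_nonneg ((s - t) * t), mul_nonneg (sq_nonneg (s - t)) (sq_nonneg t)]

/-- bounded multiples of `f0` are total -/
lemma eq_zero_of_f0 {g : L2R ℂ} (h : ∀ m : ℝ → ℂ, BM m → ⟪mulOp ℂ m f0, g⟫_ℂ = 0) : g = 0 := by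
  set g' : ℝ → ℂ := fun s => g s with hg'
  have hgm : Measurable g' := (Lp.stronglyMeasurable g).measurable
  set m : ℝ → ℂ := fun s => g' s / (1 + ‖g' s‖) with hm
  have hmb : BM m := by
    refine ⟨hgm.div (measurable_const.add (Complex.measurable_ofReal.comp hgm.norm)), 1,
      zero_le_one, fun s => ?_⟩
    rw [hm]
    simp only
    have h1 : ‖(1 : ℂ) + (‖g' s‖ : ℂ)‖ = 1 + ‖g' s‖ := by
      rw [← Complex.ofReal_one, ← Complex.ofReal_add, Complex.norm_real,
        Real.norm_of_nonneg (by positivity)]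
    rw [norm_div, h1, div_le_one (by positivity)]
    linarith [norm_nonneg (g' s)]
  have h1 := h m hmb
  rw [L2.inner_def] at h1
  have h2 : ∫ s, ⟪(mulOp ℂ m f0) s, g s⟫_ℂ =
      ((∫ s, (1 + s ^ 2)⁻¹ * (‖g' s‖ ^ 2 / (1 + ‖g' s‖)) : ℝ) : ℂ) := by
    rw [← integral_complex_ofReal]
    refine integral_congr_ae ?_
    filter_upwards [mulOp_coe hmb f0, f0_coe] with s e1 e2
    rw [e1, e2, w0, hm]
    simp only [RCLike.inner_apply, smul_eq_mul, map_mul, map_div₀, map_add, map_one,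
      Complex.conj_ofReal]
    have e3 : (starRingEnd ℂ) (g' s) * g s = ((‖g' s‖ ^ 2 : ℝ) : ℂ) := by
      rw [hg', RCLike.conj_mul]
      norm_cast
    have e4 : (1 : ℂ) + (‖g' s‖ : ℂ) ≠ 0 := by
      rw [← Complex.ofReal_one, ← Complex.ofReal_add]
      exact Complex.ofReal_ne_zero.2 (by positivity)
    push_cast
    push_cast at e3
    field_simp
    rw [← e3]
    ring
  rw [h2] at h1
  have h3 : ∫ s, (1 + s ^ 2)⁻¹ * (‖g' s‖ ^ 2 / (1 + ‖g' s‖)) = 0 := by exact_mod_cast h1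
  have hint : Integrable (fun s => (1 + s ^ 2)⁻¹ * (‖g' s‖ ^ 2 / (1 + ‖g' s‖))) := by
    have hsq : Integrable (fun s => ‖g' s‖ ^ 2) :=
      (Lp.memLp g).integrable_norm_pow two_ne_zero
    refine Integrable.mono hsq ?_ (Eventually.of_forall fun s => ?_)
    · have hmeas : Measurable (fun s => (1 + s ^ 2)⁻¹ * (‖g' s‖ ^ 2 / (1 + ‖g' s‖))) := by
        have e1 : Measurable fun s => ‖g' s‖ := hgm.norm
        fun_prop
      exact hmeas.aestronglyMeasurable
    · rw [Real.norm_of_nonneg (by positivity), Real.norm_of_nonneg (by positivity)]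
      have e1 : (1 + s ^ 2)⁻¹ ≤ 1 := inv_le_one_of_one_le₀ (by nlinarith [sq_nonneg s])
      have e2 : ‖g' s‖ ^ 2 / (1 + ‖g' s‖) ≤ ‖g' s‖ ^ 2 :=
        div_le_self (by positivity) (by linarith [norm_nonneg (g' s)])
      calc (1 + s ^ 2)⁻¹ * (‖g' s‖ ^ 2 / (1 + ‖g' s‖)) ≤ 1 * ‖g' s‖ ^ 2 := by gcongr
        _ = _ := one_mul _
  rw [integral_eq_zero_iff_of_nonneg (fun s => by positivity) hint] at h3
  ext1
  filter_upwards [h3, Lp.coeFn_zero ℂ 2 volume] with s e1 e2
  rw [e2]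
  have e1' : (1 + s ^ 2)⁻¹ * (‖g' s‖ ^ 2 / (1 + ‖g' s‖)) = 0 := e1
  have e3 : (0 : ℝ) < (1 + s ^ 2)⁻¹ := by positivity
  have e4 : ‖g' s‖ ^ 2 / (1 + ‖g' s‖) = 0 := by
    rcases mul_eq_zero.1 e1' with h | h
    · exact absurd h e3.ne'
    · exact h
  have e5 : ‖g' s‖ ^ 2 = 0 := by
    rcases div_eq_zero_iff.1 e4 with h | h
    · exact h
    · have : (0 : ℝ) < 1 + ‖g' s‖ := by positivity
      exact absurd h this.ne'
  exact norm_eq_zero.1 (pow_eq_zero_iff two_ne_zero |>.1 e5)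

theorem scalar_of_comm {R : L2R ℂ →L[ℂ] L2R ℂ}
    (h1 : ∀ m : ℝ → ℂ, BM m → ∀ f, R (mulOp ℂ m f) = mulOp ℂ m (R f))
    (h2 : ∀ t f, R (tr ℂ t f) = tr ℂ t (R f)) : ∃ c : ℂ, R = c • (1 : L2R ℂ →L[ℂ] L2R ℂ) := by
  set k : L2R ℂ := R f0 with hk
  set k' : ℝ → ℂ := fun s => k s with hk'
  have hkm : Measurable k' := (Lp.stronglyMeasurable k).measurable
  -- covariance for each translation
  have h3 : ∀ t : ℝ, ∀ᵐ s, k' (s - t) * w0 s = w0 (s - t) * k' s := by
    intro t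
    have e1 : tr ℂ t f0 = mulOp ℂ (fun s => w0 (s - t) / w0 s) f0 := by
      ext1
      filter_upwards [tr_coe t f0, ae_tr t f0_coe, mulOp_coe (quot_bm t) f0, f0_coe]
        with s a1 a2 a3 a4
      rw [a1, a2, a3, a4, smul_eq_mul, div_mul_cancel₀ _ (w0_ne s)]
    have e2 : tr ℂ t k = mulOp ℂ (fun s => w0 (s - t) / w0 s) k := by
      rw [hk, ← h2, e1, h1 _ (quot_bm t)]
    have e3 := tr_coe t k
    rw [e2] at e3
    filter_upwards [e3, mulOp_coe (quot_bm t) k] with s a1 a2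
    rw [a2, smul_eq_mul] at a1
    change k (s - t) * w0 s = w0 (s - t) * k s
    rw [← a1, div_mul_eq_mul_div, div_mul_cancel₀ _ (w0_ne s)]
  have hmeas : MeasurableSet {p : ℝ × ℝ | k' (p.2 - p.1) * w0 p.2 = w0 (p.2 - p.1) * k' p.2} := by
    refine measurableSet_eq_fun ?_ ?_
    · exact (hkm.comp (measurable_snd.sub measurable_fst)).mul
        (w0_cont.measurable.comp measurable_snd)
    · exact (w0_cont.measurable.comp (measurable_snd.sub measurable_fst)).mul
        (hkm.comp measurable_snd)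
  have h4 : ∀ᵐ s, ∀ᵐ t, k' (s - t) * w0 s = w0 (s - t) * k' s :=
    (Measure.ae_ae_comm (μ := (volume : Measure ℝ)) (ν := (volume : Measure ℝ))
      (p := fun t s => k' (s - t) * w0 s = w0 (s - t) * k' s) hmeas).1 (Eventually.of_forall h3)
  obtain ⟨s0, hs0⟩ := h4.exists
  set c : ℂ := k' s0 / w0 s0 with hc
  have h5 : k = c • f0 := by
    ext1
    have e1 : ∀ᵐ r : ℝ, k' (s0 - (s0 - r)) * w0 s0 = w0 (s0 - (s0 - r)) * k' s0 := by
      have hq : Measure.QuasiMeasurePreserving (fun r : ℝ => s0 - r) volume volume :=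
        (volume.measurePreserving_sub_left s0).quasiMeasurePreserving
      exact hq.ae hs0
    filter_upwards [e1, Lp.coeFn_smul c f0, f0_coe] with r a1 a2 a3
    rw [a2, Pi.smul_apply, a3, smul_eq_mul, hc]
    rw [sub_sub_cancel] at a1
    change k' r = _
    rw [div_mul_eq_mul_div, eq_div_iff (w0_ne s0), a1, mul_comm]
  refine ⟨c, ?_⟩
  have h6 : ∀ m : ℝ → ℂ, BM m → (R - c • (1 : L2R ℂ →L[ℂ] L2R ℂ)) (mulOp ℂ m f0) = 0 := by
    intro m hm
    change R (mulOp ℂ m f0) - c • (mulOp ℂ m f0) = 0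
    rw [h1 m hm, ← hk, h5, map_smul, sub_self]
  have h7 : ∀ g : L2R ℂ, (adjoint (R - c • (1 : L2R ℂ →L[ℂ] L2R ℂ))) g = 0 := by
    intro g
    refine eq_zero_of_f0 fun m hm => ?_
    rw [adjoint_inner_right, h6 m hm, inner_zero_left]
  rw [← sub_eq_zero]
  ext1 f
  refine ext_inner_left ℂ fun g => ?_
  rw [← adjoint_inner_left, h7, inner_zero_left, zero_apply, inner_zero_right]

end Pool.Agent.Helper23
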