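import Pool.Agent.Helper23.Avg

/-!
# Isometries in the eigenspaces
-/

open scoped InnerProductSpace
open ContinuousLinearMap Filter

namespace Pool.Agent.Helper23

variable {H : Type*} [NormedAddCommGroup H] [InnerProductSpace ℂ H] [CompleteSpace H]
variable {M N : VonNeumannAlgebra H} {ξ : H} {E : (H →L[ℂ] H) → (H →L[ℂ] H)}

lemma exists_sqrt_abs {A : Type*} [CStarAlgebra A] {x : A} (hx : IsSelfAdjoint x)
    (hx1 : ‖x‖ ≤ 1) : ∃ a k : A, star a = a ∧ star k = k ∧ a * a = 1 - x ∧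
      (1 + a) * k = 1 ∧ k * (1 + a) = 1 := by
  let _ : PartialOrder A := CStarAlgebra.spectralOrder _
  let _ : StarOrderedRing A := CStarAlgebra.spectralOrderedRing _
  have hp : 0 ≤ 1 - x := by
    rw [sub_nonneg]
    have h1 := IsSelfAdjoint.le_algebraMap_norm_self hx
    have h2 : algebraMap ℝ A ‖x‖ ≤ algebraMap ℝ A 1 := algebraMap_mono A hx1
    rw [map_one] at h2
    exact h1.trans h2
  set a := CFC.sqrt (1 - x) with ha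
  have ha0 : 0 ≤ a := CFC.sqrt_nonneg _
  have hsa : star a = a := IsSelfAdjoint.of_nonneg ha0
  have hunit : IsUnit (1 + a) := by
    by_contra hcon
    have h1 : (-1 : ℝ) ∈ spectrum ℝ a := by
      rw [spectrum.mem_iff]
      intro h
      apply hcon
      have h2 : algebraMap ℝ A (-1) - a = -(1 + a) := by
        rw [map_neg, map_one]; abel
      rw [h2] at h
      exact (IsUnit.neg_iff _).1 h
    have h2 := spectrum_nonneg_of_nonneg ha0 h1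
    linarith
  obtain ⟨u, hu⟩ := hunit
  refine ⟨a, ((u⁻¹ : Aˣ) : A), hsa, ?_, CFC.sqrt_mul_sqrt_self _ hp, ?_, ?_⟩
  · have h1 : star (1 + a) = 1 + a := by rw [star_add, star_one, hsa]
    have h2 : star ((u⁻¹ : Aˣ) : A) * (1 + a) = 1 := by
      have h3 : (1 + a) * ((u⁻¹ : Aˣ) : A) = 1 := by rw [← hu]; exact Units.mul_inv u
      have := congrArg star h3
      rwa [star_mul, star_one, h1] at this
    calc star ((u⁻¹ : Aˣ) : A) = star ((u⁻¹ : Aˣ) : A) * ((1 + a) * ((u⁻¹ : Aˣ) : A)) := by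
          rw [← hu, Units.mul_inv, mul_one]
      _ = ((u⁻¹ : Aˣ) : A) := by rw [← mul_assoc, h2, one_mul]
  · rw [← hu]; exact Units.mul_inv u
  · rw [← hu]; exact Units.inv_mul u

lemma exists_sqrt {γ : ℝ} (hγ : γ ≠ 0) {v : H →L[ℂ] H} (hv : v ∈ eig N ξ γ) (hv1 : ‖v‖ ≤ 1) :
    ∃ a ∈ eig N ξ 1, ∃ k ∈ eig N ξ 1, star a = a ∧ star k = k ∧ a * a = 1 - star v * v ∧
      (1 + a) * k = 1 ∧ k * (1 + a) = 1 := by
  have hx : star v * v ∈ eig N ξ 1 := star_mul_mem_eig_one hγ hv hv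
  obtain ⟨a, k, h1, h2, h3, h4, h5⟩ := exists_sqrt_abs (A := cent N ξ)
    (x := ⟨star v * v, hx⟩) (by
      rw [IsSelfAdjoint]
      apply Subtype.ext
      change star (star v * v) = star v * v
      rw [star_mul, star_star]) (by
      change ‖star v * v‖ ≤ 1
      rw [CStarRing.norm_star_mul_self]
      nlinarith [norm_nonneg v])
  have hc : ∀ {x y : cent N ξ}, x = y → (x : H →L[ℂ] H) = y := fun h => by rw [h]
  exact ⟨a, a.2, k, k.2, hc h1, hc h2, hc h3, hc h4, hc h5⟩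

namespace AP

variable (S : AP M N E ξ)
include S

/-- two-sided averaging: there is a rotated copy of `w₀` not orthogonal to the corners. -/
lemma exists_rot {γ : ℝ} (hγ : 0 < γ) {w₀ : H →L[ℂ] H} (hw₀ : w₀ ∈ eig N ξ γ) (hw1 : ‖w₀‖ ≤ 1)
    {a b : H →L[ℂ] H} (ha : a ∈ eig N ξ 1) (hb : b ∈ eig N ξ 1) (ha0 : a ≠ 0) (hb0 : b ≠ 0)
    (hw0 : w₀ ≠ 0) :
    ∃ w ∈ eig N ξ γ, ‖w‖ ≤ 1 ∧
      ‖(b * w * a) ξ‖ ^ 2 ≥ (1 / 4) * (‖b ξ‖ ^ 2 * ‖w₀ ξ‖ ^ 2 * ‖a ξ‖ ^ 2) := by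
  have hne : ∀ {c : H →L[ℂ] H}, c ∈ N → c ≠ 0 → 0 < ‖c ξ‖ := by
    intro c hc hc0
    exact norm_pos_iff.2 fun h => hc0 (S.sep c (S.le c hc) h)
  have ha' := hne ha.1 ha0
  have hb' := hne hb.1 hb0
  have hw' := hne hw₀.1 hw0
  -- first average: rotate star w₀ * w₀ on the right
  have hφ : ∀ c : H →L[ℂ] H, ⟪ξ, (star c * c) ξ⟫_ℂ = ((‖c ξ‖ ^ 2 : ℝ) : ℂ) := by
    intro c
    rw [norm_sq_apply]; rfl
  -- conjugation of star c * c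
  have hconj : ∀ c u : H →L[ℂ] H, star u * (star c * c) * u = star (c * u) * (c * u) := by
    intro c u
    rw [star_mul]; simp only [mul_assoc]
  -- step A
  have hx1 : star w₀ * w₀ ∈ eig N ξ 1 := star_mul_mem_eig_one hγ.ne' hw₀ hw₀
  obtain ⟨a', ha'M, ha'⟩ := S.exists_right one_pos ha
  -- the functional y ↦ ⟪a ξ, y (a ξ)⟫ = ⟪a ξ, a' (y ξ)⟫
  obtain ⟨u₂, hu₂, h2⟩ := S.exists_avg hx1.1 ((star a') (a ξ))
    (c := (1 / 2) * (‖w₀ ξ‖ ^ 2 * ‖a ξ‖ ^ 2)) (by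
      rw [inner_star_left, map_smul, inner_smul_right, hφ]
      have h3 : a' ξ = a ξ := by
        have := ha' 1 (one_mem M)
        simpa using this
      rw [h3, inner_self_eq_norm_sq_to_K]
      have : (((‖w₀ ξ‖ ^ 2 : ℝ) : ℂ) * ((‖a ξ‖ : ℂ)) ^ 2).re = ‖w₀ ξ‖ ^ 2 * ‖a ξ‖ ^ 2 := by
        norm_cast
      change _ < (((‖w₀ ξ‖ ^ 2 : ℝ) : ℂ) * ((‖a ξ‖ : ℂ)) ^ 2).re
      rw [this]
      have : 0 < ‖w₀ ξ‖ ^ 2 * ‖a ξ‖ ^ 2 := by positivity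
      linarith)
  have h2' : (1 / 2) * (‖w₀ ξ‖ ^ 2 * ‖a ξ‖ ^ 2) < ‖(w₀ * u₂ * a) ξ‖ ^ 2 := by
    rw [hconj, inner_star_left] at h2
    have hmem : star (w₀ * u₂) * (w₀ * u₂) ∈ M :=
      mul_mem (star_mem (mul_mem (S.le _ hw₀.1) (S.le _ hu₂.1.1)))
        (mul_mem (S.le _ hw₀.1) (S.le _ hu₂.1.1))
    rw [ha' _ hmem] at h2
    have h4 : ⟪a ξ, (star (w₀ * u₂) * (w₀ * u₂)) (a ξ)⟫_ℂ =
        ((‖(w₀ * u₂ * a) ξ‖ ^ 2 : ℝ) : ℂ) := by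
      rw [norm_sq_apply, inner_star_right]
      change ⟪a ξ, (star (w₀ * u₂)) ((w₀ * u₂) (a ξ))⟫_ℂ = _
      rw [inner_star_right]
      rfl
    rw [h4, Complex.ofReal_re] at h2
    exact h2
  -- step B
  set c := w₀ * u₂ * a with hc
  have hcg : c ∈ eig N ξ γ := eig_mul_right (eig_mul_right hw₀ hu₂.1) ha
  have hcpos : 0 < ‖c ξ‖ := by
    have : 0 < ‖c ξ‖ ^ 2 := lt_of_le_of_lt (by positivity) h2'
    by_contra hcon
    push Not at hcon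
    have : ‖c ξ‖ = 0 := le_antisymm hcon (norm_nonneg _)
    rw [this] at h2'
    have h5 : 0 ≤ (1 / 2) * (‖w₀ ξ‖ ^ 2 * ‖a ξ‖ ^ 2) := by positivity
    norm_num at h2'
    linarith
  obtain ⟨c', hc'M, hc'⟩ := S.exists_right hγ hcg
  have hx2 : star b * b ∈ eig N ξ 1 := star_mul_mem_eig_one one_ne_zero hb hb
  obtain ⟨u₁, hu₁, h1⟩ := S.exists_avg hx2.1 ((star c') (c ξ))
    (c := (1 / 2) * (‖b ξ‖ ^ 2 * ‖c ξ‖ ^ 2)) (by
      rw [inner_star_left, map_smul, inner_smul_right, hφ]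
      have h3 : c' ξ = c ξ := by
        have := hc' 1 (one_mem M)
        simpa using this
      rw [h3, inner_self_eq_norm_sq_to_K]
      have : (((‖b ξ‖ ^ 2 : ℝ) : ℂ) * ((‖c ξ‖ : ℂ)) ^ 2).re = ‖b ξ‖ ^ 2 * ‖c ξ‖ ^ 2 := by
        norm_cast
      change _ < (((‖b ξ‖ ^ 2 : ℝ) : ℂ) * ((‖c ξ‖ : ℂ)) ^ 2).re
      rw [this]
      have : 0 < ‖b ξ‖ ^ 2 * ‖c ξ‖ ^ 2 := by positivity
      linarith)
  have h1' : (1 / 2) * (‖b ξ‖ ^ 2 * ‖c ξ‖ ^ 2) < ‖(b * u₁ * c) ξ‖ ^ 2 := by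
    rw [hconj, inner_star_left] at h1
    have hmem : star (b * u₁) * (b * u₁) ∈ M :=
      mul_mem (star_mem (mul_mem (S.le _ hb.1) (S.le _ hu₁.1.1)))
        (mul_mem (S.le _ hb.1) (S.le _ hu₁.1.1))
    rw [hc' _ hmem] at h1
    have h4 : ⟪c ξ, (star (b * u₁) * (b * u₁)) (c ξ)⟫_ℂ =
        ((‖(b * u₁ * c) ξ‖ ^ 2 : ℝ) : ℂ) := by
      rw [norm_sq_apply, inner_star_right]
      change ⟪c ξ, (star (b * u₁)) ((b * u₁) (c ξ))⟫_ℂ = _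
      rw [inner_star_right]
      rfl
    rw [h4, Complex.ofReal_re] at h1
    exact h1
  refine ⟨u₁ * w₀ * u₂, eig_mul_right (eig_mul_left hu₁.1 hw₀) hu₂.1, ?_, ?_⟩
  · refine ContinuousLinearMap.opNorm_le_bound _ zero_le_one fun ζ => ?_
    change ‖u₁ (w₀ (u₂ ζ))‖ ≤ _
    rw [norm_of_isom hu₁.2.1]
    refine (w₀.le_of_opNorm_le hw1 _).trans ?_
    rw [norm_of_isom hu₂.2.1]
  · have h6 : b * (u₁ * w₀ * u₂) * a = b * u₁ * c := by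
      rw [hc]; simp only [mul_assoc]
    rw [h6]
    have h7 : (1 / 2) * (‖b ξ‖ ^ 2 * ((1 / 2) * (‖w₀ ξ‖ ^ 2 * ‖a ξ‖ ^ 2))) ≤
        (1 / 2) * (‖b ξ‖ ^ 2 * ‖c ξ‖ ^ 2) := by gcongr
    linarith

/-- one improvement step -/
lemma improve {γ : ℝ} (hγ : 0 < γ) {w₀ : H →L[ℂ] H} (hw₀ : w₀ ∈ eig N ξ γ) (hw1 : ‖w₀‖ ≤ 1)
    (hw0 : w₀ ≠ 0) {e : H →L[ℂ] H} (he : e ∈ eig N ξ 1) (hes : star e = e) (hee : e * e = e)
    (heφ : γ⁻¹ < ‖e ξ‖ ^ 2) {v : H →L[ℂ] H} (hv : v ∈ eig N ξ γ) (hv1 : ‖v‖ ≤ 1)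
    (hev : e * v = v) :
    ∃ v' ∈ eig N ξ γ, ‖v'‖ ≤ 1 ∧ e * v' = v' ∧ ‖v' ξ - v ξ‖ ^ 2 ≤ 1 - ‖v ξ‖ ^ 2 ∧
      1 - ‖v' ξ‖ ^ 2 ≤
        (1 - (1 / 25) * ((‖e ξ‖ ^ 2 - γ⁻¹) * ‖w₀ ξ‖ ^ 2)) * (1 - ‖v ξ‖ ^ 2) := by
  obtain ⟨a, ha, k, hk, has, hks, haa, hk1, hk2⟩ := exists_sqrt hγ.ne' hv hv1
  have hve : star v * e = star v := by
    have := congrArg star hev
    rwa [star_mul, hes] at this
  set b := e - v * k * star v with hb
  have hbg : b ∈ eig N ξ 1 :=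
    sub_mem he (mul_star_mem_eig_one hγ.ne' (eig_mul_right hv hk) hv)
  have hbs : star b = b := by
    rw [hb, star_sub, hes, star_mul, star_mul, star_star, hks, mul_assoc]
  have haa' : star v * v = 1 - a * a := by rw [haa]; abel
  have hak : (1 - a * a) * k = 1 - a := by
    have : (1 - a * a) = (1 - a) * (1 + a) := by
      rw [sub_mul, mul_add, mul_add, one_mul, one_mul, mul_one]; abel
    rw [this, mul_assoc, hk1, mul_one]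
  have hbb : b * b = e - v * star v := by
    have h1 : b * b = e * e - e * (v * k * star v) - v * k * star v * e +
        v * k * (star v * v) * k * star v := by
      rw [hb]
      simp only [sub_mul, mul_sub, mul_assoc]
      abel
    have h2 : e * (v * k * star v) = v * k * star v := by
      rw [← mul_assoc, ← mul_assoc, hev]
    have h3 : v * k * star v * e = v * k * star v := by
      rw [mul_assoc, hve]
    have h4 : v * k * (star v * v) * k * star v = v * (k * (1 - a)) * star v := by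
      rw [haa']
      calc v * k * (1 - a * a) * k * star v = v * (k * ((1 - a * a) * k)) * star v := by
            simp only [mul_assoc]
        _ = _ := by rw [hak]
    rw [h1, h2, h3, h4, hee]
    have h5 : v * (k * (1 - a)) * star v = v * k * star v + v * k * star v -
        v * (k * (1 + a)) * star v := by
      simp only [mul_sub, mul_add, sub_mul, add_mul, mul_one]
      abel
    rw [h5, hk2, mul_one]
    abel
  have hbv : b * v = v * a := by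
    rw [hb, sub_mul, hev, mul_assoc, haa']
    have h1 : v * k * (1 - a * a) = v * (1 - a) := by
      have h2 : k * (1 - a * a) = 1 - a := by
        have := congrArg star hak
        rw [star_mul, star_sub, star_sub, star_mul, star_one, has, hks] at this
        exact this
      rw [mul_assoc, h2]
    rw [h1, mul_sub, mul_one]
    abel
  -- norms
  have hcon : ∀ ζ, ‖v ζ‖ ≤ ‖ζ‖ := fun ζ => by
    have := v.le_of_opNorm_le hv1 ζ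
    rwa [one_mul] at this
  have hna : ∀ ζ, ‖a ζ‖ ^ 2 = ‖ζ‖ ^ 2 - ‖v ζ‖ ^ 2 := by
    intro ζ
    apply Complex.ofReal_injective
    rw [norm_sq_apply, has]
    change ⟪ζ, (a * a) ζ⟫_ℂ = _
    rw [haa, sub_apply, inner_sub_right, Complex.ofReal_sub, norm_sq_apply v]
    rw [one_apply_eq_self, inner_self_eq_norm_sq_to_K]
    push_cast
    rfl
  have hnb : ∀ ζ, ‖b ζ‖ ^ 2 = ‖e ζ‖ ^ 2 - ‖(star v) ζ‖ ^ 2 := by
    intro ζ
    apply Complex.ofReal_injective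
    rw [norm_sq_apply, hbs]
    change ⟪ζ, (b * b) ζ⟫_ℂ = _
    rw [hbb, sub_apply, inner_sub_right, Complex.ofReal_sub, norm_sq_apply e,
      norm_sq_apply (star v), hes, star_star]
    change _ = ⟪ζ, (e * e) ζ⟫_ℂ - _
    rw [hee]
    rfl
  have hne : ∀ ζ, ‖e ζ‖ ≤ ‖ζ‖ := by
    intro ζ
    have h1 : ‖e ζ‖ ^ 2 ≤ ‖ζ‖ * ‖e ζ‖ := by
      have h2 := norm_sq_apply e ζ
      rw [hes] at h2
      have h3 : ⟪ζ, e (e ζ)⟫_ℂ = ⟪ζ, e ζ⟫_ℂ := by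
        change ⟪ζ, (e * e) ζ⟫_ℂ = _
        rw [hee]
      rw [h3] at h2
      have h4 : ‖((‖e ζ‖ ^ 2 : ℝ) : ℂ)‖ ≤ ‖ζ‖ * ‖e ζ‖ := by
        rw [h2]; exact norm_inner_le_norm _ _
      rwa [Complex.norm_real, Real.norm_of_nonneg (by positivity)] at h4
    by_contra hcon
    push Not at hcon
    nlinarith [norm_nonneg ζ]
  have hnb1 : ∀ ζ, ‖b ζ‖ ≤ ‖ζ‖ := by
    intro ζ
    refine (pow_le_pow_iff_left₀ (norm_nonneg _) (norm_nonneg _) two_ne_zero).1 ?_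
    rw [hnb]
    have h1 := pow_le_pow_left₀ (norm_nonneg _) (hne ζ) 2
    nlinarith [sq_nonneg ‖(star v) ζ‖]
  have hbφ : ‖e ξ‖ ^ 2 - γ⁻¹ ≤ ‖b ξ‖ ^ 2 := by
    rw [hnb]
    have h1 := S.eig_norm_sq hv
    have h2 : ‖v ξ‖ ^ 2 ≤ 1 := by
      have h3 := hcon ξ
      rw [S.norm_one] at h3
      nlinarith [norm_nonneg (v ξ)]
    have h3 : ‖(star v) ξ‖ ^ 2 = γ⁻¹ * ‖v ξ‖ ^ 2 := by
      rw [h1, ← mul_assoc, inv_mul_cancel₀ hγ.ne', one_mul]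
    rw [h3]
    have h4 : γ⁻¹ * ‖v ξ‖ ^ 2 ≤ γ⁻¹ * 1 := mul_le_mul_of_nonneg_left h2 (inv_pos.2 hγ).le
    linarith
  have haξ : ‖a ξ‖ ^ 2 = 1 - ‖v ξ‖ ^ 2 := by rw [hna, S.norm_one]; norm_num
  by_cases ha0 : a = 0
  · have h1 : 1 - ‖v ξ‖ ^ 2 = 0 := by rw [← haξ, ha0]; simp
    refine ⟨v, hv, hv1, hev, ?_, ?_⟩
    · rw [sub_self, norm_zero, h1]; norm_num
    · rw [h1, mul_zero]
  have hb0 : b ≠ 0 := by
    intro h
    rw [h] at hbφ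
    simp only [zero_apply, norm_zero] at hbφ
    norm_num at hbφ
    linarith
  obtain ⟨w₁, hw₁, hw₁n, hw₁r⟩ := S.exists_rot hγ hw₀ hw1 ha hbg ha0 hb0 hw0
  -- sign choice
  obtain ⟨w, hw, hwn, hwr, hwpos⟩ : ∃ w ∈ eig N ξ γ, ‖w‖ ≤ 1 ∧
      ‖(b * w * a) ξ‖ ^ 2 ≥ (1 / 4) * (‖b ξ‖ ^ 2 * ‖w₀ ξ‖ ^ 2 * ‖a ξ‖ ^ 2) ∧
      0 ≤ (⟪v ξ, (b * w * a) ξ⟫_ℂ).re := by
    rcases le_total 0 (⟪v ξ, (b * w₁ * a) ξ⟫_ℂ).re with h | h
    · exact ⟨w₁, hw₁, hw₁n, hw₁r, h⟩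
    · refine ⟨-w₁, Submodule.neg_mem _ hw₁, by rwa [norm_neg], ?_, ?_⟩
      · rw [mul_neg, neg_mul, neg_apply, norm_neg]
        exact hw₁r
      · rw [mul_neg, neg_mul, neg_apply, inner_neg_right, Complex.neg_re]
        linarith
  set g := b * w * a with hg
  have hgg : g ∈ eig N ξ γ := eig_mul_right (eig_mul_left hbg hw) ha
  have heb : e * b = b := by
    rw [hb, mul_sub, hee, ← mul_assoc, ← mul_assoc, hev]
  have hng : ∀ ζ, ‖g ζ‖ ≤ ‖a ζ‖ := by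
    intro ζ
    change ‖b (w (a ζ))‖ ≤ _
    refine (hnb1 _).trans ?_
    have := w.le_of_opNorm_le hwn (a ζ)
    rwa [one_mul] at this
  have hexp : ∀ ζ, ‖(v + (2 / 5 : ℂ) • g) ζ‖ ^ 2 =
      ‖v ζ‖ ^ 2 + (4 / 5) * (⟪v ζ, g ζ⟫_ℂ).re + (4 / 25) * ‖g ζ‖ ^ 2 := by
    intro ζ
    rw [add_apply, smul_apply]
    have h1 := @norm_add_sq ℂ _ _ _ _ (v ζ) ((2 / 5 : ℂ) • g ζ)
    rw [h1, inner_smul_right, norm_smul]
    have h2 : (RCLike.re ((2 / 5 : ℂ) * ⟪v ζ, g ζ⟫_ℂ) : ℝ) = (2 / 5) * (⟪v ζ, g ζ⟫_ℂ).re := by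
      have : (2 / 5 : ℂ) = ((2 / 5 : ℝ) : ℂ) := by push_cast; rfl
      rw [this, RCLike.re_to_complex, Complex.re_ofReal_mul]
    have h3 : ‖(2 / 5 : ℂ)‖ = 2 / 5 := by
      have : (2 / 5 : ℂ) = ((2 / 5 : ℝ) : ℂ) := by push_cast; rfl
      rw [this, Complex.norm_real, Real.norm_of_nonneg (by norm_num)]
    rw [h2, h3, mul_pow]
    ring
  refine ⟨v + (2 / 5 : ℂ) • g, add_mem hv (Submodule.smul_mem _ _ hgg), ?_, ?_, ?_, ?_⟩
  · refine ContinuousLinearMap.opNorm_le_bound _ zero_le_one fun ζ => ?_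
    rw [one_mul]
    refine (pow_le_pow_iff_left₀ (norm_nonneg _) (norm_nonneg _) two_ne_zero).1 ?_
    rw [hexp]
    have h1 : ⟪v ζ, g ζ⟫_ℂ = ⟪v (a ζ), w (a ζ)⟫_ℂ := by
      change ⟪v ζ, b (w (a ζ))⟫_ℂ = _
      have h2 : b (w (a ζ)) = (star b) (w (a ζ)) := by rw [hbs]
      rw [h2, inner_star_right]
      have h3 : b (v ζ) = v (a ζ) := congrArg (fun T : H →L[ℂ] H => T ζ) hbv
      rw [h3]
    have h2 : (⟪v ζ, g ζ⟫_ℂ).re ≤ ‖a ζ‖ ^ 2 := by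
      rw [h1]
      refine (Complex.re_le_norm _).trans ((norm_inner_le_norm _ _).trans ?_)
      rw [sq]
      have e1 := hcon (a ζ)
      have e2 : ‖w (a ζ)‖ ≤ ‖a ζ‖ := by
        have := w.le_of_opNorm_le hwn (a ζ)
        rwa [one_mul] at this
      exact mul_le_mul e1 e2 (norm_nonneg _) (norm_nonneg _)
    have h3 : ‖g ζ‖ ^ 2 ≤ ‖a ζ‖ ^ 2 := pow_le_pow_left₀ (norm_nonneg _) (hng ζ) 2
    have h4 := hna ζ
    have h5 : 0 ≤ ‖a ζ‖ ^ 2 := by positivity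
    nlinarith
  · rw [mul_add, hev, mul_smul_comm, hg, ← mul_assoc, ← mul_assoc, heb]
  · have h1 : (v + (2 / 5 : ℂ) • g) ξ - v ξ = (2 / 5 : ℂ) • g ξ := by
      rw [add_apply, smul_apply, add_sub_cancel_left]
    have h3 : ‖(2 / 5 : ℂ)‖ = 2 / 5 := by
      have : (2 / 5 : ℂ) = ((2 / 5 : ℝ) : ℂ) := by push_cast; rfl
      rw [this, Complex.norm_real, Real.norm_of_nonneg (by norm_num)]
    rw [h1, norm_smul, h3, mul_pow, ← haξ]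
    have h4 : ‖g ξ‖ ^ 2 ≤ ‖a ξ‖ ^ 2 := pow_le_pow_left₀ (norm_nonneg _) (hng ξ) 2
    nlinarith [sq_nonneg ‖g ξ‖]
  · rw [hexp, ← haξ]
    have h5 : (4 / 25) * ((1 / 4) * ((‖e ξ‖ ^ 2 - γ⁻¹) * ‖w₀ ξ‖ ^ 2 * ‖a ξ‖ ^ 2)) ≤
        (4 / 25) * ‖g ξ‖ ^ 2 := by
      refine mul_le_mul_of_nonneg_left (le_trans ?_ hwr) (by norm_num)
      gcongr
    have h6 : ‖a ξ‖ ^ 2 = 1 - ‖v ξ‖ ^ 2 := haξ
    nlinarith

/-- Isometries in the eigenspaces with range in a given corner. -/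
theorem exists_isometry {γ : ℝ} (hγ : γ ∈ Gam N ξ) {e : H →L[ℂ] H} (he : e ∈ eig N ξ 1)
    (hes : star e = e) (hee : e * e = e) (heφ : γ⁻¹ < ‖e ξ‖ ^ 2) :
    ∃ v ∈ eig N ξ γ, star v * v = 1 ∧ e * v = v := by
  obtain ⟨hγ0, w₁, hw₁, hw₁0⟩ := hγ
  set w₀ := ((‖w₁‖⁻¹ : ℝ) : ℂ) • w₁ with hw₀
  have hw₁n : 0 < ‖w₁‖ := norm_pos_iff.2 hw₁0
  have hw₀g : w₀ ∈ eig N ξ γ := Submodule.smul_mem _ _ hw₁
  have hw₀n : ‖w₀‖ ≤ 1 := by
    rw [hw₀, norm_smul, Complex.norm_real, Real.norm_of_nonneg (by positivity),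
      inv_mul_cancel₀ hw₁n.ne']
  have hw₀0 : w₀ ≠ 0 := by
    rw [hw₀]
    refine smul_ne_zero ?_ hw₁0
    exact_mod_cast (inv_pos.2 hw₁n).ne'
  have hne : ‖e ξ‖ ≤ 1 := by
    have h1 : ‖e ξ‖ ^ 2 ≤ ‖ξ‖ * ‖e ξ‖ := by
      have h2 := norm_sq_apply e ξ
      rw [hes] at h2
      have h3 : ⟪ξ, e (e ξ)⟫_ℂ = ⟪ξ, e ξ⟫_ℂ := by
        change ⟪ξ, (e * e) ξ⟫_ℂ = _
        rw [hee]
      rw [h3] at h2
      have h4 : ‖((‖e ξ‖ ^ 2 : ℝ) : ℂ)‖ ≤ ‖ξ‖ * ‖e ξ‖ := by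
        rw [h2]; exact norm_inner_le_norm _ _
      rwa [Complex.norm_real, Real.norm_of_nonneg (by positivity)] at h4
    rw [S.norm_one, one_mul] at h1
    by_contra hcon
    push Not at hcon
    nlinarith
  set c := (1 / 25) * ((‖e ξ‖ ^ 2 - γ⁻¹) * ‖w₀ ξ‖ ^ 2) with hc
  have hw₀ξ : 0 < ‖w₀ ξ‖ := norm_pos_iff.2 fun h => hw₀0 (S.sep w₀ (S.le w₀ hw₀g.1) h)
  have hw₀ξ1 : ‖w₀ ξ‖ ≤ 1 := by
    have := w₀.le_of_opNorm_le hw₀n ξ
    rwa [S.norm_one, one_mul] at this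
  have hc0 : 0 < c := by
    have : 0 < ‖e ξ‖ ^ 2 - γ⁻¹ := by linarith
    positivity
  have hc1 : c < 1 := by
    have h1 : ‖e ξ‖ ^ 2 ≤ 1 := by nlinarith [norm_nonneg (e ξ)]
    have h2 : ‖w₀ ξ‖ ^ 2 ≤ 1 := by nlinarith [norm_nonneg (w₀ ξ)]
    have h3 : 0 < γ⁻¹ := inv_pos.2 hγ0
    have h4 : (‖e ξ‖ ^ 2 - γ⁻¹) * ‖w₀ ξ‖ ^ 2 ≤ 1 * 1 :=
      mul_le_mul (by linarith) h2 (by positivity) (by norm_num)
    rw [hc]
    linarith
  have hstep : ∀ v : {v : H →L[ℂ] H // v ∈ eig N ξ γ ∧ ‖v‖ ≤ 1 ∧ e * v = v},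
      ∃ v' : {v : H →L[ℂ] H // v ∈ eig N ξ γ ∧ ‖v‖ ≤ 1 ∧ e * v = v},
        ‖v'.1 ξ - v.1 ξ‖ ^ 2 ≤ 1 - ‖v.1 ξ‖ ^ 2 ∧
          1 - ‖v'.1 ξ‖ ^ 2 ≤ (1 - c) * (1 - ‖v.1 ξ‖ ^ 2) := by
    rintro ⟨v, hv, hv1, hev⟩
    obtain ⟨v', h1, h2, h3, h4, h5⟩ :=
      S.improve hγ0 hw₀g hw₀n hw₀0 he hes hee heφ hv hv1 hev
    exact ⟨⟨v', h1, h2, h3⟩, h4, h5⟩
  choose nxt hn1 hn2 using hstep
  let v : ℕ → {v : H →L[ℂ] H // v ∈ eig N ξ γ ∧ ‖v‖ ≤ 1 ∧ e * v = v} := fun n =>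
    Nat.rec ⟨0, Submodule.zero_mem _, by simp, by simp⟩ (fun _ v => nxt v) n
  have hvs : ∀ n, v (n + 1) = nxt (v n) := fun n => rfl
  have hx : ∀ n, 1 - ‖(v n).1 ξ‖ ^ 2 ≤ (1 - c) ^ n := by
    intro n
    induction n with
    | zero =>
      have : (v 0).1 = 0 := rfl
      rw [this]
      simp
    | succ n ih =>
      have e1 : (1 - c) ^ (n + 1) = (1 - c) * (1 - c) ^ n := pow_succ' _ _
      have e2 : 0 ≤ 1 - c := by linarith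
      rw [hvs, e1]
      exact (hn2 (v n)).trans (mul_le_mul_of_nonneg_left ih e2)
  set r := Real.sqrt (1 - c) with hr
  have hr0 : 0 ≤ r := Real.sqrt_nonneg _
  have hr1 : r < 1 := by
    rw [hr]
    have : Real.sqrt (1 - c) < Real.sqrt 1 := Real.sqrt_lt_sqrt (by linarith) (by linarith)
    rwa [Real.sqrt_one] at this
  have hr2 : r ^ 2 = 1 - c := Real.sq_sqrt (by linarith)
  have hcau : CauchySeq (fun n => (v n).1 ξ) := by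
    refine cauchySeq_of_le_geometric r 1 hr1 fun n => ?_
    rw [one_mul, dist_eq_norm, norm_sub_rev]
    refine (pow_le_pow_iff_left₀ (norm_nonneg _) (by positivity) two_ne_zero).1 ?_
    rw [← pow_mul, mul_comm n 2, pow_mul, hr2, hvs]
    exact (hn1 (v n)).trans (hx n)
  obtain ⟨η, hη⟩ := cauchySeq_tendsto_of_complete hcau
  obtain ⟨w, hw, hwη, hwn, hwlim⟩ := S.eig_limit (γ := γ) zero_le_one
    (fun n => (v n).2.1) (fun n => (v n).2.2.1) hη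
  have hwξ : ‖w ξ‖ = 1 := by
    have h1 : Tendsto (fun n => ‖(v n).1 ξ‖ ^ 2) atTop (nhds (‖w ξ‖ ^ 2)) :=
      ((hwlim ξ).norm).pow 2
    have h2 : Tendsto (fun n => 1 - (1 - c) ^ n) atTop (nhds (1 - 0)) :=
      (tendsto_pow_atTop_nhds_zero_of_lt_one (by linarith) (by linarith)).const_sub 1
    rw [sub_zero] at h2
    have h3 : 1 ≤ ‖w ξ‖ ^ 2 := le_of_tendsto_of_tendsto' h2 h1 fun n => by
      have := hx n
      linarith
    have h4 : ‖w ξ‖ ≤ 1 := by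
      have := w.le_of_opNorm_le hwn ξ
      rwa [S.norm_one, one_mul] at this
    nlinarith [norm_nonneg (w ξ)]
  refine ⟨w, hw, ?_, ?_⟩
  · refine eq_of_dense N S.dense_commN (mul_mem (star_mem hw.1) hw.1) (one_mem N) ?_
    have h1 : ‖(star w * w) ξ - ξ‖ ^ 2 ≤ 0 := by
      have h2 := @norm_sub_sq ℂ _ _ _ _ ((star w * w) ξ) ξ
      have h3 : ⟪(star w * w) ξ, ξ⟫_ℂ = 1 := by
        change ⟪(star w) (w ξ), ξ⟫_ℂ = 1
        rw [inner_star_left, inner_self_eq_norm_sq_to_K, hwξ]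
        simp
      have h4 : ‖(star w * w) ξ‖ ≤ 1 := by
        change ‖(star w) (w ξ)‖ ≤ 1
        have h5 : ‖star w‖ ≤ 1 := by rw [norm_star]; exact hwn
        have := (star w).le_of_opNorm_le h5 (w ξ)
        rwa [hwξ, one_mul] at this
      rw [h2, h3, S.norm_one]
      have h5 : ‖(star w * w) ξ‖ ^ 2 ≤ 1 := by nlinarith [norm_nonneg ((star w * w) ξ)]
      simp only [RCLike.one_re]
      linarith
    have h2 : ‖(star w * w) ξ - ξ‖ = 0 := by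
      have := sq_nonneg ‖(star w * w) ξ - ξ‖
      exact pow_eq_zero_iff two_ne_zero |>.1 (le_antisymm h1 this)
    rw [one_apply_eq_self]
    exact sub_eq_zero.1 (norm_eq_zero.1 h2)
  · ext ζ
    have h1 : Tendsto (fun n => e ((v n).1 ζ)) atTop (nhds (e (w ζ))) :=
      (e.continuous.tendsto _).comp (hwlim ζ)
    have h2 : ∀ n, e ((v n).1 ζ) = (v n).1 ζ := fun n =>
      congrArg (fun T : H →L[ℂ] H => T ζ) (v n).2.2.2
    simp only [h2] at h1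
    exact tendsto_nhds_unique h1 (hwlim ζ)

end AP

end Pool.Agent.Helper23
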