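import Pool.Agent.Helper23.Ampl

/-!
# Assembly
-/

open scoped InnerProductSpace Topology ENNReal
open ContinuousLinearMap Filter MeasureTheory

set_option linter.unusedSectionVars false
set_option linter.unusedVariables false

namespace Pool.Agent.Helper23

variable {H : Type*} [NormedAddCommGroup H] [InnerProductSpace ℂ H] [CompleteSpace H]
variable {M N : VonNeumannAlgebra H} {ξ : H} {E : (H →L[ℂ] H) → (H →L[ℂ] H)}

section transport

variable {K : Type*} [NormedAddCommGroup K] [InnerProductSpace ℂ K] [CompleteSpace K]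

lemma conj_nonneg (W : H ≃ₗᵢ[ℂ] K) {x : H →L[ℂ] H} (hx : 0 ≤ x) : 0 ≤ W.conjStarAlgEquiv x :=
  map_nonneg W.conjStarAlgEquiv hx

lemma conj_le (W : H ≃ₗᵢ[ℂ] K) {x y : H →L[ℂ] H} (hx : x ≤ y) :
    W.conjStarAlgEquiv x ≤ W.conjStarAlgEquiv y := by
  rw [← sub_nonneg, ← map_sub]
  exact conj_nonneg W (sub_nonneg.2 hx)

lemma conj_symm_nonneg (W : H ≃ₗᵢ[ℂ] K) {x : K →L[ℂ] K} (hx : 0 ≤ x) :
    0 ≤ W.conjStarAlgEquiv.symm x :=
  map_nonneg W.conjStarAlgEquiv.symm hx

lemma inner_conj (W : H ≃ₗᵢ[ℂ] K) (x : H →L[ℂ] H) (η : K) :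
    ⟪η, W.conjStarAlgEquiv x η⟫_ℂ = ⟪W.symm η, x (W.symm η)⟫_ℂ := by
  rw [LinearIsometryEquiv.conjStarAlgEquiv_apply_apply]
  have := W.inner_map_map (W.symm η) (x (W.symm η))
  rw [W.apply_symm_apply] at this
  exact this

open RBF

lemma transport_scaling {A : VonNeumannAlgebra H} {A' : VonNeumannAlgebra K} (W : H ≃ₗᵢ[ℂ] K)
    (hA : ∀ x, x ∈ A ↔ W.conjStarAlgEquiv x ∈ A') (ψ : (K →L[ℂ] K) → ℝ≥0∞) (l : ℝ)
    (u : H →L[ℂ] H) :
    ScalingUnitary A (fun x => ψ (W.conjStarAlgEquiv x)) l u ↔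
      ScalingUnitary A' ψ l (W.conjStarAlgEquiv u) := by
  have hinj : Function.Injective ⇑W.conjStarAlgEquiv := EquivLike.injective _
  have hone : W.conjStarAlgEquiv (1 : H →L[ℂ] H) = 1 := map_one _
  constructor
  · rintro ⟨h1, h2, h3, h4⟩
    refine ⟨(hA u).1 h1, ?_, ?_, fun X hX hX0 => ?_⟩
    · rw [← map_star, ← map_mul, h2, hone]
    · rw [← map_star, ← map_mul, h3, hone]
    · have e1 : W.conjStarAlgEquiv (W.conjStarAlgEquiv.symm X) = X :=
        W.conjStarAlgEquiv.apply_symm_apply X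
      have h5 := h4 (W.conjStarAlgEquiv.symm X) ((hA _).2 (by rw [e1]; exact hX))
        (conj_symm_nonneg W hX0)
      change ψ (W.conjStarAlgEquiv (star u * W.conjStarAlgEquiv.symm X * u)) =
        _ * ψ (W.conjStarAlgEquiv (W.conjStarAlgEquiv.symm X)) at h5
      rw [map_mul, map_mul, map_star, e1] at h5
      exact h5
  · rintro ⟨h1, h2, h3, h4⟩
    refine ⟨(hA u).2 h1, ?_, ?_, fun X hX hX0 => ?_⟩
    · apply hinj
      rw [map_mul, map_star, h2, hone]
    · apply hinj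
      rw [map_mul, map_star, h3, hone]
    · have h5 := h4 _ ((hA X).1 hX) (conj_nonneg W hX0)
      change ψ (W.conjStarAlgEquiv (star u * X * u)) = _
      rw [map_mul, map_mul, map_star]
      exact h5

theorem transport_dominant {A : VonNeumannAlgebra H} {A' : VonNeumannAlgebra K} (W : H ≃ₗᵢ[ℂ] K)
    (hA : ∀ x, x ∈ A ↔ W.conjStarAlgEquiv x ∈ A') {ψ : (K →L[ℂ] K) → ℝ≥0∞}
    (hψ : IsDominant A' ψ) : IsDominant A (fun x => ψ (W.conjStarAlgEquiv x)) where
  add x hx y hy hx0 hy0 := by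
    rw [map_add]
    exact hψ.add _ ((hA x).1 hx) _ ((hA y).1 hy) (conj_nonneg W hx0) (conj_nonneg W hy0)
  smul x hx hx0 c hc := by
    rw [map_smul]
    exact hψ.smul _ ((hA x).1 hx) (conj_nonneg W hx0) c hc
  faithful x hx hx0 h := by
    have := hψ.faithful _ ((hA x).1 hx) (conj_nonneg W hx0) h
    exact (map_eq_zero_iff W.conjStarAlgEquiv (EquivLike.injective _)).1 this
  normal D x hD hdir hDA hx hlub := by
    have h1 := hψ.normal (W.conjStarAlgEquiv '' D) (W.conjStarAlgEquiv x) (hD.image _) ?_ ?_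
      ((hA x).1 hx) ?_
    · rw [h1, iSup_image]
    · rintro _ ⟨d, hd, rfl⟩ _ ⟨d', hd', rfl⟩
      obtain ⟨e, he, h2, h3⟩ := hdir d hd d' hd'
      exact ⟨_, ⟨e, he, rfl⟩, conj_le W h2, conj_le W h3⟩
    · rintro _ ⟨d, hd, rfl⟩
      exact ⟨(hA d).1 (hDA d hd).1, conj_nonneg W (hDA d hd).2⟩
    · intro η
      rw [inner_conj]
      have h2 := hlub (W.symm η)
      have h3 : {r : ℝ | ∃ d ∈ W.conjStarAlgEquiv '' D, r = (⟪η, d η⟫_ℂ).re} =
          {r : ℝ | ∃ d ∈ D, r = (⟪W.symm η, d (W.symm η)⟫_ℂ).re} := by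
        ext r
        constructor
        · rintro ⟨_, ⟨d, hd, rfl⟩, rfl⟩
          exact ⟨d, hd, by rw [inner_conj]⟩
        · rintro ⟨d, hd, rfl⟩
          exact ⟨_, ⟨d, hd, rfl⟩, by rw [inner_conj]⟩
      rw [h3]
      exact h2
  semifinite η h := by
    have h1 : W η = 0 := by
      refine hψ.semifinite (W η) fun X hX hX0 hXt => ?_
      have e1 : W.conjStarAlgEquiv (W.conjStarAlgEquiv.symm X) = X :=
        W.conjStarAlgEquiv.apply_symm_apply X
      have h2 := h (W.conjStarAlgEquiv.symm X) ((hA _).2 (by rw [e1]; exact hX))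
        (conj_symm_nonneg W hX0) (by
          change ψ (W.conjStarAlgEquiv (W.conjStarAlgEquiv.symm X)) ≠ ⊤
          rw [e1]; exact hXt)
      rw [LinearIsometryEquiv.symm_conjStarAlgEquiv_apply_apply] at h2
      exact (map_eq_zero_iff W.symm W.symm.injective).1 h2
    exact (map_eq_zero_iff W W.injective).1 h1
  scale l hl := by
    obtain ⟨u, hu⟩ := hψ.scale l hl
    refine ⟨W.conjStarAlgEquiv.symm u, (transport_scaling W hA ψ l _).2 ?_⟩
    have e1 : W.conjStarAlgEquiv (W.conjStarAlgEquiv.symm u) = u :=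
      W.conjStarAlgEquiv.apply_symm_apply u
    rw [e1]; exact hu
  properlyInfinite := by
    obtain ⟨v, w, h1, h2, h3, h4⟩ := hψ.properlyInfinite
    have hinj : Function.Injective ⇑W.conjStarAlgEquiv := EquivLike.injective _
    have e1 : ∀ X, W.conjStarAlgEquiv (W.conjStarAlgEquiv.symm X) = X :=
      W.conjStarAlgEquiv.apply_symm_apply
    have hone : W.conjStarAlgEquiv (1 : H →L[ℂ] H) = 1 := map_one _
    refine ⟨W.conjStarAlgEquiv.symm v, W.conjStarAlgEquiv.symm w, ?_, ?_, ?_, fun T hT => ?_⟩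
    · apply hinj; rw [map_mul, map_star, e1, hone, h1]
    · apply hinj; rw [map_mul, map_star, e1, hone, h2]
    · apply hinj; rw [map_mul, map_star, e1, e1, map_zero, h3]
    · have h5 := h4 (W.conjStarAlgEquiv T) fun u hu => by
        have h6 := hT (W.conjStarAlgEquiv.symm u) ((transport_scaling W hA ψ 1 _).2 (by
          rw [e1]; exact hu))
        have h7 := congrArg W.conjStarAlgEquiv h6
        rwa [map_mul, map_mul, e1] at h7
      constructor
      · apply hinj; rw [map_mul, map_mul, e1]; exact h5.1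
      · apply hinj; rw [map_mul, map_mul, e1]; exact h5.2

end transport

lemma conj_mem_amp {W : H ≃ₗᵢ[ℂ] L2R H}
    (hW : ∀ a ∈ N.commutant, ∀ x, W (a x) = lift a (W x)) {A : VonNeumannAlgebra H}
    (hA : ∀ a ∈ A.commutant, a ∈ N.commutant) (x : H →L[ℂ] H) :
    x ∈ A ↔ W.conjStarAlgEquiv x ∈ amp A := by
  rw [mem_iff_commutes, mem_amp]
  have hsymm : ∀ a ∈ N.commutant, ∀ F, W.symm (lift a F) = a (W.symm F) := by
    intro a ha F
    apply W.injective
    rw [W.apply_symm_apply, hW a ha, W.apply_symm_apply]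
  constructor
  · intro h a ha
    ext F : 1
    change lift a (W (x (W.symm F))) = W (x (W.symm (lift a F)))
    rw [← hW a (hA a ha), hsymm a (hA a ha)]
    exact congrArg (fun T : H →L[ℂ] H => W (T (W.symm F))) (h a ha)
  · intro h a ha
    ext η : 1
    have h1 := congrArg (fun T : L2R H →L[ℂ] L2R H => T (W η)) (h a ha)
    change lift a (W (x (W.symm (W η)))) = W (x (W.symm (lift a (W η)))) at h1
    rw [← hW a (hA a ha), hsymm a (hA a ha), W.symm_apply_apply] at h1
    exact W.injective h1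

end Pool.Agent.Helper23
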