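import Pool.Agent.Helper23.Main

/-!
# Assembly, part 2
-/

open scoped InnerProductSpace Topology ENNReal
open ContinuousLinearMap Filter MeasureTheory

set_option linter.unusedSectionVars false
set_option linter.unusedVariables false

namespace Pool.Agent.Helper23

variable {H : Type*} [NormedAddCommGroup H] [InnerProductSpace ℂ H] [CompleteSpace H]
variable {M N : VonNeumannAlgebra H} {ξ : H} {E : (H →L[ℂ] H) → (H →L[ℂ] H)}

open RBF

/-- the relative commutant as a von Neumann algebra -/
noncomputable def Calg (M N : VonNeumannAlgebra H) (ψ : (H →L[ℂ] H) → ℝ≥0∞) :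
    VonNeumannAlgebra H where
  toStarSubalgebra := StarSubalgebra.centralizer ℂ
    ((M.commutant : Set (H →L[ℂ] H)) ∪ {u | ScalingUnitary N ψ 1 u})
  centralizer_centralizer' := by simp

lemma scaling_star {A : VonNeumannAlgebra H} {ψ : (H →L[ℂ] H) → ℝ≥0∞} {u : H →L[ℂ] H}
    (h : ScalingUnitary A ψ 1 u) : ScalingUnitary A ψ 1 (star u) := by
  refine ⟨star_mem h.1, by rw [star_star]; exact h.2.2.1, by rw [star_star]; exact h.2.1,
    fun x hx hx0 => ?_⟩
  have hpos : 0 ≤ u * x * star u := by
    have := star_left_conjugate_nonneg hx0 (star u)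
    rwa [star_star] at this
  have h1 := h.2.2.2 (u * x * star u) (mul_mem (mul_mem h.1 hx) (star_mem h.1)) hpos
  have h2 : star u * (u * x * star u) * u = x := by
    rw [← mul_assoc, ← mul_assoc, h.2.1, one_mul, mul_assoc, h.2.1, mul_one]
  rw [h2, ENNReal.ofReal_one, one_mul] at h1
  rw [star_star, ENNReal.ofReal_one, one_mul, h1]

lemma mem_Calg {ψ : (H →L[ℂ] H) → ℝ≥0∞} : IsRelCommCentralizer M N ψ (Calg M N ψ) := by
  intro x
  have h1 : x ∈ Calg M N ψ ↔ x ∈ StarSubalgebra.centralizer ℂ
    ((M.commutant : Set (H →L[ℂ] H)) ∪ {u | ScalingUnitary N ψ 1 u}) := Iff.rfl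
  rw [h1, StarSubalgebra.mem_centralizer_iff]
  constructor
  · intro h
    refine ⟨mem_iff_commutes.2 fun a ha => (h a (Or.inl ha)).1, fun u hu => (h u (Or.inr hu)).1⟩
  · rintro ⟨h2, h3⟩ a (ha | ha)
    · exact ⟨mem_iff_commutes.1 h2 a ha, mem_iff_commutes.1 h2 _ (star_mem ha)⟩
    · exact ⟨h3 a ha, h3 _ (scaling_star ha)⟩

namespace AP

variable (S : AP M N E ξ)
include S

/-- the bicentralizer as a star subalgebra -/
noncomputable def Bsub : StarSubalgebra ℂ (H →L[ℂ] H) where
  carrier := {x | x ∈ Bicent M N ξ}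
  mul_mem' := fun hx hy => bicent_mul hx hy
  add_mem' := fun hx hy => bicent_add hx hy
  algebraMap_mem' := fun c => by
    rw [Algebra.algebraMap_eq_smul_one]
    exact bicent_smul c bicent_one
  star_mem' := fun hx => S.bicent_star hx

lemma mem_Bsub {x : H →L[ℂ] H} : x ∈ S.Bsub ↔ x ∈ Bicent M N ξ := Iff.rfl

lemma Bsub_bicomm {T : H →L[ℂ] H}
    (hT : T ∈ Set.centralizer (Set.centralizer (S.Bsub : Set (H →L[ℂ] H)))) : T ∈ Bicent M N ξ := by
  rw [Set.mem_centralizer_iff] at hT
  have hM : ∀ m ∈ M.commutant, m ∈ Set.centralizer (S.Bsub : Set (H →L[ℂ] H)) := by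
    intro m hm
    rw [Set.mem_centralizer_iff]
    intro y hy
    exact (mem_comm_iff.1 hm) y (S.mem_Bsub.1 hy).1
  have hE : ∀ a ∈ eig N ξ 1, a ∈ Set.centralizer (S.Bsub : Set (H →L[ℂ] H)) := by
    intro a ha
    rw [Set.mem_centralizer_iff]
    intro y hy
    exact ((mem_Qalg.1 (S.bicent_memQ (S.mem_Bsub.1 hy))).2 a ha).symm
  have hQ : T ∈ Qalg M N ξ := mem_Qalg.2
    ⟨mem_iff_commutes.2 fun m hm => hT m (hM m hm), fun a ha => hT a (hE a ha)⟩
  refine S.bicent_of_closure hQ ?_
  set V : Submodule ℂ H := ((S.Bsub.toSubmodule).map (evξ ξ)).topologicalClosure with hV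
  have hVc : IsClosed (V : Set H) := Submodule.isClosed_topologicalClosure _
  have : CompleteSpace V := hVc.completeSpace_coe
  have hBV : ∀ y, y ∈ Bicent M N ξ → y ξ ∈ V := fun y hy =>
    Submodule.le_topologicalClosure _ ⟨y, hy, rfl⟩
  have hVcl : (V : Set H) = closure {v : H | ∃ y ∈ Bicent M N ξ, v = y ξ} := by
    have h1 : (V : Set H) = closure (((S.Bsub.toSubmodule).map (evξ ξ) : Submodule ℂ H) : Set H) :=
      Submodule.topologicalClosure_coe _
    rw [h1]
    congr 1
    ext v
    constructor
    · rintro ⟨y, hy, rfl⟩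
      exact ⟨y, hy, rfl⟩
    · rintro ⟨y, hy, rfl⟩
      exact ⟨y, hy, rfl⟩
  have hinv : ∀ y, y ∈ Bicent M N ξ → ∀ v ∈ V, y v ∈ V := by
    intro y hy v hv
    have h2 : v ∈ closure {v : H | ∃ y ∈ Bicent M N ξ, v = y ξ} := by
      rw [← hVcl]; exact hv
    have hsub : {v : H | ∃ y ∈ Bicent M N ξ, v = y ξ} ⊆ y ⁻¹' (V : Set H) := by
      rintro _ ⟨z, hz, rfl⟩
      exact hBV _ (bicent_mul hy hz)
    exact closure_minimal hsub (hVc.preimage y.continuous) h2
  have hP : V.starProjection ∈ Set.centralizer (S.Bsub : Set (H →L[ℂ] H)) := by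
    rw [Set.mem_centralizer_iff]
    intro y hy
    have hy' : y ∈ Bicent M N ξ := hy
    ext v
    change y (V.starProjection v) = V.starProjection (y v)
    have h1 : y (V.starProjection v) ∈ V := hinv y hy' _ (Submodule.starProjection_apply_mem _ _)
    have h2 : V.starProjection (y (v - V.starProjection v)) = 0 := by
      rw [← inner_self_eq_zero (𝕜 := ℂ), Submodule.inner_starProjection_left_eq_right,
        Submodule.starProjection_eq_self_iff.2 (Submodule.starProjection_apply_mem _ _)]
      rw [← inner_star_right y]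
      have h3 : (star y) (V.starProjection (y (v - V.starProjection v))) ∈ V :=
        hinv _ (S.bicent_star hy') _ (Submodule.starProjection_apply_mem _ _)
      rw [inner_sub_left, Submodule.inner_starProjection_left_eq_right,
        Submodule.starProjection_eq_self_iff.2 h3, sub_self]
    rw [map_sub, map_sub, sub_eq_zero, Submodule.starProjection_eq_self_iff.2 h1] at h2
    exact h2.symm
  have h1 := hT _ hP
  have h2 := congrArg (fun T : H →L[ℂ] H => T ξ) h1
  change V.starProjection (T ξ) = T (V.starProjection ξ) at h2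
  have hξ : ξ ∈ V := by
    have := hBV 1 bicent_one
    simpa using this
  rw [Submodule.starProjection_eq_self_iff.2 hξ] at h2
  rw [← hVcl, ← h2]
  exact Submodule.starProjection_apply_mem _ _

/-- the bicentralizer as a von Neumann algebra -/
noncomputable def Balg : VonNeumannAlgebra H where
  toStarSubalgebra := S.Bsub
  centralizer_centralizer' := by
    refine Set.Subset.antisymm (fun T hT => S.Bsub_bicomm hT) ?_
    exact Set.subset_centralizer_centralizer

lemma mem_Balg {x : H →L[ℂ] H} : x ∈ S.Balg ↔ x ∈ Bicent M N ξ := Iff.rfl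

lemma Balg_isBicentralizer : IsBicentralizer M N ξ S.Balg := by
  intro x
  rw [S.mem_Balg]
  rfl

/-- the relative bicentralizer flow -/
theorem isRelativeBicentralizerFlow :
    IsRelativeBicentralizerFlow N ξ S.Balg (bet M N ξ) where
  flow :=
    { automorphism := fun l hl =>
        { maps := fun x hx => S.bicent_bet hx hl
          injective := fun x hx y hy h => by
            have hx := S.InB_of_bicent hx
            have hy := S.InB_of_bicent hy
            have h1 := congrArg (bet M N ξ l⁻¹) h
            rwa [S.bet_bet hx (inv_pos.2 hl) hl, S.bet_bet hy (inv_pos.2 hl) hl,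
              inv_mul_cancel₀ hl.ne', S.bet_id hx, S.bet_id hy] at h1
          surjective := fun y hy => ⟨bet M N ξ l⁻¹ y, S.bicent_bet hy (inv_pos.2 hl), by
            have hy := S.InB_of_bicent hy
            rw [S.bet_bet hy hl (inv_pos.2 hl), mul_inv_cancel₀ hl.ne', S.bet_id hy]⟩
          add := fun x hx y hy => S.bet_add (S.InB_of_bicent hx) (S.InB_of_bicent hy) hl
          mul := fun x hx y hy => S.bet_mul (S.InB_of_bicent hx) (S.InB_of_bicent hy) hl
          smul := fun c x hx => S.bet_smul c (S.InB_of_bicent hx) hl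
          star := fun x hx => S.bet_star (S.InB_of_bicent hx) hl }
      action := fun l m hl hm x hx => (S.bet_bet (S.InB_of_bicent hx) hl hm).symm
      continuous := fun x hx η => S.bet_cont (S.InB_of_bicent hx) η }
  property := fun l hl a ha x hx η =>
    ⟨S.flow_strong hx hl ha η, S.flow_strong_star hx hl ha η⟩
  unique := fun β' hβ' h l hl x hx =>
    S.flow_unique hx hl (hβ' l hl x hx).1 fun a ha => (h l hl a ha x hx ξ).1

end AP

end Pool.Agent.Helper23
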