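import Pool.Agent.Helper23.Pin4

/-!
# Commutation of the bicentralizer with the centralizer of the weight: conclusion
-/

open scoped InnerProductSpace Topology ENNReal
open ContinuousLinearMap Filter MeasureTheory

namespace Pool.Agent.Helper23

variable {H : Type*} [NormedAddCommGroup H] [InnerProductSpace ℂ H] [CompleteSpace H]
variable {M N : VonNeumannAlgebra H} {ξ : H} {E : (H →L[ℂ] H) → (H →L[ℂ] H)}

lemma blk_mulOp {t : ℝ} (A : Finset ℤ) (z : ℤ → H →L[ℂ] H) {m : ℝ → ℂ} (hm : BM m)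
    (F : L2R H) : mulOp H m (blk t A z F) = blk t A z (mulOp H m F) := by
  rw [blk, sum_apply, sum_apply, map_sum]
  refine Finset.sum_congr rfl fun i _ => ?_
  change mulOp H m (mulOp H (ind (win t i)) (lift (z i) F)) =
    mulOp H (ind (win t i)) (lift (z i) (mulOp H m F))
  rw [← mulOp_lift hm, mulOp_mulOp hm (ind_bm (win_meas t i)),
    mulOp_mulOp (ind_bm (win_meas t i)) hm]
  congr 2
  funext s
  ring

lemma two_sq {G : Type*} [SeminormedAddCommGroup G] (a b : G) :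
    ‖a + b‖ ^ 2 ≤ 2 * ‖a‖ ^ 2 + 2 * ‖b‖ ^ 2 := by
  have := norm_add_le a b
  nlinarith [norm_nonneg (a + b), sq_nonneg (‖a‖ - ‖b‖)]

namespace AP

variable (S : AP M N E ξ)
include S

/-- the main estimate -/
lemma est {u : L2R H →L[ℂ] L2R H} (hu : u ∈ GK N ξ) {y : H →L[ℂ] H} (hy : y ∈ Bicent M N ξ)
    {g : L2R ℂ} {ng : ℕ} (hg0 : g ≠ 0) (hg : Pn ng g = g) {κ : ℝ} (hκ : 0 < κ) :
    ‖u (piK M N ξ y (ten g ξ)) - piK M N ξ y (u (ten g ξ))‖ ^ 2 ≤ (4 + 48 * ‖g‖ ^ 2) * κ := by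
  classical
  have hyB := S.InB_of_bicent hy
  have hX0 := S.piK_mem_Rk0 hyB
  set X := piK M N ξ y with hX
  set D := u (X (ten g ξ)) - X (u (ten g ξ)) with hD
  obtain ⟨K, hK, hLB⟩ := S.lb_of_bicent hy hκ
  have hgn : 0 < ‖g‖ ^ 2 := by positivity
  -- the cut-off
  obtain ⟨L0, hL0⟩ := Metric.tendsto_atTop.1 (GKW.cut_tendsto D) (Real.sqrt κ)
    (Real.sqrt_pos.2 hκ)
  set L : ℕ := max L0 ng with hL
  have hcut : ‖D - mulOp H (ind (Set.Ico (-(L : ℝ)) L)) D‖ ^ 2 ≤ κ := by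
    have h1 := hL0 L (le_max_left _ _)
    rw [dist_eq_norm, norm_sub_rev] at h1
    have h2 := pow_le_pow_left₀ (norm_nonneg _) h1.le 2
    rwa [Real.sq_sqrt hκ.le] at h2
  have hgL : Pn L g = g := Pn_mono (le_max_right _ _) hg
  -- the modulus of continuity
  obtain ⟨t₁, ht₁, hmod⟩ := Metric.continuousAt_iff.1
    ((S.bet_exp_cont hyB ξ).continuousAt (x := 0)) (Real.sqrt κ) (Real.sqrt_pos.2 hκ)
  -- the parameters
  obtain ⟨t₀, ht₀, ht₀', hst⟩ := exists_steps (κ := κ) (K := K) (C := 192 * ‖g‖ ^ 2)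
    (L := (L : ℝ)) hκ hK (by positivity) (by positivity)
  obtain ⟨γ₀, hγ, h1, h2⟩ := S.dns 1 (Real.exp (min t₀ t₁)) one_pos
    (Real.one_lt_exp_iff.2 (lt_min ht₀ ht₁))
  have hγ0 : 0 < γ₀ := hγ.1
  set t := Real.log γ₀ with ht
  have ht0 : 0 < t := Real.log_pos h1
  have htm : t < min t₀ t₁ := by
    rw [ht, Real.log_lt_iff_lt_exp hγ0]; exact h2
  have htt₀ : t < t₀ := lt_of_lt_of_le htm (min_le_left _ _)
  have htt₁ : t < t₁ := lt_of_lt_of_le htm (min_le_right _ _)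
  obtain ⟨n, m, hn, hLm, hnK, hCm⟩ := hst t ht0 htt₀
  have hmod' : ∀ r : ℝ, 0 ≤ r → r < Real.log γ₀ →
      ‖bet M N ξ (Real.exp r) y ξ - y ξ‖ ≤ Real.sqrt κ := by
    intro r hr0 hr1
    have h3 : dist r 0 < t₁ := by
      rw [Real.dist_eq, sub_zero, abs_of_nonneg hr0]
      exact hr1.trans htt₁
    have h4 := hmod h3
    rw [dist_eq_norm, Real.exp_zero, S.bet_id hyB] at h4
    exact h4.le
  set A := Finset.Ico (-(m : ℤ)) m with hA
  have hAcard : (A.card : ℝ) = 2 * m := by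
    rw [hA, Int.card_Ico]
    have : ((m : ℤ) - -(m : ℤ)).toNat = 2 * m := by omega
    rw [this]
    push_cast
    ring
  obtain ⟨B, hB⟩ := exists_finite (t := t) A D hκ
  have hmG : γ₀ ^ m ∈ Gam N ξ := S.Gam_pow hγ m
  have hyQ := hyB.1
  obtain ⟨z, hz, hzy, hcore⟩ := S.core hu (S.al_mem hmG hyQ) hκ hK
    (S.lb_al hyQ hκ.le hK hLB hmG) hγ h1 (by linarith) m hg0 B hn hnK
  set zi : ℤ → H →L[ℂ] H := fun i => al M N ξ (γ₀ ^ (i - m)) z with hzi
  have hziQ : ∀ i, zi i ∈ Qalg M N ξ := fun i => S.al_mem (S.Gam_zpow hγ _) hz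
  set e : ℝ := Real.sqrt κ + Real.sqrt (2 * κ) with he
  have he0 : 0 ≤ e := by positivity
  have he2 : e ^ 2 ≤ 6 * κ := by
    have a1 := Real.sq_sqrt hκ.le
    have a2 := Real.sq_sqrt (show 0 ≤ 2 * κ by positivity)
    have a3 : e ^ 2 ≤ 2 * Real.sqrt κ ^ 2 + 2 * Real.sqrt (2 * κ) ^ 2 := by
      rw [he]; nlinarith [sq_nonneg (Real.sqrt κ - Real.sqrt (2 * κ))]
    nlinarith
  have hclose : ∀ i ∈ A, ∀ s ∈ win t i, ‖(bet M N ξ (Real.exp s) y - zi i) ξ‖ ≤ e :=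
    fun i _ s hs => S.bet_sub_al hyB hγ m hz hzy hmod' hs
  set Zt := blk t A zi with hZt
  set V := u (Zt (ten g ξ)) - Zt (u (ten g ξ)) with hV
  set R1 := X (ten g ξ) - Zt (ten g ξ) with hR1
  set R2 := X (u (ten g ξ)) - Zt (u (ten g ξ)) with hR2
  have hDV : D - V = u R1 - R2 := by
    rw [hD, hV, hR1, hR2, map_sub]
    abel
  have hgten : mulOp H (ind (Set.Ico (-(L : ℝ)) L)) (ten g ξ) = ten g ξ := by
    rw [mulOp_ten (ind_bm measurableSet_Ico)]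
    change ten (Pn L g) ξ = _
    rw [hgL]
  have hgt : ‖ten g ξ‖ = ‖g‖ := by rw [norm_ten, S.norm_one, mul_one]
  have hR1n : ‖R1‖ ^ 2 ≤ e ^ 2 * ‖g‖ ^ 2 := by
    have c1 := norm_le_win ht0 (m := m) (L := L) hLm R1
    have c2 : mulOp H (ind (Set.Ico (-(L : ℝ)) L)) R1 = R1 := by
      rw [hR1, map_sub, Rk_mulOp_apply hX0 (ind_bm measurableSet_Ico),
        blk_mulOp A zi (ind_bm measurableSet_Ico), hgten]
    rw [c2, sub_self, norm_zero] at c1
    have c3 := S.err_blk hyB ht0 hziQ he0 hclose (F := ten g ξ) (ten_ae_mem g S.xi_mem_K0)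
    rw [hgt] at c3
    have c4 : (0 : ℝ) ^ 2 = 0 := by norm_num
    rw [c4, add_zero] at c1
    exact c1.trans c3
  have hR2n : ∑ i ∈ A, ‖mulOp H (ind (win t i)) R2‖ ^ 2 ≤ e ^ 2 * ‖g‖ ^ 2 := by
    have c3 := S.err_blk hyB ht0 hziQ he0 hclose (F := u (ten g ξ)) (GK_slice_mem hu.1 g)
    rw [norm_of_isom hu.2.1, hgt] at c3
    exact c3
  have hDVn : ∑ i ∈ A, ‖mulOp H (ind (win t i)) (D - V)‖ ^ 2 ≤ 4 * (e ^ 2 * ‖g‖ ^ 2) := by
    have c1 : ∀ i ∈ A, ‖mulOp H (ind (win t i)) (D - V)‖ ^ 2 ≤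
        2 * ‖mulOp H (ind (win t i)) (u R1)‖ ^ 2 + 2 * ‖mulOp H (ind (win t i)) R2‖ ^ 2 := by
      intro i _
      rw [hDV, map_sub, sub_eq_add_neg]
      have := two_sq (mulOp H (ind (win t i)) (u R1)) (-(mulOp H (ind (win t i)) R2))
      rwa [norm_neg] at this
    refine (Finset.sum_le_sum c1).trans ?_
    rw [Finset.sum_add_distrib, ← Finset.mul_sum, ← Finset.mul_sum]
    have c2 := bessel_win ht0 A (u R1)
    rw [norm_of_isom hu.2.1] at c2
    linarith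
  -- the components of `D`
  have hcomp : ∀ i ∈ A, ∀ k ∈ B, ‖sl (mulOp ℂ (ind (win t i)) (hb k)) D‖ ^ 2 ≤
      2 * ((2 * m) * ∑ j ∈ A, ‖(zi i * sa u t g (i, k, j) - sa u t g (i, k, j) * zi j) ξ‖ ^ 2) +
        2 * ‖sl (hb k) (mulOp H (ind (win t i)) (D - V))‖ ^ 2 := by
    intro i hi k _
    have c1 : sl (mulOp ℂ (ind (win t i)) (hb k)) D =
        sl (mulOp ℂ (ind (win t i)) (hb k)) V +
          sl (hb k) (mulOp H (ind (win t i)) (D - V)) := by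
      have c2 : sl (hb k) (mulOp H (ind (win t i)) (D - V)) =
          sl (mulOp ℂ (ind (win t i)) (hb k)) (D - V) := by
        rw [sl_mulOp' (ind_bm (win_meas t i)), ind_conj]
      rw [c2, ← map_add, add_sub_cancel]
    rw [c1]
    refine (two_sq _ _).trans ?_
    gcongr
    have hgsup : ∀ᵐ s, s ∉ Set.Ico (-(m * t)) (m * t) → g s = 0 := by
      filter_upwards [Pn_ae hgL] with s hs h
      refine hs fun hcon => h ⟨?_, ?_⟩
      · linarith [hcon.1]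
      · linarith [hcon.2]
    have c3 := comp_blk (ξ := ξ) ht0 hA zi u hgsup hi k
    rw [← hZt, ← hV] at c3
    rw [c3]
    have c4 : ‖∑ j ∈ A, (sa u t g (i, k, j) * zi j - zi i * sa u t g (i, k, j)) ξ‖ ≤
        ∑ j ∈ A, ‖(zi i * sa u t g (i, k, j) - sa u t g (i, k, j) * zi j) ξ‖ := by
      refine (norm_sum_le _ _).trans (le_of_eq (Finset.sum_congr rfl fun j _ => ?_))
      rw [← norm_neg, ← neg_apply, neg_sub]
    have c5 := pow_le_pow_left₀ (norm_nonneg _) c4 2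
    refine c5.trans ?_
    have c6 := sq_sum_le_card_mul_sum_sq (s := A)
      (f := fun j => ‖(zi i * sa u t g (i, k, j) - sa u t g (i, k, j) * zi j) ξ‖)
    rw [hAcard] at c6
    exact c6
  have htot : ∑ i ∈ A, ∑ k ∈ B, ‖sl (mulOp ℂ (ind (win t i)) (hb k)) D‖ ^ 2 ≤
      2 * ((2 * m) * (96 * ‖g‖ ^ 2 * κ / n)) + 2 * (4 * (e ^ 2 * ‖g‖ ^ 2)) := by
    have d1 : ∑ i ∈ A, ∑ k ∈ B, ‖sl (mulOp ℂ (ind (win t i)) (hb k)) D‖ ^ 2 ≤
        ∑ i ∈ A, ∑ k ∈ B, (2 * ((2 * m) * ∑ j ∈ A,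
          ‖(zi i * sa u t g (i, k, j) - sa u t g (i, k, j) * zi j) ξ‖ ^ 2) +
        2 * ‖sl (hb k) (mulOp H (ind (win t i)) (D - V))‖ ^ 2) :=
      Finset.sum_le_sum fun i hi => Finset.sum_le_sum fun k hk => hcomp i hi k hk
    refine d1.trans ?_
    simp only [Finset.sum_add_distrib, ← Finset.mul_sum]
    have d2 : ∑ i ∈ A, ∑ k ∈ B, ∑ j ∈ A,
        ‖(zi i * sa u t g (i, k, j) - sa u t g (i, k, j) * zi j) ξ‖ ^ 2 ≤
        96 * ‖g‖ ^ 2 * κ / n := by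
      refine le_trans (le_of_eq ?_) hcore
      rw [Finset.sum_comm (s := A) (t := A)]
      refine Finset.sum_congr rfl fun i _ => ?_
      rw [Finset.sum_comm]
    have d3 : ∑ i ∈ A, ∑ k ∈ B, ‖sl (hb k) (mulOp H (ind (win t i)) (D - V))‖ ^ 2 ≤
        4 * (e ^ 2 * ‖g‖ ^ 2) :=
      (Finset.sum_le_sum fun i _ => bessel_sq B _).trans hDVn
    gcongr
  have hlast : (2 * m) * (96 * ‖g‖ ^ 2 * κ / n) ≤ κ := by
    have hn0 : (0 : ℝ) < n := by exact_mod_cast hn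
    rw [← mul_div_assoc, div_le_iff₀ hn0]
    nlinarith
  have hfin := norm_le_win ht0 (m := m) (L := L) hLm D
  rw [← hA] at hfin
  have he3 : e ^ 2 * ‖g‖ ^ 2 ≤ 6 * κ * ‖g‖ ^ 2 := by gcongr
  nlinarith

/-- Elements of the bicentralizer commute with the centralizer of the weight. -/
theorem comm_of_bicent {u : L2R H →L[ℂ] L2R H} (hu : u ∈ GK N ξ) {y : H →L[ℂ] H}
    (hy : y ∈ Bicent M N ξ) : u * piK M N ξ y = piK M N ξ y * u := by
  have hyB := S.InB_of_bicent hy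
  have huM : u ∈ amp M := amp_mono S.le hu.1
  have hpM := S.piK_mem hyB
  -- vanishing on functions with bounded support
  have h1 : ∀ (n : ℕ) (g : L2R ℂ), Pn n g = g →
      u (piK M N ξ y (ten g ξ)) - piK M N ξ y (u (ten g ξ)) = 0 := by
    intro n g hg
    by_cases hg0 : g = 0
    · subst hg0
      have : ten (0 : L2R ℂ) ξ = 0 := map_zero (axi ξ)
      rw [this, map_zero, map_zero, map_zero, sub_self]
    rw [← norm_eq_zero]
    by_contra hne
    set d := ‖u (piK M N ξ y (ten g ξ)) - piK M N ξ y (u (ten g ξ))‖ with hd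
    have hpos : 0 < d := lt_of_le_of_ne (norm_nonneg _) (Ne.symm hne)
    have h2 := S.est hu hy hg0 hg (κ := d ^ 2 / (2 * (4 + 48 * ‖g‖ ^ 2))) (by positivity)
    rw [← hd] at h2
    have h3 : (4 + 48 * ‖g‖ ^ 2) * (d ^ 2 / (2 * (4 + 48 * ‖g‖ ^ 2))) = d ^ 2 / 2 := by
      field_simp
    rw [h3] at h2
    have : 0 < d ^ 2 := by positivity
    linarith
  refine amp_ext (ξ := ξ) S.dense_comm (mul_mem huM hpM) (mul_mem hpM huM) fun g => ?_
  set T : L2R ℂ →L[ℂ] L2R H := (u * piK M N ξ y - piK M N ξ y * u).comp (axi ξ) with hT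
  have hTg : ∀ g, T g = u (piK M N ξ y (ten g ξ)) - piK M N ξ y (u (ten g ξ)) := fun _ => rfl
  have hT0 : T g = 0 := by
    refine eq_zero_of_ten fun f η => ?_
    have h2 : ⟪ten f η, T g⟫_ℂ = ⟪(adjoint T) (ten f η), g⟫_ℂ := by
      rw [adjoint_inner_left]
    rw [h2]
    have h3 : (adjoint T) (ten f η) = 0 := by
      refine eq_zero_of_Pn (n0 := 0) fun n _ => ?_
      refine ext_inner_right ℂ fun g' => ?_
      rw [inner_Pn, adjoint_inner_left, inner_zero_left, hTg, h1 n _ (Pn_Pn n g'),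
        inner_zero_right]
    rw [h3, inner_zero_left]
  rw [hTg, sub_eq_zero] at hT0
  exact hT0

end AP

end Pool.Agent.Helper23
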