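import Pool.Agent.Helper23.Main3
import Pool.Agent.Helper23.Pin5
import Pool.Agent.Helper43.TTF.G
import Pool.Agent.Helper68.G2b

/-!
# The main theorem without almost periodicity
-/

open scoped InnerProductSpace Topology ENNReal
open ContinuousLinearMap Filter MeasureTheory

namespace Pool.Agent.Helper23

variable {H : Type*} [NormedAddCommGroup H] [InnerProductSpace ℂ H] [CompleteSpace H]
variable {M N : VonNeumannAlgebra H} {ξ : H} {E : (H →L[ℂ] H) → (H →L[ℂ] H)}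

open RBF

theorem Setting.near_GK (S : Setting M N E ξ) (u : ℕ → H →L[ℂ] H) (hu : ACU N ξ u) :
    ∃ U : ℕ → (L2R H →L[ℂ] L2R H), (∀ n, U n ∈ GK N ξ) ∧
      ∀ f : L2R ℂ, Tendsto (fun n => ‖U n (ten f ξ) - ten f (u n ξ)‖) atTop (𝓝 0) := by
  obtain ⟨R, D, Ψ, hΨ, hN⟩ := S.exists_modular
  exact S.exists_near_GK hΨ hN hu.1 hu.2.1 hu.2.2.1 hu.2.2.2

theorem AP.main (S : AP M N E ξ) : ∃ ψ : (H →L[ℂ] H) → ℝ≥0∞, IsDominant N ψ ∧
    ∃ π : (H →L[ℂ] H) → (H →L[ℂ] H), IsStarIso S.Balg (Calg M N ψ) π ∧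
      BoundedStronglyContinuous S.Balg π ∧ IntertwinesFlows N ψ S.Balg (bet M N ξ) π ∧
      ∀ x ∈ S.Balg, E (π x) = ⟪ξ, x ξ⟫_ℂ • (1 : H →L[ℂ] H) :=
  S.main_iso (fun _ hx _ hu => S.comm_of_bicent hu hx)
    (fun _ hx h => S.bicent_of_comm S.near_GK hx h)

end Pool.Agent.Helper23
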