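import Pool.Agent.Helper23.VDefs2

/-!
# Inclusions of finite index
-/

open scoped InnerProductSpace Topology ENNReal
open Filter

namespace Pool.Agent.Helper23.RBF

variable {H : Type*} [NormedAddCommGroup H] [InnerProductSpace ℂ H] [CompleteSpace H]

/-- The expectation `E` of `M` has finite index (Pimsner and Popa): `E(x* x) ≥ c x* x` for all
`x` in `M`, for some `c > 0`. -/
def FiniteIndex (M : VonNeumannAlgebra H) (E : (H →L[ℂ] H) → (H →L[ℂ] H)) : Prop :=
  ∃ c : ℝ, 0 < c ∧ ∀ x ∈ M, ∀ η : H, c * ‖x η‖ ^ 2 ≤ (⟪η, E (star x * x) η⟫_ℂ).re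

end Pool.Agent.Helper23.RBF
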