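import Pool.Agent.Helper23.Avg2

/-!
# Partner pairs
-/

open scoped InnerProductSpace
open ContinuousLinearMap Filter

namespace Pool.Agent.Helper23

variable {H : Type*} [NormedAddCommGroup H] [InnerProductSpace ℂ H] [CompleteSpace H]
variable {M N : VonNeumannAlgebra H} {ξ : H} {E : (H →L[ℂ] H) → (H →L[ℂ] H)}

/-- `C' = σ_{-i}(C)`: `φ(C z) = φ(z C')` for all `z` in `N`. -/
def Partner (N : VonNeumannAlgebra H) (ξ : H) (C C' : H →L[ℂ] H) : Prop :=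
  C ∈ N ∧ C' ∈ N ∧ ∀ z ∈ N, ⟪ξ, C (z ξ)⟫_ℂ = ⟪ξ, z (C' ξ)⟫_ℂ

/-- quantitative almost commutation of `y` with partner pairs -/
def LB (N : VonNeumannAlgebra H) (ξ : H) (y : H →L[ℂ] H) (κ K : ℝ) : Prop :=
  ∀ C C', Partner N ξ C C' →
    ‖(y * C - C * y) ξ‖ ^ 2 ≤ κ * ‖C ξ‖ ^ 2 + K * ‖(C' - C) ξ‖ ^ 2

lemma Partner.zero : Partner N ξ 0 0 := ⟨zero_mem N, zero_mem N, fun _ _ => by simp⟩

lemma Partner.one : Partner N ξ 1 1 := ⟨one_mem N, one_mem N, fun z _ => rfl⟩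

lemma Partner.add {C C' D D' : H →L[ℂ] H} (h : Partner N ξ C C') (k : Partner N ξ D D') :
    Partner N ξ (C + D) (C' + D') :=
  ⟨add_mem h.1 k.1, add_mem h.2.1 k.2.1, fun z hz => by
    rw [add_apply, add_apply, inner_add_right, map_add, inner_add_right, h.2.2 z hz,
      k.2.2 z hz]⟩

lemma Partner.smul {C C' : H →L[ℂ] H} (c : ℂ) (h : Partner N ξ C C') :
    Partner N ξ (c • C) (c • C') :=
  ⟨smul_mem' c h.1, smul_mem' c h.2.1, fun z hz => by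
    rw [smul_apply, smul_apply, inner_smul_right, map_smul, inner_smul_right, h.2.2 z hz]⟩

lemma Partner.sub {C C' D D' : H →L[ℂ] H} (h : Partner N ξ C C') (k : Partner N ξ D D') :
    Partner N ξ (C - D) (C' - D') :=
  ⟨sub_mem h.1 k.1, sub_mem h.2.1 k.2.1, fun z hz => by
    rw [sub_apply, sub_apply, inner_sub_right, map_sub, inner_sub_right, h.2.2 z hz,
      k.2.2 z hz]⟩

lemma Partner.mul {C C' D D' : H →L[ℂ] H} (h : Partner N ξ C C') (k : Partner N ξ D D') :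
    Partner N ξ (C * D) (C' * D') :=
  ⟨mul_mem h.1 k.1, mul_mem h.2.1 k.2.1, fun z hz => by
    have h1 := h.2.2 (D * z) (mul_mem k.1 hz)
    have h2 := k.2.2 (z * C') (mul_mem hz h.2.1)
    change ⟪ξ, C ((D * z) ξ)⟫_ℂ = ⟪ξ, (z * C') (D' ξ)⟫_ℂ
    rw [h1, ← h2]
    rfl⟩

/-- the partner of an eigenoperator -/
lemma Partner.of_eig {γ : ℝ} (hγ : γ ≠ 0) {a : H →L[ℂ] H} (ha : a ∈ eig N ξ γ) :
    Partner N ξ a (((γ⁻¹ : ℝ) : ℂ) • a) :=
  ⟨ha.1, smul_mem' _ ha.1, fun z hz => by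
    rw [smul_apply, map_smul, inner_smul_right, ha.2 z hz, ← mul_assoc, ← Complex.ofReal_mul,
      inv_mul_cancel₀ hγ, Complex.ofReal_one, one_mul]⟩

lemma Partner.of_cent {u : H →L[ℂ] H} (hu : u ∈ eig N ξ 1) : Partner N ξ u u := by
  have := Partner.of_eig one_ne_zero hu
  simpa using this

/-- conjugation by a unitary of the centralizer -/
lemma Partner.conj {C C' u : H →L[ℂ] H} (h : Partner N ξ C C') (hu : u ∈ Ucent N ξ) :
    Partner N ξ (u * C * star u) (u * C' * star u) :=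
  ((Partner.of_cent hu.1).mul h).mul (Partner.of_cent (Ucent_star hu).1)

lemma Partner.defect (hξ : ‖ξ‖ = 1) {C C' : H →L[ℂ] H} (h : Partner N ξ C C') :
    Defect N ξ 1 ‖(C' - C) ξ‖ C := by
  intro z hz
  rw [Complex.ofReal_one, one_mul, h.2.2 z hz, ← inner_sub_right, ← map_sub]
  have e1 : ⟪ξ, z (C ξ - C' ξ)⟫_ℂ = ⟪(star z) ξ, C ξ - C' ξ⟫_ℂ := by
    rw [inner_star_left]
  rw [e1]
  refine (norm_inner_le_norm _ _).trans ?_
  have e2 : ‖C ξ - C' ξ‖ = ‖(C' - C) ξ‖ := by rw [norm_sub_rev]; rfl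
  rw [e2, mul_comm]
  have e3 : ‖(star z) ξ‖ ≤ ‖z‖ := by
    have := (star z).le_opNorm ξ
    rwa [norm_star, hξ, mul_one] at this
  gcongr

/-- `φ(C C*) = ⟨C ξ, C' ξ⟩` -/
lemma Partner.inner_self {C C' : H →L[ℂ] H} (h : Partner N ξ C C') :
    ⟪C ξ, C' ξ⟫_ℂ = ((‖(star C) ξ‖ ^ 2 : ℝ) : ℂ) := by
  have h1 := h.2.2 (star C) (star_mem h.1)
  rw [norm_sq_apply, star_star]
  rw [h1, inner_star_right]

end Pool.Agent.Helper23
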