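import Pool.Agent.Helper23.Flip

/-!
# The relative commutant of the centralizer of the weight: first properties
-/

open scoped InnerProductSpace Topology ENNReal
open ContinuousLinearMap Filter MeasureTheory

set_option linter.unusedSectionVars false
set_option linter.unusedVariables false

namespace Pool.Agent.Helper23

variable {H : Type*} [NormedAddCommGroup H] [InnerProductSpace ℂ H] [CompleteSpace H]
variable {M N : VonNeumannAlgebra H} {ξ : H} {E : (H →L[ℂ] H) → (H →L[ℂ] H)}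

/-- The relative commutant of the centralizer of the weight in the amplification. -/
def Rk (M N : VonNeumannAlgebra H) (ξ : H) : Set (L2R H →L[ℂ] L2R H) :=
  {X | X ∈ amp M ∧ ∀ u ∈ GK N ξ, u * X = X * u}

/-- explicit unitaries of the centralizer of the weight -/
def G0 (N : VonNeumannAlgebra H) (ξ : H) : Set (L2R H →L[ℂ] L2R H) :=
  {u | (∃ m : ℝ → ℂ, BM m ∧ (∀ s, ‖m s‖ = 1) ∧ u = mulOp H m) ∨
    (∃ a ∈ Ucent N ξ, u = lift a) ∨
    ∃ (γ : ℝ) (v : H →L[ℂ] H) (I : Set ℝ), 0 < γ ∧ v ∈ eig N ξ γ ∧ star v * v = 1 ∧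
      MeasurableSet I ∧ (∀ s ∈ I, s - Real.log γ ∉ I) ∧ u = flip v (Real.log γ) I}

/-- The relative commutant of the explicit unitaries. -/
def Rk0 (M N : VonNeumannAlgebra H) (ξ : H) : Set (L2R H →L[ℂ] L2R H) :=
  {X | X ∈ amp M ∧ ∀ u ∈ G0 N ξ, u * X = X * u}

lemma Setting.G0_sub (S : Setting M N E ξ) : G0 N ξ ⊆ GK N ξ := by
  rintro u (⟨m, hm, hm1, rfl⟩ | ⟨a, ha, rfl⟩ | ⟨γ, v, I, hγ, hv, hv1, hI, hd, rfl⟩)
  · exact mulOp_mem_GK N hm hm1
  · exact S.lift_mem_GK ha
  · exact S.flip_mem hγ hv hv1 hI hd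

lemma Setting.Rk_sub_Rk0 (S : Setting M N E ξ) {X : L2R H →L[ℂ] L2R H} (hX : X ∈ Rk M N ξ) :
    X ∈ Rk0 M N ξ := ⟨hX.1, fun u hu => hX.2 u (S.G0_sub hu)⟩

lemma flip_star (v : H →L[ℂ] H) (t : ℝ) {I : Set ℝ} (hI : MeasurableSet I) :
    star (flip v t I) = flip v t I := by
  rw [flip, star_add, star_add, star_star, star_sub, star_sub, star_one, mulOp_ind_star hI,
    star_mul (VV H v t * mulOp H (ind I)) (star (VV H v t * mulOp H (ind I))), star_star]
  abel

lemma G0_star {u : L2R H →L[ℂ] L2R H} (hu : u ∈ G0 N ξ) : star u ∈ G0 N ξ := by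
  rcases hu with ⟨m, hm, hm1, rfl⟩ | ⟨a, ha, rfl⟩ | ⟨γ, v, I, hγ, hv, hv1, hI, hd, rfl⟩
  · exact Or.inl ⟨_, hm.conj, fun s => by rw [RCLike.norm_conj]; exact hm1 s, mulOp_star hm⟩
  · exact Or.inr (Or.inl ⟨star a, Ucent_star ha, (lift_star a).symm⟩)
  · exact Or.inr (Or.inr ⟨γ, v, I, hγ, hv, hv1, hI, hd, flip_star v _ hI⟩)

/-- commutation with unimodular multiplications gives commutation with all multiplications -/
lemma comm_mulOp {X : L2R H →L[ℂ] L2R H}
    (h : ∀ m : ℝ → ℂ, BM m → (∀ s, ‖m s‖ = 1) → mulOp H m * X = X * mulOp H m)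
    {m : ℝ → ℂ} (hm : BM m) : mulOp H m * X = X * mulOp H m := by
  obtain ⟨hmeas, C, hC0, hC⟩ := hm
  -- real functions of modulus at most one
  have key : ∀ r : ℝ → ℝ, Measurable r → (∀ s, |r s| ≤ 1) → ∃ u : ℝ → ℂ, BM u ∧
      (∀ s, ‖u s‖ = 1) ∧ ∀ s, u s + (starRingEnd ℂ) (u s) = 2 * r s := by
    intro r hr hr1
    have h1 : ∀ s, ‖(r s : ℂ) + Complex.I * (Real.sqrt (1 - r s ^ 2) : ℝ)‖ = 1 := by
      intro s
      have h2 : r s ^ 2 ≤ 1 := by
        have := hr1 s
        rw [← sq_abs]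
        nlinarith [abs_nonneg (r s)]
      rw [mul_comm, Complex.norm_add_mul_I, Real.sq_sqrt (by linarith)]
      simp
    refine ⟨fun s => (r s : ℂ) + Complex.I * (Real.sqrt (1 - r s ^ 2) : ℝ), ?_, h1, ?_⟩
    · refine ⟨?_, 1, zero_le_one, fun s => (h1 s).le⟩
      have h3 : Measurable fun s => (Real.sqrt (1 - r s ^ 2)) :=
        Real.continuous_sqrt.measurable.comp (measurable_const.sub (hr.pow_const 2))
      exact (Complex.measurable_ofReal.comp hr).add
        ((Complex.measurable_ofReal.comp h3).const_mul _)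
    · intro s
      simp only [map_add, map_mul, Complex.conj_ofReal, Complex.conj_I]
      ring
  have hC1 : 0 < C + 1 := by linarith
  obtain ⟨u, hu, hu1, hur⟩ := key (fun s => (m s).re / (C + 1))
    ((Complex.measurable_re.comp hmeas).div_const _) (fun s => by
      rw [abs_div, abs_of_pos hC1, div_le_one hC1]
      exact (Complex.abs_re_le_norm _).trans ((hC s).trans (by linarith)))
  obtain ⟨w, hw, hw1, hwr⟩ := key (fun s => (m s).im / (C + 1))
    ((Complex.measurable_im.comp hmeas).div_const _) (fun s => by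
      rw [abs_div, abs_of_pos hC1, div_le_one hC1]
      exact (Complex.abs_im_le_norm _).trans ((hC s).trans (by linarith)))
  have hm' : m = fun s => ((C + 1) / 2 : ℂ) * (u s + (starRingEnd ℂ) (u s)) +
      ((C + 1) / 2 * Complex.I : ℂ) * (w s + (starRingEnd ℂ) (w s)) := by
    funext s
    rw [hur, hwr]
    have hC2 : ((C : ℂ) + 1) ≠ 0 := by
      have : ((C + 1 : ℝ) : ℂ) ≠ 0 := by exact_mod_cast hC1.ne'
      simpa using this
    push_cast
    field_simp
    rw [mul_comm]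
    exact (Complex.re_add_im (m s)).symm
  have hop : mulOp H m = ((C + 1) / 2 : ℂ) • (mulOp H u + mulOp H (fun s => (starRingEnd ℂ) (u s))) +
      ((C + 1) / 2 * Complex.I : ℂ) •
        (mulOp H w + mulOp H (fun s => (starRingEnd ℂ) (w s))) := by
    ext F : 1
    rw [hm', mulOp_add ((hu.add hu.conj).constMul _) ((hw.add hw.conj).constMul _),
      mulOp_constMul _ (hu.add hu.conj), mulOp_constMul _ (hw.add hw.conj),
      mulOp_add hu hu.conj, mulOp_add hw hw.conj]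
    rfl
  have c1 := h u hu hu1
  have c2 := h _ hu.conj (fun s => by rw [RCLike.norm_conj]; exact hu1 s)
  have c3 := h w hw hw1
  have c4 := h _ hw.conj (fun s => by rw [RCLike.norm_conj]; exact hw1 s)
  rw [hop]
  simp only [add_mul, mul_add, smul_mul_assoc, mul_smul_comm, c1, c2, c3, c4]

lemma Rk_mulOp {X : L2R H →L[ℂ] L2R H} (hX : X ∈ Rk0 M N ξ) {m : ℝ → ℂ} (hm : BM m) :
    mulOp H m * X = X * mulOp H m :=
  comm_mulOp (fun m h h1 => hX.2 _ (Or.inl ⟨m, h, h1, rfl⟩)) hm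

lemma Rk_mulOp_apply {X : L2R H →L[ℂ] L2R H} (hX : X ∈ Rk0 M N ξ) {m : ℝ → ℂ} (hm : BM m)
    (F : L2R H) : mulOp H m (X F) = X (mulOp H m F) :=
  congrArg (fun T : L2R H →L[ℂ] L2R H => T F) (Rk_mulOp hX hm)

lemma sl_comp_lift (f : L2R ℂ) (a : H →L[ℂ] H) (F : L2R H) : sl f (lift a F) = a (sl f F) :=
  sl_lift f a F

lemma sl_tr (f : L2R ℂ) (t : ℝ) (F : L2R H) : sl f (tr H t F) = sl (tr ℂ (-t) f) F := by
  refine ext_inner_left ℂ fun ζ => ?_
  rw [inner_sl, inner_sl, ← tr_ten, tr_adj, neg_neg]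

/-- a function vanishing on all the intervals of a partition is zero -/
lemma eq_zero_of_partition {t : ℝ} (ht : 0 < t) {F : L2R H}
    (h : ∀ k : ℤ, mulOp H (ind (Set.Ico (k * t) ((k + 1) * t))) F = 0) : F = 0 := by
  ext1
  have h1 : ∀ᵐ s, ∀ k : ℤ, (mulOp H (ind (Set.Ico (k * t) ((k + 1) * t))) F) s =
      ind (Set.Ico (k * t) ((k + 1) * t)) s • F s :=
    ae_all_iff.2 fun k => mulOp_coe (ind_bm measurableSet_Ico) F
  filter_upwards [h1, Lp.coeFn_zero H 2 volume] with s hs h0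
  rw [h0]
  have hk := hs ⌊s / t⌋
  rw [h, ind_of_mem, one_smul, h0] at hk
  · exact hk.symm
  · constructor
    · have := Int.floor_le (s / t)
      rwa [le_div_iff₀ ht] at this
    · have := Int.lt_floor_add_one (s / t)
      rwa [div_lt_iff₀ ht] at this

namespace Setting

variable (S : Setting M N E ξ)
include S

lemma Rk_lift {X : L2R H →L[ℂ] L2R H} (hX : X ∈ Rk0 M N ξ) {a : H →L[ℂ] H}
    (ha : a ∈ eig N ξ 1) : lift a * X = X * lift a := by
  obtain ⟨u, k, hk, -⟩ := CStarAlgebra.exists_sum_four_unitary (⟨a, ha⟩ : cent N ξ)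
  have ha' : a = ∑ i, k i • ((u i : cent N ξ) : H →L[ℂ] H) := by
    have := congrArg (fun z : cent N ξ => (z : H →L[ℂ] H)) hk
    simpa using this
  have hl : lift a = ∑ i, k i • lift ((u i : cent N ξ) : H →L[ℂ] H) := by
    rw [ha', Fin.sum_univ_four, Fin.sum_univ_four, lift_add, lift_add, lift_add, lift_smul,
      lift_smul, lift_smul, lift_smul]
  rw [hl, Finset.sum_mul, Finset.mul_sum]
  refine Finset.sum_congr rfl fun i _ => ?_
  rw [smul_mul_assoc, mul_smul_comm, hX.2]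
  refine Or.inr (Or.inl ⟨_, ⟨(u i : cent N ξ).2, ?_, ?_⟩, rfl⟩)
  · have := Unitary.star_mul_self_of_mem (u i).2
    exact congrArg (fun z : cent N ξ => (z : H →L[ℂ] H)) this
  · have := Unitary.mul_star_self_of_mem (u i).2
    exact congrArg (fun z : cent N ξ => (z : H →L[ℂ] H)) this

lemma Rk_slX_memQ {X : L2R H →L[ℂ] L2R H} (hX : X ∈ Rk0 M N ξ) (f g : L2R ℂ) :
    slX X f g ∈ Qalg M N ξ := by
  rw [mem_Qalg]
  refine ⟨slX_mem hX.1 f g, fun a ha => ?_⟩
  ext η
  change a (sl f (X (ten g η))) = sl f (X (ten g (a η)))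
  have h1 : X (ten g (a η)) = lift a (X (ten g η)) := by
    rw [← lift_ten]
    exact (congrArg (fun T : L2R H →L[ℂ] L2R H => T (ten g η)) (S.Rk_lift hX ha)).symm
  rw [h1, sl_lift]

/-- commutation with the amplified isometries -/
lemma comm_VV0 {X : L2R H →L[ℂ] L2R H} (hX : ∀ u ∈ G0 N ξ, u * X = X * u) {γ : ℝ} (hγ : 1 < γ)
    {v : H →L[ℂ] H} (hv : v ∈ eig N ξ γ) (hv1 : star v * v = 1) :
    VV H v (Real.log γ) * X = X * VV H v (Real.log γ) := by
  have hXm : ∀ {m : ℝ → ℂ}, BM m → mulOp H m * X = X * mulOp H m := fun hm =>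
    comm_mulOp (fun m h h1 => hX _ (Or.inl ⟨m, h, h1, rfl⟩)) hm
  set t := Real.log γ with ht
  have ht0 : 0 < t := Real.log_pos hγ
  have hγ0 : 0 < γ := by linarith
  -- on each interval
  have hI : ∀ k : ℤ, VV H v t * X * mulOp H (ind (Set.Ico (k * t) ((k + 1) * t))) =
      X * VV H v t * mulOp H (ind (Set.Ico (k * t) ((k + 1) * t))) := by
    intro k
    set I := Set.Ico (k * t) ((k + 1) * t) with hIdef
    have hI : MeasurableSet I := measurableSet_Ico
    have hI' : MeasurableSet ((fun s => s - t) ⁻¹' I) := (measurable_id.sub_const t) hI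
    have hdis : ∀ s ∈ I, s - t ∉ I := by
      rintro s ⟨h1, h2⟩ ⟨h3, h4⟩
      nlinarith
    have hdis' : ∀ s, s ∈ (fun s => s - t) ⁻¹' I → s ∉ I := fun s hs hs' => hdis s hs' hs
    set p := mulOp H (ind I) with hp
    set p' := mulOp H (ind ((fun s => s - t) ⁻¹' I)) with hp'
    set V := VV H v t with hV
    have hVp : V * p = p' * V := by
      rw [hV, VV, mul_assoc, hp, tr_mulOp_ind hI, ← mul_assoc, lift_mulOp (ind_bm hI'), mul_assoc]
    have hpp : p * p = p := mulOp_ind_sq hI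
    have hps : star p = p := mulOp_ind_star hI
    have hpp' : p' * p' = p' := mulOp_ind_sq hI'
    have hp'p : p' * p = 0 := mulOp_ind_mul hI' hI hdis'
    have hflip := hX _ (Or.inr (Or.inr ⟨γ, v, I, hγ0, hv, hv1, hI, hdis, rfl⟩))
    rw [← ht] at hflip
    -- p' flip p = V p
    have hcut : p' * flip v t I * p = V * p := by
      rw [flip]
      change p' * (V * p + star (V * p) + (1 - p - V * p * star (V * p))) * p = V * p
      have e1 : star (V * p) * p = 0 := by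
        have : p * (V * p) = 0 := by
          rw [hVp, ← mul_assoc]
          have : p * p' = 0 := mulOp_ind_mul hI hI' (fun s hs hs' => hdis s hs hs')
          rw [this, zero_mul]
        have := congrArg star this
        rwa [star_mul, hps, star_zero] at this
      have e2 : (1 - p - V * p * star (V * p)) * p = 0 := by
        rw [sub_mul, sub_mul, one_mul, hpp, mul_assoc (V * p), e1, mul_zero, sub_self, sub_zero]
      rw [mul_assoc, add_mul, add_mul, e1, e2, add_zero, add_zero, mul_assoc V, hpp, hVp,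
        ← mul_assoc, hpp']
    have c1 : p * X = X * p := hXm (ind_bm hI)
    have c2 : p' * X = X * p' := hXm (ind_bm hI')
    calc V * X * p = V * p * X := by rw [mul_assoc, mul_assoc, c1]
      _ = p' * flip v t I * (p * X) := by rw [← hcut, mul_assoc]
      _ = p' * (flip v t I * X) * p := by rw [c1]; simp only [mul_assoc]
      _ = (p' * X) * flip v t I * p := by rw [hflip]; simp only [mul_assoc]
      _ = X * (p' * flip v t I * p) := by rw [c2]; simp only [mul_assoc]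
      _ = X * V * p := by rw [hcut, mul_assoc]
  -- conclude
  have hstar : star (VV H v t * X - X * VV H v t) = 0 := by
    ext F : 1
    rw [zero_apply]
    refine eq_zero_of_partition ht0 fun k => ?_
    have h1 : (VV H v t * X - X * VV H v t) *
        mulOp H (ind (Set.Ico (k * t) ((k + 1) * t))) = 0 := by
      rw [sub_mul, hI k, sub_self]
    have h2 := congrArg star h1
    rw [star_mul, mulOp_ind_star measurableSet_Ico, star_zero] at h2
    exact congrArg (fun T : L2R H →L[ℂ] L2R H => T F) h2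
  have h3 := congrArg star hstar
  rw [star_star, star_zero, sub_eq_zero] at h3
  exact h3

lemma comm_VV {X : L2R H →L[ℂ] L2R H} (hX : ∀ u ∈ GK N ξ, u * X = X * u) {γ : ℝ} (hγ : 1 < γ)
    {v : H →L[ℂ] H} (hv : v ∈ eig N ξ γ) (hv1 : star v * v = 1) :
    VV H v (Real.log γ) * X = X * VV H v (Real.log γ) :=
  S.comm_VV0 (fun u hu => hX u (S.G0_sub hu)) hγ hv hv1

lemma Rk_VV {X : L2R H →L[ℂ] L2R H} (hX : X ∈ Rk0 M N ξ) {γ : ℝ} (hγ : 1 < γ) {v : H →L[ℂ] H}
    (hv : v ∈ eig N ξ γ) (hv1 : star v * v = 1) :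
    VV H v (Real.log γ) * X = X * VV H v (Real.log γ) := S.comm_VV0 hX.2 hγ hv hv1

end Setting

namespace AP

variable (S : AP M N E ξ)
include S

lemma Rk_slX_al {X : L2R H →L[ℂ] L2R H} (hX : X ∈ Rk0 M N ξ) {γ : ℝ} (hγ : γ ∈ Gam N ξ)
    (f g : L2R ℂ) : al M N ξ γ (slX X f g) =
      slX X (tr ℂ (Real.log γ) f) (tr ℂ (Real.log γ) g) := by
  -- the case of eigenvalues greater than one
  have key : ∀ γ ∈ Gam N ξ, 1 < γ → ∀ f g : L2R ℂ, al M N ξ γ (slX X f g) =
      slX X (tr ℂ (Real.log γ) f) (tr ℂ (Real.log γ) g) := by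
    intro γ hγ h1 f g
    obtain ⟨v, hv, -, -, hv1, -⟩ := S.exists_contr hγ
    have hv1 := hv1 h1.le
    have hV := S.Rk_VV hX h1 hv hv1
    refine S.al_unique hγ (S.Rk_slX_memQ hX f g) fun a ha => ?_
    set t := Real.log γ with ht
    have hrel : v * slX X f g = slX X (tr ℂ t f) (tr ℂ t g) * v := by
      ext η
      change v (sl f (X (ten g η))) = sl (tr ℂ t f) (X (ten (tr ℂ t g) (v η)))
      have e1 : ten (tr ℂ t g) (v η) = VV H v t (ten g η) := by
        change _ = lift v (tr H t (ten g η))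
        rw [tr_ten, lift_ten]
      have e2 : X (VV H v t (ten g η)) = VV H v t (X (ten g η)) :=
        (congrArg (fun T : L2R H →L[ℂ] L2R H => T (ten g η)) hV).symm
      rw [e1, e2]
      change _ = sl (tr ℂ t f) (lift v (tr H t (X (ten g η))))
      rw [sl_lift, sl_tr, tr_neg_tr]
    have hav : a * star v ∈ eig N ξ 1 := mul_star_mem_eig_one hγ.1.ne' ha hv
    have hQ := (mem_Qalg.1 (S.Rk_slX_memQ hX (tr ℂ t f) (tr ℂ t g))).2 _ hav
    calc a * slX X f g = a * star v * (v * slX X f g) := by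
          rw [mul_assoc, ← mul_assoc (star v), hv1, one_mul]
      _ = slX X (tr ℂ t f) (tr ℂ t g) * (a * star v) * v := by
          rw [hrel, ← mul_assoc, hQ]
      _ = slX X (tr ℂ t f) (tr ℂ t g) * a := by
          rw [mul_assoc, mul_assoc a, hv1, mul_one]
  rcases lt_trichotomy γ 1 with h | h | h
  · have h1 := key γ⁻¹ (Gam_inv hγ) ((one_lt_inv₀ hγ.1).2 h) (tr ℂ (Real.log γ) f)
      (tr ℂ (Real.log γ) g)
    rw [Real.log_inv, tr_neg_tr, tr_neg_tr] at h1
    rw [← h1, S.al_al hγ (Gam_inv hγ) (S.Rk_slX_memQ hX _ _), mul_inv_cancel₀ hγ.1.ne',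
      S.al_id (S.Rk_slX_memQ hX _ _)]
  · subst h
    rw [S.al_id (S.Rk_slX_memQ hX _ _), Real.log_one, tr_zero]
    rfl
  · exact key γ hγ h f g

lemma slX_tr_continuous (X : L2R H →L[ℂ] L2R H) (f g : L2R ℂ) (η : H) :
    Continuous fun t : ℝ => slX X (tr ℂ t f) (tr ℂ t g) η := by
  rw [continuous_iff_continuousAt]
  intro t
  rw [ContinuousAt, tendsto_iff_norm_sub_tendsto_zero]
  have h1 : Tendsto (fun u : ℝ => ‖X‖ * (‖tr ℂ u f - tr ℂ t f‖ * ‖g‖ +
      ‖f‖ * ‖tr ℂ u g - tr ℂ t g‖) * ‖η‖) (𝓝 t) (𝓝 0) := by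
    have e1 : Tendsto (fun u : ℝ => ‖tr ℂ u f - tr ℂ t f‖) (𝓝 t) (𝓝 0) :=
      tendsto_iff_norm_sub_tendsto_zero.1 ((tr_continuous f).tendsto t)
    have e2 : Tendsto (fun u : ℝ => ‖tr ℂ u g - tr ℂ t g‖) (𝓝 t) (𝓝 0) :=
      tendsto_iff_norm_sub_tendsto_zero.1 ((tr_continuous g).tendsto t)
    have e3 := (((e1.mul_const ‖g‖).add (e2.const_mul ‖f‖)).const_mul ‖X‖).mul_const ‖η‖
    simpa using e3
  refine squeeze_zero (fun _ => norm_nonneg _) (fun u => ?_) h1
  have := slX_norm_sub X (tr ℂ u f) (tr ℂ u g) (tr ℂ t f) (tr ℂ t g) η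
  rwa [tr_norm, tr_norm] at this

lemma Rk_slX_InB {X : L2R H →L[ℂ] L2R H} (hX : X ∈ Rk0 M N ξ) (f g : L2R ℂ) :
    InB M N ξ (slX X f g) := by
  refine ⟨S.Rk_slX_memQ hX f g, ?_⟩
  have h1 : Tendsto (fun γ : ℝ => slX X (tr ℂ (Real.log γ) f) (tr ℂ (Real.log γ) g) ξ)
      (𝓝 1) (𝓝 (slX X (tr ℂ 0 f) (tr ℂ 0 g) ξ)) := by
    have h2 : Tendsto Real.log (𝓝 1) (𝓝 0) := by
      have := (Real.continuousAt_log (one_ne_zero)).tendsto
      rwa [Real.log_one] at this
    exact ((S.slX_tr_continuous X f g ξ).tendsto 0).comp h2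
  rw [tr_zero] at h1
  refine (h1.mono_left nhdsWithin_le_nhds).congr' ?_
  filter_upwards [self_mem_nhdsWithin] with γ hγ
  rw [S.Rk_slX_al hX hγ]

/-- the flow on slices -/
lemma Rk_slX_bet {X : L2R H →L[ℂ] L2R H} (hX : X ∈ Rk0 M N ξ) (f g : L2R ℂ) {l : ℝ}
    (hl : 0 < l) : bet M N ξ l (slX X f g) =
      slX X (tr ℂ (Real.log l) f) (tr ℂ (Real.log l) g) := by
  refine S.bet_unique (S.Rk_slX_InB hX f g) hl (S.Rk_slX_memQ hX _ _) ?_
  have h1 : Tendsto (fun γ : ℝ => slX X (tr ℂ (Real.log γ) f) (tr ℂ (Real.log γ) g) ξ)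
      (𝓝 l) (𝓝 (slX X (tr ℂ (Real.log l) f) (tr ℂ (Real.log l) g) ξ)) :=
    ((S.slX_tr_continuous X f g ξ).tendsto (Real.log l)).comp
      (Real.continuousAt_log hl.ne').tendsto
  refine (h1.mono_left nhdsWithin_le_nhds).congr' ?_
  filter_upwards [self_mem_nhdsWithin] with γ hγ
  rw [S.Rk_slX_al hX hγ]

end AP

end Pool.Agent.Helper23
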