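import Pool.Agent.Helper23.Pol2
import Pool.Agent.Helper23.Rk

/-!
# The embedding of the bicentralizer into the relative commutant
-/

open scoped InnerProductSpace Topology ENNReal
open ContinuousLinearMap Filter MeasureTheory

set_option linter.unusedSectionVars false
set_option linter.unusedVariables false

namespace Pool.Agent.Helper23

variable {H : Type*} [NormedAddCommGroup H] [InnerProductSpace ℂ H] [CompleteSpace H]
variable {M N : VonNeumannAlgebra H} {ξ : H} {E : (H →L[ℂ] H) → (H →L[ℂ] H)}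

lemma ae_ortho (T : Set H) {D : L2R H} (h : ∀ f : L2R ℂ, ∀ v ∈ T, ⟪ten f v, D⟫_ℂ = 0) :
    ∀ᵐ s, ∀ v ∈ T, ⟪v, D s⟫_ℂ = 0 := by
  set V : Submodule ℂ H := (Submodule.span ℂ T).topologicalClosure with hV
  have : CompleteSpace V := (Submodule.isClosed_topologicalClosure _).completeSpace_coe
  have hTV : ∀ v ∈ T, v ∈ V := fun v hv =>
    Submodule.le_topologicalClosure _ (Submodule.subset_span hv)
  set P : H →L[ℂ] H := V.starProjection with hP
  have h1 : ∀ f : L2R ℂ, ∀ v ∈ V, ⟪ten f v, D⟫_ℂ = 0 := by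
    intro f v hv
    have hcl : IsClosed {v : H | ⟪iot H f v, D⟫_ℂ = 0} := isClosed_eq (by fun_prop) (by fun_prop)
    have hsub : (Submodule.span ℂ T : Set H) ⊆ {v : H | ⟪iot H f v, D⟫_ℂ = 0} := by
      intro v hv
      refine Submodule.span_induction (p := fun v _ => ⟪iot H f v, D⟫_ℂ = 0) ?_ ?_ ?_ ?_ hv
      · intro v hv; exact h f v hv
      · simp
      · intro x y _ _ hx hy
        rw [map_add, inner_add_left, hx, hy, add_zero]
      · intro c x _ hx
        rw [map_smul, inner_smul_left, hx, mul_zero]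
    exact closure_minimal hsub hcl hv
  have h2 : lift P D = 0 := by
    refine eq_zero_of_ten fun f η => ?_
    rw [← inner_sl, sl_lift, ← Submodule.inner_starProjection_left_eq_right, inner_sl]
    exact h1 f _ (Submodule.starProjection_apply_mem _ _)
  have h3 : (lift P D : ℝ → H) =ᵐ[volume] fun s => P (D s) := lift_coe P D
  rw [h2] at h3
  filter_upwards [h3, Lp.coeFn_zero H 2 volume] with s e1 e2 v hv
  rw [e2] at e1
  have e3 : P v = v := Submodule.starProjection_eq_self_iff.2 (hTV v hv)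
  rw [← e3, Submodule.inner_starProjection_left_eq_right, ← hP, ← e1]
  exact inner_zero_right _

lemma ae_mem (V : Submodule ℂ H) [CompleteSpace V] {G : L2R H} (h : ∀ f : L2R ℂ, sl f G ∈ V) :
    ∀ᵐ s, G s ∈ V := by
  set P : H →L[ℂ] H := V.starProjection with hP
  have h2 : lift P G = G := by
    rw [← sub_eq_zero]
    refine eq_zero_of_ten fun f η => ?_
    rw [inner_sub_right, ← inner_sl, ← inner_sl, sl_lift, ← inner_sub_right]
    have : P (sl f G) = sl f G := Submodule.starProjection_eq_self_iff.2 (h f)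
    rw [this, sub_self, inner_zero_right]
  have h3 : (lift P G : ℝ → H) =ᵐ[volume] fun s => P (G s) := lift_coe P G
  rw [h2] at h3
  filter_upwards [h3] with s e1
  rw [e1]
  exact Submodule.starProjection_apply_mem _ _

lemma ten_ae_mem {V : Submodule ℂ H} (f : L2R ℂ) {η : H} (hη : η ∈ V) :
    ∀ᵐ s, ten f η s ∈ V := by
  filter_upwards [ten_coe f η] with s hs
  rw [hs]
  exact V.smul_mem _ hη

/-- the embedding of the bicentralizer -/
noncomputable def piK (M N : VonNeumannAlgebra H) (ξ : H) (x : H →L[ℂ] H) :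
    L2R H →L[ℂ] L2R H := dec (fun s => bet M N ξ (Real.exp s) x)

namespace AP

variable (S : AP M N E ξ)
include S

lemma bet_exp_cont {x : H →L[ℂ] H} (hx : InB M N ξ x) (v : H) :
    Continuous fun s : ℝ => bet M N ξ (Real.exp s) x v := by
  rw [← continuousOn_univ]
  exact (S.bet_cont hx v).comp (Real.continuous_exp.continuousOn) fun s _ => Real.exp_pos s

lemma piK_dec {x : H →L[ℂ] H} (hx : InB M N ξ x) :
    Dec (fun s : ℝ => bet M N ξ (Real.exp s) x) :=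
  Dec.of_cont (C := 2 * ‖x‖) (by positivity) (fun s => S.bet_opNorm hx (Real.exp_pos s))
    (S.bet_exp_cont hx)

lemma piK_coe {x : H →L[ℂ] H} (hx : InB M N ξ x) (F : L2R H) :
    piK M N ξ x F =ᵐ[volume] fun s => bet M N ξ (Real.exp s) x (F s) := dec_coe (S.piK_dec hx) F

lemma piK_add {x y : H →L[ℂ] H} (hx : InB M N ξ x) (hy : InB M N ξ y) :
    piK M N ξ (x + y) = piK M N ξ x + piK M N ξ y := by
  rw [piK, piK, piK, ← dec_add (S.piK_dec hx) (S.piK_dec hy)]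
  congr 1
  funext s
  exact S.bet_add hx hy (Real.exp_pos s)

lemma piK_smul (c : ℂ) {x : H →L[ℂ] H} (hx : InB M N ξ x) :
    piK M N ξ (c • x) = c • piK M N ξ x := by
  rw [piK, piK, ← dec_smul c (S.piK_dec hx)]
  congr 1
  funext s
  exact S.bet_smul c hx (Real.exp_pos s)

lemma piK_mul {x y : H →L[ℂ] H} (hx : InB M N ξ x) (hy : InB M N ξ y) :
    piK M N ξ (x * y) = piK M N ξ x * piK M N ξ y := by
  ext F : 1
  change _ = piK M N ξ x (piK M N ξ y F)
  rw [piK, piK, piK, dec_comp (S.piK_dec hx) (S.piK_dec hy)]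
  congr 2
  funext s
  exact S.bet_mul hx hy (Real.exp_pos s)

lemma piK_one : piK M N ξ (1 : H →L[ℂ] H) = 1 := by
  have : (fun s : ℝ => bet M N ξ (Real.exp s) (1 : H →L[ℂ] H)) = fun _ => (1 : H →L[ℂ] H) := by
    funext s
    exact S.bet_one (Real.exp_pos s)
  rw [piK, this]
  exact lift_one

lemma piK_star {x : H →L[ℂ] H} (hx : InB M N ξ x) :
    piK M N ξ (star x) = star (piK M N ξ x) := by
  rw [ContinuousLinearMap.star_eq_adjoint (piK M N ξ x), ContinuousLinearMap.eq_adjoint_iff]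
  intro F F'
  refine dec_adj (S.piK_dec hx) (S.piK_dec (S.InB_star hx)) (fun s v w => ?_) F F'
  rw [S.bet_star hx (Real.exp_pos s), inner_star_left]

lemma piK_mem {x : H →L[ℂ] H} (hx : InB M N ξ x) : piK M N ξ x ∈ amp M :=
  dec_mem_amp (S.piK_dec hx) fun s => (mem_Qalg.1 (S.bet_memQ hx (Real.exp_pos s))).1

/-- inner products of vectors of the form `π(x) G` -/
lemma inner_piK {x y : H →L[ℂ] H} (hx : InB M N ξ x) (hy : InB M N ξ y) {G G' : L2R H}
    (hG : ∀ᵐ s, G s ∈ K0 N ξ) (hG' : ∀ᵐ s, G' s ∈ K0 N ξ) :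
    ⟪piK M N ξ y G, piK M N ξ x G'⟫_ℂ = ⟪y ξ, x ξ⟫_ℂ * ⟪G, G'⟫_ℂ := by
  rw [L2.inner_def, L2.inner_def, ← integral_const_mul]
  refine integral_congr_ae ?_
  filter_upwards [S.piK_coe hx G', S.piK_coe hy G, hG, hG'] with s h1 h2 h3 h4
  rw [h1, h2, S.inner_QK S.irr (S.bet_memQ hy (Real.exp_pos s)) (S.bet_memQ hx (Real.exp_pos s))
    h3 h4, S.bet_inner hx hy (Real.exp_pos s)]

/-- the coefficient function -/
lemma coef_bm {x : H →L[ℂ] H} (hx : InB M N ξ x) (η : H) :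
    BM (fun s => ⟪η, bet M N ξ (Real.exp s) x ξ⟫_ℂ) := by
  refine ⟨(continuous_const.inner (S.bet_exp_cont hx ξ)).measurable, ‖η‖ * ‖x ξ‖, by positivity,
    fun s => ?_⟩
  refine (norm_inner_le_norm _ _).trans ?_
  rw [S.bet_norm hx (Real.exp_pos s)]

lemma adj_piK {x : H →L[ℂ] H} (hx : InB M N ξ x) (η : H) (g : L2R ℂ) :
    (adjoint (axi η)) (piK M N ξ x (ten g ξ)) =
      mulOp ℂ (fun s => ⟪η, bet M N ξ (Real.exp s) x ξ⟫_ℂ) g := by
  refine ext_inner_left ℂ fun f => ?_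
  rw [adjoint_inner_right]
  change ⟪ten f η, _⟫_ℂ = _
  rw [L2.inner_def, L2.inner_def]
  refine integral_congr_ae ?_
  filter_upwards [ten_coe f η, S.piK_coe hx (ten g ξ), ten_coe g ξ,
    mulOp_coe (S.coef_bm hx η) g] with s h1 h2 h3 h4
  rw [h1, h2, h3, h4, map_smul, inner_smul_left, inner_smul_right]
  simp only [RCLike.inner_apply, smul_eq_mul]
  ring

/-- the first computation: pairing `π(x) G` with `f ⊗ y a ξ` -/
lemma pair_right {x y : H →L[ℂ] H} (hx : InB M N ξ x) (hy : y ∈ Qalg M N ξ) {η : H}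
    (hη : η ∈ K0 N ξ) {G : L2R H} (hG : ∀ᵐ s, G s ∈ K0 N ξ) (f : L2R ℂ) :
    ⟪ten f (y η), piK M N ξ x G⟫_ℂ =
      ⟪f, mulOp ℂ (fun s => ⟪y ξ, bet M N ξ (Real.exp s) x ξ⟫_ℂ) ((adjoint (axi η)) G)⟫_ℂ := by
  rw [← mulOp_adj (S.coef_bm hx (y ξ)), adjoint_inner_right]
  change _ = ⟪ten _ η, G⟫_ℂ
  rw [L2.inner_def, L2.inner_def]
  refine integral_congr_ae ?_
  filter_upwards [ten_coe f (y η), S.piK_coe hx G, hG,
    ten_coe (mulOp ℂ (fun s => (starRingEnd ℂ) ⟪y ξ, bet M N ξ (Real.exp s) x ξ⟫_ℂ) f) η,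
    mulOp_coe (S.coef_bm hx (y ξ)).conj f] with s h1 h2 h3 h4 h5
  rw [h1, h2, h4, h5, inner_smul_left, inner_smul_left,
    S.inner_QK S.irr hy (S.bet_memQ hx (Real.exp_pos s)) hη h3, smul_eq_mul, map_mul,
    Complex.conj_conj]
  ring

/-- the second computation -/
lemma pair_left {Z : L2R H →L[ℂ] L2R H} (hZ : Z ∈ amp N) {y a : H →L[ℂ] H}
    (hy : y ∈ Qalg M N ξ) (ha : a ∈ N) {F : L2R H}
    (hF : ∀ᵐ s, ∃ z ∈ Qalg M N ξ, F s = z ξ) (f : L2R ℂ) :
    ⟪ten f (a (y ξ)), Z F⟫_ℂ = ⟪ten f (a ξ), Z (ten ((adjoint (axi (y ξ))) F) ξ)⟫_ℂ := by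
  set D : L2R H := (adjoint Z) (ten f (a (y ξ))) -
    ten ((adjoint (Z.comp (axi ξ))) (ten f (a ξ))) (y ξ) with hD
  have h1 : ∀ g : L2R ℂ, ∀ v ∈ {v : H | ∃ z ∈ Qalg M N ξ, v = z ξ}, ⟪ten g v, D⟫_ℂ = 0 := by
    rintro g _ ⟨z, hz, rfl⟩
    rw [hD, inner_sub_right, adjoint_inner_right, inner_ten, adjoint_inner_right]
    change ⟪Z (ten g (z ξ)), ten f (a (y ξ))⟫_ℂ - ⟪Z (ten g ξ), ten f (a ξ)⟫_ℂ * _ = 0
    have e1 : ⟪Z (ten g (z ξ)), ten f (a (y ξ))⟫_ℂ =
        ⟪z ξ, (star (slX Z f g) * a) (y ξ)⟫_ℂ := by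
      rw [← inner_conj_symm, ← inner_slX, inner_conj_symm]
      change _ = ⟪z ξ, (star (slX Z f g)) (a (y ξ))⟫_ℂ
      rw [inner_star_right]
    have e2 : ⟪Z (ten g ξ), ten f (a ξ)⟫_ℂ = ⟪ξ, (star (slX Z f g) * a) ξ⟫_ℂ := by
      rw [← inner_conj_symm, ← inner_slX, inner_conj_symm]
      change _ = ⟪ξ, (star (slX Z f g)) (a ξ)⟫_ℂ
      rw [inner_star_right]
    rw [e1, e2, S.inner_NQ hz hy (mul_mem (star_mem (slX_mem hZ f g)) ha)]
    ring
  have h2 : ⟪F, D⟫_ℂ = 0 := by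
    rw [L2.inner_def]
    refine (integral_congr_ae ?_).trans (integral_zero _ _)
    filter_upwards [ae_ortho _ h1, hF] with s e1 e2
    obtain ⟨z, hz, hzs⟩ := e2
    exact e1 _ ⟨z, hz, hzs⟩
  rw [hD, inner_sub_right, adjoint_inner_right, sub_eq_zero] at h2
  rw [← inner_conj_symm, h2, inner_conj_symm]
  have h3 : ∀ g : L2R ℂ, ⟪ten g (y ξ), F⟫_ℂ = ⟪g, (adjoint (axi (y ξ))) F⟫_ℂ := by
    intro g
    rw [adjoint_inner_right]; rfl
  rw [h3, adjoint_inner_left]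
  rfl

end AP

end Pool.Agent.Helper23
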