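import Pool.Agent.Helper23.Pi

/-!
# The image of the bicentralizer commutes with the centralizer of the weight
-/

open scoped InnerProductSpace Topology ENNReal
open ContinuousLinearMap Filter MeasureTheory

set_option linter.unusedSectionVars false
set_option linter.unusedVariables false

namespace Pool.Agent.Helper23

variable {H : Type*} [NormedAddCommGroup H] [InnerProductSpace ℂ H] [CompleteSpace H]
variable {M N : VonNeumannAlgebra H} {ξ : H} {E : (H →L[ℂ] H) → (H →L[ℂ] H)}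

lemma amp_mono (hle : ∀ x ∈ N, x ∈ M) {X : L2R H →L[ℂ] L2R H} (hX : X ∈ amp N) : X ∈ amp M := by
  rw [mem_amp] at hX ⊢
  intro a ha
  refine hX a ?_
  rw [mem_comm_iff] at ha ⊢
  exact fun g hg => ha g (hle g hg)

lemma GK_slice_mem {u : L2R H →L[ℂ] L2R H} (hu : u ∈ amp N) (g : L2R ℂ) :
    ∀ᵐ s, u (ten g ξ) s ∈ K0 N ξ :=
  ae_mem (K0 N ξ) fun f => mem_K0 (slX_mem hu f g)

namespace AP

variable (S : AP M N E ξ)
include S

theorem piK_comm (hAP : AlmostPeriodic N ξ) {u : L2R H →L[ℂ] L2R H} (hu : u ∈ GK N ξ) {x : H →L[ℂ] H}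
    (hx : InB M N ξ x) : u * piK M N ξ x = piK M N ξ x * u := by
  have huM : u ∈ amp M := amp_mono S.le hu.1
  have hpM := S.piK_mem hx
  refine amp_ext (ξ := ξ) S.dense_comm (mul_mem huM hpM) (mul_mem hpM huM) fun g => ?_
  change u (piK M N ξ x (ten g ξ)) = piK M N ξ x (u (ten g ξ))
  set G := u (ten g ξ) with hG
  have hGK : ∀ᵐ s, G s ∈ K0 N ξ := GK_slice_mem hu.1 g
  set FL := u (piK M N ξ x (ten g ξ)) with hFL
  set FR := piK M N ξ x G with hFR
  have hξK : ξ ∈ K0 N ξ := by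
    have := mem_K0 (ξ := ξ) (one_mem N)
    simpa using this
  have hF : ∀ᵐ s, ∃ z ∈ Qalg M N ξ, piK M N ξ x (ten g ξ) s = z ξ := by
    filter_upwards [S.piK_coe hx (ten g ξ), ten_coe g ξ] with s e1 e2
    refine ⟨g s • bet M N ξ (Real.exp s) x, smul_mem' _ (S.bet_memQ hx (Real.exp_pos s)), ?_⟩
    rw [e1, e2, map_smul]
    rfl
  -- pairing with the test vectors
  have h1 : ∀ f : L2R ℂ, ∀ v ∈ {v : H | ∃ y ∈ Qalg M N ξ, ∃ γ : ℝ, 0 < γ ∧
      ∃ a ∈ eig N ξ γ, v = y (a ξ)}, ⟪ten f v, FL - FR⟫_ℂ = 0 := by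
    rintro f _ ⟨y, hy, γ, hγ0, a, ha, rfl⟩
    by_cases ha0 : a = 0
    · subst ha0
      have : ten f (y ((0 : H →L[ℂ] H) ξ)) = 0 := by
        rw [zero_apply, map_zero]
        exact map_zero (iot H f)
      rw [this, inner_zero_left]
    have hγ : γ ∈ Gam N ξ := ⟨hγ0, a, ha, ha0⟩
    set y' := al M N ξ γ⁻¹ y with hy'
    have hy'Q : y' ∈ Qalg M N ξ := S.al_mem (Gam_inv hγ) hy
    have hyy : al M N ξ γ y' = y := by
      rw [hy', S.al_al hγ (Gam_inv hγ) hy, mul_inv_cancel₀ hγ0.ne', S.al_id hy]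
    have hrel : a * y' = y * a := by
      have := S.al_rel hγ hy'Q a ha
      rwa [hyy] at this
    have hv : y (a ξ) = a (y' ξ) :=
      (congrArg (fun T : H →L[ℂ] H => T ξ) hrel).symm
    have hc : (fun s => ⟪y' ξ, bet M N ξ (Real.exp s) x ξ⟫_ℂ) =
        fun s => (fun s => ⟪y ξ, bet M N ξ (Real.exp s) x ξ⟫_ℂ) (s + Real.log γ) := by
      funext s
      have hb := S.bet_memQ hx (Real.exp_pos s)
      rw [← S.al_inner hγ hb hy'Q, hyy, S.al_bet hx (Real.exp_pos s) hγ]
      congr 3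
      rw [Real.exp_add, Real.exp_log hγ0, mul_comm]
    rw [inner_sub_right, sub_eq_zero, hFR, S.pair_right hx hy (mem_K0 ha.1) hGK f, hv, hFL,
      S.pair_left hu.1 hy'Q ha.1 hF f, S.adj_piK hx (y' ξ) g, ← inner_RR, hc,
      S.RR_shift hu hγ0 ha (S.coef_bm hx (y ξ))
        (continuous_const.inner (S.bet_exp_cont hx ξ)) g]
    rfl
  -- the difference is orthogonal to `FR`
  have h2 : ⟪FR, FL - FR⟫_ℂ = 0 := by
    rw [L2.inner_def]
    refine (integral_congr_ae ?_).trans (integral_zero _ _)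
    filter_upwards [ae_ortho _ h1, hGK, S.piK_coe hx G] with s e1 e2 e3
    rw [e3]
    have hyQ := S.bet_memQ hx (Real.exp_pos s)
    set y := bet M N ξ (Real.exp s) x with hy
    set d := (FL - FR) s with hd
    have e4 : ∀ c ∈ N, ⟪(star y) d, c ξ⟫_ℂ = 0 := by
      intro c hc
      have := functional_eq_of_eig hAP (v₁ := (star y) d) (v₂ := 0) (w₁ := ξ) (w₂ := 0) (k := 0)
        (fun γ hγ a ha => by
          rw [inner_star_left, ← inner_conj_symm, e1 _ ⟨y, hyQ, γ, hγ, a, ha, rfl⟩]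
          simp) hc
      rw [this]; simp
    have e5 : ⟪(star y) d, G s⟫_ℂ = 0 := by
      refine K0_induction (p := fun k => ⟪(star y) d, k⟫_ℂ = 0) ?_ e4 e2
      exact isClosed_eq (by fun_prop) (by fun_prop)
    rw [inner_star_left] at e5
    rw [← inner_conj_symm, e5, map_zero]
  -- the norms agree
  have h3 : ⟪FL, FL⟫_ℂ = ⟪FR, FR⟫_ℂ := by
    have e1 : ⟪FL, FL⟫_ℂ = ⟪piK M N ξ x (ten g ξ), piK M N ξ x (ten g ξ)⟫_ℂ := by
      rw [hFL, ← inner_star_left]
      have : (star u) (u (piK M N ξ x (ten g ξ))) = piK M N ξ x (ten g ξ) :=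
        congrArg (fun T : L2R H →L[ℂ] L2R H => T (piK M N ξ x (ten g ξ))) hu.2.1
      rw [this]
    have e2 : ⟪G, G⟫_ℂ = ⟪ten g ξ, ten g ξ⟫_ℂ := by
      rw [hG, ← inner_star_left]
      have : (star u) (u (ten g ξ)) = ten g ξ :=
        congrArg (fun T : L2R H →L[ℂ] L2R H => T (ten g ξ)) hu.2.1
      rw [this]
    rw [e1, hFR, S.inner_piK hx hx (ten_ae_mem g hξK) (ten_ae_mem g hξK),
      S.inner_piK hx hx hGK hGK, e2]
  rw [← sub_eq_zero, ← inner_self_eq_zero (𝕜 := ℂ)]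
  rw [inner_sub_left, h2, sub_zero, inner_sub_right, h3]
  rw [inner_sub_right, sub_eq_zero] at h2
  rw [← inner_conj_symm FL FR, h2, inner_conj_symm, sub_self]

/-- commutation with the explicit unitaries -/
theorem piK_mem_Rk0 {x : H →L[ℂ] H} (hx : InB M N ξ x) : piK M N ξ x ∈ Rk0 M N ξ := by
  have hm : ∀ y, InB M N ξ y → ∀ m : ℝ → ℂ, BM m →
      mulOp H m * piK M N ξ y = piK M N ξ y * mulOp H m := by
    intro y hy m hm
    ext F : 1
    change mulOp H m (piK M N ξ y F) = piK M N ξ y (mulOp H m F)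
    ext1
    filter_upwards [mulOp_coe hm (piK M N ξ y F), S.piK_coe hy F,
      S.piK_coe hy (mulOp H m F), mulOp_coe hm F] with s e1 e2 e3 e4
    rw [e1, e2, e3, e4, map_smul]
  have hl : ∀ y, InB M N ξ y → ∀ a ∈ eig N ξ 1,
      lift a * piK M N ξ y = piK M N ξ y * lift a := by
    intro y hy a ha
    ext F : 1
    change lift a (piK M N ξ y F) = piK M N ξ y (lift a F)
    ext1
    filter_upwards [lift_coe a (piK M N ξ y F), S.piK_coe hy F,
      S.piK_coe hy (lift a F), lift_coe a F] with s e1 e2 e3 e4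
    rw [e1, e2, e3, e4]
    exact congrArg (fun T : H →L[ℂ] H => T (F s))
      ((mem_Qalg.1 (S.bet_memQ hy (Real.exp_pos s))).2 a ha)
  have hV : ∀ y, InB M N ξ y → ∀ (γ : ℝ) (v : H →L[ℂ] H), 0 < γ → v ∈ eig N ξ γ →
      VV H v (Real.log γ) * piK M N ξ y = piK M N ξ y * VV H v (Real.log γ) := by
    intro y hy γ v hγ hv
    by_cases hv0 : v = 0
    · subst hv0
      have : VV H (0 : H →L[ℂ] H) (Real.log γ) = 0 := by
        have h0 : lift (0 : H →L[ℂ] H) = 0 := by
          have := lift_smul (0 : ℂ) (0 : H →L[ℂ] H)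
          rwa [zero_smul, zero_smul] at this
        rw [VV, h0, zero_mul]
      rw [this, zero_mul, mul_zero]
    have hγG : γ ∈ Gam N ξ := ⟨hγ, v, hv, hv0⟩
    ext F : 1
    change lift v (tr H (Real.log γ) (piK M N ξ y F)) =
      piK M N ξ y (lift v (tr H (Real.log γ) F))
    ext1
    filter_upwards [lift_coe v (tr H (Real.log γ) (piK M N ξ y F)),
      tr_coe (Real.log γ) (piK M N ξ y F), ae_tr (Real.log γ) (S.piK_coe hy F),
      S.piK_coe hy (lift v (tr H (Real.log γ) F)), lift_coe v (tr H (Real.log γ) F),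
      tr_coe (Real.log γ) F] with s e1 e2 e3 e4 e5 e6
    rw [e1, e2, e3, e4, e5, e6]
    have h1 := S.al_rel hγG (S.bet_memQ hy (Real.exp_pos (s - Real.log γ))) v hv
    rw [S.al_bet hy (Real.exp_pos _) hγG] at h1
    have h2 : γ * Real.exp (s - Real.log γ) = Real.exp s := by
      rw [Real.exp_sub, Real.exp_log hγ, mul_div_cancel₀ _ hγ.ne']
    rw [h2] at h1
    exact congrArg (fun T : H →L[ℂ] H => T (F (s - Real.log γ))) h1
  refine ⟨S.piK_mem hx, ?_⟩
  rintro u (⟨m, hm0, -, rfl⟩ | ⟨a, ha, rfl⟩ | ⟨γ, v, I, hγ, hv, -, hI, -, rfl⟩)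
  · exact hm x hx m hm0
  · exact hl x hx a ha.1
  · have c1 := hm x hx _ (ind_bm hI)
    have c2 := hV x hx γ v hγ hv
    have c3 : star (VV H v (Real.log γ)) * piK M N ξ x =
        piK M N ξ x * star (VV H v (Real.log γ)) := by
      have h1 := hV _ (S.InB_star hx) γ v hγ hv
      have h2 := congrArg star h1
      rw [star_mul, star_mul, S.piK_star hx, star_star] at h2
      exact h2.symm
    set V := VV H v (Real.log γ)
    set p := mulOp H (ind I) with hp
    set X := piK M N ξ x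
    have hps : star p = p := mulOp_ind_star hI
    have c4 : (V * p) * X = X * (V * p) := by
      rw [mul_assoc, c1, ← mul_assoc, c2, mul_assoc]
    have c5 : star (V * p) * X = X * star (V * p) := by
      rw [star_mul, hps, mul_assoc, c3, ← mul_assoc, c1, mul_assoc]
    have hfl : flip v (Real.log γ) I = V * p + star (V * p) +
        (1 - p - V * p * star (V * p)) := rfl
    rw [hfl, add_mul, add_mul, sub_mul, sub_mul, one_mul, mul_assoc (V * p), c5,
      ← mul_assoc (V * p), c4, mul_add, mul_add, mul_sub, mul_sub, mul_one, c1]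
    simp only [mul_assoc]

theorem piK_mem_Rk (hAP : AlmostPeriodic N ξ) {x : H →L[ℂ] H} (hx : InB M N ξ x) : piK M N ξ x ∈ Rk M N ξ :=
  ⟨S.piK_mem hx, fun u hu => S.piK_comm hAP hu hx⟩

end AP

end Pool.Agent.Helper23
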