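import Pool.Agent.Helper23.Rev
import Pool.Agent.Helper23.Partner
import Pool.Agent.Helper75.GKWeak

/-!
# Windows, Parseval inequalities and partners of slices
-/

open scoped InnerProductSpace Topology ENNReal
open ContinuousLinearMap Filter MeasureTheory

namespace Pool.Agent.Helper23

variable {H : Type*} [NormedAddCommGroup H] [InnerProductSpace ℂ H] [CompleteSpace H]
variable {G : Type*} [NormedAddCommGroup G] [InnerProductSpace ℂ G] [CompleteSpace G]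
variable {M N : VonNeumannAlgebra H} {ξ : H} {E : (H →L[ℂ] H) → (H →L[ℂ] H)}

/-- the windows -/
def win (t : ℝ) (i : ℤ) : Set ℝ := Set.Ico ((i : ℝ) * t) (((i : ℝ) + 1) * t)

lemma win_meas (t : ℝ) (i : ℤ) : MeasurableSet (win t i) := measurableSet_Ico

lemma win_unique {t : ℝ} (ht : 0 < t) {i j : ℤ} {s : ℝ} (hi : s ∈ win t i) (hj : s ∈ win t j) :
    i = j := by
  have h1 : (i : ℝ) < j + 1 := by
    have := lt_of_le_of_lt hi.1 hj.2
    exact lt_of_mul_lt_mul_right this ht.le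
  have h2 : (j : ℝ) < i + 1 := by
    have := lt_of_le_of_lt hj.1 hi.2
    exact lt_of_mul_lt_mul_right this ht.le
  have h3 : i < j + 1 := by exact_mod_cast h1
  have h4 : j < i + 1 := by exact_mod_cast h2
  omega

lemma mem_win_floor {t : ℝ} (ht : 0 < t) (s : ℝ) : s ∈ win t ⌊s / t⌋ := by
  constructor
  · have := Int.floor_le (s / t)
    rwa [le_div_iff₀ ht] at this
  · have := Int.lt_floor_add_one (s / t)
    rwa [div_lt_iff₀ ht] at this

lemma floor_mem {t : ℝ} (ht : 0 < t) {m : ℕ} {s : ℝ} (h : s ∈ Set.Ico (-(m * t)) (m * t)) :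
    ⌊s / t⌋ ∈ Finset.Ico (-(m : ℤ)) m := by
  rw [Finset.mem_Ico]
  constructor
  · rw [Int.le_floor, le_div_iff₀ ht]
    push_cast
    linarith [h.1]
  · rw [Int.floor_lt, div_lt_iff₀ ht]
    push_cast
    exact h.2

lemma indw_of_mem {t : ℝ} {i : ℤ} {s : ℝ} (h : s ∈ win t i) : ind (win t i) s = 1 := ind_of_mem h

/-- the sum of squares of pieces -/
lemma bessel_mul {t : ℝ} (ht : 0 < t) (A : Finset ℤ) {μ : ℤ → ℝ → ℂ} (hμ : ∀ i, BM (μ i))
    (hμ0 : ∀ i s, s ∉ win t i → μ i s = 0) {c : ℝ} (hc : 0 ≤ c) (hμc : ∀ i s, ‖μ i s‖ ≤ c)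
    (V : L2R G) : ∑ i ∈ A, ‖mulOp G (μ i) V‖ ^ 2 ≤ c ^ 2 * ‖V‖ ^ 2 := by
  classical
  -- the sum of the multipliers with its modulus
  have hn : ∀ F : L2R G, ENNReal.ofReal (‖F‖ ^ 2) = ∫⁻ s, ENNReal.ofReal (‖F s‖ ^ 2) :=
    norm_sq_lint
  have h1 : ENNReal.ofReal (∑ i ∈ A, ‖mulOp G (μ i) V‖ ^ 2) ≤
      ENNReal.ofReal (c ^ 2 * ‖V‖ ^ 2) := by
    rw [ENNReal.ofReal_sum_of_nonneg (fun i _ => by positivity)]
    simp only [hn]
    rw [← lintegral_finsetSum' _ (fun i _ => by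
      refine ENNReal.measurable_ofReal.comp_aemeasurable ?_
      exact ((Lp.aestronglyMeasurable (mulOp G (μ i) V)).norm.aemeasurable.pow_const 2))]
    rw [ENNReal.ofReal_mul (by positivity), hn, ← lintegral_const_mul' _ _ (by finiteness)]
    refine lintegral_mono_ae ?_
    have h2 : ∀ᵐ s, ∀ i : ℤ, (mulOp G (μ i) V) s = μ i s • V s :=
      ae_all_iff.2 fun i => mulOp_coe (hμ i) V
    filter_upwards [h2] with s hs
    have h3 : ∀ i ∈ A, ENNReal.ofReal (‖(mulOp G (μ i) V) s‖ ^ 2) ≤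
        if i = ⌊s / t⌋ then ENNReal.ofReal (c ^ 2) * ENNReal.ofReal (‖V s‖ ^ 2) else 0 := by
      intro i _
      rw [hs i]
      by_cases hi : i = ⌊s / t⌋
      · rw [if_pos hi, ← ENNReal.ofReal_mul (by positivity), norm_smul, mul_pow]
        refine ENNReal.ofReal_le_ofReal ?_
        gcongr
        exact hμc i s
      · rw [if_neg hi, hμ0 i s, zero_smul, norm_zero]
        · simp
        · intro hcon
          exact hi (win_unique ht hcon (mem_win_floor ht s))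
    refine (Finset.sum_le_sum h3).trans ?_
    rw [Finset.sum_ite_eq']
    split_ifs
    · exact le_rfl
    · exact bot_le
  exact (ENNReal.ofReal_le_ofReal_iff (by positivity)).1 h1

lemma ind_norm_le (I : Set ℝ) (s : ℝ) : ‖ind I s‖ ≤ 1 := by
  by_cases h : s ∈ I
  · rw [ind_of_mem h]; simp
  · rw [ind_of_notMem h]; simp

lemma bessel_win {t : ℝ} (ht : 0 < t) (A : Finset ℤ) (V : L2R G) :
    ∑ i ∈ A, ‖mulOp G (ind (win t i)) V‖ ^ 2 ≤ ‖V‖ ^ 2 := by
  have := bessel_mul ht A (fun i => ind_bm (win_meas t i)) (fun i s h => ind_of_notMem h)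
    zero_le_one (fun i s => ind_norm_le _ s) V
  rwa [one_pow, one_mul] at this


omit [CompleteSpace G] in
lemma sum_win {t : ℝ} (ht : 0 < t) {m : ℕ} {V : L2R G}
    (hV : ∀ᵐ s, s ∉ Set.Ico (-(m * t)) (m * t) → V s = 0) :
    ∑ i ∈ Finset.Ico (-(m : ℤ)) m, mulOp G (ind (win t i)) V = V := by
  classical
  ext1
  have h2 : ∀ᵐ s, ∀ i : ℤ, (mulOp G (ind (win t i)) V) s = ind (win t i) s • V s :=
    ae_all_iff.2 fun i => mulOp_coe (ind_bm (win_meas t i)) V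
  have h3 : (∑ i ∈ Finset.Ico (-(m : ℤ)) m, mulOp G (ind (win t i)) V : L2R G) =ᵐ[volume]
      fun s => ∑ i ∈ Finset.Ico (-(m : ℤ)) m, (mulOp G (ind (win t i)) V) s := by
    have := Lp.coeFn_finsetSum (Finset.Ico (-(m : ℤ)) m) (fun i => mulOp G (ind (win t i)) V)
    filter_upwards [this] with s hs
    rw [hs, Finset.sum_apply]
  filter_upwards [h2, h3, hV] with s e2 e3 e4
  rw [e3]
  by_cases hs : s ∈ Set.Ico (-(m * t)) (m * t)
  · rw [Finset.sum_eq_single_of_mem ⌊s / t⌋ (floor_mem ht hs)]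
    · rw [e2, indw_of_mem (mem_win_floor ht s), one_smul]
    · intro j _ hj
      rw [e2, ind_of_notMem, zero_smul]
      intro hcon
      exact hj (win_unique ht hcon (mem_win_floor ht s))
  · rw [e4 hs]
    refine Finset.sum_eq_zero fun i _ => ?_
    rw [e2, e4 hs, smul_zero]

/-- Parseval on the fibres -/
lemma hasSum_sq (F : L2R H) : HasSum (fun k : hw => ‖sl (hb k) F‖ ^ 2) (‖F‖ ^ 2) := by
  have h1 := (innerSL ℂ F).hasSum (GKW.hasSum_hb F)
  have h2 : (fun k : hw => (innerSL ℂ F) (ten (hb k) (sl (hb k) F))) =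
      fun k : hw => (((‖sl (hb k) F‖ ^ 2 : ℝ)) : ℂ) := by
    funext k
    change ⟪F, ten (hb k) (sl (hb k) F)⟫_ℂ = _
    rw [← inner_sl', inner_self_eq_norm_sq_to_K]
    norm_cast
  have h3 : (innerSL ℂ F) F = (((‖F‖ ^ 2 : ℝ)) : ℂ) := by
    change ⟪F, F⟫_ℂ = _
    rw [inner_self_eq_norm_sq_to_K]
    norm_cast
  change HasSum (fun k : hw => (innerSL ℂ F) (ten (hb k) (sl (hb k) F))) ((innerSL ℂ F) F) at h1
  rw [h2, h3] at h1
  exact_mod_cast h1

lemma bessel_sq (A : Finset hw) (F : L2R H) : ∑ k ∈ A, ‖sl (hb k) F‖ ^ 2 ≤ ‖F‖ ^ 2 :=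
  sum_le_hasSum A (fun _ _ => by positivity) (hasSum_sq F)

lemma sl_mulOp' {m : ℝ → ℂ} (hm : BM m) (f : L2R ℂ) (F : L2R H) :
    sl (mulOp ℂ m f) F = sl f (mulOp H (fun s => (starRingEnd ℂ) (m s)) F) := by
  refine ext_inner_left ℂ fun η => ?_
  rw [inner_sl, inner_sl, ← mulOp_ten hm]
  have h1 := mulOp_adj hm.conj (ten f η) F
  simp only [Complex.conj_conj] at h1
  exact h1

/-- the two Bessel inequalities together -/
lemma bessel_both {t : ℝ} (ht : 0 < t) (A : Finset ℤ) (B : Finset hw) {μ : ℤ → ℝ → ℂ}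
    (hμ : ∀ i, BM (μ i)) (hμ0 : ∀ i s, s ∉ win t i → μ i s = 0) {c : ℝ} (hc : 0 ≤ c)
    (hμc : ∀ i s, ‖μ i s‖ ≤ c) (V : L2R H) :
    ∑ i ∈ A, ∑ k ∈ B, ‖sl (mulOp ℂ (μ i) (hb k)) V‖ ^ 2 ≤ c ^ 2 * ‖V‖ ^ 2 := by
  have h1 : ∀ i ∈ A, ∑ k ∈ B, ‖sl (mulOp ℂ (μ i) (hb k)) V‖ ^ 2 ≤
      ‖mulOp H (fun s => (starRingEnd ℂ) (μ i s)) V‖ ^ 2 := by
    intro i _
    refine le_trans (le_of_eq (Finset.sum_congr rfl fun k _ => ?_)) (bessel_sq B _)
    rw [sl_mulOp' (hμ i)]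
  refine (Finset.sum_le_sum h1).trans ?_
  exact bessel_mul ht A (fun i => (hμ i).conj) (fun i s h => by rw [hμ0 i s h, map_zero]) hc
    (fun i s => by rw [RCLike.norm_conj]; exact hμc i s) V

/-- truncated inverse exponential -/
noncomputable def hi (n : ℕ) (s : ℝ) : ℂ :=
  Set.indicator (Set.Ico (-(n : ℝ)) n) (fun s => ((Real.exp (-s) : ℝ) : ℂ)) s

lemma hi_of_mem {n : ℕ} {s : ℝ} (h : s ∈ Set.Ico (-(n : ℝ)) n) :
    hi n s = ((Real.exp (-s) : ℝ) : ℂ) := Set.indicator_of_mem h _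

lemma hi_bm (n : ℕ) : BM (hi n) := by
  refine ⟨(Complex.measurable_ofReal.comp
    (Real.measurable_exp.comp measurable_neg)).indicator measurableSet_Ico, Real.exp n,
    by positivity, fun s => ?_⟩
  by_cases h : s ∈ Set.Ico (-(n : ℝ)) n
  · rw [hi_of_mem h, Complex.norm_real, Real.norm_of_nonneg (by positivity)]
    exact Real.exp_le_exp.2 (by linarith [h.1])
  · rw [hi, Set.indicator_of_notMem h, norm_zero]
    positivity

lemma Pn_ae {n : ℕ} {f : L2R ℂ} (hf : Pn n f = f) :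
    ∀ᵐ s, s ∉ Set.Ico (-(n : ℝ)) n → f s = 0 := by
  filter_upwards [Pn_coe n f] with s hs h
  rw [hf, ind_of_notMem h, zero_smul] at hs
  exact hs

lemma Pn_of_ae {n : ℕ} {f : L2R ℂ} (hf : ∀ᵐ s, s ∉ Set.Ico (-(n : ℝ)) n → f s = 0) :
    Pn n f = f := by
  ext1
  filter_upwards [Pn_coe n f, hf] with s hs h
  rw [hs]
  by_cases h1 : s ∈ Set.Ico (-(n : ℝ)) n
  · rw [ind_of_mem h1, one_smul]
  · rw [h h1, smul_zero]

lemma he_hi {n : ℕ} {f : L2R ℂ} (hf : Pn n f = f) :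
    mulOp ℂ (he n) (mulOp ℂ (hi n) f) = f := by
  rw [mulOp_mulOp (he_bm n) (hi_bm n)]
  ext1
  filter_upwards [mulOp_coe ((he_bm n).mul (hi_bm n)) f, Pn_ae hf] with s hs h
  rw [hs]
  by_cases h1 : s ∈ Set.Ico (-(n : ℝ)) n
  · rw [he_of_mem h1, hi_of_mem h1, ← Complex.ofReal_mul, ← Real.exp_add]
    simp
  · rw [h h1, smul_zero]

/-- partners of slices of elements of the centralizer of the weight -/
lemma partner_slX {u : L2R H →L[ℂ] L2R H} (hu : u ∈ GK N ξ) {n : ℕ} {F g : L2R ℂ}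
    (hF : Pn n F = F) (hg : Pn n g = g) :
    Partner N ξ (slX u F g) (slX u (mulOp ℂ (hi n) F) (mulOp ℂ (he n) g)) := by
  refine ⟨slX_mem hu.1 _ _, slX_mem hu.1 _ _, fun z hz => ?_⟩
  have hF' : Pn n (mulOp ℂ (hi n) F) = mulOp ℂ (hi n) F := Pn_fix_mulOp (hi_bm n) hF
  have h1 := pol_star hu (star_mem hz) hg hF'
  rw [he_hi hF, star_star] at h1
  rw [inner_slX, ← h1, ← inner_slX, inner_star_left]

end Pool.Agent.Helper23
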