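import Pool.Agent.Helper23.Pin1

/-!
# The family of partner pairs attached to a unitary of the centralizer of the weight
-/

open scoped InnerProductSpace Topology ENNReal
open ContinuousLinearMap Filter MeasureTheory

namespace Pool.Agent.Helper23

variable {H : Type*} [NormedAddCommGroup H] [InnerProductSpace ℂ H] [CompleteSpace H]
variable {M N : VonNeumannAlgebra H} {ξ : H} {E : (H →L[ℂ] H) → (H →L[ℂ] H)}

lemma sl_sub_left (f f' : L2R ℂ) (F : L2R H) : sl (f - f') F = sl f F - sl f' F := by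
  refine ext_inner_left ℂ fun η => ?_
  rw [inner_sub_right, inner_sl, inner_sl, inner_sl, ten_sub_left, inner_sub_left]

lemma sl_smul_left (c : ℂ) (f : L2R ℂ) (F : L2R H) :
    sl (c • f) F = (starRingEnd ℂ) c • sl f F := by
  refine ext_inner_left ℂ fun η => ?_
  rw [inner_smul_right, inner_sl, inner_sl, ten_smul_left, inner_smul_left]

lemma slX_smul_smul (X : L2R H →L[ℂ] L2R H) (r r' : ℝ) (f g : L2R ℂ) :
    slX X ((r : ℂ) • f) ((r' : ℂ) • g) = ((r * r' : ℝ) : ℂ) • slX X f g := by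
  ext η
  rw [slX_apply, sl_smul_left, ten_smul_left, map_smul, map_smul, smul_apply, slX_apply,
    Complex.conj_ofReal, smul_smul, Complex.ofReal_mul]

/-- weights on the windows -/
noncomputable def em (t : ℝ) (i : ℤ) (s : ℝ) : ℂ :=
  (win t i).indicator (fun s => ((Real.exp (i * t - s) : ℝ) : ℂ)) s

/-- weights on the windows -/
noncomputable def ep (t : ℝ) (i : ℤ) (s : ℝ) : ℂ :=
  (win t i).indicator (fun s => ((Real.exp (s - i * t) : ℝ) : ℂ)) s

lemma em_of_mem {t : ℝ} {i : ℤ} {s : ℝ} (h : s ∈ win t i) :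
    em t i s = ((Real.exp (i * t - s) : ℝ) : ℂ) := Set.indicator_of_mem h _

lemma em_of_notMem {t : ℝ} {i : ℤ} {s : ℝ} (h : s ∉ win t i) : em t i s = 0 :=
  Set.indicator_of_notMem h _

lemma ep_of_mem {t : ℝ} {i : ℤ} {s : ℝ} (h : s ∈ win t i) :
    ep t i s = ((Real.exp (s - i * t) : ℝ) : ℂ) := Set.indicator_of_mem h _

lemma ep_of_notMem {t : ℝ} {i : ℤ} {s : ℝ} (h : s ∉ win t i) : ep t i s = 0 :=
  Set.indicator_of_notMem h _

lemma em_norm (t : ℝ) (i : ℤ) (s : ℝ) : ‖em t i s‖ ≤ 1 := by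
  by_cases h : s ∈ win t i
  · rw [em_of_mem h, Complex.norm_real, Real.norm_of_nonneg (by positivity), Real.exp_le_one_iff]
    linarith [h.1]
  · rw [em_of_notMem h, norm_zero]; exact zero_le_one

lemma ep_norm {t : ℝ} (ht : 0 < t) (i : ℤ) (s : ℝ) : ‖ep t i s‖ ≤ Real.exp t := by
  by_cases h : s ∈ win t i
  · rw [ep_of_mem h, Complex.norm_real, Real.norm_of_nonneg (by positivity), Real.exp_le_exp]
    have := h.2
    nlinarith
  · rw [ep_of_notMem h, norm_zero]; positivity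

lemma em_bm (t : ℝ) (i : ℤ) : BM (em t i) := by
  refine ⟨(Complex.measurable_ofReal.comp
    (Real.measurable_exp.comp (measurable_const.sub measurable_id))).indicator (win_meas t i),
    1, zero_le_one, em_norm t i⟩

lemma ep_bm {t : ℝ} (ht : 0 < t) (i : ℤ) : BM (ep t i) := by
  refine ⟨(Complex.measurable_ofReal.comp
    (Real.measurable_exp.comp (measurable_id.sub measurable_const))).indicator (win_meas t i),
    Real.exp t, by positivity, ep_norm ht i⟩

lemma em_sub_norm {t : ℝ} (ht : 0 < t) (i : ℤ) (s : ℝ) : ‖em t i s - ind (win t i) s‖ ≤ t := by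
  by_cases h : s ∈ win t i
  · rw [em_of_mem h, ind_of_mem h, ← Complex.ofReal_one, ← Complex.ofReal_sub,
      Complex.norm_real, Real.norm_eq_abs, abs_le]
    have h1 := h.1
    have h2 := h.2
    have h3 : Real.exp (i * t - s) ≤ 1 := Real.exp_le_one_iff.2 (by linarith)
    have h4 := Real.add_one_le_exp (i * t - s)
    constructor
    · nlinarith
    · linarith
  · rw [em_of_notMem h, ind_of_notMem h, sub_zero, norm_zero]; exact ht.le

lemma ep_sub_norm {t : ℝ} (ht : 0 < t) (i : ℤ) (s : ℝ) :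
    ‖ep t i s - ind (win t i) s‖ ≤ t * Real.exp t := by
  by_cases h : s ∈ win t i
  · rw [ep_of_mem h, ind_of_mem h, ← Complex.ofReal_one, ← Complex.ofReal_sub,
      Complex.norm_real, Real.norm_eq_abs]
    have h1 := h.1
    have h2 : s - i * t ≤ t := by
      have := h.2
      nlinarith
    have h3 : 1 ≤ Real.exp (s - i * t) := Real.one_le_exp (by linarith)
    rw [abs_of_nonneg (by linarith)]
    have h5 : Real.exp (s - i * t) ≤ Real.exp t := Real.exp_le_exp.2 h2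
    have h6 := Real.add_one_le_exp (-t)
    have h7 : Real.exp t * Real.exp (-t) = 1 := by rw [← Real.exp_add]; simp
    nlinarith [Real.exp_pos t]
  · rw [ep_of_notMem h, ind_of_notMem h, sub_zero, norm_zero]; positivity

/-- the slices -/
noncomputable def sa (u : L2R H →L[ℂ] L2R H) (t : ℝ) (g : L2R ℂ) (l : ℤ × hw × ℤ) : H →L[ℂ] H :=
  slX u (mulOp ℂ (ind (win t l.1)) (hb l.2.1)) (mulOp ℂ (ind (win t l.2.2)) g)

/-- the weighted slices -/
noncomputable def sb (u : L2R H →L[ℂ] L2R H) (t : ℝ) (g : L2R ℂ) (l : ℤ × hw × ℤ) : H →L[ℂ] H :=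
  slX u (mulOp ℂ (em t l.1) (hb l.2.1)) (mulOp ℂ (ep t l.2.2) g)

lemma win_sub_Ico {t : ℝ} (ht : 0 < t) {i : ℤ} {n : ℕ} (hn : (|i| + 1 : ℝ) * t ≤ n) {s : ℝ}
    (h : s ∈ win t i) : s ∈ Set.Ico (-(n : ℝ)) n := by
  have h1 := h.1
  have h2 := h.2
  have h3 := neg_abs_le (i : ℝ)
  have h4 := le_abs_self (i : ℝ)
  rw [Int.cast_abs] at hn
  constructor <;> nlinarith

/-- partners of the slices -/
lemma partner_sa {u : L2R H →L[ℂ] L2R H} (hu : u ∈ GK N ξ) {t : ℝ} (ht : 0 < t) (g : L2R ℂ)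
    (l : ℤ × hw × ℤ) :
    Partner N ξ (sa u t g l) (((Real.exp ((l.2.2 - l.1) * t) : ℝ) : ℂ) • sb u t g l) := by
  obtain ⟨i, k, j⟩ := l
  obtain ⟨n, hn⟩ := exists_nat_ge (max ((|i| + 1 : ℝ) * t) ((|j| + 1 : ℝ) * t))
  have hni : (|i| + 1 : ℝ) * t ≤ n := (le_max_left _ _).trans hn
  have hnj : (|j| + 1 : ℝ) * t ≤ n := (le_max_right _ _).trans hn
  have hP : ∀ (i : ℤ), (|i| + 1 : ℝ) * t ≤ n → ∀ f : L2R ℂ,
      Pn n (mulOp ℂ (ind (win t i)) f) = mulOp ℂ (ind (win t i)) f := by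
    intro i hi f
    refine Pn_of_ae ?_
    filter_upwards [mulOp_coe (ind_bm (win_meas t i)) f] with s hs h
    rw [hs, ind_of_notMem (fun hcon => h (win_sub_Ico ht hi hcon)), zero_smul]
  have h1 := partner_slX hu (hP i hni (hb k)) (hP j hnj g)
  have e1 : mulOp ℂ (hi n) (mulOp ℂ (ind (win t i)) (hb k)) =
      ((Real.exp (-(i * t)) : ℝ) : ℂ) • mulOp ℂ (em t i) (hb k) := by
    rw [mulOp_mulOp (hi_bm n) (ind_bm (win_meas t i)), ← mulOp_constMul _ (em_bm t i)]
    ext1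
    filter_upwards [mulOp_coe ((hi_bm n).mul (ind_bm (win_meas t i))) (hb k : L2R ℂ),
      mulOp_coe ((em_bm t i).constMul ((Real.exp (-(i * t)) : ℝ) : ℂ)) (hb k : L2R ℂ)]
      with s e1 e2
    rw [e1, e2]
    by_cases h : s ∈ win t i
    · rw [hi_of_mem (win_sub_Ico ht hni h), ind_of_mem h, em_of_mem h, mul_one,
        ← Complex.ofReal_mul, ← Real.exp_add]
      congr 4
      ring
    · rw [ind_of_notMem h, em_of_notMem h, mul_zero, mul_zero]
  have e2 : mulOp ℂ (he n) (mulOp ℂ (ind (win t j)) g) =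
      ((Real.exp (j * t) : ℝ) : ℂ) • mulOp ℂ (ep t j) g := by
    rw [mulOp_mulOp (he_bm n) (ind_bm (win_meas t j)), ← mulOp_constMul _ (ep_bm ht j)]
    ext1
    filter_upwards [mulOp_coe ((he_bm n).mul (ind_bm (win_meas t j))) g,
      mulOp_coe ((ep_bm ht j).constMul ((Real.exp (j * t) : ℝ) : ℂ)) g] with s e1 e2
    rw [e1, e2]
    by_cases h : s ∈ win t j
    · rw [he_of_mem (win_sub_Ico ht hnj h), ind_of_mem h, ep_of_mem h, mul_one,
        ← Complex.ofReal_mul, ← Real.exp_add]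
      congr 4
      ring
    · rw [ind_of_notMem h, ep_of_notMem h, mul_zero, mul_zero]
  rw [e1, e2, slX_smul_smul, ← Real.exp_add] at h1
  have e3 : -(i * t) + (j : ℝ) * t = (j - i) * t := by ring
  rw [e3] at h1
  exact h1

/-- the total mass of the slices -/
lemma sum_sa {u : L2R H →L[ℂ] L2R H} (hu1 : star u * u = 1) (hξ : ‖ξ‖ = 1) {t : ℝ} (ht : 0 < t)
    (g : L2R ℂ) (A A' : Finset ℤ) (B : Finset hw) :
    ∑ j ∈ A', ∑ i ∈ A, ∑ k ∈ B, ‖sa u t g (i, k, j) ξ‖ ^ 2 ≤ ‖g‖ ^ 2 := by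
  have h1 : ∀ j ∈ A', ∑ i ∈ A, ∑ k ∈ B, ‖sa u t g (i, k, j) ξ‖ ^ 2 ≤
      ‖mulOp ℂ (ind (win t j)) g‖ ^ 2 := by
    intro j _
    have h2 := bessel_both ht A B (fun i => ind_bm (win_meas t i))
      (fun i s h => ind_of_notMem h) zero_le_one (fun i s => ind_norm_le _ s)
      (u (ten (mulOp ℂ (ind (win t j)) g) ξ))
    rw [one_pow, one_mul, norm_of_isom hu1, norm_ten, hξ, mul_one] at h2
    exact h2
  exact (Finset.sum_le_sum h1).trans (bessel_win ht A' g)

/-- the total defect of the slices -/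
lemma sum_sb {u : L2R H →L[ℂ] L2R H} (hu1 : star u * u = 1) (hξ : ‖ξ‖ = 1) {t : ℝ} (ht : 0 < t)
    (ht1 : t ≤ 1 / 2) (g : L2R ℂ) (A A' : Finset ℤ) (B : Finset hw) :
    ∑ j ∈ A', ∑ i ∈ A, ∑ k ∈ B, ‖(sb u t g (i, k, j) - sa u t g (i, k, j)) ξ‖ ^ 2 ≤
      25 * t ^ 2 * ‖g‖ ^ 2 := by
  have hexp : Real.exp t ^ 2 ≤ 3 := by
    have h1 : Real.exp t ^ 2 = Real.exp (2 * t) := by
      rw [← Real.exp_nat_mul]; norm_num
    rw [h1]
    have h2 : Real.exp (2 * t) ≤ Real.exp 1 := Real.exp_le_exp.2 (by linarith)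
    have := Real.exp_one_lt_d9
    linarith
  have h1 : ∀ j ∈ A', ∑ i ∈ A, ∑ k ∈ B, ‖(sb u t g (i, k, j) - sa u t g (i, k, j)) ξ‖ ^ 2 ≤
      2 * t ^ 2 * ‖mulOp ℂ (ep t j) g‖ ^ 2 +
        2 * ‖mulOp ℂ (fun s => ep t j s - ind (win t j) s) g‖ ^ 2 := by
    intro j _
    have hsub : ∀ i, BM (fun s => em t i s - ind (win t i) s) := fun i => by
      have := (em_bm t i).add ((ind_bm (win_meas t i)).constMul (-1))
      simpa [sub_eq_add_neg] using this
    have b1 := bessel_both ht A B hsub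
      (fun i s h => by rw [em_of_notMem h, ind_of_notMem h, sub_zero]) ht.le
      (fun i s => em_sub_norm ht i s) (u (ten (mulOp ℂ (ep t j) g) ξ))
    rw [norm_of_isom hu1, norm_ten, hξ, mul_one] at b1
    have b2 := bessel_both ht A B (fun i => ind_bm (win_meas t i))
      (fun i s h => ind_of_notMem h) zero_le_one (fun i s => ind_norm_le _ s)
      (u (ten (mulOp ℂ (fun s => ep t j s - ind (win t j) s) g) ξ))
    rw [one_pow, one_mul, norm_of_isom hu1, norm_ten, hξ, mul_one] at b2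
    have hpt : ∀ i k, ‖(sb u t g (i, k, j) - sa u t g (i, k, j)) ξ‖ ^ 2 ≤
        2 * ‖sl (mulOp ℂ (fun s => em t i s - ind (win t i) s) (hb k))
          (u (ten (mulOp ℂ (ep t j) g) ξ))‖ ^ 2 +
        2 * ‖sl (mulOp ℂ (ind (win t i)) (hb k))
          (u (ten (mulOp ℂ (fun s => ep t j s - ind (win t j) s) g) ξ))‖ ^ 2 := by
      intro i k
      have e1 : mulOp ℂ (fun s => em t i s - ind (win t i) s) (hb k) =
          mulOp ℂ (em t i) (hb k) - mulOp ℂ (ind (win t i)) (hb k) := by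
        ext1
        filter_upwards [mulOp_coe (hsub i) (hb k : L2R ℂ), mulOp_coe (em_bm t i) (hb k : L2R ℂ),
          mulOp_coe (ind_bm (win_meas t i)) (hb k : L2R ℂ),
          Lp.coeFn_sub (mulOp ℂ (em t i) (hb k)) (mulOp ℂ (ind (win t i)) (hb k))]
          with s e1 e2 e3 e4
        rw [e1, e4, Pi.sub_apply, e2, e3, sub_smul]
      have hsub' : BM (fun s => ep t j s - ind (win t j) s) := by
        have := (ep_bm ht j).add ((ind_bm (win_meas t j)).constMul (-1))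
        simpa [sub_eq_add_neg] using this
      have e2 : mulOp ℂ (fun s => ep t j s - ind (win t j) s) g =
          mulOp ℂ (ep t j) g - mulOp ℂ (ind (win t j)) g := by
        ext1
        filter_upwards [mulOp_coe hsub' g, mulOp_coe (ep_bm ht j) g,
          mulOp_coe (ind_bm (win_meas t j)) g,
          Lp.coeFn_sub (mulOp ℂ (ep t j) g) (mulOp ℂ (ind (win t j)) g)] with s e1 e2 e3 e4
        rw [e1, e4, Pi.sub_apply, e2, e3, sub_smul]
      have e3 : (sb u t g (i, k, j) - sa u t g (i, k, j)) ξ =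
          sl (mulOp ℂ (fun s => em t i s - ind (win t i) s) (hb k))
          (u (ten (mulOp ℂ (ep t j) g) ξ)) +
          sl (mulOp ℂ (ind (win t i)) (hb k))
          (u (ten (mulOp ℂ (fun s => ep t j s - ind (win t j) s) g) ξ)) := by
        rw [e1, e2, sl_sub_left, ten_sub_left, map_sub, map_sub]
        change sl _ (u (ten _ ξ)) - sl _ (u (ten _ ξ)) = _
        abel
      rw [e3]
      have n1 := norm_add_le (sl (mulOp ℂ (fun s => em t i s - ind (win t i) s) (hb k))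
          (u (ten (mulOp ℂ (ep t j) g) ξ))) (sl (mulOp ℂ (ind (win t i)) (hb k))
          (u (ten (mulOp ℂ (fun s => ep t j s - ind (win t j) s) g) ξ)))
      nlinarith [norm_nonneg (sl (mulOp ℂ (fun s => em t i s - ind (win t i) s) (hb k))
          (u (ten (mulOp ℂ (ep t j) g) ξ)) + sl (mulOp ℂ (ind (win t i)) (hb k))
          (u (ten (mulOp ℂ (fun s => ep t j s - ind (win t j) s) g) ξ))),
        sq_nonneg (‖sl (mulOp ℂ (fun s => em t i s - ind (win t i) s) (hb k))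
          (u (ten (mulOp ℂ (ep t j) g) ξ))‖ - ‖sl (mulOp ℂ (ind (win t i)) (hb k))
          (u (ten (mulOp ℂ (fun s => ep t j s - ind (win t j) s) g) ξ))‖)]
    calc ∑ i ∈ A, ∑ k ∈ B, ‖(sb u t g (i, k, j) - sa u t g (i, k, j)) ξ‖ ^ 2 ≤
        ∑ i ∈ A, ∑ k ∈ B, (2 * ‖sl (mulOp ℂ (fun s => em t i s - ind (win t i) s) (hb k))
          (u (ten (mulOp ℂ (ep t j) g) ξ))‖ ^ 2 +
        2 * ‖sl (mulOp ℂ (ind (win t i)) (hb k))
          (u (ten (mulOp ℂ (fun s => ep t j s - ind (win t j) s) g) ξ))‖ ^ 2) :=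
          Finset.sum_le_sum fun i _ => Finset.sum_le_sum fun k _ => hpt i k
      _ = 2 * ∑ i ∈ A, ∑ k ∈ B, ‖sl (mulOp ℂ (fun s => em t i s - ind (win t i) s) (hb k))
          (u (ten (mulOp ℂ (ep t j) g) ξ))‖ ^ 2 +
        2 * ∑ i ∈ A, ∑ k ∈ B, ‖sl (mulOp ℂ (ind (win t i)) (hb k))
          (u (ten (mulOp ℂ (fun s => ep t j s - ind (win t j) s) g) ξ))‖ ^ 2 := by
          simp only [Finset.sum_add_distrib, Finset.mul_sum]
      _ ≤ _ := by linarith
  refine (Finset.sum_le_sum h1).trans ?_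
  rw [Finset.sum_add_distrib, ← Finset.mul_sum, ← Finset.mul_sum]
  have c1 := bessel_mul ht A' (fun j => ep_bm ht j) (fun j s h => ep_of_notMem h)
    (Real.exp_pos t).le (fun j s => ep_norm ht j s) g
  have c2 := bessel_mul ht A' (μ := fun j s => ep t j s - ind (win t j) s) (fun j => by
      have := (ep_bm ht j).add ((ind_bm (win_meas t j)).constMul (-1))
      simpa [sub_eq_add_neg] using this)
    (fun j s h => by rw [ep_of_notMem h, ind_of_notMem h, sub_zero])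
    (by positivity : 0 ≤ t * Real.exp t) (fun j s => ep_sub_norm ht j s) g
  have hg : 0 ≤ ‖g‖ ^ 2 := by positivity
  have ht2 : 0 ≤ t ^ 2 := by positivity
  have c3 : Real.exp t ^ 2 * ‖g‖ ^ 2 ≤ 3 * ‖g‖ ^ 2 := by gcongr
  have c4 : (t * Real.exp t) ^ 2 * ‖g‖ ^ 2 ≤ 3 * t ^ 2 * ‖g‖ ^ 2 := by
    rw [mul_pow]
    have : t ^ 2 * Real.exp t ^ 2 ≤ 3 * t ^ 2 := by nlinarith
    gcongr
  nlinarith [mul_nonneg ht2 hg]

end Pool.Agent.Helper23
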