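import Pool.Agent.Helper4.LbAl
import Pool.Agent.Helper94.LbBicent
import Pool.Agent.Helper53.PG.B2
import Pool.Agent.Helper19.APSmooth

/-!
# The smoothing lemma without the balance condition
-/

open scoped InnerProductSpace Topology
open ContinuousLinearMap Filter

namespace Pool.Agent.Helper23

variable {H : Type*} [NormedAddCommGroup H] [InnerProductSpace ℂ H] [CompleteSpace H]
variable {M N : VonNeumannAlgebra H} {ξ : H} {E : (H →L[ℂ] H) → (H →L[ℂ] H)}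

theorem AP.smoothing' (S : AP M N E ξ) {y : H →L[ℂ] H} (hy : y ∈ Qalg M N ξ) {κ K : ℝ}
    (hκ : 0 < κ) (hK : 0 ≤ K)
    (hLB : LB N ξ y κ K) {ι : Type*} [Fintype ι] {c c' : ι → H →L[ℂ] H}
    (hc : ∀ l, Partner N ξ (c l) (c' l)) {G t : ℝ} (hG : 0 < G) (ht : 0 < t) (ht1 : t < 1)
    (hm : ∑ l, ‖c l ξ‖ ^ 2 ≤ G) (hδ : ∑ l, ‖(c' l - c l) ξ‖ ^ 2 ≤ 25 * t ^ 2 * G)
    {n : ℕ} (hn : 0 < n) (hnδ : K * ((1 + 2 * t ^ 2) ^ n - 1) ≤ κ) :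
    ∃ z ∈ Qalg M N ξ, ‖(z - y) ξ‖ ^ 2 ≤ 2 * κ ∧
      ∑ l, ‖(z * c l - c l * z) ξ‖ ^ 2 ≤ 96 * G * κ / n :=
  Helper53.PG.smoothing'_of S hκ hK
    (fun _ _ _ _ hc _ _ hm₀ hm hδ hbal _ hn hnδ =>
      S.smoothing hy hκ hK hLB hc hm₀ hm hδ hbal hn hnδ) hc hG ht ht1 hm hδ hn hnδ

end Pool.Agent.Helper23
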