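import Pool.Agent.Helper23.Pin2
import Pool.Agent.Helper23.Smooth

/-!
# The pinching argument
-/

open scoped InnerProductSpace Topology ENNReal
open ContinuousLinearMap Filter MeasureTheory

namespace Pool.Agent.Helper23

variable {H : Type*} [NormedAddCommGroup H] [InnerProductSpace ℂ H] [CompleteSpace H]
variable {M N : VonNeumannAlgebra H} {ξ : H} {E : (H →L[ℂ] H) → (H →L[ℂ] H)}

namespace AP

variable (S : AP M N E ξ)
include S

lemma Gam_pow {γ : ℝ} (hγ : γ ∈ Gam N ξ) (k : ℕ) : γ ^ k ∈ Gam N ξ := by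
  induction k with
  | zero => rw [pow_zero]; exact S.one_mem_Gam
  | succ k ih => rw [pow_succ]; exact S.Gam_mul ih hγ

lemma Gam_zpow {γ : ℝ} (hγ : γ ∈ Gam N ξ) (k : ℤ) : γ ^ k ∈ Gam N ξ := by
  cases k with
  | ofNat k => exact S.Gam_pow hγ k
  | negSucc k =>
    rw [zpow_negSucc]
    exact Gam_inv (S.Gam_pow hγ _)

omit S in
/-- compression by coisometric eigenoperators -/
lemma norm_comp (S : Setting M N E ξ) {γ : ℝ} {v w x : H →L[ℂ] H} (hv : v * star v = 1)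
    (hw : w ∈ eig N ξ γ) (hw1 : w * star w = 1) (hx : x ∈ M) :
    ‖(star v * x * w) ξ‖ ^ 2 = γ * ‖x ξ‖ ^ 2 := by
  have e1 : (star v * x * w) ξ = (star v) (x (w ξ)) := rfl
  rw [e1, norm_of_isom (by rw [star_star]; exact hv)]
  have h := S.norm_right_eig_sq hw hx
  rw [hw1, one_apply_eq_self, inner_self_eq_norm_sq_to_K] at h
  apply Complex.ofReal_injective
  rw [h]
  push_cast
  rfl

/-- the core estimate -/
theorem core {u : L2R H →L[ℂ] L2R H} (hu : u ∈ GK N ξ) {y : H →L[ℂ] H} (hy : y ∈ Qalg M N ξ)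
    {κ K : ℝ} (hκ : 0 < κ) (hK : 0 ≤ K) (hLB : LB N ξ y κ K) {γ₀ : ℝ} (hγ : γ₀ ∈ Gam N ξ)
    (h1 : 1 < γ₀) (ht1 : Real.log γ₀ ≤ 1 / 2) (m : ℕ) {g : L2R ℂ} (hg0 : g ≠ 0)
    (B : Finset hw) {n : ℕ} (hn : 0 < n)
    (hnδ : K * ((1 + 2 * Real.log γ₀ ^ 2) ^ n - 1) ≤ κ) :
    ∃ z ∈ Qalg M N ξ, ‖(z - y) ξ‖ ^ 2 ≤ 2 * κ ∧
      ∑ j ∈ Finset.Ico (-(m : ℤ)) m, ∑ i ∈ Finset.Ico (-(m : ℤ)) m, ∑ k ∈ B,
        ‖(al M N ξ (γ₀ ^ (i - m)) z * sa u (Real.log γ₀) g (i, k, j) -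
          sa u (Real.log γ₀) g (i, k, j) * al M N ξ (γ₀ ^ (j - m)) z) ξ‖ ^ 2 ≤
        96 * ‖g‖ ^ 2 * κ / n := by
  classical
  set t := Real.log γ₀ with ht
  have ht0 : 0 < t := Real.log_pos h1
  have hγ0 : 0 < γ₀ := hγ.1
  set ga : ℤ → ℝ := fun i => γ₀ ^ (i - m) with hga
  have hgaG : ∀ i, ga i ∈ Gam N ξ := fun i => S.Gam_zpow hγ _
  have hga0 : ∀ i, 0 < ga i := fun i => (hgaG i).1
  choose v hv hv1 hvξ hvi hvc using fun i => S.exists_contr (hgaG i)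
  set A := Finset.Ico (-(m : ℤ)) m with hA
  have hAle : ∀ i ∈ A, ga i ≤ 1 := by
    intro i hi
    rw [hA, Finset.mem_Ico] at hi
    exact zpow_le_one_of_nonpos₀ h1.le (by omega)
  have hco : ∀ i ∈ A, v i * star (v i) = 1 := fun i hi => hvc i (hAle i hi)
  -- the family
  set a := sa u t g with ha
  set b := sb u t g with hb
  have haN : ∀ l, a l ∈ N := fun l => slX_mem hu.1 _ _
  have hbN : ∀ l, b l ∈ N := fun l => slX_mem hu.1 _ _
  set T : Finset (ℤ × hw × ℤ) := A ×ˢ B ×ˢ A with hT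
  have hTmem : ∀ l ∈ T, l.1 ∈ A ∧ l.2.2 ∈ A := by
    intro l hl
    rw [hT, Finset.mem_product, Finset.mem_product] at hl
    exact ⟨hl.1, hl.2.2⟩
  set c : ℤ × hw × ℤ → H →L[ℂ] H := fun l =>
    (((Real.sqrt (ga l.2.2))⁻¹ : ℝ) : ℂ) • (star (v l.1) * a l * v l.2.2) with hc
  set c' : ℤ × hw × ℤ → H →L[ℂ] H := fun l =>
    (((Real.sqrt (ga l.2.2))⁻¹ : ℝ) : ℂ) • (star (v l.1) * b l * v l.2.2) with hc'
  have hnorm : ∀ l ∈ T, ∀ x ∈ M, ‖((((Real.sqrt (ga l.2.2))⁻¹ : ℝ) : ℂ) •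
      (star (v l.1) * x * v l.2.2)) ξ‖ ^ 2 = ‖x ξ‖ ^ 2 := by
    intro l hl x hx
    rw [smul_apply, norm_smul, mul_pow, norm_comp S.toSetting (hco _ (hTmem l hl).1) (hv l.2.2)
      (hco _ (hTmem l hl).2) hx, Complex.norm_real, Real.norm_of_nonneg (by positivity), inv_pow,
      Real.sq_sqrt (hga0 _).le, ← mul_assoc, inv_mul_cancel₀ (hga0 _).ne', one_mul]
  have hpart : ∀ l, Partner N ξ (c l) (c' l) := by
    intro l
    have p1 := Partner.of_eig (inv_ne_zero (hga0 l.1).ne') (eig_star (hga0 l.1).ne' (hv l.1))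
    have p2 := partner_sa hu ht0 g l
    have p3 := Partner.of_eig (hga0 l.2.2).ne' (hv l.2.2)
    have p4 := Partner.smul (((Real.sqrt (ga l.2.2))⁻¹ : ℝ) : ℂ) ((p1.mul p2).mul p3)
    have e1 : (((Real.sqrt (ga l.2.2))⁻¹ : ℝ) : ℂ) •
        (((((ga l.1)⁻¹)⁻¹ : ℝ) : ℂ) • star (v l.1) *
          (((Real.exp ((l.2.2 - l.1) * t) : ℝ) : ℂ) • sb u t g l) *
          ((((ga l.2.2)⁻¹ : ℝ) : ℂ) • v l.2.2)) = c' l := by
      rw [hc']
      simp only [smul_mul_assoc, mul_smul_comm, smul_smul]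
      congr 1
      rw [← Complex.ofReal_mul, ← Complex.ofReal_mul, ← Complex.ofReal_mul]
      congr 1
      have e2 : ga l.1 = Real.exp ((l.1 - m) * t) := by
        rw [hga, ht]
        simp only
        rw [← Real.rpow_intCast, Real.rpow_def_of_pos hγ0]
        push_cast
        ring_nf
      have e3 : ga l.2.2 = Real.exp ((l.2.2 - m) * t) := by
        rw [hga, ht]
        simp only
        rw [← Real.rpow_intCast, Real.rpow_def_of_pos hγ0]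
        push_cast
        ring_nf
      have e4 : (ga l.2.2)⁻¹ * (Real.exp ((l.2.2 - l.1) * t) * (ga l.1)⁻¹⁻¹) = 1 := by
        rw [inv_inv, e2, e3, ← Real.exp_neg, ← Real.exp_add, ← Real.exp_add]
        rw [Real.exp_eq_one_iff]
        ring
      calc _ = (Real.sqrt (ga l.2.2))⁻¹ *
            ((ga l.2.2)⁻¹ * (Real.exp ((l.2.2 - l.1) * t) * (ga l.1)⁻¹⁻¹)) := by ring
        _ = (Real.sqrt (ga l.2.2))⁻¹ := by rw [e4, mul_one]
    rw [e1] at p4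
    exact p4
  have hsum : ∀ f : ℤ × hw × ℤ → ℝ, ∑ l : T, f l =
      ∑ j ∈ A, ∑ i ∈ A, ∑ k ∈ B, f (i, k, j) := by
    intro f
    rw [Finset.sum_coe_sort T f, hT, Finset.sum_product, Finset.sum_comm (s := A) (t := A)]
    refine Finset.sum_congr rfl fun i _ => ?_
    rw [Finset.sum_product, Finset.sum_comm]
  have hm : ∑ l : T, ‖c l ξ‖ ^ 2 ≤ ‖g‖ ^ 2 := by
    have e1 : ∑ l : T, ‖c l ξ‖ ^ 2 = ∑ l : T, ‖a l ξ‖ ^ 2 :=
      Finset.sum_congr rfl fun l _ => hnorm l l.2 _ (S.le _ (haN l))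
    rw [e1, hsum (fun l => ‖a l ξ‖ ^ 2)]
    exact sum_sa hu.2.1 S.norm_one ht0 g A A B
  have hδ : ∑ l : T, ‖(c' l - c l) ξ‖ ^ 2 ≤ 25 * t ^ 2 * ‖g‖ ^ 2 := by
    have e1 : ∑ l : T, ‖(c' l - c l) ξ‖ ^ 2 = ∑ l : T, ‖(b l - a l) ξ‖ ^ 2 := by
      refine Finset.sum_congr rfl fun l _ => ?_
      rw [← hnorm l l.2 _ (sub_mem (S.le _ (hbN l)) (S.le _ (haN l)))]
      congr 3
      rw [hc, hc', mul_sub, sub_mul, smul_sub]
    rw [e1, hsum (fun l => ‖(b l - a l) ξ‖ ^ 2)]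
    exact sum_sb hu.2.1 S.norm_one ht0 ht1 g A A B
  obtain ⟨z, hz, hzy, hzc⟩ := S.smoothing' hy hκ hK hLB (ι := T) (c := fun l => c l)
    (c' := fun l => c' l) (fun l => hpart l) (by positivity : 0 < ‖g‖ ^ 2) ht0 (by linarith)
    hm hδ hn hnδ
  refine ⟨z, hz, hzy, ?_⟩
  have e1 : ∑ l : T, ‖(z * c l - c l * z) ξ‖ ^ 2 = ∑ l : T,
      ‖(al M N ξ (ga (l : ℤ × hw × ℤ).1) z * a l - a l * al M N ξ (ga (l : ℤ × hw × ℤ).2.2) z) ξ‖ ^ 2 := by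
    refine Finset.sum_congr rfl fun l _ => ?_
    have hzi := (mem_Qalg.1 (S.al_mem (hgaG (l : ℤ × hw × ℤ).1) hz)).1
    have hzj := (mem_Qalg.1 (S.al_mem (hgaG (l : ℤ × hw × ℤ).2.2) hz)).1
    rw [← hnorm l l.2 _ (sub_mem (mul_mem hzi (S.le _ (haN l))) (mul_mem (S.le _ (haN l)) hzj))]
    congr 3
    have r1 : star (v (l : ℤ × hw × ℤ).1) * al M N ξ (ga (l : ℤ × hw × ℤ).1) z =
        z * star (v (l : ℤ × hw × ℤ).1) :=
      Rel.adj S.irr (hga0 _).ne' (hgaG _).2 (S.al_mem (hgaG _) hz) (S.al_rel (hgaG _) hz)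
        (eig_star (hga0 _).ne' (hv _))
    have r2 : v (l : ℤ × hw × ℤ).2.2 * z =
        al M N ξ (ga (l : ℤ × hw × ℤ).2.2) z * v (l : ℤ × hw × ℤ).2.2 :=
      S.al_rel (hgaG _) hz _ (hv _)
    rw [hc]
    simp only
    rw [mul_smul_comm, smul_mul_assoc, ← smul_sub]
    congr 1
    rw [mul_sub, sub_mul]
    congr 1
    · rw [← mul_assoc, ← mul_assoc, ← r1]
      simp only [mul_assoc]
    · rw [mul_assoc, r2]
      simp only [mul_assoc]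
  rw [e1, hsum (fun l => ‖(al M N ξ (ga l.1) z * a l - a l * al M N ξ (ga l.2.2) z) ξ‖ ^ 2)] at hzc
  exact hzc

end AP

end Pool.Agent.Helper23
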