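import Pool.Agent.Helper23.Pin3

/-!
# Commutation of the bicentralizer with the centralizer of the weight
-/

open scoped InnerProductSpace Topology ENNReal
open ContinuousLinearMap Filter MeasureTheory

namespace Pool.Agent.Helper23

variable {H : Type*} [NormedAddCommGroup H] [InnerProductSpace ℂ H] [CompleteSpace H]
variable {M N : VonNeumannAlgebra H} {ξ : H} {E : (H →L[ℂ] H) → (H →L[ℂ] H)}

lemma mulOp_inner_self {I : Set ℝ} (hI : MeasurableSet I) (V : L2R H) :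
    ⟪V, mulOp H (ind I) V⟫_ℂ = ((‖mulOp H (ind I) V‖ ^ 2 : ℝ) : ℂ) := by
  have h1 : mulOp H (ind I) (mulOp H (ind I) V) = mulOp H (ind I) V :=
    congrArg (fun T : L2R H →L[ℂ] L2R H => T V) (mulOp_ind_sq hI)
  have h2 := mulOp_adj (ind_bm hI) V (mulOp H (ind I) V)
  rw [ind_conj, h1] at h2
  rw [← h2, inner_self_eq_norm_sq_to_K]
  norm_cast

lemma norm_mulOp_ind_le {I : Set ℝ} (V : L2R H) : ‖mulOp H (ind I) V‖ ≤ ‖V‖ := by
  have h1 : ‖mulOp H (ind I)‖ ≤ 1 := by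
    refine dec_norm zero_le_one fun s => ?_
    refine (norm_smul_le _ _).trans ?_
    calc ‖ind I s‖ * ‖(1 : H →L[ℂ] H)‖ ≤ 1 * 1 := by
          gcongr
          · exact ind_norm_le I s
          · exact norm_id_le
      _ = 1 := mul_one 1
  have := (mulOp H (ind I)).le_of_opNorm_le h1 V
  rwa [one_mul] at this

/-- windows cover the cut-off -/
lemma norm_le_win {t : ℝ} (ht : 0 < t) {m L : ℕ} (hL : (L : ℝ) ≤ m * t) (D : L2R H) :
    ‖D‖ ^ 2 ≤ ∑ i ∈ Finset.Ico (-(m : ℤ)) m, ‖mulOp H (ind (win t i)) D‖ ^ 2 +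
      ‖D - mulOp H (ind (Set.Ico (-(L : ℝ)) L)) D‖ ^ 2 := by
  set I := Set.Ico (-(L : ℝ)) L with hI
  have hIm : MeasurableSet I := measurableSet_Ico
  set V := mulOp H (ind I) D with hV
  have hVV : mulOp H (ind I) V = V :=
    congrArg (fun T : L2R H →L[ℂ] L2R H => T D) (mulOp_ind_sq hIm)
  -- Pythagoras
  have h1 : ‖D‖ ^ 2 = ‖V‖ ^ 2 + ‖D - V‖ ^ 2 := by
    have e1 : ⟪V, D - V⟫_ℂ = 0 := by
      have h2 := mulOp_adj (ind_bm hIm) D (D - V)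
      rw [ind_conj, map_sub, hVV, ← hV, sub_self, inner_zero_right] at h2
      exact h2
    have e2 : D = V + (D - V) := by abel
    conv_lhs => rw [e2]
    have := norm_add_sq_eq_norm_sq_add_norm_sq_of_inner_eq_zero (𝕜 := ℂ) V (D - V) e1
    rw [sq, sq, sq]
    exact this
  rw [h1]
  gcongr
  -- decomposition of `V`
  have h2 : ∑ i ∈ Finset.Ico (-(m : ℤ)) m, mulOp H (ind (win t i)) V = V := by
    refine sum_win ht ?_
    filter_upwards [mulOp_coe (ind_bm hIm) D] with s hs h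
    rw [hs, ind_of_notMem, zero_smul]
    intro hcon
    refine h ⟨?_, ?_⟩
    · linarith [hcon.1]
    · linarith [hcon.2]
  have h3 : ((‖V‖ ^ 2 : ℝ) : ℂ) = ((∑ i ∈ Finset.Ico (-(m : ℤ)) m,
      ‖mulOp H (ind (win t i)) V‖ ^ 2 : ℝ) : ℂ) := by
    have e1 : ⟪V, V⟫_ℂ = ((‖V‖ ^ 2 : ℝ) : ℂ) := by
      rw [inner_self_eq_norm_sq_to_K]; norm_cast
    have e2 : ⟪V, ∑ i ∈ Finset.Ico (-(m : ℤ)) m, mulOp H (ind (win t i)) V⟫_ℂ = ⟪V, V⟫_ℂ := by
      rw [h2]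
    rw [← e1, ← e2, inner_sum]
    push_cast
    refine Finset.sum_congr rfl fun i _ => ?_
    rw [mulOp_inner_self (win_meas t i)]
    push_cast
    rfl
  have h4 : ‖V‖ ^ 2 = ∑ i ∈ Finset.Ico (-(m : ℤ)) m, ‖mulOp H (ind (win t i)) V‖ ^ 2 := by
    exact_mod_cast h3
  rw [h4]
  refine Finset.sum_le_sum fun i _ => ?_
  have h5 : mulOp H (ind (win t i)) V = mulOp H (ind I) (mulOp H (ind (win t i)) D) := by
    rw [hV, mulOp_mulOp (ind_bm (win_meas t i)) (ind_bm hIm),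
      mulOp_mulOp (ind_bm hIm) (ind_bm (win_meas t i))]
    congr 2
    funext s
    ring
  rw [h5]
  gcongr
  exact norm_mulOp_ind_le _

/-- finite approximation of the Parseval sums -/
lemma exists_finite {t : ℝ} (A : Finset ℤ) (D : L2R H) {ε : ℝ} (hε : 0 < ε) :
    ∃ B : Finset hw, ∑ i ∈ A, ‖mulOp H (ind (win t i)) D‖ ^ 2 ≤
      ∑ i ∈ A, ∑ k ∈ B, ‖sl (mulOp ℂ (ind (win t i)) (hb k)) D‖ ^ 2 + ε := by
  classical
  have h1 : HasSum (fun k : hw => ∑ i ∈ A, ‖sl (hb k) (mulOp H (ind (win t i)) D)‖ ^ 2)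
      (∑ i ∈ A, ‖mulOp H (ind (win t i)) D‖ ^ 2) :=
    hasSum_sum fun i _ => hasSum_sq (mulOp H (ind (win t i)) D)
  have h2 := (h1.eventually (lt_mem_nhds (show ∑ i ∈ A, ‖mulOp H (ind (win t i)) D‖ ^ 2 - ε <
    ∑ i ∈ A, ‖mulOp H (ind (win t i)) D‖ ^ 2 by linarith))).exists
  obtain ⟨B, hB⟩ := h2
  refine ⟨B, ?_⟩
  have h3 : ∑ k ∈ B, ∑ i ∈ A, ‖sl (hb k) (mulOp H (ind (win t i)) D)‖ ^ 2 =
      ∑ i ∈ A, ∑ k ∈ B, ‖sl (mulOp ℂ (ind (win t i)) (hb k)) D‖ ^ 2 := by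
    rw [Finset.sum_comm]
    refine Finset.sum_congr rfl fun i _ => Finset.sum_congr rfl fun k _ => ?_
    rw [sl_mulOp' (ind_bm (win_meas t i)), ind_conj]
  rw [← h3]
  linarith

/-- the block diagonal operator -/
noncomputable def blk (t : ℝ) (A : Finset ℤ) (z : ℤ → H →L[ℂ] H) : L2R H →L[ℂ] L2R H :=
  ∑ i ∈ A, mulOp H (ind (win t i)) * lift (z i)

lemma blk_win {t : ℝ} (ht : 0 < t) {A : Finset ℤ} {z : ℤ → H →L[ℂ] H} {i : ℤ} (hi : i ∈ A)
    (F : L2R H) : mulOp H (ind (win t i)) (blk t A z F) =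
      mulOp H (ind (win t i)) (lift (z i) F) := by
  rw [blk, sum_apply, map_sum, Finset.sum_eq_single_of_mem i hi]
  · change mulOp H (ind (win t i)) (mulOp H (ind (win t i)) (lift (z i) F)) = _
    rw [mulOp_mulOp (ind_bm (win_meas t i)) (ind_bm (win_meas t i)), ind_sq]
  · intro j _ hj
    exact congrArg (fun T : L2R H →L[ℂ] L2R H => T (lift (z j) F))
      (mulOp_ind_mul (H := H) (win_meas t i) (win_meas t j)
        (fun s h1 h2 => hj (win_unique ht h2 h1)))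

lemma blk_ten {t : ℝ} (A : Finset ℤ) (z : ℤ → H →L[ℂ] H) (g : L2R ℂ) (η : H) :
    blk t A z (ten g η) = ∑ j ∈ A, ten (mulOp ℂ (ind (win t j)) g) (z j η) := by
  rw [blk, sum_apply]
  refine Finset.sum_congr rfl fun j _ => ?_
  change mulOp H (ind (win t j)) (lift (z j) (ten g η)) = _
  rw [lift_ten, mulOp_ten (ind_bm (win_meas t j))]

/-- the components of the commutator with the block diagonal operator -/
lemma comp_blk {t : ℝ} (ht : 0 < t) {m : ℕ} {A : Finset ℤ} (hA : A = Finset.Ico (-(m : ℤ)) m)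
    (z : ℤ → H →L[ℂ] H) (u : L2R H →L[ℂ] L2R H) {g : L2R ℂ}
    (hg : ∀ᵐ s, s ∉ Set.Ico (-(m * t)) (m * t) → g s = 0) {i : ℤ} (hi : i ∈ A) (k : hw) :
    sl (mulOp ℂ (ind (win t i)) (hb k)) (u (blk t A z (ten g ξ)) - blk t A z (u (ten g ξ))) =
      ∑ j ∈ A, (sa u t g (i, k, j) * z j - z i * sa u t g (i, k, j)) ξ := by
  have h1 : sl (mulOp ℂ (ind (win t i)) (hb k)) (u (blk t A z (ten g ξ))) =
      ∑ j ∈ A, (sa u t g (i, k, j) * z j) ξ := by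
    rw [blk_ten, map_sum, map_sum]
    rfl
  have hgs : g = ∑ j ∈ A, mulOp ℂ (ind (win t j)) g := by
    rw [hA]
    exact (sum_win ht hg).symm
  have h2 : sl (mulOp ℂ (ind (win t i)) (hb k)) (blk t A z (u (ten g ξ))) =
      ∑ j ∈ A, (z i * sa u t g (i, k, j)) ξ := by
    have e1 : ∀ F : L2R H, sl (mulOp ℂ (ind (win t i)) (hb k)) F =
        sl (hb k) (mulOp H (ind (win t i)) F) := by
      intro F
      rw [sl_mulOp' (ind_bm (win_meas t i)), ind_conj]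
    rw [e1, blk_win ht hi, ← e1, sl_lift]
    have e2 : u (ten g ξ) = ∑ j ∈ A, u (ten (mulOp ℂ (ind (win t j)) g) ξ) := by
      have e3 : ten g ξ = ∑ j ∈ A, ten (mulOp ℂ (ind (win t j)) g) ξ := by
        conv_lhs => rw [hgs]
        exact map_sum (axi ξ) _ _
      rw [e3, map_sum]
    rw [e2, map_sum, map_sum]
    rfl
  rw [map_sub, h1, h2, ← Finset.sum_sub_distrib]
  rfl

namespace AP

variable (S : AP M N E ξ)
include S

/-- local closeness of the block diagonal operator -/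
lemma bet_sub_al {y : H →L[ℂ] H} (hy : InB M N ξ y) {κ : ℝ} {γ₀ : ℝ}
    (hγ : γ₀ ∈ Gam N ξ) (m : ℕ) {z : H →L[ℂ] H}
    (hz : z ∈ Qalg M N ξ) (hzy : ‖(z - al M N ξ (γ₀ ^ m) y) ξ‖ ^ 2 ≤ 2 * κ)
    (hmod : ∀ r : ℝ, 0 ≤ r → r < Real.log γ₀ →
      ‖bet M N ξ (Real.exp r) y ξ - y ξ‖ ≤ Real.sqrt κ)
    {i : ℤ} {s : ℝ} (hs : s ∈ win (Real.log γ₀) i) :
    ‖(bet M N ξ (Real.exp s) y - al M N ξ (γ₀ ^ (i - m)) z) ξ‖ ≤
      Real.sqrt κ + Real.sqrt (2 * κ) := by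
  have hγ0 : 0 < γ₀ := hγ.1
  set t := Real.log γ₀ with ht
  have hi : γ₀ ^ i ∈ Gam N ξ := S.Gam_zpow hγ i
  have him : γ₀ ^ (i - m) ∈ Gam N ξ := S.Gam_zpow hγ _
  have hm : γ₀ ^ m ∈ Gam N ξ := S.Gam_pow hγ m
  set r := s - i * t with hr
  have hr0 : 0 ≤ r := by have := hs.1; linarith
  have hr1 : r < t := by have := hs.2; rw [hr]; linarith
  have e1 : bet M N ξ (Real.exp s) y = al M N ξ (γ₀ ^ i) (bet M N ξ (Real.exp r) y) := by
    rw [S.al_bet hy (Real.exp_pos r) hi]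
    congr 1
    rw [← Real.rpow_intCast, Real.rpow_def_of_pos hγ0, ← Real.exp_add, hr, ← ht]
    congr 1
    ring
  have e2 : al M N ξ (γ₀ ^ i) y = al M N ξ (γ₀ ^ (i - m)) (al M N ξ (γ₀ ^ m) y) := by
    rw [S.al_al him hm hy.1]
    congr 1
    rw [← zpow_natCast, ← zpow_add₀ hγ0.ne', sub_add_cancel]
  have hbr := S.bet_memQ hy (Real.exp_pos r)
  have h1 : ‖bet M N ξ (Real.exp s) y ξ - al M N ξ (γ₀ ^ i) y ξ‖ ≤ Real.sqrt κ := by
    rw [e1, S.al_norm_sub hi hbr hy.1]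
    exact hmod r hr0 hr1
  have h2 : ‖al M N ξ (γ₀ ^ i) y ξ - al M N ξ (γ₀ ^ (i - m)) z ξ‖ ≤ Real.sqrt (2 * κ) := by
    rw [e2, S.al_norm_sub him (S.al_mem hm hy.1) hz, norm_sub_rev]
    exact Real.le_sqrt_of_sq_le hzy
  calc ‖(bet M N ξ (Real.exp s) y - al M N ξ (γ₀ ^ (i - m)) z) ξ‖ =
        ‖(bet M N ξ (Real.exp s) y ξ - al M N ξ (γ₀ ^ i) y ξ) +
          (al M N ξ (γ₀ ^ i) y ξ - al M N ξ (γ₀ ^ (i - m)) z ξ)‖ := by
          rw [sub_add_sub_cancel]; rfl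
    _ ≤ _ := (norm_add_le _ _).trans (add_le_add h1 h2)

/-- the two error terms -/
lemma err_blk {y : H →L[ℂ] H} (hy : InB M N ξ y) {t : ℝ} (ht : 0 < t) {A : Finset ℤ}
    {z : ℤ → H →L[ℂ] H} (hz : ∀ i, z i ∈ Qalg M N ξ) {e : ℝ} (he : 0 ≤ e)
    (h : ∀ i ∈ A, ∀ s ∈ win t i, ‖(bet M N ξ (Real.exp s) y - z i) ξ‖ ≤ e)
    {F : L2R H} (hF : ∀ᵐ s, F s ∈ K0 N ξ) :
    ∑ i ∈ A, ‖mulOp H (ind (win t i)) (piK M N ξ y F - blk t A z F)‖ ^ 2 ≤
      e ^ 2 * ‖F‖ ^ 2 := by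
  have h1 : ∀ i ∈ A, ‖mulOp H (ind (win t i)) (piK M N ξ y F - blk t A z F)‖ ^ 2 ≤
      e ^ 2 * ‖mulOp H (ind (win t i)) F‖ ^ 2 := by
    intro i hi
    rw [← mul_pow]
    refine pow_le_pow_left₀ (norm_nonneg _) ?_ 2
    rw [map_sub, blk_win ht hi]
    refine Lp.norm_le_mul_norm_of_ae_le_mul ?_
    filter_upwards [Lp.coeFn_sub (mulOp H (ind (win t i)) (piK M N ξ y F))
      (mulOp H (ind (win t i)) (lift (z i) F)), mulOp_coe (ind_bm (win_meas t i)) (piK M N ξ y F),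
      mulOp_coe (ind_bm (win_meas t i)) (lift (z i) F), S.piK_coe hy F, lift_coe (z i) F,
      mulOp_coe (ind_bm (win_meas t i)) F, hF] with s e1 e2 e3 e4 e5 e6 e7
    rw [e1, Pi.sub_apply, e2, e3, e4, e5, e6, ← smul_sub, norm_smul, norm_smul]
    by_cases hs : s ∈ win t i
    · rw [ind_of_mem hs, norm_one, one_mul, one_mul, ← sub_apply,
        S.norm_QK S.irr (sub_mem (S.bet_memQ hy (Real.exp_pos s)) (hz i)) e7]
      gcongr
      exact h i hi s hs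
    · rw [ind_of_notMem hs, norm_zero, zero_mul, zero_mul, mul_zero]
  refine (Finset.sum_le_sum h1).trans ?_
  rw [← Finset.mul_sum]
  gcongr
  exact bessel_win ht A F

omit S in
/-- choice of the number of steps -/
lemma exists_steps {κ K : ℝ} (hκ : 0 < κ) (hK : 0 ≤ K) {C L : ℝ} (hC : 0 < C) (hL : 0 ≤ L) :
    ∃ t₀ : ℝ, 0 < t₀ ∧ t₀ ≤ 1 / 2 ∧ ∀ t : ℝ, 0 < t → t < t₀ → ∃ n m : ℕ, 0 < n ∧ L ≤ m * t ∧
      K * ((1 + 2 * t ^ 2) ^ n - 1) ≤ κ ∧ C * m ≤ n := by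
  set η : ℝ := min (1 / 2) (κ / (2 * K + 1)) with hη
  have hη0 : 0 < η := by positivity
  have hη1 : η ≤ 1 / 2 := min_le_left _ _
  have hη2 : η ≤ κ / (2 * K + 1) := min_le_right _ _
  refine ⟨min (1 / 2) (min (η / 4) (η / (4 * C * (L + 1)))), by positivity, min_le_left _ _,
    fun t ht htt => ?_⟩
  have ht1 : t ≤ 1 / 2 := (htt.le).trans (min_le_left _ _)
  have ht2 : t ≤ η / 4 := (htt.le).trans ((min_le_right _ _).trans (min_le_left _ _))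
  have ht3 : t ≤ η / (4 * C * (L + 1)) := (htt.le).trans ((min_le_right _ _).trans
    (min_le_right _ _))
  have h4 : 4 * t ^ 2 ≤ η := by nlinarith
  have ht2' : 0 < t ^ 2 := by positivity
  have h5 : 1 ≤ η / (4 * t ^ 2) := by rw [le_div_iff₀ (by positivity)]; linarith
  have h6 : η / (2 * t ^ 2) = 2 * (η / (4 * t ^ 2)) := by field_simp; norm_num
  have hn1 : (⌊η / (2 * t ^ 2)⌋₊ : ℝ) ≤ η / (2 * t ^ 2) := Nat.floor_le (by positivity)
  have hn2 : η / (2 * t ^ 2) < ⌊η / (2 * t ^ 2)⌋₊ + 1 := Nat.lt_floor_add_one _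
  refine ⟨⌊η / (2 * t ^ 2)⌋₊, ⌈L / t⌉₊, ?_, ?_, ?_, ?_⟩
  · rw [Nat.floor_pos]; linarith
  · have := Nat.le_ceil (L / t)
    rwa [div_le_iff₀ ht] at this
  · have e1 : (1 + 2 * t ^ 2) ^ ⌊η / (2 * t ^ 2)⌋₊ ≤ Real.exp η := by
      calc (1 + 2 * t ^ 2) ^ ⌊η / (2 * t ^ 2)⌋₊ ≤ Real.exp (2 * t ^ 2) ^ ⌊η / (2 * t ^ 2)⌋₊ := by
            gcongr
            have := Real.add_one_le_exp (2 * t ^ 2)
            linarith
        _ = Real.exp (⌊η / (2 * t ^ 2)⌋₊ * (2 * t ^ 2)) := by rw [← Real.exp_nat_mul]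
        _ ≤ Real.exp η := by
            refine Real.exp_le_exp.2 ?_
            rwa [← le_div_iff₀ (by positivity)]
    have e2 : Real.exp η - 1 ≤ 2 * η := by
      have := Real.abs_exp_sub_one_le (x := η) (by rw [abs_of_pos hη0]; linarith)
      rw [abs_of_pos hη0] at this
      exact (le_abs_self _).trans this
    calc K * ((1 + 2 * t ^ 2) ^ ⌊η / (2 * t ^ 2)⌋₊ - 1) ≤ K * (2 * η) := by gcongr; linarith
      _ ≤ K * (2 * (κ / (2 * K + 1))) := by gcongr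
      _ ≤ κ := by
        rw [← mul_div_assoc, ← mul_div_assoc, div_le_iff₀ (by positivity)]
        nlinarith
  · have hm : (⌈L / t⌉₊ : ℝ) ≤ (L + 1) / t := by
      have h1 := Nat.ceil_lt_add_one (show 0 ≤ L / t by positivity)
      have h2 : (1 : ℝ) ≤ 1 / t := by rw [le_div_iff₀ ht]; linarith
      rw [add_div]
      linarith
    have h7 : C * ((L + 1) / t) ≤ η / (4 * t ^ 2) := by
      rw [le_div_iff₀ (by positivity)] at ht3 ⊢
      have : C * ((L + 1) / t) * (4 * t ^ 2) = t * (4 * C * (L + 1)) := by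
        field_simp
      rw [this]
      exact ht3
    have h8 : C * (⌈L / t⌉₊ : ℝ) ≤ C * ((L + 1) / t) := by gcongr
    linarith

end AP

end Pool.Agent.Helper23
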