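import Pool.Agent.Helper23.Rk

/-!
# Polarization of the invariance of the weight
-/

open scoped InnerProductSpace Topology ENNReal
open ContinuousLinearMap Filter MeasureTheory

set_option linter.unusedSectionVars false
set_option linter.unusedVariables false

namespace Pool.Agent.Helper23

variable {H : Type*} [NormedAddCommGroup H] [InnerProductSpace ℂ H] [CompleteSpace H]
variable {M N : VonNeumannAlgebra H} {ξ : H} {E : (H →L[ℂ] H) → (H →L[ℂ] H)}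

lemma hasSum_TT {W : L2R H →L[ℂ] L2R H} (h : SX ξ W ≠ ⊤) :
    HasSum (fun j : JJ => (((‖W (ten (gJ j) ξ)‖ : ℝ) : ℂ)) ^ 2) (((SX ξ W).toReal : ℝ) : ℂ) := by
  rw [SX_def] at h
  have h1 := ENNReal.hasSum_toReal h
  rw [← ENNReal.tsum_toReal_eq (fun j => ENNReal.ofReal_ne_top)] at h1
  have h2 : (fun j : JJ => (ENNReal.ofReal (‖W (ten (gJ j) ξ)‖ ^ 2)).toReal) =
      fun j => ‖W (ten (gJ j) ξ)‖ ^ 2 := by
    funext j
    exact ENNReal.toReal_ofReal (by positivity)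
  rw [h2, ← SX_def] at h1
  have h3 := Complex.hasSum_ofReal.2 h1
  have h4 : (fun j : JJ => (((‖W (ten (gJ j) ξ)‖ : ℝ) : ℂ)) ^ 2) =
      fun j : JJ => ((‖W (ten (gJ j) ξ)‖ ^ 2 : ℝ) : ℂ) := by
    funext j
    push_cast
    rfl
  rw [h4]
  exact h3

lemma SX_add_ne_top {W Z : L2R H →L[ℂ] L2R H} (hW : SX ξ W ≠ ⊤) (hZ : SX ξ Z ≠ ⊤) :
    SX ξ (W + Z) ≠ ⊤ := by
  have h1 : SX ξ (W + Z) ≤ 2 * (SX ξ W + SX ξ Z) := by
    rw [SX_def, SX_def, SX_def, ← ENNReal.tsum_add, ← ENNReal.tsum_mul_left]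
    refine ENNReal.tsum_le_tsum fun j => ?_
    rw [← ENNReal.ofReal_add (by positivity) (by positivity), two_mul_ofReal]
    refine ENNReal.ofReal_le_ofReal ?_
    rw [add_apply]
    have h2 := parallelogram_law_with_norm ℂ (W (ten (gJ j) ξ)) (Z (ten (gJ j) ξ))
    nlinarith [sq_nonneg (‖W (ten (gJ j) ξ) - Z (ten (gJ j) ξ)‖)]
  refine ne_top_of_le_ne_top ?_ h1
  exact ENNReal.mul_ne_top (by norm_num) (ENNReal.add_ne_top.2 ⟨hW, hZ⟩)

lemma SX_smul (c : ℂ) (W : L2R H →L[ℂ] L2R H) :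
    SX ξ (c • W) = ENNReal.ofReal (‖c‖ ^ 2) * SX ξ W := by
  rw [SX_def, SX_def, ← ENNReal.tsum_mul_left]
  refine tsum_congr fun j => ?_
  rw [smul_apply, norm_smul, mul_pow, ENNReal.ofReal_mul (by positivity)]

lemma SX_smul_ne_top (c : ℂ) {W : L2R H →L[ℂ] L2R H} (hW : SX ξ W ≠ ⊤) : SX ξ (c • W) ≠ ⊤ := by
  rw [SX_smul]
  exact ENNReal.mul_ne_top ENNReal.ofReal_ne_top hW

/-- polarized sums -/
lemma hasSum_polar {Z Y : L2R H →L[ℂ] L2R H} (hZ : SX ξ Z ≠ ⊤) (hY : SX ξ Y ≠ ⊤) :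
    HasSum (fun j : JJ => ⟪Z (ten (gJ j) ξ), Y (ten (gJ j) ξ)⟫_ℂ)
      (((((SX ξ (Z + Y)).toReal : ℝ) : ℂ) - (((SX ξ (Z + (-1 : ℂ) • Y)).toReal : ℝ) : ℂ) +
        ((((SX ξ (Z + (-Complex.I) • Y)).toReal : ℝ) : ℂ) -
          (((SX ξ (Z + Complex.I • Y)).toReal : ℝ) : ℂ)) * Complex.I) / 4) := by
  have h1 := hasSum_TT (SX_add_ne_top hZ hY)
  have h2 := hasSum_TT (SX_add_ne_top hZ (SX_smul_ne_top (-1) hY))
  have h3 := hasSum_TT (SX_add_ne_top hZ (SX_smul_ne_top (-Complex.I) hY))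
  have h4 := hasSum_TT (SX_add_ne_top hZ (SX_smul_ne_top Complex.I hY))
  have h5 := ((h1.sub h2).add ((h3.sub h4).mul_right Complex.I)).div_const 4
  have h6 : (fun j : JJ => ⟪Z (ten (gJ j) ξ), Y (ten (gJ j) ξ)⟫_ℂ) = fun j : JJ =>
      ((((‖(Z + Y) (ten (gJ j) ξ)‖ : ℝ) : ℂ)) ^ 2 -
        (((‖(Z + (-1 : ℂ) • Y) (ten (gJ j) ξ)‖ : ℝ) : ℂ)) ^ 2 +
        ((((‖(Z + (-Complex.I) • Y) (ten (gJ j) ξ)‖ : ℝ) : ℂ)) ^ 2 -
          (((‖(Z + Complex.I • Y) (ten (gJ j) ξ)‖ : ℝ) : ℂ)) ^ 2) * Complex.I) / 4 := by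
    funext j
    rw [inner_eq_sum_norm_sq_div_four]
    simp only [add_apply, smul_apply, neg_smul, one_smul, ← sub_eq_add_neg]
    rfl
  rw [h6]
  exact h5

/-- the polarized invariance -/
lemma polar_inv {u : L2R H →L[ℂ] L2R H} (hu : u ∈ GK N ξ) {Z Y : L2R H →L[ℂ] L2R H}
    (hZA : Z ∈ amp N) (hYA : Y ∈ amp N) (hZ : SX ξ Z ≠ ⊤) (hY : SX ξ Y ≠ ⊤) :
    ∑' j : JJ, ⟪(Z * u) (ten (gJ j) ξ), (Y * u) (ten (gJ j) ξ)⟫_ℂ =
      ∑' j : JJ, ⟪Z (ten (gJ j) ξ), Y (ten (gJ j) ξ)⟫_ℂ := by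
  have hZu : SX ξ (Z * u) ≠ ⊤ := by rw [hu.2.2.2 Z hZA]; exact hZ
  have hYu : SX ξ (Y * u) ≠ ⊤ := by rw [hu.2.2.2 Y hYA]; exact hY
  rw [(hasSum_polar hZ hY).tsum_eq, (hasSum_polar hZu hYu).tsum_eq]
  have h1 : ∀ c : ℂ, Z * u + c • (Y * u) = (Z + c • Y) * u := by
    intro c; rw [add_mul, smul_mul_assoc]
  have h2 : Z * u + Y * u = (Z + Y) * u := by rw [add_mul]
  rw [h1, h1, h1, h2, hu.2.2.2 _ (add_mem hZA hYA),
    hu.2.2.2 _ (add_mem hZA (smul_mem' _ hYA)), hu.2.2.2 _ (add_mem hZA (smul_mem' _ hYA)),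
    hu.2.2.2 _ (add_mem hZA (smul_mem' _ hYA))]

/-- cut off exponential on `[-n, n)` -/
noncomputable def he (n : ℕ) (s : ℝ) : ℂ :=
  Set.indicator (Set.Ico (-(n : ℝ)) n) (fun s => ((Real.exp s : ℝ) : ℂ)) s

lemma he_bm (n : ℕ) : BM (he n) := by
  refine ⟨?_, Real.exp n, by positivity, fun s => ?_⟩
  · exact (by fun_prop : Measurable fun s : ℝ => ((Real.exp s : ℝ) : ℂ)).indicator
      measurableSet_Ico
  · by_cases h : s ∈ Set.Ico (-(n : ℝ)) n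
    · rw [he, Set.indicator_of_mem h, Complex.norm_real, Real.norm_of_nonneg (by positivity)]
      exact Real.exp_le_exp.2 h.2.le
    · rw [he, Set.indicator_of_notMem h, norm_zero]
      positivity

/-- the cut off projection on `L²(ℝ)` -/
noncomputable def Pn (n : ℕ) : L2R ℂ →L[ℂ] L2R ℂ := mulOp ℂ (ind (Set.Ico (-(n : ℝ)) n))

lemma sum_dm (n : ℕ) (s : ℝ) : ∑ m ∈ Finset.Ico (-(n : ℤ)) n, dm m s * dm m s = he n s := by
  by_cases h : s ∈ Set.Ico (-(n : ℝ)) n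
  · rw [he, Set.indicator_of_mem h]
    have hk : ⌊s⌋ ∈ Finset.Ico (-(n : ℤ)) n := by
      rw [Finset.mem_Ico]
      constructor
      · rw [Int.le_floor]; push_cast; exact h.1
      · rw [Int.floor_lt]; push_cast; exact h.2
    rw [Finset.sum_eq_single ⌊s⌋]
    · rw [dm_of_mem ⟨Int.floor_le s, Int.lt_floor_add_one s⟩, ← Complex.ofReal_mul,
        ← Real.exp_add, add_halves]
    · intro m _ hm
      rw [dm_of_notMem, mul_zero]
      rintro ⟨h2, h3⟩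
      exact hm (Int.floor_eq_iff.2 ⟨h2, h3⟩).symm
    · intro h'; exact absurd hk h'
  · rw [he, Set.indicator_of_notMem h]
    refine Finset.sum_eq_zero fun m hm => ?_
    rw [dm_of_notMem, mul_zero]
    rintro ⟨h2, h3⟩
    apply h
    rw [Finset.mem_Ico] at hm
    have h4 : (-(n : ℝ)) ≤ m := by exact_mod_cast hm.1
    have h5 : (m : ℝ) + 1 ≤ n := by exact_mod_cast hm.2
    exact ⟨h4.trans h2, lt_of_lt_of_le h3 h5⟩

/-- frame sum for cut off functions -/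
lemma frame_tsum {n : ℕ} {f : L2R ℂ} (hf : Pn n f = f) (p : L2R ℂ)
    (hs : Summable (fun j : JJ => ⟪p, gJ j⟫_ℂ * ⟪gJ j, f⟫_ℂ)) :
    ∑' j : JJ, ⟪p, gJ j⟫_ℂ * ⟪gJ j, f⟫_ℂ = ⟪p, mulOp ℂ (he n) f⟫_ℂ := by
  rw [hs.tsum_prod]
  have h1 : ∀ m : ℤ, ∑' k : hw, ⟪p, gJ (m, k)⟫_ℂ * ⟪gJ (m, k), f⟫_ℂ =
      ⟪p, mulOp ℂ (fun s => dm m s * dm m s) f⟫_ℂ := by
    intro m
    have h2 : ∀ k : hw, ⟪p, gJ (m, k)⟫_ℂ * ⟪gJ (m, k), f⟫_ℂ =
        ⟪mulOp ℂ (dm m) p, hb k⟫_ℂ * ⟪hb k, mulOp ℂ (dm m) f⟫_ℂ := by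
      intro k
      rw [← inner_conj_symm p, inner_gJ, inner_gJ, inner_conj_symm]
    simp only [h2]
    rw [hb.tsum_inner_mul_inner]
    have h3 := mulOp_adj (dm_bm m) p (mulOp ℂ (dm m) f)
    rw [dm_conj, mulOp_mulOp (dm_bm m) (dm_bm m)] at h3
    exact h3
  simp only [h1]
  rw [tsum_eq_sum (s := Finset.Ico (-(n : ℤ)) n), ← inner_sum]
  · congr 1
    ext1
    have e1 : ∀ᵐ s, ∀ m : ℤ, (mulOp ℂ (fun s => dm m s * dm m s) f) s =
        (dm m s * dm m s) • f s :=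
      ae_all_iff.2 fun m => mulOp_coe ((dm_bm m).mul (dm_bm m)) f
    have e2 : (∑ m ∈ Finset.Ico (-(n : ℤ)) n, mulOp ℂ (fun s => dm m s * dm m s) f : L2R ℂ)
        =ᵐ[volume] fun s => ∑ m ∈ Finset.Ico (-(n : ℤ)) n,
          (mulOp ℂ (fun s => dm m s * dm m s) f) s := by
      have := Lp.coeFn_finsetSum (Finset.Ico (-(n : ℤ)) n)
        (fun m : ℤ => mulOp ℂ (fun s => dm m s * dm m s) f)
      filter_upwards [this] with s hs
      rw [hs]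
      simp
    filter_upwards [e1, e2, mulOp_coe (he_bm n) f] with s h2 h3 h4
    rw [h3, h4, ← sum_dm, Finset.sum_smul]
    exact Finset.sum_congr rfl fun m _ => h2 m
  · intro m hm
    have h2 : mulOp ℂ (fun s => dm m s * dm m s) f = 0 := by
      rw [← hf, Pn, mulOp_mulOp ((dm_bm m).mul (dm_bm m)) (ind_bm measurableSet_Ico)]
      ext1
      filter_upwards [mulOp_coe (((dm_bm m).mul (dm_bm m)).mul
        (ind_bm (measurableSet_Ico (a := -(n : ℝ)) (b := n)))) f,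
        Lp.coeFn_zero ℂ 2 volume] with s h3 h4
      rw [h3, h4]
      by_cases h : s ∈ Set.Ico (-(n : ℝ)) n
      · rw [dm_of_notMem, zero_mul, zero_mul, zero_smul]; rfl
        rintro ⟨h5, h6⟩
        apply hm
        rw [Finset.mem_Ico]
        have h7 : (m : ℝ) < n := lt_of_le_of_lt h5 h.2
        have h8 : (-(n : ℝ)) < m + 1 := lt_of_le_of_lt h.1 h6
        have h7' : m < (n : ℤ) := by exact_mod_cast h7
        have h8' : -(n : ℤ) < m + 1 := by exact_mod_cast h8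
        exact ⟨by omega, h7'⟩
      · rw [ind_of_notMem h, mul_zero, zero_smul]; rfl
    rw [h2, inner_zero_right]

lemma q0_lt_top {n : ℕ} {f : L2R ℂ} (hf : Pn n f = f) : q0 f ≠ ⊤ := by
  have h1 : q0 f ≤ ENNReal.ofReal (Real.exp n) * ENNReal.ofReal (‖f‖ ^ 2) := by
    rw [norm_sq_lint, q0, ← lintegral_const_mul' _ _ ENNReal.ofReal_ne_top]
    refine lintegral_mono_ae ?_
    have h2 := mulOp_coe (ind_bm (measurableSet_Ico (a := -(n : ℝ)) (b := n))) f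
    change (Pn n f : ℝ → ℂ) =ᵐ[volume] _ at h2
    rw [hf] at h2
    filter_upwards [h2] with s hs
    rw [← ENNReal.ofReal_mul (by positivity)]
    refine ENNReal.ofReal_le_ofReal ?_
    by_cases h : s ∈ Set.Ico (-(n : ℝ)) n
    · gcongr
      exact h.2.le
    · rw [ind_of_notMem h, zero_smul] at hs
      rw [hs, norm_zero]
      simp
  exact ne_top_of_le_ne_top (ENNReal.mul_ne_top ENNReal.ofReal_ne_top ENNReal.ofReal_ne_top) h1

lemma SX_rk (b : H →L[ℂ] H) (e f : L2R ℂ) :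
    SX ξ (rk b e f) = ENNReal.ofReal (‖e‖ ^ 2 * ‖b ξ‖ ^ 2) * q0 f := by
  rw [SX_def, ← frame, ← ENNReal.tsum_mul_left]
  refine tsum_congr fun j => ?_
  rw [rk_apply, sl_ten, map_smul, ten_smul_right, norm_smul, norm_ten,
    ← ENNReal.ofReal_mul (by positivity), norm_inner_symm]
  congr 1
  ring

/-- a unit vector of `L²(ℝ)` -/
noncomputable def e0 : L2R ℂ :=
  indicatorConstLp 2 (measurableSet_Ico (a := (0 : ℝ)) (b := 1)) (by simp) (1 : ℂ)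

lemma e0_norm : ‖e0‖ = 1 := by
  rw [e0, norm_indicatorConstLp (by norm_num) (by norm_num)]
  simp

/-- polarized KMS type relation -/
lemma pol_star {u : L2R H →L[ℂ] L2R H} (hu : u ∈ GK N ξ) {b : H →L[ℂ] H} (hb : b ∈ N) {n : ℕ}
    {f f' : L2R ℂ} (hf : Pn n f = f) (hf' : Pn n f' = f') :
    ⟪ten f' (b ξ), u (ten (mulOp ℂ (he n) f) ξ)⟫_ℂ =
      ⟪ten (mulOp ℂ (he n) f') ξ, u (ten f ((star b) ξ))⟫_ℂ := by
  have hZA : rk b e0 f ∈ amp N := rk_mem_amp hb _ _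
  have hYA : rk 1 e0 f' ∈ amp N := rk_mem_amp (one_mem N) _ _
  have hus := GK_star hu
  have hZf : SX ξ (rk b e0 f) ≠ ⊤ := by
    rw [SX_rk]
    exact ENNReal.mul_ne_top ENNReal.ofReal_ne_top (q0_lt_top hf)
  have hYf : SX ξ (rk 1 e0 f') ≠ ⊤ := by
    rw [SX_rk]
    exact ENNReal.mul_ne_top ENNReal.ofReal_ne_top (q0_lt_top hf')
  have hZuA : rk b e0 f * star u ∈ amp N := mul_mem hZA hus.1
  have hZuf : SX ξ (rk b e0 f * star u) ≠ ⊤ := by rw [hus.2.2.2 _ hZA]; exact hZf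
  have hYuf : SX ξ (rk 1 e0 f' * u) ≠ ⊤ := by rw [hu.2.2.2 _ hYA]; exact hYf
  have key := polar_inv hu hZuA hYA hZuf hYf
  have hzz : rk b e0 f * star u * u = rk b e0 f := by rw [mul_assoc, hu.2.1, mul_one]
  rw [hzz] at key
  have e00 : ⟪e0, e0⟫_ℂ = 1 := by
    rw [inner_self_eq_norm_sq_to_K, e0_norm]; simp
  set p : L2R ℂ := (adjoint (u.comp (axi ξ))) (ten f' (b ξ)) with hp
  have hp' : ∀ g, ⟪p, g⟫_ℂ = ⟪ten f' (b ξ), u (ten g ξ)⟫_ℂ := by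
    intro g
    rw [hp, adjoint_inner_left]
    rfl
  set p' : L2R ℂ := (adjoint (axi ξ)) (u (ten f ((star b) ξ))) with hp2
  have hp2' : ∀ g, ⟪g, p'⟫_ℂ = ⟪ten g ξ, u (ten f ((star b) ξ))⟫_ℂ := by
    intro g
    rw [hp2, adjoint_inner_right]
    rfl
  have t1 : ∀ j : JJ, ⟪rk b e0 f (ten (gJ j) ξ),
      (rk (1 : H →L[ℂ] H) e0 f' * u) (ten (gJ j) ξ)⟫_ℂ =
      ⟪p, gJ j⟫_ℂ * ⟪gJ j, f⟫_ℂ := by
    intro j
    rw [hp']
    change ⟪rk b e0 f (ten (gJ j) ξ), rk 1 e0 f' (u (ten (gJ j) ξ))⟫_ℂ = _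
    rw [rk_apply, rk_apply, inner_ten, e00, one_mul, one_apply_eq_self, sl_ten, map_smul,
      inner_smul_left, inner_conj_symm, inner_sl, mul_comm]
  have t2 : ∀ j : JJ, ⟪(rk b e0 f * star u) (ten (gJ j) ξ), rk 1 e0 f' (ten (gJ j) ξ)⟫_ℂ =
      ⟪f', gJ j⟫_ℂ * ⟪gJ j, p'⟫_ℂ := by
    intro j
    rw [hp2']
    change ⟪rk b e0 f ((star u) (ten (gJ j) ξ)), rk 1 e0 f' (ten (gJ j) ξ)⟫_ℂ = _
    rw [rk_apply, rk_apply, inner_ten, e00, one_mul, one_apply_eq_self, sl_ten,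
      inner_smul_right]
    congr 1
    rw [← inner_star_right b, inner_sl', inner_star_left]
  simp only [t1, t2] at key
  have s1 : Summable fun j : JJ => ⟪p, gJ j⟫_ℂ * ⟪gJ j, f⟫_ℂ := by
    have := (hasSum_polar hZf hYuf).summable
    simpa only [t1] using this
  have s2 : Summable fun j : JJ => ⟪f', gJ j⟫_ℂ * ⟪gJ j, p'⟫_ℂ := by
    have := (hasSum_polar hZuf hYf).summable
    simpa only [t2] using this
  rw [frame_tsum hf p s1] at key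
  have s3 : (fun j : JJ => ⟪f', gJ j⟫_ℂ * ⟪gJ j, p'⟫_ℂ) =
      fun j : JJ => (starRingEnd ℂ) (⟪p', gJ j⟫_ℂ * ⟪gJ j, f'⟫_ℂ) := by
    funext j
    rw [map_mul, inner_conj_symm, inner_conj_symm, mul_comm]
  have s4 : Summable fun j : JJ => ⟪p', gJ j⟫_ℂ * ⟪gJ j, f'⟫_ℂ := by
    rw [s3] at s2
    have := s2.star
    simpa using this
  rw [s3, ← Complex.conj_tsum, frame_tsum hf' p' s4, hp', inner_conj_symm, hp2'] at key
  exact key

end Pool.Agent.Helper23
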