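import Pool.Agent.Helper23.Pol

/-!
# Commutation of the slices of the centralizer with multiplication operators
-/

open scoped InnerProductSpace Topology ENNReal
open ContinuousLinearMap Filter MeasureTheory Polynomial

set_option linter.unusedSectionVars false
set_option linter.unusedVariables false

namespace Pool.Agent.Helper23

variable {H : Type*} [NormedAddCommGroup H] [InnerProductSpace ℂ H] [CompleteSpace H]
variable {M N : VonNeumannAlgebra H} {ξ : H} {E : (H →L[ℂ] H) → (H →L[ℂ] H)}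

lemma Pn_coe (n : ℕ) (f : L2R ℂ) :
    Pn n f =ᵐ[volume] fun s => ind (Set.Ico (-(n : ℝ)) n) s • f s :=
  mulOp_coe (ind_bm measurableSet_Ico) f

lemma Pn_mulOp {n : ℕ} {m : ℝ → ℂ} (hm : BM m) (f : L2R ℂ) :
    Pn n (mulOp ℂ m f) = mulOp ℂ m (Pn n f) := by
  rw [Pn, mulOp_mulOp (ind_bm measurableSet_Ico) hm, mulOp_mulOp hm (ind_bm measurableSet_Ico)]
  congr 2
  funext s
  ring

lemma Pn_fix_mulOp {n : ℕ} {m : ℝ → ℂ} (hm : BM m) {f : L2R ℂ} (hf : Pn n f = f) :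
    Pn n (mulOp ℂ m f) = mulOp ℂ m f := by rw [Pn_mulOp hm, hf]

lemma Pn_Pn (n : ℕ) (f : L2R ℂ) : Pn n (Pn n f) = Pn n f := by
  rw [Pn, mulOp_mulOp (ind_bm measurableSet_Ico) (ind_bm measurableSet_Ico), ind_sq]

lemma inner_Pn (n : ℕ) (f g : L2R ℂ) : ⟪Pn n f, g⟫_ℂ = ⟪f, Pn n g⟫_ℂ := by
  have := mulOp_adj (ind_bm (measurableSet_Ico (a := -(n : ℝ)) (b := n))) f g
  rwa [ind_conj] at this

lemma Pn_mono {n m : ℕ} (h : n ≤ m) {f : L2R ℂ} (hf : Pn n f = f) : Pn m f = f := by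
  rw [← hf, Pn, Pn, mulOp_mulOp (ind_bm measurableSet_Ico) (ind_bm measurableSet_Ico)]
  congr 2
  funext s
  by_cases hs : s ∈ Set.Ico (-(n : ℝ)) n
  · have h' : (n : ℝ) ≤ m := by exact_mod_cast h
    rw [ind_of_mem hs, ind_of_mem (show s ∈ Set.Ico (-(m : ℝ)) m from
      ⟨by linarith [hs.1], by linarith [hs.2]⟩), one_mul]
  · rw [ind_of_notMem hs, mul_zero]

lemma eq_zero_of_Pn {f : L2R ℂ} {n0 : ℕ} (h : ∀ n, n0 ≤ n → Pn n f = 0) : f = 0 := by
  ext1
  have h1 : ∀ᵐ s, ∀ n : ℕ, (Pn n f) s = ind (Set.Ico (-(n : ℝ)) n) s • f s :=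
    ae_all_iff.2 fun n => Pn_coe n f
  filter_upwards [h1, Lp.coeFn_zero ℂ 2 volume] with s hs h0
  rw [h0]
  obtain ⟨n, hn⟩ := exists_nat_gt (max |s| n0)
  have hn1 : |s| < n := lt_of_le_of_lt (le_max_left _ _) hn
  have hn2 : n0 ≤ n := by
    have : (n0 : ℝ) < n := lt_of_le_of_lt (le_max_right _ _) hn
    exact_mod_cast this.le
  have hk := hs n
  rw [h n hn2, h0, ind_of_mem, one_smul] at hk
  · exact hk.symm
  · rw [abs_lt] at hn1
    exact ⟨hn1.1.le, hn1.2⟩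

lemma mulOp_sub_norm {n : ℕ} {c c' : ℝ → ℂ} (hc : BM c) (hc' : BM c') {ε : ℝ}
    (h : ∀ s ∈ Set.Ico (-(n : ℝ)) n, ‖c s - c' s‖ ≤ ε) {f : L2R ℂ} (hf : Pn n f = f) :
    ‖mulOp ℂ c f - mulOp ℂ c' f‖ ≤ ε * ‖f‖ := by
  refine Lp.norm_le_mul_norm_of_ae_le_mul ?_
  have h2 := Pn_coe n f
  rw [hf] at h2
  filter_upwards [Lp.coeFn_sub (mulOp ℂ c f) (mulOp ℂ c' f), mulOp_coe hc f, mulOp_coe hc' f, h2]
    with s e1 e2 e3 e4
  rw [e1, Pi.sub_apply, e2, e3, ← sub_smul, norm_smul]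
  by_cases hs : s ∈ Set.Ico (-(n : ℝ)) n
  · gcongr
    exact h s hs
  · rw [ind_of_notMem hs, zero_smul] at e4
    rw [e4, norm_zero, mul_zero, mul_zero]

/-- pairs of functions intertwined by `R` on cut off functions -/
def Itw (R : L2R ℂ →L[ℂ] L2R ℂ) (n : ℕ) (c c' : ℝ → ℂ) : Prop :=
  ∀ f f' : L2R ℂ, Pn n f = f → Pn n f' = f' →
    ⟪f', R (mulOp ℂ c f)⟫_ℂ = ⟪f', mulOp ℂ c' (R f)⟫_ℂ

lemma mulOp_const_apply (z : ℂ) (f : L2R ℂ) : mulOp ℂ (fun _ => z) f = z • f := by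
  ext1
  filter_upwards [mulOp_coe (BM.const z) f, Lp.coeFn_smul z f] with s h1 h2
  rw [h1, h2]; rfl

lemma Itw.const (R : L2R ℂ →L[ℂ] L2R ℂ) (n : ℕ) (z : ℂ) : Itw R n (fun _ => z) (fun _ => z) := by
  intro f f' _ _
  rw [mulOp_const_apply, mulOp_const_apply, map_smul]

lemma Itw.add {R : L2R ℂ →L[ℂ] L2R ℂ} {n : ℕ} {c c' d d' : ℝ → ℂ} (h : Itw R n c c')
    (k : Itw R n d d') (hc : BM c) (hc' : BM c') (hd : BM d) (hd' : BM d') :
    Itw R n (fun s => c s + d s) (fun s => c' s + d' s) := by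
  intro f f' hf hf'
  rw [mulOp_add hc hd, mulOp_add hc' hd', map_add, inner_add_right, inner_add_right,
    h f f' hf hf', k f f' hf hf']

lemma Itw.mul {R : L2R ℂ →L[ℂ] L2R ℂ} {n : ℕ} {c c' d d' : ℝ → ℂ} (h : Itw R n c c')
    (k : Itw R n d d') (hc : BM c) (hc' : BM c') (hd : BM d) (hd' : BM d') :
    Itw R n (fun s => c s * d s) (fun s => c' s * d' s) := by
  intro f f' hf hf'
  rw [← mulOp_mulOp hc hd, h _ f' (Pn_fix_mulOp hd hf) hf', ← mulOp_mulOp hc' hd',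
    ← mulOp_adj hc', ← mulOp_adj hc', k f _ hf (Pn_fix_mulOp hc'.conj hf')]

lemma BM.pow {c : ℝ → ℂ} (hc : BM c) (k : ℕ) : BM (fun s => c s ^ k) := by
  induction k with
  | zero => simpa using BM.const 1
  | succ k ih =>
    have := ih.mul hc
    simpa only [pow_succ] using this

lemma BM.poly {c : ℝ → ℂ} (hc : BM c) (p : ℂ[X]) : BM (fun s => p.eval (c s)) := by
  induction p using Polynomial.induction_on' with
  | add p q hp hq => simpa only [eval_add] using hp.add hq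
  | monomial k a =>
    simpa only [eval_monomial] using (hc.pow k).constMul a

lemma Itw.pow {R : L2R ℂ →L[ℂ] L2R ℂ} {n : ℕ} {c c' : ℝ → ℂ} (h : Itw R n c c')
    (hc : BM c) (hc' : BM c') (k : ℕ) : Itw R n (fun s => c s ^ k) (fun s => c' s ^ k) := by
  induction k with
  | zero => simpa using Itw.const R n 1
  | succ k ih =>
    have := ih.mul h (hc.pow k) (hc'.pow k) hc hc'
    simpa only [pow_succ] using this

lemma Itw.poly {R : L2R ℂ →L[ℂ] L2R ℂ} {n : ℕ} {c c' : ℝ → ℂ} (h : Itw R n c c')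
    (hc : BM c) (hc' : BM c') (p : ℂ[X]) :
    Itw R n (fun s => p.eval (c s)) (fun s => p.eval (c' s)) := by
  induction p using Polynomial.induction_on' with
  | add p q hp hq =>
    simpa only [eval_add] using hp.add hq (hc.poly p) (hc'.poly p) (hc.poly q) (hc'.poly q)
  | monomial k a =>
    have := (Itw.const R n a).mul (h.pow hc hc' k) (BM.const a) (BM.const a) (hc.pow k)
      (hc'.pow k)
    simpa only [eval_monomial] using this

lemma Itw.of_approx {R : L2R ℂ →L[ℂ] L2R ℂ} {n : ℕ} {c c' : ℝ → ℂ} (hc : BM c) (hc' : BM c')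
    (h : ∀ ε : ℝ, 0 < ε → ∃ d d' : ℝ → ℂ, BM d ∧ BM d' ∧ Itw R n d d' ∧
      (∀ s ∈ Set.Ico (-(n : ℝ)) n, ‖c s - d s‖ ≤ ε) ∧
      ∀ s ∈ Set.Ico (-(n : ℝ)) n, ‖c' s - d' s‖ ≤ ε) : Itw R n c c' := by
  intro f f' hf hf'
  rw [← sub_eq_zero, ← norm_eq_zero]
  refine le_antisymm (le_of_forall_pos_le_add fun ε hε => ?_) (norm_nonneg _)
  set K : ℝ := 2 * (‖R‖ * ‖f‖ * ‖f'‖) + 1 with hK
  have hK0 : 0 < K := by positivity
  obtain ⟨d, d', hd, hd', hrel, h1, h2⟩ := h (ε / K) (by positivity)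
  have e1 : ⟪f', R (mulOp ℂ c f)⟫_ℂ - ⟪f', mulOp ℂ c' (R f)⟫_ℂ =
      ⟪f', R (mulOp ℂ c f - mulOp ℂ d f)⟫_ℂ -
        ⟪mulOp ℂ (fun s => (starRingEnd ℂ) (c' s)) f' -
          mulOp ℂ (fun s => (starRingEnd ℂ) (d' s)) f', R f⟫_ℂ := by
    rw [map_sub, inner_sub_right, inner_sub_left, mulOp_adj hc', mulOp_adj hd',
      hrel f f' hf hf']
    ring
  have e2 : ‖mulOp ℂ c f - mulOp ℂ d f‖ ≤ ε / K * ‖f‖ := mulOp_sub_norm hc hd h1 hf
  have e3 : ‖mulOp ℂ (fun s => (starRingEnd ℂ) (c' s)) f' -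
      mulOp ℂ (fun s => (starRingEnd ℂ) (d' s)) f'‖ ≤ ε / K * ‖f'‖ := by
    refine mulOp_sub_norm hc'.conj hd'.conj (fun s hs => ?_) hf'
    rw [← map_sub, RCLike.norm_conj]
    exact h2 s hs
  rw [e1, zero_add]
  calc _ ≤ ‖f'‖ * (‖R‖ * (ε / K * ‖f‖)) + ε / K * ‖f'‖ * (‖R‖ * ‖f‖) := by
        refine (norm_sub_le _ _).trans (add_le_add ?_ ?_)
        · refine (norm_inner_le_norm _ _).trans ?_
          gcongr
          exact (R.le_opNorm _).trans (by gcongr)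
        · refine (norm_inner_le_norm _ _).trans ?_
          gcongr
          exact R.le_opNorm _
    _ = ε / K * (2 * (‖R‖ * ‖f‖ * ‖f'‖)) := by ring
    _ ≤ ε / K * K := by gcongr; rw [hK]; linarith
    _ = ε := by field_simp

/-- removing the cut offs -/
lemma eq_of_Itw {R : L2R ℂ →L[ℂ] L2R ℂ} {c c' : ℝ → ℂ} (hc : BM c) (hc' : BM c')
    (h : ∀ n, Itw R n c c') (f : L2R ℂ) : R (mulOp ℂ c f) = mulOp ℂ c' (R f) := by
  set T : L2R ℂ →L[ℂ] L2R ℂ := R.comp (mulOp ℂ c) - (mulOp ℂ c').comp R with hT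
  have h1 : ∀ n : ℕ, ∀ f : L2R ℂ, Pn n f = f → T f = 0 := by
    intro n f hf
    refine eq_zero_of_Pn (n0 := n) fun m hm => ?_
    refine ext_inner_left ℂ fun g => ?_
    rw [← inner_Pn, inner_zero_right]
    have := h m f (Pn m g) (Pn_mono hm hf) (Pn_Pn m g)
    change ⟪Pn m g, R (mulOp ℂ c f) - mulOp ℂ c' (R f)⟫_ℂ = 0
    rw [inner_sub_right, this, sub_self]
  have h2 : ∀ g : L2R ℂ, (adjoint T) g = 0 := by
    intro g
    refine eq_zero_of_Pn (n0 := 0) fun m _ => ?_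
    refine ext_inner_right ℂ fun f => ?_
    rw [inner_Pn, adjoint_inner_left, h1 m _ (Pn_Pn m f), inner_zero_right, inner_zero_left]
  have h3 : T f = 0 := by
    refine ext_inner_left ℂ fun g => ?_
    rw [← adjoint_inner_left, h2, inner_zero_left, inner_zero_right]
  exact sub_eq_zero.1 h3

lemma weier {a b : ℝ} {g : ℝ → ℂ} (hg : ContinuousOn g (Set.Icc a b)) {ε : ℝ} (hε : 0 < ε) :
    ∃ p : ℂ[X], ∀ x ∈ Set.Icc a b, ‖g x - p.eval (x : ℂ)‖ ≤ ε := by
  have h1 : ContinuousOn (fun x => (g x).re) (Set.Icc a b) :=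
    Complex.continuous_re.comp_continuousOn hg
  have h2 : ContinuousOn (fun x => (g x).im) (Set.Icc a b) :=
    Complex.continuous_im.comp_continuousOn hg
  obtain ⟨p, hp⟩ := exists_polynomial_near_of_continuousOn a b _ h1 (ε / 2) (by positivity)
  obtain ⟨q, hq⟩ := exists_polynomial_near_of_continuousOn a b _ h2 (ε / 2) (by positivity)
  refine ⟨p.map Complex.ofRealHom + Polynomial.C Complex.I * q.map Complex.ofRealHom,
    fun x hx => ?_⟩
  have e1 : ∀ r : ℝ[X], (r.map Complex.ofRealHom).eval (x : ℂ) = ((r.eval x : ℝ) : ℂ) := by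
    intro r
    have := Polynomial.eval_map_apply (f := Complex.ofRealHom) (p := r) x
    exact this
  rw [eval_add, eval_mul, eval_C, e1, e1]
  have e2 : g x - (((p.eval x : ℝ) : ℂ) + Complex.I * ((q.eval x : ℝ) : ℂ)) =
      (((g x).re - p.eval x : ℝ) : ℂ) + Complex.I * (((g x).im - q.eval x : ℝ) : ℂ) := by
    conv_lhs => rw [← Complex.re_add_im (g x)]
    push_cast
    ring
  rw [e2]
  refine (norm_add_le _ _).trans ?_
  rw [norm_mul, Complex.norm_I, one_mul, Complex.norm_real, Complex.norm_real,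
    Real.norm_eq_abs, Real.norm_eq_abs]
  have h3 := hp x hx
  have h4 := hq x hx
  rw [abs_sub_comm] at h3 h4
  linarith

lemma he_of_mem {n : ℕ} {s : ℝ} (h : s ∈ Set.Ico (-(n : ℝ)) n) :
    he n s = ((Real.exp s : ℝ) : ℂ) := Set.indicator_of_mem h _

/-- from the exponential to all bounded continuous functions -/
lemma shift_of_exp {R : L2R ℂ →L[ℂ] L2R ℂ} {γ : ℝ} (hγ : 0 < γ)
    (h : ∀ n, Itw R n (he n) (fun s => (γ⁻¹ : ℝ) * he n s)) {c : ℝ → ℂ} (hc : BM c)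
    (hcc : Continuous c) (f : L2R ℂ) :
    R (mulOp ℂ (fun s => c (s + Real.log γ)) f) = mulOp ℂ c (R f) := by
  have hcs : BM (fun s => c (s + Real.log γ)) := by
    have := hc.shift (-Real.log γ)
    simpa only [sub_neg_eq_add] using this
  refine eq_of_Itw hcs hc (fun n => ?_) f
  refine Itw.of_approx hcs hc fun ε hε => ?_
  have hγi : 0 < γ⁻¹ := inv_pos.2 hγ
  set a := min (Real.exp (-n)) (γ⁻¹ * Real.exp (-n)) with ha
  set b := max (Real.exp n) (γ⁻¹ * Real.exp n) with hb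
  have ha0 : 0 < a := lt_min (Real.exp_pos _) (by positivity)
  have hg : ContinuousOn (fun x : ℝ => c (Real.log (γ * x))) (Set.Icc a b) := by
    refine hcc.comp_continuousOn (ContinuousOn.log (by fun_prop) fun x hx => ?_)
    have : 0 < x := lt_of_lt_of_le ha0 hx.1
    positivity
  obtain ⟨p, hp⟩ := weier hg hε
  refine ⟨fun s => p.eval (he n s), fun s => p.eval ((γ⁻¹ : ℝ) * he n s), (he_bm n).poly p,
    ((he_bm n).constMul _).poly p, (h n).poly (he_bm n) ((he_bm n).constMul _) p,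
    fun s hs => ?_, fun s hs => ?_⟩
  · simp only [he_of_mem hs]
    have h1 := hp (Real.exp s) ⟨(min_le_left _ _).trans (Real.exp_le_exp.2 hs.1),
      (Real.exp_le_exp.2 hs.2.le).trans (le_max_left _ _)⟩
    have h2 : Real.log (γ * Real.exp s) = s + Real.log γ := by
      rw [Real.log_mul hγ.ne' (Real.exp_pos s).ne', Real.log_exp, add_comm]
    rw [h2] at h1
    exact h1
  · simp only [he_of_mem hs]
    have h1 := hp (γ⁻¹ * Real.exp s) ⟨(min_le_right _ _).trans (by gcongr; exact hs.1),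
      le_trans (by gcongr; exact hs.2.le) (le_max_right _ _)⟩
    have h2 : Real.log (γ * (γ⁻¹ * Real.exp s)) = s := by
      rw [← mul_assoc, mul_inv_cancel₀ hγ.ne', one_mul, Real.log_exp]
    rw [h2] at h1
    push_cast at h1 ⊢
    exact h1

/-- the map `R_a = (⟨aξ| ⊗ 1) u (|ξ⟩ ⊗ 1)` -/
noncomputable def RR (u : L2R H →L[ℂ] L2R H) (η ξ : H) : L2R ℂ →L[ℂ] L2R ℂ :=
  (adjoint (axi η)).comp (u.comp (axi ξ))

lemma inner_RR (u : L2R H →L[ℂ] L2R H) (η ξ : H) (f' f : L2R ℂ) :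
    ⟪f', RR u η ξ f⟫_ℂ = ⟪ten f' η, u (ten f ξ)⟫_ℂ := by
  change ⟪f', (adjoint (axi η)) (u (axi ξ f))⟫_ℂ = _
  rw [adjoint_inner_right]
  rfl

namespace Setting

variable (S : Setting M N E ξ)
include S

lemma Itw_exp {u : L2R H →L[ℂ] L2R H} (hu : u ∈ GK N ξ) {γ : ℝ} (hγ : 0 < γ) {a : H →L[ℂ] H}
    (ha : a ∈ eig N ξ γ) (n : ℕ) :
    Itw (RR u (a ξ) ξ) n (he n) (fun s => (γ⁻¹ : ℝ) * he n s) := by
  intro f f' hf hf'
  obtain ⟨r, hr, hr'⟩ := S.exists_right (inv_pos.2 hγ) (eig_star hγ.ne' ha)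
  have hrξ : r ξ = (star a) ξ := by
    have := hr' 1 (one_mem M)
    simpa using this
  have hrs : (star r) ξ = ((γ⁻¹ : ℝ) : ℂ) • a ξ := by
    -- test against `y ξ`
    have hcl : Dense (orb M ξ : Set H) := S.cyc
    refine hcl.eq_of_inner_left ℂ ?_
    rintro _ ⟨y, hy, rfl⟩
    rw [inner_star_left, hr' y hy, inner_smul_left, Complex.conj_ofReal]
    have h1 := (S.eigM (eig_star hγ.ne' ha) hy)
    rw [h1, inner_star_right]
  rw [inner_RR, pol_star hu ha.1 hf hf', ← hrξ]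
  have h1 : u (ten f (r ξ)) = lift r (u (ten f ξ)) := amp_ten hu.1 (S.comm_le hr) f ξ
  rw [h1]
  have h2 : ⟪ten (mulOp ℂ (he n) f') ξ, lift r (u (ten f ξ))⟫_ℂ =
      ⟪lift (star r) (ten (mulOp ℂ (he n) f') ξ), u (ten f ξ)⟫_ℂ := by
    rw [lift_star, inner_star_left]
  rw [h2, lift_ten, hrs, ten_smul_right, inner_smul_left, Complex.conj_ofReal, ← inner_RR,
    mulOp_constMul _ (he_bm n), inner_smul_right]
  congr 1
  have h3 := mulOp_adj (he_bm n) f' (RR u (a ξ) ξ f)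
  have h4 : (fun s => (starRingEnd ℂ) (he n s)) = he n := by
    funext s
    by_cases h : s ∈ Set.Ico (-(n : ℝ)) n
    · rw [he, Set.indicator_of_mem h, Complex.conj_ofReal]
    · rw [he, Set.indicator_of_notMem h, map_zero]
  rw [h4] at h3
  exact h3

/-- The slices of elements of the centralizer group along eigenvectors are translations up to
multiplications. -/
theorem RR_shift {u : L2R H →L[ℂ] L2R H} (hu : u ∈ GK N ξ) {γ : ℝ} (hγ : 0 < γ)
    {a : H →L[ℂ] H} (ha : a ∈ eig N ξ γ) {c : ℝ → ℂ} (hc : BM c) (hcc : Continuous c)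
    (f : L2R ℂ) : RR u (a ξ) ξ (mulOp ℂ (fun s => c (s + Real.log γ)) f) =
      mulOp ℂ c (RR u (a ξ) ξ f) :=
  shift_of_exp hγ (fun n => S.Itw_exp hu hγ ha n) hc hcc f

end Setting

end Pool.Agent.Helper23
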