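import Pool.Agent.Helper23.Dens

/-!
# The relative commutant of the centralizer and the partial action of the eigenvalues
-/

open scoped InnerProductSpace TensorProduct
open ContinuousLinearMap

namespace Pool.Agent.Helper23

variable {H : Type*} [NormedAddCommGroup H] [InnerProductSpace ℂ H] [CompleteSpace H]
variable {M N : VonNeumannAlgebra H} {ξ : H} {E : (H →L[ℂ] H) → (H →L[ℂ] H)}

/-- The relative commutant of the centralizer `N_φ` in `M`. -/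
noncomputable def Qalg (M N : VonNeumannAlgebra H) (ξ : H) : VonNeumannAlgebra H where
  toStarSubalgebra := StarSubalgebra.centralizer ℂ
    ((M.commutant : Set (H →L[ℂ] H)) ∪ (eig N ξ 1 : Set (H →L[ℂ] H)))
  centralizer_centralizer' := by simp

lemma mem_Qalg {y : H →L[ℂ] H} :
    y ∈ Qalg M N ξ ↔ y ∈ M ∧ ∀ a ∈ eig N ξ 1, a * y = y * a := by
  have h1 : y ∈ Qalg M N ξ ↔ y ∈ StarSubalgebra.centralizer ℂ
    ((M.commutant : Set (H →L[ℂ] H)) ∪ (eig N ξ 1 : Set (H →L[ℂ] H))) := Iff.rfl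
  rw [h1, StarSubalgebra.mem_centralizer_iff]
  constructor
  · intro h
    refine ⟨mem_iff_commutes.2 fun g hg => (h g (Or.inl hg)).1, fun a ha => (h a (Or.inr ha)).1⟩
  · rintro ⟨h2, h3⟩ g (hg | hg)
    · exact ⟨mem_iff_commutes.1 h2 g hg, mem_iff_commutes.1 h2 _ (star_mem hg)⟩
    · exact ⟨h3 g hg, h3 _ (by
        have := eig_star one_ne_zero hg
        rwa [inv_one] at this)⟩

/-- The centralizer of the state has trivial relative commutant in `N`. -/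
def TrivialRelComm (N : VonNeumannAlgebra H) (ξ : H) : Prop :=
  ∀ x ∈ N, (∀ a ∈ eig N ξ 1, a * x = x * a) → ∃ c : ℂ, x = c • (1 : H →L[ℂ] H)

lemma star_mul_mem_eig_one {γ : ℝ} (hγ : γ ≠ 0) {a b : H →L[ℂ] H} (ha : a ∈ eig N ξ γ)
    (hb : b ∈ eig N ξ γ) : star a * b ∈ eig N ξ 1 := by
  have := eig_mul (eig_star hγ ha) hb
  rwa [inv_mul_cancel₀ hγ] at this

lemma mul_star_mem_eig_one {γ : ℝ} (hγ : γ ≠ 0) {a b : H →L[ℂ] H} (ha : a ∈ eig N ξ γ)
    (hb : b ∈ eig N ξ γ) : a * star b ∈ eig N ξ 1 := by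
  have := eig_mul ha (eig_star hγ hb)
  rwa [mul_inv_cancel₀ hγ] at this

/-- evaluation map `a ⊗ η ↦ a η` -/
noncomputable def evT (N : VonNeumannAlgebra H) (ξ : H) (γ : ℝ) :
    (eig N ξ γ) ⊗[ℂ] H →ₗ[ℂ] H :=
  TensorProduct.lift
    { toFun := fun a => ((a : H →L[ℂ] H) : H →ₗ[ℂ] H)
      map_add' := fun _ _ => rfl
      map_smul' := fun _ _ => rfl }

lemma evT_tmul (γ : ℝ) (a : eig N ξ γ) (η : H) : evT N ξ γ (a ⊗ₜ η) = (a : H →L[ℂ] H) η := rfl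

/-- twisted evaluation map `a ⊗ η ↦ a (u η)` -/
noncomputable def evTu (N : VonNeumannAlgebra H) (ξ : H) (γ : ℝ) (u : H →L[ℂ] H) :
    (eig N ξ γ) ⊗[ℂ] H →ₗ[ℂ] H :=
  TensorProduct.lift
    { toFun := fun a => (((a : H →L[ℂ] H) * u : H →L[ℂ] H) : H →ₗ[ℂ] H)
      map_add' := fun a b => by
        ext η; rfl
      map_smul' := fun c a => by
        ext η; rfl }

lemma evTu_tmul (γ : ℝ) (u : H →L[ℂ] H) (a : eig N ξ γ) (η : H) :
    evTu N ξ γ u (a ⊗ₜ η) = (a : H →L[ℂ] H) (u η) := rfl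

lemma evTu_inner {γ : ℝ} (hγ : γ ≠ 0) {u : H →L[ℂ] H} (hu : ∀ a ∈ eig N ξ 1, a * u = u * a)
    (huu : star u * u = 1) (s t : (eig N ξ γ) ⊗[ℂ] H) :
    ⟪evTu N ξ γ u s, evTu N ξ γ u t⟫_ℂ = ⟪evT N ξ γ s, evT N ξ γ t⟫_ℂ := by
  induction s using TensorProduct.induction_on with
  | zero => simp
  | add s₁ s₂ h₁ h₂ => rw [map_add, map_add, inner_add_left, inner_add_left, h₁, h₂]
  | tmul a η =>
    induction t using TensorProduct.induction_on with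
    | zero => simp
    | add t₁ t₂ h₁ h₂ => rw [map_add, map_add, inner_add_right, inner_add_right, h₁, h₂]
    | tmul b ζ =>
      rw [evTu_tmul, evTu_tmul, evT_tmul, evT_tmul, ← inner_star_right, ← inner_star_right]
      have h1 : (star (a : H →L[ℂ] H)) ((b : H →L[ℂ] H) (u ζ)) =
          u ((star (a : H →L[ℂ] H)) ((b : H →L[ℂ] H) ζ)) := by
        have := hu _ (star_mul_mem_eig_one hγ a.2 b.2)
        exact congrArg (fun T : H →L[ℂ] H => T ζ) this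
      rw [h1, ← inner_star_right]
      have h2 : (star u) (u ((star (a : H →L[ℂ] H)) ((b : H →L[ℂ] H) ζ))) =
          (star (a : H →L[ℂ] H)) ((b : H →L[ℂ] H) ζ) :=
        congrArg (fun T : H →L[ℂ] H => T ((star (a : H →L[ℂ] H)) ((b : H →L[ℂ] H) ζ))) huu
      rw [h2]

/-- The ranges of the eigenoperators of a fixed eigenvalue span a dense subspace. -/
lemma evT_denseRange (hirr : TrivialRelComm N ξ) {γ : ℝ}
    (hne : ∃ a ∈ eig N ξ γ, a ≠ 0) : DenseRange (evT N ξ γ) := by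
  set V := (LinearMap.range (evT N ξ γ)).topologicalClosure with hV
  set R := V.starProjection with hR
  have hinv : ∀ T : H →L[ℂ] H, (∀ a ∈ eig N ξ γ, ∀ η, T (a η) ∈ V) → ∀ x ∈ V, T x ∈ V := by
    intro T hT x hx
    have h1 : ((LinearMap.range (evT N ξ γ) : Submodule ℂ H) : Set H) ⊆ T ⁻¹' (V : Set H) := by
      rintro _ ⟨t, rfl⟩
      induction t using TensorProduct.induction_on with
      | zero => simp
      | add t₁ t₂ h₁ h₂ =>
        rw [map_add, Set.mem_preimage, map_add]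
        exact Submodule.add_mem _ h₁ h₂
      | tmul a η => exact hT a a.2 η
    exact closure_minimal h1 ((Submodule.isClosed_topologicalClosure _).preimage T.continuous) hx
  have hmemV : ∀ a ∈ eig N ξ γ, ∀ η, a η ∈ V := fun a ha η =>
    Submodule.le_topologicalClosure _ ⟨(⟨a, ha⟩ : eig N ξ γ) ⊗ₜ η, rfl⟩
  have hRN : R ∈ N := by
    rw [VonNeumannAlgebra.IsStarProjection.mem_iff isStarProjection_starProjection]
    intro y hy
    rw [Submodule.range_starProjection, Module.End.mem_invtSubmodule]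
    intro x hx
    rw [Submodule.mem_comap]
    refine hinv y (fun a ha η => ?_) x hx
    rw [← commute_apply ha.1 hy]
    exact hmemV a ha _
  have hRc : ∀ c ∈ eig N ξ 1, ∀ x ∈ V, c x ∈ V := by
    intro c hc x hx
    refine hinv c (fun a ha η => ?_) x hx
    have h1 := eig_mul hc ha
    rw [one_mul] at h1
    exact hmemV _ h1 η
  have hRcomm : ∀ c ∈ eig N ξ 1, c * R = R * c := by
    intro c hc
    have hc' : star c ∈ eig N ξ 1 := by
      have := eig_star one_ne_zero hc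
      rwa [inv_one] at this
    ext x
    change c (R x) = R (c x)
    symm
    refine Submodule.eq_starProjection_of_mem_orthogonal (K := V) ?_ ?_
    · exact hRc c hc _ (Submodule.starProjection_apply_mem V x)
    · rw [← map_sub, Submodule.mem_orthogonal]
      intro w hw
      have h2 := Submodule.sub_starProjection_mem_orthogonal (K := V) x
      rw [Submodule.mem_orthogonal] at h2
      have h3 := h2 _ (hRc _ hc' w hw)
      rwa [inner_star_left] at h3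
  obtain ⟨k, hk⟩ := hirr R hRN hRcomm
  obtain ⟨a, ha, ha0⟩ := hne
  obtain ⟨η, hη⟩ : ∃ η, a η ≠ 0 := by
    by_contra hcon
    push Not at hcon
    exact ha0 (ContinuousLinearMap.ext fun η => by simpa using hcon η)
  have h1 : R (a η) = a η := Submodule.starProjection_eq_self_iff.2 (hmemV a ha η)
  rw [hk] at h1
  have h2 : k = 1 := by
    have h3 : (k - 1) • (a η) = 0 := by
      rw [sub_smul, one_smul, sub_eq_zero]
      simpa using h1
    rcases smul_eq_zero.1 h3 with h | h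
    · exact sub_eq_zero.1 h
    · exact absurd h hη
  rw [h2, one_smul] at hk
  intro x
  have h4 : R x = x := by rw [hk]; rfl
  exact Submodule.starProjection_eq_self_iff.1 h4

/-- `Rel γ y z` : `a y = z a` for every eigenoperator `a` with eigenvalue `γ`. -/
def Rel (N : VonNeumannAlgebra H) (ξ : H) (γ : ℝ) (y z : H →L[ℂ] H) : Prop :=
  ∀ a ∈ eig N ξ γ, a * y = z * a

lemma Rel.unique (hirr : TrivialRelComm N ξ) {γ : ℝ} (hγ : γ ≠ 0)
    (hne : ∃ a ∈ eig N ξ γ, a ≠ 0) {z z' : H →L[ℂ] H}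
    (h : ∀ a ∈ eig N ξ γ, z * a = z' * a) : z = z' := by
  have hd := evT_denseRange hirr hne
  have hcl : IsClosed {x : H | z x = z' x} := isClosed_eq z.continuous z'.continuous
  have hsub : Set.range (evT N ξ γ) ⊆ {x : H | z x = z' x} := by
    rintro _ ⟨t, rfl⟩
    induction t using TensorProduct.induction_on with
    | zero => simp
    | add t₁ t₂ h₁ h₂ =>
      change z _ = z' _ at h₁ h₂ ⊢
      rw [map_add, map_add, map_add, h₁, h₂]
    | tmul a η => exact congrArg (fun T : H →L[ℂ] H => T η) (h a a.2)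
  ext x
  exact closure_minimal hsub hcl (hd x)

lemma exists_ext {F : Type*} [AddCommGroup F] [Module ℂ F] (f e : F →ₗ[ℂ] H) (hd : DenseRange e)
    {C : ℝ} (hC : 0 ≤ C) (h : ∀ t, ‖f t‖ ≤ C * ‖e t‖) :
    ∃ z : H →L[ℂ] H, (∀ t, z (e t) = f t) ∧ ‖z‖ ≤ C :=
  ⟨f.extendOfNorm e, fun t => LinearMap.extendOfNorm_eq hd ⟨C, h⟩ t,
    LinearMap.opNorm_extendOfNorm_le hd hC h⟩

/-- Existence for unitaries. -/
lemma exists_rel_unitary (hirr : TrivialRelComm N ξ) {γ : ℝ} (hγ : γ ≠ 0)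
    (hne : ∃ a ∈ eig N ξ γ, a ≠ 0) (hle : ∀ x ∈ N, x ∈ M) {u : H →L[ℂ] H}
    (hu : u ∈ Qalg M N ξ) (huu : star u * u = 1) :
    ∃ z ∈ Qalg M N ξ, Rel N ξ γ u z ∧ ‖z‖ ≤ 1 := by
  have hd := evT_denseRange hirr hne
  have hu' := mem_Qalg.1 hu
  have hnorm : ∀ t, ‖evTu N ξ γ u t‖ ≤ 1 * ‖evT N ξ γ t‖ := by
    intro t
    have h1 := evTu_inner hγ hu'.2 huu t t
    rw [inner_self_eq_norm_sq_to_K, inner_self_eq_norm_sq_to_K] at h1
    have h2 : ‖evTu N ξ γ u t‖ ^ 2 = ‖evT N ξ γ t‖ ^ 2 := by exact_mod_cast h1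
    rw [one_mul, (pow_left_inj₀ (norm_nonneg _) (norm_nonneg _) two_ne_zero).1 h2]
  obtain ⟨z, hzeq, hz1⟩ := exists_ext (F := (eig N ξ γ) ⊗[ℂ] H) (evTu N ξ γ u) (evT N ξ γ) hd
    zero_le_one hnorm
  have hzeq' : ∀ a ∈ eig N ξ γ, ∀ η, z (a η) = a (u η) := fun a ha η =>
    hzeq ((⟨a, ha⟩ : eig N ξ γ) ⊗ₜ η)
  have hcomm : ∀ g : H →L[ℂ] H, (∀ a ∈ eig N ξ γ, ∀ η, g (z (a η)) = z (g (a η))) →
      g * z = z * g := by
    intro g hg
    have hcl : IsClosed {x : H | (g * z) x = (z * g) x} :=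
      isClosed_eq (g * z).continuous (z * g).continuous
    have hsub : Set.range (evT N ξ γ) ⊆ {x : H | (g * z) x = (z * g) x} := by
      rintro _ ⟨t, rfl⟩
      induction t using TensorProduct.induction_on with
      | zero => simp
      | add t₁ t₂ h₁ h₂ =>
        change (g * z) _ = (z * g) _ at h₁ h₂ ⊢
        rw [map_add, map_add, map_add, h₁, h₂]
      | tmul a η => exact hg a a.2 η
    ext x
    exact closure_minimal hsub hcl (hd x)
  refine ⟨z, mem_Qalg.2 ⟨?_, ?_⟩, ?_, hz1⟩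
  · rw [mem_iff_commutes]
    intro g hg
    refine hcomm g fun a ha η => ?_
    have ha' : a ∈ M := hle a ha.1
    rw [hzeq' a ha, ← commute_apply ha' hg, ← commute_apply ha' hg, hzeq' a ha,
      ← commute_apply hu'.1 hg]
  · intro c hc
    refine hcomm c fun a ha η => ?_
    have h1 := eig_mul hc ha
    rw [one_mul] at h1
    rw [hzeq' a ha]
    have h2 := hzeq' _ h1 η
    exact h2.symm
  · intro a ha
    ext η
    exact (hzeq' a ha η).symm

instance instClosedVN (A : VonNeumannAlgebra H) :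
    IsClosed (A.toStarSubalgebra : Set (H →L[ℂ] H)) := vN_isClosed A

/-- Existence of the transported element. -/
lemma exists_rel (hirr : TrivialRelComm N ξ) {γ : ℝ} (hγ : γ ≠ 0)
    (hne : ∃ a ∈ eig N ξ γ, a ≠ 0) (hle : ∀ x ∈ N, x ∈ M) {y : H →L[ℂ] H}
    (hy : y ∈ Qalg M N ξ) : ∃ z ∈ Qalg M N ξ, Rel N ξ γ y z ∧ ‖z‖ ≤ 2 * ‖y‖ := by
  obtain ⟨u, k, hk, hkn⟩ := CStarAlgebra.exists_sum_four_unitary
    (⟨y, hy⟩ : (Qalg M N ξ).toStarSubalgebra)
  have hy' : y = ∑ i, k i • ((u i : (Qalg M N ξ).toStarSubalgebra) : H →L[ℂ] H) := by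
    have := congrArg (fun z : (Qalg M N ξ).toStarSubalgebra => (z : H →L[ℂ] H)) hk
    simpa using this
  have hex : ∀ i, ∃ z ∈ Qalg M N ξ,
      Rel N ξ γ ((u i : (Qalg M N ξ).toStarSubalgebra) : H →L[ℂ] H) z ∧ ‖z‖ ≤ 1 := by
    intro i
    refine exists_rel_unitary hirr hγ hne hle (u i : (Qalg M N ξ).toStarSubalgebra).2 ?_
    have := Unitary.star_mul_self_of_mem (u i).2
    exact congrArg (fun z : (Qalg M N ξ).toStarSubalgebra => (z : H →L[ℂ] H)) this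
  choose z hzQ hzrel hznorm using hex
  refine ⟨∑ i, k i • z i, sum_mem fun i _ => smul_mem' _ (hzQ i), ?_, ?_⟩
  · intro a ha
    rw [hy', Finset.mul_sum, Finset.sum_mul]
    refine Finset.sum_congr rfl fun i _ => ?_
    rw [mul_smul_comm, smul_mul_assoc, hzrel i a ha]
  · have hkn' : ∀ i, ‖k i‖ ≤ ‖y‖ / 2 := hkn
    calc ‖∑ i, k i • z i‖ ≤ ∑ i, ‖k i • z i‖ := norm_sum_le _ _
      _ ≤ ∑ _i : Fin 4, ‖y‖ / 2 * 1 := by
          refine Finset.sum_le_sum fun i _ => ?_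
          rw [norm_smul]
          gcongr
          · exact hkn' i
          · exact hznorm i
      _ = 2 * ‖y‖ := by
          simp only [Finset.sum_const, Finset.card_univ, Fintype.card_fin, nsmul_eq_mul]
          push_cast
          ring

lemma star_ne {γ : ℝ} (hγ : γ ≠ 0) (hne : ∃ a ∈ eig N ξ γ, a ≠ 0) :
    ∃ a ∈ eig N ξ γ⁻¹, a ≠ 0 := by
  obtain ⟨a, ha, ha0⟩ := hne
  exact ⟨star a, eig_star hγ ha, fun h => ha0 (by simpa using congrArg star h)⟩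

/-- `Rel` and adjoints of the eigenoperators. -/
lemma Rel.star_left {γ : ℝ} {y z : H →L[ℂ] H} (h : Rel N ξ γ y z) {a : H →L[ℂ] H}
    (ha : a ∈ eig N ξ γ) : star y * star a = star a * star z := by
  have := congrArg star (h a ha)
  simpa [star_mul] using this

lemma Rel.star' (hirr : TrivialRelComm N ξ) {γ : ℝ} (hγ : γ ≠ 0)
    (hne : ∃ a ∈ eig N ξ γ, a ≠ 0) {y z : H →L[ℂ] H} (hz : z ∈ Qalg M N ξ)
    (h : Rel N ξ γ y z) : Rel N ξ γ (star y) (star z) := by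
  intro a ha
  refine Rel.unique hirr (inv_ne_zero hγ) (star_ne hγ hne) fun b hb => ?_
  -- b ∈ eig γ⁻¹, b = star c
  have hc : star b ∈ eig N ξ γ := by
    have := eig_star (inv_ne_zero hγ) hb
    rwa [inv_inv] at this
  have h1 := h.star_left hc
  rw [star_star] at h1
  -- star y * b = b * star z
  have h2 : a * b ∈ eig N ξ 1 := by
    have := eig_mul ha hb
    rwa [mul_inv_cancel₀ hγ] at this
  have h3 := (mem_Qalg.1 (star_mem hz)).2 _ h2
  -- (a*b) * star z = star z * (a*b)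
  rw [mul_assoc, h1, ← mul_assoc, h3, mul_assoc]

lemma Rel.mul {γ : ℝ} {y z y' z' : H →L[ℂ] H} (h : Rel N ξ γ y z) (h' : Rel N ξ γ y' z') :
    Rel N ξ γ (y * y') (z * z') := by
  intro a ha
  rw [← mul_assoc, h a ha, mul_assoc, h' a ha, mul_assoc]

lemma Rel.add {γ : ℝ} {y z y' z' : H →L[ℂ] H} (h : Rel N ξ γ y z) (h' : Rel N ξ γ y' z') :
    Rel N ξ γ (y + y') (z + z') := by
  intro a ha
  rw [mul_add, add_mul, h a ha, h' a ha]

lemma Rel.sub {γ : ℝ} {y z y' z' : H →L[ℂ] H} (h : Rel N ξ γ y z) (h' : Rel N ξ γ y' z') :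
    Rel N ξ γ (y - y') (z - z') := by
  intro a ha
  rw [mul_sub, sub_mul, h a ha, h' a ha]

lemma Rel.smul {γ : ℝ} {y z : H →L[ℂ] H} (k : ℂ) (h : Rel N ξ γ y z) :
    Rel N ξ γ (k • y) (k • z) := by
  intro a ha
  rw [mul_smul_comm, smul_mul_assoc, h a ha]

lemma Rel.one (γ : ℝ) : Rel N ξ γ (1 : H →L[ℂ] H) 1 := by
  intro a _
  rw [mul_one, one_mul]

/-- `a* z = y a*` -/
lemma Rel.adj (hirr : TrivialRelComm N ξ) {γ : ℝ} (hγ : γ ≠ 0)
    (hne : ∃ a ∈ eig N ξ γ, a ≠ 0) {y z : H →L[ℂ] H} (hz : z ∈ Qalg M N ξ)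
    (h : Rel N ξ γ y z) {b : H →L[ℂ] H} (hb : b ∈ eig N ξ γ⁻¹) : b * z = y * b := by
  have h1 := h.star' hirr hγ hne hz
  have hc : Star.star b ∈ eig N ξ γ := by
    have := eig_star (inv_ne_zero hγ) hb
    rwa [inv_inv] at this
  have h2 := h1.star_left hc
  simpa using h2.symm

lemma Rel.inv (hirr : TrivialRelComm N ξ) {γ : ℝ} (hγ : γ ≠ 0)
    (hne : ∃ a ∈ eig N ξ γ, a ≠ 0) {y z : H →L[ℂ] H} (hz : z ∈ Qalg M N ξ)
    (h : Rel N ξ γ y z) : Rel N ξ γ⁻¹ z y :=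
  fun _ hb => h.adj hirr hγ hne hz hb

lemma Rel.comp (hirr : TrivialRelComm N ξ) {γ δ : ℝ} (hγ : γ ≠ 0)
    (hne : ∃ a ∈ eig N ξ γ, a ≠ 0) {y z w : H →L[ℂ] H} (hz : z ∈ Qalg M N ξ)
    (h : Rel N ξ γ y z) (h' : Rel N ξ δ z w) : Rel N ξ (δ * γ) y w := by
  intro c hc
  refine Rel.unique hirr (inv_ne_zero hγ) (star_ne hγ hne) fun b hb => ?_
  have h1 : c * b ∈ eig N ξ δ := by
    have := eig_mul hc hb
    rwa [mul_assoc, mul_inv_cancel₀ hγ, mul_one] at this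
  have h2 := h' _ h1
  have h3 := h.adj hirr hγ hne hz hb
  rw [mul_assoc, ← h3, ← mul_assoc, h2, mul_assoc]

namespace Setting

variable (S : Setting M N E ξ) (hirr : TrivialRelComm N ξ)
include S hirr

lemma E_Q {y : H →L[ℂ] H} (hy : y ∈ Qalg M N ξ) :
    E y = ⟪ξ, y ξ⟫_ℂ • (1 : H →L[ℂ] H) := by
  have hy' := mem_Qalg.1 hy
  obtain ⟨c, hc⟩ := hirr (E y) (S.E_mem y hy'.1) (by
    intro a ha
    have h1 := S.E_bimod a ha.1 1 (one_mem N) y hy'.1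
    have h2 := S.E_bimod 1 (one_mem N) a ha.1 y hy'.1
    rw [mul_one, mul_one] at h1
    rw [one_mul, one_mul] at h2
    rw [← h1, ← h2, hy'.2 a ha])
  have h3 := S.E_state y hy'.1
  rw [hc] at h3 ⊢
  rw [← h3, smul_apply, one_apply_eq_self, inner_smul_right, S.inner_self, mul_one]

/-- independence of `Q` and `N` (matrix coefficient form) -/
lemma inner_Q {y a b : H →L[ℂ] H} (hy : y ∈ Qalg M N ξ) (ha : a ∈ N) (hb : b ∈ N) :
    ⟪a ξ, y (b ξ)⟫_ℂ = ⟪ξ, y ξ⟫_ℂ * ⟪a ξ, b ξ⟫_ℂ := by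
  rw [← S.E_inner ha hb (mem_Qalg.1 hy).1, S.E_Q hirr hy, smul_apply, one_apply_eq_self,
    inner_smul_right]

lemma inner_QQ {y z a b : H →L[ℂ] H} (hy : y ∈ Qalg M N ξ) (hz : z ∈ Qalg M N ξ)
    (ha : a ∈ N) (hb : b ∈ N) :
    ⟪y (a ξ), z (b ξ)⟫_ℂ = ⟪y ξ, z ξ⟫_ℂ * ⟪a ξ, b ξ⟫_ℂ := by
  have h := S.inner_Q hirr (mul_mem (star_mem hy) hz) ha hb
  change ⟪a ξ, (star y) (z (b ξ))⟫_ℂ = ⟪ξ, (star y) (z ξ)⟫_ℂ * _ at h
  rwa [inner_star_right, inner_star_right] at h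

lemma norm_Q {y a : H →L[ℂ] H} (hy : y ∈ Qalg M N ξ) (ha : a ∈ N) :
    ‖y (a ξ)‖ = ‖y ξ‖ * ‖a ξ‖ := by
  have h := S.inner_QQ hirr hy hy ha ha
  simp only [inner_self_eq_norm_sq_to_K] at h
  have h2 : ‖y (a ξ)‖ ^ 2 = (‖y ξ‖ * ‖a ξ‖) ^ 2 := by
    have h3 : ((‖y (a ξ)‖ ^ 2 : ℝ) : ℂ) = (((‖y ξ‖ * ‖a ξ‖) ^ 2 : ℝ) : ℂ) := by
      push_cast
      rw [mul_pow]
      exact h
    exact Complex.ofReal_injective h3
  exact (pow_left_inj₀ (norm_nonneg _) (by positivity) two_ne_zero).1 h2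

/-- `Rel` preserves the state. -/
lemma rel_state {γ : ℝ} (hne : ∃ a ∈ eig N ξ γ, a ≠ 0) {y z : H →L[ℂ] H}
    (hy : y ∈ Qalg M N ξ) (hz : z ∈ Qalg M N ξ) (h : Rel N ξ γ y z) :
    ⟪ξ, z ξ⟫_ℂ = ⟪ξ, y ξ⟫_ℂ := by
  obtain ⟨a, ha, ha0⟩ := hne
  have h1 := S.inner_Q hirr hz ha.1 ha.1
  have h2 : z (a ξ) = a (y ξ) := (congrArg (fun T : H →L[ℂ] H => T ξ) (h a ha)).symm
  rw [h2, ← inner_star_left] at h1
  have h3 := S.inner_Q hirr hy (a := star a * a) (b := 1) (mul_mem (star_mem ha.1) ha.1)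
    (one_mem N)
  change ⟪(star a) (a ξ), y ξ⟫_ℂ = _ * ⟪(star a) (a ξ), ξ⟫_ℂ at h3
  rw [h3, inner_star_left] at h1
  have haξ : a ξ ≠ 0 := fun h0 => ha0 (S.sep a (S.le a ha.1) h0)
  have h4 : ⟪a ξ, a ξ⟫_ℂ ≠ 0 := inner_self_ne_zero.2 haξ
  exact (mul_right_cancel₀ h4 h1).symm

lemma rel_norm {γ : ℝ} (hγ : γ ≠ 0) (hne : ∃ a ∈ eig N ξ γ, a ≠ 0) {y z : H →L[ℂ] H}
    (hy : y ∈ Qalg M N ξ) (hz : z ∈ Qalg M N ξ) (h : Rel N ξ γ y z) : ‖z ξ‖ = ‖y ξ‖ := by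
  have h1 := S.rel_state hirr hne (mul_mem (star_mem hy) hy) (mul_mem (star_mem hz) hz)
    ((h.star' hirr hγ hne hz).mul h)
  change ⟪ξ, (star z) (z ξ)⟫_ℂ = ⟪ξ, (star y) (y ξ)⟫_ℂ at h1
  rw [inner_star_right, inner_star_right, inner_self_eq_norm_sq_to_K,
    inner_self_eq_norm_sq_to_K] at h1
  have h2 : ‖z ξ‖ ^ 2 = ‖y ξ‖ ^ 2 := by exact_mod_cast h1
  exact (pow_left_inj₀ (norm_nonneg _) (norm_nonneg _) two_ne_zero).1 h2

/-- the second independence relation -/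
lemma inner_NQ (hAP : AlmostPeriodic N ξ) {y z c : H →L[ℂ] H} (hy : y ∈ Qalg M N ξ)
    (hz : z ∈ Qalg M N ξ) (hc : c ∈ N) :
    ⟪y ξ, c (z ξ)⟫_ℂ = ⟪y ξ, z ξ⟫_ℂ * ⟪ξ, c ξ⟫_ℂ := by
  refine functional_eq_of_eig hAP (fun γ hγ a ha => ?_) hc
  by_cases hγ1 : γ = 1
  · subst hγ1
    have h1 : a (z ξ) = z (a ξ) :=
      congrArg (fun T : H →L[ℂ] H => T ξ) ((mem_Qalg.1 hz).2 a ha)
    rw [h1]
    have := S.inner_QQ hirr hy hz (one_mem N) ha.1
    simpa using this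
  · have h0 : ⟪ξ, a ξ⟫_ℂ = 0 := by
      have h1 := ha.2 1 (one_mem N)
      simp only [one_apply_eq_self] at h1
      have h2 : ((1 : ℂ) - γ) * ⟪ξ, a ξ⟫_ℂ = 0 := by
        rw [sub_mul, one_mul, sub_eq_zero]; exact h1
      rcases mul_eq_zero.1 h2 with h | h
      · exfalso
        apply hγ1
        have : ((γ : ℝ) : ℂ) = ((1 : ℝ) : ℂ) := by
          rw [sub_eq_zero] at h
          rw [← h]; simp
        exact Complex.ofReal_injective this
      · exact h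
    rw [h0, mul_zero]
    by_cases ha0 : a = 0
    · simp [ha0]
    obtain ⟨z', hz', hrel, -⟩ := exists_rel hirr hγ.ne' ⟨a, ha, ha0⟩ S.le hz
    have h1 : a (z ξ) = z' (a ξ) := congrArg (fun T : H →L[ℂ] H => T ξ) (hrel a ha)
    rw [h1]
    have := S.inner_QQ hirr hy hz' (one_mem N) ha.1
    simp only [one_apply_eq_self] at this
    rw [this, h0, mul_zero]

lemma inner_NNQ (hAP : AlmostPeriodic N ξ) {y z a b : H →L[ℂ] H} (hy : y ∈ Qalg M N ξ)
    (hz : z ∈ Qalg M N ξ) (ha : a ∈ N) (hb : b ∈ N) :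
    ⟪a (y ξ), b (z ξ)⟫_ℂ = ⟪y ξ, z ξ⟫_ℂ * ⟪a ξ, b ξ⟫_ℂ := by
  have h := S.inner_NQ hirr hAP hy hz (mul_mem (star_mem ha) hb)
  change ⟪y ξ, (star a) (b (z ξ))⟫_ℂ = _ * ⟪ξ, (star a) (b ξ)⟫_ℂ at h
  rwa [inner_star_right, inner_star_right] at h

lemma norm_NQ (hAP : AlmostPeriodic N ξ) {z a : H →L[ℂ] H}
    (hz : z ∈ Qalg M N ξ) (ha : a ∈ N) : ‖a (z ξ)‖ = ‖z ξ‖ * ‖a ξ‖ := by
  have h := S.inner_NNQ hirr hAP hz hz ha ha
  simp only [inner_self_eq_norm_sq_to_K] at h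
  have h2 : ‖a (z ξ)‖ ^ 2 = (‖z ξ‖ * ‖a ξ‖) ^ 2 := by
    have h3 : ((‖a (z ξ)‖ ^ 2 : ℝ) : ℂ) = (((‖z ξ‖ * ‖a ξ‖) ^ 2 : ℝ) : ℂ) := by
      push_cast
      rw [mul_pow]
      exact h
    exact Complex.ofReal_injective h3
  exact (pow_left_inj₀ (norm_nonneg _) (by positivity) two_ne_zero).1 h2

end Setting

end Pool.Agent.Helper23
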