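import Pool.Agent.Helper23.Sur

/-!
# The reverse inclusion: commutation with the centralizer of the weight implies asymptotic
commutation with almost centralizing sequences
-/

open scoped InnerProductSpace Topology ENNReal
open ContinuousLinearMap Filter MeasureTheory

namespace Pool.Agent.Helper23

variable {H : Type*} [NormedAddCommGroup H] [InnerProductSpace ℂ H] [CompleteSpace H]
variable {M N : VonNeumannAlgebra H} {ξ : H} {E : (H →L[ℂ] H) → (H →L[ℂ] H)}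

namespace AP

variable (S : AP M N E ξ)
include S

/-- independence for operators of the amplification -/
lemma norm_amp_Q {Z : L2R H →L[ℂ] L2R H} (hZ : Z ∈ amp N) {x : H →L[ℂ] H}
    (hx : x ∈ Qalg M N ξ) (f : L2R ℂ) : ‖Z (ten f (x ξ))‖ = ‖x ξ‖ * ‖Z (ten f ξ)‖ := by
  have key : ∀ η : H, ⟪Z (ten f η), Z (ten f η)⟫_ℂ = ⟪η, slX (star Z * Z) f f η⟫_ℂ := by
    intro η
    rw [inner_slX]
    change _ = ⟪ten f η, (star Z) (Z (ten f η))⟫_ℂ
    rw [star_eq_adjoint, adjoint_inner_right]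
  have h1 := key (x ξ)
  rw [S.inner_NQ hx hx (slX_mem (mul_mem (star_mem hZ) hZ) f f), ← key ξ] at h1
  rw [inner_self_eq_norm_sq_to_K, inner_self_eq_norm_sq_to_K, inner_self_eq_norm_sq_to_K] at h1
  have h2 : ‖Z (ten f (x ξ))‖ ^ 2 = (‖x ξ‖ * ‖Z (ten f ξ)‖) ^ 2 := by
    rw [mul_pow]
    exact_mod_cast h1
  exact (pow_left_inj₀ (norm_nonneg _) (by positivity) two_ne_zero).1 h2

/-- the first error term -/
lemma norm_lift_sub_piK {x : H →L[ℂ] H} (hx : InB M N ξ x) (f : L2R ℂ) {u : H →L[ℂ] H}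
    (hu : u ∈ N) (hu1 : star u * u = 1) :
    ‖ten f (x (u ξ)) - piK M N ξ x (ten f (u ξ))‖ = ‖ten f (x ξ) - piK M N ξ x (ten f ξ)‖ := by
  have h1 : ‖ten f (x (u ξ)) - piK M N ξ x (ten f (u ξ))‖ ≤
      1 * ‖ten f (x ξ) - piK M N ξ x (ten f ξ)‖ := by
    refine Lp.norm_le_mul_norm_of_ae_le_mul ?_
    filter_upwards [Lp.coeFn_sub (ten f (x (u ξ))) (piK M N ξ x (ten f (u ξ))),
      Lp.coeFn_sub (ten f (x ξ)) (piK M N ξ x (ten f ξ)), ten_coe f (x (u ξ)),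
      ten_coe f (x ξ), S.piK_coe hx (ten f (u ξ)), S.piK_coe hx (ten f ξ),
      ten_coe f (u ξ), ten_coe f ξ] with s e1 e2 e3 e4 e5 e6 e7 e8
    have hQ : x - bet M N ξ (Real.exp s) x ∈ Qalg M N ξ :=
      sub_mem hx.1 (S.bet_memQ hx (Real.exp_pos s))
    rw [e1, e2, Pi.sub_apply, Pi.sub_apply, e3, e4, e5, e6, e7, e8, map_smul, map_smul,
      ← smul_sub, ← smul_sub, norm_smul, norm_smul, one_mul, ← sub_apply, ← sub_apply,
      S.norm_Q S.irr hQ hu, norm_of_isom hu1, S.norm_one, mul_one]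
  have h2 : ‖ten f (x ξ) - piK M N ξ x (ten f ξ)‖ ≤
      1 * ‖ten f (x (u ξ)) - piK M N ξ x (ten f (u ξ))‖ := by
    refine Lp.norm_le_mul_norm_of_ae_le_mul ?_
    filter_upwards [Lp.coeFn_sub (ten f (x (u ξ))) (piK M N ξ x (ten f (u ξ))),
      Lp.coeFn_sub (ten f (x ξ)) (piK M N ξ x (ten f ξ)), ten_coe f (x (u ξ)),
      ten_coe f (x ξ), S.piK_coe hx (ten f (u ξ)), S.piK_coe hx (ten f ξ),
      ten_coe f (u ξ), ten_coe f ξ] with s e1 e2 e3 e4 e5 e6 e7 e8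
    have hQ : x - bet M N ξ (Real.exp s) x ∈ Qalg M N ξ :=
      sub_mem hx.1 (S.bet_memQ hx (Real.exp_pos s))
    rw [e1, e2, Pi.sub_apply, Pi.sub_apply, e3, e4, e5, e6, e7, e8, map_smul, map_smul,
      ← smul_sub, ← smul_sub, norm_smul, norm_smul, one_mul, ← sub_apply, ← sub_apply,
      S.norm_Q S.irr hQ hu, norm_of_isom hu1, S.norm_one, mul_one]
  linarith

/-- The reverse inclusion. -/
theorem bicent_of_comm
    (hnear : ∀ u : ℕ → H →L[ℂ] H, ACU N ξ u → ∃ U : ℕ → (L2R H →L[ℂ] L2R H),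
      (∀ n, U n ∈ GK N ξ) ∧
      ∀ f : L2R ℂ, Tendsto (fun n => ‖U n (ten f ξ) - ten f (u n ξ)‖) atTop (𝓝 0))
    {x : H →L[ℂ] H} (hx : InB M N ξ x)
    (hcomm : ∀ u ∈ GK N ξ, u * piK M N ξ x = piK M N ξ x * u) : x ∈ Bicent M N ξ := by
  refine S.bicent_of_unitary (mem_Qalg.1 hx.1).1 fun u hu => ?_
  obtain ⟨U, hU, hUf⟩ := hnear u hu
  rw [Metric.tendsto_atTop]
  intro ε hε
  obtain ⟨k, hk⟩ := Metric.tendsto_atTop.1 (S.piK_fn hx) (ε / 8) (by positivity)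
  have hk := hk k le_rfl
  rw [Real.dist_eq, sub_zero, abs_of_nonneg (norm_nonneg _)] at hk
  set f := fn k with hf
  set C : ℝ := ‖piK M N ξ x‖ + ‖x ξ‖ + 1 with hC
  have hC0 : 0 < C := by positivity
  obtain ⟨n0, hn0⟩ := Metric.tendsto_atTop.1 (hUf f) (ε / (4 * C)) (by positivity)
  refine ⟨n0, fun n hn => ?_⟩
  have h1 := hn0 n hn
  rw [Real.dist_eq, sub_zero, abs_of_nonneg (norm_nonneg _)] at h1
  rw [dist_zero_right]
  have hiso := (hU n).2.1
  -- transfer to the amplification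
  have e0 : ‖x (u n ξ) - u n (x ξ)‖ = ‖ten f (x (u n ξ)) - ten f (u n (x ξ))‖ := by
    have : ten f (x (u n ξ)) - ten f (u n (x ξ)) = ten f (x (u n ξ) - u n (x ξ)) :=
      (map_sub (iot H f) _ _).symm
    rw [this, norm_ten, hf, fn_norm, one_mul]
  have hcom : U n (piK M N ξ x (ten f ξ)) = piK M N ξ x (U n (ten f ξ)) :=
    congrArg (fun T : L2R H →L[ℂ] L2R H => T (ten f ξ)) (hcomm _ (hU n))
  have e1 : ten f (x (u n ξ)) - ten f (u n (x ξ)) =
      (ten f (x (u n ξ)) - piK M N ξ x (ten f (u n ξ))) -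
      piK M N ξ x (U n (ten f ξ) - ten f (u n ξ)) +
      U n (piK M N ξ x (ten f ξ) - ten f (x ξ)) +
      (U n - lift (u n)) (ten f (x ξ)) := by
    rw [sub_apply, lift_ten, map_sub, map_sub, hcom]
    abel
  rw [e0, e1]
  have t1 : ‖ten f (x (u n ξ)) - piK M N ξ x (ten f (u n ξ))‖ < ε / 8 := by
    rw [S.norm_lift_sub_piK hx f (hu.1 n) (hu.2.1 n)]
    exact hk
  have t2 : ‖piK M N ξ x (U n (ten f ξ) - ten f (u n ξ))‖ ≤ ε / 4 := by
    refine ((piK M N ξ x).le_opNorm _).trans ?_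
    calc ‖piK M N ξ x‖ * ‖U n (ten f ξ) - ten f (u n ξ)‖ ≤ C * (ε / (4 * C)) := by
          gcongr
          rw [hC]; linarith [norm_nonneg (x ξ)]
      _ = ε / 4 := by field_simp
  have t3 : ‖U n (piK M N ξ x (ten f ξ) - ten f (x ξ))‖ < ε / 8 := by
    rw [norm_of_isom hiso, norm_sub_rev]
    exact hk
  have t4 : ‖(U n - lift (u n)) (ten f (x ξ))‖ ≤ ε / 4 := by
    rw [S.norm_amp_Q (sub_mem (hU n).1 (lift_mem_amp (hu.1 n))) hx.1, sub_apply, lift_ten]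
    calc ‖x ξ‖ * ‖U n (ten f ξ) - ten f (u n ξ)‖ ≤ C * (ε / (4 * C)) := by
          gcongr
          rw [hC]; linarith [norm_nonneg (piK M N ξ x)]
      _ = ε / 4 := by field_simp
  calc _ ≤ ‖(ten f (x (u n ξ)) - piK M N ξ x (ten f (u n ξ))) -
        piK M N ξ x (U n (ten f ξ) - ten f (u n ξ)) +
        U n (piK M N ξ x (ten f ξ) - ten f (x ξ))‖ +
        ‖(U n - lift (u n)) (ten f (x ξ))‖ := norm_add_le _ _
    _ ≤ (‖(ten f (x (u n ξ)) - piK M N ξ x (ten f (u n ξ))) -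
        piK M N ξ x (U n (ten f ξ) - ten f (u n ξ))‖ +
        ‖U n (piK M N ξ x (ten f ξ) - ten f (x ξ))‖) +
        ‖(U n - lift (u n)) (ten f (x ξ))‖ := by gcongr; exact norm_add_le _ _
    _ ≤ ((‖ten f (x (u n ξ)) - piK M N ξ x (ten f (u n ξ))‖ +
        ‖piK M N ξ x (U n (ten f ξ) - ten f (u n ξ))‖) +
        ‖U n (piK M N ξ x (ten f ξ) - ten f (x ξ))‖) +
        ‖(U n - lift (u n)) (ten f (x ξ))‖ := by gcongr; exact norm_sub_le _ _
    _ < ε := by linarith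

end AP

end Pool.Agent.Helper23
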