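import Pool.Agent.Helper23.Irr

/-!
# The relative commutant is the image of the bicentralizer
-/

open scoped InnerProductSpace Topology ENNReal
open ContinuousLinearMap Filter MeasureTheory

set_option linter.unusedSectionVars false
set_option linter.unusedVariables false

namespace Pool.Agent.Helper23

variable {H : Type*} [NormedAddCommGroup H] [InnerProductSpace ℂ H] [CompleteSpace H]
variable {M N : VonNeumannAlgebra H} {ξ : H} {E : (H →L[ℂ] H) → (H →L[ℂ] H)}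

lemma Rk0_mul {X Y : L2R H →L[ℂ] L2R H} (hX : X ∈ Rk0 M N ξ) (hY : Y ∈ Rk0 M N ξ) :
    X * Y ∈ Rk0 M N ξ :=
  ⟨mul_mem hX.1 hY.1, fun u hu => by
    rw [← mul_assoc, hX.2 u hu, mul_assoc, hY.2 u hu, mul_assoc]⟩

lemma Rk0_sub {X Y : L2R H →L[ℂ] L2R H} (hX : X ∈ Rk0 M N ξ) (hY : Y ∈ Rk0 M N ξ) :
    X - Y ∈ Rk0 M N ξ :=
  ⟨sub_mem hX.1 hY.1, fun u hu => by rw [mul_sub, sub_mul, hX.2 u hu, hY.2 u hu]⟩

lemma Rk0_star {X : L2R H →L[ℂ] L2R H} (hX : X ∈ Rk0 M N ξ) : star X ∈ Rk0 M N ξ :=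
  ⟨star_mem hX.1, fun u hu => by
    have := congrArg star (hX.2 _ (G0_star hu))
    rw [star_mul, star_mul, star_star] at this
    exact this.symm⟩

/-- unit vectors concentrated near zero -/
noncomputable def fn (n : ℕ) : L2R ℂ :=
  indicatorConstLp 2 (measurableSet_Ico (a := (0 : ℝ)) (b := 1 / (n + 1))) (by simp)
    (((Real.sqrt (n + 1) : ℝ) : ℂ))

lemma fn_norm (n : ℕ) : ‖fn n‖ = 1 := by
  rw [fn, norm_indicatorConstLp (by norm_num) (by norm_num)]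
  have h1 : (volume : Measure ℝ).real (Set.Ico (0 : ℝ) (1 / (n + 1))) = 1 / (n + 1) := by
    rw [Measure.real, Real.volume_Ico, sub_zero, ENNReal.toReal_ofReal (by positivity)]
  rw [h1, Complex.norm_real, Real.norm_of_nonneg (Real.sqrt_nonneg _)]
  simp only [ENNReal.toReal_ofNat]
  rw [← Real.sqrt_eq_rpow, ← Real.sqrt_mul (by positivity), mul_one_div_cancel (by positivity),
    Real.sqrt_one]

lemma fn_coe (n : ℕ) : fn n =ᵐ[volume]
    (Set.Ico (0 : ℝ) (1 / (n + 1))).indicator fun _ => (((Real.sqrt (n + 1) : ℝ) : ℂ)) :=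
  indicatorConstLp_coeFn

namespace AP

variable (S : AP M N E ξ)
include S

lemma Rk_scalar {Z : L2R H →L[ℂ] L2R H} (hZ : Z ∈ Rk0 M N ξ) : ∃ c : ℂ, ∀ f1 f2 : L2R ℂ,
    ⟪ten f1 ξ, Z (ten f2 ξ)⟫_ℂ = c * ⟪f1, f2⟫_ℂ := by
  obtain ⟨c, hc⟩ := scalar_of_comm (R := RR Z ξ ξ) (by
    intro m hm f
    refine ext_inner_left ℂ fun g => ?_
    rw [inner_RR, ← mulOp_adj hm, inner_RR, ← mulOp_ten hm, ← Rk_mulOp_apply hZ hm,
      ← mulOp_adj hm, mulOp_ten hm.conj]) (by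
    intro t f
    refine ext_inner_left ℂ fun g => ?_
    have h1 : ⟪g, tr ℂ t (RR Z ξ ξ f)⟫_ℂ = ⟪tr ℂ (-t) g, RR Z ξ ξ f⟫_ℂ := by
      rw [tr_adj, neg_neg]
    rw [h1, inner_RR, inner_RR, ← inner_slX, ← inner_slX]
    have h2 := S.Rk_slX_bet hZ (tr ℂ (-t) g) f (Real.exp_pos t)
    rw [Real.log_exp, tr_tr_neg] at h2
    rw [← h2, S.bet_state (S.Rk_slX_InB hZ _ _) (Real.exp_pos t)])
  refine ⟨c, fun f1 f2 => ?_⟩
  rw [← inner_RR, hc, smul_apply, inner_smul_right]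
  rfl

/-- the value of the state on the relative commutant -/
lemma Rk_scalar' {Z : L2R H →L[ℂ] L2R H} (hZ : Z ∈ Rk0 M N ξ) {f : L2R ℂ} (hf : ‖f‖ = 1)
    (f1 f2 : L2R ℂ) :
    ⟪ten f1 ξ, Z (ten f2 ξ)⟫_ℂ = ⟪ten f ξ, Z (ten f ξ)⟫_ℂ * ⟪f1, f2⟫_ℂ := by
  obtain ⟨c, hc⟩ := S.Rk_scalar hZ
  rw [hc, hc, inner_self_eq_norm_sq_to_K (𝕜 := ℂ) f, hf]
  simp

lemma xi_mem_K0 : ξ ∈ K0 N ξ := by
  have := mem_K0 (ξ := ξ) (one_mem N)
  simpa using this

lemma inner_piK_ten {x y : H →L[ℂ] H} (hx : InB M N ξ x) (hy : InB M N ξ y) (f g : L2R ℂ) :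
    ⟪piK M N ξ y (ten f ξ), piK M N ξ x (ten g ξ)⟫_ℂ = ⟪y ξ, x ξ⟫_ℂ * ⟪f, g⟫_ℂ := by
  rw [S.inner_piK hx hy (ten_ae_mem f S.xi_mem_K0) (ten_ae_mem g S.xi_mem_K0), inner_ten,
    S.inner_self, mul_one]

/-- `π(y)(f_n ⊗ ξ)` is close to `f_n ⊗ yξ` -/
lemma piK_fn {y : H →L[ℂ] H} (hy : InB M N ξ y) :
    Tendsto (fun n => ‖ten (fn n) (y ξ) - piK M N ξ y (ten (fn n) ξ)‖) atTop (𝓝 0) := by
  rw [Metric.tendsto_atTop]
  intro ε hε
  have hcont := S.bet_exp_cont hy ξ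
  obtain ⟨δ, hδ, hδ'⟩ := Metric.continuousAt_iff.1 (hcont.continuousAt (x := 0)) (ε / 2)
    (by positivity)
  obtain ⟨n0, hn0⟩ := exists_nat_one_div_lt hδ
  refine ⟨n0, fun n hn => ?_⟩
  rw [Real.dist_eq, sub_zero, abs_of_nonneg (norm_nonneg _)]
  have h1 : ‖ten (fn n) (y ξ) - piK M N ξ y (ten (fn n) ξ)‖ ≤ ε / 2 * ‖fn n‖ := by
    refine Lp.norm_le_mul_norm_of_ae_le_mul ?_
    filter_upwards [Lp.coeFn_sub (ten (fn n) (y ξ)) (piK M N ξ y (ten (fn n) ξ)),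
      ten_coe (fn n) (y ξ), S.piK_coe hy (ten (fn n) ξ), ten_coe (fn n) ξ, fn_coe n]
      with s e1 e2 e3 e4 e5
    rw [e1, Pi.sub_apply, e2, e3, e4, map_smul, ← smul_sub, norm_smul, mul_comm]
    by_cases hs : s ∈ Set.Ico (0 : ℝ) (1 / (n + 1))
    · gcongr
      have h2 : dist s 0 < δ := by
        rw [Real.dist_eq, sub_zero, abs_of_nonneg hs.1]
        have h3 : (1 : ℝ) / (n + 1) ≤ 1 / (n0 + 1) := by
          have : (n0 : ℝ) ≤ n := by exact_mod_cast hn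
          gcongr
        linarith [hs.2]
      have h3 := hδ' h2
      rw [dist_eq_norm, Real.exp_zero, S.bet_id hy, norm_sub_rev] at h3
      exact h3.le
    · rw [e5, Set.indicator_of_notMem hs, norm_zero, mul_zero, mul_zero]
  rw [fn_norm, mul_one] at h1
  linarith

lemma orthogonal_of_piK {F : L2R H}
    (h : ∀ y, InB M N ξ y → ∀ f : L2R ℂ, ⟪piK M N ξ y (ten f ξ), F⟫_ℂ = 0)
    {y : H →L[ℂ] H} (hy : InB M N ξ y) (f : L2R ℂ) : ⟪ten f (y ξ), F⟫_ℂ = 0 := by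
  -- pointwise orthogonality for a single element
  have h1 : ∀ z, InB M N ξ z → ∀ᵐ s, ⟪bet M N ξ (Real.exp s) z ξ, F s⟫_ℂ = 0 := by
    intro z hz
    -- the function `s ↦ ⟪β z ξ, F s⟫` is in `L²`
    have hmem : MemLp (fun s => ⟪bet M N ξ (Real.exp s) z ξ, F s⟫_ℂ) 2 volume := by
      refine MemLp.of_le_mul (c := ‖z ξ‖) (Lp.memLp F) ?_ (Eventually.of_forall fun s => ?_)
      · exact ((S.bet_exp_cont hz ξ).aestronglyMeasurable).inner (Lp.aestronglyMeasurable F)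
      · refine (norm_inner_le_norm _ _).trans ?_
        rw [S.bet_norm hz (Real.exp_pos s)]
    have h2 : hmem.toLp _ = 0 := by
      refine ext_inner_left ℂ fun g => ?_
      rw [inner_zero_right, ← h z hz g, L2.inner_def, L2.inner_def]
      refine integral_congr_ae ?_
      filter_upwards [hmem.coeFn_toLp, S.piK_coe hz (ten g ξ), ten_coe g ξ] with s e1 e2 e3
      rw [e1, e2, e3, map_smul, inner_smul_left]
      simp only [RCLike.inner_apply]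
      ring
    have h3 := hmem.coeFn_toLp
    rw [h2] at h3
    filter_upwards [h3, Lp.coeFn_zero ℂ 2 volume] with s e1 e2
    rw [← e1, e2]; rfl
  have h2 : ∀ᵐ s, ∀ q : ℚ, ⟪bet M N ξ (Real.exp (s - q)) y ξ, F s⟫_ℂ = 0 := by
    refine ae_all_iff.2 fun q => ?_
    filter_upwards [h1 _ (S.InB_bet hy (Real.exp_pos (-q)))] with s e1
    rwa [S.bet_bet hy (Real.exp_pos s) (Real.exp_pos _), ← Real.exp_add, ← sub_eq_add_neg] at e1
  have h3 : ∀ᵐ s, ⟪y ξ, F s⟫_ℂ = 0 := by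
    filter_upwards [h2] with s hs
    have hcl : IsClosed {t : ℝ | ⟪bet M N ξ (Real.exp (s - t)) y ξ, F s⟫_ℂ = 0} := by
      refine isClosed_eq ?_ continuous_const
      exact ((S.bet_exp_cont hy ξ).comp (continuous_const.sub continuous_id)).inner
        continuous_const
    have hd : Dense (Set.range ((↑) : ℚ → ℝ)) := Rat.denseRange_cast
    have hsub : Set.range ((↑) : ℚ → ℝ) ⊆
        {t : ℝ | ⟪bet M N ξ (Real.exp (s - t)) y ξ, F s⟫_ℂ = 0} := by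
      rintro _ ⟨q, rfl⟩
      exact hs q
    have := closure_minimal hsub hcl (hd s)
    change ⟪bet M N ξ (Real.exp (s - s)) y ξ, F s⟫_ℂ = 0 at this
    rwa [sub_self, Real.exp_zero, S.bet_id hy] at this
  rw [L2.inner_def]
  refine (integral_congr_ae ?_).trans (integral_zero _ _)
  filter_upwards [h3, ten_coe f (y ξ)] with s e1 e2
  rw [e2, inner_smul_left, e1, mul_zero]

/-- an element of the relative commutant orthogonal to the image of the bicentralizer is zero -/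
lemma Rk_eq_zero {X : L2R H →L[ℂ] L2R H} (hX : X ∈ Rk0 M N ξ)
    (h : ∀ y, InB M N ξ y → ∀ f1 f2 : L2R ℂ, ⟪piK M N ξ y (ten f1 ξ), X (ten f2 ξ)⟫_ℂ = 0) :
    X = 0 := by
  refine amp_ext (ξ := ξ) S.dense_comm hX.1 (zero_mem _) fun f2 => ?_
  rw [zero_apply]
  refine eq_zero_of_ten fun f1 η => ?_
  have h1 := S.orthogonal_of_piK (fun y hy f => h y hy f f2) (S.Rk_slX_InB hX f1 f2) f1
  rw [← inner_slX, inner_self_eq_zero] at h1
  rw [← inner_slX, h1, inner_zero_right]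

theorem Rk_sur {X : L2R H →L[ℂ] L2R H} (hX : X ∈ Rk0 M N ξ) :
    ∃ x, InB M N ξ x ∧ X = piK M N ξ x := by
  -- the space of the bicentralizer
  set Bs : Submodule ℂ (H →L[ℂ] H) :=
    { carrier := {x | InB M N ξ x}
      add_mem' := fun hx hy => S.InB_add hx hy
      zero_mem' := by
        have := S.InB_smul 0 S.InB_one
        rwa [zero_smul] at this
      smul_mem' := fun c x hx => S.InB_smul c hx } with hBs
  set V : Submodule ℂ H := (Bs.map (evξ ξ)).topologicalClosure with hV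
  have hVc : IsClosed (V : Set H) := Submodule.isClosed_topologicalClosure _
  have : CompleteSpace V := hVc.completeSpace_coe
  have hBV : ∀ y, InB M N ξ y → y ξ ∈ V := fun y hy =>
    Submodule.le_topologicalClosure _ ⟨y, hy, rfl⟩
  have hVcl : ∀ v ∈ V, v ∈ closure {v : H | ∃ y, InB M N ξ y ∧ v = y ξ} := by
    intro v hv
    have h1 : (V : Set H) = closure ((Bs.map (evξ ξ) : Submodule ℂ H) : Set H) :=
      Submodule.topologicalClosure_coe _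
    have h2 : v ∈ closure ((Bs.map (evξ ξ) : Submodule ℂ H) : Set H) := by
      rw [← h1]; exact hv
    refine closure_mono ?_ h2
    rintro _ ⟨y, hy, rfl⟩
    exact ⟨y, hy, rfl⟩
  set e : Bs →ₗ[ℂ] V :=
    { toFun := fun y => ⟨(y : H →L[ℂ] H) ξ, hBV _ y.2⟩
      map_add' := fun _ _ => rfl
      map_smul' := fun _ _ => rfl } with he
  set f : Bs →ₗ[ℂ] L2R H :=
    { toFun := fun y => piK M N ξ (y : H →L[ℂ] H) (ten e0 ξ)
      map_add' := fun y z => by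
        change piK M N ξ ((y : H →L[ℂ] H) + z) _ = _
        rw [S.piK_add y.2 z.2]; rfl
      map_smul' := fun c y => by
        change piK M N ξ (c • (y : H →L[ℂ] H)) _ = _
        rw [S.piK_smul c y.2]; rfl } with hf
  have hed : DenseRange e := by
    intro v
    rw [Metric.mem_closure_iff]
    intro ε hε
    obtain ⟨w, ⟨y, hy, rfl⟩, hw⟩ := Metric.mem_closure_iff.1 (hVcl v.1 v.2) ε hε
    exact ⟨e ⟨y, hy⟩, ⟨_, rfl⟩, hw⟩
  have he0 : ⟪e0, e0⟫_ℂ = 1 := by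
    rw [inner_self_eq_norm_sq_to_K, e0_norm]; simp
  obtain ⟨z, hz, -⟩ := exists_ext' f e hed (C := 1) zero_le_one (by
    intro y
    rw [one_mul]
    have h1 := S.inner_piK_ten y.2 y.2 e0 e0
    rw [he0, mul_one, inner_self_eq_norm_sq_to_K, inner_self_eq_norm_sq_to_K] at h1
    have h2 : ‖piK M N ξ (y : H →L[ℂ] H) (ten e0 ξ)‖ ^ 2 = ‖(y : H →L[ℂ] H) ξ‖ ^ 2 := by
      exact_mod_cast h1
    exact ((pow_left_inj₀ (norm_nonneg _) (norm_nonneg _) two_ne_zero).1 h2).le)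
  set η₀ : H := (((adjoint z) (X (ten e0 ξ)) : V) : H) with hη₀
  have hη₀V : η₀ ∈ V := ((adjoint z) (X (ten e0 ξ))).2
  have hpair : ∀ y, InB M N ξ y → ⟪y ξ, η₀⟫_ℂ = ⟪piK M N ξ y (ten e0 ξ), X (ten e0 ξ)⟫_ℂ := by
    intro y hy
    have h1 : ⟪e ⟨y, hy⟩, (adjoint z) (X (ten e0 ξ))⟫_ℂ = ⟪z (e ⟨y, hy⟩), X (ten e0 ξ)⟫_ℂ :=
      adjoint_inner_right _ _ _
    rw [hz] at h1
    exact h1
  -- the approximating sequence
  set x : ℕ → H →L[ℂ] H := fun n => slX X (fn n) (fn n) with hx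
  have hxB : ∀ n, InB M N ξ (x n) := fun n => S.Rk_slX_InB hX _ _
  have hxn : ∀ n η, ‖x n η‖ ≤ ‖X‖ * ‖η‖ := by
    intro n η
    have h1 := slX_norm_sub X (fn n) (fn n) 0 0 η
    have h2 : slX X (0 : L2R ℂ) 0 η = 0 := by
      rw [slX_apply]
      have : ten (0 : L2R ℂ) η = 0 := map_zero (axi η)
      rw [this, map_zero, map_zero]
    rw [h2, sub_zero, sub_zero, norm_zero, zero_mul, add_zero, fn_norm, one_mul, mul_one] at h1
    exact h1
  -- weak convergence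
  have hw1 : ∀ y, InB M N ξ y → Tendsto (fun n => ⟪y ξ, x n ξ⟫_ℂ) atTop (𝓝 ⟪y ξ, η₀⟫_ℂ) := by
    intro y hy
    have hZ : star (piK M N ξ y) * X ∈ Rk0 M N ξ := Rk0_mul (Rk0_star (S.piK_mem_Rk0 hy)) hX
    have h1 : ∀ n, ⟪y ξ, x n ξ⟫_ℂ = ⟪y ξ, η₀⟫_ℂ +
        ⟪ten (fn n) (y ξ) - piK M N ξ y (ten (fn n) ξ), X (ten (fn n) ξ)⟫_ℂ := by
      intro n
      have h2 := S.Rk_scalar' hZ e0_norm (fn n) (fn n)
      have h3 : ⟪fn n, fn n⟫_ℂ = 1 := by
        rw [inner_self_eq_norm_sq_to_K, fn_norm]; simp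
      rw [h3, mul_one] at h2
      change ⟪_, (star (piK M N ξ y)) (X (ten (fn n) ξ))⟫_ℂ =
        ⟪_, (star (piK M N ξ y)) (X (ten e0 ξ))⟫_ℂ at h2
      rw [inner_star_right, inner_star_right, ← hpair y hy] at h2
      rw [inner_sub_left, h2, hx]
      simp only [inner_slX]
      ring
    simp only [h1]
    have h4 : Tendsto (fun n => ⟪ten (fn n) (y ξ) - piK M N ξ y (ten (fn n) ξ),
        X (ten (fn n) ξ)⟫_ℂ) atTop (𝓝 0) := by
      rw [tendsto_zero_iff_norm_tendsto_zero]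
      have h5 := (S.piK_fn hy).mul_const (‖X‖ * ‖ξ‖)
      rw [zero_mul] at h5
      refine squeeze_zero (fun _ => norm_nonneg _) (fun n => ?_) h5
      refine (norm_inner_le_norm _ _).trans ?_
      gcongr
      refine (X.le_opNorm _).trans ?_
      rw [norm_ten, fn_norm, one_mul]
    have := h4.const_add ⟪y ξ, η₀⟫_ℂ
    rwa [add_zero] at this
  have hbd : ∀ n, ‖x n ξ - η₀‖ ≤ ‖X‖ * ‖ξ‖ + ‖η₀‖ := fun n =>
    (norm_sub_le _ _).trans (add_le_add (hxn n ξ) le_rfl)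
  have hw2 : ∀ v ∈ V, Tendsto (fun n => ⟪v, x n ξ - η₀⟫_ℂ) atTop (𝓝 0) := by
    intro v hv
    rw [Metric.tendsto_atTop]
    intro ε hε
    set K : ℝ := ‖X‖ * ‖ξ‖ + ‖η₀‖ + 1 with hK
    have hK0 : 0 < K := by positivity
    obtain ⟨w, ⟨y, hy, rfl⟩, hw⟩ := Metric.mem_closure_iff.1 (hVcl v hv) (ε / (2 * K))
      (by positivity)
    have h1 := hw1 y hy
    rw [Metric.tendsto_atTop] at h1
    obtain ⟨n0, hn0⟩ := h1 (ε / 2) (by positivity)
    refine ⟨n0, fun n hn => ?_⟩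
    have h2 := hn0 n hn
    rw [dist_eq_norm, ← inner_sub_right] at h2
    rw [dist_zero_right]
    have h3 : ⟪v, x n ξ - η₀⟫_ℂ = ⟪v - y ξ, x n ξ - η₀⟫_ℂ + ⟪y ξ, x n ξ - η₀⟫_ℂ := by
      rw [inner_sub_left]; ring
    rw [h3]
    rw [dist_eq_norm] at hw
    calc _ ≤ ‖⟪v - y ξ, x n ξ - η₀⟫_ℂ‖ + ‖⟪y ξ, x n ξ - η₀⟫_ℂ‖ := norm_add_le _ _
      _ ≤ ‖v - y ξ‖ * ‖x n ξ - η₀‖ + ‖⟪y ξ, x n ξ - η₀⟫_ℂ‖ := by
          gcongr
          exact norm_inner_le_norm _ _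
      _ ≤ (ε / (2 * K)) * K + ‖⟪y ξ, x n ξ - η₀⟫_ℂ‖ := by
          gcongr
          exact (hbd n).trans (by rw [hK]; linarith)
      _ < (ε / (2 * K)) * K + ε / 2 := by linarith
      _ = ε := by field_simp; ring
  have hw3 : ∀ ζ : H, Tendsto (fun n => ⟪ζ, x n ξ⟫_ℂ) atTop (𝓝 ⟪ζ, η₀⟫_ℂ) := by
    intro ζ
    have h1 := hw2 (V.starProjection ζ) (Submodule.starProjection_apply_mem _ _)
    have h2 : ∀ n, ⟪ζ, x n ξ⟫_ℂ = ⟪ζ, η₀⟫_ℂ + ⟪V.starProjection ζ, x n ξ - η₀⟫_ℂ := by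
      intro n
      rw [Submodule.inner_starProjection_left_eq_right,
        Submodule.starProjection_eq_self_iff.2 (V.sub_mem (hBV _ (hxB n)) hη₀V),
        inner_sub_right]
      ring
    simp only [h2]
    have := h1.const_add ⟪ζ, η₀⟫_ℂ
    rwa [add_zero] at this
  -- the limit operator
  have hbound : ∀ m ∈ M.commutant, ‖m η₀‖ ≤ ‖X‖ * ‖m ξ‖ := by
    intro m hm
    have h1 := hw3 ((star m) (m η₀))
    have h2 : ∀ n, ‖⟪(star m) (m η₀), x n ξ⟫_ℂ‖ ≤ ‖m η₀‖ * (‖X‖ * ‖m ξ‖) := by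
      intro n
      rw [inner_star_left, ← commute_apply (mem_Qalg.1 (hxB n).1).1 hm]
      exact (norm_inner_le_norm _ _).trans (by gcongr; exact hxn n _)
    have h3 := le_of_tendsto h1.norm (Eventually.of_forall h2)
    rw [inner_star_left, inner_self_eq_norm_sq_to_K] at h3
    have h4 : ‖m η₀‖ ^ 2 ≤ ‖m η₀‖ * (‖X‖ * ‖m ξ‖) := by
      simpa using h3
    by_contra hcon
    push Not at hcon
    have h5 : 0 ≤ ‖X‖ * ‖m ξ‖ := by positivity
    nlinarith [norm_nonneg (m η₀)]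
  obtain ⟨x₀, hx₀, hx₀eq, -⟩ := exists_op M.commutant (norm_nonneg X) S.dense_comm hbound
  rw [VonNeumannAlgebra.commutant_commutant] at hx₀
  have hx₀ξ : x₀ ξ = η₀ := by
    have := hx₀eq 1 (one_mem _)
    simpa using this
  have hQ : x₀ ∈ Qalg M N ξ := by
    rw [mem_Qalg]
    refine ⟨hx₀, fun a ha => ?_⟩
    obtain ⟨r, hr, hr'⟩ := S.exists_right one_pos ha
    refine eq_of_dense M S.dense_comm (mul_mem (S.le a ha.1) hx₀) (mul_mem hx₀ (S.le a ha.1)) ?_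
    change a (x₀ ξ) = x₀ (a ξ)
    rw [← hr' x₀ hx₀, hx₀ξ]
    refine ext_inner_left ℂ fun ζ => ?_
    have h1 := hw3 ((star a) ζ)
    have h2 := hw3 ((star r) ζ)
    have h3 : ∀ n, ⟪(star a) ζ, x n ξ⟫_ℂ = ⟪(star r) ζ, x n ξ⟫_ℂ := by
      intro n
      have hn := mem_Qalg.1 (hxB n).1
      rw [inner_star_left, inner_star_left, hr' _ hn.1]
      have : a (x n ξ) = x n (a ξ) := congrArg (fun T : H →L[ℂ] H => T ξ) (hn.2 a ha)
      rw [this]
    simp only [h3] at h1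
    have h4 := tendsto_nhds_unique h1 h2
    rwa [inner_star_left, inner_star_left] at h4
  have hB : InB M N ξ x₀ := S.InB_of_closure hQ (by rw [hx₀ξ]; exact hVcl _ hη₀V)
  refine ⟨x₀, hB, ?_⟩
  rw [← sub_eq_zero]
  refine S.Rk_eq_zero (Rk0_sub hX (S.piK_mem_Rk0 hB)) fun y hy f1 f2 => ?_
  have hZ : star (piK M N ξ y) * X ∈ Rk0 M N ξ := Rk0_mul (Rk0_star (S.piK_mem_Rk0 hy)) hX
  have h2 := S.Rk_scalar' hZ e0_norm f1 f2
  change ⟪_, (star (piK M N ξ y)) (X (ten f2 ξ))⟫_ℂ =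
    ⟪_, (star (piK M N ξ y)) (X (ten e0 ξ))⟫_ℂ * _ at h2
  rw [inner_star_right, inner_star_right, ← hpair y hy] at h2
  rw [sub_apply, inner_sub_right, h2, S.inner_piK_ten hB hy, hx₀ξ, sub_self]

theorem Rk_iff {X : L2R H →L[ℂ] L2R H} :
    X ∈ Rk0 M N ξ ↔ ∃ x, InB M N ξ x ∧ X = piK M N ξ x := by
  constructor
  · exact S.Rk_sur
  · rintro ⟨x, hx, rfl⟩
    exact S.piK_mem_Rk0 hx

end AP

end Pool.Agent.Helper23
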