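import Pool.Agent.Helper23.Basic
import Pool.Agent.Helper23.Eigen

/-!
# Bounded operators of the modular theory of a cyclic separating vector (Rieffel - van Daele)
-/

open scoped InnerProductSpace Topology BoundedContinuousFunction
open ContinuousLinearMap Filter MeasureTheory

namespace Pool.Agent.Helper23

variable {H : Type*} [NormedAddCommGroup H] [InnerProductSpace ℂ H] [CompleteSpace H]

/-- The pair `(R, D) = (P + Q, P - Q)` of Rieffel and van Daele for the vector `ξ` and the von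
Neumann algebra `A`. In terms of the modular operator: `R = 2 (1 + Δ)⁻¹` and `D = J (R (2 - R))^½`.
`D` is conjugate linear. -/
structure TTData (A : VonNeumannAlgebra H) (ξ : H) (R : H →L[ℂ] H) (D : H →L[ℝ] H) : Prop where
  R_star : star R = R
  R_nonneg : ∀ v : H, 0 ≤ (⟪v, R v⟫_ℂ).re
  R_le : ∀ v : H, (⟪v, R v⟫_ℂ).re ≤ 2 * ‖v‖ ^ 2
  R_inj : ∀ v : H, R v = 0 → v = 0
  R_inj' : ∀ v : H, R v = (2 : ℂ) • v → v = 0
  D_conj : ∀ (c : ℂ) (v : H), D (c • v) = (starRingEnd ℂ) c • D v
  D_symm : ∀ v w : H, ⟪v, D w⟫_ℂ = ⟪w, D v⟫_ℂ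
  D_sq : ∀ v : H, D (D v) = R ((2 : ℂ) • v - R v)
  D_R : ∀ v : H, D (R v) = (2 : ℂ) • D v - R (D v)
  D_mem : ∀ a ∈ A, D (a ξ) = (2 : ℂ) • (star a) ξ - R ((star a) ξ)
  D_comm : ∀ a ∈ A.commutant, D (a ξ) = R ((star a) ξ)

/-- The interface is symmetric under the exchange of `A` and its commutant. -/
lemma TTData.symm {A : VonNeumannAlgebra H} {ξ : H} {R : H →L[ℂ] H} {D : H →L[ℝ] H}
    (h : TTData A ξ R D) : TTData A.commutant ξ ((2 : ℂ) • (1 : H →L[ℂ] H) - R) D where
  R_star := by
    rw [star_sub, star_smul, h.R_star, star_one]; simp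
  R_nonneg := by
    intro v
    have h1 := h.R_le v
    rw [sub_apply, smul_apply, one_apply_eq_self, inner_sub_right, inner_smul_right,
      inner_self_eq_norm_sq_to_K, Complex.sub_re]
    have : ((2 : ℂ) * ((‖v‖ : ℂ)) ^ 2).re = 2 * ‖v‖ ^ 2 := by norm_cast
    change 0 ≤ ((2 : ℂ) * ((‖v‖ : ℂ)) ^ 2).re - _
    rw [this]; linarith
  R_le := by
    intro v
    have h1 := h.R_nonneg v
    rw [sub_apply, smul_apply, one_apply_eq_self, inner_sub_right, inner_smul_right,
      inner_self_eq_norm_sq_to_K, Complex.sub_re]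
    have : ((2 : ℂ) * ((‖v‖ : ℂ)) ^ 2).re = 2 * ‖v‖ ^ 2 := by norm_cast
    change ((2 : ℂ) * ((‖v‖ : ℂ)) ^ 2).re - _ ≤ _
    rw [this]; linarith
  R_inj := by
    intro v hv
    refine h.R_inj' v ?_
    rw [sub_apply, smul_apply, one_apply_eq_self, sub_eq_zero] at hv
    exact hv.symm
  R_inj' := by
    intro v hv
    refine h.R_inj v ?_
    rw [sub_apply, smul_apply, one_apply_eq_self] at hv
    simpa using hv
  D_conj := h.D_conj
  D_symm := h.D_symm
  D_sq := by
    intro v
    rw [h.D_sq]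
    simp only [sub_apply, smul_apply, one_apply_eq_self, map_sub, map_smul]
    abel
  D_R := by
    intro v
    have h1 : D ((2 : ℂ) • v) = (2 : ℂ) • D v := by
      have h2 := h.D_conj 2 v
      rwa [Complex.conj_ofNat] at h2
    simp only [sub_apply, smul_apply, one_apply_eq_self, map_sub, h.D_R, h1]
  D_mem := by
    intro a ha
    rw [h.D_comm a ha]
    simp only [sub_apply, smul_apply, one_apply_eq_self]
    abel
  D_comm := by
    intro a ha
    rw [VonNeumannAlgebra.commutant_commutant] at ha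
    rw [h.D_mem a ha]
    simp only [sub_apply, smul_apply, one_apply_eq_self]

end Pool.Agent.Helper23
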