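import Pool.Agent.Helper23.UDefs

/-!
# The bicentralizer in a general inclusion
-/

open scoped InnerProductSpace Topology BoundedContinuousFunction
open ContinuousLinearMap Filter

namespace Pool.Agent.Helper23

variable {H : Type*} [NormedAddCommGroup H] [InnerProductSpace ℂ H] [CompleteSpace H]
variable {M N : VonNeumannAlgebra H} {ξ : H} {E : (H →L[ℂ] H) → (H →L[ℂ] H)}

namespace Setting

variable (S : Setting M N E ξ)
include S

/-- it suffices to test commutation on unitaries, at the vector `ξ`. -/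
theorem bicent_of_unitary {x : H →L[ℂ] H} (hx : x ∈ M)
    (h : ∀ u, ACU N ξ u → Tendsto (fun n => x (u n ξ) - u n (x ξ)) atTop (𝓝 0)) :
    x ∈ Bicent M N ξ := by
  refine ⟨hx, fun a ha η => ?_⟩
  obtain ⟨haN, ⟨C, hC⟩, hD⟩ := ha
  have h2 : Tendsto (fun n => (x * a n - a n * x) ξ) atTop (𝓝 0) := by
    have hcl : IsClosed (ACalg N ξ : Set (ℕ →ᵇ N.toStarSubalgebra)) := ACalg_isClosed S.norm_one
    let a' : ℕ →ᵇ N.toStarSubalgebra :=
      BoundedContinuousFunction.ofNormedAddCommGroup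
        (fun n => (⟨a n, haN n⟩ : N.toStarSubalgebra))
        continuous_of_discreteTopology C (fun n => hC n)
    have ha'n : ∀ n, ((a' n : N.toStarSubalgebra) : H →L[ℂ] H) = a n := fun n => rfl
    have ha' : a' ∈ ACalg N ξ := hD
    obtain ⟨u, k, hk, -⟩ := CStarAlgebra.exists_sum_four_unitary (⟨a', ha'⟩ : ACalg N ξ)
    have hsum : ∀ n, a n = ∑ i, k i •
        ((((u i : ACalg N ξ) : ℕ →ᵇ N.toStarSubalgebra) n : N.toStarSubalgebra) :
          H →L[ℂ] H) := by
      intro n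
      have h1 : a' = ∑ i, k i • (((u i : ACalg N ξ) : ℕ →ᵇ N.toStarSubalgebra)) := by
        have := congrArg (fun z : ACalg N ξ => (z : ℕ →ᵇ N.toStarSubalgebra)) hk
        simpa using this
      have h2 : a' n = ∑ i, k i • (((u i : ACalg N ξ) : ℕ →ᵇ N.toStarSubalgebra)) n := by
        rw [h1, BoundedContinuousFunction.sum_apply]
        rfl
      rw [← ha'n n, h2]
      simp
    have hi : ∀ i, Tendsto (fun n =>
        x (((((u i : ACalg N ξ) : ℕ →ᵇ N.toStarSubalgebra) n : N.toStarSubalgebra) :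
          H →L[ℂ] H) ξ) -
        ((((u i : ACalg N ξ) : ℕ →ᵇ N.toStarSubalgebra) n : N.toStarSubalgebra) :
          H →L[ℂ] H) (x ξ)) atTop (nhds 0) := by
      intro i
      refine h _ ⟨fun n => ((((u i : ACalg N ξ) : ℕ →ᵇ N.toStarSubalgebra) n).2), fun n => ?_,
        fun n => ?_, (u i : ACalg N ξ).2⟩
      · have e1 : star (((u i : ACalg N ξ) : ℕ →ᵇ N.toStarSubalgebra) n) *
            (((u i : ACalg N ξ) : ℕ →ᵇ N.toStarSubalgebra) n) = 1 := by
          have := Unitary.star_mul_self_of_mem (u i).2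
          exact congrArg (fun z : ACalg N ξ => (z : ℕ →ᵇ N.toStarSubalgebra) n) this
        exact congrArg (fun z : N.toStarSubalgebra => (z : H →L[ℂ] H)) e1
      · have e2 : (((u i : ACalg N ξ) : ℕ →ᵇ N.toStarSubalgebra) n) *
            star (((u i : ACalg N ξ) : ℕ →ᵇ N.toStarSubalgebra) n) = 1 := by
          have := Unitary.mul_star_self_of_mem (u i).2
          exact congrArg (fun z : ACalg N ξ => (z : ℕ →ᵇ N.toStarSubalgebra) n) this
        exact congrArg (fun z : N.toStarSubalgebra => (z : H →L[ℂ] H)) e2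
    have hfin : Tendsto (fun n => ∑ i, k i •
        (x (((((u i : ACalg N ξ) : ℕ →ᵇ N.toStarSubalgebra) n : N.toStarSubalgebra) :
          H →L[ℂ] H) ξ) -
        ((((u i : ACalg N ξ) : ℕ →ᵇ N.toStarSubalgebra) n : N.toStarSubalgebra) :
          H →L[ℂ] H) (x ξ))) atTop (nhds (∑ i, k i • (0 : H))) :=
      tendsto_finsetSum _ fun i _ => (hi i).const_smul (k i)
    simp only [smul_zero, Finset.sum_const_zero] at hfin
    refine hfin.congr fun n => ?_
    change _ = x (a n ξ) - a n (x ξ)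
    rw [hsum n, sum_apply, sum_apply, map_sum, ← Finset.sum_sub_distrib]
    refine Finset.sum_congr rfl fun i _ => ?_
    rw [smul_apply, smul_apply, map_smul, smul_sub]
  exact tendsto_of_bounded M S.dense_comm (x := fun n => x * a n - a n * x)
    (C := ‖x‖ * C + C * ‖x‖)
    (fun n => sub_mem (mul_mem hx (S.le _ (haN n))) (mul_mem (S.le _ (haN n)) hx))
    (fun n => (norm_sub_le _ _).trans (add_le_add
      ((norm_mul_le _ _).trans (mul_le_mul_of_nonneg_left (hC n) (norm_nonneg _)))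
      ((norm_mul_le _ _).trans (mul_le_mul_of_nonneg_right (hC n) (norm_nonneg _))))) h2 η

/-- the bicentralizer is star closed -/
lemma bicent_star {x : H →L[ℂ] H} (hx : x ∈ Bicent M N ξ) : star x ∈ Bicent M N ξ := by
  refine S.bicent_of_unitary (star_mem hx.1) fun u hu => ?_
  -- `star u x u → x` strongly
  have hT : ∀ η, Tendsto (fun n => (star (u n) * x * u n) η) atTop (𝓝 (x η)) := by
    intro η
    rw [tendsto_iff_norm_sub_tendsto_zero]
    refine (tendsto_zero_iff_norm_tendsto_zero.1 (hx.2 u (AP.ACU_lamSeq hu) η)).congr fun n => ?_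
    have e1 : (star (u n) * x * u n) η - x η =
        (star (u n)) (x (u n η) - u n (x η)) := by
      rw [map_sub]
      have : (star (u n)) (u n (x η)) = x η :=
        congrArg (fun T : H →L[ℂ] H => T (x η)) (hu.2.1 n)
      rw [this]; rfl
    rw [e1, norm_of_isom (by rw [star_star]; exact hu.2.2.1 n)]
  -- the state of `star u (x star x) u`
  have hφ : Tendsto (fun n => ⟪ξ, (star (u n) * (x * star x) * u n) ξ⟫_ℂ) atTop
      (𝓝 ⟪ξ, (x * star x) ξ⟫_ℂ) := by
    rw [tendsto_iff_norm_sub_tendsto_zero]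
    rw [Metric.tendsto_atTop]
    intro ε hε
    have hxx : x * star x ∈ M := mul_mem hx.1 (star_mem hx.1)
    have hEx : E (x * star x) ∈ N := S.E_mem _ hxx
    have h1 := hu.2.2.2 (ε / (2 * (‖E (x * star x)‖ + 1))) (by positivity)
    obtain ⟨n0, hn0⟩ := eventually_atTop.1 h1
    refine ⟨n0, fun n hn => ?_⟩
    have h2 := hn0 n hn (star (u n) * E (x * star x))
      (mul_mem (star_mem (hu.1 n)) hEx)
    rw [Real.dist_eq, sub_zero, abs_of_nonneg (norm_nonneg _)]
    have e1 : ⟪ξ, (star (u n) * (x * star x) * u n) ξ⟫_ℂ =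
        ⟪ξ, (star (u n) * E (x * star x)) (u n ξ)⟫_ℂ := by
      rw [← S.E_state _ (mul_mem (mul_mem (star_mem (S.le _ (hu.1 n))) hxx) (S.le _ (hu.1 n))),
        S.E_bimod _ (star_mem (hu.1 n)) _ (hu.1 n) _ hxx]
      rfl
    have e2 : ⟪ξ, (x * star x) ξ⟫_ℂ = ⟪ξ, u n ((star (u n) * E (x * star x)) ξ)⟫_ℂ := by
      rw [← S.E_state _ hxx]
      have : u n ((star (u n) * E (x * star x)) ξ) = E (x * star x) ξ :=
        congrArg (fun T : H →L[ℂ] H => T (E (x * star x) ξ)) (hu.2.2.1 n)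
      rw [this]
    rw [e1, e2]
    rw [Complex.ofReal_one, one_mul] at h2
    refine lt_of_le_of_lt h2 ?_
    have e3 : ‖star (u n) * E (x * star x)‖ ≤ ‖E (x * star x)‖ := by
      refine (norm_mul_le _ _).trans ?_
      rw [norm_star]
      calc ‖u n‖ * ‖E (x * star x)‖ ≤ 1 * ‖E (x * star x)‖ := by
            gcongr; exact norm_le_one_of_isom (hu.2.1 n)
        _ = _ := one_mul _
    calc ε / (2 * (‖E (x * star x)‖ + 1)) * ‖star (u n) * E (x * star x)‖ ≤
          ε / (2 * (‖E (x * star x)‖ + 1)) * (‖E (x * star x)‖ + 1) := by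
            gcongr; linarith
      _ = ε / 2 := by field_simp
      _ < ε := by linarith
  -- the norms
  have hkey : ∀ n, ‖(star x) (u n ξ) - u n ((star x) ξ)‖ ^ 2 =
      (⟪ξ, (star (u n) * (x * star x) * u n) ξ⟫_ℂ).re + (⟪ξ, (x * star x) ξ⟫_ℂ).re -
        2 * (⟪ξ, (star (u n) * x * u n) ((star x) ξ)⟫_ℂ).re := by
    intro n
    have e1 : ‖(star x) (u n ξ)‖ ^ 2 = (⟪ξ, (star (u n) * (x * star x) * u n) ξ⟫_ℂ).re := by
      have h1 : ⟪ξ, (star (u n) * (x * star x) * u n) ξ⟫_ℂ =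
          ⟪(star x) (u n ξ), (star x) (u n ξ)⟫_ℂ := by
        rw [inner_star_left]
        change ⟪ξ, (star (u n)) ((x * star x) (u n ξ))⟫_ℂ = _
        rw [inner_star_right]; rfl
      rw [h1, inner_self_eq_norm_sq_to_K]
      norm_cast
    have e2 : ‖u n ((star x) ξ)‖ ^ 2 = (⟪ξ, (x * star x) ξ⟫_ℂ).re := by
      rw [norm_of_isom (hu.2.1 n)]
      have h1 : ⟪ξ, (x * star x) ξ⟫_ℂ = ⟪(star x) ξ, (star x) ξ⟫_ℂ := by
        rw [inner_star_left]; rfl
      rw [h1, inner_self_eq_norm_sq_to_K]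
      norm_cast
    rw [@norm_sub_sq ℂ, e1, e2]
    have e3 : ⟪(star x) (u n ξ), u n ((star x) ξ)⟫_ℂ =
        ⟪ξ, (star (u n) * x * u n) ((star x) ξ)⟫_ℂ := by
      rw [inner_star_left]
      change _ = ⟪ξ, (star (u n)) ((x * u n) ((star x) ξ))⟫_ℂ
      rw [inner_star_right]; rfl
    rw [e3]
    change _ - 2 * (⟪ξ, (star (u n) * x * u n) ((star x) ξ)⟫_ℂ).re + _ = _
    ring
  have hlim : Tendsto (fun n => ‖(star x) (u n ξ) - u n ((star x) ξ)‖ ^ 2) atTop (𝓝 0) := by
    simp only [hkey]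
    have h1 : Tendsto (fun n => ⟪ξ, (star (u n) * x * u n) ((star x) ξ)⟫_ℂ) atTop
        (𝓝 ⟪ξ, x ((star x) ξ)⟫_ℂ) := tendsto_const_nhds.inner (hT _)
    have h2 := (((Complex.continuous_re.tendsto _).comp hφ).add_const
      (⟪ξ, (x * star x) ξ⟫_ℂ).re).sub (((Complex.continuous_re.tendsto _).comp h1).const_mul 2)
    have e1 : (⟪ξ, (x * star x) ξ⟫_ℂ).re + (⟪ξ, (x * star x) ξ⟫_ℂ).re -
        2 * (⟪ξ, x ((star x) ξ)⟫_ℂ).re = 0 := by
      change (⟪ξ, x ((star x) ξ)⟫_ℂ).re + (⟪ξ, x ((star x) ξ)⟫_ℂ).re - _ = _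
      ring
    rw [e1] at h2
    exact h2
  rw [tendsto_zero_iff_norm_tendsto_zero]
  have h3 := (Real.continuous_sqrt.tendsto _).comp hlim
  rw [Real.sqrt_zero] at h3
  refine h3.congr fun n => ?_
  exact Real.sqrt_sq (norm_nonneg _)

end Setting

end Pool.Agent.Helper23
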