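import Pool.Agent.Helper75.UFlow
import Pool.Agent.Helper78.USlices
import Pool.Agent.Helper68.U17
import Pool.Agent.Helper53.U.III1
import Pool.Agent.Helper53.U.Eig
import Pool.Agent.Helper95.UAvg
import Pool.Agent.Helper43.TTF.G
import Pool.Agent.Helper23.UCore
import Pool.Agent.Helper23.UMain

/-!
# The flow on the bicentralizer, from the ultrapower
-/

open scoped InnerProductSpace Topology ENNReal BoundedContinuousFunction
open ContinuousLinearMap Filter MeasureTheory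

namespace Pool.Agent.Helper23

universe u

variable {H : Type u} [NormedAddCommGroup H] [InnerProductSpace ℂ H] [CompleteSpace H]
variable {K : Type u} [NormedAddCommGroup K] [InnerProductSpace ℂ K] [CompleteSpace K]
variable {M N : VonNeumannAlgebra H} {ξ : H} {E : (H →L[ℂ] H) → (H →L[ℂ] H)}

lemma ocS_const (hd : Dense (orb M.commutant ξ : Set H)) {x : H →L[ℂ] H} (hx : x ∈ M) :
    (fun _ => x) ∈ AppS M ξ :=
  ⟨AppR_const hd hx, AppR_const hd (star_mem hx)⟩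

/-- the constant of the core estimate -/
def CoreAt (M N : VonNeumannAlgebra H) (ξ : H) (u : L2R H →L[ℂ] L2R H) (y : H →L[ℂ] H)
    (κ : ℝ) : Prop := ∃ K : ℝ, 0 ≤ K ∧
    ∀ γ₀ : ℝ, 1 < γ₀ → Real.log γ₀ ≤ 1 / 2 → ∀ (m : ℕ) (g : L2R ℂ), g ≠ 0 →
      ∀ (B : Finset hw) (n : ℕ), 0 < n → K * ((1 + 2 * Real.log γ₀ ^ 2) ^ n - 1) ≤ κ →
        ∃ z ∈ Bicent M N ξ, ‖(z - btU M N ξ (γ₀ ^ m) y) ξ‖ ^ 2 ≤ 2 * κ ∧
          ∑ j ∈ Finset.Ico (-(m : ℤ)) m, ∑ i ∈ Finset.Ico (-(m : ℤ)) m, ∑ k ∈ B,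
            ‖(btU M N ξ (γ₀ ^ (i - m)) z * sa u (Real.log γ₀) g (i, k, j) -
              sa u (Real.log γ₀) g (i, k, j) * btU M N ξ (γ₀ ^ (j - m)) z) ξ‖ ^ 2 ≤
            96 * ‖g‖ ^ 2 * κ / n

namespace Oc

variable {MT NT : VonNeumannAlgebra K} {ET : (K →L[ℂ] K) → (K →L[ℂ] K)} {ζ : K}
  {rep : (ℕ → H →L[ℂ] H) → (K →L[ℂ] K)} (O : Oc M N E ξ MT NT ET ζ rep)
include O

lemma const_mem (S : Setting M N E ξ) {x : H →L[ℂ] H} (hx : x ∈ M) : rep (fun _ => x) ∈ MT :=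
  O.memM _ (ocS_const S.dense_comm hx)

lemma const_memN (S : Setting M N E ξ) {x : H →L[ℂ] H} (hx : x ∈ N) : rep (fun _ => x) ∈ NT :=
  O.memN _ (ocS_const S.dense_comm (S.le x hx)) fun _ => hx

lemma const_inj (S : Setting M N E ξ) {x y : H →L[ℂ] H} (hx : x ∈ M) (hy : y ∈ M)
    (h : rep (fun _ => x) = rep (fun _ => y)) : x = y := by
  rw [← O.cc_const S hx, h, O.cc_const S hy]

lemma const_inner (S : Setting M N E ξ) {x y : H →L[ℂ] H} (hx : x ∈ M) (hy : y ∈ M) :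
    ⟪rep (fun _ => x) ζ, rep (fun _ => y) ζ⟫_ℂ = ⟪x ξ, y ξ⟫_ℂ :=
  tendsto_nhds_unique (O.inner _ (ocS_const S.dense_comm hx) _ (ocS_const S.dense_comm hy))
    tendsto_const_nhds

lemma const_norm (S : Setting M N E ξ) {x : H →L[ℂ] H} (hx : x ∈ M) :
    ‖rep (fun _ => x) ζ‖ = ‖x ξ‖ := by
  have h1 := O.const_inner S hx hx
  rw [inner_self_eq_norm_sq_to_K, inner_self_eq_norm_sq_to_K] at h1
  have h2 : ‖rep (fun _ => x) ζ‖ ^ 2 = ‖x ξ‖ ^ 2 := by exact_mod_cast h1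
  exact (pow_left_inj₀ (norm_nonneg _) (norm_nonneg _) two_ne_zero).1 h2

lemma const_add (S : Setting M N E ξ) {x y : H →L[ℂ] H} (hx : x ∈ M) (hy : y ∈ M) :
    rep (fun _ => x + y) = rep (fun _ => x) + rep (fun _ => y) :=
  O.add _ (ocS_const S.dense_comm hx) _ (ocS_const S.dense_comm hy)

lemma const_smul (S : Setting M N E ξ) (c : ℂ) {x : H →L[ℂ] H} (hx : x ∈ M) :
    rep (fun _ => c • x) = c • rep (fun _ => x) :=
  O.smul c _ (ocS_const S.dense_comm hx)

lemma const_sub (S : Setting M N E ξ) {x y : H →L[ℂ] H} (hx : x ∈ M) (hy : y ∈ M) :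
    rep (fun _ => x - y) = rep (fun _ => x) - rep (fun _ => y) := by
  have h1 : (fun _ : ℕ => x - y) = fun _ => x + (-1 : ℂ) • y := by
    funext _
    simp [sub_eq_add_neg]
  rw [h1, O.const_add S hx (smul_mem' _ hy), O.const_smul S _ hy]
  simp [sub_eq_add_neg]

lemma const_mul (S : Setting M N E ξ) {x y : H →L[ℂ] H} (hx : x ∈ M) (hy : y ∈ M) :
    rep (fun _ => x * y) = rep (fun _ => x) * rep (fun _ => y) :=
  O.mul _ (ocS_const S.dense_comm hx) _ (ocS_const S.dense_comm hy)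

lemma const_star (S : Setting M N E ξ) {x : H →L[ℂ] H} (hx : x ∈ M) :
    rep (fun _ => Star.star x) = Star.star (rep (fun _ => x)) :=
  O.star _ (ocS_const S.dense_comm hx)

/-- partners in the ultrapower -/
lemma partner (S : Setting M N E ξ) {C C' : H →L[ℂ] H} (h : Partner N ξ C C') :
    Partner NT ζ (rep fun _ => C) (rep fun _ => C') := by
  have hC := S.le _ h.1
  have hC' := S.le _ h.2.1
  refine ⟨O.const_memN S h.1, O.const_memN S h.2.1, fun Z hZ => ?_⟩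
  obtain ⟨z, hz, hzN, -, rfl⟩ := O.surjN Z hZ
  have e1 : ⟪ζ, (rep fun _ => C) (rep z ζ)⟫_ℂ = ⟪rep (fun _ => Star.star C) ζ, rep z ζ⟫_ℂ := by
    rw [O.const_star S hC, inner_star_left]
  have hzs : (fun n => Star.star (z n)) ∈ AppS M ξ := ⟨hz.2, by simpa using hz.1⟩
  have e2 : ⟪ζ, rep z ((rep fun _ => C') ζ)⟫_ℂ =
      ⟪rep (fun n => Star.star (z n)) ζ, rep (fun _ => C') ζ⟫_ℂ := by
    rw [O.star z hz, inner_star_left]
  have l1 := O.inner _ (ocS_const S.dense_comm (star_mem hC)) _ hz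
  have l2 := O.inner _ hzs _ (ocS_const S.dense_comm hC')
  rw [e1, e2]
  refine tendsto_nhds_unique l1 (l2.congr fun n => ?_)
  rw [inner_star_left, inner_star_left]
  exact (h.2.2 (z n) (hzN n)).symm

lemma coreAt (S : Setting M N E ξ) (hAP : AP MT NT ET ζ) (hG : ∀ l : ℝ, 0 < l → l ∈ Gam NT ζ)
    {u : L2R H →L[ℂ] L2R H} (hu : u ∈ GK N ξ) {y : H →L[ℂ] H} (hy : y ∈ Bicent M N ξ)
    {κ : ℝ} (hκ : 0 < κ) : CoreAt M N ξ u y κ := by
  have hyQ := O.const_mem_Qalg S hy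
  obtain ⟨K₀, hK, hLB⟩ := hAP.lb_of_bicent (O.bicent_of_Qalg S hyQ) hκ
  refine ⟨K₀, hK, fun γ₀ h1 ht1 m g hg0 B n hn hnK => ?_⟩
  have hγ0 : 0 < γ₀ := by linarith
  have hγ : γ₀ ∈ Gam NT ζ := hG γ₀ hγ0
  set t := Real.log γ₀ with ht
  have ht0 : 0 < t := Real.log_pos h1
  have hm0 : 0 < γ₀ ^ m := pow_pos hγ0 m
  have hmG : γ₀ ^ m ∈ Gam NT ζ := hG _ hm0
  have haN : ∀ l, sa u t g l ∈ N := fun l => slX_mem hu.1 _ _
  have hbN : ∀ l, sb u t g l ∈ N := fun l => slX_mem hu.1 _ _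
  have haM := fun l => S.le _ (haN l)
  have hbM := fun l => S.le _ (hbN l)
  have hsmul : ∀ l : ℤ × hw × ℤ, (((Real.exp ((l.2.2 - l.1) * t) : ℝ) : ℂ) •
      (rep fun _ => sb u t g l)) =
        rep fun _ => (((Real.exp ((l.2.2 - l.1) * t) : ℝ) : ℂ) • sb u t g l) :=
    fun l => (O.const_smul S _ (hbM l)).symm
  obtain ⟨z, hz, hzy, hzc⟩ := hAP.core' (hAP.al_mem hmG hyQ) hκ hK
    (hAP.lb_al hyQ hκ.le hK hLB hmG) hγ h1 ht1 m (G := ‖g‖ ^ 2) (by positivity) B
    (a := fun l => rep fun _ => sa u t g l) (b := fun l => rep fun _ => sb u t g l)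
    (fun l => O.const_memN S (haN l)) (fun l => O.const_memN S (hbN l))
    (fun l => by
      rw [hsmul]
      exact O.partner S (partner_sa hu ht0 g l)) (by
      simp only [fun l => O.const_norm S (haM l)]
      exact sum_sa hu.2.1 S.norm_one ht0 g _ _ B) (by
      have e1 : ∀ l, ‖((rep fun _ => sb u t g l) - (rep fun _ => sa u t g l)) ζ‖ =
          ‖(sb u t g l - sa u t g l) ξ‖ := by
        intro l
        rw [← O.const_sub S (hbM l) (haM l), O.const_norm S (sub_mem (hbM l) (haM l))]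
      simp only [e1]
      exact sum_sb hu.2.1 S.norm_one ht0 ht1 g _ _ B) hn hnK
  have hzM : z ∈ MT := (mem_Qalg.1 hz).1
  have hspec := O.btU_spec S hAP hG hm0 hy
  refine ⟨ccU M ξ rep ζ z, O.cc_bicent S hz, ?_, ?_⟩
  · refine le_trans ?_ hzy
    refine pow_le_pow_left₀ (norm_nonneg _) ?_ 2
    have hbM' := hspec.1.1
    rw [← hspec.2.2]
    have e1 : ccU M ξ rep ζ z - btU M N ξ (γ₀ ^ m) y =
        ccU M ξ rep ζ (z - rep fun _ => btU M N ξ (γ₀ ^ m) y) := by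
      rw [O.cc_sub S hzM (O.const_mem S hbM'), O.cc_const S hbM']
    rw [e1]
    exact O.cc_norm_xi S (sub_mem hzM (O.const_mem S hbM'))
  · refine le_trans ?_ hzc
    refine Finset.sum_le_sum fun j _ => Finset.sum_le_sum fun i _ => Finset.sum_le_sum
      fun k _ => ?_
    refine pow_le_pow_left₀ (norm_nonneg _) ?_ 2
    have hi0 : 0 < γ₀ ^ (i - m) := zpow_pos hγ0 _
    have hj0 : 0 < γ₀ ^ (j - m) := zpow_pos hγ0 _
    have hzi := (mem_Qalg.1 (hAP.al_mem (hG _ hi0) hz)).1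
    have hzj := (mem_Qalg.1 (hAP.al_mem (hG _ hj0) hz)).1
    have hra := O.const_mem S (haM (i, k, j))
    rw [O.btU_cc S hAP hG hi0 hz, O.btU_cc S hAP hG hj0 hz,
      ← O.cc_mul_right S (haM (i, k, j)) hzi, ← O.cc_mul_left S (haM (i, k, j)) hzj,
      ← O.cc_sub S (mul_mem hzi hra) (mul_mem hra hzj)]
    exact O.cc_norm_xi S (sub_mem (mul_mem hzi hra) (mul_mem hra hzj))

/-- the flow on the bicentralizer -/
theorem bflow (S : Setting M N E ξ) (hAP : AP MT NT ET ζ)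
    (hG : ∀ l : ℝ, 0 < l → l ∈ Gam NT ζ) : BFlow M N E ξ := by
  -- notation
  have hsp : ∀ {x : H →L[ℂ] H}, x ∈ Bicent M N ξ → ∀ {l : ℝ}, 0 < l →
      btU M N ξ l x ∈ Bicent M N ξ ∧
      rep (fun _ => btU M N ξ l x) = al MT NT ζ l (rep fun _ => x) := fun hx _ hl =>
    ⟨(O.btU_spec S hAP hG hl hx).1, (O.btU_spec S hAP hG hl hx).2.2⟩
  have hQ : ∀ {x : H →L[ℂ] H}, x ∈ Bicent M N ξ → rep (fun _ => x) ∈ Qalg MT NT ζ :=
    fun hx => O.const_mem_Qalg S hx
  have hnorm : ∀ {x : H →L[ℂ] H}, x ∈ Bicent M N ξ → ∀ {l : ℝ}, 0 < l →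
      ‖btU M N ξ l x‖ ≤ 2 * ‖x‖ := by
    intro x hx l hl
    have h1 := (hsp hx hl).1.1
    calc ‖btU M N ξ l x‖ = ‖ccU M ξ rep ζ (rep fun _ => btU M N ξ l x)‖ := by
          rw [O.cc_const S h1]
      _ ≤ ‖rep fun _ => btU M N ξ l x‖ := O.cc_norm S (O.const_mem S h1)
      _ = ‖al MT NT ζ l (rep fun _ => x)‖ := by rw [(hsp hx hl).2]
      _ ≤ 2 * ‖rep fun _ => x‖ := hAP.al_opNorm' l (hQ hx)
      _ ≤ 2 * ‖x‖ := by
          gcongr
          exact O.norm _ (ocS_const S.dense_comm hx.1) _ fun _ => le_rfl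
  refine
    { toSetting := S
      scal := fun x hx => ?_
      bt_mem := fun x hx l hl => (hsp hx hl).1
      bt_add := fun x hx y hy l hl => ?_
      bt_smul := fun c x hx l hl => ?_
      bt_mul := fun x hx y hy l hl => ?_
      bt_star := fun x hx l hl => ?_
      bt_bt := fun x hx l hl m hm => ?_
      bt_one_act := fun x hx => ?_
      bt_opNorm := fun x hx l hl => hnorm hx hl
      bt_state := fun x hx l hl => ?_
      bt_cont := fun x hx v => ?_
      flow := fun x hx l hl a ha => (O.btU_spec S hAP hG hl hx).2.1 a ha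
      flow_uniq := fun x hx y hy l hl h => O.btU_unique S hAP hG hl hx hy h
      core := fun u hu y hy κ hκ => O.coreAt S hAP hG hu hy hκ
      sl_mem := fun X hX f g => S.slX_bicent hX f g
      sl_bt := fun X hX f g l hl => ?_ }
  · -- scal
    have h1 := O.set.E_Q hAP.irr (hQ hx)
    rw [O.expect _ (ocS_const S.dense_comm hx.1)] at h1
    have h2 : ⟪ζ, (rep fun _ => x) ζ⟫_ℂ = ⟪ξ, x ξ⟫_ℂ := by
      have h3 := O.const_inner S (one_mem M) hx.1
      rw [O.one] at h3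
      exact h3
    rw [h2, ← O.one, ← O.const_smul S _ (one_mem M)] at h1
    exact O.const_inj S (S.le _ (S.E_mem x hx.1)) (smul_mem' _ (one_mem M)) h1
  · -- add
    refine O.const_inj S (hsp (AP.bicent_add hx hy) hl).1.1
      (add_mem (hsp hx hl).1.1 (hsp hy hl).1.1) ?_
    rw [(hsp (AP.bicent_add hx hy) hl).2, O.const_add S hx.1 hy.1,
      O.const_add S (hsp hx hl).1.1 (hsp hy hl).1.1, (hsp hx hl).2, (hsp hy hl).2,
      hAP.al_add (hG l hl) (hQ hx) (hQ hy)]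
  · -- smul
    refine O.const_inj S (hsp (AP.bicent_smul c hx) hl).1.1
      (smul_mem' c (hsp hx hl).1.1) ?_
    rw [(hsp (AP.bicent_smul c hx) hl).2, O.const_smul S c hx.1,
      O.const_smul S c (hsp hx hl).1.1, (hsp hx hl).2, hAP.al_smul (hG l hl) c (hQ hx)]
  · -- mul
    refine O.const_inj S (hsp (AP.bicent_mul hx hy) hl).1.1
      (mul_mem (hsp hx hl).1.1 (hsp hy hl).1.1) ?_
    rw [(hsp (AP.bicent_mul hx hy) hl).2, O.const_mul S hx.1 hy.1,
      O.const_mul S (hsp hx hl).1.1 (hsp hy hl).1.1, (hsp hx hl).2, (hsp hy hl).2,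
      hAP.al_mul (hG l hl) (hQ hx) (hQ hy)]
  · -- star
    refine O.const_inj S (hsp (S.bicent_star hx) hl).1.1 (star_mem (hsp hx hl).1.1) ?_
    rw [(hsp (S.bicent_star hx) hl).2, O.const_star S hx.1,
      O.const_star S (hsp hx hl).1.1, (hsp hx hl).2, hAP.al_star (hG l hl) (hQ hx)]
  · -- action
    have hmx := (hsp hx hm).1
    refine O.const_inj S (hsp hmx hl).1.1 (hsp hx (mul_pos hl hm)).1.1 ?_
    rw [(hsp hmx hl).2, (hsp hx hm).2, (hsp hx (mul_pos hl hm)).2,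
      hAP.al_al (hG l hl) (hG m hm) (hQ hx)]
  · -- one
    refine O.const_inj S (hsp hx one_pos).1.1 hx.1 ?_
    rw [(hsp hx one_pos).2, hAP.al_id (hQ hx)]
  · -- state
    have h1 := hAP.al_state (hG l hl) (hQ hx)
    rw [← (hsp hx hl).2] at h1
    have h3 := O.const_inner S (one_mem M) hx.1
    have h4 := O.const_inner S (one_mem M) (hsp hx hl).1.1
    rw [O.one] at h3 h4
    simp only [one_apply_eq_self] at h3 h4
    rw [← h3, ← h4]
    exact h1
  · -- continuity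
    intro l hl
    have hl' : 0 < l := hl
    have hI := hAP.InB_of_bicent (O.bicent_of_Qalg S (hQ hx))
    have h1 := hAP.bet_cont hI ζ l hl
    have h2 : Tendsto (fun m => (btU M N ξ m x - btU M N ξ l x) ξ) (𝓝[Set.Ioi 0] l) (𝓝 0) := by
      rw [tendsto_zero_iff_norm_tendsto_zero]
      have h3 := h1.tendsto.sub_const (bet MT NT ζ l (rep fun _ => x) ζ)
      rw [sub_self, tendsto_zero_iff_norm_tendsto_zero] at h3
      refine h3.congr' ?_
      filter_upwards [self_mem_nhdsWithin] with m hm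
      have hm' : 0 < m := hm
      have ha := (hsp hx hm').1.1
      have hb := (hsp hx hl').1.1
      rw [hAP.bet_eq_al hI (hG m hm'), hAP.bet_eq_al hI (hG l hl'), ← (hsp hx hm').2,
        ← (hsp hx hl').2, ← O.const_norm S (sub_mem ha hb), O.const_sub S ha hb]
      rfl
    have h3 := tendsto_of_bounded_ev M S.dense_comm
      (x := fun m => btU M N ξ m x - btU M N ξ l x) (C := 2 * ‖x‖ + 2 * ‖x‖) (by
        filter_upwards [self_mem_nhdsWithin] with m hm
        exact ⟨sub_mem (hsp hx hm).1.1 (hsp hx hl').1.1,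
          (norm_sub_le _ _).trans (add_le_add (hnorm hx hm) (hnorm hx hl'))⟩)
      (by positivity) h2 v
    have h4 := h3.add_const (btU M N ξ l x v)
    rw [zero_add] at h4
    refine h4.congr fun m => ?_
    rw [sub_apply, sub_add_cancel]
  · -- slices
    symm
    exact O.btU_unique S hAP hG hl (S.slX_bicent hX f g) (S.slX_bicent hX _ _).1
      fun a ha => S.slX_shift hX f g hl ha

end Oc

end Pool.Agent.Helper23
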