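import Pool.Agent.Helper23.Bic
import Pool.Agent.Helper23.Partner

/-!
# Definitions for the ultrapower of an inclusion
-/

open scoped InnerProductSpace Topology
open ContinuousLinearMap Filter

namespace Pool.Agent.Helper23

variable {H : Type*} [NormedAddCommGroup H] [InnerProductSpace ℂ H] [CompleteSpace H]
variable {K : Type*} [NormedAddCommGroup K] [InnerProductSpace ℂ K] [CompleteSpace K]

/-- the ultrafilter -/
noncomputable def UU : Ultrafilter ℕ := Filter.hyperfilter ℕ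

/-- bounded sequences -/
def Bdd {G : Type*} [NormedAddCommGroup G] (x : ℕ → G) : Prop := ∃ C : ℝ, ∀ n, ‖x n‖ ≤ C

/-- `K` is the ultrapower of the Hilbert space `H`; `mk x` is the class of a bounded sequence. -/
structure HUP (mk : (ℕ → H) → K) : Prop where
  add : ∀ x y : ℕ → H, Bdd x → Bdd y → mk (fun n => x n + y n) = mk x + mk y
  smul : ∀ (c : ℂ) (x : ℕ → H), Bdd x → mk (fun n => c • x n) = c • mk x
  inner : ∀ x y : ℕ → H, Bdd x → Bdd y →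
    Tendsto (fun n => ⟪x n, y n⟫_ℂ) (UU : Filter ℕ) (𝓝 ⟪mk x, mk y⟫_ℂ)
  surj : ∀ v : K, ∃ x : ℕ → H, (∀ n, ‖x n‖ ≤ ‖v‖) ∧ mk x = v

/-- the operator on the ultrapower given by a bounded sequence of operators -/
noncomputable def opU (mk : (ℕ → H) → K) (a : ℕ → H →L[ℂ] H) : K →L[ℂ] K :=
  open Classical in
  if h : ∃ T : K →L[ℂ] K, ∀ x, Bdd x → T (mk x) = mk (fun n => a n (x n)) then h.choose else 0

/-- bounded sequences `x` in `M` such that `x ξ` is uniformly close to bounded sequences `r ξ`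
with `r` in the commutant of `M` -/
def AppR (M : VonNeumannAlgebra H) (ξ : H) : Set (ℕ → H →L[ℂ] H) :=
  {x | (∀ n, x n ∈ M) ∧ Bdd x ∧ ∀ ε : ℝ, 0 < ε → ∃ r : ℕ → H →L[ℂ] H,
    (∀ n, r n ∈ M.commutant) ∧ Bdd r ∧ ∀ᶠ n in (UU : Filter ℕ), ‖x n ξ - r n ξ‖ ≤ ε}

/-- the sequences defining the elements of the (Ocneanu) ultrapower of `M` -/
def AppS (M : VonNeumannAlgebra H) (ξ : H) : Set (ℕ → H →L[ℂ] H) :=
  {x | x ∈ AppR M ξ ∧ (fun n => star (x n)) ∈ AppR M ξ}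

/-- the von Neumann algebra generated by a set -/
noncomputable def genVN (S : Set (K →L[ℂ] K)) : VonNeumannAlgebra K where
  toStarSubalgebra := StarSubalgebra.centralizer ℂ
    ((StarSubalgebra.centralizer ℂ S : StarSubalgebra ℂ (K →L[ℂ] K)) : Set (K →L[ℂ] K))
  centralizer_centralizer' := by simp

/-- The ultrapower of the inclusion `N ⊆ M` with its expectation and vector; `rep x` is the
element of the ultrapower of `M` given by the sequence `x` in `AppS M ξ`. -/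
structure Oc (M N : VonNeumannAlgebra H) (E : (H →L[ℂ] H) → (H →L[ℂ] H)) (ξ : H)
    (MT NT : VonNeumannAlgebra K) (ET : (K →L[ℂ] K) → (K →L[ℂ] K)) (ζ : K)
    (rep : (ℕ → H →L[ℂ] H) → (K →L[ℂ] K)) : Prop where
  set : Setting MT NT ET ζ
  add : ∀ x ∈ AppS M ξ, ∀ y ∈ AppS M ξ, rep (fun n => x n + y n) = rep x + rep y
  smul : ∀ (c : ℂ), ∀ x ∈ AppS M ξ, rep (fun n => c • x n) = c • rep x
  mul : ∀ x ∈ AppS M ξ, ∀ y ∈ AppS M ξ, rep (fun n => x n * y n) = rep x * rep y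
  star : ∀ x ∈ AppS M ξ, rep (fun n => star (x n)) = star (rep x)
  one : rep (fun _ => 1) = 1
  norm : ∀ x ∈ AppS M ξ, ∀ C : ℝ, (∀ n, ‖x n‖ ≤ C) → ‖rep x‖ ≤ C
  inner : ∀ x ∈ AppS M ξ, ∀ y ∈ AppS M ξ,
    Tendsto (fun n => ⟪x n ξ, y n ξ⟫_ℂ) (UU : Filter ℕ) (𝓝 ⟪rep x ζ, rep y ζ⟫_ℂ)
  memM : ∀ x ∈ AppS M ξ, rep x ∈ MT
  memN : ∀ x ∈ AppS M ξ, (∀ n, x n ∈ N) → rep x ∈ NT
  surjM : ∀ T ∈ MT, ∃ x ∈ AppS M ξ, (∀ n, ‖x n‖ ≤ 2 * ‖T‖) ∧ T = rep x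
  surjN : ∀ T ∈ NT, ∃ x ∈ AppS M ξ, (∀ n, x n ∈ N) ∧ (∀ n, ‖x n‖ ≤ 2 * ‖T‖) ∧ T = rep x
  expect : ∀ x ∈ AppS M ξ, ET (rep x) = rep (fun n => E (x n))

/-- bounded sequences of `N` which are asymptotic eigenoperators along the ultrafilter -/
def LamU (N : VonNeumannAlgebra H) (ξ : H) (l : ℝ) (a : ℕ → H →L[ℂ] H) : Prop :=
  (∀ n, a n ∈ N) ∧ Bdd a ∧ ∀ ε : ℝ, 0 < ε → ∀ᶠ n in (UU : Filter ℕ), Defect N ξ l ε (a n)

/-- the relative bicentralizer flow -/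
noncomputable def btU (M N : VonNeumannAlgebra H) (ξ : H) (l : ℝ) (x : H →L[ℂ] H) :
    H →L[ℂ] H :=
  open Classical in
  if h : ∃ y ∈ Bicent M N ξ, ∀ a, LamSeq N ξ l a →
    Tendsto (fun n => a n (x ξ) - y (a n ξ)) atTop (𝓝 0) then h.choose else 0

/-- the compression of an operator on the ultrapower to `H` -/
noncomputable def ccU (M : VonNeumannAlgebra H) (ξ : H) (rep : (ℕ → H →L[ℂ] H) → (K →L[ℂ] K))
    (ζ : K) (T : K →L[ℂ] K) : H →L[ℂ] H :=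
  open Classical in
  if h : ∃ y ∈ M, ∀ a ∈ M, ∀ b ∈ M,
    ⟪a ξ, y (b ξ)⟫_ℂ = ⟪rep (fun _ => a) ζ, T (rep (fun _ => b) ζ)⟫_ℂ then h.choose else 0

end Pool.Agent.Helper23
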