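import Pool.Agent.Helper23.UDefs

/-!
# Representations of algebras of sequences
-/

open scoped InnerProductSpace Topology
open ContinuousLinearMap Filter

namespace Pool.Agent.Helper23

variable {H : Type*} [NormedAddCommGroup H] [InnerProductSpace ℂ H] [CompleteSpace H]
variable {K : Type*} [NormedAddCommGroup K] [InnerProductSpace ℂ K] [CompleteSpace K]

/-- `P` is an algebra of bounded sequences in `A`, closed in the sense of `closed`, and `rep` is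
a representation of `P` with `‖rep x ζ‖ = lim ‖x n ξ‖`. -/
structure SeqRep (A : VonNeumannAlgebra H) (P : Set (ℕ → H →L[ℂ] H)) (ξ : H) (ζ : K)
    (rep : (ℕ → H →L[ℂ] H) → (K →L[ℂ] K)) : Prop where
  memA : ∀ x ∈ P, ∀ n, x n ∈ A
  bdd : ∀ x ∈ P, Bdd x
  add : ∀ x ∈ P, ∀ y ∈ P, (fun n => x n + y n) ∈ P ∧ rep (fun n => x n + y n) = rep x + rep y
  smul : ∀ c : ℂ, ∀ x ∈ P, (fun n => c • x n) ∈ P ∧ rep (fun n => c • x n) = c • rep x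
  mul : ∀ x ∈ P, ∀ y ∈ P, (fun n => x n * y n) ∈ P ∧ rep (fun n => x n * y n) = rep x * rep y
  star_mem : ∀ x ∈ P, (fun n => star (x n)) ∈ P ∧ rep (fun n => star (x n)) = star (rep x)
  one : (fun _ => (1 : H →L[ℂ] H)) ∈ P ∧ rep (fun _ => 1) = 1
  norm : ∀ x ∈ P, Tendsto (fun n => ‖x n ξ‖) (UU : Filter ℕ) (𝓝 ‖rep x ζ‖)
  opNorm : ∀ x ∈ P, ∀ C : ℝ, (∀ n, ‖x n‖ ≤ C) → ‖rep x‖ ≤ C
  closed : ∀ x : ℕ → H →L[ℂ] H, (∀ n, x n ∈ A) → Bdd x →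
    (∀ ε : ℝ, 0 < ε → ∃ y ∈ P, ∀ᶠ n in (UU : Filter ℕ), ‖x n ξ - y n ξ‖ ≤ ε ∧
      ‖(star (x n)) ξ - (star (y n)) ξ‖ ≤ ε) → x ∈ P

end Pool.Agent.Helper23
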