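import Pool.Agent.Helper23.UDefs2
import Pool.Agent.Helper4.PU.U2
import Pool.Agent.Helper72.UPow.Hup

/-!
# The ultrapower of an inclusion
-/

open scoped InnerProductSpace Topology
open ContinuousLinearMap Filter

namespace Pool.Agent.Helper23

universe u

variable {H : Type u} [NormedAddCommGroup H] [InnerProductSpace ℂ H] [CompleteSpace H]
variable {L : Type u} [NormedAddCommGroup L] [InnerProductSpace ℂ L] [CompleteSpace L]
variable {K : Type u} [NormedAddCommGroup K] [InnerProductSpace ℂ K] [CompleteSpace K]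
variable {M N A : VonNeumannAlgebra H} {ξ : H} {E : (H →L[ℂ] H) → (H →L[ℂ] H)}

section genVN

lemma oc_mem_genVN {S : Set (K →L[ℂ] K)} {T : K →L[ℂ] K} :
    T ∈ genVN S ↔ ∀ r : K →L[ℂ] K, (∀ s ∈ S, s * r = r * s ∧ star s * r = r * star s) →
      r * T = T * r := by
  have h0 : T ∈ genVN S ↔ T ∈ StarSubalgebra.centralizer ℂ
    ((StarSubalgebra.centralizer ℂ S : StarSubalgebra ℂ (K →L[ℂ] K)) : Set (K →L[ℂ] K)) := Iff.rfl
  rw [h0, StarSubalgebra.mem_centralizer_iff]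
  constructor
  · intro h r hr
    exact (h r ((StarSubalgebra.mem_centralizer_iff ℂ).2 hr)).1
  · intro h r hr
    refine ⟨h r ((StarSubalgebra.mem_centralizer_iff ℂ).1 hr), h (star r) ?_⟩
    exact (StarSubalgebra.mem_centralizer_iff ℂ).1 (star_mem hr)

lemma oc_genVN_mono {S S' : Set (K →L[ℂ] K)} (h : S ⊆ S') {T : K →L[ℂ] K} (hT : T ∈ genVN S) :
    T ∈ genVN S' := by
  rw [oc_mem_genVN] at hT ⊢
  exact fun r hr => hT r fun s hs => hr s (h hs)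

lemma oc_sub_genVN {S : Set (K →L[ℂ] K)} {T : K →L[ℂ] K} (hT : T ∈ S) : T ∈ genVN S := by
  rw [oc_mem_genVN]
  exact fun r hr => (hr T hT).1.symm

end genVN

section AppS

lemma ocS_add {x y : ℕ → H →L[ℂ] H} (hx : x ∈ AppS M ξ) (hy : y ∈ AppS M ξ) :
    (fun n => x n + y n) ∈ AppS M ξ := by
  refine ⟨AppR_add hx.1 hy.1, ?_⟩
  have h := AppR_add hx.2 hy.2
  have e : (fun n => star (x n) + star (y n)) = fun n => star (x n + y n) := by
    funext n; rw [star_add]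
  rwa [e] at h

lemma ocS_smul (c : ℂ) {x : ℕ → H →L[ℂ] H} (hx : x ∈ AppS M ξ) :
    (fun n => c • x n) ∈ AppS M ξ := by
  refine ⟨AppR_smul c hx.1, ?_⟩
  have h := AppR_smul (star c) hx.2
  have e : (fun n => star c • star (x n)) = fun n => star (c • x n) := by
    funext n; rw [star_smul]
  rwa [e] at h

lemma ocS_mul {x y : ℕ → H →L[ℂ] H} (hx : x ∈ AppS M ξ) (hy : y ∈ AppS M ξ) :
    (fun n => x n * y n) ∈ AppS M ξ := by
  refine ⟨AppR_mul hx.1 hy.1, ?_⟩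
  have h := AppR_mul hy.2 hx.2
  have e : (fun n => star (y n) * star (x n)) = fun n => star (x n * y n) := by
    funext n; rw [star_mul]
  rwa [e] at h

lemma ocS_star {x : ℕ → H →L[ℂ] H} (hx : x ∈ AppS M ξ) : (fun n => star (x n)) ∈ AppS M ξ :=
  ⟨hx.2, by simpa using hx.1⟩

lemma ocS_one : (fun _ => (1 : H →L[ℂ] H)) ∈ AppS M ξ := by
  have h : (fun _ => (1 : H →L[ℂ] H)) ∈ AppR M ξ := by
    have h1 := AppR_scalar (M := M) (ξ := ξ) (c := fun _ => 1) ⟨1, fun _ => by simp⟩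
    simpa using h1
  exact ⟨h, by simpa using h⟩

lemma ocS_bdd {x : ℕ → H →L[ℂ] H} (hx : x ∈ AppS M ξ) : Bdd x := hx.1.2.1

lemma ocS_mem {x : ℕ → H →L[ℂ] H} (hx : x ∈ AppS M ξ) (n : ℕ) : x n ∈ M := hx.1.1 n

lemma ocB_const {G : Type*} [NormedAddCommGroup G] (v : G) : Bdd (fun _ : ℕ => v) :=
  ⟨‖v‖, fun _ => le_rfl⟩

lemma ocB_app {x : ℕ → H →L[ℂ] H} (hx : Bdd x) (v : H) : Bdd (fun n => x n v) :=
  hx.app (ocB_const v)

end AppS

/-- the space of the ultrapower -/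
def Vs (M : VonNeumannAlgebra H) (ξ : H) (mk : (ℕ → H) → L) : Submodule ℂ L :=
  (Submodule.span ℂ {v | ∃ x ∈ AppS M ξ, v = mk fun n => x n ξ}).topologicalClosure

instance (M : VonNeumannAlgebra H) (ξ : H) (mk : (ℕ → H) → L) : CompleteSpace (Vs M ξ mk) :=
  (Submodule.isClosed_topologicalClosure _).completeSpace_coe

/-- the representation on the space of the ultrapower -/
noncomputable def rp (M : VonNeumannAlgebra H) (ξ : H) (mk : (ℕ → H) → L)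
    (x : ℕ → H →L[ℂ] H) : Vs M ξ mk →L[ℂ] Vs M ξ mk :=
  ((Vs M ξ mk).orthogonalProjectionOnto).comp ((opU mk x).comp (Vs M ξ mk).subtypeL)

namespace HUP

variable {mk : (ℕ → H) → L} (h : HUP mk)

lemma mem_Vs {x : ℕ → H →L[ℂ] H} (hx : x ∈ AppS M ξ) : (mk fun n => x n ξ) ∈ Vs M ξ mk :=
  Submodule.le_topologicalClosure _ (Submodule.subset_span ⟨x, hx, rfl⟩)

include h

lemma Vs_dense {v : L} (hv : v ∈ Vs M ξ mk) {ε : ℝ} (hε : 0 < ε) :
    ∃ x ∈ AppS M ξ, ‖v - mk fun n => x n ξ‖ < ε := by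
  have h1 : v ∈ closure ((Submodule.span ℂ {v | ∃ x ∈ AppS M ξ, v = mk fun n => x n ξ} :
      Submodule ℂ L) : Set L) := by
    rw [← Submodule.topologicalClosure_coe]; exact hv
  obtain ⟨w, hw, hvw⟩ := Metric.mem_closure_iff.1 h1 ε hε
  rw [dist_eq_norm] at hvw
  have h2 : ∃ x ∈ AppS M ξ, w = mk fun n => x n ξ := by
    refine Submodule.span_induction (p := fun w _ => ∃ x ∈ AppS M ξ, w = mk fun n => x n ξ)
      ?_ ?_ ?_ ?_ hw
    · intro w hw; exact hw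
    · refine ⟨_, ocS_smul 0 ocS_one, ?_⟩
      have h3 := h.smul 0 (fun _ => ξ) (ocB_const ξ)
      have e : (0 : ℂ) • (mk fun _ => ξ) = 0 := zero_smul _ _
      rw [e] at h3
      exact h3.symm
    · rintro _ _ _ _ ⟨x, hx, rfl⟩ ⟨y, hy, rfl⟩
      refine ⟨_, ocS_add hx hy, ?_⟩
      rw [← h.add _ _ (ocB_app (ocS_bdd hx) ξ) (ocB_app (ocS_bdd hy) ξ)]
      rfl
    · rintro c _ _ ⟨x, hx, rfl⟩
      refine ⟨_, ocS_smul c hx, ?_⟩
      rw [← h.smul c _ (ocB_app (ocS_bdd hx) ξ)]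
      rfl
  obtain ⟨x, hx, rfl⟩ := h2
  exact ⟨x, hx, hvw⟩

lemma Vs_inv {x : ℕ → H →L[ℂ] H} (hx : x ∈ AppS M ξ) {v : L} (hv : v ∈ Vs M ξ mk) :
    opU mk x v ∈ Vs M ξ mk := by
  have hcl : IsClosed {v : L | opU mk x v ∈ Vs M ξ mk} :=
    (Submodule.isClosed_topologicalClosure _).preimage (opU mk x).continuous
  have : v ∈ closure {v : L | opU mk x v ∈ Vs M ξ mk} := by
    rw [Metric.mem_closure_iff]
    intro ε hε
    obtain ⟨y, hy, hvy⟩ := h.Vs_dense hv hε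
    refine ⟨_, ?_, by rw [dist_eq_norm]; exact hvy⟩
    change opU mk x (mk fun n => y n ξ) ∈ Vs M ξ mk
    rw [h.opU_mk (ocS_bdd hx) (ocB_app (ocS_bdd hy) ξ)]
    exact HUP.mem_Vs (ocS_mul hx hy)
  exact hcl.closure_subset this

lemma rp_coe {x : ℕ → H →L[ℂ] H} (hx : x ∈ AppS M ξ) (v : Vs M ξ mk) :
    ((rp M ξ mk x v : Vs M ξ mk) : L) = opU mk x v := by
  have h1 : opU mk x (v : L) ∈ Vs M ξ mk := h.Vs_inv hx v.2
  exact congrArg Subtype.val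
    (Submodule.orthogonalProjectionOnto_mem_subspace_eq_self (K := Vs M ξ mk) ⟨_, h1⟩)

lemma rp_add {x y : ℕ → H →L[ℂ] H} (hx : x ∈ AppS M ξ) (hy : y ∈ AppS M ξ) :
    rp M ξ mk (fun n => x n + y n) = rp M ξ mk x + rp M ξ mk y := by
  ext v
  rw [h.rp_coe (ocS_add hx hy), h.opU_add (ocS_bdd hx) (ocS_bdd hy)]
  rw [add_apply, add_apply, Submodule.coe_add, h.rp_coe hx, h.rp_coe hy]

lemma rp_smul (c : ℂ) {x : ℕ → H →L[ℂ] H} (hx : x ∈ AppS M ξ) :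
    rp M ξ mk (fun n => c • x n) = c • rp M ξ mk x := by
  ext v
  rw [h.rp_coe (ocS_smul c hx), h.opU_smul c (ocS_bdd hx)]
  rw [smul_apply, smul_apply, Submodule.coe_smul, h.rp_coe hx]

lemma rp_mul {x y : ℕ → H →L[ℂ] H} (hx : x ∈ AppS M ξ) (hy : y ∈ AppS M ξ) :
    rp M ξ mk (fun n => x n * y n) = rp M ξ mk x * rp M ξ mk y := by
  ext v
  rw [h.rp_coe (ocS_mul hx hy), h.opU_mul (ocS_bdd hx) (ocS_bdd hy)]
  change _ = ((rp M ξ mk x (rp M ξ mk y v) : Vs M ξ mk) : L)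
  rw [h.rp_coe hx, h.rp_coe hy]
  rfl

lemma rp_star {x : ℕ → H →L[ℂ] H} (hx : x ∈ AppS M ξ) :
    rp M ξ mk (fun n => Star.star (x n)) = Star.star (rp M ξ mk x) := by
  rw [ContinuousLinearMap.star_eq_adjoint, ContinuousLinearMap.eq_adjoint_iff]
  intro v w
  rw [Submodule.coe_inner, Submodule.coe_inner, h.rp_coe (ocS_star hx), h.rp_coe hx,
    h.opU_star (ocS_bdd hx), inner_star_left]

lemma rp_one : rp M ξ mk (fun _ => (1 : H →L[ℂ] H)) = 1 := by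
  ext v
  rw [h.rp_coe ocS_one, h.opU_one]
  rfl

lemma rp_norm {x : ℕ → H →L[ℂ] H} {C : ℝ} (hC : ∀ n, ‖x n‖ ≤ C) : ‖rp M ξ mk x‖ ≤ C := by
  have hC0 : 0 ≤ C := (norm_nonneg _).trans (hC 0)
  refine ContinuousLinearMap.opNorm_le_bound _ hC0 fun v => ?_
  change ‖(Vs M ξ mk).orthogonalProjectionOnto (opU mk x (v : L))‖ ≤ _
  refine (Submodule.norm_orthogonalProjectionOnto_apply_le _ _).trans ?_
  exact (opU mk x).le_of_opNorm_le (h.opU_norm hC) _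

end HUP

/-- the vector of the ultrapower -/
def zt (M : VonNeumannAlgebra H) (ξ : H) {mk : (ℕ → H) → L} (h : HUP mk) : Vs M ξ mk :=
  ⟨mk fun _ => ξ, by
    have := HUP.mem_Vs (mk := mk) (M := M) (ξ := ξ) ocS_one
    exact this⟩

namespace HUP

variable {mk : (ℕ → H) → L} (h : HUP mk)
include h

lemma rp_zt {x : ℕ → H →L[ℂ] H} (hx : x ∈ AppS M ξ) :
    ((rp M ξ mk x (zt M ξ h) : Vs M ξ mk) : L) = mk fun n => x n ξ := by
  rw [h.rp_coe hx]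
  exact h.opU_mk (ocS_bdd hx) (ocB_const ξ)

lemma rp_inner {x y : ℕ → H →L[ℂ] H} (hx : x ∈ AppS M ξ) (hy : y ∈ AppS M ξ) :
    Tendsto (fun n => ⟪x n ξ, y n ξ⟫_ℂ) (UU : Filter ℕ)
      (𝓝 ⟪rp M ξ mk x (zt M ξ h), rp M ξ mk y (zt M ξ h)⟫_ℂ) := by
  rw [Submodule.coe_inner, h.rp_zt hx, h.rp_zt hy]
  exact h.inner _ _ (ocB_app (ocS_bdd hx) ξ) (ocB_app (ocS_bdd hy) ξ)

lemma seqRep (hA : ∀ x ∈ A, x ∈ M) :
    SeqRep A {x | x ∈ AppS M ξ ∧ ∀ n, x n ∈ A} ξ (zt M ξ h) (rp M ξ mk) where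
  memA x hx n := hx.2 n
  bdd x hx := ocS_bdd hx.1
  add x hx y hy := ⟨⟨ocS_add hx.1 hy.1, fun n => add_mem (hx.2 n) (hy.2 n)⟩,
    h.rp_add hx.1 hy.1⟩
  smul c x hx := ⟨⟨ocS_smul c hx.1, fun n => smul_mem' c (hx.2 n)⟩, h.rp_smul c hx.1⟩
  mul x hx y hy := ⟨⟨ocS_mul hx.1 hy.1, fun n => mul_mem (hx.2 n) (hy.2 n)⟩,
    h.rp_mul hx.1 hy.1⟩
  star_mem x hx := ⟨⟨ocS_star hx.1, fun n => star_mem (hx.2 n)⟩, h.rp_star hx.1⟩
  one := ⟨⟨ocS_one, fun _ => one_mem A⟩, h.rp_one⟩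
  norm x hx := by
    have := h.norm_tendsto (ocB_app (ocS_bdd hx.1) ξ)
    rw [← h.rp_zt hx.1] at this
    exact this
  opNorm x _ C hC := h.rp_norm hC
  closed x hxA hb hx := by
    refine ⟨⟨?_, ?_⟩, hxA⟩
    · refine AppR_limit (fun n => hA _ (hxA n)) hb fun ε hε => ?_
      obtain ⟨y, hy, h1⟩ := hx ε hε
      exact ⟨y, hy.1.1, h1.mono fun n hn => hn.1⟩
    · refine AppR_limit (fun n => star_mem (hA _ (hxA n))) ?_ fun ε hε => ?_
      · obtain ⟨C, hC⟩ := hb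
        exact ⟨C, fun n => by rw [norm_star]; exact hC n⟩
      · obtain ⟨y, hy, h1⟩ := hx ε hε
        exact ⟨_, hy.1.2, h1.mono fun n hn => hn.2⟩

/-- density of the orbit -/
lemma rp_cyclic (v : Vs M ξ mk) {ε : ℝ} (hε : 0 < ε) :
    ∃ x ∈ AppS M ξ, ‖v - rp M ξ mk x (zt M ξ h)‖ < ε := by
  obtain ⟨x, hx, h1⟩ := h.Vs_dense v.2 hε
  refine ⟨x, hx, ?_⟩
  have e1 : ‖v - rp M ξ mk x (zt M ξ h)‖ = ‖(v : L) - mk fun n => x n ξ‖ := by
    rw [← h.rp_zt hx]; rfl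
  rw [e1]; exact h1

/-- compressions of the sequences of the commutant -/
lemma rp_comm {x : ℕ → H →L[ℂ] H} (hx : x ∈ AppS M ξ) {r : ℕ → H →L[ℂ] H}
    (hr : ∀ n, r n ∈ M.commutant) (hb : Bdd r) :
    rp M ξ mk x * rp M ξ mk r = rp M ξ mk r * rp M ξ mk x := by
  refine ContinuousLinearMap.ext fun v => ?_
  refine ext_inner_left ℂ fun w => ?_
  have hc : (opU mk x) * (opU mk r) = opU mk r * opU mk x := by
    rw [← h.opU_mul (ocS_bdd hx) hb, ← h.opU_mul hb (ocS_bdd hx)]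
    congr 1
    funext n
    ext η
    exact commute_apply (ocS_mem hx n) (hr n) η
  have h1 : ∀ (y : ℕ → H →L[ℂ] H) (a b : Vs M ξ mk), ⟪a, rp M ξ mk y b⟫_ℂ =
      ⟪(a : L), opU mk y (b : L)⟫_ℂ := by
    intro y a b
    change ⟪a, (Vs M ξ mk).orthogonalProjectionOnto (opU mk y (b : L))⟫_ℂ = _
    rw [Submodule.inner_orthogonalProjectionOnto_eq_of_mem_left]
  have h2 : ⟪w, (rp M ξ mk x * rp M ξ mk r) v⟫_ℂ =
      ⟪rp M ξ mk (fun n => Star.star (x n)) w, rp M ξ mk r v⟫_ℂ := by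
    rw [h.rp_star hx, inner_star_left]
    rfl
  have h3 : ⟪w, (rp M ξ mk r * rp M ξ mk x) v⟫_ℂ = ⟪(w : L), opU mk r (opU mk x (v : L))⟫_ℂ := by
    change ⟪w, rp M ξ mk r (rp M ξ mk x v)⟫_ℂ = _
    rw [h1, h.rp_coe hx]
  rw [h2, h3, h1, h.rp_coe (ocS_star hx), h.opU_star (ocS_bdd hx), inner_star_left]
  exact congrArg (fun T : L →L[ℂ] L => ⟪(w : L), T (v : L)⟫_ℂ) hc

/-- separation -/
lemma rp_sep {T : Vs M ξ mk →L[ℂ] Vs M ξ mk}
    (hT : T ∈ genVN (rp M ξ mk '' {x | x ∈ AppS M ξ ∧ ∀ n, x n ∈ M}))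
    (h0 : T (zt M ξ h) = 0) : T = 0 := by
  have hUU := UU_neBot
  -- `T` vanishes on the compressions of the commutant
  have h1 : ∀ r : ℕ → H →L[ℂ] H, (∀ n, r n ∈ M.commutant) → Bdd r →
      T (rp M ξ mk r (zt M ξ h)) = 0 := by
    intro r hr hb
    have h2 : rp M ξ mk r * T = T * rp M ξ mk r := by
      refine oc_mem_genVN.1 hT _ ?_
      rintro _ ⟨x, ⟨hx, hxM⟩, rfl⟩
      refine ⟨h.rp_comm hx hr hb, ?_⟩
      rw [← h.rp_star hx]
      exact h.rp_comm (ocS_star hx) hr hb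
    have h3 := congrArg (fun X : Vs M ξ mk →L[ℂ] Vs M ξ mk => X (zt M ξ h)) h2
    change rp M ξ mk r (T (zt M ξ h)) = T (rp M ξ mk r (zt M ξ h)) at h3
    rw [← h3, h0, map_zero]
  refine ContinuousLinearMap.ext fun v => ?_
  rw [zero_apply]
  have hcl : IsClosed {v : Vs M ξ mk | T v = 0} := isClosed_eq T.continuous continuous_const
  have hv : v ∈ closure {v : Vs M ξ mk | T v = 0} := by
    rw [Metric.mem_closure_iff]
    intro ε hε
    obtain ⟨x, hx, h2⟩ := h.rp_cyclic v (half_pos hε)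
    obtain ⟨r, hr, hrb, h3⟩ := hx.1.2.2 (ε / 4) (by positivity)
    refine ⟨rp M ξ mk r (zt M ξ h), h1 r hr hrb, ?_⟩
    rw [dist_eq_norm]
    have h4 : ‖rp M ξ mk x (zt M ξ h) - rp M ξ mk r (zt M ξ h)‖ ≤ ε / 4 := by
      have e1 : rp M ξ mk x (zt M ξ h) - rp M ξ mk r (zt M ξ h) =
          (Vs M ξ mk).orthogonalProjectionOnto (mk fun n => x n ξ - r n ξ) := by
        rw [h.mk_sub (ocB_app (ocS_bdd hx) ξ) (ocB_app hrb ξ), map_sub]
        congr 1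
        · change (Vs M ξ mk).orthogonalProjectionOnto (opU mk x (mk fun _ => ξ)) = _
          rw [h.opU_mk (ocS_bdd hx) (ocB_const ξ)]
        · change (Vs M ξ mk).orthogonalProjectionOnto (opU mk r (mk fun _ => ξ)) = _
          rw [h.opU_mk hrb (ocB_const ξ)]
      rw [e1]
      refine (Submodule.norm_orthogonalProjectionOnto_apply_le _ _).trans ?_
      exact le_of_tendsto (h.norm_tendsto ((ocB_app (ocS_bdd hx) ξ).sub (ocB_app hrb ξ))) h3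
    calc ‖v - rp M ξ mk r (zt M ξ h)‖ ≤ ‖v - rp M ξ mk x (zt M ξ h)‖ +
          ‖rp M ξ mk x (zt M ξ h) - rp M ξ mk r (zt M ξ h)‖ := by
          have := norm_add_le (v - rp M ξ mk x (zt M ξ h))
            (rp M ξ mk x (zt M ξ h) - rp M ξ mk r (zt M ξ h))
          rwa [sub_add_sub_cancel] at this
      _ < ε := by linarith
  exact hcl.closure_subset hv

end HUP

end Pool.Agent.Helper23
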