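import Pool.Agent.Helper23.UOc
import Pool.Agent.Helper5.PU.SeqSurj

/-!
# The ultrapower of an inclusion, part 2
-/

open scoped InnerProductSpace Topology
open ContinuousLinearMap Filter

namespace Pool.Agent.Helper23

universe u

variable {H : Type u} [NormedAddCommGroup H] [InnerProductSpace ℂ H] [CompleteSpace H]
variable {L : Type u} [NormedAddCommGroup L] [InnerProductSpace ℂ L] [CompleteSpace L]
variable {M N A : VonNeumannAlgebra H} {ξ : H} {E : (H →L[ℂ] H) → (H →L[ℂ] H)}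

/-- the algebra generated by the sequences with values in `A` -/
noncomputable def Mt (M : VonNeumannAlgebra H) (ξ : H) (mk : (ℕ → H) → L)
    (A : VonNeumannAlgebra H) : VonNeumannAlgebra (Vs M ξ mk) :=
  genVN (rp M ξ mk '' {x | x ∈ AppS M ξ ∧ ∀ n, x n ∈ A})

/-- the expectation on the ultrapower -/
noncomputable def Et (M : VonNeumannAlgebra H) (E : (H →L[ℂ] H) → (H →L[ℂ] H)) (ξ : H)
    (mk : (ℕ → H) → L) (T : Vs M ξ mk →L[ℂ] Vs M ξ mk) : Vs M ξ mk →L[ℂ] Vs M ξ mk :=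
  open Classical in
  if h : ∃ x ∈ AppS M ξ, rp M ξ mk x = T then rp M ξ mk (fun n => E (h.choose n)) else 0

lemma Setting.norm_E_sub (S : Setting M N E ξ) {x y : H →L[ℂ] H} (hx : x ∈ M) (hy : y ∈ M) :
    ‖E x ξ - E y ξ‖ ≤ ‖x ξ - y ξ‖ := by
  set d := E x - E y with hd
  have hdN : d ∈ N := sub_mem (S.E_mem x hx) (S.E_mem y hy)
  have h1 : ⟪d ξ, d ξ⟫_ℂ = ⟪d ξ, x ξ - y ξ⟫_ℂ := by
    have h2 := S.E_inner hdN (one_mem N) hx
    have h3 := S.E_inner hdN (one_mem N) hy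
    rw [one_apply_eq_self] at h2 h3
    calc ⟪d ξ, d ξ⟫_ℂ = ⟪d ξ, E x ξ - E y ξ⟫_ℂ := rfl
      _ = _ := by rw [inner_sub_right, inner_sub_right, h2, h3]
  have h2 : ‖d ξ‖ ^ 2 ≤ ‖d ξ‖ * ‖x ξ - y ξ‖ := by
    have h3 : ‖⟪d ξ, d ξ⟫_ℂ‖ = ‖d ξ‖ ^ 2 := by
      rw [inner_self_eq_norm_sq_to_K]
      simp
    rw [← h3, h1]
    exact norm_inner_le_norm _ _
  change ‖d ξ‖ ≤ _
  by_contra hcon
  push Not at hcon
  have h4 : 0 ≤ ‖x ξ - y ξ‖ := norm_nonneg _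
  nlinarith [norm_nonneg (d ξ)]

section

variable {mk : (ℕ → H) → L} (h : HUP mk)
include h

lemma HUP.rp_eq (hd : Dense (orb M.commutant ξ : Set H)) {x y : ℕ → H →L[ℂ] H}
    (hx : x ∈ AppS M ξ) (hy : y ∈ AppS M ξ)
    (hxy : rp M ξ mk x (zt M ξ h) = rp M ξ mk y (zt M ξ h)) : rp M ξ mk x = rp M ξ mk y := by
  have h1 : (fun n => x n + (-1 : ℂ) • y n) ∈ AppS M ξ := ocS_add hx (ocS_smul _ hy)
  have h2 : rp M ξ mk (fun n => x n + (-1 : ℂ) • y n) = rp M ξ mk x - rp M ξ mk y := by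
    rw [h.rp_add hx (ocS_smul _ hy), h.rp_smul _ hy]
    refine ContinuousLinearMap.ext fun v => ?_
    rw [add_apply, smul_apply, sub_apply, neg_one_smul, sub_eq_add_neg]
  have h3 := h.rp_sep (T := rp M ξ mk x - rp M ξ mk y) (by
    rw [← h2]
    exact oc_sub_genVN ⟨_, ⟨h1, fun n => ocS_mem h1 n⟩, rfl⟩) (by
    rw [sub_apply, hxy, sub_self])
  exact sub_eq_zero.1 h3

lemma HUP.rp_E (S : Setting M N E ξ) {x y : ℕ → H →L[ℂ] H}
    (hx : x ∈ AppS M ξ) (hy : y ∈ AppS M ξ) (hxy : rp M ξ mk x = rp M ξ mk y) :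
    rp M ξ mk (fun n => E (x n)) = rp M ξ mk (fun n => E (y n)) := by
  have hUU := UU_neBot
  have hEx := S.AppS_E hx
  have hEy := S.AppS_E hy
  refine h.rp_eq S.dense_comm hEx hEy ?_
  apply Subtype.ext
  rw [h.rp_zt hEx, h.rp_zt hEy, h.mk_eq (ocB_app (ocS_bdd hEx) ξ) (ocB_app (ocS_bdd hEy) ξ)]
  have h1 : (mk fun n => x n ξ) = mk fun n => y n ξ := by
    rw [← h.rp_zt hx, ← h.rp_zt hy, hxy]
  rw [h.mk_eq (ocB_app (ocS_bdd hx) ξ) (ocB_app (ocS_bdd hy) ξ)] at h1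
  exact squeeze_zero (fun _ => norm_nonneg _)
    (fun n => S.norm_E_sub (ocS_mem hx n) (ocS_mem hy n)) h1

lemma HUP.Et_rp (S : Setting M N E ξ) {x : ℕ → H →L[ℂ] H} (hx : x ∈ AppS M ξ) :
    Et M E ξ mk (rp M ξ mk x) = rp M ξ mk (fun n => E (x n)) := by
  have h1 : ∃ y ∈ AppS M ξ, rp M ξ mk y = rp M ξ mk x := ⟨x, hx, rfl⟩
  unfold Et
  rw [dif_pos h1]
  exact h.rp_E S h1.choose_spec.1 hx h1.choose_spec.2

lemma HUP.surjA (S : Setting M N E ξ) (hA : ∀ x ∈ A, x ∈ M)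
    {T : Vs M ξ mk →L[ℂ] Vs M ξ mk} (hT : T ∈ Mt M ξ mk A) :
    ∃ x ∈ AppS M ξ, (∀ n, x n ∈ A) ∧ (∀ n, ‖x n‖ ≤ 2 * ‖T‖) ∧ rp M ξ mk x = T := by
  obtain ⟨x, hx, h1, h2⟩ := (h.seqRep (M := M) (ξ := ξ) hA).surj (fun T hT h0 => by
    refine h.rp_sep (oc_genVN_mono (Set.image_mono ?_) hT) h0
    rintro x ⟨h1, h2⟩
    exact ⟨h1, fun n => ocS_mem h1 n⟩) hT
  exact ⟨x, hx.1, hx.2, h1, h2⟩

theorem HUP.oc (S : Setting M N E ξ) :
    Oc M N E ξ (Mt M ξ mk M) (Mt M ξ mk N) (Et M E ξ mk) (zt M ξ h) (rp M ξ mk) := by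
  have hUU := UU_neBot
  have hmemM : ∀ x ∈ AppS M ξ, rp M ξ mk x ∈ Mt M ξ mk M := fun x hx =>
    oc_sub_genVN ⟨x, ⟨hx, fun n => ocS_mem hx n⟩, rfl⟩
  have hmemN : ∀ x ∈ AppS M ξ, (∀ n, x n ∈ N) → rp M ξ mk x ∈ Mt M ξ mk N := fun x hx hxN =>
    oc_sub_genVN ⟨x, ⟨hx, hxN⟩, rfl⟩
  have hle : ∀ T ∈ Mt M ξ mk N, T ∈ Mt M ξ mk M := by
    intro T hT
    refine oc_genVN_mono (Set.image_mono ?_) hT
    rintro x ⟨h1, h2⟩
    exact ⟨h1, fun n => ocS_mem h1 n⟩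
  have hS : Setting (Mt M ξ mk M) (Mt M ξ mk N) (Et M E ξ mk) (zt M ξ h) := by
    refine
      { le := hle
        norm_one := ?_
        cyc := ?_
        sep := fun T hT h0 => h.rp_sep hT h0
        E_mem := fun T hT => ?_
        E_bimod := fun a ha b hb T hT => ?_
        E_fix := fun T hT => ?_
        E_state := fun T hT => ?_ }
    · have h1 := h.norm_tendsto (ocB_const ξ)
      rw [S.norm_one] at h1
      exact (tendsto_nhds_unique h1 tendsto_const_nhds)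
    · rw [Metric.dense_iff]
      intro v ε hε
      obtain ⟨x, hx, h1⟩ := h.rp_cyclic v hε
      refine ⟨rp M ξ mk x (zt M ξ h), ?_, ⟨rp M ξ mk x, hmemM x hx, rfl⟩⟩
      rw [Metric.mem_ball, dist_comm, dist_eq_norm]
      exact h1
    · obtain ⟨x, hx, hxM, -, rfl⟩ := h.surjA S (fun x hx => hx) hT
      rw [h.Et_rp S hx]
      exact hmemN _ (S.AppS_E hx) fun n => S.E_mem _ (hxM n)
    · obtain ⟨x, hx, hxM, -, rfl⟩ := h.surjA S (fun x hx => hx) hT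
      obtain ⟨α, hα, hαN, -, rfl⟩ := h.surjA S S.le ha
      obtain ⟨β, hβ, hβN, -, rfl⟩ := h.surjA S S.le hb
      rw [← h.rp_mul hα hx, ← h.rp_mul (ocS_mul hα hx) hβ,
        h.Et_rp S (ocS_mul (ocS_mul hα hx) hβ), h.Et_rp S hx,
        ← h.rp_mul hα (S.AppS_E hx), ← h.rp_mul (ocS_mul hα (S.AppS_E hx)) hβ]
      congr 1
      funext n
      exact S.E_bimod _ (hαN n) _ (hβN n) _ (hxM n)
    · obtain ⟨x, hx, hxN, -, rfl⟩ := h.surjA S S.le hT
      rw [h.Et_rp S hx]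
      congr 1
      funext n
      exact S.E_fix _ (hxN n)
    · obtain ⟨x, hx, hxM, -, rfl⟩ := h.surjA S (fun x hx => hx) hT
      rw [h.Et_rp S hx]
      have h1 := h.rp_inner (M := M) (ξ := ξ) ocS_one (S.AppS_E hx)
      have h2 := h.rp_inner (M := M) (ξ := ξ) ocS_one hx
      rw [h.rp_one, one_apply_eq_self] at h1 h2
      exact tendsto_nhds_unique h1 (h2.congr fun n => (S.E_state _ (hxM n)).symm)
  exact
    { set := hS
      add := fun x hx y hy => h.rp_add hx hy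
      smul := fun c x hx => h.rp_smul c hx
      mul := fun x hx y hy => h.rp_mul hx hy
      star := fun x hx => h.rp_star hx
      one := h.rp_one
      norm := fun x _ C hC => h.rp_norm hC
      inner := fun x hx y hy => h.rp_inner hx hy
      memM := hmemM
      memN := hmemN
      surjM := fun T hT => by
        obtain ⟨x, hx, -, h1, h2⟩ := h.surjA S (fun x hx => hx) hT
        exact ⟨x, hx, h1, h2.symm⟩
      surjN := fun T hT => by
        obtain ⟨x, hx, h0, h1, h2⟩ := h.surjA S S.le hT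
        exact ⟨x, hx, h0, h1, h2.symm⟩
      expect := fun x hx => h.Et_rp S hx }

end

theorem Setting.exists_Oc (S : Setting M N E ξ) :
    ∃ (K : Type u) (_ : NormedAddCommGroup K) (_ : InnerProductSpace ℂ K) (_ : CompleteSpace K)
      (MT NT : VonNeumannAlgebra K) (ET : (K →L[ℂ] K) → (K →L[ℂ] K)) (ζ : K)
      (rep : (ℕ → H →L[ℂ] H) → (K →L[ℂ] K)), Oc M N E ξ MT NT ET ζ rep := by
  obtain ⟨L, i1, i2, i3, mk, h⟩ := exists_HUP H
  exact ⟨Vs M ξ mk, inferInstance, inferInstance, inferInstance, _, _, _, _, _, h.oc S⟩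

end Pool.Agent.Helper23
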