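import Pool.Agent.Helper23.UBic
import Pool.Agent.Helper23.Pin4

/-!
# The embedding of the bicentralizer, in terms of the flow on the bicentralizer
-/

open scoped InnerProductSpace Topology ENNReal
open ContinuousLinearMap Filter MeasureTheory

namespace Pool.Agent.Helper23

variable {H : Type*} [NormedAddCommGroup H] [InnerProductSpace ℂ H] [CompleteSpace H]
variable {M N : VonNeumannAlgebra H} {ξ : H} {E : (H →L[ℂ] H) → (H →L[ℂ] H)}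

/-- The properties of the relative bicentralizer and its flow used in the construction of the
isomorphism. -/
structure BFlow (M N : VonNeumannAlgebra H) (E : (H →L[ℂ] H) → (H →L[ℂ] H)) (ξ : H) : Prop
    extends Setting M N E ξ where
  scal : ∀ x ∈ Bicent M N ξ, E x = ⟪ξ, x ξ⟫_ℂ • (1 : H →L[ℂ] H)
  bt_mem : ∀ x ∈ Bicent M N ξ, ∀ l : ℝ, 0 < l → btU M N ξ l x ∈ Bicent M N ξ
  bt_add : ∀ x ∈ Bicent M N ξ, ∀ y ∈ Bicent M N ξ, ∀ l : ℝ, 0 < l →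
    btU M N ξ l (x + y) = btU M N ξ l x + btU M N ξ l y
  bt_smul : ∀ c : ℂ, ∀ x ∈ Bicent M N ξ, ∀ l : ℝ, 0 < l →
    btU M N ξ l (c • x) = c • btU M N ξ l x
  bt_mul : ∀ x ∈ Bicent M N ξ, ∀ y ∈ Bicent M N ξ, ∀ l : ℝ, 0 < l →
    btU M N ξ l (x * y) = btU M N ξ l x * btU M N ξ l y
  bt_star : ∀ x ∈ Bicent M N ξ, ∀ l : ℝ, 0 < l →
    btU M N ξ l (star x) = star (btU M N ξ l x)
  bt_bt : ∀ x ∈ Bicent M N ξ, ∀ l : ℝ, 0 < l → ∀ m : ℝ, 0 < m →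
    btU M N ξ l (btU M N ξ m x) = btU M N ξ (l * m) x
  bt_one_act : ∀ x ∈ Bicent M N ξ, btU M N ξ 1 x = x
  bt_opNorm : ∀ x ∈ Bicent M N ξ, ∀ l : ℝ, 0 < l → ‖btU M N ξ l x‖ ≤ 2 * ‖x‖
  bt_state : ∀ x ∈ Bicent M N ξ, ∀ l : ℝ, 0 < l → ⟪ξ, btU M N ξ l x ξ⟫_ℂ = ⟪ξ, x ξ⟫_ℂ
  bt_cont : ∀ x ∈ Bicent M N ξ, ∀ v : H,
    ContinuousOn (fun l : ℝ => btU M N ξ l x v) (Set.Ioi 0)
  flow : ∀ x ∈ Bicent M N ξ, ∀ l : ℝ, 0 < l → ∀ a, LamSeq N ξ l a →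
    Tendsto (fun n => a n (x ξ) - btU M N ξ l x (a n ξ)) atTop (𝓝 0)
  flow_uniq : ∀ x ∈ Bicent M N ξ, ∀ y ∈ M, ∀ l : ℝ, 0 < l →
    (∀ a, LamSeq N ξ l a → Tendsto (fun n => (a n * x - y * a n) ξ) atTop (𝓝 0)) →
      y = btU M N ξ l x
  core : ∀ u ∈ GK N ξ, ∀ y ∈ Bicent M N ξ, ∀ κ : ℝ, 0 < κ → ∃ K : ℝ, 0 ≤ K ∧
    ∀ γ₀ : ℝ, 1 < γ₀ → Real.log γ₀ ≤ 1 / 2 → ∀ (m : ℕ) (g : L2R ℂ), g ≠ 0 →
      ∀ (B : Finset hw) (n : ℕ), 0 < n → K * ((1 + 2 * Real.log γ₀ ^ 2) ^ n - 1) ≤ κ →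
        ∃ z ∈ Bicent M N ξ, ‖(z - btU M N ξ (γ₀ ^ m) y) ξ‖ ^ 2 ≤ 2 * κ ∧
          ∑ j ∈ Finset.Ico (-(m : ℤ)) m, ∑ i ∈ Finset.Ico (-(m : ℤ)) m, ∑ k ∈ B,
            ‖(btU M N ξ (γ₀ ^ (i - m)) z * sa u (Real.log γ₀) g (i, k, j) -
              sa u (Real.log γ₀) g (i, k, j) * btU M N ξ (γ₀ ^ (j - m)) z) ξ‖ ^ 2 ≤
            96 * ‖g‖ ^ 2 * κ / n
  sl_mem : ∀ X ∈ Rk M N ξ, ∀ f g : L2R ℂ, slX X f g ∈ Bicent M N ξ
  sl_bt : ∀ X ∈ Rk M N ξ, ∀ (f g : L2R ℂ) (l : ℝ), 0 < l →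
    btU M N ξ l (slX X f g) = slX X (tr ℂ (Real.log l) f) (tr ℂ (Real.log l) g)

/-- the embedding of the bicentralizer -/
noncomputable def piU (M N : VonNeumannAlgebra H) (ξ : H) (x : H →L[ℂ] H) :
    L2R H →L[ℂ] L2R H := dec (fun s => btU M N ξ (Real.exp s) x)

lemma bicent_sub {x y : H →L[ℂ] H} (hx : x ∈ Bicent M N ξ) (hy : y ∈ Bicent M N ξ) :
    x - y ∈ Bicent M N ξ := by
  have h1 : x - y = x + (-1 : ℂ) • y := by simp [sub_eq_add_neg]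
  rw [h1]
  exact AP.bicent_add hx (AP.bicent_smul _ hy)

lemma bicent_zero : (0 : H →L[ℂ] H) ∈ Bicent M N ξ := by
  have := AP.bicent_smul (M := M) (N := N) (ξ := ξ) 0 AP.bicent_one
  rwa [zero_smul] at this

namespace Setting

variable (S : Setting M N E ξ)
include S

lemma xi_mem_K0 : ξ ∈ K0 N ξ := by
  have := mem_K0 (ξ := ξ) (one_mem N)
  simpa using this

/-- the state of `u* z u` for asymptotically central unitaries -/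
lemma norm_ACU {u : ℕ → H →L[ℂ] H} (hu : ACU N ξ u) {z : H →L[ℂ] H} (hz : z ∈ M) :
    Tendsto (fun n => ‖z (u n ξ)‖) atTop (𝓝 ‖z ξ‖) := by
  have hφ : Tendsto (fun n => ⟪ξ, (star (u n) * (star z * z) * u n) ξ⟫_ℂ) atTop
      (𝓝 ⟪ξ, (star z * z) ξ⟫_ℂ) := by
    rw [tendsto_iff_norm_sub_tendsto_zero]
    rw [Metric.tendsto_atTop]
    intro ε hε
    have hxx : star z * z ∈ M := mul_mem (star_mem hz) hz
    have hEx : E (star z * z) ∈ N := S.E_mem _ hxx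
    have h1 := hu.2.2.2 (ε / (2 * (‖E (star z * z)‖ + 1))) (by positivity)
    obtain ⟨n0, hn0⟩ := eventually_atTop.1 h1
    refine ⟨n0, fun n hn => ?_⟩
    have h2 := hn0 n hn (star (u n) * E (star z * z))
      (mul_mem (star_mem (hu.1 n)) hEx)
    rw [Real.dist_eq, sub_zero, abs_of_nonneg (norm_nonneg _)]
    have e1 : ⟪ξ, (star (u n) * (star z * z) * u n) ξ⟫_ℂ =
        ⟪ξ, (star (u n) * E (star z * z)) (u n ξ)⟫_ℂ := by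
      rw [← S.E_state _ (mul_mem (mul_mem (star_mem (S.le _ (hu.1 n))) hxx) (S.le _ (hu.1 n))),
        S.E_bimod _ (star_mem (hu.1 n)) _ (hu.1 n) _ hxx]
      rfl
    have e2 : ⟪ξ, (star z * z) ξ⟫_ℂ = ⟪ξ, u n ((star (u n) * E (star z * z)) ξ)⟫_ℂ := by
      rw [← S.E_state _ hxx]
      have : u n ((star (u n) * E (star z * z)) ξ) = E (star z * z) ξ :=
        congrArg (fun T : H →L[ℂ] H => T (E (star z * z) ξ)) (hu.2.2.1 n)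
      rw [this]
    rw [e1, e2]
    rw [Complex.ofReal_one, one_mul] at h2
    refine lt_of_le_of_lt h2 ?_
    have e3 : ‖star (u n) * E (star z * z)‖ ≤ ‖E (star z * z)‖ := by
      refine (norm_mul_le _ _).trans ?_
      rw [norm_star]
      calc ‖u n‖ * ‖E (star z * z)‖ ≤ 1 * ‖E (star z * z)‖ := by
            gcongr; exact norm_le_one_of_isom (hu.2.1 n)
        _ = _ := one_mul _
    calc ε / (2 * (‖E (star z * z)‖ + 1)) * ‖star (u n) * E (star z * z)‖ ≤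
          ε / (2 * (‖E (star z * z)‖ + 1)) * (‖E (star z * z)‖ + 1) := by
            gcongr; linarith
      _ = ε / 2 := by field_simp
      _ < ε := by linarith
  have h1 : ∀ n, (⟪ξ, (star (u n) * (star z * z) * u n) ξ⟫_ℂ).re = ‖z (u n ξ)‖ ^ 2 := by
    intro n
    have h1 : ⟪ξ, (star (u n) * (star z * z) * u n) ξ⟫_ℂ = ⟪z (u n ξ), z (u n ξ)⟫_ℂ := by
      change ⟪ξ, (star (u n)) ((star z) (z (u n ξ)))⟫_ℂ = _
      rw [inner_star_right, inner_star_right]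
    rw [h1, inner_self_eq_norm_sq_to_K]
    norm_cast
  have h2 : (⟪ξ, (star z * z) ξ⟫_ℂ).re = ‖z ξ‖ ^ 2 := by
    have h1 : ⟪ξ, (star z * z) ξ⟫_ℂ = ⟪z ξ, z ξ⟫_ℂ := by
      change ⟪ξ, (star z) (z ξ)⟫_ℂ = _
      rw [inner_star_right]
    rw [h1, inner_self_eq_norm_sq_to_K]
    norm_cast
  have h3 := (Complex.continuous_re.tendsto _).comp hφ
  rw [h2] at h3
  have h4 : Tendsto (fun n => ‖z (u n ξ)‖ ^ 2) atTop (𝓝 (‖z ξ‖ ^ 2)) := by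
    refine h3.congr fun n => ?_
    exact h1 n
  have h5 := (Real.continuous_sqrt.tendsto _).comp h4
  rw [Real.sqrt_sq (norm_nonneg _)] at h5
  refine h5.congr fun n => ?_
  exact Real.sqrt_sq (norm_nonneg _)

/-- closedness of the bicentralizer -/
lemma bicent_of_closure {x : H →L[ℂ] H} (hx : x ∈ M)
    (h : x ξ ∈ closure {v : H | ∃ y ∈ Bicent M N ξ, v = y ξ}) : x ∈ Bicent M N ξ := by
  refine S.bicent_of_unitary hx fun u hu => ?_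
  rw [Metric.tendsto_atTop]
  intro ε hε
  obtain ⟨_, ⟨y, hy, rfl⟩, hd⟩ := Metric.mem_closure_iff.1 h (ε / 8) (by positivity)
  rw [dist_eq_norm] at hd
  obtain ⟨n0, hn0⟩ := Metric.tendsto_atTop.1 (hy.2 u (AP.ACU_lamSeq hu) ξ) (ε / 4)
    (by positivity)
  have hxy : x - y ∈ M := sub_mem hx hy.1
  obtain ⟨n1, hn1⟩ := Metric.tendsto_atTop.1 (S.norm_ACU hu hxy) (ε / 8) (by positivity)
  refine ⟨max n0 n1, fun n hn => ?_⟩
  have h1 := hn0 n (le_trans (le_max_left _ _) hn)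
  rw [dist_zero_right] at h1 ⊢
  have h2 : ‖(x - y) (u n ξ)‖ ≤ ε / 4 := by
    have h3 := hn1 n (le_trans (le_max_right _ _) hn)
    rw [Real.dist_eq] at h3
    have h4 := abs_lt.1 h3
    have h5 : ‖(x - y) ξ‖ < ε / 8 := hd
    linarith
  have h3 : ‖u n ((x - y) ξ)‖ ≤ ε / 4 := by
    rw [norm_of_isom (hu.2.1 n)]
    have h5 : ‖(x - y) ξ‖ < ε / 8 := hd
    linarith
  have e1 : x (u n ξ) - u n (x ξ) = (x - y) (u n ξ) - u n ((x - y) ξ) +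
      (y (u n ξ) - u n (y ξ)) := by
    rw [sub_apply, sub_apply, map_sub]
    abel
  rw [e1]
  calc _ ≤ ‖(x - y) (u n ξ) - u n ((x - y) ξ)‖ + ‖y (u n ξ) - u n (y ξ)‖ := norm_add_le _ _
    _ ≤ (‖(x - y) (u n ξ)‖ + ‖u n ((x - y) ξ)‖) + ‖y (u n ξ) - u n (y ξ)‖ := by
        gcongr; exact norm_sub_le _ _
    _ < ε := by linarith

end Setting

namespace BFlow

variable (S : BFlow M N E ξ)
include S

lemma bt_exp_cont {x : H →L[ℂ] H} (hx : x ∈ Bicent M N ξ) (v : H) :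
    Continuous fun s : ℝ => btU M N ξ (Real.exp s) x v := by
  rw [← continuousOn_univ]
  exact (S.bt_cont x hx v).comp (Real.continuous_exp.continuousOn) fun s _ => Real.exp_pos s

lemma bt_one {l : ℝ} (hl : 0 < l) : btU M N ξ l (1 : H →L[ℂ] H) = 1 := by
  refine (S.flow_uniq 1 AP.bicent_one 1 (one_mem M) l hl fun a _ => ?_).symm
  simp only [mul_one, one_mul, sub_self, zero_apply]
  exact tendsto_const_nhds

lemma bt_sub {x y : H →L[ℂ] H} (hx : x ∈ Bicent M N ξ) (hy : y ∈ Bicent M N ξ) {l : ℝ}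
    (hl : 0 < l) : btU M N ξ l (x - y) = btU M N ξ l x - btU M N ξ l y := by
  have h1 : x - y = x + (-1 : ℂ) • y := by simp [sub_eq_add_neg]
  rw [h1, S.bt_add _ hx _ (AP.bicent_smul _ hy) l hl, S.bt_smul _ _ hy l hl]
  simp [sub_eq_add_neg]

/-- independence of the bicentralizer and `N` -/
lemma inner_BN {x a b : H →L[ℂ] H} (hx : x ∈ Bicent M N ξ) (ha : a ∈ N) (hb : b ∈ N) :
    ⟪a ξ, x (b ξ)⟫_ℂ = ⟪ξ, x ξ⟫_ℂ * ⟪a ξ, b ξ⟫_ℂ := by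
  rw [← S.E_inner ha hb hx.1, S.scal x hx, smul_apply, one_apply_eq_self, inner_smul_right]

lemma inner_BB {y z a b : H →L[ℂ] H} (hy : y ∈ Bicent M N ξ) (hz : z ∈ Bicent M N ξ)
    (ha : a ∈ N) (hb : b ∈ N) :
    ⟪y (a ξ), z (b ξ)⟫_ℂ = ⟪y ξ, z ξ⟫_ℂ * ⟪a ξ, b ξ⟫_ℂ := by
  have h := S.inner_BN (AP.bicent_mul (S.bicent_star hy) hz) ha hb
  change ⟪a ξ, (star y) (z (b ξ))⟫_ℂ = ⟪ξ, (star y) (z ξ)⟫_ℂ * _ at h
  rwa [inner_star_right, inner_star_right] at h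

lemma inner_BK {y z : H →L[ℂ] H} (hy : y ∈ Bicent M N ξ) (hz : z ∈ Bicent M N ξ) {k k' : H}
    (hk : k ∈ K0 N ξ) (hk' : k' ∈ K0 N ξ) :
    ⟪y k, z k'⟫_ℂ = ⟪y ξ, z ξ⟫_ℂ * ⟪k, k'⟫_ℂ := by
  have h1 : ∀ b ∈ N, ∀ k ∈ K0 N ξ, ⟪y k, z (b ξ)⟫_ℂ = ⟪y ξ, z ξ⟫_ℂ * ⟪k, b ξ⟫_ℂ := by
    intro b hb k hk
    have hcl : IsClosed {k : H | ⟪y k, z (b ξ)⟫_ℂ = ⟪y ξ, z ξ⟫_ℂ * ⟪k, b ξ⟫_ℂ} :=
      isClosed_eq (by fun_prop) (by fun_prop)
    have hsub : (orb N ξ : Set H) ⊆ {k : H | ⟪y k, z (b ξ)⟫_ℂ = ⟪y ξ, z ξ⟫_ℂ * ⟪k, b ξ⟫_ℂ} := by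
      rintro _ ⟨a, ha, rfl⟩
      exact S.inner_BB hy hz ha hb
    exact closure_minimal hsub hcl hk
  have hcl : IsClosed {k' : H | ⟪y k, z k'⟫_ℂ = ⟪y ξ, z ξ⟫_ℂ * ⟪k, k'⟫_ℂ} :=
    isClosed_eq (by fun_prop) (by fun_prop)
  have hsub : (orb N ξ : Set H) ⊆ {k' : H | ⟪y k, z k'⟫_ℂ = ⟪y ξ, z ξ⟫_ℂ * ⟪k, k'⟫_ℂ} := by
    rintro _ ⟨b, hb, rfl⟩
    exact h1 b hb k hk
  exact closure_minimal hsub hcl hk'

lemma norm_BK {z : H →L[ℂ] H} (hz : z ∈ Bicent M N ξ) {k : H} (hk : k ∈ K0 N ξ) :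
    ‖z k‖ = ‖z ξ‖ * ‖k‖ := by
  have h := S.inner_BK hz hz hk hk
  simp only [inner_self_eq_norm_sq_to_K] at h
  have h2 : ‖z k‖ ^ 2 = (‖z ξ‖ * ‖k‖) ^ 2 := by
    have h3 : ((‖z k‖ ^ 2 : ℝ) : ℂ) = (((‖z ξ‖ * ‖k‖) ^ 2 : ℝ) : ℂ) := by
      push_cast
      rw [mul_pow]
      exact h
    exact Complex.ofReal_injective h3
  exact (pow_left_inj₀ (norm_nonneg _) (by positivity) two_ne_zero).1 h2

lemma bt_inner {x y : H →L[ℂ] H} (hx : x ∈ Bicent M N ξ) (hy : y ∈ Bicent M N ξ) {l : ℝ}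
    (hl : 0 < l) : ⟪btU M N ξ l y ξ, btU M N ξ l x ξ⟫_ℂ = ⟪y ξ, x ξ⟫_ℂ := by
  have h1 := S.bt_state (star y * x) (AP.bicent_mul (S.bicent_star hy) hx) l hl
  rw [S.bt_mul _ (S.bicent_star hy) _ hx l hl, S.bt_star _ hy l hl] at h1
  change ⟪ξ, (star (btU M N ξ l y)) (btU M N ξ l x ξ)⟫_ℂ = ⟪ξ, (star y) (x ξ)⟫_ℂ at h1
  rwa [inner_star_right, inner_star_right] at h1

lemma bt_norm {x : H →L[ℂ] H} (hx : x ∈ Bicent M N ξ) {l : ℝ} (hl : 0 < l) :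
    ‖btU M N ξ l x ξ‖ = ‖x ξ‖ := by
  have h1 := S.bt_inner hx hx hl
  rw [inner_self_eq_norm_sq_to_K, inner_self_eq_norm_sq_to_K] at h1
  have h2 : ‖btU M N ξ l x ξ‖ ^ 2 = ‖x ξ‖ ^ 2 := by exact_mod_cast h1
  exact (pow_left_inj₀ (norm_nonneg _) (norm_nonneg _) two_ne_zero).1 h2

lemma bt_norm_sub {x y : H →L[ℂ] H} (hx : x ∈ Bicent M N ξ) (hy : y ∈ Bicent M N ξ) {l : ℝ}
    (hl : 0 < l) : ‖btU M N ξ l x ξ - btU M N ξ l y ξ‖ = ‖x ξ - y ξ‖ := by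
  have := S.bt_norm (bicent_sub hx hy) hl
  rw [S.bt_sub hx hy hl] at this
  exact this

lemma piU_dec {x : H →L[ℂ] H} (hx : x ∈ Bicent M N ξ) :
    Dec (fun s : ℝ => btU M N ξ (Real.exp s) x) :=
  Dec.of_cont (C := 2 * ‖x‖) (by positivity) (fun s => S.bt_opNorm x hx _ (Real.exp_pos s))
    (S.bt_exp_cont hx)

lemma piU_coe {x : H →L[ℂ] H} (hx : x ∈ Bicent M N ξ) (F : L2R H) :
    piU M N ξ x F =ᵐ[volume] fun s => btU M N ξ (Real.exp s) x (F s) := dec_coe (S.piU_dec hx) F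

lemma piU_add {x y : H →L[ℂ] H} (hx : x ∈ Bicent M N ξ) (hy : y ∈ Bicent M N ξ) :
    piU M N ξ (x + y) = piU M N ξ x + piU M N ξ y := by
  rw [piU, piU, piU, ← dec_add (S.piU_dec hx) (S.piU_dec hy)]
  congr 1
  funext s
  exact S.bt_add _ hx _ hy _ (Real.exp_pos s)

lemma piU_smul (c : ℂ) {x : H →L[ℂ] H} (hx : x ∈ Bicent M N ξ) :
    piU M N ξ (c • x) = c • piU M N ξ x := by
  rw [piU, piU, ← dec_smul c (S.piU_dec hx)]
  congr 1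
  funext s
  exact S.bt_smul c _ hx _ (Real.exp_pos s)

lemma piU_sub {x y : H →L[ℂ] H} (hx : x ∈ Bicent M N ξ) (hy : y ∈ Bicent M N ξ) :
    piU M N ξ (x - y) = piU M N ξ x - piU M N ξ y := by
  have h1 : x - y = x + (-1 : ℂ) • y := by simp [sub_eq_add_neg]
  rw [h1, S.piU_add hx (AP.bicent_smul _ hy), S.piU_smul _ hy]
  simp [sub_eq_add_neg]

lemma piU_mul {x y : H →L[ℂ] H} (hx : x ∈ Bicent M N ξ) (hy : y ∈ Bicent M N ξ) :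
    piU M N ξ (x * y) = piU M N ξ x * piU M N ξ y := by
  ext F : 1
  change _ = piU M N ξ x (piU M N ξ y F)
  rw [piU, piU, piU, dec_comp (S.piU_dec hx) (S.piU_dec hy)]
  congr 2
  funext s
  exact S.bt_mul _ hx _ hy _ (Real.exp_pos s)

lemma piU_one : piU M N ξ (1 : H →L[ℂ] H) = 1 := by
  have : (fun s : ℝ => btU M N ξ (Real.exp s) (1 : H →L[ℂ] H)) = fun _ => (1 : H →L[ℂ] H) := by
    funext s
    exact S.bt_one (Real.exp_pos s)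
  rw [piU, this]
  exact lift_one

lemma piU_star {x : H →L[ℂ] H} (hx : x ∈ Bicent M N ξ) :
    piU M N ξ (star x) = star (piU M N ξ x) := by
  rw [ContinuousLinearMap.star_eq_adjoint (piU M N ξ x), ContinuousLinearMap.eq_adjoint_iff]
  intro F F'
  refine dec_adj (S.piU_dec hx) (S.piU_dec (S.bicent_star hx)) (fun s v w => ?_) F F'
  rw [S.bt_star _ hx _ (Real.exp_pos s), inner_star_left]

lemma piU_mem {x : H →L[ℂ] H} (hx : x ∈ Bicent M N ξ) : piU M N ξ x ∈ amp M :=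
  dec_mem_amp (S.piU_dec hx) fun s => (S.bt_mem _ hx _ (Real.exp_pos s)).1

/-- inner products of vectors of the form `π(x) G` -/
lemma inner_piU {x y : H →L[ℂ] H} (hx : x ∈ Bicent M N ξ) (hy : y ∈ Bicent M N ξ)
    {G G' : L2R H} (hG : ∀ᵐ s, G s ∈ K0 N ξ) (hG' : ∀ᵐ s, G' s ∈ K0 N ξ) :
    ⟪piU M N ξ y G, piU M N ξ x G'⟫_ℂ = ⟪y ξ, x ξ⟫_ℂ * ⟪G, G'⟫_ℂ := by
  rw [L2.inner_def, L2.inner_def, ← integral_const_mul]
  refine integral_congr_ae ?_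
  filter_upwards [S.piU_coe hx G', S.piU_coe hy G, hG, hG'] with s h1 h2 h3 h4
  rw [h1, h2, S.inner_BK (S.bt_mem _ hy _ (Real.exp_pos s)) (S.bt_mem _ hx _ (Real.exp_pos s))
    h3 h4, S.bt_inner hx hy (Real.exp_pos s)]

lemma inner_piU_ten {x y : H →L[ℂ] H} (hx : x ∈ Bicent M N ξ) (hy : y ∈ Bicent M N ξ)
    (f g : L2R ℂ) :
    ⟪piU M N ξ y (ten f ξ), piU M N ξ x (ten g ξ)⟫_ℂ = ⟪y ξ, x ξ⟫_ℂ * ⟪f, g⟫_ℂ := by
  rw [S.inner_piU hx hy (ten_ae_mem f S.xi_mem_K0) (ten_ae_mem g S.xi_mem_K0), inner_ten,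
    S.inner_self, mul_one]

/-- `π(x)` commutes with multiplications -/
lemma piU_mulOp {x : H →L[ℂ] H} (hx : x ∈ Bicent M N ξ) {m : ℝ → ℂ} (hm : BM m) (F : L2R H) :
    mulOp H m (piU M N ξ x F) = piU M N ξ x (mulOp H m F) := by
  ext1
  filter_upwards [mulOp_coe hm (piU M N ξ x F), S.piU_coe hx F,
    S.piU_coe hx (mulOp H m F), mulOp_coe hm F] with s h1 h2 h3 h4
  rw [h1, h2, h3, h4, map_smul]

lemma piU_norm {x : H →L[ℂ] H} (hx : x ∈ Bicent M N ξ) : ‖piU M N ξ x‖ ≤ 2 * ‖x‖ :=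
  dec_norm (by positivity) fun s => S.bt_opNorm _ hx _ (Real.exp_pos s)

lemma piU_inj {x y : H →L[ℂ] H} (hx : x ∈ Bicent M N ξ) (hy : y ∈ Bicent M N ξ)
    (h : piU M N ξ x = piU M N ξ y) : x = y := by
  have hxy := bicent_sub hx hy
  have h1 : piU M N ξ (x - y) = 0 := by rw [S.piU_sub hx hy, h, sub_self]
  have h2 := S.inner_piU_ten hxy hxy e0 e0
  have he0 : ⟪e0, e0⟫_ℂ = 1 := by
    rw [inner_self_eq_norm_sq_to_K, e0_norm]; simp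
  rw [h1, zero_apply, inner_zero_left, he0, mul_one] at h2
  exact sub_eq_zero.1 (S.sep _ hxy.1 (inner_self_eq_zero.1 h2.symm))

lemma tr_piU {x : H →L[ℂ] H} (hx : x ∈ Bicent M N ξ) {l : ℝ} (hl : 0 < l) :
    tr H (-Real.log l) * piU M N ξ x * star (tr H (-Real.log l)) =
      piU M N ξ (btU M N ξ l x) := by
  rw [tr_star, neg_neg]
  ext F : 1
  change tr H (-Real.log l) (piU M N ξ x (tr H (Real.log l) F)) = _
  ext1
  filter_upwards [tr_coe (-Real.log l) (piU M N ξ x (tr H (Real.log l) F)),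
    ae_tr (-Real.log l) (S.piU_coe hx (tr H (Real.log l) F)),
    ae_tr (-Real.log l) (tr_coe (Real.log l) F),
    S.piU_coe (S.bt_mem _ hx _ hl) F] with s h1 h2 h3 h4
  rw [h1, h2, h3, h4, S.bt_bt _ hx _ (Real.exp_pos s) _ hl, sub_neg_eq_add, Real.exp_add,
    Real.exp_log hl, add_sub_cancel_right]

end BFlow

end Pool.Agent.Helper23
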