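import Pool.Agent.Helper23.UPi
import Pool.Agent.Helper23.Pin5

/-!
# Commutation of the bicentralizer with the centralizer of the weight
-/

open scoped InnerProductSpace Topology ENNReal
open ContinuousLinearMap Filter MeasureTheory

namespace Pool.Agent.Helper23

variable {H : Type*} [NormedAddCommGroup H] [InnerProductSpace ℂ H] [CompleteSpace H]
variable {M N : VonNeumannAlgebra H} {ξ : H} {E : (H →L[ℂ] H) → (H →L[ℂ] H)}

namespace BFlow

variable (S : BFlow M N E ξ)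
include S

/-- local closeness of the block diagonal operator -/
lemma bt_sub_bt {y : H →L[ℂ] H} (hy : y ∈ Bicent M N ξ) {κ : ℝ} {γ₀ : ℝ}
    (hγ0 : 0 < γ₀) (m : ℕ) {z : H →L[ℂ] H}
    (hz : z ∈ Bicent M N ξ) (hzy : ‖(z - btU M N ξ (γ₀ ^ m) y) ξ‖ ^ 2 ≤ 2 * κ)
    (hmod : ∀ r : ℝ, 0 ≤ r → r < Real.log γ₀ →
      ‖btU M N ξ (Real.exp r) y ξ - y ξ‖ ≤ Real.sqrt κ)
    {i : ℤ} {s : ℝ} (hs : s ∈ win (Real.log γ₀) i) :
    ‖(btU M N ξ (Real.exp s) y - btU M N ξ (γ₀ ^ (i - m)) z) ξ‖ ≤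
      Real.sqrt κ + Real.sqrt (2 * κ) := by
  set t := Real.log γ₀ with ht
  have hi : 0 < γ₀ ^ i := zpow_pos hγ0 i
  have him : 0 < γ₀ ^ (i - m) := zpow_pos hγ0 _
  have hm : 0 < γ₀ ^ m := pow_pos hγ0 m
  set r := s - i * t with hr
  have hr0 : 0 ≤ r := by have := hs.1; linarith
  have hr1 : r < t := by have := hs.2; rw [hr]; linarith
  have e1 : btU M N ξ (Real.exp s) y = btU M N ξ (γ₀ ^ i) (btU M N ξ (Real.exp r) y) := by
    rw [S.bt_bt _ hy _ hi _ (Real.exp_pos r)]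
    congr 1
    rw [← Real.rpow_intCast, Real.rpow_def_of_pos hγ0, ← Real.exp_add, hr, ← ht]
    congr 1
    ring
  have e2 : btU M N ξ (γ₀ ^ i) y = btU M N ξ (γ₀ ^ (i - m)) (btU M N ξ (γ₀ ^ m) y) := by
    rw [S.bt_bt _ hy _ him _ hm]
    congr 1
    rw [← zpow_natCast, ← zpow_add₀ hγ0.ne', sub_add_cancel]
  have hbr := S.bt_mem y hy _ (Real.exp_pos r)
  have h1 : ‖btU M N ξ (Real.exp s) y ξ - btU M N ξ (γ₀ ^ i) y ξ‖ ≤ Real.sqrt κ := by
    rw [e1, S.bt_norm_sub hbr hy hi]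
    exact hmod r hr0 hr1
  have h2 : ‖btU M N ξ (γ₀ ^ i) y ξ - btU M N ξ (γ₀ ^ (i - m)) z ξ‖ ≤ Real.sqrt (2 * κ) := by
    rw [e2, S.bt_norm_sub (S.bt_mem y hy _ hm) hz him, norm_sub_rev]
    exact Real.le_sqrt_of_sq_le hzy
  calc ‖(btU M N ξ (Real.exp s) y - btU M N ξ (γ₀ ^ (i - m)) z) ξ‖ =
        ‖(btU M N ξ (Real.exp s) y ξ - btU M N ξ (γ₀ ^ i) y ξ) +
          (btU M N ξ (γ₀ ^ i) y ξ - btU M N ξ (γ₀ ^ (i - m)) z ξ)‖ := by
          rw [sub_add_sub_cancel]; rfl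
    _ ≤ _ := (norm_add_le _ _).trans (add_le_add h1 h2)

/-- the two error terms -/
lemma err_blk {y : H →L[ℂ] H} (hy : y ∈ Bicent M N ξ) {t : ℝ} (ht : 0 < t) {A : Finset ℤ}
    {z : ℤ → H →L[ℂ] H} (hz : ∀ i, z i ∈ Bicent M N ξ) {e : ℝ} (he : 0 ≤ e)
    (h : ∀ i ∈ A, ∀ s ∈ win t i, ‖(btU M N ξ (Real.exp s) y - z i) ξ‖ ≤ e)
    {F : L2R H} (hF : ∀ᵐ s, F s ∈ K0 N ξ) :
    ∑ i ∈ A, ‖mulOp H (ind (win t i)) (piU M N ξ y F - blk t A z F)‖ ^ 2 ≤
      e ^ 2 * ‖F‖ ^ 2 := by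
  have h1 : ∀ i ∈ A, ‖mulOp H (ind (win t i)) (piU M N ξ y F - blk t A z F)‖ ^ 2 ≤
      e ^ 2 * ‖mulOp H (ind (win t i)) F‖ ^ 2 := by
    intro i hi
    rw [← mul_pow]
    refine pow_le_pow_left₀ (norm_nonneg _) ?_ 2
    rw [map_sub, blk_win ht hi]
    refine Lp.norm_le_mul_norm_of_ae_le_mul ?_
    filter_upwards [Lp.coeFn_sub (mulOp H (ind (win t i)) (piU M N ξ y F))
      (mulOp H (ind (win t i)) (lift (z i) F)), mulOp_coe (ind_bm (win_meas t i)) (piU M N ξ y F),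
      mulOp_coe (ind_bm (win_meas t i)) (lift (z i) F), S.piU_coe hy F, lift_coe (z i) F,
      mulOp_coe (ind_bm (win_meas t i)) F, hF] with s e1 e2 e3 e4 e5 e6 e7
    rw [e1, Pi.sub_apply, e2, e3, e4, e5, e6, ← smul_sub, norm_smul, norm_smul]
    by_cases hs : s ∈ win t i
    · rw [ind_of_mem hs, norm_one, one_mul, one_mul, ← sub_apply,
        S.norm_BK (bicent_sub (S.bt_mem _ hy _ (Real.exp_pos s)) (hz i)) e7]
      gcongr
      exact h i hi s hs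
    · rw [ind_of_notMem hs, norm_zero, zero_mul, zero_mul, mul_zero]
  refine (Finset.sum_le_sum h1).trans ?_
  rw [← Finset.mul_sum]
  gcongr
  exact bessel_win ht A F

/-- the main estimate -/
theorem est {u : L2R H →L[ℂ] L2R H} (hu : u ∈ GK N ξ) {y : H →L[ℂ] H} (hy : y ∈ Bicent M N ξ)
    {g : L2R ℂ} {ng : ℕ} (hg0 : g ≠ 0) (hg : Pn ng g = g) {κ : ℝ} (hκ : 0 < κ) :
    ‖u (piU M N ξ y (ten g ξ)) - piU M N ξ y (u (ten g ξ))‖ ^ 2 ≤ (4 + 48 * ‖g‖ ^ 2) * κ := by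
  classical
  set X := piU M N ξ y with hX
  set D := u (X (ten g ξ)) - X (u (ten g ξ)) with hD
  obtain ⟨K, hK, hcore⟩ := S.core u hu y hy κ hκ
  have hgn : 0 < ‖g‖ ^ 2 := by positivity
  -- the cut-off
  obtain ⟨L0, hL0⟩ := Metric.tendsto_atTop.1 (GKW.cut_tendsto D) (Real.sqrt κ)
    (Real.sqrt_pos.2 hκ)
  set L : ℕ := max L0 ng with hL
  have hcut : ‖D - mulOp H (ind (Set.Ico (-(L : ℝ)) L)) D‖ ^ 2 ≤ κ := by
    have h1 := hL0 L (le_max_left _ _)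
    rw [dist_eq_norm, norm_sub_rev] at h1
    have h2 := pow_le_pow_left₀ (norm_nonneg _) h1.le 2
    rwa [Real.sq_sqrt hκ.le] at h2
  have hgL : Pn L g = g := Pn_mono (le_max_right _ _) hg
  -- the modulus of continuity
  obtain ⟨t₁, ht₁, hmod⟩ := Metric.continuousAt_iff.1
    ((S.bt_exp_cont hy ξ).continuousAt (x := 0)) (Real.sqrt κ) (Real.sqrt_pos.2 hκ)
  -- the parameters
  obtain ⟨t₀, ht₀, ht₀', hst⟩ := AP.exists_steps (κ := κ) (K := K) (C := 192 * ‖g‖ ^ 2)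
    (L := (L : ℝ)) hκ hK (by positivity) (by positivity)
  set t : ℝ := min t₀ t₁ / 2 with htdef
  have hmin : 0 < min t₀ t₁ := lt_min ht₀ ht₁
  have ht0 : 0 < t := by positivity
  have htm : t < min t₀ t₁ := by rw [htdef]; linarith
  set γ₀ : ℝ := Real.exp t with hγ₀
  have hγ0 : 0 < γ₀ := Real.exp_pos t
  have h1 : 1 < γ₀ := Real.one_lt_exp_iff.2 ht0
  have hlog : Real.log γ₀ = t := Real.log_exp t
  have htt₀ : t < t₀ := lt_of_lt_of_le htm (min_le_left _ _)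
  have htt₁ : t < t₁ := lt_of_lt_of_le htm (min_le_right _ _)
  obtain ⟨n, m, hn, hLm, hnK, hCm⟩ := hst t ht0 htt₀
  have hmod' : ∀ r : ℝ, 0 ≤ r → r < Real.log γ₀ →
      ‖btU M N ξ (Real.exp r) y ξ - y ξ‖ ≤ Real.sqrt κ := by
    intro r hr0 hr1
    rw [hlog] at hr1
    have h3 : dist r 0 < t₁ := by
      rw [Real.dist_eq, sub_zero, abs_of_nonneg hr0]
      exact hr1.trans htt₁
    have h4 := hmod h3
    rw [dist_eq_norm, Real.exp_zero, S.bt_one_act _ hy] at h4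
    exact h4.le
  set A := Finset.Ico (-(m : ℤ)) m with hA
  have hAcard : (A.card : ℝ) = 2 * m := by
    rw [hA, Int.card_Ico]
    have : ((m : ℤ) - -(m : ℤ)).toNat = 2 * m := by omega
    rw [this]
    push_cast
    ring
  obtain ⟨B, hB⟩ := exists_finite (t := t) A D hκ
  obtain ⟨z, hz, hzy, hcore⟩ := hcore γ₀ h1 (by rw [hlog]; linarith) m g hg0 B n hn
    (by rw [hlog]; exact hnK)
  rw [hlog] at hcore
  set zi : ℤ → H →L[ℂ] H := fun i => btU M N ξ (γ₀ ^ (i - m)) z with hzi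
  have hziQ : ∀ i, zi i ∈ Bicent M N ξ := fun i => S.bt_mem _ hz _ (zpow_pos hγ0 _)
  set e : ℝ := Real.sqrt κ + Real.sqrt (2 * κ) with he
  have he0 : 0 ≤ e := by positivity
  have he2 : e ^ 2 ≤ 6 * κ := by
    have a1 := Real.sq_sqrt hκ.le
    have a2 := Real.sq_sqrt (show 0 ≤ 2 * κ by positivity)
    have a3 : e ^ 2 ≤ 2 * Real.sqrt κ ^ 2 + 2 * Real.sqrt (2 * κ) ^ 2 := by
      rw [he]; nlinarith [sq_nonneg (Real.sqrt κ - Real.sqrt (2 * κ))]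
    nlinarith
  have hclose : ∀ i ∈ A, ∀ s ∈ win t i, ‖(btU M N ξ (Real.exp s) y - zi i) ξ‖ ≤ e :=
    fun i _ s hs => S.bt_sub_bt hy hγ0 m hz hzy hmod' (by rw [hlog]; exact hs)
  set Zt := blk t A zi with hZt
  set V := u (Zt (ten g ξ)) - Zt (u (ten g ξ)) with hV
  set R1 := X (ten g ξ) - Zt (ten g ξ) with hR1
  set R2 := X (u (ten g ξ)) - Zt (u (ten g ξ)) with hR2
  have hDV : D - V = u R1 - R2 := by
    rw [hD, hV, hR1, hR2, map_sub]
    abel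
  have hgten : mulOp H (ind (Set.Ico (-(L : ℝ)) L)) (ten g ξ) = ten g ξ := by
    rw [mulOp_ten (ind_bm measurableSet_Ico)]
    change ten (Pn L g) ξ = _
    rw [hgL]
  have hgt : ‖ten g ξ‖ = ‖g‖ := by rw [norm_ten, S.norm_one, mul_one]
  have hR1n : ‖R1‖ ^ 2 ≤ e ^ 2 * ‖g‖ ^ 2 := by
    have c1 := norm_le_win ht0 (m := m) (L := L) hLm R1
    have c2 : mulOp H (ind (Set.Ico (-(L : ℝ)) L)) R1 = R1 := by
      rw [hR1, map_sub, S.piU_mulOp hy (ind_bm measurableSet_Ico),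
        blk_mulOp A zi (ind_bm measurableSet_Ico), hgten]
    rw [c2, sub_self, norm_zero] at c1
    have c3 := S.err_blk hy ht0 hziQ he0 hclose (F := ten g ξ) (ten_ae_mem g S.xi_mem_K0)
    rw [hgt] at c3
    have c4 : (0 : ℝ) ^ 2 = 0 := by norm_num
    rw [c4, add_zero] at c1
    exact c1.trans c3
  have hR2n : ∑ i ∈ A, ‖mulOp H (ind (win t i)) R2‖ ^ 2 ≤ e ^ 2 * ‖g‖ ^ 2 := by
    have c3 := S.err_blk hy ht0 hziQ he0 hclose (F := u (ten g ξ)) (GK_slice_mem hu.1 g)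
    rw [norm_of_isom hu.2.1, hgt] at c3
    exact c3
  have hDVn : ∑ i ∈ A, ‖mulOp H (ind (win t i)) (D - V)‖ ^ 2 ≤ 4 * (e ^ 2 * ‖g‖ ^ 2) := by
    have c1 : ∀ i ∈ A, ‖mulOp H (ind (win t i)) (D - V)‖ ^ 2 ≤
        2 * ‖mulOp H (ind (win t i)) (u R1)‖ ^ 2 + 2 * ‖mulOp H (ind (win t i)) R2‖ ^ 2 := by
      intro i _
      rw [hDV, map_sub, sub_eq_add_neg]
      have := two_sq (mulOp H (ind (win t i)) (u R1)) (-(mulOp H (ind (win t i)) R2))
      rwa [norm_neg] at this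
    refine (Finset.sum_le_sum c1).trans ?_
    rw [Finset.sum_add_distrib, ← Finset.mul_sum, ← Finset.mul_sum]
    have c2 := bessel_win ht0 A (u R1)
    rw [norm_of_isom hu.2.1] at c2
    linarith
  -- the components of `D`
  have hcomp : ∀ i ∈ A, ∀ k ∈ B, ‖sl (mulOp ℂ (ind (win t i)) (hb k)) D‖ ^ 2 ≤
      2 * ((2 * m) * ∑ j ∈ A, ‖(zi i * sa u t g (i, k, j) - sa u t g (i, k, j) * zi j) ξ‖ ^ 2) +
        2 * ‖sl (hb k) (mulOp H (ind (win t i)) (D - V))‖ ^ 2 := by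
    intro i hi k _
    have c1 : sl (mulOp ℂ (ind (win t i)) (hb k)) D =
        sl (mulOp ℂ (ind (win t i)) (hb k)) V +
          sl (hb k) (mulOp H (ind (win t i)) (D - V)) := by
      have c2 : sl (hb k) (mulOp H (ind (win t i)) (D - V)) =
          sl (mulOp ℂ (ind (win t i)) (hb k)) (D - V) := by
        rw [sl_mulOp' (ind_bm (win_meas t i)), ind_conj]
      rw [c2, ← map_add, add_sub_cancel]
    rw [c1]
    refine (two_sq _ _).trans ?_
    gcongr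
    have hgsup : ∀ᵐ s, s ∉ Set.Ico (-(m * t)) (m * t) → g s = 0 := by
      filter_upwards [Pn_ae hgL] with s hs h
      refine hs fun hcon => h ⟨?_, ?_⟩
      · linarith [hcon.1]
      · linarith [hcon.2]
    have c3 := comp_blk (ξ := ξ) ht0 hA zi u hgsup hi k
    rw [← hZt, ← hV] at c3
    rw [c3]
    have c4 : ‖∑ j ∈ A, (sa u t g (i, k, j) * zi j - zi i * sa u t g (i, k, j)) ξ‖ ≤
        ∑ j ∈ A, ‖(zi i * sa u t g (i, k, j) - sa u t g (i, k, j) * zi j) ξ‖ := by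
      refine (norm_sum_le _ _).trans (le_of_eq (Finset.sum_congr rfl fun j _ => ?_))
      rw [← norm_neg, ← neg_apply, neg_sub]
    have c5 := pow_le_pow_left₀ (norm_nonneg _) c4 2
    refine c5.trans ?_
    have c6 := sq_sum_le_card_mul_sum_sq (s := A)
      (f := fun j => ‖(zi i * sa u t g (i, k, j) - sa u t g (i, k, j) * zi j) ξ‖)
    rw [hAcard] at c6
    exact c6
  have htot : ∑ i ∈ A, ∑ k ∈ B, ‖sl (mulOp ℂ (ind (win t i)) (hb k)) D‖ ^ 2 ≤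
      2 * ((2 * m) * (96 * ‖g‖ ^ 2 * κ / n)) + 2 * (4 * (e ^ 2 * ‖g‖ ^ 2)) := by
    have d1 : ∑ i ∈ A, ∑ k ∈ B, ‖sl (mulOp ℂ (ind (win t i)) (hb k)) D‖ ^ 2 ≤
        ∑ i ∈ A, ∑ k ∈ B, (2 * ((2 * m) * ∑ j ∈ A,
          ‖(zi i * sa u t g (i, k, j) - sa u t g (i, k, j) * zi j) ξ‖ ^ 2) +
        2 * ‖sl (hb k) (mulOp H (ind (win t i)) (D - V))‖ ^ 2) :=
      Finset.sum_le_sum fun i hi => Finset.sum_le_sum fun k hk => hcomp i hi k hk
    refine d1.trans ?_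
    simp only [Finset.sum_add_distrib, ← Finset.mul_sum]
    have d2 : ∑ i ∈ A, ∑ k ∈ B, ∑ j ∈ A,
        ‖(zi i * sa u t g (i, k, j) - sa u t g (i, k, j) * zi j) ξ‖ ^ 2 ≤
        96 * ‖g‖ ^ 2 * κ / n := by
      refine le_trans (le_of_eq ?_) hcore
      rw [Finset.sum_comm (s := A) (t := A)]
      refine Finset.sum_congr rfl fun i _ => ?_
      rw [Finset.sum_comm]
    have d3 : ∑ i ∈ A, ∑ k ∈ B, ‖sl (hb k) (mulOp H (ind (win t i)) (D - V))‖ ^ 2 ≤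
        4 * (e ^ 2 * ‖g‖ ^ 2) :=
      (Finset.sum_le_sum fun i _ => bessel_sq B _).trans hDVn
    gcongr
  have hlast : (2 * m) * (96 * ‖g‖ ^ 2 * κ / n) ≤ κ := by
    have hn0 : (0 : ℝ) < n := by exact_mod_cast hn
    rw [← mul_div_assoc, div_le_iff₀ hn0]
    nlinarith
  have hfin := norm_le_win ht0 (m := m) (L := L) hLm D
  rw [← hA] at hfin
  have he3 : e ^ 2 * ‖g‖ ^ 2 ≤ 6 * κ * ‖g‖ ^ 2 := by gcongr
  nlinarith

/-- Elements of the bicentralizer commute with the centralizer of the weight. -/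
theorem comm_of_bicent {u : L2R H →L[ℂ] L2R H} (hu : u ∈ GK N ξ) {y : H →L[ℂ] H}
    (hy : y ∈ Bicent M N ξ) : u * piU M N ξ y = piU M N ξ y * u := by
  have huM : u ∈ amp M := amp_mono S.le hu.1
  have hpM := S.piU_mem hy
  -- vanishing on functions with bounded support
  have h1 : ∀ (n : ℕ) (g : L2R ℂ), Pn n g = g →
      u (piU M N ξ y (ten g ξ)) - piU M N ξ y (u (ten g ξ)) = 0 := by
    intro n g hg
    by_cases hg0 : g = 0
    · subst hg0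
      have : ten (0 : L2R ℂ) ξ = 0 := map_zero (axi ξ)
      rw [this, map_zero, map_zero, map_zero, sub_self]
    rw [← norm_eq_zero]
    by_contra hne
    set d := ‖u (piU M N ξ y (ten g ξ)) - piU M N ξ y (u (ten g ξ))‖ with hd
    have hpos : 0 < d := lt_of_le_of_ne (norm_nonneg _) (Ne.symm hne)
    have h2 := S.est hu hy hg0 hg (κ := d ^ 2 / (2 * (4 + 48 * ‖g‖ ^ 2))) (by positivity)
    rw [← hd] at h2
    have h3 : (4 + 48 * ‖g‖ ^ 2) * (d ^ 2 / (2 * (4 + 48 * ‖g‖ ^ 2))) = d ^ 2 / 2 := by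
      field_simp
    rw [h3] at h2
    have : 0 < d ^ 2 := by positivity
    linarith
  refine amp_ext (ξ := ξ) S.dense_comm (mul_mem huM hpM) (mul_mem hpM huM) fun g => ?_
  set T : L2R ℂ →L[ℂ] L2R H := (u * piU M N ξ y - piU M N ξ y * u).comp (axi ξ) with hT
  have hTg : ∀ g, T g = u (piU M N ξ y (ten g ξ)) - piU M N ξ y (u (ten g ξ)) := fun _ => rfl
  have hT0 : T g = 0 := by
    refine eq_zero_of_ten fun f η => ?_
    have h2 : ⟪ten f η, T g⟫_ℂ = ⟪(adjoint T) (ten f η), g⟫_ℂ := by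
      rw [adjoint_inner_left]
    rw [h2]
    have h3 : (adjoint T) (ten f η) = 0 := by
      refine eq_zero_of_Pn (n0 := 0) fun n _ => ?_
      refine ext_inner_right ℂ fun g' => ?_
      rw [inner_Pn, adjoint_inner_left, inner_zero_left, hTg, h1 n _ (Pn_Pn n g'),
        inner_zero_right]
    rw [h3, inner_zero_left]
  rw [hTg, sub_eq_zero] at hT0
  exact hT0

/-- the image of the bicentralizer is in the relative commutant -/
lemma piU_mem_Rk {y : H →L[ℂ] H} (hy : y ∈ Bicent M N ξ) : piU M N ξ y ∈ Rk M N ξ :=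
  ⟨S.piU_mem hy, fun _ hu => S.comm_of_bicent hu hy⟩

end BFlow

end Pool.Agent.Helper23
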