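import Pool.Agent.Helper23.VAtz

/-!
# Algebraic properties of the value at zero
-/

open scoped InnerProductSpace Topology ENNReal BoundedContinuousFunction
open ContinuousLinearMap Filter MeasureTheory

set_option linter.unusedSectionVars false

namespace Pool.Agent.Helper23

universe u

variable {H : Type u} [NormedAddCommGroup H] [InnerProductSpace ℂ H] [CompleteSpace H]
variable {M N : VonNeumannAlgebra H} {ξ : H} {E : (H →L[ℂ] H) → (H →L[ℂ] H)}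

lemma Rk_add {X Y : L2R H →L[ℂ] L2R H} (hX : X ∈ Rk M N ξ) (hY : Y ∈ Rk M N ξ) :
    X + Y ∈ Rk M N ξ :=
  ⟨add_mem hX.1 hY.1, fun u hu => by rw [mul_add, add_mul, hX.2 u hu, hY.2 u hu]⟩

lemma Rk_smul (c : ℂ) {X : L2R H →L[ℂ] L2R H} (hX : X ∈ Rk M N ξ) :
    c • X ∈ Rk M N ξ :=
  ⟨smul_mem' c hX.1, fun u hu => by rw [mul_smul_comm, smul_mul_assoc, hX.2 u hu]⟩

lemma Rk_one : (1 : L2R H →L[ℂ] L2R H) ∈ Rk M N ξ :=
  ⟨one_mem _, fun u _ => by rw [mul_one, one_mul]⟩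

lemma sl_norm_le (f : L2R ℂ) (F : L2R H) : ‖sl f F‖ ≤ ‖f‖ * ‖F‖ := by
  have h1 : ‖sl f F‖ ^ 2 ≤ ‖sl f F‖ * (‖f‖ * ‖F‖) := by
    have h2 : ‖⟪sl f F, sl f F⟫_ℂ‖ = ‖sl f F‖ ^ 2 := by
      rw [inner_self_eq_norm_sq_to_K]
      simp
    rw [← h2, inner_sl]
    refine (norm_inner_le_norm _ _).trans ?_
    rw [norm_ten]
    exact le_of_eq (by ring)
  by_contra hcon
  push Not at hcon
  have e2 : 0 ≤ ‖f‖ * ‖F‖ := by positivity
  nlinarith [norm_nonneg (sl f F)]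

lemma ten_sub_right (f : L2R ℂ) (η ζ : H) : ten f (η - ζ) = ten f η - ten f ζ := by
  rw [← iot_apply, map_sub]
  rfl

namespace AtZ

variable {X Y : L2R H →L[ℂ] L2R H} {x y : H →L[ℂ] H}

lemma add (hx : AtZ M N ξ X x) (hy : AtZ M N ξ Y y) : AtZ M N ξ (X + Y) (x + y) := by
  refine ⟨Rk_add hx.1 hy.1, add_mem hx.2.1 hy.2.1, ?_⟩
  have h1 := hx.2.2.add hy.2.2
  rw [add_zero] at h1
  refine squeeze_zero (fun _ => norm_nonneg _) (fun n => ?_) h1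
  have e1 : (X + Y) (ten (fn n) ξ) - ten (fn n) ((x + y) ξ) =
      (X (ten (fn n) ξ) - ten (fn n) (x ξ)) + (Y (ten (fn n) ξ) - ten (fn n) (y ξ)) := by
    change X _ + Y _ - ten (fn n) (x ξ + y ξ) = _
    rw [ten_add_right]
    abel
  rw [e1]
  exact norm_add_le _ _

lemma smul (c : ℂ) (hx : AtZ M N ξ X x) : AtZ M N ξ (c • X) (c • x) := by
  refine ⟨Rk_smul c hx.1, smul_mem' c hx.2.1, ?_⟩
  have h1 := hx.2.2.const_mul ‖c‖
  rw [mul_zero] at h1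
  refine h1.congr fun n => ?_
  have e1 : (c • X) (ten (fn n) ξ) - ten (fn n) ((c • x) ξ) =
      c • (X (ten (fn n) ξ) - ten (fn n) (x ξ)) := by
    change c • X _ - ten (fn n) (c • x ξ) = _
    rw [ten_smul_right, smul_sub]
  rw [e1, norm_smul]

lemma sub (hx : AtZ M N ξ X x) (hy : AtZ M N ξ Y y) : AtZ M N ξ (X - Y) (x - y) := by
  have h1 := hx.add (hy.smul (-1))
  rw [neg_one_smul, neg_one_smul, ← sub_eq_add_neg, ← sub_eq_add_neg] at h1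
  exact h1

lemma one : AtZ M N ξ 1 1 := by
  refine ⟨Rk_one, one_mem _, ?_⟩
  have : (fun n => ‖(1 : L2R H →L[ℂ] L2R H) (ten (fn n) ξ) -
      ten (fn n) ((1 : H →L[ℂ] H) ξ)‖) = fun _ => 0 := by
    funext n
    rw [one_apply_eq_self, one_apply_eq_self, sub_self, norm_zero]
  rw [this]
  exact tendsto_const_nhds

/-- the convergence holds for all vectors -/
lemma all (S : Setting M N E ξ) (hx : AtZ M N ξ X x) (η : H) :
    Tendsto (fun n => ‖X (ten (fn n) η) - ten (fn n) (x η)‖) atTop (𝓝 0) := by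
  rw [Metric.tendsto_atTop]
  intro ε hε
  set C : ℝ := ‖X‖ + ‖x‖ + 1 with hC
  have hC0 : 0 < C := by positivity
  obtain ⟨_, ⟨m, hm, rfl⟩, hd⟩ := Metric.mem_closure_iff.1 (S.dense_comm η) (ε / (2 * C))
    (by positivity)
  rw [dist_eq_norm] at hd
  obtain ⟨n0, hn0⟩ := Metric.tendsto_atTop.1 hx.2.2 (ε / (2 * (‖m‖ + 1))) (by positivity)
  refine ⟨n0, fun n hn => ?_⟩
  have h1 := hn0 n hn
  rw [Real.dist_eq, sub_zero, abs_of_nonneg (norm_nonneg _)] at h1 ⊢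
  have e1 : X (ten (fn n) η) - ten (fn n) (x η) =
      (X (ten (fn n) (η - m ξ)) - ten (fn n) (x (η - m ξ))) +
        lift m (X (ten (fn n) ξ) - ten (fn n) (x ξ)) := by
    rw [map_sub x, map_sub, lift_ten, ← amp_ten hx.1.1 hm (fn n) ξ, ← commute_apply hx.2.1 hm,
      ten_sub_right, ten_sub_right, map_sub]
    abel
  rw [e1]
  have e2 : ‖X (ten (fn n) (η - m ξ)) - ten (fn n) (x (η - m ξ))‖ ≤ (‖X‖ + ‖x‖) * ‖η - m ξ‖ := by
    refine (norm_sub_le _ _).trans ?_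
    rw [add_mul]
    refine add_le_add ?_ ?_
    · refine (X.le_opNorm _).trans ?_
      rw [norm_ten, fn_norm, one_mul]
    · rw [norm_ten, fn_norm, one_mul]
      exact x.le_opNorm _
  have e3 : ‖lift m (X (ten (fn n) ξ) - ten (fn n) (x ξ))‖ ≤
      ‖m‖ * ‖X (ten (fn n) ξ) - ten (fn n) (x ξ)‖ :=
    ContinuousLinearMap.le_of_opNorm_le _ (lift_norm m) _
  calc _ ≤ ‖X (ten (fn n) (η - m ξ)) - ten (fn n) (x (η - m ξ))‖ +
        ‖lift m (X (ten (fn n) ξ) - ten (fn n) (x ξ))‖ := norm_add_le _ _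
    _ ≤ (‖X‖ + ‖x‖) * ‖η - m ξ‖ + ‖m‖ * ‖X (ten (fn n) ξ) - ten (fn n) (x ξ)‖ :=
        add_le_add e2 e3
    _ ≤ C * ‖η - m ξ‖ + (‖m‖ + 1) * ‖X (ten (fn n) ξ) - ten (fn n) (x ξ)‖ := by
        gcongr
        · rw [hC]; linarith
        · linarith
    _ < C * (ε / (2 * C)) + (‖m‖ + 1) * (ε / (2 * (‖m‖ + 1))) := by
        gcongr
    _ = ε := by
        field_simp
        ring

lemma mul (S : Setting M N E ξ) (hx : AtZ M N ξ X x) (hy : AtZ M N ξ Y y) :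
    AtZ M N ξ (X * Y) (x * y) := by
  refine ⟨Rk_mul hx.1 hy.1, mul_mem hx.2.1 hy.2.1, ?_⟩
  have h1 := (hx.all S (y ξ)).add (hy.2.2.const_mul ‖X‖)
  rw [mul_zero, add_zero] at h1
  refine squeeze_zero (fun _ => norm_nonneg _) (fun n => ?_) h1
  have e1 : (X * Y) (ten (fn n) ξ) - ten (fn n) ((x * y) ξ) =
      (X (ten (fn n) (y ξ)) - ten (fn n) (x (y ξ))) +
        X (Y (ten (fn n) ξ) - ten (fn n) (y ξ)) := by
    change X (Y _) - ten (fn n) (x (y ξ)) = _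
    rw [map_sub]
    abel
  rw [e1]
  exact (norm_add_le _ _).trans (add_le_add le_rfl (X.le_opNorm _))

/-- the slices converge -/
lemma slX_tendsto (S : Setting M N E ξ) (hx : AtZ M N ξ X x) (η : H) :
    Tendsto (fun n => slX X (fn n) (fn n) η) atTop (𝓝 (x η)) := by
  rw [tendsto_iff_norm_sub_tendsto_zero]
  refine squeeze_zero (fun _ => norm_nonneg _) (fun n => ?_) (hx.all S η)
  have h3 : ⟪fn n, fn n⟫_ℂ = 1 := by
    rw [inner_self_eq_norm_sq_to_K, fn_norm]; simp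
  have e1 : slX X (fn n) (fn n) η - x η = sl (fn n) (X (ten (fn n) η) - ten (fn n) (x η)) := by
    rw [map_sub, sl_ten, h3, one_smul, slX_apply]
  rw [e1]
  refine (sl_norm_le _ _).trans ?_
  rw [fn_norm, one_mul]

lemma unique (S : Setting M N E ξ) (hx : AtZ M N ξ X x) (hy : AtZ M N ξ X y) : x = y := by
  ext η
  exact tendsto_nhds_unique (hx.slX_tendsto S η) (hy.slX_tendsto S η)

lemma mem_bicent (S : Setting M N E ξ) (hx : AtZ M N ξ X x) : x ∈ Bicent M N ξ := by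
  refine S.bicent_of_closure hx.2.1 ?_
  refine mem_closure_of_tendsto (hx.slX_tendsto S ξ) (Eventually.of_forall fun n => ?_)
  exact ⟨_, S.slX_bicent hx.1 (fn n) (fn n), rfl⟩

lemma star (S : Setting M N E ξ) (hIII : TypeIIIOne N) (hx : AtZ M N ξ X x) :
    AtZ M N ξ (star X) (star x) := by
  obtain ⟨y, hy, -⟩ := S.exists_atZ hIII (Rk_star hx.1)
  have h1 : y = Star.star x := by
    ext η
    refine ext_inner_left ℂ fun ζ => ?_
    have e1 : Tendsto (fun n => ⟪ζ, slX (Star.star X) (fn n) (fn n) η⟫_ℂ) atTop (𝓝 ⟪ζ, y η⟫_ℂ) :=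
      tendsto_const_nhds.inner (hy.slX_tendsto S η)
    have e2 : Tendsto (fun n => ⟪slX X (fn n) (fn n) ζ, η⟫_ℂ) atTop (𝓝 ⟪x ζ, η⟫_ℂ) :=
      (hx.slX_tendsto S ζ).inner tendsto_const_nhds
    have e3 : ∀ n, ⟪ζ, slX (Star.star X) (fn n) (fn n) η⟫_ℂ = ⟪slX X (fn n) (fn n) ζ, η⟫_ℂ := by
      intro n
      rw [inner_slX, inner_star_right, slX_apply, inner_sl']
    simp only [e3] at e1
    rw [tendsto_nhds_unique e1 e2, inner_star_right]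
  rw [← h1]
  exact hy

/-- the inner products -/
lemma inner (S : Setting M N E ξ) (hIII : TypeIIIOne N) (hx : AtZ M N ξ X x)
    (hy : AtZ M N ξ Y y) (f g : L2R ℂ) :
    ⟪X (ten f ξ), Y (ten g ξ)⟫_ℂ = ⟪x ξ, y ξ⟫_ℂ * ⟪f, g⟫_ℂ := by
  have h0 := (hx.star S hIII).mul S hy
  obtain ⟨c, hc⟩ := S.Rk_scalar hIII h0.1
  have h1 : ∀ f g : L2R ℂ, ⟪X (ten f ξ), Y (ten g ξ)⟫_ℂ = c * ⟪f, g⟫_ℂ := by
    intro f g
    rw [← hc f g]
    change _ = ⟪_, (Star.star X) (Y (ten g ξ))⟫_ℂ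
    rw [inner_star_right]
  have h2 : Tendsto (fun n => ⟪ξ, slX (Star.star X * Y) (fn n) (fn n) ξ⟫_ℂ) atTop
      (𝓝 ⟪ξ, (Star.star x * y) ξ⟫_ℂ) :=
    tendsto_const_nhds.inner (h0.slX_tendsto S ξ)
  have h3 : ∀ n, ⟪ξ, slX (Star.star X * Y) (fn n) (fn n) ξ⟫_ℂ = c := by
    intro n
    rw [inner_slX, hc, inner_self_eq_norm_sq_to_K, fn_norm]
    simp
  simp only [h3] at h2
  have h4 : ⟪ξ, (Star.star x * y) ξ⟫_ℂ = c := (tendsto_nhds_unique tendsto_const_nhds h2).symm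
  rw [h1, ← h4]
  change ⟪ξ, (Star.star x) (y ξ)⟫_ℂ * _ = _
  rw [inner_star_right]

lemma norm_eq (S : Setting M N E ξ) (hIII : TypeIIIOne N) (hx : AtZ M N ξ X x) (f : L2R ℂ) :
    ‖X (ten f ξ)‖ = ‖x ξ‖ * ‖f‖ := by
  have h1 := hx.inner S hIII hx f f
  simp only [inner_self_eq_norm_sq_to_K] at h1
  have h2 : ‖X (ten f ξ)‖ ^ 2 = (‖x ξ‖ * ‖f‖) ^ 2 := by
    rw [mul_pow]
    exact_mod_cast h1
  exact (pow_left_inj₀ (norm_nonneg _) (by positivity) two_ne_zero).1 h2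

lemma inj (S : Setting M N E ξ) (hIII : TypeIIIOne N) (hx : AtZ M N ξ X x)
    (hy : AtZ M N ξ Y x) : X = Y := by
  have h1 := hx.sub hy
  rw [sub_self] at h1
  refine amp_ext S.dense_comm hx.1.1 hy.1.1 fun f => ?_
  rw [← sub_eq_zero, ← sub_apply, ← norm_eq_zero, h1.norm_eq S hIII]
  simp

lemma norm_le (S : Setting M N E ξ) (hIII : TypeIIIOne N) (hx : AtZ M N ξ X x) : ‖x‖ ≤ ‖X‖ := by
  obtain ⟨y, hy, hn⟩ := S.exists_atZ hIII hx.1
  rwa [hx.unique S hy]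

/-- the expectations of the slices -/
lemma E_slX (S : Setting M N E ξ) (hIII : TypeIIIOne N) (hx : AtZ M N ξ X x) (f g : L2R ℂ) :
    E (slX X f g) = (⟪ξ, x ξ⟫_ℂ * ⟪f, g⟫_ℂ) • (1 : H →L[ℂ] H) := by
  rw [S.E_slX_eq hIII hx.1]
  have h1 := one.inner S hIII hx f g
  rw [one_apply_eq_self, one_apply_eq_self] at h1
  rw [h1]

lemma E_eq (S : Setting M N E ξ) (hIII : TypeIIIOne N) (hx : AtZ M N ξ X x) :
    E x = ⟪ξ, x ξ⟫_ℂ • (1 : H →L[ℂ] H) := by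
  have hz : E x - ⟪ξ, x ξ⟫_ℂ • (1 : H →L[ℂ] H) ∈ N :=
    sub_mem (S.E_mem _ hx.2.1) (smul_mem' _ (one_mem N))
  set z := E x - ⟪ξ, x ξ⟫_ℂ • (1 : H →L[ℂ] H) with hzdef
  have h1 : ∀ b ∈ N, ⟪b ξ, z ξ⟫_ℂ = 0 := by
    intro b hb
    have e1 : ⟪b ξ, E x ξ⟫_ℂ = ⟪b ξ, x ξ⟫_ℂ := by
      have := S.E_inner hb (one_mem N) hx.2.1
      rwa [one_apply_eq_self] at this
    have e2 : Tendsto (fun n => ⟪b ξ, slX X (fn n) (fn n) ξ⟫_ℂ) atTop (𝓝 ⟪b ξ, x ξ⟫_ℂ) :=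
      tendsto_const_nhds.inner (hx.slX_tendsto S ξ)
    have e3 : ∀ n, ⟪b ξ, slX X (fn n) (fn n) ξ⟫_ℂ = ⟪ξ, x ξ⟫_ℂ * ⟪b ξ, ξ⟫_ℂ := by
      intro n
      have e4 := S.E_inner hb (one_mem N) (slX_mem hx.1.1 (fn n) (fn n))
      rw [one_apply_eq_self, hx.E_slX S hIII] at e4
      rw [← e4, smul_apply, inner_smul_right, one_apply_eq_self, inner_self_eq_norm_sq_to_K,
        fn_norm]
      simp
    simp only [e3] at e2
    have e4 := tendsto_nhds_unique tendsto_const_nhds e2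
    have e5 : z ξ = E x ξ - ⟪ξ, x ξ⟫_ℂ • ξ := rfl
    rw [e5, inner_sub_right, e1, inner_smul_right, e4, sub_self]
  have h2 : z ξ = 0 := inner_self_eq_zero.1 (h1 z hz)
  exact sub_eq_zero.1 (S.sep z (S.le z hz) h2)

end AtZ

end Pool.Agent.Helper23
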