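import Pool.Agent.Helper23.VRkE

/-!
# The value at zero of an element of the relative commutant
-/

open scoped InnerProductSpace Topology ENNReal BoundedContinuousFunction
open ContinuousLinearMap Filter MeasureTheory

set_option linter.unusedSectionVars false

namespace Pool.Agent.Helper23

universe u

variable {H : Type u} [NormedAddCommGroup H] [InnerProductSpace ℂ H] [CompleteSpace H]
variable {M N : VonNeumannAlgebra H} {ξ : H} {E : (H →L[ℂ] H) → (H →L[ℂ] H)}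

open RBF in
lemma scaling_mul {L : Type*} [NormedAddCommGroup L] [InnerProductSpace ℂ L] [CompleteSpace L]
    {A : VonNeumannAlgebra L} {ψ : (L →L[ℂ] L) → ℝ≥0∞} {l : ℝ}
    {T U : L →L[ℂ] L} (hT : ScalingUnitary A ψ 1 T) (hU : ScalingUnitary A ψ l U) :
    ScalingUnitary A ψ l (T * U) := by
  refine ⟨mul_mem hT.1 hU.1, ?_, ?_, fun X hX hX0 => ?_⟩
  · rw [star_mul, mul_assoc, ← mul_assoc (star T), hT.2.1, one_mul, hU.2.1]
  · rw [star_mul, mul_assoc, ← mul_assoc U, hU.2.2.1, one_mul, hT.2.2.1]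
  · have hpos : 0 ≤ star T * X * T := star_left_conjugate_nonneg hX0 T
    have hmem : star T * X * T ∈ A := mul_mem (mul_mem (star_mem hT.1) hX) hT.1
    have h1 := hU.2.2.2 _ hmem hpos
    have h2 := hT.2.2.2 _ hX hX0
    have e2 : star (T * U) * X * (T * U) = star U * (star T * X * T) * U := by
      rw [star_mul]; simp only [mul_assoc]
    rw [e2, h1, h2, ENNReal.ofReal_one, one_mul]

open RBF in
/-- conjugation of `Rk` by a unitary scaling the weight -/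
lemma Rk_scal {l : ℝ} (hl : 0 < l) {T X : L2R H →L[ℂ] L2R H}
    (hT : ScalingUnitary (amp N) (wK ξ) l T) (hTM : T ∈ amp M) (hX : X ∈ Rk M N ξ) :
    T * X * star T ∈ Rk M N ξ := by
  refine ⟨mul_mem (mul_mem hTM hX.1) (star_mem hTM), fun u hu => ?_⟩
  have h1 : star T * (u * T) ∈ GK N ξ :=
    GK_iff.2 (scaling_quot hl hT (scaling_mul (GK_iff.1 hu) hT))
  have h2 := hX.2 _ h1
  have h3 : T * (star T * (u * T)) = u * T := by rw [← mul_assoc, hT.2.2.1, one_mul]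
  calc u * (T * X * star T) = u * T * X * star T := by simp only [mul_assoc]
    _ = T * (star T * (u * T)) * X * star T := by rw [h3]
    _ = T * ((star T * (u * T)) * X) * star T := by simp only [mul_assoc]
    _ = T * X * (star T * u) * (T * star T) := by rw [h2]; simp only [mul_assoc]
    _ = _ := by rw [hT.2.2.1, mul_one]; simp only [mul_assoc]

lemma Rk_tr {X : L2R H →L[ℂ] L2R H} (hX : X ∈ Rk M N ξ) (t : ℝ) :
    tr H t * X * tr H (-t) ∈ Rk M N ξ := by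
  have h1 := Rk_scal (Real.exp_pos (-t)) (tr_scaling (N := N) (ξ := ξ) (Real.exp_pos (-t)))
    (tr_mem_amp _) hX
  rwa [tr_star, Real.log_exp, neg_neg] at h1

/-- the square of the distance of an element of the relative commutant to its translate -/
noncomputable def Dq (X : L2R H →L[ℂ] L2R H) (ξ : H) (h : ℝ) : ℝ :=
  ‖tr H h (X (tr H (-h) (ten e0 ξ))) - X (ten e0 ξ)‖ ^ 2

lemma Dq_zero (X : L2R H →L[ℂ] L2R H) (ξ : H) : Dq X ξ 0 = 0 := by
  rw [Dq, neg_zero, tr_zero]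
  change ‖X (ten e0 ξ) - X (ten e0 ξ)‖ ^ 2 = 0
  rw [sub_self, norm_zero, zero_pow two_ne_zero]

lemma Dq_cont (X : L2R H →L[ℂ] L2R H) (ξ : H) : Continuous (Dq X ξ) := by
  have h1 : ∀ h, ‖tr H h (X (tr H (-h) (ten e0 ξ))) - X (ten e0 ξ)‖ =
      ‖X (tr H (-h) (ten e0 ξ)) - tr H (-h) (X (ten e0 ξ))‖ := by
    intro h
    rw [← tr_norm (-h) (tr H h (X (tr H (-h) (ten e0 ξ))) - X (ten e0 ξ)), map_sub, tr_neg_tr]
  have h2 : Dq X ξ = fun h => ‖X (tr H (-h) (ten e0 ξ)) - tr H (-h) (X (ten e0 ξ))‖ ^ 2 := by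
    funext h
    rw [Dq, h1]
  rw [h2]
  refine Continuous.pow (Continuous.norm (Continuous.sub ?_ ?_)) 2
  · exact X.continuous.comp ((tr_continuous _).comp continuous_neg)
  · exact (tr_continuous _).comp continuous_neg

/-- the decomposition of `X (· ⊗ ξ)` -/
noncomputable def vX (X : L2R H →L[ℂ] L2R H) (ξ : H) (s : ℝ) : H :=
  (w0 s)⁻¹ • (X (ten f0 ξ)) s

lemma vX_meas (X : L2R H →L[ℂ] L2R H) (ξ : H) : StronglyMeasurable (vX X ξ) := by
  refine StronglyMeasurable.smul ?_ (Lp.stronglyMeasurable _)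
  exact w0_cont.measurable.inv.stronglyMeasurable

lemma w0_smul_vX (X : L2R H →L[ℂ] L2R H) (ξ : H) (s : ℝ) :
    w0 s • vX X ξ s = (X (ten f0 ξ)) s := by
  rw [vX, smul_smul, mul_inv_cancel₀ (w0_ne s), one_smul]

lemma Rk_vX {X : L2R H →L[ℂ] L2R H} (hX : X ∈ Rk M N ξ) {m : ℝ → ℂ} (hm : BM m) :
    X (ten (mulOp ℂ m f0) ξ) =ᵐ[volume] fun s => (m s * w0 s) • vX X ξ s := by
  rw [← mulOp_ten hm, ← Rk_mulOp_apply' hX hm]
  filter_upwards [mulOp_coe hm (X (ten f0 ξ))] with s hs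
  rw [hs, ← w0_smul_vX, smul_smul]

namespace Setting

variable (S : Setting M N E ξ)
include S

lemma Rk_norm (hIII : TypeIIIOne N) {Z : L2R H →L[ℂ] L2R H} (hZ : Z ∈ Rk M N ξ)
    (f g : L2R ℂ) : ⟪Z (ten f ξ), Z (ten g ξ)⟫_ℂ =
      ((‖Z (ten e0 ξ)‖ ^ 2 : ℝ) : ℂ) * ⟪f, g⟫_ℂ := by
  obtain ⟨c, hc⟩ := S.Rk_scalar hIII (Rk_mul (Rk_star hZ) hZ)
  have h1 : ∀ f g : L2R ℂ, ⟪Z (ten f ξ), Z (ten g ξ)⟫_ℂ = c * ⟪f, g⟫_ℂ := by
    intro f g
    rw [← hc f g]
    change _ = ⟪_, (star Z) (Z (ten g ξ))⟫_ℂ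
    rw [inner_star_right]
  have h2 := h1 e0 e0
  rw [inner_self_eq_norm_sq_to_K, inner_self_eq_norm_sq_to_K, e0_norm] at h2
  rw [h1 f g]
  congr 1
  have h3 : ((‖Z (ten e0 ξ)‖ : ℝ) : ℂ) ^ 2 = c := by
    simpa using h2
  rw [← h3]
  push_cast
  rfl

lemma vX_shift (hIII : TypeIIIOne N) {X : L2R H →L[ℂ] L2R H} (hX : X ∈ Rk M N ξ) (h : ℝ) :
    ∀ᵐ s, ‖vX X ξ (s - h) - vX X ξ s‖ ^ 2 = Dq X ξ h := by
  set Z : L2R H →L[ℂ] L2R H := tr H h * X * tr H (-h) - X with hZdef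
  have hZ : Z ∈ Rk M N ξ := Rk_sub (Rk_tr hX h) hX
  have hc : ‖Z (ten e0 ξ)‖ ^ 2 = Dq X ξ h := rfl
  set F : L2R ℂ := tr ℂ h f0 with hF
  set G : L2R H := Z (ten F ξ) with hG
  have hFc : ∀ᵐ s, F s = w0 (s - h) := by
    filter_upwards [tr_coe h f0, ae_tr h f0_coe] with s a1 a2
    rw [a1, a2]
  have hFm : F = mulOp ℂ (fun s => w0 (s - h) / w0 s) f0 := by
    ext1
    filter_upwards [hFc, mulOp_coe (quot_bm h) f0, f0_coe] with s a1 a3 a4
    rw [a1, a3, a4, smul_eq_mul, div_mul_cancel₀ _ (w0_ne s)]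
  have hGc : ∀ᵐ s, G s = w0 (s - h) • (vX X ξ (s - h) - vX X ξ s) := by
    have e1 : G = tr H h (X (ten f0 ξ)) - X (ten F ξ) := by
      rw [hG, hZdef]
      change tr H h (X (tr H (-h) (ten F ξ))) - X (ten F ξ) = _
      rw [tr_ten, hF, tr_neg_tr]
    have e2 := Rk_vX hX (quot_bm h)
    rw [← hFm] at e2
    rw [e1]
    filter_upwards [Lp.coeFn_sub (tr H h (X (ten f0 ξ))) (X (ten F ξ)),
      tr_coe h (X (ten f0 ξ)), e2] with s a1 a2 a3
    rw [a1, Pi.sub_apply, a2, a3, ← w0_smul_vX, smul_sub, div_mul_cancel₀ _ (w0_ne s)]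
  -- the comparison of the densities
  have hint1 : Integrable (fun s => ‖G s‖ ^ 2) := (Lp.memLp G).integrable_norm_pow two_ne_zero
  have hint2 : Integrable (fun s => ‖F s‖ ^ 2) := (Lp.memLp F).integrable_norm_pow two_ne_zero
  have hint : Integrable (fun s => ‖G s‖ ^ 2 - Dq X ξ h * ‖F s‖ ^ 2) :=
    hint1.sub (hint2.const_mul _)
  have hzero : (fun s => ‖G s‖ ^ 2 - Dq X ξ h * ‖F s‖ ^ 2) =ᵐ[volume] 0 := by
    refine hint.ae_eq_zero_of_forall_setIntegral_eq_zero fun A hA _ => ?_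
    have e1 := S.Rk_norm hIII hZ F (mulOp ℂ (ind A) F)
    rw [← mulOp_ten (ind_bm hA), ← Rk_mulOp_apply' hZ (ind_bm hA), hc] at e1
    have e2 : ∀ {K : Type u} [NormedAddCommGroup K] [InnerProductSpace ℂ K] [CompleteSpace K]
        (V : L2R K), ⟪V, mulOp K (ind A) V⟫_ℂ = ((∫ s in A, ‖V s‖ ^ 2 : ℝ) : ℂ) := by
      intro K _ _ _ V
      rw [L2.inner_def, ← integral_indicator hA, ← integral_complex_ofReal]
      refine integral_congr_ae ?_
      filter_upwards [mulOp_coe (ind_bm hA) V] with s a1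
      rw [a1]
      by_cases hs : s ∈ A
      · rw [ind_of_mem hs, one_smul, Set.indicator_of_mem hs, inner_self_eq_norm_sq_to_K]
        norm_cast
      · rw [ind_of_notMem hs, zero_smul, inner_zero_right, Set.indicator_of_notMem hs]
        norm_cast
    have e3 : ⟪F, mulOp ℂ (ind A) F⟫_ℂ = ((∫ s in A, ‖F s‖ ^ 2 : ℝ) : ℂ) := by
      rw [L2.inner_def, ← integral_indicator hA, ← integral_complex_ofReal]
      refine integral_congr_ae ?_
      filter_upwards [mulOp_coe (ind_bm hA) F] with s a1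
      rw [a1]
      by_cases hs : s ∈ A
      · rw [ind_of_mem hs, one_smul, Set.indicator_of_mem hs, inner_self_eq_norm_sq_to_K]
        norm_cast
      · rw [ind_of_notMem hs, zero_smul, inner_zero_right, Set.indicator_of_notMem hs]
        norm_cast
    rw [e2, e3] at e1
    have e4 : ∫ s in A, ‖G s‖ ^ 2 = Dq X ξ h * ∫ s in A, ‖F s‖ ^ 2 := by exact_mod_cast e1
    rw [integral_sub hint1.integrableOn (hint2.const_mul _).integrableOn, e4,
      integral_const_mul, sub_self]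
  filter_upwards [hzero, hGc, hFc] with s a1 a2 a3
  have a4 : ‖G s‖ ^ 2 - Dq X ξ h * ‖F s‖ ^ 2 = 0 := a1
  rw [a2, a3, norm_smul, mul_pow] at a4
  have a5 : (0 : ℝ) < ‖w0 (s - h)‖ ^ 2 := by
    have := norm_pos_iff.2 (w0_ne (s - h))
    positivity
  have a6 : ‖w0 (s - h)‖ ^ 2 * (‖vX X ξ (s - h) - vX X ξ s‖ ^ 2 - Dq X ξ h) = 0 := by
    linarith
  rcases mul_eq_zero.1 a6 with a7 | a7
  · exact absurd a7 a5.ne'
  · linarith

lemma vX_ae (hIII : TypeIIIOne N) {X : L2R H →L[ℂ] L2R H} (hX : X ∈ Rk M N ξ) :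
    ∀ᵐ s, ∀ᵐ s', ‖vX X ξ s' - vX X ξ s‖ ^ 2 = Dq X ξ (s - s') := by
  have hv := vX_meas X ξ
  have hmeas : MeasurableSet {p : ℝ × ℝ | ‖vX X ξ (p.2 - p.1) - vX X ξ p.2‖ ^ 2 = Dq X ξ p.1} := by
    refine measurableSet_eq_fun ?_ ?_
    · have e1 : StronglyMeasurable fun p : ℝ × ℝ => vX X ξ (p.2 - p.1) - vX X ξ p.2 :=
        (hv.comp_measurable (measurable_snd.sub measurable_fst)).sub
          (hv.comp_measurable measurable_snd)
      exact e1.norm.measurable.pow_const 2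
    · exact (Dq_cont X ξ).measurable.comp measurable_fst
  have h4 : ∀ᵐ s, ∀ᵐ t, ‖vX X ξ (s - t) - vX X ξ s‖ ^ 2 = Dq X ξ t :=
    (Measure.ae_ae_comm (μ := (volume : Measure ℝ)) (ν := (volume : Measure ℝ))
      (p := fun t s => ‖vX X ξ (s - t) - vX X ξ s‖ ^ 2 = Dq X ξ t) hmeas).1
      (Eventually.of_forall fun t => S.vX_shift hIII hX t)
  filter_upwards [h4] with s hs
  have hq : Measure.QuasiMeasurePreserving (fun r : ℝ => s - r) volume volume :=
    (volume.measurePreserving_sub_left s).quasiMeasurePreserving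
  filter_upwards [hq.ae hs] with r hr
  rwa [sub_sub_cancel] at hr

/-- the value at zero -/
lemma exists_vlim (hIII : TypeIIIOne N) {X : L2R H →L[ℂ] L2R H} (hX : X ∈ Rk M N ξ) :
    ∃ v : H, ∀ᵐ s, ‖vX X ξ s - v‖ ^ 2 = Dq X ξ (-s) := by
  have h1 := S.vX_ae hIII hX
  obtain ⟨s, hs, hs0⟩ := mem_closure_iff_seq_limit.1 (Measure.dense_of_ae h1 0)
  have h2 : ∀ᵐ s', ∀ k : ℕ, ‖vX X ξ s' - vX X ξ (s k)‖ ^ 2 = Dq X ξ (s k - s') :=
    ae_all_iff.2 fun k => hs k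
  have hD : ∀ ε : ℝ, 0 < ε → ∃ δ : ℝ, 0 < δ ∧ ∀ h : ℝ, |h| < δ → Dq X ξ h < ε ^ 2 := by
    intro ε hε
    have h3 := (Dq_cont X ξ).continuousAt (x := 0)
    rw [Metric.continuousAt_iff] at h3
    obtain ⟨δ, hδ, h4⟩ := h3 (ε ^ 2) (by positivity)
    refine ⟨δ, hδ, fun h hh => ?_⟩
    have h5 := h4 (x := h) (by rwa [Real.dist_eq, sub_zero])
    rw [Dq_zero, Real.dist_eq, sub_zero] at h5
    exact (le_abs_self _).trans_lt h5
  have hsq : ∀ (a : H) (ε : ℝ), 0 < ε → ‖a‖ ^ 2 < ε ^ 2 → ‖a‖ < ε := fun a ε hε h =>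
    lt_of_pow_lt_pow_left₀ 2 hε.le h
  have hC : CauchySeq fun k => vX X ξ (s k) := by
    rw [Metric.cauchySeq_iff]
    intro ε hε
    obtain ⟨δ, hδ, hδ'⟩ := hD (ε / 2) (by positivity)
    obtain ⟨n0, hn0⟩ := (Metric.tendsto_atTop.1 hs0) (δ / 2) (by positivity)
    obtain ⟨r, hr, hr2⟩ := Metric.mem_closure_iff.1 (Measure.dense_of_ae h2 0) (δ / 2)
      (by positivity)
    have hr' : ∀ k, ‖vX X ξ r - vX X ξ (s k)‖ ^ 2 = Dq X ξ (s k - r) := hr
    have hr3 : |r| < δ / 2 := by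
      rw [Real.dist_eq, zero_sub, abs_neg] at hr2
      exact hr2
    have hk : ∀ k, n0 ≤ k → ‖vX X ξ r - vX X ξ (s k)‖ < ε / 2 := by
      intro k hk
      refine hsq _ _ (by positivity) ?_
      rw [hr' k]
      refine hδ' _ ?_
      have h6 := hn0 k hk
      rw [Real.dist_eq, sub_zero] at h6
      have h7 := abs_sub (s k) r
      linarith
    refine ⟨n0, fun k hk1 j hj1 => ?_⟩
    rw [dist_eq_norm]
    have h8 : vX X ξ (s k) - vX X ξ (s j) = (vX X ξ r - vX X ξ (s j)) -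
        (vX X ξ r - vX X ξ (s k)) := by abel
    rw [h8]
    refine (norm_sub_le _ _).trans_lt ?_
    have := hk k hk1
    have := hk j hj1
    linarith
  obtain ⟨v, hv⟩ := cauchySeq_tendsto_of_complete hC
  refine ⟨v, ?_⟩
  filter_upwards [h2] with r hr
  have h9 : Tendsto (fun k => ‖vX X ξ r - vX X ξ (s k)‖ ^ 2) atTop (𝓝 (‖vX X ξ r - v‖ ^ 2)) :=
    ((tendsto_const_nhds.sub hv).norm).pow 2
  have h10 : Tendsto (fun k => Dq X ξ (s k - r)) atTop (𝓝 (Dq X ξ (-r))) := by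
    have : Tendsto (fun k => s k - r) atTop (𝓝 (0 - r)) := hs0.sub_const r
    rw [zero_sub] at this
    exact ((Dq_cont X ξ).tendsto _).comp this
  simp only [hr] at h9
  exact tendsto_nhds_unique h9 h10

end Setting

lemma fn_bm (n : ℕ) : BM fun s => (Set.Ico (0 : ℝ) (1 / (n + 1))).indicator
    (fun _ => (((Real.sqrt (n + 1) : ℝ) : ℂ))) s / w0 s := by
  refine ⟨(measurable_const.indicator measurableSet_Ico).div w0_cont.measurable,
    Real.sqrt (n + 1) * 2, by positivity, fun s => ?_⟩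
  beta_reduce
  by_cases hs : s ∈ Set.Ico (0 : ℝ) (1 / (n + 1))
  · rw [Set.indicator_of_mem hs, norm_div, w0_norm, Complex.norm_real,
      Real.norm_of_nonneg (Real.sqrt_nonneg _), div_eq_mul_inv, inv_inv]
    have h1 : (1 : ℝ) / (n + 1) ≤ 1 := by
      rw [div_le_one (by positivity)]
      linarith [(Nat.cast_nonneg n : (0 : ℝ) ≤ n)]
    have h2 : s ≤ 1 := hs.2.le.trans h1
    have h3 : s ^ 2 ≤ 1 := by nlinarith [hs.1]
    gcongr
    linarith
  · rw [Set.indicator_of_notMem hs, zero_div, norm_zero]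
    positivity

lemma fn_eq (n : ℕ) : fn n = mulOp ℂ (fun s => (Set.Ico (0 : ℝ) (1 / (n + 1))).indicator
    (fun _ => (((Real.sqrt (n + 1) : ℝ) : ℂ))) s / w0 s) f0 := by
  ext1
  filter_upwards [fn_coe n, mulOp_coe (fn_bm n) f0, f0_coe] with s a1 a2 a3
  rw [a1, a2, a3, smul_eq_mul, div_mul_cancel₀ _ (w0_ne s)]

namespace Setting

variable (S : Setting M N E ξ)
include S

lemma exists_lim (hIII : TypeIIIOne N) {X : L2R H →L[ℂ] L2R H} (hX : X ∈ Rk M N ξ) :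
    ∃ v : H, Tendsto (fun n => ‖X (ten (fn n) ξ) - ten (fn n) v‖) atTop (𝓝 0) := by
  obtain ⟨v, hv⟩ := S.exists_vlim hIII hX
  refine ⟨v, ?_⟩
  rw [Metric.tendsto_atTop]
  intro ε hε
  have h3 := (Dq_cont X ξ).continuousAt (x := 0)
  rw [Metric.continuousAt_iff] at h3
  obtain ⟨δ, hδ, h4⟩ := h3 ((ε / 2) ^ 2) (by positivity)
  obtain ⟨n0, hn0⟩ := exists_nat_one_div_lt hδ
  refine ⟨n0, fun n hn => ?_⟩
  rw [Real.dist_eq, sub_zero, abs_of_nonneg (norm_nonneg _)]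
  have h1 : ‖X (ten (fn n) ξ) - ten (fn n) v‖ ≤ ε / 2 * ‖fn n‖ := by
    refine Lp.norm_le_mul_norm_of_ae_le_mul ?_
    have h5 := Rk_vX hX (fn_bm n)
    rw [← fn_eq] at h5
    filter_upwards [Lp.coeFn_sub (X (ten (fn n) ξ)) (ten (fn n) v), h5, ten_coe (fn n) v,
      fn_coe n, hv] with s e1 e2 e3 e4 e5
    rw [e1, Pi.sub_apply, e2, e3, div_mul_cancel₀ _ (w0_ne s), ← e4, ← smul_sub, norm_smul,
      mul_comm]
    by_cases hs : s ∈ Set.Ico (0 : ℝ) (1 / (n + 1))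
    · gcongr
      refine le_of_lt (lt_of_pow_lt_pow_left₀ 2 (by positivity) ?_)
      rw [e5]
      have h2 : dist (-s) 0 < δ := by
        rw [Real.dist_eq, sub_zero, abs_neg, abs_of_nonneg hs.1]
        have h3 : (1 : ℝ) / (n + 1) ≤ 1 / (n0 + 1) := by
          have : (n0 : ℝ) ≤ n := by exact_mod_cast hn
          gcongr
        linarith [hs.2]
      have h5 := h4 h2
      rw [Dq_zero, Real.dist_eq, sub_zero] at h5
      exact (le_abs_self _).trans_lt h5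
    · rw [e4, Set.indicator_of_notMem hs, norm_zero, mul_zero, mul_zero]
  rw [fn_norm, mul_one] at h1
  linarith

theorem exists_atZ (hIII : TypeIIIOne N) {X : L2R H →L[ℂ] L2R H}
    (hX : X ∈ Rk M N ξ) : ∃ x, AtZ M N ξ X x ∧ ‖x‖ ≤ ‖X‖ := by
  obtain ⟨v, hv⟩ := S.exists_lim hIII hX
  have hbound : ∀ m ∈ M.commutant, ‖m v‖ ≤ ‖X‖ * ‖m ξ‖ := by
    intro m hm
    have h1 : ∀ n, ‖m v‖ ≤ ‖X‖ * ‖m ξ‖ + ‖m‖ * ‖X (ten (fn n) ξ) - ten (fn n) v‖ := by
      intro n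
      have e1 : ten (fn n) (m v) = X (ten (fn n) (m ξ)) -
          lift m (X (ten (fn n) ξ) - ten (fn n) v) := by
        rw [map_sub, lift_ten, amp_ten hX.1 hm (fn n) ξ, sub_sub_cancel]
      have e2 : ‖ten (fn n) (m v)‖ = ‖m v‖ := by rw [norm_ten, fn_norm, one_mul]
      rw [← e2, e1]
      refine (norm_sub_le _ _).trans (add_le_add ?_ ?_)
      · refine (X.le_opNorm _).trans ?_
        rw [norm_ten, fn_norm, one_mul]
      · exact ContinuousLinearMap.le_of_opNorm_le _ (lift_norm m) _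
    have h2 : Tendsto (fun n => ‖X‖ * ‖m ξ‖ + ‖m‖ * ‖X (ten (fn n) ξ) - ten (fn n) v‖) atTop
        (𝓝 (‖X‖ * ‖m ξ‖ + ‖m‖ * 0)) := (hv.const_mul _).const_add _
    rw [mul_zero, add_zero] at h2
    exact ge_of_tendsto' h2 h1
  obtain ⟨x, hx, hxeq, hxn⟩ := exists_op M.commutant (norm_nonneg X) S.dense_comm hbound
  rw [VonNeumannAlgebra.commutant_commutant] at hx
  have hxξ : x ξ = v := by
    have := hxeq 1 (one_mem _)
    simpa using this
  refine ⟨x, ⟨hX, hx, ?_⟩, hxn⟩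
  rw [hxξ]
  exact hv

end Setting

end Pool.Agent.Helper23
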