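import Pool.Agent.Helper23.RBFDefs2

/-!
# Embeddings of von Neumann algebras
-/

open scoped InnerProductSpace Topology ENNReal
open Filter

namespace Pool.Agent.Helper23.RBF

variable {H : Type*} [NormedAddCommGroup H] [InnerProductSpace ℂ H] [CompleteSpace H]

/-- `ρ` restricts to an injective unital *-homomorphism of `C` into `B`. -/
structure IsStarEmbedding (C B : VonNeumannAlgebra H) (ρ : (H →L[ℂ] H) → (H →L[ℂ] H)) :
    Prop where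
  maps : ∀ y ∈ C, ρ y ∈ B
  injective : ∀ x ∈ C, ∀ y ∈ C, ρ x = ρ y → x = y
  one : ρ 1 = 1
  add : ∀ x ∈ C, ∀ y ∈ C, ρ (x + y) = ρ x + ρ y
  mul : ∀ x ∈ C, ∀ y ∈ C, ρ (x * y) = ρ x * ρ y
  smul : ∀ (c : ℂ), ∀ x ∈ C, ρ (c • x) = c • ρ x
  star : ∀ x ∈ C, ρ (star x) = star (ρ x)

/-- If `‖a_n φ - l φ a_n‖ → 0` and `u` is a unitary of `N` with `u ψ u* = l ψ`, then
`a_n ρ(y) - ρ(u y u*) a_n → 0` in the *-strong topology, for every `y` in `C`. -/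
def AsympIntertwines (N : VonNeumannAlgebra H) (ξ : H) (ψ : (H →L[ℂ] H) → ℝ≥0∞)
    (C : VonNeumannAlgebra H) (ρ : (H →L[ℂ] H) → (H →L[ℂ] H)) : Prop :=
  ∀ l : ℝ, 0 < l → ∀ u, ScalingUnitary N ψ l u → ∀ a, AsympEigen N ξ l a → ∀ y ∈ C, ∀ η : H,
    Tendsto (fun n => (a n * ρ y - ρ (u * y * star u) * a n) η) atTop (𝓝 0) ∧
    Tendsto (fun n => (star (a n * ρ y - ρ (u * y * star u) * a n)) η) atTop (𝓝 0)

end Pool.Agent.Helper23.RBF
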