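import Pool.Agent.Helper23.VMain

/-!
# Finite index implies finite dimension of the relative commutant
-/

open scoped InnerProductSpace Topology ENNReal BoundedContinuousFunction
open ContinuousLinearMap Filter MeasureTheory

set_option linter.unusedSectionVars false

namespace Pool.Agent.Helper23

universe u

variable {H : Type u} [NormedAddCommGroup H] [InnerProductSpace ℂ H] [CompleteSpace H]
variable {M N : VonNeumannAlgebra H} {ξ : H} {E : (H →L[ℂ] H) → (H →L[ℂ] H)}

namespace Setting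

variable (S : Setting M N E ξ)
include S

lemma E_of_inner {x z : H →L[ℂ] H} (hx : x ∈ M) (hz : z ∈ N)
    (h : ∀ b ∈ N, ⟪b ξ, z ξ⟫_ℂ = ⟪b ξ, x ξ⟫_ℂ) : E x = z := by
  have hN : E x - z ∈ N := sub_mem (S.E_mem x hx) hz
  have h1 : ⟪(E x - z) ξ, (E x - z) ξ⟫_ℂ = 0 := by
    have h2 := S.E_inner hN (one_mem N) hx
    rw [one_apply_eq_self] at h2
    have h3 : (E x - z) ξ = E x ξ - z ξ := rfl
    calc ⟪(E x - z) ξ, (E x - z) ξ⟫_ℂ = ⟪(E x - z) ξ, E x ξ - z ξ⟫_ℂ := rfl
      _ = 0 := by rw [inner_sub_right, h2, h _ hN, sub_self]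
  exact sub_eq_zero.1 (S.sep _ (S.le _ hN) (inner_self_eq_zero.1 h1))

lemma E_sum {ι : Type*} (s : Finset ι) (x : ι → H →L[ℂ] H) (hx : ∀ i, x i ∈ M) :
    E (∑ i ∈ s, x i) = ∑ i ∈ s, E (x i) := by
  refine S.E_of_inner (sum_mem fun i _ => hx i) (sum_mem fun i _ => S.E_mem _ (hx i))
    fun b hb => ?_
  rw [sum_apply, sum_apply, inner_sum, inner_sum]
  refine Finset.sum_congr rfl fun i _ => ?_
  have := S.E_inner hb (one_mem N) (hx i)
  rwa [one_apply_eq_self] at this

/-- the bound for the number of orthonormal elements -/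
lemma card_bound (hN : TwoIsom N) {c : ℝ} (hc : 0 < c)
    (hE : ∀ x ∈ M, ∀ η : H, c * ‖x η‖ ^ 2 ≤ (⟪η, E (star x * x) η⟫_ℂ).re)
    {C : VonNeumannAlgebra H} (hC : ∀ y ∈ C, y ∈ M ∧ ∃ t : ℂ, E y = t • (1 : H →L[ℂ] H))
    {n : ℕ} {y : Fin n → H →L[ℂ] H} (hy : ∀ i, y i ∈ C)
    (ho : Orthonormal ℂ fun i => y i ξ) : n * c ^ 2 ≤ 1 := by
  classical
  obtain ⟨v, hv, w, hw, hv1, hw1, hvw⟩ := hN
  obtain ⟨h3, h4⟩ := pow_isom hv1 hw1 hvw
  set s : Fin n → H →L[ℂ] H := fun i => v ^ (i : ℕ) * w with hs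
  have hsN : ∀ i, s i ∈ N := fun i => mul_mem (pow_mem hv _) hw
  have hss : ∀ i j, star (s i) * s j = if i = j then 1 else 0 := by
    intro i j
    by_cases h : i = j
    · rw [if_pos h, h]
      exact h3 _
    · rw [if_neg h]
      exact h4 _ _ fun hij => h (Fin.ext hij)
  have hyM : ∀ i, y i ∈ M := fun i => (hC _ (hy i)).1
  -- the expectation on `C`
  have hEC : ∀ z ∈ C, E z = ⟪ξ, z ξ⟫_ℂ • (1 : H →L[ℂ] H) := by
    intro z hz
    obtain ⟨hzM, t, ht⟩ := hC z hz
    have h1 := S.E_state z hzM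
    rw [ht, smul_apply, inner_smul_right, one_apply_eq_self, S.inner_self, mul_one] at h1
    rw [ht, h1]
  have hin : ∀ a b : H →L[ℂ] H, ⟪ξ, (star a * b) ξ⟫_ℂ = ⟪a ξ, b ξ⟫_ℂ := by
    intro a b
    change ⟪ξ, (star a) (b ξ)⟫_ℂ = _
    rw [inner_star_right]
  have hEy : ∀ i j, E (star (y i) * y j) = if i = j then 1 else 0 := by
    intro i j
    rw [hEC _ (mul_mem (star_mem (hy i)) (hy j)), hin, orthonormal_iff_ite.1 ho i j]
    split_ifs
    · rw [one_smul]
    · rw [zero_smul]
  have hnorm : ∀ z ∈ C, ∀ η : H, c * ‖z η‖ ^ 2 ≤ ‖z ξ‖ ^ 2 * ‖η‖ ^ 2 := by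
    intro z hz η
    refine (hE z (hC z hz).1 η).trans (le_of_eq ?_)
    rw [hEC _ (mul_mem (star_mem hz) hz), hin, smul_apply, inner_smul_right, one_apply_eq_self,
      inner_self_eq_norm_sq_to_K, inner_self_eq_norm_sq_to_K]
    norm_cast
  have hlow : ∀ i, c ≤ ‖(star (y i)) ξ‖ ^ 2 := by
    intro i
    have hsz := star_mem (hy i)
    have e1 : ‖y i ξ‖ = 1 := ho.1 i
    have e2 : 1 ≤ ‖y i‖ := by
      have := (y i).le_opNorm ξ
      rw [e1, S.norm_one, mul_one] at this
      exact this
    have e3 : ‖star (y i)‖ ≤ ‖(star (y i)) ξ‖ / Real.sqrt c := by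
      refine opNorm_le_bound _ (by positivity) fun η => ?_
      have e4 := hnorm _ hsz η
      have e5 : 0 < Real.sqrt c := Real.sqrt_pos.2 hc
      rw [div_mul_eq_mul_div, le_div_iff₀ e5]
      refine le_of_sq_le_sq ?_ (by positivity)
      rw [mul_pow, mul_pow, Real.sq_sqrt hc.le]
      linarith
    rw [norm_star] at e3
    have e5 : 0 < Real.sqrt c := Real.sqrt_pos.2 hc
    have e6 : Real.sqrt c ≤ ‖(star (y i)) ξ‖ := by
      have := e2.trans e3
      rwa [le_div_iff₀ e5, one_mul] at this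
    calc c = Real.sqrt c ^ 2 := (Real.sq_sqrt hc.le).symm
      _ ≤ _ := by gcongr
  -- the operator
  set x : H →L[ℂ] H := ∑ i, y i * star (s i) with hx
  have hxM : x ∈ M := sum_mem fun i _ => mul_mem (hyM i) (S.le _ (star_mem (hsN i)))
  set P : H →L[ℂ] H := ∑ i, s i * star (s i) with hP
  have hEx : E (star x * x) = P := by
    have e1 : star x * x = ∑ i, ∑ j, s i * (star (y i) * y j) * star (s j) := by
      rw [hx, star_sum, Finset.sum_mul]
      refine Finset.sum_congr rfl fun i _ => ?_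
      rw [Finset.mul_sum]
      refine Finset.sum_congr rfl fun j _ => ?_
      rw [star_mul, star_star]
      simp only [mul_assoc]
    have hm : ∀ i j, s i * (star (y i) * y j) * star (s j) ∈ M := fun i j =>
      mul_mem (mul_mem (S.le _ (hsN i)) (mul_mem (star_mem (hyM i)) (hyM j)))
        (S.le _ (star_mem (hsN j)))
    rw [e1, S.E_sum _ _ fun i => sum_mem fun j _ => hm i j, hP]
    refine Finset.sum_congr rfl fun i _ => ?_
    rw [S.E_sum _ _ fun j => hm i j, Finset.sum_eq_single i]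
    · rw [S.E_bimod _ (hsN i) _ (star_mem (hsN i)) _ (mul_mem (star_mem (hyM i)) (hyM i)),
        hEy, if_pos rfl, mul_one]
    · intro j _ hj
      rw [S.E_bimod _ (hsN i) _ (star_mem (hsN j)) _ (mul_mem (star_mem (hyM i)) (hyM j)),
        hEy, if_neg (Ne.symm hj), mul_zero, zero_mul]
    · intro h
      exact absurd (Finset.mem_univ i) h
  have hPs : star P = P := by
    rw [hP, star_sum]
    refine Finset.sum_congr rfl fun i _ => ?_
    rw [star_mul, star_star]
  have hPP : P * P = P := by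
    rw [hP, Finset.sum_mul]
    refine Finset.sum_congr rfl fun i _ => ?_
    rw [Finset.mul_sum, Finset.sum_eq_single i]
    · have := hss i i
      rw [if_pos rfl] at this
      rw [mul_assoc, ← mul_assoc (star (s i)), this, one_mul]
    · intro j _ hj
      have := hss i j
      rw [if_neg (Ne.symm hj)] at this
      rw [mul_assoc, ← mul_assoc (star (s i)), this, zero_mul, mul_zero]
    · intro h
      exact absurd (Finset.mem_univ i) h
  have hPn : ∀ η : H, (⟪η, P η⟫_ℂ).re ≤ ‖η‖ ^ 2 := by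
    intro η
    have e1 : ⟪η, P η⟫_ℂ = ((‖P η‖ ^ 2 : ℝ) : ℂ) := by
      have e2 : ⟪η, (P * P) η⟫_ℂ = ⟪P η, P η⟫_ℂ := by
        change ⟪η, P (P η)⟫_ℂ = _
        conv_lhs => rw [← hPs]
        rw [inner_star_right, hPs]
      rw [hPP, inner_self_eq_norm_sq_to_K] at e2
      rw [e2]
      norm_cast
    have e2 : ‖P η‖ ^ 2 ≤ ‖η‖ * ‖P η‖ := by
      have := norm_inner_le_norm (𝕜 := ℂ) η (P η)
      rw [e1, Complex.norm_real, Real.norm_of_nonneg (by positivity)] at this
      exact this
    have e3 : ‖P η‖ ≤ ‖η‖ := by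
      by_contra hcon
      push Not at hcon
      nlinarith [norm_nonneg (P η), norm_nonneg η]
    rw [e1, Complex.ofReal_re]
    exact pow_le_pow_left₀ (norm_nonneg _) e3 2
  have hxn : ‖x‖ ≤ 1 / Real.sqrt c := by
    refine opNorm_le_bound _ (by positivity) fun η => ?_
    have e5 : 0 < Real.sqrt c := Real.sqrt_pos.2 hc
    rw [div_mul_eq_mul_div, one_mul, le_div_iff₀ e5]
    refine le_of_sq_le_sq ?_ (by positivity)
    rw [mul_pow, Real.sq_sqrt hc.le]
    have e4 := hE x hxM η
    rw [hEx] at e4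
    have := hPn η
    linarith
  have hsx : ‖(star x) ξ‖ ^ 2 = ∑ i, ‖(star (y i)) ξ‖ ^ 2 := by
    have e1 : (star x) ξ = ∑ i, s i ((star (y i)) ξ) := by
      rw [hx, star_sum, sum_apply]
      refine Finset.sum_congr rfl fun i _ => ?_
      rw [star_mul, star_star]
      rfl
    have e2 : ⟪(star x) ξ, (star x) ξ⟫_ℂ = ∑ i, ⟪(star (y i)) ξ, (star (y i)) ξ⟫_ℂ := by
      rw [e1, sum_inner]
      refine Finset.sum_congr rfl fun i _ => ?_
      rw [inner_sum, Finset.sum_eq_single i]
      · have := hss i i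
        rw [if_pos rfl] at this
        rw [← inner_star_right]
        have e3 : (star (s i)) (s i ((star (y i)) ξ)) = (star (y i)) ξ :=
          congrArg (fun T : H →L[ℂ] H => T ((star (y i)) ξ)) this
        rw [e3]
      · intro j _ hj
        have := hss i j
        rw [if_neg (Ne.symm hj)] at this
        rw [← inner_star_right]
        have e3 : (star (s i)) (s j ((star (y j)) ξ)) = 0 :=
          congrArg (fun T : H →L[ℂ] H => T ((star (y j)) ξ)) this
        rw [e3, inner_zero_right]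
      · intro h
        exact absurd (Finset.mem_univ i) h
    simp only [inner_self_eq_norm_sq_to_K] at e2
    exact_mod_cast e2
  have hsum : (n : ℝ) * c ≤ ‖(star x) ξ‖ ^ 2 := by
    rw [hsx]
    calc (n : ℝ) * c = ∑ _i : Fin n, c := by
          rw [Finset.sum_const, Finset.card_univ, Fintype.card_fin, nsmul_eq_mul]
      _ ≤ _ := Finset.sum_le_sum fun i _ => hlow i
  have hfin : ‖(star x) ξ‖ ^ 2 ≤ 1 / c := by
    have e1 : ‖(star x) ξ‖ ≤ 1 / Real.sqrt c := by
      refine ((star x).le_opNorm ξ).trans ?_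
      rw [S.norm_one, mul_one, norm_star]
      exact hxn
    calc ‖(star x) ξ‖ ^ 2 ≤ (1 / Real.sqrt c) ^ 2 := by gcongr
      _ = 1 / c := by rw [div_pow, one_pow, Real.sq_sqrt hc.le]
  have := hsum.trans hfin
  rw [le_div_iff₀ hc] at this
  nlinarith

/-- finite dimension of the relative commutant for inclusions of finite index -/
theorem finiteDimensional (hN : TwoIsom N) {c : ℝ} (hc : 0 < c)
    (hE : ∀ x ∈ M, ∀ η : H, c * ‖x η‖ ^ 2 ≤ (⟪η, E (star x * x) η⟫_ℂ).re)
    {C : VonNeumannAlgebra H} (hC : ∀ y ∈ C, y ∈ M ∧ ∃ t : ℂ, E y = t • (1 : H →L[ℂ] H)) :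
    FiniteDimensional ℂ C.toStarSubalgebra := by
  classical
  set K : ℕ := ⌊1 / c ^ 2⌋₊ with hK
  have hrank : Module.rank ℂ C.toStarSubalgebra ≤ K := by
    refine rank_le fun t ht => ?_
    -- the vectors `y ξ`
    set n := t.card with hn
    have e : Fin n ≃ t := (Finset.equivFin t).symm
    set f : C.toStarSubalgebra →ₗ[ℂ] H :=
      { toFun := fun y => (y : H →L[ℂ] H) ξ
        map_add' := fun _ _ => rfl
        map_smul' := fun _ _ => rfl } with hf
    have hfi : Function.Injective f := by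
      rw [injective_iff_map_eq_zero]
      intro y hy
      have : (y : H →L[ℂ] H) = 0 := S.sep _ (hC _ y.2).1 hy
      exact Subtype.ext this
    have h1 : LinearIndependent ℂ fun i : Fin n => f ((e i : t) : C.toStarSubalgebra) := by
      have h2 := (ht.map' f (LinearMap.ker_eq_bot.2 hfi)).comp e e.injective
      exact h2
    have h2 := InnerProductSpace.gramSchmidtNormed_orthonormal h1
    have h3 : ∀ i, ∃ y ∈ C, y ξ = InnerProductSpace.gramSchmidtNormed ℂ
        (fun i : Fin n => f ((e i : t) : C.toStarSubalgebra)) i := by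
      intro i
      have h4 : InnerProductSpace.gramSchmidtNormed ℂ
          (fun i : Fin n => f ((e i : t) : C.toStarSubalgebra)) i ∈ LinearMap.range f := by
        have h5 := InnerProductSpace.span_gramSchmidtNormed_range (𝕜 := ℂ)
          (fun i : Fin n => f ((e i : t) : C.toStarSubalgebra))
        have h6 : InnerProductSpace.gramSchmidtNormed ℂ
          (fun i : Fin n => f ((e i : t) : C.toStarSubalgebra)) i ∈
            Submodule.span ℂ (Set.range (InnerProductSpace.gramSchmidtNormed ℂ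
              (fun i : Fin n => f ((e i : t) : C.toStarSubalgebra)))) :=
          Submodule.subset_span ⟨i, rfl⟩
        rw [h5] at h6
        have h7 : Submodule.span ℂ (Set.range (InnerProductSpace.gramSchmidt ℂ
            (fun i : Fin n => f ((e i : t) : C.toStarSubalgebra)))) ≤ LinearMap.range f := by
          rw [InnerProductSpace.span_gramSchmidt, Submodule.span_le]
          rintro _ ⟨j, rfl⟩
          exact ⟨_, rfl⟩
        exact h7 h6
      obtain ⟨y, hy⟩ := h4
      exact ⟨y, y.2, hy⟩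
    choose y hyC hyξ using h3
    have h4 : Orthonormal ℂ fun i => y i ξ := by
      have : (fun i => y i ξ) = InnerProductSpace.gramSchmidtNormed ℂ
        (fun i : Fin n => f ((e i : t) : C.toStarSubalgebra)) := funext hyξ
      rw [this]
      exact h2
    have h5 := S.card_bound hN hc hE hC hyC h4
    rw [hK]
    refine Nat.le_floor ?_
    rw [le_div_iff₀ (by positivity)]
    exact h5
  have hlt : Module.rank ℂ C.toStarSubalgebra < Cardinal.aleph0 :=
    hrank.trans_lt (Cardinal.natCast_lt_aleph0)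
  exact Module.rank_lt_aleph0_iff.1 hlt

end Setting

end Pool.Agent.Helper23
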