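import Pool.Agent.Helper23.VFinDim

/-!
# Inclusions of finite index
-/

open scoped InnerProductSpace Topology ENNReal BoundedContinuousFunction
open ContinuousLinearMap Filter MeasureTheory

set_option linter.unusedSectionVars false

namespace Pool.Agent.Helper23

universe u

variable {H : Type u} [NormedAddCommGroup H] [InnerProductSpace ℂ H] [CompleteSpace H]
variable {M N : VonNeumannAlgebra H} {ξ : H} {E : (H →L[ℂ] H) → (H →L[ℂ] H)}

open RBF

namespace BFlow

variable (S : BFlow M N E ξ)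
include S

theorem main_isoW {W : H ≃ₗᵢ[ℂ] L2R H}
    (hW : ∀ a ∈ N.commutant, ∀ x, W (a x) = lift a (W x)) {ψ} (hψ : ψ = wW W ξ) :
    ∃ π : (H →L[ℂ] H) → (H →L[ℂ] H), IsStarIso S.Balg (Calg M N ψ) π ∧
      BoundedStronglyContinuous S.Balg π ∧ IntertwinesFlows N ψ S.Balg (btU M N ξ) π ∧
      ∀ x ∈ S.Balg, E (π x) = ⟪ξ, x ξ⟫_ℂ • (1 : H →L[ℂ] H) := by
  have hN' : ∀ x, x ∈ N ↔ W.conjStarAlgEquiv x ∈ amp N := conj_mem_amp hW fun a ha => ha
  have hM : ∀ x, x ∈ M ↔ W.conjStarAlgEquiv x ∈ amp M := conj_mem_amp hW fun a ha => S.comm_le ha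
  have hinj : Function.Injective ⇑W.conjStarAlgEquiv := EquivLike.injective _
  have e1 : ∀ X, W.conjStarAlgEquiv (W.conjStarAlgEquiv.symm X) = X :=
    W.conjStarAlgEquiv.apply_symm_apply
  subst hψ
  set ψ : (H →L[ℂ] H) → ℝ≥0∞ := wW W ξ with hψ
  have hsc : ∀ l u, ScalingUnitary N ψ l u ↔
      ScalingUnitary (amp N) (wK ξ) l (W.conjStarAlgEquiv u) := fun l u =>
    transport_scaling W hN' (wK ξ) l u
  have hC : ∀ x, x ∈ Calg M N ψ ↔ W.conjStarAlgEquiv x ∈ Rk M N ξ := by
    intro x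
    rw [mem_Calg x, hM x]
    constructor
    · rintro ⟨h1, h2⟩
      refine ⟨h1, fun U hU => ?_⟩
      have h3 := h2 (W.conjStarAlgEquiv.symm U) ((hsc 1 _).2 (by rw [e1]; exact GK_iff.1 hU))
      have h4 := congrArg W.conjStarAlgEquiv h3
      rwa [map_mul, map_mul, e1] at h4
    · rintro ⟨h1, h2⟩
      refine ⟨h1, fun u hu => ?_⟩
      apply hinj
      rw [map_mul, map_mul]
      exact h2 _ (GK_iff.2 ((hsc 1 u).1 hu))
  have hmemC : ∀ x ∈ S.Balg, W.conjStarAlgEquiv.symm (piU M N ξ x) ∈ Calg M N ψ := by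
    intro x hx
    rw [hC, e1]
    exact S.piU_mem_Rk hx
  refine ⟨fun x => W.conjStarAlgEquiv.symm (piU M N ξ x), ?_, ?_, ?_, ?_⟩
  · refine ⟨hmemC, fun x hx y hy hxy => ?_, fun X hX => ?_, fun x hx y hy => ?_,
      fun x hx y hy => ?_, fun c x hx => ?_, fun x hx => ?_⟩
    · refine S.piU_inj hx hy ?_
      have h1 := congrArg W.conjStarAlgEquiv hxy
      rwa [e1, e1] at h1
    · obtain ⟨x, hx, hxX⟩ := S.Rk_sur ((hC X).1 hX)
      refine ⟨x, hx, ?_⟩
      apply hinj
      rw [e1]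
      exact hxX.symm
    · change W.conjStarAlgEquiv.symm (piU M N ξ (x + y)) = _
      rw [S.piU_add hx hy, map_add]
    · change W.conjStarAlgEquiv.symm (piU M N ξ (x * y)) = _
      rw [S.piU_mul hx hy, map_mul]
    · change W.conjStarAlgEquiv.symm (piU M N ξ (c • x)) = _
      rw [S.piU_smul c hx, map_smul]
    · change W.conjStarAlgEquiv.symm (piU M N ξ (star x)) = _
      rw [S.piU_star hx, map_star]
  · intro F x hx C hbd hcv η
    classical
    have hbd1 : ∀ᶠ y in F, y ∈ Bicent M N ξ := hbd.mono fun y hy => hy.1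
    have hcongr : ∀ᶠ y in F, (if y ∈ Bicent M N ξ then y else x) = y :=
      hbd1.mono fun y hy => if_pos hy
    have h1 := S.piU_tendsto (F := F) (z := fun y => if y ∈ Bicent M N ξ then y else x) (x := x)
      (C := C) (fun y => by
        by_cases h : y ∈ Bicent M N ξ
        · simp only [if_pos h]; exact h
        · simp only [if_neg h]; exact hx) hx (by
        filter_upwards [hbd, hcongr] with y h1 h2
        rw [h2]; exact h1.2) (by
        refine (hcv ξ).congr' ?_
        filter_upwards [hcongr] with y h2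
        rw [h2]) (W η)
    simp only [LinearIsometryEquiv.symm_conjStarAlgEquiv_apply_apply]
    refine (W.symm.continuous.tendsto _).comp ?_
    refine h1.congr' ?_
    filter_upwards [hcongr] with y h2
    rw [h2]
  · intro l hl u hu x hx
    apply hinj
    rw [map_mul, map_mul, map_star, e1, e1, ← S.tr_piU hx hl]
    set T := tr H (-Real.log l) with hT
    set U := W.conjStarAlgEquiv u with hU
    have hTs : ScalingUnitary (amp N) (wK ξ) l T := tr_scaling hl
    have hUs : ScalingUnitary (amp N) (wK ξ) l U := (hsc l u).1 hu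
    have hG : star T * U ∈ GK N ξ := GK_iff.2 (scaling_quot hl hTs hUs)
    have hcomm := S.comm_of_bicent hG hx
    have hTU : T * (star T * U) = U := by rw [← mul_assoc, hTs.2.2.1, one_mul]
    have h1 : U * piU M N ξ x * star U =
        T * ((star T * U) * piU M N ξ x) * star U := by
      rw [← mul_assoc, hTU]
    rw [h1, hcomm]
    have h2 : star T * U * star U = star T := by rw [mul_assoc, hUs.2.2.1, mul_one]
    calc T * piU M N ξ x * star T =
        T * piU M N ξ x * (star T * U * star U) := by rw [h2]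
      _ = _ := by simp only [mul_assoc]
  · intro x hx
    set y := W.conjStarAlgEquiv.symm (piU M N ξ x) with hy
    have hyM : y ∈ M := ((mem_Calg y).1 (hmemC x hx)).1
    have hK : ∀ k ∈ K0 N ξ, ∀ᵐ s, W k s ∈ K0 N ξ := by
      intro k hk
      set P := (K0 N ξ).starProjection with hP
      have hPN : P ∈ N.commutant := proj_orb_mem N ξ
      have h1 : lift P (W k) = W k := by
        rw [← hW P hPN, Submodule.starProjection_eq_self_iff.2 hk]
      have h2 := lift_coe P (W k)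
      rw [h1] at h2
      filter_upwards [h2] with s hs
      rw [hs]
      exact Submodule.starProjection_apply_mem _ _
    have hin : ∀ k ∈ K0 N ξ, ∀ k' ∈ K0 N ξ, ⟪k, y k'⟫_ℂ =
        ⟪ξ, x ξ⟫_ℂ * ⟪k, k'⟫_ℂ := by
      intro k hk k' hk'
      have h1 := S.inner_piU hx AP.bicent_one (hK k hk) (hK k' hk')
      rw [S.piU_one, one_apply_eq_self, one_apply_eq_self, W.inner_map_map] at h1
      rw [← h1, hy, LinearIsometryEquiv.symm_conjStarAlgEquiv_apply_apply]
      have h2 := W.symm.inner_map_map (W k) (piU M N ξ x (W k'))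
      rw [W.symm_apply_apply] at h2
      exact h2
    have hxi : ξ ∈ K0 N ξ := S.xi_mem_K0
    set c : ℂ := ⟪ξ, x ξ⟫_ℂ with hc
    have hEN : E y ∈ N := S.E_mem y hyM
    have hz : E y - c • (1 : H →L[ℂ] H) ∈ N := sub_mem hEN (smul_mem' _ (one_mem N))
    set z := E y - c • (1 : H →L[ℂ] H) with hzdef
    have h0 : ⟪z ξ, z ξ⟫_ℂ = 0 := by
      have h1 : z ξ = E y ξ - c • ξ := rfl
      have h2 := S.E_inner hz (one_mem N) hyM
      rw [one_apply_eq_self] at h2
      have h3 := hin (z ξ) (mem_K0 hz) ξ hxi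
      calc ⟪z ξ, z ξ⟫_ℂ = ⟪z ξ, E y ξ - c • ξ⟫_ℂ := rfl
        _ = 0 := by rw [inner_sub_right, h2, h3, inner_smul_right, sub_self]
    have hz0 : z = 0 := S.sep z (S.le z hz) (inner_self_eq_zero.1 h0)
    exact sub_eq_zero.1 hz0

end BFlow

/-- an embedding of a finite dimensional algebra into an isomorphic one is onto -/
lemma onto_of_iso {B C : VonNeumannAlgebra H} [FiniteDimensional ℂ C.toStarSubalgebra]
    {π ρ : (H →L[ℂ] H) → (H →L[ℂ] H)} (hπ : IsStarIso B C π) (hρ : IsStarEmbedding C B ρ) :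
    ∀ x ∈ B, ∃ y ∈ C, ρ y = x := by
  set f : B.toStarSubalgebra →ₗ[ℂ] C.toStarSubalgebra :=
    { toFun := fun x => ⟨π x, hπ.maps x x.2⟩
      map_add' := fun x y => Subtype.ext (hπ.add x x.2 y y.2)
      map_smul' := fun c x => Subtype.ext (hπ.smul c x x.2) } with hf
  set g : C.toStarSubalgebra →ₗ[ℂ] B.toStarSubalgebra :=
    { toFun := fun x => ⟨ρ x, hρ.maps x x.2⟩
      map_add' := fun x y => Subtype.ext (hρ.add x x.2 y y.2)
      map_smul' := fun c x => Subtype.ext (hρ.smul c x x.2) } with hg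
  have hfi : Function.Injective f := fun x y hxy =>
    Subtype.ext (hπ.injective x x.2 y y.2 (congrArg Subtype.val hxy))
  have hgi : Function.Injective g := fun x y hxy =>
    Subtype.ext (hρ.injective x x.2 y y.2 (congrArg Subtype.val hxy))
  have hfg : Function.Injective (f ∘ₗ g) := hfi.comp hgi
  have hsur : Function.Surjective (f ∘ₗ g) := LinearMap.surjective_of_injective hfg
  intro x hx
  obtain ⟨y, hy⟩ := hsur (f ⟨x, hx⟩)
  have h1 : g y = ⟨x, hx⟩ := hfi hy
  exact ⟨y, y.2, congrArg Subtype.val h1⟩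

theorem Setting.main_finite (S : Setting M N E ξ) (hIII : Pool.Agent.Helper23.TypeIIIOne N) :
    ∃ ψ : (H →L[ℂ] H) → ℝ≥0∞, IsDominant N ψ ∧
      (∀ c : ℝ, 0 < c → (∀ x ∈ M, ∀ η : H, c * ‖x η‖ ^ 2 ≤ (⟪η, E (star x * x) η⟫_ℂ).re) →
        FiniteDimensional ℂ (Calg M N ψ).toStarSubalgebra) ∧
      (FiniteDimensional ℂ (Calg M N ψ).toStarSubalgebra →
        (∃ π, IsStarIso S.Balg (Calg M N ψ) π) → TrivialBicentralizer N ξ) ∧
      (TrivialBicentralizer N ξ →
        IsRelativeBicentralizerFlow N ξ S.Balg (btU M N ξ) ∧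
        ∃ π : (H →L[ℂ] H) → (H →L[ℂ] H), IsStarIso S.Balg (Calg M N ψ) π ∧
          BoundedStronglyContinuous S.Balg π ∧ IntertwinesFlows N ψ S.Balg (btU M N ξ) π ∧
          PreservesState E ξ S.Balg π) := by
  obtain ⟨W, hW⟩ := exists_W_of hIII.1
  obtain ⟨hd, ρ, h1, -, -, -, h5, h6⟩ := S.main_embedW hIII hW rfl
  refine ⟨wW W ξ, hd, fun c hc hE => ?_, fun hfin => ?_, fun hTB => ?_⟩
  · exact S.finiteDimensional hIII.1 hc hE fun y hy => by
      obtain ⟨t, ht, -⟩ := h5 y hy
      exact ⟨((mem_Calg y).1 hy).1, t, ht⟩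
  · rintro ⟨π, hπ⟩
    exact h6.1 (onto_of_iso hπ h1)
  · have B := S.bflow hIII fun x hx => hTB x hx.1 hx.2
    obtain ⟨π, g1, g2, g3, g4⟩ := B.main_isoW hW rfl
    refine ⟨B.isRelativeBicentralizerFlow, π, g1, g2, g3, fun x hx => ?_⟩
    rw [g4 x hx, S.E_state _ ((S.Balg_isBicentralizer _).1 hx).1]

end Pool.Agent.Helper23
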