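import Pool.Agent.Helper23.VShift
import Pool.Agent.Helper23.VDefs2
import Pool.Agent.Helper23.UFin

/-!
# The embedding of the relative flow of weights into the relative bicentralizer
-/

open scoped InnerProductSpace Topology ENNReal BoundedContinuousFunction
open ContinuousLinearMap Filter MeasureTheory

set_option linter.unusedSectionVars false

namespace Pool.Agent.Helper23

universe u

variable {H : Type u} [NormedAddCommGroup H] [InnerProductSpace ℂ H] [CompleteSpace H]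
variable {M N : VonNeumannAlgebra H} {ξ : H} {E : (H →L[ℂ] H) → (H →L[ℂ] H)}

/-- the compression of an element of the relative commutant -/
lemma AtZ.compress {X : L2R H →L[ℂ] L2R H} {x : H →L[ℂ] H} (S : Setting M N E ξ)
    (hIII : TypeIIIOne N) (hx : AtZ M N ξ X x) (f g : L2R ℂ) {k k' : H} (hk : k ∈ K0 N ξ)
    (hk' : k' ∈ K0 N ξ) : ⟪ten f k, X (ten g k')⟫_ℂ = ⟪ξ, x ξ⟫_ℂ * (⟪f, g⟫_ℂ * ⟪k, k'⟫_ℂ) := by
  have h1 : ∀ b ∈ N, ∀ a ∈ N, ⟪ten f (b ξ), X (ten g (a ξ))⟫_ℂ =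
      ⟪ξ, x ξ⟫_ℂ * (⟪f, g⟫_ℂ * ⟪b ξ, a ξ⟫_ℂ) := by
    intro b hb a ha
    rw [← inner_slX, ← S.E_inner hb ha (slX_mem hx.1.1 f g), hx.E_slX S hIII, smul_apply,
      inner_smul_right, one_apply_eq_self, mul_assoc]
  have h2 : ∀ b ∈ N, ⟪ten f (b ξ), X (ten g k')⟫_ℂ =
      ⟪ξ, x ξ⟫_ℂ * (⟪f, g⟫_ℂ * ⟪b ξ, k'⟫_ℂ) := by
    intro b hb
    refine K0_induction (N := N) (ξ := ξ) (p := fun k' => ⟪ten f (b ξ), X (ten g k')⟫_ℂ =
      ⟪ξ, x ξ⟫_ℂ * (⟪f, g⟫_ℂ * ⟪b ξ, k'⟫_ℂ)) ?_ (fun a ha => h1 b hb a ha) hk'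
    refine isClosed_eq ?_ ?_
    · exact continuous_const.inner (X.continuous.comp (iot H g).continuous)
    · exact continuous_const.mul (continuous_const.mul (continuous_const.inner continuous_id))
  refine K0_induction (N := N) (ξ := ξ) (p := fun k => ⟪ten f k, X (ten g k')⟫_ℂ =
      ⟪ξ, x ξ⟫_ℂ * (⟪f, g⟫_ℂ * ⟪k, k'⟫_ℂ)) ?_ (fun b hb => h2 b hb) hk
  refine isClosed_eq ?_ ?_
  · exact (iot H f).continuous.inner continuous_const
  · exact continuous_const.mul (continuous_const.mul (continuous_id.inner continuous_const))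

lemma norm_conjStar_le {K : Type*} [NormedAddCommGroup K] [InnerProductSpace ℂ K]
    [CompleteSpace K] (W : H ≃ₗᵢ[ℂ] K) (y : H →L[ℂ] H) : ‖W.conjStarAlgEquiv y‖ ≤ ‖y‖ := by
  refine opNorm_le_bound _ (norm_nonneg _) fun G => ?_
  rw [LinearIsometryEquiv.conjStarAlgEquiv_apply_apply, W.norm_map]
  refine (y.le_opNorm _).trans ?_
  rw [W.symm.norm_map]

open Classical in
/-- the value at zero of an element of the relative commutant -/
noncomputable def rho (M N : VonNeumannAlgebra H) (ξ : H) (X : L2R H →L[ℂ] L2R H) : H →L[ℂ] H :=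
  if h : ∃ x, AtZ M N ξ X x then h.choose else 0

namespace Setting

variable (S : Setting M N E ξ)
include S

lemma rho_atZ (hIII : TypeIIIOne N) {X : L2R H →L[ℂ] L2R H} (hX : X ∈ Rk M N ξ) :
    AtZ M N ξ X (rho M N ξ X) := by
  have h : ∃ x, AtZ M N ξ X x := by
    obtain ⟨x, hx, -⟩ := S.exists_atZ hIII hX
    exact ⟨x, hx⟩
  rw [rho, dif_pos h]
  exact h.choose_spec

lemma rho_eq (hIII : TypeIIIOne N) {X : L2R H →L[ℂ] L2R H} {x : H →L[ℂ] H}
    (hx : AtZ M N ξ X x) : rho M N ξ X = x :=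
  (S.rho_atZ hIII hx.1).unique S hx

/-- strong continuity on bounded sets -/
lemma rho_tendsto (hIII : TypeIIIOne N) {ι : Type*} {F : Filter ι}
    {Z : ι → L2R H →L[ℂ] L2R H} {X : L2R H →L[ℂ] L2R H} {C : ℝ}
    (hZ : ∀ᶠ i in F, Z i ∈ Rk M N ξ ∧ ‖Z i‖ ≤ C) (hX : X ∈ Rk M N ξ)
    (h : ∀ G : L2R H, Tendsto (fun i => Z i G) F (𝓝 (X G))) (η : H) :
    Tendsto (fun i => rho M N ξ (Z i) η) F (𝓝 (rho M N ξ X η)) := by
  have hx := S.rho_atZ hIII hX
  have hC : 0 ≤ |C| + ‖X‖ := by positivity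
  have h1 : Tendsto (fun i => (rho M N ξ (Z i) - rho M N ξ X) ξ) F (𝓝 0) := by
    rw [tendsto_zero_iff_norm_tendsto_zero]
    have h2 : Tendsto (fun i => ‖Z i (ten e0 ξ) - X (ten e0 ξ)‖) F (𝓝 0) :=
      tendsto_iff_norm_sub_tendsto_zero.1 (h (ten e0 ξ))
    refine h2.congr' ?_
    filter_upwards [hZ] with i hi
    have h3 := ((S.rho_atZ hIII hi.1).sub hx).norm_eq S hIII e0
    rw [e0_norm, mul_one] at h3
    exact h3
  have h2 : ∀ᶠ i in F, rho M N ξ (Z i) - rho M N ξ X ∈ M ∧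
      ‖rho M N ξ (Z i) - rho M N ξ X‖ ≤ |C| + ‖X‖ := by
    filter_upwards [hZ] with i hi
    have h3 := (S.rho_atZ hIII hi.1)
    refine ⟨sub_mem h3.2.1 hx.2.1, (norm_sub_le _ _).trans (add_le_add ?_ ?_)⟩
    · exact (h3.norm_le S hIII).trans (hi.2.trans (le_abs_self C))
    · exact hx.norm_le S hIII
  have h4 := tendsto_of_bounded_ev M S.dense_comm (x := fun i => rho M N ξ (Z i) - rho M N ξ X)
    (C := |C| + ‖X‖) h2 hC h1 η
  have h5 := h4.add_const (rho M N ξ X η)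
  rw [zero_add] at h5
  refine h5.congr fun i => ?_
  rw [sub_apply, sub_add_cancel]

end Setting

open RBF

/-- the weight transported by a spatial isomorphism -/
noncomputable def wW (W : H ≃ₗᵢ[ℂ] L2R H) (ξ : H) : (H →L[ℂ] H) → ℝ≥0∞ :=
  fun x => wK ξ (W.conjStarAlgEquiv x)

theorem Setting.main_embedW (S : Setting M N E ξ) (hIII : Pool.Agent.Helper23.TypeIIIOne N)
    {W : H ≃ₗᵢ[ℂ] L2R H} (hW : ∀ a ∈ N.commutant, ∀ x, W (a x) = lift a (W x)) {ψ}
    (hψ : ψ = wW W ξ) :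
    IsDominant N ψ ∧
    ∃ ρ : (H →L[ℂ] H) → (H →L[ℂ] H), IsStarEmbedding (Calg M N ψ) S.Balg ρ ∧
      BoundedStronglyContinuous (Calg M N ψ) ρ ∧
      AsympIntertwines N ξ ψ (Calg M N ψ) ρ ∧
      (∀ β : ℝ → (H →L[ℂ] H) → (H →L[ℂ] H), (∀ l : ℝ, 0 < l → ∀ x ∈ S.Balg, β l x ∈ S.Balg) →
        FlowProperty N ξ S.Balg β → ∀ l : ℝ, 0 < l → ∀ u, ScalingUnitary N ψ l u →
          ∀ y ∈ Calg M N ψ, β l (ρ y) = ρ (u * y * star u)) ∧
      (∀ y ∈ Calg M N ψ, ∃ c : ℂ, E y = c • 1 ∧ E (ρ y) = c • 1) ∧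
      ((∀ x ∈ S.Balg, ∃ y ∈ Calg M N ψ, ρ y = x) ↔ TrivialBicentralizer N ξ) := by
  have hN' : ∀ x, x ∈ N ↔ W.conjStarAlgEquiv x ∈ amp N := conj_mem_amp hW fun a ha => ha
  have hM : ∀ x, x ∈ M ↔ W.conjStarAlgEquiv x ∈ amp M := conj_mem_amp hW fun a ha => S.comm_le ha
  have hinj : Function.Injective ⇑W.conjStarAlgEquiv := EquivLike.injective _
  have e1 : ∀ X, W.conjStarAlgEquiv (W.conjStarAlgEquiv.symm X) = X :=
    W.conjStarAlgEquiv.apply_symm_apply
  subst hψ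
  set ψ : (H →L[ℂ] H) → ℝ≥0∞ := wW W ξ with hψ
  have hsc : ∀ l u, ScalingUnitary N ψ l u ↔
      ScalingUnitary (amp N) (wK ξ) l (W.conjStarAlgEquiv u) := fun l u =>
    transport_scaling W hN' (wK ξ) l u
  have hC : ∀ x, x ∈ Calg M N ψ ↔ W.conjStarAlgEquiv x ∈ Rk M N ξ := by
    intro x
    rw [mem_Calg x, hM x]
    constructor
    · rintro ⟨h1, h2⟩
      refine ⟨h1, fun U hU => ?_⟩
      have h3 := h2 (W.conjStarAlgEquiv.symm U) ((hsc 1 _).2 (by rw [e1]; exact GK_iff.1 hU))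
      have h4 := congrArg W.conjStarAlgEquiv h3
      rwa [map_mul, map_mul, e1] at h4
    · rintro ⟨h1, h2⟩
      refine ⟨h1, fun u hu => ?_⟩
      apply hinj
      rw [map_mul, map_mul]
      exact h2 _ (GK_iff.2 ((hsc 1 u).1 hu))
  have hdom : IsDominant N ψ :=
    transport_dominant W hN' (wK_dominant_of S.dense_commN hIII.1 S.conjGK)
  set ρ : (H →L[ℂ] H) → (H →L[ℂ] H) := fun y => rho M N ξ (W.conjStarAlgEquiv y) with hρ
  have hat : ∀ y ∈ Calg M N ψ, AtZ M N ξ (W.conjStarAlgEquiv y) (ρ y) := fun y hy =>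
    S.rho_atZ hIII ((hC y).1 hy)
  -- conjugation by a scaling unitary
  have hconj : ∀ l : ℝ, 0 < l → ∀ u, ScalingUnitary N ψ l u → ∀ y ∈ Calg M N ψ,
      AtZ M N ξ (tr H (-Real.log l) * W.conjStarAlgEquiv y * tr H (Real.log l))
        (ρ (u * y * star u)) := by
    intro l hl u hu y hy
    set T := tr H (-Real.log l) with hT
    set U := W.conjStarAlgEquiv u with hU
    set Y := W.conjStarAlgEquiv y with hY
    have hTs : ScalingUnitary (amp N) (wK ξ) l T := tr_scaling hl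
    have hUs : ScalingUnitary (amp N) (wK ξ) l U := (hsc l u).1 hu
    have hG : star T * U ∈ GK N ξ := GK_iff.2 (scaling_quot hl hTs hUs)
    have hYR : Y ∈ Rk M N ξ := (hC y).1 hy
    have hcomm := hYR.2 _ hG
    have hTst : star T = tr H (Real.log l) := by rw [hT, tr_star, neg_neg]
    have hTU : T * (star T * U) = U := by rw [← mul_assoc, hTs.2.2.1, one_mul]
    have h1 : W.conjStarAlgEquiv (u * y * star u) = T * Y * star T := by
      rw [map_mul, map_mul, map_star]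
      have h2 : star T * U * star U = star T := by rw [mul_assoc, hUs.2.2.1, mul_one]
      calc U * Y * star U = T * ((star T * U) * Y) * star U := by
            rw [← mul_assoc T, hTU]
        _ = T * (Y * (star T * U)) * star U := by rw [hcomm]
        _ = T * Y * (star T * U * star U) := by simp only [mul_assoc]
        _ = T * Y * star T := by rw [h2]
    have h2 : T * Y * star T ∈ Rk M N ξ := Rk_scal hl hTs (tr_mem_amp _) hYR
    rw [← hTst, ← h1, hρ]
    beta_reduce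
    rw [h1]
    exact S.rho_atZ hIII h2
  refine ⟨hdom, ρ, ?_, ?_, ?_, ?_, ?_, ?_⟩
  · refine ⟨fun y hy => (hat y hy).mem_bicent S, fun x hx y hy hxy => ?_, ?_,
      fun x hx y hy => ?_, fun x hx y hy => ?_, fun c x hx => ?_, fun x hx => ?_⟩
    · have h1 := hat x hx
      rw [hxy] at h1
      exact hinj (h1.inj S hIII (hat y hy))
    · have h1 := S.rho_eq hIII (AtZ.one (M := M) (N := N) (ξ := ξ))
      rw [hρ]
      beta_reduce
      rw [map_one, h1]
    · rw [hρ]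
      beta_reduce
      rw [map_add]
      exact S.rho_eq hIII ((hat x hx).add (hat y hy))
    · rw [hρ]
      beta_reduce
      rw [map_mul]
      exact S.rho_eq hIII ((hat x hx).mul S (hat y hy))
    · rw [hρ]
      beta_reduce
      rw [map_smul]
      exact S.rho_eq hIII ((hat x hx).smul c)
    · rw [hρ]
      beta_reduce
      rw [map_star]
      exact S.rho_eq hIII ((hat x hx).star S hIII)
  · intro F x hx C hbd hcv η
    refine S.rho_tendsto hIII (C := C) (Z := fun y => W.conjStarAlgEquiv y) ?_ ((hC x).1 hx) ?_ η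
    · filter_upwards [hbd] with y hy
      exact ⟨(hC y).1 hy.1, (norm_conjStar_le W y).trans hy.2⟩
    · intro G
      simp only [LinearIsometryEquiv.conjStarAlgEquiv_apply_apply]
      exact (W.continuous.tendsto _).comp (hcv (W.symm G))
  · intro l hl u hu a ha y hy η
    exact ⟨(hat y hy).shift S hl (hconj l hl u hu y hy) ha η,
      (hat y hy).shift_star S hIII hl (hconj l hl u hu y hy) ha η⟩
  · intro β hβ hfl l hl u hu y hy
    have hyB : ρ y ∈ S.Balg := (hat y hy).mem_bicent S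
    exact (hat y hy).eq_of_shift S hIII hl (hconj l hl u hu y hy) (hβ l hl _ hyB).1 fun a ha =>
      (hfl l hl a ha _ hyB ξ).1
  · intro y hy
    refine ⟨⟪ξ, ρ y ξ⟫_ℂ, ?_, (hat y hy).E_eq S hIII⟩
    have hyM : y ∈ M := ((mem_Calg y).1 hy).1
    set P := (K0 N ξ).starProjection with hP
    have hPN : P ∈ N.commutant := proj_orb_mem N ξ
    have hWP : ∀ k ∈ K0 N ξ, lift P (W k) = W k := by
      intro k hk
      rw [← hW P hPN, Submodule.starProjection_eq_self_iff.2 hk]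
    have hop : star (lift P) * W.conjStarAlgEquiv y * lift P =
        ⟪ξ, ρ y ξ⟫_ℂ • (star (lift P) * lift P) := by
      refine op_ext fun g η' => ?_
      refine sub_eq_zero.1 (eq_zero_of_ten fun f η => ?_)
      rw [inner_sub_right, sub_eq_zero]
      change ⟪ten f η, (star (lift P)) (W.conjStarAlgEquiv y (lift P (ten g η')))⟫_ℂ =
        ⟪ten f η, ⟪ξ, ρ y ξ⟫_ℂ • (star (lift P)) (lift P (ten g η'))⟫_ℂ
      rw [inner_smul_right, inner_star_right, inner_star_right, lift_ten, lift_ten,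
        (hat y hy).compress S hIII f g (Submodule.starProjection_apply_mem _ _)
        (Submodule.starProjection_apply_mem _ _), inner_ten]
    have hin : ∀ k ∈ K0 N ξ, ∀ k' ∈ K0 N ξ, ⟪k, y k'⟫_ℂ =
        ⟪ξ, ρ y ξ⟫_ℂ * ⟪k, k'⟫_ℂ := by
      intro k hk k' hk'
      have h1 : ⟪W k, (star (lift P) * W.conjStarAlgEquiv y * lift P) (W k')⟫_ℂ =
          ⟪W k, (⟪ξ, ρ y ξ⟫_ℂ • (star (lift P) * lift P)) (W k')⟫_ℂ := by rw [hop]
      change ⟪W k, (star (lift P)) (W.conjStarAlgEquiv y (lift P (W k')))⟫_ℂ =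
        ⟪W k, ⟪ξ, ρ y ξ⟫_ℂ • (star (lift P)) (lift P (W k'))⟫_ℂ at h1
      rw [inner_smul_right, inner_star_right, inner_star_right, hWP k hk, hWP k' hk',
        LinearIsometryEquiv.conjStarAlgEquiv_apply_apply, W.symm_apply_apply, W.inner_map_map,
        W.inner_map_map] at h1
      exact h1
    have hxi : ξ ∈ K0 N ξ := by
      have := mem_K0 (ξ := ξ) (one_mem N)
      simpa using this
    set c : ℂ := ⟪ξ, ρ y ξ⟫_ℂ with hc
    have hEN : E y ∈ N := S.E_mem y hyM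
    have hz : E y - c • (1 : H →L[ℂ] H) ∈ N := sub_mem hEN (smul_mem' _ (one_mem N))
    set z := E y - c • (1 : H →L[ℂ] H) with hzdef
    have h0 : ⟪z ξ, z ξ⟫_ℂ = 0 := by
      have h2 := S.E_inner hz (one_mem N) hyM
      rw [one_apply_eq_self] at h2
      have h3 := hin (z ξ) (mem_K0 hz) ξ hxi
      calc ⟪z ξ, z ξ⟫_ℂ = ⟪z ξ, E y ξ - c • ξ⟫_ℂ := rfl
        _ = 0 := by rw [inner_sub_right, h2, h3, inner_smul_right, sub_self]
    have hz0 : z = 0 := S.sep z (S.le z hz) (inner_self_eq_zero.1 h0)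
    exact sub_eq_zero.1 hz0
  · constructor
    · intro hon x hx hxa
      have hxB : x ∈ S.Balg := by
        refine ⟨S.le x hx, fun a ha η => ?_⟩
        have := hxa a ha η
        exact this
      obtain ⟨y, hy, hyx⟩ := hon x hxB
      have h1 := (hat y hy).E_eq S hIII
      rw [hyx, S.E_fix x hx] at h1
      exact ⟨_, h1⟩
    · intro hTB x hx
      have B := S.bflow hIII fun x hx => hTB x hx.1 hx.2
      have h1 : AtZ M N ξ (piU M N ξ x) x := by
        refine ⟨B.piU_mem_Rk hx, hx.1, ?_⟩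
        refine (B.piU_fn hx).congr fun n => ?_
        rw [norm_sub_rev]
      refine ⟨W.conjStarAlgEquiv.symm (piU M N ξ x), ?_, ?_⟩
      · rw [hC, e1]
        exact h1.1
      · rw [hρ]
        beta_reduce
        rw [e1]
        exact S.rho_eq hIII h1

theorem Setting.main_embed (S : Setting M N E ξ) (hIII : Pool.Agent.Helper23.TypeIIIOne N) :
    ∃ ψ : (H →L[ℂ] H) → ℝ≥0∞, IsDominant N ψ ∧
    ∃ ρ : (H →L[ℂ] H) → (H →L[ℂ] H), IsStarEmbedding (Calg M N ψ) S.Balg ρ ∧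
      BoundedStronglyContinuous (Calg M N ψ) ρ ∧
      AsympIntertwines N ξ ψ (Calg M N ψ) ρ ∧
      (∀ β : ℝ → (H →L[ℂ] H) → (H →L[ℂ] H), (∀ l : ℝ, 0 < l → ∀ x ∈ S.Balg, β l x ∈ S.Balg) →
        FlowProperty N ξ S.Balg β → ∀ l : ℝ, 0 < l → ∀ u, ScalingUnitary N ψ l u →
          ∀ y ∈ Calg M N ψ, β l (ρ y) = ρ (u * y * star u)) ∧
      (∀ y ∈ Calg M N ψ, ∃ c : ℂ, E y = c • 1 ∧ E (ρ y) = c • 1) ∧
      ((∀ x ∈ S.Balg, ∃ y ∈ Calg M N ψ, ρ y = x) ↔ TrivialBicentralizer N ξ) := by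
  obtain ⟨W, hW⟩ := exists_W_of hIII.1
  exact ⟨_, S.main_embedW hIII hW rfl⟩

end Pool.Agent.Helper23
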