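import Pool.Agent.Helper23.VDefs
import Pool.Agent.V.CommW
import Pool.Agent.V.Conj
import Pool.Agent.V.FamOps
import Pool.Agent.V.Fixed
import Pool.Agent.V.Ineq
import Pool.Agent.V.Inv
import Pool.Agent.V.Isom
import Pool.Agent.V.Kms
import Pool.Agent.V.LamB
import Pool.Agent.V.LamZ
import Pool.Agent.V.Lip
import Pool.Agent.V.Scalar
import Pool.Agent.V.State
import Pool.Agent.V.Sum
import Pool.Agent.V.Window

/-!
# The expectation of the slices of an element of the relative commutant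
-/

open scoped InnerProductSpace Topology ENNReal BoundedContinuousFunction
open ContinuousLinearMap Filter MeasureTheory

namespace Pool.Agent.Helper23

universe u

variable {H : Type u} [NormedAddCommGroup H] [InnerProductSpace ℂ H] [CompleteSpace H]
variable {M N : VonNeumannAlgebra H} {ξ : H} {E : (H →L[ℂ] H) → (H →L[ℂ] H)}

lemma Fam.zero_bicent {x : ℝ → H →L[ℂ] H} (hx : Fam M N ξ x) : x 0 ∈ Bicent M N ξ := by
  refine ⟨hx.mem 0, fun a ha η => ?_⟩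
  have h1 := (hx.shift 0 1 one_pos a ha η).neg
  rw [neg_zero, Real.log_one, zero_add] at h1
  refine h1.congr fun n => ?_
  rw [sub_apply, neg_sub]
  rfl

namespace Setting

variable (S : Setting M N E ξ)
include S

lemma E_slX_scalar (hIII : TypeIIIOne N) {X : L2R H →L[ℂ] L2R H} (hX : X ∈ Rk M N ξ)
    (f g : L2R ℂ) : ∃ c : ℂ, E (slX X f g) = c • 1 := by
  obtain ⟨R, D, Ψ, hΨ, hN⟩ := S.exists_modular
  have h1 : E (slX X f g) ∈ N := S.E_mem _ (slX_mem hX.1 f g)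
  have h2 : E (slX X f g) ∈ Bicent M N ξ := by
    have := (S.fam_E (S.fam_slX hX f g)).zero_bicent
    rw [tr_zero] at this
    exact this
  refine S.scalar_of_fixed hIII hΨ h1 h2 (fun G => S.slE_fixed hIII hΨ hN hX f g G) fun G => ?_
  rw [S.star_E_slX hX f g]
  exact S.slE_fixed hIII hΨ hN (Rk_star hX) g f G

lemma E_slX_eq (hIII : TypeIIIOne N) {X : L2R H →L[ℂ] L2R H} (hX : X ∈ Rk M N ξ)
    (f g : L2R ℂ) : E (slX X f g) = ⟪ten f ξ, X (ten g ξ)⟫_ℂ • (1 : H →L[ℂ] H) := by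
  obtain ⟨c, hc⟩ := S.E_slX_scalar hIII hX f g
  have h1 := S.E_state _ (slX_mem hX.1 f g)
  rw [hc, smul_apply, inner_smul_right, inner_slX] at h1
  have h2 : ⟪ξ, (1 : H →L[ℂ] H) ξ⟫_ℂ = 1 := S.inner_self
  rw [h2, mul_one] at h1
  rw [hc, h1]

lemma Rk_scalar (hIII : TypeIIIOne N) {X : L2R H →L[ℂ] L2R H} (hX : X ∈ Rk M N ξ) :
    ∃ c : ℂ, ∀ f1 f2 : L2R ℂ, ⟪ten f1 ξ, X (ten f2 ξ)⟫_ℂ = c * ⟪f1, f2⟫_ℂ := by
  obtain ⟨c, hc⟩ := scalar_of_comm (R := RR X ξ ξ) (by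
    intro m hm f
    refine ext_inner_left ℂ fun g => ?_
    rw [inner_RR, ← mulOp_adj hm, inner_RR, ← mulOp_ten hm, ← Rk_mulOp_apply' hX hm,
      ← mulOp_adj hm, mulOp_ten hm.conj]) (by
    intro t f
    refine ext_inner_left ℂ fun g => ?_
    have h1 : ⟪g, tr ℂ t (RR X ξ ξ f)⟫_ℂ = ⟪tr ℂ (-t) g, RR X ξ ξ f⟫_ℂ := by
      rw [tr_adj, neg_neg]
    rw [h1, inner_RR, inner_RR, ← inner_slX, ← inner_slX]
    have h2 := S.fam_state hIII (S.fam_slX hX (tr ℂ (-t) g) f) t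
    rw [tr_tr_neg, tr_zero] at h2
    exact h2)
  refine ⟨c, fun f1 f2 => ?_⟩
  rw [← inner_RR, hc, smul_apply, inner_smul_right]
  rfl

theorem Rk_E (hIII : TypeIIIOne N) {X : L2R H →L[ℂ] L2R H}
    (hX : X ∈ Rk M N ξ) : ∃ c : ℂ, ∀ f g : L2R ℂ,
      E (slX X f g) = (c * ⟪f, g⟫_ℂ) • (1 : H →L[ℂ] H) := by
  obtain ⟨c, hc⟩ := S.Rk_scalar hIII hX
  exact ⟨c, fun f g => by rw [S.E_slX_eq hIII hX, hc]⟩

end Setting

end Pool.Agent.Helper23
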