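import Pool.Agent.Helper23.VAlg

/-!
# Asymptotic intertwining for the value at zero
-/

open scoped InnerProductSpace Topology ENNReal BoundedContinuousFunction
open ContinuousLinearMap Filter MeasureTheory

set_option linter.unusedSectionVars false

namespace Pool.Agent.Helper23

universe u

variable {H : Type u} [NormedAddCommGroup H] [InnerProductSpace ℂ H] [CompleteSpace H]
variable {M N : VonNeumannAlgebra H} {ξ : H} {E : (H →L[ℂ] H) → (H →L[ℂ] H)}

lemma slX_conj_tr (X : L2R H →L[ℂ] L2R H) (t : ℝ) (f g : L2R ℂ) :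
    slX (tr H (-t) * X * tr H t) f g = slX X (tr ℂ t f) (tr ℂ t g) := by
  ext η
  change sl f (tr H (-t) (X (tr H t (ten g η)))) = sl (tr ℂ t f) (X (ten (tr ℂ t g) η))
  rw [sl_tr, neg_neg, tr_ten]

lemma slX_fn_norm (X : L2R H →L[ℂ] L2R H) (n : ℕ) : ‖slX X (fn n) (fn n)‖ ≤ ‖X‖ := by
  refine opNorm_le_bound _ (norm_nonneg _) fun η => ?_
  rw [slX_apply]
  refine (sl_norm_le _ _).trans ?_
  rw [fn_norm, one_mul]
  refine (X.le_opNorm _).trans ?_
  rw [norm_ten, fn_norm, one_mul]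

namespace AtZ

variable {X : L2R H →L[ℂ] L2R H} {x x' : H →L[ℂ] H}

/-- the intertwining property -/
lemma shift (S : Setting M N E ξ) (hx : AtZ M N ξ X x) {l : ℝ} (hl : 0 < l)
    (hx' : AtZ M N ξ (tr H (-Real.log l) * X * tr H (Real.log l)) x') {a : ℕ → H →L[ℂ] H}
    (ha : LamSeq N ξ l a) (η : H) :
    Tendsto (fun n => (a n * x - x' * a n) η) atTop (𝓝 0) := by
  set X' := tr H (-Real.log l) * X * tr H (Real.log l) with hX'
  obtain ⟨C, hC⟩ := ha.2.1
  have hC0 : 0 ≤ C := (norm_nonneg _).trans (hC 0)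
  obtain ⟨K, hK0, hK⟩ := S.lam_bound hl ha
  refine tendsto_of_bounded M S.dense_comm (x := fun n => a n * x - x' * a n)
    (C := C * ‖x‖ + ‖x'‖ * C)
    (fun n => sub_mem (mul_mem (S.le _ (ha.1 n)) hx.2.1)
      (mul_mem hx'.2.1 (S.le _ (ha.1 n))))
    (fun n => (norm_sub_le _ _).trans (add_le_add
      ((norm_mul_le _ _).trans (mul_le_mul_of_nonneg_right (hC n) (norm_nonneg _)))
      ((norm_mul_le _ _).trans (mul_le_mul_of_nonneg_left (hC n) (norm_nonneg _))))) ?_ η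
  rw [Metric.tendsto_atTop]
  intro ε hε
  -- the approximating slices
  set δ : ℝ := ε / 4 with hδ
  have hδ0 : 0 < δ := by positivity
  have h1 := (tendsto_iff_norm_sub_tendsto_zero.1 (hx.slX_tendsto S ξ))
  have h2 := (tendsto_iff_norm_sub_tendsto_zero.1 (hx'.slX_tendsto S ξ))
  obtain ⟨k1, hk1⟩ := Metric.tendsto_atTop.1 h1 (δ / (C + 1)) (by positivity)
  obtain ⟨k2, hk2⟩ := Metric.tendsto_atTop.1 h2 (δ / (2 * (Real.sqrt K + 1))) (by positivity)
  set k := max k1 k2 with hk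
  have e1 := hk1 k (le_max_left _ _)
  have e2 := hk2 k (le_max_right _ _)
  rw [Real.dist_eq, sub_zero, abs_of_nonneg (norm_nonneg _)] at e1 e2
  set y := slX X (fn k) (fn k) with hy
  set y' := slX X' (fn k) (fn k) with hy'
  have hy'M : y' ∈ M := slX_mem hx'.1.1 _ _
  have h3 := S.slX_shift_all hx.1 (fn k) (fn k) hl ha ξ
  rw [← slX_conj_tr, ← hX'] at h3
  obtain ⟨n1, hn1⟩ := Metric.tendsto_atTop.1 h3 δ hδ0
  have h4 := hK ((δ / 2) ^ 2 / (‖y' - x'‖ ^ 2 + 1)) (by positivity)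
  obtain ⟨n2, hn2⟩ := eventually_atTop.1 h4
  refine ⟨max n1 n2, fun n hn => ?_⟩
  have f1 := hn1 n ((le_max_left _ _).trans hn)
  have f2 := hn2 n ((le_max_right _ _).trans hn) (y' - x') (sub_mem hy'M hx'.2.1)
  rw [dist_zero_right] at f1 ⊢
  have g1 : ‖(y' - x') (a n ξ)‖ ≤ δ := by
    have g2 : ‖(y' - x') (a n ξ)‖ ^ 2 ≤ δ ^ 2 := by
      refine f2.trans ?_
      have g3 : (δ / 2) ^ 2 / (‖y' - x'‖ ^ 2 + 1) * ‖y' - x'‖ ^ 2 ≤ (δ / 2) ^ 2 := by
        rw [div_mul_eq_mul_div, div_le_iff₀ (by positivity)]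
        nlinarith [sq_nonneg δ]
      have g4 : K * ‖(y' - x') ξ‖ ^ 2 ≤ (δ / 2) ^ 2 := by
        have g5 : ‖(y' - x') ξ‖ ≤ δ / (2 * (Real.sqrt K + 1)) := e2.le
        have g6 : Real.sqrt K * ‖(y' - x') ξ‖ ≤ δ / 2 := by
          calc Real.sqrt K * ‖(y' - x') ξ‖ ≤ (Real.sqrt K + 1) * (δ / (2 * (Real.sqrt K + 1))) := by
                gcongr
                linarith
            _ = δ / 2 := by field_simp
        calc K * ‖(y' - x') ξ‖ ^ 2 = (Real.sqrt K * ‖(y' - x') ξ‖) ^ 2 := by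
              rw [mul_pow, Real.sq_sqrt hK0]
          _ ≤ _ := by gcongr
      nlinarith [sq_nonneg δ]
    exact (pow_le_pow_iff_left₀ (norm_nonneg _) hδ0.le two_ne_zero).1 g2
  have g2 : ‖a n (x ξ - y ξ)‖ ≤ δ := by
    rw [norm_sub_rev] at e1
    calc ‖a n (x ξ - y ξ)‖ ≤ C * ‖x ξ - y ξ‖ := ContinuousLinearMap.le_of_opNorm_le _ (hC n) _
      _ ≤ (C + 1) * (δ / (C + 1)) := by
          gcongr
          linarith
      _ = δ := by field_simp
  have e3 : (a n * x - x' * a n) ξ = a n (x ξ - y ξ) + (a n * y - y' * a n) ξ +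
      (y' - x') (a n ξ) := by
    change a n (x ξ) - x' (a n ξ) = a n (x ξ - y ξ) + (a n (y ξ) - y' (a n ξ)) +
      (y' (a n ξ) - x' (a n ξ))
    rw [map_sub]
    abel
  rw [e3]
  calc _ ≤ ‖a n (x ξ - y ξ)‖ + ‖(a n * y - y' * a n) ξ‖ + ‖(y' - x') (a n ξ)‖ :=
        norm_add₃_le
    _ < ε := by linarith

/-- uniqueness of the intertwining element -/
lemma eq_of_shift (S : Setting M N E ξ) (hIII : TypeIIIOne N) (hx : AtZ M N ξ X x) {l : ℝ}
    (hl : 0 < l)
    (hx' : AtZ M N ξ (tr H (-Real.log l) * X * tr H (Real.log l)) x') {z : H →L[ℂ] H}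
    (hz : z ∈ M) (h : ∀ a, LamSeq N ξ l a →
      Tendsto (fun n => (a n * x - z * a n) ξ) atTop (𝓝 0)) : z = x' := by
  rw [← sub_eq_zero]
  refine S.lam_zero hIII hl (sub_mem hz hx'.2.1) fun a ha => ?_
  have h1 := (hx.shift S hl hx' ha ξ).sub (h a ha)
  rw [sub_zero] at h1
  refine h1.congr fun n => ?_
  change (a n (x ξ) - x' (a n ξ)) - (a n (x ξ) - z (a n ξ)) = z (a n ξ) - x' (a n ξ)
  abel

/-- the adjoints -/
lemma shift_star (S : Setting M N E ξ) (hIII : TypeIIIOne N) (hx : AtZ M N ξ X x) {l : ℝ}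
    (hl : 0 < l)
    (hx' : AtZ M N ξ (tr H (-Real.log l) * X * tr H (Real.log l)) x') {a : ℕ → H →L[ℂ] H}
    (ha : LamSeq N ξ l a) (η : H) :
    Tendsto (fun n => (Star.star (a n * x - x' * a n)) η) atTop (𝓝 0) := by
  have hb : LamSeq N ξ l⁻¹ (fun n => Star.star (a n)) := by
    obtain ⟨haN, ⟨C, hC⟩, hD⟩ := ha
    exact ⟨fun n => star_mem (haN n), ⟨C, fun n => by rw [norm_star]; exact hC n⟩,
      Dseq.star hl hD⟩
  have h1 : AtZ M N ξ (tr H (-Real.log l⁻¹) *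
      Star.star (tr H (-Real.log l) * X * tr H (Real.log l)) * tr H (Real.log l⁻¹))
      (Star.star x) := by
    have e1 : tr H (-Real.log l⁻¹) *
        Star.star (tr H (-Real.log l) * X * tr H (Real.log l)) * tr H (Real.log l⁻¹) =
        Star.star X := by
      rw [Real.log_inv, neg_neg, star_mul, star_mul, tr_star, tr_star, neg_neg]
      ext F : 1
      change tr H (Real.log l) (tr H (-Real.log l) ((Star.star X) (tr H (Real.log l)
        (tr H (-Real.log l) F)))) = _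
      rw [tr_tr_neg, tr_tr_neg]
    rw [e1]
    exact hx.star S hIII
  have h2 := (hx'.star S hIII).shift S (inv_pos.2 hl) h1 hb η
  have h3 := h2.neg
  rw [neg_zero] at h3
  refine h3.congr fun n => ?_
  rw [star_sub, star_mul, star_mul, ← neg_apply, neg_sub]

end AtZ

end Pool.Agent.Helper23
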