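import Pool.Agent.Helper23.Sur
import Pool.Agent.Helper23.RBFDefs

/-!
# The weight on the amplification is dominant
-/

open scoped InnerProductSpace Topology ENNReal
open ContinuousLinearMap Filter MeasureTheory

set_option linter.unusedSectionVars false
set_option linter.unusedVariables false

namespace Pool.Agent.Helper23

variable {H : Type*} [NormedAddCommGroup H] [InnerProductSpace ℂ H] [CompleteSpace H]
variable {M N : VonNeumannAlgebra H} {ξ : H} {E : (H →L[ℂ] H) → (H →L[ℂ] H)}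

/-- the weight on the amplification -/
noncomputable def wK (ξ : H) (X : L2R H →L[ℂ] L2R H) : ℝ≥0∞ :=
  ∑' j : JJ, ENNReal.ofReal (⟪ten (gJ j) ξ, X (ten (gJ j) ξ)⟫_ℂ).re

lemma wK_star_mul (ξ : H) (Y : L2R H →L[ℂ] L2R H) : wK ξ (star Y * Y) = SX ξ Y := by
  rw [wK, SX_def]
  refine tsum_congr fun j => ?_
  congr 1
  have h := norm_sq_apply Y (ten (gJ j) ξ)
  change (⟪ten (gJ j) ξ, (star Y) (Y (ten (gJ j) ξ))⟫_ℂ).re = _
  rw [← h, Complex.ofReal_re]

section general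

variable {L : Type*} [NormedAddCommGroup L] [InnerProductSpace ℂ L] [CompleteSpace L]

lemma exists_sqrt_mem (A : VonNeumannAlgebra L) {X : L →L[ℂ] L} (hX : X ∈ A) (h0 : 0 ≤ X) :
    ∃ Y ∈ A, star Y * Y = X := by
  have : IsClosed (A : Set (L →L[ℂ] L)) := vN_isClosed A
  have : IsClosed (A.toStarSubalgebra : Set (L →L[ℂ] L)) := vN_isClosed A
  refine ⟨CFC.sqrt X, ?_, ?_⟩
  · rw [CFC.sqrt_eq_real_sqrt X h0]
    have h1 : cfcₙ Real.sqrt X ∈ A.toStarSubalgebra := by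
      refine cfcₙ_mem (s := A.toStarSubalgebra) Real.sqrt ?_
      exact hX
    exact h1
  · rw [(IsSelfAdjoint.of_nonneg (CFC.sqrt_nonneg X)).star_eq]
    exact CFC.sqrt_mul_sqrt_self X h0

lemma re_inner_nonneg {X : L →L[ℂ] L} (h0 : 0 ≤ X) (η : L) : 0 ≤ (⟪η, X η⟫_ℂ).re :=
  ((nonneg_iff_isPositive X).1 h0).re_inner_nonneg_right η

lemma le_re_inner {X Y : L →L[ℂ] L} (h : X ≤ Y) (η : L) : (⟪η, X η⟫_ℂ).re ≤ (⟪η, Y η⟫_ℂ).re := by
  have h1 := re_inner_nonneg (sub_nonneg.2 h) η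
  rw [sub_apply, inner_sub_right, Complex.sub_re] at h1
  linarith

end general

lemma q0_eq_zero {f : L2R ℂ} (h : q0 f = 0) : f = 0 := by
  rw [q0, lintegral_eq_zero_iff'] at h
  · ext1
    filter_upwards [h, Lp.coeFn_zero ℂ 2 volume] with s e1 e2
    rw [e2]
    have e3 : Real.exp s * ‖f s‖ ^ 2 ≤ 0 := ENNReal.ofReal_eq_zero.1 e1
    have e4 : 0 < Real.exp s := Real.exp_pos s
    have e5 : ‖f s‖ ^ 2 ≤ 0 := by
      by_contra hcon
      push Not at hcon
      nlinarith [mul_pos e4 hcon]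
    have e6 : ‖f s‖ = 0 := by nlinarith [norm_nonneg (f s)]
    exact norm_eq_zero.1 e6
  · refine ENNReal.measurable_ofReal.comp_aemeasurable ?_
    exact Real.measurable_exp.aemeasurable.mul
      ((Lp.aestronglyMeasurable f).norm.aemeasurable.pow_const 2)

lemma SX_eq_zero {Y : L2R H →L[ℂ] L2R H} (h : SX ξ Y = 0) (f : L2R ℂ) : Y (ten f ξ) = 0 := by
  rw [SX_def, ENNReal.tsum_eq_zero] at h
  have h1 : ∀ j : JJ, Y (ten (gJ j) ξ) = 0 := by
    intro j
    have := h j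
    rw [ENNReal.ofReal_eq_zero] at this
    have h2 : ‖Y (ten (gJ j) ξ)‖ = 0 := by nlinarith [norm_nonneg (Y (ten (gJ j) ξ))]
    exact norm_eq_zero.1 h2
  refine ext_inner_right ℂ fun k => ?_
  rw [inner_zero_left]
  have h3 : (adjoint (Y.comp (axi ξ))) k = 0 := by
    refine q0_eq_zero ?_
    rw [← frame]
    refine ENNReal.tsum_eq_zero.2 fun j => ?_
    rw [adjoint_inner_right]
    change ENNReal.ofReal (‖⟪Y (ten (gJ j) ξ), k⟫_ℂ‖ ^ 2) = 0
    rw [h1, inner_zero_left]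
    simp
  have h4 : ⟪f, (adjoint (Y.comp (axi ξ))) k⟫_ℂ = ⟪Y (ten f ξ), k⟫_ℂ := by
    rw [adjoint_inner_right]; rfl
  rw [← h4, h3, inner_zero_right]

lemma SX_tr (t : ℝ) (Y : L2R H →L[ℂ] L2R H) :
    SX ξ (Y * tr H t) = ENNReal.ofReal (Real.exp (-t)) * SX ξ Y := by
  have h2 : (Y * tr H t).comp (axi ξ) = (Y.comp (axi ξ)).comp (tr ℂ t) := by
    ext f : 1
    change Y (tr H t (ten f ξ)) = Y (ten (tr ℂ t f) ξ)
    rw [tr_ten]
  rw [SX, h2, SS_tr]
  rfl

lemma isLUB_ofReal {ι : Type*} {g : ι → ℝ} {S : Set ℝ} {a : ℝ} (hS : ∀ r, r ∈ S ↔ ∃ i, r = g i)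
    (h : IsLUB S a) : ENNReal.ofReal a = ⨆ i, ENNReal.ofReal (g i) := by
  refine le_antisymm ?_ (iSup_le fun i => ENNReal.ofReal_le_ofReal (h.1 ((hS _).2 ⟨i, rfl⟩)))
  refine le_of_forall_lt fun c hc => ?_
  have hc' : c ≠ ⊤ := (lt_of_lt_of_le hc le_top).ne
  rw [ENNReal.lt_ofReal_iff_toReal_lt hc'] at hc
  obtain ⟨r, hr, hcr⟩ := (lt_isLUB_iff h).1 hc
  obtain ⟨i, rfl⟩ := (hS r).1 hr
  refine lt_of_lt_of_le ((ENNReal.lt_ofReal_iff_toReal_lt hc').2 hcr) (le_iSup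
    (fun i => ENNReal.ofReal (g i)) i)

lemma tsum_iSup_directed {ι J : Type*} {f : J → ι → ℝ≥0∞}
    (hf : ∀ i k, ∃ l, ∀ a, f a i ≤ f a l ∧ f a k ≤ f a l) :
    ∑' a, ⨆ i, f a i = ⨆ i, ∑' a, f a i := by
  rw [ENNReal.tsum_eq_iSup_sum]
  simp only [ENNReal.tsum_eq_iSup_sum]
  rw [iSup_comm]
  refine iSup_congr fun s => ?_
  exact ENNReal.finsetSum_iSup hf

open RBF in
lemma wK_nsf (hd : Dense (orb N.commutant ξ : Set H)) :
    IsNSFWeight (amp N) (wK ξ) where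
  add x hx y hy hx0 hy0 := by
    rw [wK, wK, wK, ← ENNReal.tsum_add]
    refine tsum_congr fun j => ?_
    rw [← ENNReal.ofReal_add (re_inner_nonneg hx0 _) (re_inner_nonneg hy0 _), add_apply,
      inner_add_right, Complex.add_re]
  smul x hx hx0 c hc := by
    rw [wK, wK, ← ENNReal.tsum_mul_left]
    refine tsum_congr fun j => ?_
    rw [← ENNReal.ofReal_mul hc, smul_apply, inner_smul_right, Complex.re_ofReal_mul]
  faithful x hx hx0 h := by
    obtain ⟨Y, hY, rfl⟩ := exists_sqrt_mem (amp N) hx hx0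
    rw [wK_star_mul] at h
    have hY0 : Y = 0 := amp_ext (ξ := ξ) hd hY (zero_mem _) fun f => by
      rw [SX_eq_zero h f]; rfl
    rw [hY0, mul_zero]
  normal D x hD hdir hDA hx hlub := by
    have h1 : ∀ j : JJ, ENNReal.ofReal (⟪ten (gJ j) ξ, x (ten (gJ j) ξ)⟫_ℂ).re =
        ⨆ d : D, ENNReal.ofReal (⟪ten (gJ j) ξ, (d : L2R H →L[ℂ] L2R H) (ten (gJ j) ξ)⟫_ℂ).re := by
      intro j
      refine isLUB_ofReal (fun r => ?_) (hlub (ten (gJ j) ξ))
      constructor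
      · rintro ⟨d, hd, rfl⟩
        exact ⟨⟨d, hd⟩, rfl⟩
      · rintro ⟨d, rfl⟩
        exact ⟨d, d.2, rfl⟩
    rw [wK]
    simp only [h1]
    rw [tsum_iSup_directed, iSup_subtype']
    · rfl
    · rintro ⟨d, hd⟩ ⟨d', hd'⟩
      obtain ⟨e, he, h2, h3⟩ := hdir d hd d' hd'
      exact ⟨⟨e, he⟩, fun a => ⟨ENNReal.ofReal_le_ofReal (le_re_inner h2 _),
        ENNReal.ofReal_le_ofReal (le_re_inner h3 _)⟩⟩
  semifinite F hF := by
    have h1 : ∀ n : ℕ, ∀ f : L2R ℂ, Pn n f = f → sl f F = 0 := by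
      intro n f hf
      have hm : rk (1 : H →L[ℂ] H) e0 f ∈ amp N := rk_mem_amp (one_mem N) _ _
      have h2 := hF (star (rk (1 : H →L[ℂ] H) e0 f) * rk (1 : H →L[ℂ] H) e0 f)
        (mul_mem (star_mem hm) hm) (star_mul_self_nonneg _) (by
          rw [wK_star_mul, SX_rk]
          exact ENNReal.mul_ne_top ENNReal.ofReal_ne_top (q0_lt_top hf))
      have h3 : ‖rk (1 : H →L[ℂ] H) e0 f F‖ = 0 := by
        have h4 := norm_sq_apply (rk (1 : H →L[ℂ] H) e0 f) F
        change _ = ⟪F, (star (rk (1 : H →L[ℂ] H) e0 f) * rk (1 : H →L[ℂ] H) e0 f) F⟫_ℂ at h4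
        rw [h2, inner_zero_right] at h4
        have h5 : ‖rk (1 : H →L[ℂ] H) e0 f F‖ ^ 2 = 0 := by exact_mod_cast h4
        exact pow_eq_zero_iff two_ne_zero |>.1 h5
      rw [rk_apply, norm_ten, e0_norm, one_mul, one_apply_eq_self] at h3
      exact norm_eq_zero.1 h3
    refine eq_zero_of_ten fun f η => ?_
    have h2 : (adjoint (axi η)) F = 0 := by
      refine eq_zero_of_Pn (n0 := 0) fun n _ => ?_
      refine ext_inner_left ℂ fun g => ?_
      rw [← inner_Pn, adjoint_inner_right, inner_zero_right]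
      change ⟪ten (Pn n g) η, F⟫_ℂ = 0
      rw [← inner_sl, h1 n _ (Pn_Pn n g), inner_zero_right]
    have h3 : ⟪f, (adjoint (axi η)) F⟫_ℂ = ⟪ten f η, F⟫_ℂ := by
      rw [adjoint_inner_right]; rfl
    rw [← h3, h2, inner_zero_right]

open RBF in
lemma GK_iff {u : L2R H →L[ℂ] L2R H} : u ∈ GK N ξ ↔ ScalingUnitary (amp N) (wK ξ) 1 u := by
  constructor
  · rintro ⟨h1, h2, h3, h4⟩
    refine ⟨h1, h2, h3, fun X hX hX0 => ?_⟩
    obtain ⟨Y, hY, rfl⟩ := exists_sqrt_mem (amp N) hX hX0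
    have : star u * (star Y * Y) * u = star (Y * u) * (Y * u) := by
      rw [star_mul]; simp only [mul_assoc]
    rw [this, wK_star_mul, wK_star_mul, h4 Y hY, ENNReal.ofReal_one, one_mul]
  · rintro ⟨h1, h2, h3, h4⟩
    refine ⟨h1, h2, h3, fun Y hY => ?_⟩
    have := h4 (star Y * Y) (mul_mem (star_mem hY) hY) (star_mul_self_nonneg _)
    have h5 : star u * (star Y * Y) * u = star (Y * u) * (Y * u) := by
      rw [star_mul]; simp only [mul_assoc]
    rw [h5, wK_star_mul, wK_star_mul, ENNReal.ofReal_one, one_mul] at this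
    exact this

open RBF in
/-- the translations scale the weight -/
lemma tr_scaling {l : ℝ} (hl : 0 < l) :
    ScalingUnitary (amp N) (wK ξ) l (tr H (-Real.log l)) := by
  refine ⟨tr_mem_amp _, ?_, ?_, fun X hX hX0 => ?_⟩
  · rw [tr_star]
    ext F : 1
    exact tr_neg_tr _ F
  · rw [tr_star]
    ext F : 1
    exact tr_tr_neg _ F
  · obtain ⟨Y, hY, rfl⟩ := exists_sqrt_mem (amp N) hX hX0
    have : star (tr H (-Real.log l)) * (star Y * Y) * tr H (-Real.log l) =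
        star (Y * tr H (-Real.log l)) * (Y * tr H (-Real.log l)) := by
      rw [star_mul]; simp only [mul_assoc]
    rw [this, wK_star_mul, wK_star_mul, SX_tr, neg_neg, Real.exp_log hl]

/-- two isometric eigenoperators with orthogonal ranges -/
lemma AP.exists_two (S : AP M N E ξ) : ∃ γ : ℝ, 2 < γ ∧ ∃ v ∈ eig N ξ γ, ∃ w ∈ eig N ξ γ,
    star v * v = 1 ∧ star w * w = 1 ∧ star v * w = 0 := by
  obtain ⟨γ, hγ, h2, -⟩ := S.dns 2 3 (by norm_num) (by norm_num)
  have hγ0 : 0 < γ := hγ.1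
  obtain ⟨v, hv, hv1, -⟩ := S.exists_isometry hγ one_mem_eig (star_one _) (mul_one _) (by
    rw [one_apply_eq_self, S.norm_one, one_pow]
    exact inv_lt_one_of_one_lt₀ (by linarith))
  set e : H →L[ℂ] H := 1 - v * star v with he
  have hve : v * star v ∈ eig N ξ 1 := mul_star_mem_eig_one hγ0.ne' hv hv
  have hee : (v * star v) * (v * star v) = v * star v := by
    rw [mul_assoc, ← mul_assoc (star v), hv1, one_mul]
  have hes : star e = e := by rw [he, star_sub, star_one, star_mul, star_star]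
  have he2 : e * e = e := by
    rw [he, sub_mul, one_mul, mul_sub, mul_one, hee, sub_self, sub_zero]
  have heφ : ‖e ξ‖ ^ 2 = 1 - γ⁻¹ := by
    have h1 : ((‖e ξ‖ ^ 2 : ℝ) : ℂ) = ((1 - γ⁻¹ : ℝ) : ℂ) := by
      rw [norm_sq_apply, hes]
      change ⟪ξ, (e * e) ξ⟫_ℂ = _
      rw [he2, he, sub_apply, inner_sub_right, one_apply_eq_self, S.inner_self]
      have h2 := hv.2 (star v) (star_mem hv.1)
      change ⟪ξ, (star v * v) ξ⟫_ℂ = γ * ⟪ξ, (v * star v) ξ⟫_ℂ at h2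
      rw [hv1, one_apply_eq_self, S.inner_self] at h2
      have hγc : (γ : ℂ) ≠ 0 := by exact_mod_cast hγ0.ne'
      have h3 : ⟪ξ, (v * star v) ξ⟫_ℂ = (γ : ℂ)⁻¹ := by
        exact eq_inv_of_mul_eq_one_right h2.symm
      rw [h3]
      push_cast
      rfl
    exact_mod_cast h1
  obtain ⟨w, hw, hw1, hew⟩ := S.exists_isometry hγ (Submodule.sub_mem _ one_mem_eig hve) hes he2
    (by
      rw [heφ]
      have : γ⁻¹ < 2⁻¹ := inv_strictAnti₀ (by norm_num) h2
      linarith)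
  refine ⟨γ, h2, v, hv, w, hw, hv1, hw1, ?_⟩
  rw [← hew, ← mul_assoc, mul_sub, mul_one, ← mul_assoc, hv1, one_mul, sub_self, zero_mul]

open RBF in
theorem AP.wK_dominant (S : AP M N E ξ) : IsDominant (amp N) (wK ξ) where
  toIsNSFWeight := wK_nsf S.dense_commN
  scale l hl := ⟨_, tr_scaling hl⟩
  properlyInfinite := by
    obtain ⟨γ, h2, v, hv, w, hw, hv1, hw1, hvw⟩ := S.exists_two
    refine ⟨VV H v (Real.log γ), VV H w (Real.log γ), VV_isom hv1 _, VV_isom hw1 _, ?_,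
      fun T hT => ?_⟩
    · have e1 : lift (star v) * lift w = 0 := by
        rw [← lift_mul, hvw]
        ext F : 1
        ext1
        filter_upwards [lift_coe (0 : H →L[ℂ] H) F, Lp.coeFn_zero H 2 volume] with s a1 a2
        rw [a1, zero_apply, zero_apply, a2]
        rfl
      rw [VV, VV, star_mul, ← lift_star, mul_assoc, ← mul_assoc (lift (star v)), e1, zero_mul,
        mul_zero]
    · have hT' : ∀ u ∈ GK N ξ, u * T = T * u := fun u hu => hT u (GK_iff.1 hu)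
      exact ⟨S.comm_VV hT' (by linarith) hv hv1, S.comm_VV hT' (by linarith) hw hw1⟩

end Pool.Agent.Helper23
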